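import Pool.Agent.TJ2.Stmts3
import Pool.Agent.MotP.Eq

/-!
# Theorem J, module ABE (helper84)

No numerically trivial sections on the generated objects implies that the full subcategory of the
generated objects is abelian.
-/

open CategoryTheory MonoidalCategory BraidedCategory Limits ObjectProperty ZeroObject

universe v u

namespace Pool.Agent.TJ2

namespace ABE

noncomputable section

set_option linter.unusedSectionVars false

variable {C : Type u} [Category.{v} C] [Preadditive C] [Linear ℚ C] [MonoidalCategory C]
  [SymmetricCategory C] [MonoidalPreadditive C] [MonoidalLinear ℚ C] [RightRigidCategory C]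

/-- the property of being generated -/
abbrev PG (P : C → Prop) : ObjectProperty C := fun X => Gen P X

instance (P : C → Prop) : (PG P).IsMonoidal where
  prop_unit := Gen.unit
  prop_tensor X Y hX hY := Gen.tensor X Y hX hY

/-- duals in the full subcategory -/
@[reducible] def pairing (P : C → Prop) (X Y : (PG P).FullSubcategory)
    [ExactPairing X.obj Y.obj] : ExactPairing X Y where
  coevaluation' := homMk (η_ X.obj Y.obj)
  evaluation' := homMk (ε_ X.obj Y.obj)
  coevaluation_evaluation' := by
    ext
    exact ExactPairing.coevaluation_evaluation X.obj Y.obj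
  evaluation_coevaluation' := by
    ext
    exact ExactPairing.evaluation_coevaluation X.obj Y.obj

instance (P : C → Prop) : RightRigidCategory (PG P).FullSubcategory where
  rightDual X :=
    { rightDual := ⟨X.objᘁ, Gen.dual _ X.property⟩
      exact := pairing P X ⟨X.objᘁ, Gen.dual _ X.property⟩ }

lemma trace_hom (P : C → Prop) {X : (PG P).FullSubcategory} (f : X ⟶ X) :
    (Mot.trace f).hom = Mot.trace f.hom := rfl

/-- the Frobenius of the full subcategory -/
def subF (W : MotP.Frobenius C) (P : C → Prop) :
    𝟭 (PG P).FullSubcategory ⟶ 𝟭 (PG P).FullSubcategory where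
  app X := homMk (W.F.app X.obj)
  naturality X Y f := by
    ext
    exact W.F.naturality f.hom

lemma component_pow (W : MotP.Frobenius C) (P : C → Prop) (X : (PG P).FullSubcategory) (n : ℕ) :
    InducedCategory.Hom.hom (Mot.component (subF W P) X ^ n : X ⟶ X) =
      (Mot.component W.F X.obj ^ n : X.obj ⟶ X.obj) := by
  induction n with
  | zero => rfl
  | succ n ih =>
    rw [pow_succ, pow_succ]
    change (Mot.component (subF W P) X : X ⟶ X).hom ≫ InducedCategory.Hom.hom
      (Mot.component (subF W P) X ^ n : X ⟶ X) = (Mot.component W.F X.obj : X.obj ⟶ X.obj) ≫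
        (Mot.component W.F X.obj ^ n : X.obj ⟶ X.obj)
    rw [ih]
    rfl

/-- the Frobenius structure on the full subcategory -/
def sub (W : MotP.Frobenius C) (P : C → Prop) : MotP.Frobenius (PG P).FullSubcategory where
  scalar f := by
    obtain ⟨r, hr⟩ := W.scalar f.hom
    refine ⟨r, ?_⟩
    ext
    exact hr
  unit_ne h := by
    have h1 := congrArg InducedCategory.Hom.hom h
    exact W.unit_ne h1
  F := subF W P
  F_unit := by
    ext
    exact W.F_unit
  F_tensor X Y := by
    ext
    exact W.F_tensor X.obj Y.obj
  even X := W.even X.obj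
  odd X := W.odd X.obj
  trace_formula X n r h := by
    apply W.trace_formula X.obj n r
    have h1 := congrArg InducedCategory.Hom.hom h
    rw [trace_hom] at h1
    have h2 := component_pow W P X n
    rw [h2] at h1
    exact h1
  one_not_odd X := W.one_not_odd X.obj

instance [IsIdempotentComplete C] (P : C → Prop) :
    IsIdempotentComplete (PG P).FullSubcategory where
  idempotents_split X e he := by
    obtain ⟨Y, i, p, h1, h2⟩ := IsIdempotentComplete.idempotents_split X.obj e.hom
      (congrArg InducedCategory.Hom.hom he)
    refine ⟨⟨Y, Gen.summand _ _ i p h1 X.property⟩, homMk i, homMk p, ?_, ?_⟩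
    · ext
      exact h1
    · ext
      exact h2

instance [HasFiniteBiproducts C] (P : C → Prop) :
    HasBinaryBiproducts (PG P).FullSubcategory where
  has_binary_biproduct X Y := by
    have : HasBinaryBiproducts C := hasBinaryBiproducts_of_finite_biproducts C
    let Z : (PG P).FullSubcategory := ⟨X.obj ⊞ Y.obj, Gen.sum _ _ _ biprod.inl biprod.fst
      biprod.inr biprod.snd biprod.inl_fst biprod.inr_snd biprod.total X.property Y.property⟩
    let b : BinaryBicone X Y :=
      { pt := Z
        fst := homMk biprod.fst
        snd := homMk biprod.snd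
        inl := homMk biprod.inl
        inr := homMk biprod.inr
        inl_fst := by ext; exact biprod.inl_fst
        inl_snd := by ext; exact biprod.inl_snd
        inr_fst := by ext; exact biprod.inr_fst
        inr_snd := by ext; exact biprod.inr_snd }
    refine hasBinaryBiproduct_of_total b ?_
    apply ObjectProperty.hom_ext
    exact biprod.total (X := X.obj) (Y := Y.obj)

instance [HasFiniteBiproducts C] (P : C → Prop) :
    HasZeroObject (PG P).FullSubcategory where
  zero := by
    have : HasZeroObject C := inferInstance
    refine ⟨⟨(0 : C), Gen.summand (𝟙_ C) 0 0 0 ?_ Gen.unit⟩, ?_⟩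
    · exact (isZero_zero C).eq_of_src _ _
    · rw [IsZero.iff_id_eq_zero]
      ext

instance [HasFiniteBiproducts C] (P : C → Prop) :
    HasFiniteBiproducts (PG P).FullSubcategory := by
  have h1 : HasInitial (PG P).FullSubcategory := HasZeroObject.hasInitial
  have h2 : HasFiniteCoproducts (PG P).FullSubcategory :=
    hasFiniteCoproducts_of_has_binary_and_initial
  exact HasFiniteBiproducts.of_hasFiniteCoproducts

theorem num_zero (P : C → Prop) (h : ∀ Z, Gen P Z → NoNt Z) (X Y : C)
    (f : X ⟶ Y) (hX : Gen P X) (hY : Gen P Y) (hf : MotP.NumTrivial f) : f = 0 := by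
  apply MotP.nm_inj
  have h0 : MotP.nm (0 : X ⟶ Y) = 0 := (MotP.nmL X Y).map_zero
  rw [h0]
  apply h _ (Gen.tensor _ _ hY (Gen.dual _ hX))
  intro g
  obtain ⟨k, rfl⟩ := MotP.ev_surj g
  rw [MotP.nm_ev]
  exact hf k

end

end ABE

theorem t_ABE : S_ABE.{v, u} := by
  intro C _ _ _ _ _ _ _ _ _ _ W P h
  have hnum := ABE.num_zero P h
  refine ⟨?_, hnum⟩
  refine ((ABE.sub W P).toFrob ?_).isAbelian
  intro X Y f hf
  ext
  refine hnum _ _ f.hom X.property Y.property ?_
  intro g
  have h1 := congrArg InducedCategory.Hom.hom (hf (homMk g))
  exact h1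

end Pool.Agent.TJ2
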