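import Pool.Agent.TJ2.Stmts3

/-!
# Theorem J, module ALG: identity principle for several commuting operators (MP_6c4da4_ag)
-/

open Polynomial

universe w

namespace Pool.Agent.TJ2

noncomputable section

theorem ALG_ev2 {A B : Type*} [Ring A] [Algebra ℚ A] [Ring B] [Algebra ℚ B] (g : A →ₐ[ℚ] B) (n : ℕ)
    (D : ℕ → ℕ → ℚ) (a b : A) : g (ev2 n D a b) = ev2 n D (g a) (g b) := by
  unfold ev2
  rw [map_sum]
  refine Finset.sum_congr rfl fun i _ => ?_
  rw [map_sum]
  refine Finset.sum_congr rfl fun j _ => ?_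
  rw [map_smul, map_mul, map_pow, map_pow]

/-- evaluation of polynomials at commuting operators -/
theorem ALG_hom {B : Type*} [Ring B] [Algebra ℚ B] {ι : Type} (φ : ι → B)
    (hc : ∀ i j, Commute (φ i) (φ j)) :
    ∃ g : MvPolynomial ι ℚ →ₐ[ℚ] B, ∀ i, g (MvPolynomial.X i) = φ i := by
  have hcomm : ∀ a ∈ Set.range φ, ∀ b ∈ Set.range φ, a * b = b * a := by
    rintro _ ⟨i, rfl⟩ _ ⟨j, rfl⟩
    exact hc i j
  let _ : CommRing (Algebra.adjoin ℚ (Set.range φ)) := Algebra.adjoinCommRingOfComm ℚ hcomm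
  let f : MvPolynomial ι ℚ →ₐ[ℚ] Algebra.adjoin ℚ (Set.range φ) :=
    MvPolynomial.aeval fun i => ⟨φ i, Algebra.subset_adjoin ⟨i, rfl⟩⟩
  refine ⟨(Algebra.adjoin ℚ (Set.range φ)).val.comp f, fun i => ?_⟩
  show ((f (MvPolynomial.X i) : Algebra.adjoin ℚ (Set.range φ)) : B) = φ i
  rw [MvPolynomial.aeval_X]

/-- an ideal which contains polynomials in every variable has a zero -/
theorem ALG_zero {ι : Type} [Finite ι] (I : Ideal (MvPolynomial ι ℚ)) (hI : I ≠ ⊤) (P : ι → ℚ[X])
    (hP : ∀ i, P i ≠ 0) (hPI : ∀ i, aeval (MvPolynomial.X i : MvPolynomial ι ℚ) (P i) ∈ I) :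
    ∃ α : ι → Qb, ∀ r ∈ I, MvPolynomial.aeval α r = 0 := by
  obtain ⟨M, hM, hIM⟩ := Ideal.exists_le_maximal I hI
  let _ : Field (MvPolynomial ι ℚ ⧸ M) := Ideal.Quotient.field M
  have hint : ∀ r : MvPolynomial ι ℚ, IsIntegral ℚ (Ideal.Quotient.mkₐ ℚ M r) := by
    intro r
    induction r using MvPolynomial.induction_on with
    | C a =>
      have : Ideal.Quotient.mkₐ ℚ M (MvPolynomial.C a) = algebraMap ℚ _ a := (Ideal.Quotient.mkₐ ℚ M).commutes a
      rw [this]
      exact isIntegral_algebraMap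
    | add p q hp hq =>
      rw [map_add]
      exact hp.add hq
    | mul_X p i hp =>
      rw [map_mul]
      refine hp.mul ?_
      refine IsAlgebraic.isIntegral ⟨P i, hP i, ?_⟩
      rw [Polynomial.aeval_algHom_apply]
      exact Ideal.Quotient.eq_zero_iff_mem.2 (hIM (hPI i))
  have halg : Algebra.IsAlgebraic ℚ (MvPolynomial ι ℚ ⧸ M) := by
    refine ⟨fun x => ?_⟩
    obtain ⟨r, rfl⟩ := Ideal.Quotient.mk_surjective x
    exact (hint r).isAlgebraic
  let e : (MvPolynomial ι ℚ ⧸ M) →ₐ[ℚ] Qb := IsAlgClosed.lift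
  refine ⟨fun i => e (Ideal.Quotient.mkₐ ℚ M (MvPolynomial.X i)), fun r hr => ?_⟩
  have h1 : MvPolynomial.aeval (fun i => e (Ideal.Quotient.mkₐ ℚ M (MvPolynomial.X i))) =
      e.comp (Ideal.Quotient.mkₐ ℚ M) := by
    apply MvPolynomial.algHom_ext
    intro i
    rw [MvPolynomial.aeval_X]
    rfl
  rw [h1]
  show e (Ideal.Quotient.mk M r) = 0
  rw [Ideal.Quotient.eq_zero_iff_mem.2 (hIM hr), map_zero]

theorem t_ALG : S_ALG.{w} := by
  intro V _ _ m φ P c J n D x hc hsq hP hα hx hJ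
  by_contra hx0
  obtain ⟨g, hg⟩ := ALG_hom φ hc
  let I : Ideal (MvPolynomial (Fin (m + 1)) ℚ) :=
    { carrier := {r | g r x = 0}
      add_mem' := by
        intro a b ha hb
        show g (a + b) x = 0
        have ha' : g a x = 0 := ha
        have hb' : g b x = 0 := hb
        rw [map_add, LinearMap.add_apply, ha', hb', add_zero]
      zero_mem' := by
        show g 0 x = 0
        rw [map_zero, LinearMap.zero_apply]
      smul_mem' := by
        intro a b hb
        show g (a * b) x = 0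
        have hb' : g b x = 0 := hb
        rw [map_mul, Module.End.mul_apply, hb', map_zero] }
  have hmem : ∀ r, r ∈ I ↔ g r x = 0 := fun r => Iff.rfl
  have hI : I ≠ ⊤ := by
    rw [Ideal.ne_top_iff_one, hmem, map_one, Module.End.one_apply]
    exact hx0
  have hPI : ∀ i, aeval (MvPolynomial.X i : MvPolynomial (Fin (m + 1)) ℚ) (P i) ∈ I := by
    intro i
    rw [hmem, ← Polynomial.aeval_algHom_apply, hg, hP, LinearMap.zero_apply]
  obtain ⟨α, hα'⟩ := ALG_zero I hI P (fun i => (hsq i).ne_zero) hPI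
  have h1 : ∀ i, aeval (α i) (P i) = 0 := by
    intro i
    have := hα' _ (hPI i)
    rwa [← Polynomial.aeval_algHom_apply, MvPolynomial.aeval_X] at this
  have h2 : algebraMap ℚ Qb c * ∏ i, α i = 1 := by
    have h3 : c • (List.ofFn fun i : Fin (m + 1) => (MvPolynomial.X i : MvPolynomial (Fin (m + 1)) ℚ)).prod - 1 ∈ I := by
      rw [hmem, map_sub, map_smul, map_list_prod, List.map_ofFn, map_one]
      have h4 : (⇑g ∘ fun i : Fin (m + 1) => (MvPolynomial.X i : MvPolynomial (Fin (m + 1)) ℚ)) = φ := by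
        funext i
        exact hg i
      rw [h4, LinearMap.sub_apply, LinearMap.smul_apply, hx, Module.End.one_apply, sub_self]
    have h5 := hα' _ h3
    rw [map_sub, map_smul, map_list_prod, List.map_ofFn, map_one, sub_eq_zero, Algebra.smul_def] at h5
    have h6 : (⇑(MvPolynomial.aeval α) ∘ fun i : Fin (m + 1) => (MvPolynomial.X i : MvPolynomial (Fin (m + 1)) ℚ)) = α := by
      funext i
      exact MvPolynomial.aeval_X _ _
    rw [h6, List.prod_ofFn] at h5
    exact h5
  obtain ⟨j, hj, h3⟩ := hα α h1 h2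
  have h4 : ev2 n D (MvPolynomial.X 0 : MvPolynomial (Fin (m + 1)) ℚ) (MvPolynomial.X j.succ) ∈ I := by
    rw [hmem, ALG_ev2, hg, hg]
    exact hJ j hj
  have h5 := hα' _ h4
  rw [ALG_ev2, MvPolynomial.aeval_X, MvPolynomial.aeval_X, h3] at h5
  exact one_ne_zero h5

end

end Pool.Agent.TJ2
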