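import Pool.Agent.TJ2.CDefs

/-!
# Theorem J: statements of the modules of the categorical part (helper2)

`PAPER.md`, section 3.  Module `X`: theorem `t_X : S_X`.
-/

open CategoryTheory MonoidalCategory BraidedCategory Limits Polynomial

universe w v u

namespace Pool.Agent.TJ2

noncomputable section

/-! ## Arithmetic -/

/-- Basic facts on the Weil polynomial. -/
def S_WEI : Prop :=
  ∀ (q : ℕ) (h : ℤ[X]), 1 ≤ q → h.Monic →
    (weil q h).Monic ∧ (weil q h).natDegree = 2 * h.natDegree ∧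
    (∀ a : Qb, aeval a (weil q h) = 0 ↔ a ∈ Om q h) ∧
    (Full q h → Squarefree ((weil q h).map (Int.castRingHom ℚ)) ∧ ((weil q h).aroots ℂ).Nodup)

/-- the value of a polynomial with coefficients `G i j`, `i, j < n`, at `(a, b)` -/
def ev2 {A : Type*} [Ring A] [Algebra ℚ A] (n : ℕ) (G : ℕ → ℕ → ℚ) (a b : A) : A :=
  ∑ i ∈ Finset.range n, ∑ j ∈ Finset.range n, G i j • (a ^ i * b ^ j)

open Classical in
/-- A rational polynomial `D (x, y)` which is `1` at `(a, q / a)` and `0` at the other pairs of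
elements of `Om q h`. -/
def S_DXY : Prop :=
  ∀ (q : ℕ) (h : ℤ[X]), 1 ≤ q → h.Monic → Full q h →
    ∃ D : ℕ → ℕ → ℚ, ∀ a ∈ Om q h, ∀ b ∈ Om q h,
      ev2 (2 * h.natDegree) D a b = if b = (q : Qb) / a then 1 else 0

/-- Representatives for the twist. -/
def S_REP : Prop :=
  ∀ q : ℕ, 1 ≤ q → ∃ S₀ : Set ℤ[X], S₀ ⊆ Sel q ∧ (∀ h ∈ Sel q, h ∈ S₀ ∨ (tw h ∈ S₀ ∧ h = tw (tw h)))
    ∧ ∀ h ∈ S₀, ∀ h' ∈ S₀, h ≠ tw h'

/-- Identity principle for several commuting operators. -/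
def S_ALG : Prop :=
  ∀ (V : Type w) [AddCommGroup V] [Module ℚ V] (m : ℕ) (φ : Fin (m + 1) → Module.End ℚ V)
    (P : Fin (m + 1) → ℚ[X]) (c : ℚ) (J : Finset (Fin m)) (n : ℕ) (D : ℕ → ℕ → ℚ) (x : V),
    (∀ i j, Commute (φ i) (φ j)) → (∀ i, Squarefree (P i)) → (∀ i, aeval (φ i) (P i) = 0) →
    (∀ α : Fin (m + 1) → Qb, (∀ i, aeval (α i) (P i) = 0) →
      algebraMap ℚ Qb c * ∏ i, α i = 1 → ∃ j ∈ J, ev2 n D (α 0) (α j.succ) = 1) →
    c • (List.ofFn φ).prod x = x → (∀ j ∈ J, ev2 n D (φ 0) (φ j.succ) x = 0) → x = 0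

/-- Identity principle for two commuting operators. -/
def S_IDT : Prop :=
  ∀ (V : Type w) [AddCommGroup V] [Module ℚ V] (φ ψ : Module.End ℚ V) (P : ℚ[X]) (n : ℕ)
    (N G : ℕ → ℕ → ℚ) (x : V), Commute φ ψ → Squarefree P → aeval φ P = 0 → aeval ψ P = 0 →
    (∀ a b : Qb, aeval a P = 0 → aeval b P = 0 → ev2 n N a b = 0 → ev2 n G a b = 0) →
    ev2 n N φ ψ x = 0 → ev2 n G φ ψ x = 0

/-! ## Tensor words -/

section Words

variable {C : Type u} [Category.{v} C] [MonoidalCategory C]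

/-- `M h₁ ⊗ (M h₂ ⊗ (... ⊗ U))` -/
def Zo (M : ℤ[X] → C) (U : C) : List ℤ[X] → C
  | [] => U
  | h :: l => M h ⊗ Zo M U l

/-- `F` on the `i`-th factor of `Zo M U l` -/
def opZ (F : 𝟭 C ⟶ 𝟭 C) (M : ℤ[X] → C) (U : C) :
    (l : List ℤ[X]) → ℕ → (Zo M U l ⟶ Zo M U l)
  | [], _ => 𝟙 _
  | h :: l, 0 => F.app (M h) ▷ Zo M U l
  | h :: l, i + 1 => M h ◁ opZ F M U l i

end Words

section Cat

variable {C : Type u} [Category.{v} C] [Preadditive C] [Linear ℚ C] [MonoidalCategory C]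
  [SymmetricCategory C] [MonoidalPreadditive C] [MonoidalLinear ℚ C] [RightRigidCategory C]

/-- composition with `opZ` on the sections -/
def phZ (F : 𝟭 C ⟶ 𝟭 C) (M : ℤ[X] → C) (U : C) (l : List ℤ[X]) (i : ℕ) :
    Module.End ℚ (𝟙_ C ⟶ Zo M U l) := Linear.rightComp ℚ (𝟙_ C) (opZ F M U l i)

/-- `F ⊗ 1` on `X ⊗ X` -/
def opL (F : 𝟭 C ⟶ 𝟭 C) (X : C) : End (X ⊗ X) := F.app X ▷ X

/-- `1 ⊗ F` on `X ⊗ X` -/
def opR (F : 𝟭 C ⟶ 𝟭 C) (X : C) : End (X ⊗ X) := X ◁ F.app X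

/-- no numerically trivial sections -/
def NoNt (Z : C) : Prop := ∀ f : 𝟙_ C ⟶ Z, (∀ g : Z ⟶ 𝟙_ C, f ≫ g = 0) → f = 0

/-- monomials in `T`, `T'`, `χ` -/
def AV.U {W : MotP.Frobenius C} {q : ℕ} {S : Set ℤ[X]} (D : AV W q S) (a b e : ℕ) : C :=
  (Mot.T D.T a ⊗ Mot.T D.T' b) ⊗ Mot.T D.χ e

/-- objects isomorphic to `Zo M U l`, `U` a monomial, `l` in `S₀` -/
def AV.InZ {W : MotP.Frobenius C} {q : ℕ} {S : Set ℤ[X]} (D : AV W q S) (S₀ : Set ℤ[X])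
    (Y : C) : Prop :=
  ∃ (a b e : ℕ) (l : List ℤ[X]), (∀ h ∈ l, h ∈ S₀) ∧ Nonempty (Y ≅ Zo D.M (D.U a b e) l)

/-- `Z` is a direct summand of a finite direct sum of objects with `P` -/
def Dom (P : C → Prop) (Z : C) : Prop :=
  ∃ (κ : Type) (_ : Fintype κ) (Y : κ → C) (i : ∀ k, Z ⟶ Y k) (p : ∀ k, Y k ⟶ Z),
    (∀ k, P (Y k)) ∧ ∑ k, i k ≫ p k = 𝟙 Z

end Cat

/-- Moving the `i`-th factor to the front. -/
def S_MOV : Prop :=
  ∀ (C : Type u) [Category.{v} C] [MonoidalCategory C] [SymmetricCategory C] (F : 𝟭 C ⟶ 𝟭 C)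
    (M : ℤ[X] → C) (U : C) (l : List ℤ[X]) (i : ℕ) (hi : i < l.length),
    ∃ π : Zo M U l ≅ M (l[i]) ⊗ Zo M U (l.eraseIdx i),
      opZ F M U l i ≫ π.hom = π.hom ≫ F.app (M (l[i])) ▷ Zo M U (l.eraseIdx i)

/-- The operators commute. -/
def S_COM : Prop :=
  ∀ (C : Type u) [Category.{v} C] [MonoidalCategory C] (F : 𝟭 C ⟶ 𝟭 C)
    (M : ℤ[X] → C) (U : C) (l : List ℤ[X]) (i j : ℕ),
    opZ F M U l i ≫ opZ F M U l j = opZ F M U l j ≫ opZ F M U l i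

/-- The product of the operators is the Frobenius, up to its scalar on `U`. -/
def S_PRD : Prop :=
  ∀ (C : Type u) [Category.{v} C] [Preadditive C] [Linear ℚ C] [MonoidalCategory C]
    [SymmetricCategory C] [MonoidalPreadditive C] [MonoidalLinear ℚ C] [RightRigidCategory C]
    (W : MotP.Frobenius C) (M : ℤ[X] → C) (U : C) (c : ℚ) (l : List ℤ[X])
    (f : 𝟙_ C ⟶ Zo M U l), W.F.app U = c • 𝟙 U →
    c • (List.ofFn (fun i : Fin l.length => phZ W.F M U l (i : ℕ))).prod f = f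

/-- The operators satisfy the polynomial of the Frobenius of the factor. -/
def S_PLZ : Prop :=
  ∀ (C : Type u) [Category.{v} C] [Preadditive C] [Linear ℚ C] [MonoidalCategory C]
    [SymmetricCategory C] [MonoidalPreadditive C] [MonoidalLinear ℚ C] [RightRigidCategory C]
    (W : MotP.Frobenius C) (M : ℤ[X] → C) (U : C) (l : List ℤ[X]) (i : ℕ) (hi : i < l.length)
    (P : ℤ[X]), aeval (Mot.component W.F (M (l[i]))) P = 0 →
    aeval (phZ W.F M U l i) (P.map (Int.castRingHom ℚ)) = 0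

/-- `T` can be moved to `U`; and words can be multiplied. -/
def S_WRD : Prop :=
  ∀ (C : Type u) [Category.{v} C] [MonoidalCategory C] [SymmetricCategory C]
    (M : ℤ[X] → C) (U : C) (l : List ℤ[X]),
    (∀ T : C, Nonempty (T ⊗ Zo M U l ≅ Zo M (T ⊗ U) l)) ∧
    (∀ V : C, Nonempty (U ≅ V) → Nonempty (Zo M U l ≅ Zo M V l)) ∧
    (∀ (V : C) (l' : List ℤ[X]),
      Nonempty (Zo M U l ⊗ Zo M V l' ≅ Zo M (U ⊗ V) (l ++ l')))

/-- Monomials: Frobenius, triviality, products, duals. -/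
def S_MON : Prop :=
  ∀ (C : Type u) [Category.{v} C] [Preadditive C] [Linear ℚ C] [MonoidalCategory C]
    [SymmetricCategory C] [MonoidalPreadditive C] [MonoidalLinear ℚ C] [RightRigidCategory C]
    (W : MotP.Frobenius C) (q : ℕ) (S : Set ℤ[X]) (D : AV W q S), 2 ≤ q →
    (∀ a b e : ℕ, ∃ c : ℚ, W.F.app (D.U a b e) = c • 𝟙 _ ∧ (∃ k : ℤ, c ^ 2 = (q : ℚ) ^ k) ∧
      (c = 1 → Nonempty (D.U a b e ≅ 𝟙_ C))) ∧
    (∀ a b e a' b' e' : ℕ, Nonempty (D.U a b e ⊗ D.U a' b' e' ≅ D.U (a + a') (b + b') (e + e'))) ∧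
    (∀ a b e : ℕ, Nonempty ((D.U a b e)ᘁ ≅ D.U b a e)) ∧
    Nonempty (D.T ≅ D.U 1 0 0) ∧ Nonempty (D.T' ≅ D.U 0 1 0) ∧ Nonempty (D.χ ≅ D.U 0 0 1) ∧
    Nonempty (𝟙_ C ≅ D.U 0 0 0)

/-- The maps `s i : T ⟶ X ⊗ X`, `r j : X ⊗ X ⟶ T` of (3.1). -/
def S_KEA : Prop :=
  ∀ (C : Type u) [Category.{v} C] [Preadditive C] [Linear ℚ C] [MonoidalCategory C]
    [SymmetricCategory C] [MonoidalPreadditive C] [MonoidalLinear ℚ C] [RightRigidCategory C]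
    (W : MotP.Frobenius C) (X T : C), Nonempty (Xᘁ ⊗ T ≅ X) →
    ∃ (s : ℕ → (T ⟶ X ⊗ X)) (r : ℕ → (X ⊗ X ⟶ T)), ∀ (i j : ℕ) (t : ℚ),
      Mot.trace (Mot.component W.F X ^ (i + j)) = t • 𝟙 (𝟙_ C) → s i ≫ r j = t • 𝟙 T

/-- The polynomials in `F ⊗ 1`, `1 ⊗ F` on `X ⊗ X`: traces, and `X' ⊗ T ≅ X` gives `dim T = 1` if
`dim X ≠ 0`. -/
def S_KEB : Prop :=
  ∀ (C : Type u) [Category.{v} C] [Preadditive C] [Linear ℚ C] [MonoidalCategory C]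
    [SymmetricCategory C] [MonoidalPreadditive C] [MonoidalLinear ℚ C] [RightRigidCategory C]
    (_ : MotP.Frobenius C) (X T : C),
    (∀ (f g : X ⟶ X) (s t : ℚ), Mot.trace f = s • 𝟙 (𝟙_ C) → Mot.trace g = t • 𝟙 (𝟙_ C) →
      Mot.trace (f ⊗ₘ g) = (s * t) • 𝟙 (𝟙_ C)) ∧
    (∀ (s : T ⟶ X ⊗ X) (r : X ⊗ X ⟶ T), Mot.trace (r ≫ s) = Mot.trace (s ≫ r)) ∧
    (Nonempty (Xᘁ ⊗ T ≅ X) → Mot.trace (𝟙 X) ≠ 0 → Mot.trace (𝟙 T) = 𝟙 (𝟙_ C))

/-- The key identity (3.1). -/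
def S_KEY : Prop :=
  ∀ (C : Type u) [Category.{v} C] [Preadditive C] [Linear ℚ C] [MonoidalCategory C]
    [SymmetricCategory C] [MonoidalPreadditive C] [MonoidalLinear ℚ C] [RightRigidCategory C]
    (W : MotP.Frobenius C) (q : ℕ) (S : Set ℤ[X]) (D : AV W q S) (h : ℤ[X]) (E : ℕ → ℕ → ℚ),
    1 ≤ q → h ∈ S → 1 ≤ h.natDegree → h.Monic → Full q h →
    (∀ a ∈ Om q h, ∀ b ∈ Om q h, b = (q : Qb) / a → ev2 (2 * h.natDegree) E a b = 1) →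
    (∀ a ∈ Om q h, ∀ b ∈ Om q h, b ≠ (q : Qb) / a → ev2 (2 * h.natDegree) E a b = 0) →
    ∃ (n : ℕ) (s : Fin n → (D.T ⟶ D.M h ⊗ D.M h)) (r : Fin n → (D.M h ⊗ D.M h ⟶ D.T)),
      ev2 (2 * h.natDegree) E (opL W.F (D.M h)) (opR W.F (D.M h)) = ∑ k, r k ≫ s k

/-- The main induction (3.3). -/
def S_MAI : Prop :=
  ∀ (C : Type u) [Category.{v} C] [Preadditive C] [Linear ℚ C] [MonoidalCategory C]
    [SymmetricCategory C] [MonoidalPreadditive C] [MonoidalLinear ℚ C] [RightRigidCategory C]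
    (W : MotP.Frobenius C) (q : ℕ) (S S₀ : Set ℤ[X]) (D : AV W q S), 2 ≤ q → S ⊆ FO q → S₀ ⊆ S →
    (∀ (l : List (ℤ[X] × Qb)), (∀ x ∈ l, x.1 ∈ S₀ ∧ x.2 ∈ Om q x.1) →
      ∀ (k : ℤ), (l.map Prod.snd).prod ^ 2 = (q : Qb) ^ k → ∀ x ∈ l, (x.1, (q : Qb) / x.2) ∈ l) →
    ∀ (a b e : ℕ) (l : List ℤ[X]), (∀ h ∈ l, h ∈ S₀) → NoNt (Zo D.M (D.U a b e) l)

/-- The class `InZ` is stable under tensor products and duals, and contains the generators. -/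
def S_INZ : Prop :=
  ∀ (C : Type u) [Category.{v} C] [Preadditive C] [Linear ℚ C] [MonoidalCategory C]
    [SymmetricCategory C] [MonoidalPreadditive C] [MonoidalLinear ℚ C] [RightRigidCategory C]
    (W : MotP.Frobenius C) (q : ℕ) (S S₀ : Set ℤ[X]) (D : AV W q S), 2 ≤ q → S₀ ⊆ S →
    (∀ h ∈ S, h ∈ S₀ ∨ (tw h ∈ S₀ ∧ h = tw (tw h))) →
    D.InZ S₀ (𝟙_ C) ∧ (∀ X Y, D.InZ S₀ X → D.InZ S₀ Y → D.InZ S₀ (X ⊗ Y)) ∧
    (∀ X, D.InZ S₀ X → D.InZ S₀ Xᘁ) ∧ ∀ Y, D.Obj Y → D.InZ S₀ Y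

/-- Generated objects are dominated by a class which is stable under tensor products and duals. -/
def S_DOM : Prop :=
  ∀ (C : Type u) [Category.{v} C] [Preadditive C] [Linear ℚ C] [MonoidalCategory C]
    [SymmetricCategory C] [MonoidalPreadditive C] [MonoidalLinear ℚ C] [RightRigidCategory C]
    (P₀ P : C → Prop), P (𝟙_ C) → (∀ X Y, P X → P Y → P (X ⊗ Y)) → (∀ X, P X → P Xᘁ) →
    (∀ Y, P₀ Y → P Y) → ∀ Z, Gen P₀ Z → Dom P Z

/-- No numerically trivial sections on the generated objects implies abelian. -/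
def S_ABE : Prop :=
  ∀ (C : Type u) [Category.{v} C] [Preadditive C] [Linear ℚ C] [MonoidalCategory C]
    [SymmetricCategory C] [MonoidalPreadditive C] [MonoidalLinear ℚ C] [RightRigidCategory C]
    [HasFiniteBiproducts C] [IsIdempotentComplete C] (_ : MotP.Frobenius C) (P : C → Prop),
    (∀ Z, Gen P Z → NoNt Z) → MotP.IsAbelian (GenCat P) ∧
      ∀ (X Y : C) (f : X ⟶ Y), Gen P X → Gen P Y → MotP.NumTrivial f → f = 0

/-- The categorical theorem. -/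
def S_CAT : Prop :=
  ∀ (C : Type u) [Category.{v} C] [Preadditive C] [Linear ℚ C] [MonoidalCategory C]
    [SymmetricCategory C] [MonoidalPreadditive C] [MonoidalLinear ℚ C] [RightRigidCategory C]
    [HasFiniteBiproducts C] [IsIdempotentComplete C] (W : MotP.Frobenius C) (q : ℕ)
    (D : AV W q (Sel q)), IsPrimePow q →
    MotP.IsAbelian (GenCat D.Obj) ∧
      ∀ (X Y : C) (f : X ⟶ Y), Gen D.Obj X → Gen D.Obj Y → MotP.NumTrivial f → f = 0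

end

end Pool.Agent.TJ2
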