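import Pool.Agent.TJ2.Stmts2
import Pool.Agent.TJ2.Stmts3

/-!
# Theorem J: the categorical theorem
-/

open CategoryTheory MonoidalCategory BraidedCategory Limits Polynomial

universe v u

namespace Pool.Agent.TJ2

section

variable {C : Type u} [Category.{v} C] [Preadditive C] [MonoidalCategory C]

lemma CAT_noNt_iso {Y Z : C} (i : Y ≅ Z) (h : NoNt Z) : NoNt Y := by
  intro f hf
  have h1 : f ≫ i.hom = 0 := by
    apply h
    intro g
    rw [Category.assoc]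
    exact hf _
  have h2 : f = (f ≫ i.hom) ≫ i.inv := by
    rw [Category.assoc, i.hom_inv_id, Category.comp_id]
  rw [h2, h1, Limits.zero_comp]

lemma CAT_noNt_dom {P : C → Prop} (hP : ∀ Y, P Y → NoNt Y) {Z : C} (h : Dom P Z) : NoNt Z := by
  obtain ⟨κ, hκ, Y, i, p, hY, hs⟩ := h
  intro f hf
  have h1 : ∀ k, f ≫ i k = 0 := by
    intro k
    refine hP _ (hY k) _ fun g => ?_
    rw [Category.assoc]
    exact hf _
  calc f = f ≫ 𝟙 Z := (Category.comp_id f).symm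
    _ = f ≫ ∑ k, i k ≫ p k := by rw [hs]
    _ = ∑ k, f ≫ i k ≫ p k := Preadditive.comp_sum _ _ _
    _ = 0 := Finset.sum_eq_zero fun k _ => by
      rw [← Category.assoc, h1 k, Limits.zero_comp]

end

theorem t_CAT (hIND : S_IND) (hREP : S_REP) (hMAI : S_MAI.{v, u}) (hINZ : S_INZ.{v, u})
    (hDOM : S_DOM.{v, u}) (hABE : S_ABE.{v, u}) : S_CAT.{v, u} := by
  classical
  intro C _ _ _ _ _ _ _ _ _ _ W q D hq
  have hq2 : 2 ≤ q := hq.two_le
  obtain ⟨S₀, hS₀, hrep, htw⟩ := hREP q (by omega)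
  have hind : ∀ (l : List (ℤ[X] × Qb)), (∀ x ∈ l, x.1 ∈ S₀ ∧ x.2 ∈ Om q x.1) →
      ∀ (k : ℤ), (l.map Prod.snd).prod ^ 2 = (q : Qb) ^ k →
        ∀ x ∈ l, (x.1, (q : Qb) / x.2) ∈ l := by
    intro l hl k hk x hx
    have h1 := hIND q hq l (fun x hx => ⟨hS₀ (hl x hx).1, (hl x hx).2⟩)
      (fun x hx y hy => htw _ (hl x hx).1 _ (hl y hy).1) 2 k (by norm_num) hk x.1 x.2
    refine List.count_pos_iff.1 (h1 ▸ ?_)
    exact List.count_pos_iff.2 hx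
  have hM := hMAI C W q (Sel q) S₀ D hq2 (fun h hh => hh.1) hS₀ hind
  obtain ⟨hI1, hI2, hI3, hI4⟩ := hINZ C W q (Sel q) S₀ D hq2 hS₀ hrep
  refine hABE C W D.Obj fun Z hZ => ?_
  refine CAT_noNt_dom (P := D.InZ S₀) ?_ (hDOM C D.Obj (D.InZ S₀) hI1 hI2 hI3 hI4 Z hZ)
  rintro Y ⟨a, b, e, l, hl, ⟨i⟩⟩
  exact CAT_noNt_iso i (hM a b e l hl)

end Pool.Agent.TJ2
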