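import Pool.Agent.TJ2.Stmts

/-!
# Formula for `delta` (Theorem J, module DEL)
-/

open Polynomial

namespace Pool.Agent.TJ2

namespace DEL

/-- the value at a square root of `4 q` -/
theorem DEL_aeval {R : Type*} [CommRing R] (q : ℕ) (h : ℤ[X]) (s : R) (hs : s ^ 2 = 4 * (q : R)) :
    aeval s h = (Xv q h : R) + s * (Yv q h : R) := by
  rw [aeval_eq_sum_range]
  unfold Xv Yv
  push_cast
  rw [Finset.mul_sum, ← Finset.sum_add_distrib]
  apply Finset.sum_congr rfl
  intro i _
  rw [zsmul_eq_mul]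
  rcases Nat.even_or_odd i with hi | hi
  · have ho : ¬ Odd i := Nat.not_odd_iff_even.2 hi
    rw [if_pos hi, if_neg ho]
    have h2 : s ^ i = (4 * (q : R)) ^ (i / 2) := by
      rw [← hs, ← pow_mul]
      congr 1
      obtain ⟨j, hj⟩ := hi
      omega
    rw [h2]
    ring
  · have he : ¬ Even i := Nat.not_even_iff_odd.2 hi
    rw [if_neg he, if_pos hi]
    have h2 : s ^ i = s * (4 * (q : R)) ^ (i / 2) := by
      rw [← hs, ← pow_mul, ← pow_succ']
      congr 1
      obtain ⟨j, hj⟩ := hi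
      omega
    rw [h2]
    ring

/-- product over the roots -/
theorem DEL_prod {L : Type*} [Field L] [IsAlgClosed L] (q : ℕ) (h : ℤ[X]) (hm : h.Monic) :
    (delta q h : L) = ((h.aroots L).map (fun b => b ^ 2 - 4 * (q : L))).prod := by
  obtain ⟨s, hs⟩ := IsAlgClosed.exists_pow_nat_eq (4 * (q : L)) (n := 2) (by norm_num)
  have h1 := DEL_aeval q h s hs
  have h2 := DEL_aeval q h (-s) (by rw [neg_sq]; exact hs)
  have hpr : ∀ v : L, aeval v h = ((h.aroots L).map fun b => v - b).prod := by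
    intro v
    have hmon : (h.map (algebraMap ℤ L)).Monic := hm.map _
    have hsp : (h.map (algebraMap ℤ L)).Splits := IsAlgClosed.splits _
    rw [aeval_def, eval₂_eq_eval_map, aroots_def]
    exact hsp.eval_eq_prod_roots_of_monic hmon v
  have h3 : (delta q h : L) = aeval s h * aeval (-s) h := by
    rw [h1, h2]
    unfold delta
    push_cast
    linear_combination ((Yv q h : L) ^ 2) * hs
  rw [h3, hpr, hpr, ← Multiset.prod_map_mul]
  congr 1
  apply Multiset.map_congr rfl
  intro b _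
  linear_combination (-1 : L) * hs

end DEL

theorem t_DEL : S_DEL := by
  intro q h hm
  have hs2 : (2 * Real.sqrt q) ^ 2 = 4 * (q : ℝ) := by
    rw [mul_pow, Real.sq_sqrt (Nat.cast_nonneg q)]
    norm_num
  refine ⟨DEL.DEL_aeval q h _ hs2, ?_, DEL.DEL_prod q h hm, DEL.DEL_prod q h hm⟩
  rw [DEL.DEL_aeval q h (-(2 * Real.sqrt q)) (by rw [neg_sq]; exact hs2)]
  ring

end Pool.Agent.TJ2
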