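import Pool.Agent.TJ2.Stmts3

/-!
# Theorem J, module DOM: generated objects are dominated
-/

open CategoryTheory MonoidalCategory BraidedCategory Limits Polynomial

universe w v u

namespace Pool.Agent.TJ2

section DOMaux

variable {C : Type u} [Category.{v} C] [Preadditive C] [MonoidalCategory C]
  [MonoidalPreadditive C] [RightRigidCategory C]

lemma DOM_mate_sum {X Y : C} {κ : Type} [Fintype κ] (f : κ → (X ⟶ Y)) :
    rightAdjointMate (∑ k, f k) = ∑ k, rightAdjointMate (f k) := by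
  unfold rightAdjointMate
  rw [sum_whiskerRight, whiskerLeft_sum]
  simp only [Preadditive.comp_sum, Preadditive.sum_comp]

omit [MonoidalCategory C] [MonoidalPreadditive C] [RightRigidCategory C] in
lemma DOM_base (P : C → Prop) (Z : C) (h : P Z) : Dom P Z := by
  refine ⟨Unit, inferInstance, fun _ => Z, fun _ => 𝟙 Z, fun _ => 𝟙 Z, fun _ => h, ?_⟩
  simp

end DOMaux

theorem t_DOM : S_DOM := by
  intro C _ _ _ _ _ _ _ _ P₀ P hU hT hD hP Z hZ
  induction hZ with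
  | of X hX => exact DOM_base P X (hP X hX)
  | unit => exact DOM_base P _ hU
  | tensor X Y _ _ h1 h2 =>
    obtain ⟨κ, _, Y1, i1, p1, hP1, e1⟩ := h1
    obtain ⟨l, _, Y2, i2, p2, hP2, e2⟩ := h2
    refine ⟨κ × l, inferInstance, fun k => Y1 k.1 ⊗ Y2 k.2, fun k => i1 k.1 ⊗ₘ i2 k.2,
      fun k => p1 k.1 ⊗ₘ p2 k.2, fun k => hT _ _ (hP1 k.1) (hP2 k.2), ?_⟩
    rw [Fintype.sum_prod_type]
    have h3 : ∀ a ∈ (Finset.univ : Finset κ), ∑ b : l, (i1 a ⊗ₘ i2 b) ≫ (p1 a ⊗ₘ p2 b) =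
        (i1 a ≫ p1 a) ⊗ₘ 𝟙 Y := by
      intro a _
      rw [← e2, tensor_sum]
      refine Finset.sum_congr rfl fun b _ => ?_
      rw [MonoidalCategory.tensorHom_comp_tensorHom]
    rw [Finset.sum_congr rfl h3, ← sum_tensor, e1, MonoidalCategory.id_tensorHom_id]
  | dual X _ h1 =>
    obtain ⟨κ, _, Y1, i1, p1, hP1, e1⟩ := h1
    refine ⟨κ, inferInstance, fun k => (Y1 k)ᘁ, fun k => rightAdjointMate (p1 k),
      fun k => rightAdjointMate (i1 k), fun k => hD _ (hP1 k), ?_⟩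
    have h3 : ∀ a ∈ (Finset.univ : Finset κ), rightAdjointMate (p1 a) ≫ rightAdjointMate (i1 a) =
        rightAdjointMate (i1 a ≫ p1 a) := fun a _ => comp_rightAdjointMate.symm
    rw [Finset.sum_congr rfl h3, ← DOM_mate_sum, e1, rightAdjointMate_id]
  | sum X Y Z i p j q _ _ h _ _ h1 h2 =>
    obtain ⟨κ, _, Y1, i1, p1, hP1, e1⟩ := h1
    obtain ⟨l, _, Y2, i2, p2, hP2, e2⟩ := h2
    refine ⟨κ ⊕ l, inferInstance, Sum.elim Y1 Y2,
      fun k => match k with
        | Sum.inl a => p ≫ i1 a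
        | Sum.inr b => q ≫ i2 b,
      fun k => match k with
        | Sum.inl a => p1 a ≫ i
        | Sum.inr b => p2 b ≫ j, ?_, ?_⟩
    · rintro (a | b)
      · exact hP1 a
      · exact hP2 b
    · rw [Fintype.sum_sum_type]
      have h3 : ∑ a : κ, (p ≫ i1 a) ≫ (p1 a ≫ i) = p ≫ i := by
        have h4 : ∀ a ∈ (Finset.univ : Finset κ), (p ≫ i1 a) ≫ (p1 a ≫ i) =
            p ≫ (i1 a ≫ p1 a) ≫ i := fun a _ => by simp only [Category.assoc]
        rw [Finset.sum_congr rfl h4, ← Preadditive.comp_sum, ← Preadditive.sum_comp, e1,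
          Category.id_comp]
      have h5 : ∑ a : l, (q ≫ i2 a) ≫ (p2 a ≫ j) = q ≫ j := by
        have h4 : ∀ a ∈ (Finset.univ : Finset l), (q ≫ i2 a) ≫ (p2 a ≫ j) =
            q ≫ (i2 a ≫ p2 a) ≫ j := fun a _ => by simp only [Category.assoc]
        rw [Finset.sum_congr rfl h4, ← Preadditive.comp_sum, ← Preadditive.sum_comp, e2,
          Category.id_comp]
      exact (congrArg₂ (· + ·) h3 h5).trans h
  | summand X Y i p h _ h1 =>
    obtain ⟨κ, _, Y1, i1, p1, hP1, e1⟩ := h1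
    refine ⟨κ, inferInstance, Y1, fun k => i ≫ i1 k, fun k => p1 k ≫ p, hP1, ?_⟩
    have h4 : ∀ a ∈ (Finset.univ : Finset κ), (i ≫ i1 a) ≫ (p1 a ≫ p) =
        i ≫ (i1 a ≫ p1 a) ≫ p := fun a _ => by simp only [Category.assoc]
    rw [Finset.sum_congr rfl h4, ← Preadditive.comp_sum, ← Preadditive.sum_comp, e1,
      Category.id_comp, h]

end Pool.Agent.TJ2
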