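import Pool.Agent.TJ2.Stmts2
import Pool.Agent.TJ2.Stmts3

/-!
# DXY: the polynomial `D (x, y)`
-/

open Polynomial

namespace Pool.Agent.TJ2

noncomputable section

/-- `(W (x) - W (y)) / (x - y)` -/
def dxyK (W : ℚ[X]) (x y : Qb) : Qb :=
  ∑ m ∈ Finset.range (W.natDegree + 1), W.coeff m •
    ∑ i ∈ Finset.range m, x ^ i * y ^ (m - 1 - i)

lemma dxy_mul (W : ℚ[X]) (x y : Qb) : dxyK W x y * (x - y) = aeval x W - aeval y W := by
  unfold dxyK
  rw [Finset.sum_mul, aeval_eq_sum_range, aeval_eq_sum_range, ← Finset.sum_sub_distrib]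
  refine Finset.sum_congr rfl fun m _ => ?_
  rw [smul_mul_assoc, (Commute.all x y).geom_sum₂_mul, smul_sub]

lemma dxy_diag (W : ℚ[X]) (x : Qb) : dxyK W x x = aeval x (derivative W) := by
  conv_rhs => rw [W.as_sum_range_C_mul_X_pow]
  rw [derivative_sum, map_sum]
  unfold dxyK
  refine Finset.sum_congr rfl fun m _ => ?_
  rw [derivative_C_mul_X_pow, geom_sum₂_self, map_mul, aeval_C, map_pow, aeval_X, map_mul,
    Algebra.smul_def, map_natCast]
  ring

/-- the function is given by an array of rational coefficients -/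
def dxyRep (n : ℕ) (O : Set Qb) (F : Qb → Qb → Qb) : Prop :=
  ∃ D : ℕ → ℕ → ℚ, ∀ a ∈ O, ∀ b ∈ O, ev2 n D a b = F a b

lemma dxy_add (n : ℕ) (O : Set Qb) (F G : Qb → Qb → Qb) (hF : dxyRep n O F)
    (hG : dxyRep n O G) : dxyRep n O (fun a b => F a b + G a b) := by
  obtain ⟨D, hD⟩ := hF
  obtain ⟨D', hD'⟩ := hG
  refine ⟨fun i j => D i j + D' i j, fun a ha b hb => ?_⟩
  beta_reduce
  rw [← hD a ha b hb, ← hD' a ha b hb]
  unfold ev2
  rw [← Finset.sum_add_distrib]
  refine Finset.sum_congr rfl fun i _ => ?_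
  rw [← Finset.sum_add_distrib]
  refine Finset.sum_congr rfl fun j _ => ?_
  rw [add_smul]

lemma dxy_sum {ι : Type} (n : ℕ) (O : Set Qb) (s : Finset ι) (F : ι → Qb → Qb → Qb)
    (hF : ∀ i ∈ s, dxyRep n O (F i)) : dxyRep n O (fun a b => ∑ i ∈ s, F i a b) := by
  classical
  induction s using Finset.induction_on with
  | empty =>
    refine ⟨0, fun a _ b _ => ?_⟩
    simp [ev2]
  | insert i s hi ih =>
    have h1 := dxy_add n O _ _ (hF i (Finset.mem_insert_self _ _))
      (ih fun j hj => hF j (Finset.mem_insert_of_mem hj))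
    obtain ⟨D, hD⟩ := h1
    refine ⟨D, fun a ha b hb => ?_⟩
    rw [hD a ha b hb]
    beta_reduce
    rw [Finset.sum_insert hi]

lemma dxy_red (W f : ℚ[X]) (a : Qb) (ha : aeval a W = 0) :
    aeval a (f %ₘ W) = aeval a f := by
  conv_rhs => rw [← modByMonic_add_div f W, map_add, map_mul, ha, zero_mul, add_zero]

lemma dxy_prod (W f g : ℚ[X]) (hW : W.Monic) (hn : W ≠ 1) (O : Set Qb)
    (hO : ∀ a ∈ O, aeval a W = 0) :
    dxyRep W.natDegree O (fun a b => aeval a f * aeval b g) := by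
  refine ⟨fun i j => (f %ₘ W).coeff i * (g %ₘ W).coeff j, fun a ha b hb => ?_⟩
  beta_reduce
  rw [← dxy_red W f a (hO a ha), ← dxy_red W g b (hO b hb),
    aeval_eq_sum_range' (natDegree_modByMonic_lt f hW hn) a,
    aeval_eq_sum_range' (natDegree_modByMonic_lt g hW hn) b, Finset.sum_mul]
  unfold ev2
  refine Finset.sum_congr rfl fun i _ => ?_
  rw [Finset.mul_sum]
  refine Finset.sum_congr rfl fun j _ => ?_
  rw [smul_mul_smul_comm]

theorem t_DXY (hOMB : S_OMB) (hWEI : S_WEI) : S_DXY := by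
  intro q h hq hm hfull
  obtain ⟨w1, w2, w3, w4⟩ := hWEI q h hq hm
  obtain ⟨hsf, -⟩ := w4 hfull
  obtain ⟨-, o2, -, -, -⟩ := hOMB h.natDegree q h hq hm rfl
  set W : ℚ[X] := (weil q h).map (Int.castRingHom ℚ) with hWdef
  have hW : W.Monic := w1.map _
  have hdeg : W.natDegree = 2 * h.natDegree := by
    rw [hWdef, w1.natDegree_map, w2]
  have hroot : ∀ a : Qb, aeval a W = 0 ↔ a ∈ Om q h := by
    intro a
    rw [← w3 a]
    have h1 : aeval a W = aeval a (weil q h) := aeval_map_algebraMap ℚ a (weil q h)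
    rw [h1]
  have hO : ∀ a ∈ Om q h, aeval a W = 0 := fun a ha => (hroot a).2 ha
  rw [← hdeg]
  by_cases hn : W = 1
  · refine ⟨0, fun a ha => ?_⟩
    have h1 := hO a ha
    rw [hn, map_one] at h1
    exact absurd h1 one_ne_zero
  have hq0 : (q : Qb) ≠ 0 := by
    have : q ≠ 0 := by omega
    exact_mod_cast this
  -- the constant coefficient
  have hw0 : W.coeff 0 ≠ 0 := by
    intro h0
    have h1 : aeval (0 : Qb) W = 0 := by
      rw [← coeff_zero_eq_aeval_zero', h0, map_zero]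
    exact ((hroot 0).1 h1).1 rfl
  obtain ⟨R, hR⟩ : ∃ R : ℚ[X], ∀ b ∈ Om q h, aeval b R = (q : Qb) / b := by
    refine ⟨C (-(q : ℚ) / W.coeff 0) * divX W, fun b hb => ?_⟩
    have h1 : aeval b (divX W * X + C (W.coeff 0)) = 0 := by
      rw [divX_mul_X_add]
      exact hO b hb
    rw [map_add, map_mul, aeval_X, aeval_C] at h1
    have hb0 : b ≠ 0 := hb.1
    have hc : algebraMap ℚ Qb (W.coeff 0) ≠ 0 := by
      rw [Ne, map_eq_zero]
      exact hw0
    rw [map_mul, aeval_C, eq_div_iff hb0, map_div₀, map_neg, map_natCast, mul_assoc]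
    have h2 : aeval b (divX W) * b = -algebraMap ℚ Qb (W.coeff 0) := by
      linear_combination h1
    rw [h2]
    field_simp
  -- the inverse of the derivative
  have hsep : W.Separable := PerfectField.separable_iff_squarefree.2 hsf
  obtain ⟨U, V, hUV⟩ := hsep
  have hV : ∀ a ∈ Om q h, aeval a V * dxyK W a a = 1 := by
    intro a ha
    rw [dxy_diag, ← map_mul]
    have h1 := congrArg (aeval a) hUV
    rw [map_add, map_mul, hO a ha, mul_zero, zero_add, map_one] at h1
    exact h1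
  have key : dxyRep W.natDegree (Om q h) (fun a b => aeval a V * dxyK W a (aeval b R)) := by
    have h1 : dxyRep W.natDegree (Om q h) (fun a b => ∑ m ∈ Finset.range (W.natDegree + 1),
        ∑ i ∈ Finset.range m, aeval a (C (W.coeff m) * V * X ^ i) *
          aeval b (R ^ (m - 1 - i))) := by
      refine dxy_sum _ _ _ _ fun m _ => ?_
      refine dxy_sum _ _ _ _ fun i _ => ?_
      exact dxy_prod W _ _ hW hn _ hO
    obtain ⟨D, hD⟩ := h1
    refine ⟨D, fun a ha b hb => ?_⟩
    rw [hD a ha b hb]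
    unfold dxyK
    beta_reduce
    rw [Finset.mul_sum]
    refine Finset.sum_congr rfl fun m _ => ?_
    rw [Finset.smul_sum, Finset.mul_sum]
    refine Finset.sum_congr rfl fun i _ => ?_
    rw [map_mul, map_mul, aeval_C, map_pow, aeval_X, map_pow, Algebra.smul_def]
    ring
  obtain ⟨D, hD⟩ := key
  refine ⟨D, fun a ha b hb => ?_⟩
  rw [hD a ha b hb]
  beta_reduce
  rw [hR b hb]
  have ha0 : a ≠ 0 := ha.1
  have hb0 : b ≠ 0 := hb.1
  split_ifs with hab
  · have h1 : (q : Qb) / b = a := by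
      rw [hab]
      field_simp
    rw [h1]
    exact hV a ha
  · have hne : a - (q : Qb) / b ≠ 0 := by
      intro h1
      apply hab
      have h2 : a = (q : Qb) / b := sub_eq_zero.1 h1
      rw [h2]
      field_simp
    have h3 := dxy_mul W a ((q : Qb) / b)
    rw [hO a ha, hO _ (o2 b hb).1, sub_zero] at h3
    rw [(mul_eq_zero.1 h3).resolve_right hne, mul_zero]

end

end Pool.Agent.TJ2
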