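import Pool.Agent.TJ2.Stmts2

/-!
# Theorem J, module EMB (MP_6c4da4_ag)

Complex absolute values of the elements of `Om q h`.
-/

open Polynomial IntermediateField

namespace Pool.Agent.TJ2

noncomputable section

theorem EMB_real (x y b q : ℝ) (hb : b ^ 2 ≤ 4 * q) (h1 : x ^ 2 - y ^ 2 - b * x + q = 0)
    (h2 : 2 * x * y - b * y = 0) : x ^ 2 + y ^ 2 = q := by
  have h3 : y * (2 * x - b) = 0 := by linear_combination h2
  rcases mul_eq_zero.1 h3 with hy | hx
  · rw [hy] at h1 ⊢
    have h4 : (2 * x - b) ^ 2 ≤ 0 := by nlinarith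
    have h5 : 2 * x - b = 0 := by
      have := le_antisymm h4 (sq_nonneg _)
      exact pow_eq_zero_iff (two_ne_zero) |>.1 this
    have h6 : b = 2 * x := by linarith
    rw [h6] at h1
    linear_combination -h1
  · have h6 : b = 2 * x := by linarith
    rw [h6] at h1
    linear_combination -h1

theorem t_EMB : S_EMB := by
  intro g q h hq hh a ha ι
  have hqr : (0 : ℝ) < q := by exact_mod_cast hq
  have hqc : (q : ℂ) ≠ 0 := by exact_mod_cast (by omega : q ≠ 0)
  have ha0 : a ≠ 0 := ha.1
  set z : ℂ := ι a with hz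
  have hz0 : z ≠ 0 := by
    rw [hz]
    exact (map_ne_zero_iff ι ι.injective).2 ha0
  have hιq : ι ((q : Qb) / a) = (q : ℂ) / z := by rw [map_div₀, map_natCast]
  have hβ : ι (a + (q : Qb) / a) = z + (q : ℂ) / z := by rw [map_add, hιq]
  have hroot : aeval (ι (a + (q : Qb) / a)) h = 0 := by
    have h1 := aeval_algHom_apply (RingHom.toIntAlgHom ι) (a + (q : Qb) / a) h
    have h2 : aeval (a + (q : Qb) / a) h = 0 := ha.2
    rw [h2, map_zero] at h1
    exact h1
  obtain ⟨him, hre⟩ := hh.2.2 _ hroot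
  set β : ℂ := ι (a + (q : Qb) / a) with hβd
  have hb2 : β.re ^ 2 ≤ 4 * (q : ℝ) := by
    have h1 : |β.re| ^ 2 ≤ (2 * Real.sqrt q) ^ 2 := pow_le_pow_left₀ (abs_nonneg _) hre 2
    rw [sq_abs, mul_pow, Real.sq_sqrt hqr.le] at h1
    linarith
  have hquad : z ^ 2 - β * z + (q : ℂ) = 0 := by
    rw [hβ]
    field_simp
    ring
  have hr : z.re ^ 2 - z.im ^ 2 - β.re * z.re + (q : ℝ) = 0 := by
    have := congrArg Complex.re hquad
    simp [pow_two, him] at this
    linear_combination this
  have hi : 2 * z.re * z.im - β.re * z.im = 0 := by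
    have := congrArg Complex.im hquad
    simp [pow_two, him] at this
    linear_combination this
  have hn := EMB_real _ _ _ _ hb2 hr hi
  have hns : Complex.normSq z = (q : ℝ) := by
    rw [Complex.normSq_apply]
    linear_combination hn
  refine ⟨?_, ?_, him, hre⟩
  · rw [← Complex.normSq_eq_norm_sq, hns]
  · rw [hιq, div_eq_iff hz0]
    have := Complex.normSq_eq_conj_mul_self (z := z)
    rw [hns] at this
    rw [← this]
    simp

end

end Pool.Agent.TJ2
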