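import Pool.Agent.TJ2.OMB

/-!
# Theorem J: consequences of fullness
-/

open Polynomial IntermediateField

namespace Pool.Agent.TJ2

noncomputable section

/-- permutations compatible with an involution -/
private theorem FULC_perm {α : Type*} (S : Set α) (r : α → α) (hr : ∀ x ∈ S, r x ∈ S)
    (hrr : ∀ x ∈ S, r (r x) = x) (hne : ∀ x ∈ S, r x ≠ x) (a b : α) (ha : a ∈ S) (hb : b ∈ S) :
    ∃ τ : α → α, Set.BijOn τ S S ∧ (∀ x ∈ S, τ (r x) = r (τ x)) ∧ τ a = b ∧
      ∀ x ∈ S, x ≠ a → x ≠ r a → x ≠ b → x ≠ r b → τ x = x := by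
  classical
  have inj : ∀ x ∈ S, ∀ y ∈ S, r x = y → x = r y := fun x hx y _ h => by rw [← h, hrr x hx]
  by_cases hab : b = a
  · subst hab
    exact ⟨id, Set.bijOn_id S, fun _ _ => rfl, rfl, fun _ _ _ _ _ _ => rfl⟩
  by_cases hab2 : b = r a
  · have hra := hr a ha
    have hna := hne a ha
    have hrra := hrr a ha
    let T : α → α := fun x => if x = a then r a else if x = r a then a else x
    have T1 : T a = r a := by simp [T]
    have T2 : T (r a) = a := by simp [T, hna]
    have T3 : ∀ x, x ≠ a → x ≠ r a → T x = x := fun x h1 h2 => by simp [T, h1, h2]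
    have hcase : ∀ x, x = a ∨ x = r a ∨ (x ≠ a ∧ x ≠ r a) := by
      intro x
      by_cases h1 : x = a
      · exact Or.inl h1
      by_cases h2 : x = r a
      · exact Or.inr (Or.inl h2)
      exact Or.inr (Or.inr ⟨h1, h2⟩)
    have hTS : Set.MapsTo T S S := by
      intro x hx
      rcases hcase x with rfl | rfl | ⟨h1, h2⟩
      · rw [T1]; exact hra
      · rw [T2]; exact ha
      · rw [T3 x h1 h2]; exact hx
    have hTT : ∀ x ∈ S, T (T x) = x := by
      intro x _
      rcases hcase x with rfl | rfl | ⟨h1, h2⟩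
      · rw [T1, T2]
      · rw [T2, T1]
      · rw [T3 x h1 h2, T3 x h1 h2]
    refine ⟨T, Set.InvOn.bijOn ⟨hTT, hTT⟩ hTS hTS, ?_, ?_, ?_⟩
    · intro x hx
      rcases hcase x with rfl | rfl | ⟨h1, h2⟩
      · rw [T1, T2, hrra]
      · rw [T2, hrra, T1]
      · rw [T3 x h1 h2, T3 (r x)]
        · intro h
          exact h2 (inj x hx a ha h)
        · intro h
          apply h1
          rw [← hrr x hx, h, hrra]
    · rw [T1, hab2]
    · intro x _ h1 h2 _ _
      exact T3 x h1 h2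
  · have hra := hr a ha
    have hrb := hr b hb
    have hrra := hrr a ha
    have hrrb := hrr b hb
    have n1 : b ≠ a := hab
    have n2 : r a ≠ a := hne a ha
    have n3 : r b ≠ b := hne b hb
    have n4 : b ≠ r a := hab2
    have n5 : r b ≠ a := fun h => n4 (inj b hb a ha h)
    have n6 : r b ≠ r a := fun h => n1 (by rw [← hrrb, h, hrra])
    let T : α → α := fun x => if x = a then b else if x = b then a else
      if x = r a then r b else if x = r b then r a else x
    have T1 : T a = b := by simp [T]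
    have T2 : T b = a := by simp [T, n1]
    have T3 : T (r a) = r b := by simp [T, n2, n4.symm]
    have T4 : T (r b) = r a := by simp [T, n3, n5, n6]
    have T5 : ∀ x, x ≠ a → x ≠ b → x ≠ r a → x ≠ r b → T x = x :=
      fun x h1 h2 h3 h4 => by simp [T, h1, h2, h3, h4]
    have hcase : ∀ x, x = a ∨ x = b ∨ x = r a ∨ x = r b ∨
        (x ≠ a ∧ x ≠ b ∧ x ≠ r a ∧ x ≠ r b) := by
      intro x
      by_cases h1 : x = a
      · exact Or.inl h1
      by_cases h2 : x = b
      · exact Or.inr (Or.inl h2)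
      by_cases h3 : x = r a
      · exact Or.inr (Or.inr (Or.inl h3))
      by_cases h4 : x = r b
      · exact Or.inr (Or.inr (Or.inr (Or.inl h4)))
      exact Or.inr (Or.inr (Or.inr (Or.inr ⟨h1, h2, h3, h4⟩)))
    have hTS : Set.MapsTo T S S := by
      intro x hx
      rcases hcase x with h | h | h | h | ⟨h1, h2, h3, h4⟩
      · rw [h, T1]; exact hb
      · rw [h, T2]; exact ha
      · rw [h, T3]; exact hrb
      · rw [h, T4]; exact hra
      · rw [T5 x h1 h2 h3 h4]; exact hx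
    have hTT : ∀ x ∈ S, T (T x) = x := by
      intro x _
      rcases hcase x with h | h | h | h | ⟨h1, h2, h3, h4⟩
      · rw [h, T1, T2]
      · rw [h, T2, T1]
      · rw [h, T3, T4]
      · rw [h, T4, T3]
      · rw [T5 x h1 h2 h3 h4, T5 x h1 h2 h3 h4]
    refine ⟨T, Set.InvOn.bijOn ⟨hTT, hTT⟩ hTS hTS, ?_, T1, ?_⟩
    · intro x hx
      rcases hcase x with h | h | h | h | ⟨h1, h2, h3, h4⟩
      · rw [h, T1, T3]
      · rw [h, T2, T4]
      · rw [h, T3, hrra, T1, hrrb]
      · rw [h, T4, hrrb, T2, hrra]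
      · rw [T5 x h1 h2 h3 h4, T5 (r x)]
        · intro h
          exact h3 (inj x hx a ha h)
        · intro h
          exact h4 (inj x hx b hb h)
        · intro h
          apply h1
          rw [← hrr x hx, h, hrra]
        · intro h
          apply h2
          rw [← hrr x hx, h, hrrb]
    · intro x _ h1 h2 h3 h4
      exact T5 x h1 h3 h2 h4

/-- consequences of fullness -/
theorem t_FULC : S_FULC := by
  intro q h hq hm hF
  have hq0 : (q : Qb) ≠ 0 := by
    have : q ≠ 0 := by omega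
    exact_mod_cast this
  obtain ⟨_, hO1, hO2, hO3, hO4⟩ := t_OMB h.natDegree q h hq hm rfl
  obtain ⟨hc, hτ⟩ := hF
  obtain ⟨hne, -, -⟩ := hO4 hc
  have hrr : ∀ x ∈ Om q h, (q : Qb) / ((q : Qb) / x) = x := by
    rintro x ⟨hx, -⟩
    field_simp
  have key : ∀ a ∈ Om q h, ∀ b ∈ Om q h, ∃ σ : Qb ≃ₐ[ℚ] Qb, σ a = b ∧
      ∀ x ∈ Om q h, x ≠ a → x ≠ (q : Qb) / a → x ≠ b → x ≠ (q : Qb) / b → σ x = x := by
    intro a ha b hb
    obtain ⟨τ, h1, h2, h3, h4⟩ := FULC_perm (Om q h) (fun x => (q : Qb) / x)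
      (fun x hx => (hO1 x hx).1) hrr (fun x hx => (hne x hx).symm) a b ha hb
    obtain ⟨σ, hσ⟩ := hτ τ h1 h2
    refine ⟨σ, (hσ a ha).trans h3, fun x hx n1 n2 n3 n4 => (hσ x hx).trans (h4 x hx n1 n2 n3 n4)⟩
  refine ⟨?_, ?_, ?_⟩
  · intro a ha b hb
    obtain ⟨σ, h1, -⟩ := key a ha b hb
    exact ⟨σ, h1⟩
  · intro a ha
    obtain ⟨σ, h1, h2⟩ := key a ha _ (hO1 a ha).1
    refine ⟨σ, h1, fun b hb n1 n2 => h2 b hb n1 n2 n2 ?_⟩
    rw [hrr a ha]
    exact n1
  · intro b hb b' hb' c hc' c' hc'' hbb hcc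
    obtain ⟨a, ha, hab⟩ := hO3 b hb
    obtain ⟨a', ha', hab'⟩ := hO3 b' hb'
    obtain ⟨d, hd, hdc⟩ := hO3 c hc'
    obtain ⟨d', hd', hdc'⟩ := hO3 c' hc''
    have hbar : ∀ x ∈ Om q h, (q : Qb) / x + (q : Qb) / ((q : Qb) / x) = x + (q : Qb) / x := by
      intro x hx
      rw [hrr x hx, add_comm]
    obtain ⟨σ₁, h1, -⟩ := key a ha d hd
    have ha'' := hO2 a' ha' σ₁
    obtain ⟨σ₂, h2, h3⟩ := key (σ₁ a') ha'' d' hd'
    have e1 : σ₁ ((q : Qb) / a) = (q : Qb) / d := by
      rw [map_div₀, map_natCast, h1]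
    have n1 : d ≠ σ₁ a' := by
      intro h
      rw [← h1] at h
      have h4 := σ₁.injective h
      apply hbb
      rw [← hab, ← hab', h4]
    have n2 : d ≠ (q : Qb) / σ₁ a' := by
      intro h
      have h5 : σ₁ a' = σ₁ ((q : Qb) / a) := by
        rw [e1, h, hrr _ ha'']
      have h6 := σ₁.injective h5
      apply hbb
      rw [← hab, ← hab', h6, hbar a ha]
    have n3 : d ≠ d' := by
      intro h
      apply hcc
      rw [← hdc, ← hdc', h]
    have n4 : d ≠ (q : Qb) / d' := by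
      intro h
      apply hcc
      rw [← hdc, ← hdc', h, hbar d' hd']
    have h7 : σ₂ d = d := h3 d hd n1 n2 n3 n4
    refine ⟨σ₁.trans σ₂, ?_, ?_⟩
    · rw [AlgEquiv.trans_apply, ← hab, map_add, map_div₀, map_natCast, h1, map_add, map_div₀,
        map_natCast, h7, hdc]
    · rw [AlgEquiv.trans_apply, ← hab', map_add, map_div₀, map_natCast, map_add, map_div₀,
        map_natCast, h2, hdc']

end

end Pool.Agent.TJ2
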