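import Pool.Agent.TJ2.Stmts2

/-!
# Theorem J: the abstract relation lemma (paper, section 1)
-/

namespace Pool.Agent.TJ2

/-- The abstract relation lemma, from the statement on orbit sizes. -/
theorem t_GRP (hORB : S_ORB) : S_GRP := by
  intro Γ ι _ _ _ Ω _ _ _ bar R h1 h2 h3 h4 h5 h6
  classical
  let supp : (∀ i, Ω i → ℤ) → Finset ι := fun d => Finset.univ.filter (fun i => d i ≠ 0)
  have hmem : ∀ d i, i ∈ supp d ↔ d i ≠ 0 := fun d i => by simp [supp]
  obtain ⟨d₀, ⟨hd₀R, hd₀odd, hd₀ne⟩, hmin⟩ : ∃ d₀ : ∀ i, Ω i → ℤ,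
      (d₀ ∈ R ∧ (∀ i x, d₀ i (bar i x) = - d₀ i x) ∧ d₀ ≠ 0) ∧
      ∀ d : ∀ i, Ω i → ℤ, (d ∈ R ∧ (∀ i x, d i (bar i x) = - d i x) ∧ d ≠ 0) →
        (supp d₀).card ≤ (supp d).card := by
    have hex : ∃ n, ∃ d : ∀ i, Ω i → ℤ,
        (d ∈ R ∧ (∀ i x, d i (bar i x) = - d i x) ∧ d ≠ 0) ∧ (supp d).card = n := by
      obtain ⟨d, h, h', h''⟩ := h6
      exact ⟨_, d, ⟨h, h', h''⟩, rfl⟩
    obtain ⟨d, hd, hdn⟩ := Nat.find_spec hex
    exact ⟨d, hd, fun d' hd' => by rw [hdn]; exact Nat.find_min' hex ⟨d', hd', rfl⟩⟩
  have hzero : ∀ d ∈ R, (∀ i x, d i (bar i x) = - d i x) → (∀ i, d₀ i = 0 → d i = 0) →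
      ∀ i, d₀ i ≠ 0 → d i = 0 → d = 0 := by
    intro d hdR hodd hsub i hi hdi
    by_contra hne
    have h := hmin d ⟨hdR, hodd, hne⟩
    have hlt : (supp d).card < (supp d₀).card := by
      apply Finset.card_lt_card
      refine ⟨fun j hj => ?_, fun hc => ?_⟩
      · rw [hmem] at hj ⊢
        exact fun h => hj (hsub j h)
      · exact (hmem d i).1 (hc ((hmem d₀ i).2 hi)) hdi
    omega
  have h11 : ∀ i, d₀ i ≠ 0 → ∃ d ∈ R, (∀ i x, d i (bar i x) = - d i x) ∧
      (∀ j, d₀ j = 0 → d j = 0) ∧
      ∃ (x : Ω i) (c : ℤ), c ≠ 0 ∧ d i = Pi.single x c - Pi.single (bar i x) c := by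
    intro i hi
    obtain ⟨x, hx⟩ : ∃ x, d₀ i x ≠ 0 := by
      by_contra hc
      push Not at hc
      exact hi (funext hc)
    obtain ⟨s, hs⟩ := h4 i (Equiv.swap x (bar i x)) (by
      intro y
      by_cases hy : y = x
      · subst hy
        rw [Equiv.swap_apply_right, Equiv.swap_apply_left, h1]
      · by_cases hy' : y = bar i x
        · subst hy'
          rw [h1, Equiv.swap_apply_left, Equiv.swap_apply_right]
        · rw [Equiv.swap_apply_of_ne_of_ne hy hy', Equiv.swap_apply_of_ne_of_ne]
          · intro h
            apply hy'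
            rw [← h1 i y, h]
          · intro h
            apply hy
            rw [← h1 i y, h, h1])
    have hs' : ∀ y, s⁻¹ • y = Equiv.swap x (bar i x) y := by
      intro y
      rw [inv_smul_eq_iff, hs, Equiv.swap_apply_self]
    refine ⟨d₀ - (fun j y => d₀ j (s⁻¹ • y)), R.sub_mem hd₀R (h5 s d₀ hd₀R), ?_, ?_, x,
      2 * d₀ i x, by omega, ?_⟩
    · intro j y
      simp only [Pi.sub_apply]
      rw [hd₀odd, ← h3, hd₀odd]
      ring
    · intro j hj
      funext y
      simp [hj]
    · funext y
      simp only [Pi.sub_apply]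
      rw [hs']
      by_cases hy : y = x
      · subst hy
        rw [Equiv.swap_apply_left, hd₀odd, Pi.single_eq_same, Pi.single_eq_of_ne (h2 i _).symm]
        ring
      · by_cases hy' : y = bar i x
        · subst hy'
          rw [Equiv.swap_apply_right, hd₀odd, Pi.single_eq_same, Pi.single_eq_of_ne (h2 i _)]
          ring
        · rw [Equiv.swap_apply_of_ne_of_ne hy hy', Pi.single_eq_of_ne hy, Pi.single_eq_of_ne hy']
          ring
  obtain ⟨i₀, hi₀⟩ : ∃ i, d₀ i ≠ 0 := by
    by_contra hc
    push Not at hc
    exact hd₀ne (funext hc)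
  by_cases hone : ∀ j, d₀ j ≠ 0 → j = i₀
  · -- one index
    left
    obtain ⟨d, hdR, _, hsub, x, c, hc, hd⟩ := h11 i₀ hi₀
    refine ⟨i₀, x, c, hc, ?_⟩
    have hde : Pi.single i₀ (Pi.single x c - Pi.single (bar i₀ x) c) = d := by
      funext j
      by_cases hj : j = i₀
      · subst hj
        rw [Pi.single_eq_same, hd]
      · rw [Pi.single_eq_of_ne hj]
        by_cases hj' : d₀ j = 0
        · rw [hsub j hj']
        · exact absurd (hone j hj') hj
    rw [hde]
    exact hdR
  · -- two indices
    right
    push Not at hone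
    obtain ⟨j₀, hj₀, hne₀⟩ := hone
    obtain ⟨i, j, hi, hj, hne, hcard⟩ : ∃ i j, d₀ i ≠ 0 ∧ d₀ j ≠ 0 ∧ i ≠ j ∧
        Fintype.card (Ω i) ≤ Fintype.card (Ω j) := by
      rcases le_total (Fintype.card (Ω i₀)) (Fintype.card (Ω j₀)) with h | h
      · exact ⟨i₀, j₀, hi₀, hj₀, hne₀.symm, h⟩
      · exact ⟨j₀, i₀, hj₀, hi₀, hne₀, h⟩
    obtain ⟨d, hdR, hodd, hsub, x, c, hc, hd⟩ := h11 i hi
    have hdne : d ≠ 0 := by
      intro h
      have h' := congrFun hd x
      rw [h] at h'
      simp only [Pi.zero_apply, Pi.sub_apply, Pi.single_eq_same,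
        Pi.single_eq_of_ne (h2 i x).symm] at h'
      omega
    have hw0 : d j ≠ 0 := fun h => hdne (hzero d hdR hodd hsub j hj h)
    -- the translates
    have htR : ∀ s : Γ, (fun k y => d k (s⁻¹ • y)) ∈ R := fun s => h5 s d hdR
    have htodd : ∀ (s : Γ) k y, d k (s⁻¹ • bar k y) = - d k (s⁻¹ • y) := by
      intro s k y
      rw [← h3, hodd]
    have hval : ∀ (s : Γ) y, d i (s⁻¹ • y) =
        (Pi.single (s • x) c - Pi.single (bar i (s • x)) c : Ω i → ℤ) y := by
      intro s y
      rw [hd]
      simp only [Pi.sub_apply, Pi.single_apply, inv_smul_eq_iff, h3]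
    have hstab : ∀ s : Γ, s • x = x ↔ ∀ y, d j (s⁻¹ • y) = d j y := by
      intro s
      constructor
      · intro hs
        have h := hzero ((fun k y => d k (s⁻¹ • y)) - d) (R.sub_mem (htR s) hdR) (by
          intro k y
          simp only [Pi.sub_apply]
          rw [htodd, hodd]
          ring) (by
          intro k hk
          funext y
          simp [hsub k hk]) i hi (by
          funext y
          simp only [Pi.sub_apply, Pi.zero_apply]
          rw [hval, hs, hd, sub_self])
        intro y
        have h' := congrFun (congrFun h j) y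
        simp only [Pi.sub_apply, Pi.zero_apply] at h'
        linarith
      · intro hs
        have h := hzero ((fun k y => d k (s⁻¹ • y)) - d) (R.sub_mem (htR s) hdR) (by
          intro k y
          simp only [Pi.sub_apply]
          rw [htodd, hodd]
          ring) (by
          intro k hk
          funext y
          simp [hsub k hk]) j hj (by
          funext y
          simp only [Pi.sub_apply, Pi.zero_apply]
          rw [hs, sub_self])
        have h' := congrFun (congrFun h i) x
        simp only [Pi.sub_apply, Pi.zero_apply] at h'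
        rw [hval, hd] at h'
        simp only [Pi.sub_apply, Pi.single_eq_same, Pi.single_eq_of_ne (h2 i x).symm] at h'
        by_contra hsx
        rw [Pi.single_eq_of_ne (Ne.symm hsx)] at h'
        by_cases hb : x = bar i (s • x)
        · rw [← hb, Pi.single_eq_same] at h'
          omega
        · rw [Pi.single_eq_of_ne hb] at h'
          omega
    have hneg : ∀ s : Γ, s • x = bar i x → ∀ y, d j (s⁻¹ • y) = - d j y := by
      intro s hs
      have h := hzero ((fun k y => d k (s⁻¹ • y)) + d) (R.add_mem (htR s) hdR) (by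
        intro k y
        simp only [Pi.add_apply]
        rw [htodd, hodd]
        ring) (by
        intro k hk
        funext y
        simp [hsub k hk]) i hi (by
        funext y
        simp only [Pi.add_apply, Pi.zero_apply]
        rw [hval, hs, hd, h1]
        simp only [Pi.sub_apply]
        ring)
      intro y
      have h' := congrFun (congrFun h j) y
      simp only [Pi.add_apply, Pi.zero_apply] at h'
      linarith
    -- the orbit of the component
    have horb : (Set.range (fun s : Γ => fun y => d j (s⁻¹ • y))).ncard ≤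
        Fintype.card (Ω i) := by
      let G : Ω i → (Ω j → ℤ) := fun z =>
        if h : ∃ s : Γ, s • x = z then (fun y => d j ((Classical.choose h)⁻¹ • y)) else 0
      have hsubG : Set.range (fun s : Γ => fun y => d j (s⁻¹ • y)) ⊆ G '' Set.univ := by
        rintro _ ⟨s, rfl⟩
        refine ⟨s • x, Set.mem_univ _, ?_⟩
        have hex : ∃ s' : Γ, s' • x = s • x := ⟨s, rfl⟩
        simp only [G, dif_pos hex]
        have hs' := Classical.choose_spec hex
        set s' := Classical.choose hex with hs'def
        have h := (hstab (s'⁻¹ * s)).1 (by rw [mul_smul, ← hs', inv_smul_smul])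
        funext y
        have h' := h (s'⁻¹ • y)
        rw [mul_inv_rev, inv_inv, mul_smul, smul_inv_smul] at h'
        exact h'.symm
      calc (Set.range (fun s : Γ => fun y => d j (s⁻¹ • y))).ncard
          ≤ (G '' Set.univ).ncard := Set.ncard_le_ncard hsubG (Set.toFinite _)
        _ ≤ (Set.univ : Set (Ω i)).ncard := Set.ncard_image_le (Set.toFinite _)
        _ = Fintype.card (Ω i) := by rw [Set.ncard_univ, Nat.card_eq_fintype_card]
    rcases hORB Γ (Ω j) (bar j) (d j) (h1 j) (h2 j) (fun s y => h3 j s y) (h4 j)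
      (fun y => hodd j y) hw0 (horb.trans hcard) with ⟨y, hy, hy'⟩ | ⟨hc4, habs, hr4⟩
    · left
      refine ⟨i, j, x, y, hne, fun s => ?_⟩
      rw [hstab]
      constructor
      · intro h
        have h' := h (s • y)
        rw [inv_smul_smul] at h'
        by_contra hsy
        by_cases hb : s • y = bar j y
        · rw [hb, hodd] at h'
          omega
        · rw [hy' _ hsy hb] at h'
          exact hy h'
      · intro hs z
        have hs' : s⁻¹ • y = y := by rw [inv_smul_eq_iff, hs]
        by_cases hz : z = y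
        · subst hz
          rw [hs']
        · by_cases hz' : z = bar j y
          · subst hz'
            rw [← h3, hs']
          · rw [hy' z hz hz', hy' (s⁻¹ • z)]
            · intro h
              apply hz
              rw [inv_smul_eq_iff, hs] at h
              exact h
            · intro h
              apply hz'
              rw [inv_smul_eq_iff, ← h3, hs] at h
              exact h
    · right
      refine ⟨i, j, x, d j, hne, by omega, hc4, fun y => hodd j y, hw0, habs, fun s hs y => ?_,
        fun s hs y => ?_⟩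
      · have h := (hstab s).1 hs (s • y)
        rw [inv_smul_smul] at h
        exact h.symm
      · have h := hneg s hs (s • y)
        rw [inv_smul_smul] at h
        linarith

end Pool.Agent.TJ2
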