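import Pool.Agent.TJ2.Stmts3

/-!
# Identity principle for two commuting operators

Spectral projections after the extension of scalars to the field of algebraic numbers.
-/

set_option autoImplicit false

open Polynomial

universe w

namespace Pool.Agent.TJ2

/-- spectral projections -/
theorem IDT_proj {K A : Type*} [Field K] [Ring A] [Algebra K A] (s : Finset K)
    (φ : A) (h : aeval φ (∏ a ∈ s, (X - C a)) = 0) :
    ∃ E : K → A, ∑ a ∈ s, E a = 1 ∧ (∀ a ∈ s, φ * E a = a • E a) ∧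
      ∀ ψ : A, Commute ψ φ → ∀ a, Commute ψ (E a) := by
  classical
  have hn : aeval φ (Lagrange.nodal s id) = 0 := h
  refine ⟨fun a => aeval φ (Lagrange.basis s id a), ?_, ?_, ?_⟩
  · rcases s.eq_empty_or_nonempty with rfl | hs
    · rw [Lagrange.nodal_empty, map_one] at hn
      rw [Finset.sum_empty, hn]
    · rw [← map_sum, Lagrange.sum_basis (Set.injOn_id _) hs, map_one]
  · intro a ha
    have h1 : (X - C a) * Lagrange.basis s id a =
        C (Lagrange.nodalWeight s id a) * Lagrange.nodal s id := by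
      rw [Lagrange.basis_eq_prod_sub_inv_mul_nodal_div ha, ← Lagrange.nodal_erase_eq_nodal_div ha,
        Lagrange.nodal_eq_mul_nodal_erase ha]
      simp only [id]
      ring
    have h2 := congrArg (aeval φ) h1
    rw [map_mul, map_mul, hn, mul_zero, map_sub, aeval_X, aeval_C, sub_mul, sub_eq_zero] at h2
    rw [h2, Algebra.smul_def]
  · intro ψ hψ a
    have key : ∀ q : K[X], Commute ψ (aeval φ q) := by
      intro q
      induction q using Polynomial.induction_on' with
      | add p q hp hq => rw [map_add]; exact hp.add_right hq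
      | monomial n c =>
        rw [aeval_monomial]
        have h1 : Commute ψ (algebraMap K A c) := (Algebra.commutes c ψ).symm
        exact h1.mul_right (hψ.pow_right n)
    exact key _

theorem IDT_pow {K A : Type*} [Field K] [Ring A] [Algebra K A] {φ e : A} {a : K}
    (h : φ * e = a • e) (n : ℕ) : φ ^ n * e = a ^ n • e := by
  induction n with
  | zero => simp
  | succ n ih => rw [pow_succ, mul_assoc, h, mul_smul_comm, ih, smul_smul, pow_succ, mul_comm]

/-- the value of a polynomial on a common eigenspace -/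
theorem IDT_ev {K A : Type*} [Field K] [Algebra ℚ K] [Ring A] [Algebra K A] [Algebra ℚ A]
    [IsScalarTower ℚ K A] {φ ψ e f : A} {a b : K} (he : φ * e = a • e) (hf : ψ * f = b • f)
    (hc : Commute e ψ) (n : ℕ) (N : ℕ → ℕ → ℚ) :
    ev2 n N φ ψ * (e * f) = ev2 n N a b • (e * f) := by
  unfold ev2
  rw [Finset.sum_mul, Finset.sum_smul]
  refine Finset.sum_congr rfl fun i _ => ?_
  rw [Finset.sum_mul, Finset.sum_smul]
  refine Finset.sum_congr rfl fun j _ => ?_
  have h1 : φ ^ i * ψ ^ j * (e * f) = (a ^ i * b ^ j) • (e * f) := by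
    have h2 : ψ ^ j * e = e * ψ ^ j := (hc.symm.pow_left j).eq
    calc φ ^ i * ψ ^ j * (e * f) = φ ^ i * (ψ ^ j * e) * f := by noncomm_ring
      _ = (φ ^ i * e) * (ψ ^ j * f) := by rw [h2]; noncomm_ring
      _ = _ := by
        rw [IDT_pow he, IDT_pow hf, smul_mul_assoc, mul_smul_comm, smul_smul]
  rw [smul_mul_assoc, h1, smul_assoc]

theorem IDT_comm {A : Type*} [Ring A] [Algebra ℚ A] {φ ψ e : A} (h1 : Commute φ e) (h2 : Commute ψ e) (n : ℕ)
    (N : ℕ → ℕ → ℚ) : Commute (ev2 n N φ ψ) e := by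
  unfold ev2
  refine Commute.sum_left _ _ _ fun i _ => Commute.sum_left _ _ _ fun j _ => ?_
  exact Commute.smul_left ((h1.pow_left i).mul_left (h2.pow_left j)) _

/-- the principle over a field which contains the eigenvalues -/
theorem IDT_main {K W : Type*} [Field K] [Algebra ℚ K] [AddCommGroup W] [Module K W]
    [Module ℚ W] [IsScalarTower ℚ K W] (φ ψ : Module.End K W) (s : Finset K)
    (hcm : Commute φ ψ) (hφ : aeval φ (∏ a ∈ s, (X - C a)) = 0)
    (hψ : aeval ψ (∏ a ∈ s, (X - C a)) = 0) (n : ℕ) (N G : ℕ → ℕ → ℚ)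
    (h : ∀ a ∈ s, ∀ b ∈ s, ev2 n N a b = 0 → ev2 n G a b = 0) (y : W)
    (hy : ev2 n N φ ψ y = 0) : ev2 n G φ ψ y = 0 := by
  obtain ⟨E, hE1, hE2, hE3⟩ := IDT_proj s φ hφ
  obtain ⟨F, hF1, hF2, hF3⟩ := IDT_proj s ψ hψ
  have hEφ : ∀ a, Commute φ (E a) := hE3 φ (Commute.refl φ)
  have hEψ : ∀ a, Commute ψ (E a) := hE3 ψ hcm.symm
  have hFφ : ∀ a, Commute φ (F a) := hF3 φ hcm
  have hFψ : ∀ a, Commute ψ (F a) := hF3 ψ (Commute.refl ψ)
  have hval : ∀ (M : ℕ → ℕ → ℚ) (a b : K), a ∈ s → b ∈ s →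
      (E a * F b) (ev2 n M φ ψ y) = ev2 n M a b • ((E a * F b) y) := by
    intro M a b ha hb
    have h1 := IDT_ev (hE2 a ha) (hF2 b hb) (hEψ a).symm n M
    have h2 : Commute (ev2 n M φ ψ) (E a * F b) :=
      IDT_comm ((hEφ a).mul_right (hFφ b)) ((hEψ a).mul_right (hFψ b)) n M
    rw [h2.eq] at h1
    exact LinearMap.congr_fun h1 y
  have hsum : ev2 n G φ ψ y = ∑ a ∈ s, ∑ b ∈ s, (E a * F b) (ev2 n G φ ψ y) := by
    have h1 : (1 : Module.End K W) = ∑ a ∈ s, ∑ b ∈ s, E a * F b := by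
      rw [← Finset.sum_mul_sum, hE1, hF1, one_mul]
    have h2 := LinearMap.congr_fun h1 (ev2 n G φ ψ y)
    simpa [LinearMap.sum_apply] using h2
  rw [hsum]
  refine Finset.sum_eq_zero fun a ha => Finset.sum_eq_zero fun b hb => ?_
  rw [hval G a b ha hb]
  have h0 := hval N a b ha hb
  rw [hy, map_zero] at h0
  rcases smul_eq_zero.1 h0.symm with h3 | h3
  · rw [h a ha b hb h3, zero_smul]
  · rw [h3, smul_zero]

theorem IDT_map {A B : Type*} [Ring A] [Ring B] [Algebra ℚ A] [Algebra ℚ B] (β : A →ₐ[ℚ] B)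
    (n : ℕ) (N : ℕ → ℕ → ℚ) (φ ψ : A) : β (ev2 n N φ ψ) = ev2 n N (β φ) (β ψ) := by
  unfold ev2
  simp [map_sum, map_smul, map_mul, map_pow]

open TensorProduct in
theorem t_IDT : S_IDT.{w} := by
  classical
  intro V _ _ φ ψ P n N G x hcm hsq hφ hψ h hx
  let β : Module.End ℚ V →ₐ[ℚ] Module.End Qb (Qb ⊗[ℚ] V) := Module.End.baseChangeHom ℚ Qb V
  have hP0 : P ≠ 0 := hsq.ne_zero
  have hsep : P.Separable := PerfectField.separable_iff_squarefree.2 hsq
  let p : Qb[X] := P.map (algebraMap ℚ Qb)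
  have hp0 : p ≠ 0 := (Polynomial.map_ne_zero_iff (algebraMap ℚ Qb).injective).2 hP0
  have hnd : p.roots.Nodup := nodup_roots hsep.map
  have hprod : p = C p.leadingCoeff * ∏ a ∈ p.roots.toFinset, (X - C a) := by
    have h1 := (IsAlgClosed.splits p).eq_prod_roots
    have h2 : (p.roots.map fun a => X - C a).prod = ∏ a ∈ p.roots.toFinset, (X - C a) := by
      rw [Finset.prod_eq_multiset_prod, Multiset.toFinset_val, Multiset.dedup_eq_self.2 hnd]
    rw [← h2]
    exact h1
  have hmem : ∀ a, a ∈ p.roots.toFinset → aeval a P = 0 := by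
    intro a ha
    rw [Multiset.mem_toFinset, mem_roots hp0, IsRoot.def, eval_map_algebraMap] at ha
    exact ha
  have hzero : ∀ θ : Module.End ℚ V, aeval θ P = 0 →
      aeval (β θ) (∏ a ∈ p.roots.toFinset, (X - C a)) = 0 := by
    intro θ hθ
    have h1 : aeval (β θ) P = 0 := by
      rw [aeval_algHom_apply, hθ, map_zero]
    have h2 : aeval (β θ) p = 0 := by
      rw [← h1]
      exact aeval_map_algebraMap Qb (β θ) P
    rw [hprod, map_mul, aeval_C, ← Algebra.smul_def] at h2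
    have hl : p.leadingCoeff ≠ 0 := leadingCoeff_ne_zero.2 hp0
    have h3 := congrArg (fun z => p.leadingCoeff⁻¹ • z) h2
    simp only [smul_zero, smul_smul, inv_mul_cancel₀ hl, one_smul] at h3
    exact h3
  have hcm' : Commute (β φ) (β ψ) := hcm.map β
  have hβ : ∀ (M : ℕ → ℕ → ℚ) (v : V), ev2 n M (β φ) (β ψ) ((1 : Qb) ⊗ₜ[ℚ] v) =
      (1 : Qb) ⊗ₜ[ℚ] (ev2 n M φ ψ v) := by
    intro M v
    have h1 := IDT_map (A := Module.End ℚ V) (B := Module.End Qb (Qb ⊗[ℚ] V)) β n M φ ψ
    rw [← h1]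
    rfl
  have hfin := IDT_main (β φ) (β ψ) p.roots.toFinset hcm' (hzero φ hφ) (hzero ψ hψ) n N G
    (fun a ha b hb => h a b (hmem a ha) (hmem b hb)) ((1 : Qb) ⊗ₜ[ℚ] x)
    (by rw [hβ, hx, TensorProduct.tmul_zero])
  rw [hβ] at hfin
  have hinj : Function.Injective (TensorProduct.mk ℚ Qb V 1) :=
    Module.FaithfullyFlat.tensorProduct_mk_injective V
  apply hinj
  rw [map_zero]
  exact hfin

end Pool.Agent.TJ2
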