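import Pool.Agent.TJ2.Stmts2

/-!
# Theorem B: independence of the Frobenius eigenvalues
-/

open Polynomial IntermediateField

namespace Pool.Agent.TJ2

noncomputable section

/-- the product of the powers -/
def IND_P {ι : Type} [Fintype ι] {Ω : ι → Type} [∀ i, Fintype (Ω i)] (f : ∀ i, Ω i → Qb)
    (d : ∀ i, Ω i → ℤ) : Qb := ∏ i, ∏ x, f i x ^ d i x

section

variable {ι : Type} [Fintype ι] {Ω : ι → Type} [∀ i, Fintype (Ω i)] (f : ∀ i, Ω i → Qb)

lemma IND_P_add (hf : ∀ i x, f i x ≠ 0) (d e : ∀ i, Ω i → ℤ) :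
    IND_P f (d + e) = IND_P f d * IND_P f e := by
  unfold IND_P
  rw [← Finset.prod_mul_distrib]
  refine Finset.prod_congr rfl fun i _ => ?_
  rw [← Finset.prod_mul_distrib]
  refine Finset.prod_congr rfl fun x _ => ?_
  rw [Pi.add_apply, Pi.add_apply, zpow_add₀ (hf i x)]

lemma IND_P_zero : IND_P f (0 : ∀ i, Ω i → ℤ) = 1 := by
  unfold IND_P
  simp

lemma IND_P_neg (d : ∀ i, Ω i → ℤ) : IND_P f (-d) = (IND_P f d)⁻¹ := by
  unfold IND_P
  rw [← Finset.prod_inv_distrib]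
  refine Finset.prod_congr rfl fun i _ => ?_
  rw [← Finset.prod_inv_distrib]
  refine Finset.prod_congr rfl fun x _ => ?_
  rw [Pi.neg_apply, Pi.neg_apply, zpow_neg]

/-- the group of the relations -/
def IND_R (hf : ∀ i x, f i x ≠ 0) (q : ℕ) (hq : (q : Qb) ≠ 0) : AddSubgroup (∀ i, Ω i → ℤ) where
  carrier := {d | ∃ N : ℕ, 1 ≤ N ∧ ∃ k : ℤ, IND_P f d ^ N = (q : Qb) ^ k}
  zero_mem' := ⟨1, le_rfl, 0, by rw [IND_P_zero]; simp⟩
  add_mem' := by
    rintro d e ⟨N, hN, k, hk⟩ ⟨N', hN', k', hk'⟩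
    refine ⟨N * N', Nat.mul_pos hN hN', k * N' + k' * N, ?_⟩
    rw [IND_P_add f hf, mul_pow, pow_mul, hk, mul_comm N N', pow_mul, hk', zpow_add₀ hq,
      zpow_mul, zpow_mul, zpow_natCast, zpow_natCast]
  neg_mem' := by
    rintro d ⟨N, hN, k, hk⟩
    exact ⟨N, hN, -k, by rw [IND_P_neg, inv_pow, hk, zpow_neg]⟩

lemma IND_mem_R (hf : ∀ i x, f i x ≠ 0) (q : ℕ) (hq : (q : Qb) ≠ 0) (d : ∀ i, Ω i → ℤ) :
    d ∈ IND_R f hf q hq ↔ ∃ N : ℕ, 1 ≤ N ∧ ∃ k : ℤ, IND_P f d ^ N = (q : Qb) ^ k := Iff.rfl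

lemma IND_P_single [DecidableEq ι] [∀ i, DecidableEq (Ω i)] (i : ι) (x : Ω i) (c : ℤ) :
    IND_P f (Pi.single i (Pi.single x c)) = f i x ^ c := by
  unfold IND_P
  rw [Finset.prod_eq_single i, Finset.prod_eq_single x]
  · rw [Pi.single_eq_same, Pi.single_eq_same]
  · intro y _ hy
    rw [Pi.single_eq_same, Pi.single_eq_of_ne hy, zpow_zero]
  · intro h
    exact absurd (Finset.mem_univ _) h
  · intro j _ hj
    apply Finset.prod_eq_one
    intro y _
    rw [Pi.single_eq_of_ne hj, Pi.zero_apply, zpow_zero]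
  · intro h
    exact absurd (Finset.mem_univ _) h

end

lemma IND_zsum {α : Type} (q : Qb) (hq : q ≠ 0) (s : Finset α) (m : α → ℤ) :
    q ^ ∑ x ∈ s, m x = ∏ x ∈ s, q ^ m x := by
  classical
  induction s using Finset.induction_on with
  | empty => simp
  | insert a s ha ih => rw [Finset.sum_insert ha, Finset.prod_insert ha, zpow_add₀ hq, ih]

/-- The abstract form. -/
lemma IND_abs (hGRP : S_GRP) {ι : Type} [Fintype ι] [DecidableEq ι] (Ω : ι → Type)
    [∀ i, Fintype (Ω i)] [∀ i, DecidableEq (Ω i)] [∀ i, MulAction (Qb ≃ₐ[ℚ] Qb) (Ω i)]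
    (bar : ∀ i, Ω i → Ω i) (f : ∀ i, Ω i → Qb) (q : ℕ) (hq : (q : Qb) ≠ 0)
    (hf : ∀ i x, f i x ≠ 0) (hfs : ∀ i (s : Qb ≃ₐ[ℚ] Qb) x, f i (s • x) = s (f i x))
    (hfb : ∀ i x, f i (bar i x) = (q : Qb) / f i x)
    (hb1 : ∀ i x, bar i (bar i x) = x) (hb2 : ∀ i x, bar i x ≠ x)
    (hb3 : ∀ i (s : Qb ≃ₐ[ℚ] Qb) x, bar i (s • x) = s • bar i x)
    (hb4 : ∀ i (τ : Equiv.Perm (Ω i)), (∀ x, τ (bar i x) = bar i (τ x)) →
      ∃ s : Qb ≃ₐ[ℚ] Qb, ∀ x, s • x = τ x)
    (m : ∀ i, Ω i → ℤ) (N : ℕ) (k : ℤ) (hN : 1 ≤ N) (hm : IND_P f m ^ N = (q : Qb) ^ k)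
    (hne : ∃ i x, m i x ≠ m i (bar i x)) :
    (∃ (i : ι) (x : Ω i) (c : ℤ) (N : ℕ) (k : ℤ), c ≠ 0 ∧ 1 ≤ N ∧
      (f i x ^ c * ((q : Qb) / f i x) ^ (-c)) ^ N = (q : Qb) ^ k) ∨
    (∃ (i j : ι) (x : Ω i) (y : Ω j), i ≠ j ∧ ∀ s : Qb ≃ₐ[ℚ] Qb, s • x = x ↔ s • y = y) ∨
    (∃ (i j : ι) (x : Ω i) (w : Ω j → ℤ), i ≠ j ∧ Fintype.card (Ω i) = 4 ∧
      Fintype.card (Ω j) = 4 ∧ (∀ y, w (bar j y) = - w y) ∧ w ≠ 0 ∧ (∀ y z, |w y| = |w z|) ∧
      (∀ s : Qb ≃ₐ[ℚ] Qb, s • x = x → ∀ y, w (s • y) = w y) ∧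
      (∀ s : Qb ≃ₐ[ℚ] Qb, s • x = bar i x → ∀ y, w (s • y) = - w y)) := by
  set R := IND_R f hf q hq with hR
  have hstab : ∀ (s : Qb ≃ₐ[ℚ] Qb), ∀ d ∈ R, (fun i x => d i (s⁻¹ • x)) ∈ R := by
    rintro s d ⟨N, hN, k, hk⟩
    refine ⟨N, hN, k, ?_⟩
    have h1 : IND_P f (fun i x => d i (s⁻¹ • x)) = s (IND_P f d) := by
      unfold IND_P
      rw [map_prod]
      refine Finset.prod_congr rfl fun i _ => ?_
      rw [map_prod, ← Equiv.prod_comp (MulAction.toPerm s)]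
      refine Finset.prod_congr rfl fun x _ => ?_
      rw [MulAction.toPerm_apply]
      show f i (s • x) ^ d i (s⁻¹ • (s • x)) = _
      rw [inv_smul_smul, hfs, map_zpow₀]
    rw [h1, ← map_pow, hk, map_zpow₀, map_natCast]
  have hmR : m ∈ R := ⟨N, hN, k, hm⟩
  have hsum : (m + fun i x => m i (bar i x)) ∈ R := by
    refine ⟨1, le_rfl, ∑ i, ∑ x, m i x, ?_⟩
    rw [pow_one, IND_P_add f hf]
    have h1 : IND_P f (fun i x => m i (bar i x)) = ∏ i, ∏ x, ((q : Qb) / f i x) ^ m i x := by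
      unfold IND_P
      refine Finset.prod_congr rfl fun i _ => ?_
      have hinv : Function.Involutive (bar i) := hb1 i
      rw [← Equiv.prod_comp hinv.toPerm]
      refine Finset.prod_congr rfl fun x _ => ?_
      rw [Function.Involutive.coe_toPerm]
      show f i (bar i x) ^ m i (bar i (bar i x)) = _
      rw [hb1, hfb]
    rw [h1]
    unfold IND_P
    rw [← Finset.prod_mul_distrib]
    have h2 : ∀ i, (∏ x, f i x ^ m i x) * ∏ x, ((q : Qb) / f i x) ^ m i x =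
        (q : Qb) ^ ∑ x, m i x := by
      intro i
      rw [← Finset.prod_mul_distrib]
      have h3 : ∀ x, f i x ^ m i x * ((q : Qb) / f i x) ^ m i x = (q : Qb) ^ m i x := by
        intro x
        rw [← mul_zpow, mul_div_cancel₀ _ (hf i x)]
      rw [Finset.prod_congr rfl fun x _ => h3 x]
      exact (IND_zsum (q : Qb) hq Finset.univ (m i)).symm
    rw [Finset.prod_congr rfl fun i _ => h2 i]
    exact (IND_zsum (q : Qb) hq Finset.univ _).symm
  have hd : ∃ d ∈ R, (∀ i x, d i (bar i x) = - d i x) ∧ d ≠ 0 := by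
    refine ⟨m + m - (m + fun i x => m i (bar i x)), R.sub_mem (R.add_mem hmR hmR) hsum, ?_, ?_⟩
    · intro i x
      simp only [Pi.sub_apply, Pi.add_apply, hb1]
      ring
    · intro h0
      obtain ⟨i, x, hx⟩ := hne
      have h1 := congrFun (congrFun h0 i) x
      simp only [Pi.sub_apply, Pi.add_apply, Pi.zero_apply] at h1
      apply hx
      linarith
  rcases hGRP (Qb ≃ₐ[ℚ] Qb) ι Ω bar R hb1 hb2 hb3 hb4 hstab hd with h | h | h
  · left
    obtain ⟨i, x, c, hc, N, hN, k, hk⟩ := h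
    refine ⟨i, x, c, N, k, hc, hN, ?_⟩
    rw [← hk]
    congr 1
    rw [Pi.single_sub, sub_eq_add_neg, IND_P_add f hf, IND_P_neg, IND_P_single, IND_P_single,
      hfb, zpow_neg]
  · exact Or.inr (Or.inl h)
  · exact Or.inr (Or.inr h)

open Classical in
lemma IND_list (S : Finset ℤ[X]) (O : S → Set Qb) [∀ i, Fintype (O i)]
    (hO : ∀ i, ∀ a ∈ O i, a ≠ 0) : ∀ l : List (ℤ[X] × Qb),
    (∀ x ∈ l, ∃ h : x.1 ∈ S, x.2 ∈ O ⟨x.1, h⟩) →
    IND_P (Ω := fun i => ↥(O i)) (fun i a => a.1) (fun i a => (l.count (i.1, a.1) : ℤ)) =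
      (l.map Prod.snd).prod := by
  intro l
  induction l with
  | nil =>
    intro _
    unfold IND_P
    simp
  | cons x l ih =>
    intro hx
    have e1 : (fun (i : S) (a : O i) => ((x :: l).count (i.1, a.1) : ℤ)) =
        (fun (i : S) (a : O i) => (l.count (i.1, a.1) : ℤ)) +
        (fun (i : S) (a : O i) => if x = (i.1, a.1) then (1 : ℤ) else 0) := by
      funext i a
      rw [Pi.add_apply, Pi.add_apply, List.count_cons]
      by_cases h : x = (i.1, a.1)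
      · simp [h]
      · simp [h]
    rw [e1, IND_P_add (Ω := fun i => ↥(O i)) (fun i a => a.1) (fun i (a : O i) => hO i a.1 a.2),
      ih (fun y hy => hx y (List.mem_cons_of_mem _ hy)), List.map_cons, List.prod_cons, mul_comm]
    congr 1
    obtain ⟨h1, h2⟩ := hx x List.mem_cons_self
    unfold IND_P
    rw [Finset.prod_eq_single ⟨x.1, h1⟩, Finset.prod_eq_single ⟨x.2, h2⟩]
    · simp
    · intro y _ hy
      have : x ≠ (x.1, y.1) := by
        intro h
        exact hy (Subtype.ext (congrArg Prod.snd h).symm)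
      simp only [this, if_false, zpow_zero]
    · intro h
      exact absurd (Finset.mem_univ _) h
    · intro i _ hi
      apply Finset.prod_eq_one
      intro y _
      have : x ≠ (i.1, y.1) := by
        intro h
        exact hi (Subtype.ext (congrArg Prod.fst h).symm)
      simp only [this, if_false, zpow_zero]
    · intro h
      exact absurd (Finset.mem_univ _) h

/-- Theorem B -/
theorem t_IND (hSTAB : S_STAB) (hEMB : S_EMB) (hOMB : S_OMB) (hFULC : S_FULC) (hGRP : S_GRP)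
    (hSING : S_SING) (hREF : S_REF) : S_IND := by
  classical
  intro q hq l hl htw N k hN hprod h a
  have hq1 : 1 ≤ q := hq.one_lt.le
  have hq0 : (q : Qb) ≠ 0 := by
    have : q ≠ 0 := by omega
    exact_mod_cast this
  by_contra hcount
  let S : Finset ℤ[X] := (l.map Prod.fst).toFinset
  have hmemS : ∀ x ∈ l, x.1 ∈ S := by
    intro x hx
    rw [List.mem_toFinset]
    exact List.mem_map_of_mem hx
  have hSl : ∀ i : S, ∃ x ∈ l, x.1 = i.1 := by
    rintro ⟨i, hi⟩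
    rw [List.mem_toFinset, List.mem_map] at hi
    exact hi
  have hS : ∀ i : S, i.1 ∈ Sel q := by
    intro i
    obtain ⟨x, hx, hxi⟩ := hSl i
    rw [← hxi]
    exact (hl x hx).1
  have hFO : ∀ i : S, i.1 ∈ FO q := fun i => (hS i).1
  have hmon : ∀ i : S, i.1.Monic := fun i => (hFO i).2.1.1.1
  have hom := fun i : S => hOMB i.1.natDegree q i.1 hq1 (hmon i) rfl
  have hne := fun i : S => (hom i).2.2.2.2 (hFO i).2.2.1
  let Ω : S → Type := fun i => Om q i.1
  let hft : ∀ i, Fintype (Ω i) := fun i => (hom i).1.fintype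
  let act : ∀ i, MulAction (Qb ≃ₐ[ℚ] Qb) (Ω i) := fun i =>
    { smul := fun s x => ⟨s x.1, (hom i).2.2.1 x.1 x.2 s⟩
      one_smul := fun x => Subtype.ext rfl
      mul_smul := fun s t x => Subtype.ext rfl }
  let bar : ∀ i, Ω i → Ω i := fun i x => ⟨(q : Qb) / x.1, ((hom i).2.1 x.1 x.2).1⟩
  let f : ∀ i, Ω i → Qb := fun i x => x.1
  have hf : ∀ i x, f i x ≠ 0 := fun i x => x.2.1
  have hsm : ∀ i (s : Qb ≃ₐ[ℚ] Qb) (x : Ω i), (s • x).1 = s x.1 := fun i s x => rfl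
  have hbb : ∀ (z : Qb), z ≠ 0 → (q : Qb) / ((q : Qb) / z) = z := by
    intro z hz
    field_simp
  let m : ∀ i, Ω i → ℤ := fun i x => (l.count (i.1, x.1) : ℤ)
  have hPm : IND_P f m = (l.map Prod.snd).prod := by
    apply IND_list S (fun i => Om q i.1) (fun i b hb => hb.1) l
    intro x hx
    exact ⟨hmemS x hx, (hl x hx).2⟩
  -- the pair
  have hpair : ∃ i x, m i x ≠ m i (bar i x) := by
    by_cases h1 : (h, a) ∈ l
    · refine ⟨⟨h, hmemS _ h1⟩, ⟨a, (hl _ h1).2⟩, ?_⟩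
      intro h2
      apply hcount
      have h3 : (l.count (h, a) : ℤ) = (l.count (h, (q : Qb) / a) : ℤ) := h2
      exact_mod_cast h3
    · have h2 : (h, (q : Qb) / a) ∈ l := by
        by_contra h2
        apply hcount
        rw [List.count_eq_zero_of_not_mem h1, List.count_eq_zero_of_not_mem h2]
      have ha0 : a ≠ 0 := by
        rintro rfl
        rw [div_zero] at h2
        exact h1 h2
      have h3 := (hl _ h2).2
      refine ⟨⟨h, hmemS _ h2⟩, ⟨(q : Qb) / a, h3⟩, ?_⟩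
      intro h4
      apply hcount
      have h5 : (l.count (h, (q : Qb) / a) : ℤ) = (l.count (h, (q : Qb) / ((q : Qb) / a)) : ℤ) := h4
      rw [hbb a ha0] at h5
      exact_mod_cast h5.symm
  have hb1 : ∀ i x, bar i (bar i x) = x := fun i x => Subtype.ext (hbb x.1 x.2.1)
  have hb2 : ∀ i x, bar i x ≠ x := by
    intro i x h1
    exact (hne i).1 x.1 x.2 (congrArg Subtype.val h1).symm
  have hb3 : ∀ i (s : Qb ≃ₐ[ℚ] Qb) x, bar i (s • x) = s • bar i x := by
    intro i s x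
    apply Subtype.ext
    show (q : Qb) / s x.1 = s ((q : Qb) / x.1)
    rw [map_div₀, map_natCast]
  have hb4 : ∀ i (τ : Equiv.Perm (Ω i)), (∀ x, τ (bar i x) = bar i (τ x)) →
      ∃ s : Qb ≃ₐ[ℚ] Qb, ∀ x, s • x = τ x := by
    intro i τ hτ
    let τ' : Qb → Qb := fun b => if hb : b ∈ Om q i.1 then (τ ⟨b, hb⟩).1 else b
    have hτ' : ∀ (b : Qb) (hb : b ∈ Om q i.1), τ' b = (τ ⟨b, hb⟩).1 := by
      intro b hb
      simp only [τ', dif_pos hb]
    obtain ⟨σ, hσ⟩ := (hFO i).2.2.2 τ' (by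
      refine ⟨?_, ?_, ?_⟩
      · intro b hb
        rw [hτ' b hb]
        exact (τ ⟨b, hb⟩).2
      · intro b hb c hc hbc
        rw [hτ' b hb, hτ' c hc] at hbc
        have := τ.injective (Subtype.ext hbc)
        exact congrArg Subtype.val this
      · intro b hb
        refine ⟨(τ.symm ⟨b, hb⟩).1, (τ.symm ⟨b, hb⟩).2, ?_⟩
        rw [hτ' _ (τ.symm ⟨b, hb⟩).2]
        have : (⟨(τ.symm ⟨b, hb⟩).1, (τ.symm ⟨b, hb⟩).2⟩ : Ω i) = τ.symm ⟨b, hb⟩ := rfl
        rw [this, Equiv.apply_symm_apply]) (by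
      intro b hb
      have hqb := ((hom i).2.1 b hb).1
      rw [hτ' b hb, hτ' _ hqb]
      exact congrArg Subtype.val (hτ ⟨b, hb⟩))
    refine ⟨σ, fun x => Subtype.ext ?_⟩
    have := hσ x.1 x.2
    rw [hτ' x.1 x.2] at this
    exact this
  have hcard : ∀ i, Fintype.card (Ω i) = 2 * i.1.natDegree := by
    intro i
    rw [← (hFO i).2.2.1, ← Nat.card_eq_fintype_card]
    exact Nat.card_coe_set_eq _
  rcases IND_abs hGRP Ω bar f q hq0 hf (fun i s x => rfl) (fun i x => rfl) hb1 hb2 hb3 hb4 m N k hN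
    (by rw [hPm]; exact hprod) hpair with h1 | h1 | h1
  · obtain ⟨i, x, c, N', k', hc, hN', hk'⟩ := h1
    exact hSING i.1.natDegree q i.1 x.1 c N' k' (hFO i).1 hq (hFO i).2.1 x.2 hc hN' hk'
  · obtain ⟨i, j, x, y, hij, hst⟩ := h1
    have hfix : ∀ s : Qb ≃ₐ[ℚ] Qb, s x.1 = x.1 ↔ s y.1 = y.1 := by
      intro s
      constructor
      · intro h2
        exact congrArg Subtype.val ((hst s).1 (Subtype.ext h2))
      · intro h2
        exact congrArg Subtype.val ((hst s).2 (Subtype.ext h2))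
    have heq : ℚ⟮x.1⟯ = ℚ⟮y.1⟯ := by
      apply le_antisymm
      · rw [IntermediateField.adjoin_simple_le_iff]
        exact hSTAB y.1 x.1 fun s hs => (hfix s).2 hs
      · rw [IntermediateField.adjoin_simple_le_iff]
        exact hSTAB x.1 y.1 fun s hs => (hfix s).1 hs
    rcases (hS i).2.1 j.1 (hFO j) x.1 x.2 y.1 y.2 heq with h2 | h2
    · exact hij (Subtype.ext h2.symm)
    · obtain ⟨x', hx', hxi⟩ := hSl i
      obtain ⟨y', hy', hyj⟩ := hSl j
      apply htw y' hy' x' hx'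
      rw [hyj, hxi]
      exact h2
  · obtain ⟨i, j, x, w, hij, hci, hcj, hodd, hw0, habs, hfx, hfl⟩ := h1
    have hdi : i.1.natDegree = 2 := by
      have := hcard i
      omega
    have hdj : j.1.natDegree = 2 := by
      have := hcard j
      omega
    let w' : Qb → ℤ := fun b => if hb : b ∈ Om q j.1 then w ⟨b, hb⟩ else 0
    have hw' : ∀ (b : Qb) (hb : b ∈ Om q j.1), w' b = w ⟨b, hb⟩ := by
      intro b hb
      simp only [w', dif_pos hb]
    have hwne : ∀ y, w y ≠ 0 := by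
      intro y hy
      apply hw0
      funext z
      have h2 := habs z y
      rw [hy, abs_zero, abs_eq_zero] at h2
      exact h2
    have hsq := hREF q i.1 j.1 x.1 w' hq1 (hFO i) (hFO j) hdi hdj x.2
      (by
        intro b hb
        have hqb := ((hom j).2.1 b hb).1
        rw [hw' b hb, hw' _ hqb]
        exact hodd ⟨b, hb⟩)
      (by
        intro b hb
        rw [hw' b hb]
        exact hwne _)
      (by
        intro b hb c hc
        rw [hw' b hb, hw' c hc]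
        exact habs _ _)
      (by
        intro σ hσ b hb
        have hσb := (hom j).2.2.1 b hb σ
        rw [hw' b hb, hw' _ hσb]
        exact hfx σ (Subtype.ext hσ) ⟨b, hb⟩)
      (by
        intro σ hσ b hb
        have hσb := (hom j).2.2.1 b hb σ
        rw [hw' b hb, hw' _ hσb]
        exact hfl σ (Subtype.ext hσ) ⟨b, hb⟩)
    exact (hS j).2.2 hdj i.1 (hFO i) hdi hsq

end

end Pool.Agent.TJ2
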