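import Pool.Agent.TJ2.Stmts3

/-!
# INZ: the class `InZ` is stable under tensor products and duals (MP_6c4da4_ag, by helper58)
-/

open CategoryTheory MonoidalCategory BraidedCategory Limits Polynomial

universe v u

namespace Pool.Agent.TJ2

noncomputable section

/-- isomorphic objects have isomorphic duals -/
theorem INZ_dualCongr {C : Type u} [Category.{v} C] [MonoidalCategory C] {X Y : C}
    [HasRightDual X] [HasRightDual Y] (i : X ≅ Y) : Nonempty (Xᘁ ≅ Yᘁ) :=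
  ⟨{ hom := i.invᘁ
     inv := i.homᘁ
     hom_inv_id := by rw [← comp_rightAdjointMate, i.hom_inv_id, rightAdjointMate_id]
     inv_hom_id := by rw [← comp_rightAdjointMate, i.inv_hom_id, rightAdjointMate_id] }⟩

theorem t_INZ (hWRD : S_WRD.{v, u}) (hMON : S_MON.{v, u}) : S_INZ.{v, u} := by
  intro C _ _ _ _ _ _ _ _ W q S S₀ D hq hS₀ htw
  obtain ⟨-, hmul, hdual, ⟨iT⟩, ⟨iT'⟩, ⟨iχ⟩, ⟨i1⟩⟩ := hMON C W q S D hq
  have hiso : ∀ X Y, Nonempty (X ≅ Y) → D.InZ S₀ X → D.InZ S₀ Y := by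
    rintro X Y ⟨i⟩ ⟨a, b, e, l, hl, ⟨j⟩⟩
    exact ⟨a, b, e, l, hl, ⟨i.symm ≪≫ j⟩⟩
  have hU : ∀ a b e, D.InZ S₀ (D.U a b e) := fun a b e =>
    ⟨a, b, e, [], by simp, ⟨Iso.refl _⟩⟩
  have hone : D.InZ S₀ (𝟙_ C) := hiso _ _ ⟨i1.symm⟩ (hU 0 0 0)
  have hten : ∀ X Y, D.InZ S₀ X → D.InZ S₀ Y → D.InZ S₀ (X ⊗ Y) := by
    rintro X Y ⟨a, b, e, l, hl, ⟨i⟩⟩ ⟨a', b', e', l', hl', ⟨i'⟩⟩
    obtain ⟨-, h2, h3⟩ := hWRD C D.M (D.U a b e) l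
    obtain ⟨j⟩ := h3 (D.U a' b' e') l'
    obtain ⟨-, h4, -⟩ := hWRD C D.M (D.U a b e ⊗ D.U a' b' e') (l ++ l')
    obtain ⟨k⟩ := h4 _ (hmul a b e a' b' e')
    refine ⟨a + a', b + b', e + e', l ++ l', ?_, ⟨(i ⊗ᵢ i') ≪≫ j ≪≫ k⟩⟩
    intro h hh
    rcases List.mem_append.1 hh with hh | hh
    · exact hl h hh
    · exact hl' h hh
  have hM : ∀ h ∈ S₀, D.InZ S₀ (D.M h) := by
    intro h hh
    refine ⟨0, 0, 0, [h], by simpa using hh, ⟨?_⟩⟩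
    exact (ρ_ (D.M h)).symm ≪≫ whiskerLeftIso (D.M h) i1
  have hMd : ∀ h ∈ S₀, D.InZ S₀ (D.M h)ᘁ := by
    intro h hh
    obtain ⟨p⟩ := D.pol h (hS₀ hh)
    obtain ⟨t⟩ := D.unitT
    have h1 : D.InZ S₀ (D.M h ⊗ D.T') := hten _ _ (hM h hh) (hiso _ _ ⟨iT'.symm⟩ (hU 0 1 0))
    refine hiso _ _ ⟨?_⟩ h1
    exact whiskerRightIso p.symm D.T' ≪≫ α_ _ _ _ ≪≫ whiskerLeftIso _ t ≪≫ ρ_ _
  have hd : ∀ X, D.InZ S₀ X → D.InZ S₀ Xᘁ := by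
    rintro X ⟨a, b, e, l, hl, ⟨i⟩⟩
    obtain ⟨j⟩ := INZ_dualCongr i
    refine hiso _ _ ⟨j.symm⟩ ?_
    clear i j
    induction l with
    | nil =>
      obtain ⟨k⟩ := hdual a b e
      exact hiso _ _ ⟨k.symm⟩ (hU b a e)
    | cons h l ih =>
      have h1 := ih fun h' hh' => hl h' (List.mem_cons_of_mem _ hh')
      have h2 := hMd h (hl h List.mem_cons_self)
      exact hiso _ _ ⟨(rightDualTensorIso (D.M h) (Zo D.M (D.U a b e) l)).symm⟩ (hten _ _ h1 h2)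
  refine ⟨hone, hten, hd, ?_⟩
  rintro Y (rfl | rfl | ⟨h, hh, rfl⟩)
  · exact hiso _ _ ⟨iT.symm⟩ (hU 1 0 0)
  · exact hiso _ _ ⟨iχ.symm⟩ (hU 0 0 1)
  · rcases htw h hh with h1 | ⟨h1, h2⟩
    · exact hM h h1
    · obtain ⟨k⟩ := D.twist (tw h) (hS₀ h1)
      rw [← h2] at k
      exact hiso _ _ ⟨k.symm⟩ (hten _ _ (hiso _ _ ⟨iχ.symm⟩ (hU 0 0 1)) (hM _ h1))

end

end Pool.Agent.TJ2
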