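import Pool.Agent.TJ2.Stmts3

/-!
# KEA: the maps `s`, `r`
-/

open CategoryTheory MonoidalCategory BraidedCategory Limits Polynomial

universe w v u

namespace Pool.Agent.TJ2

noncomputable section

theorem t_KEA : S_KEA := by
  intro C _ _ _ _ _ _ _ _ W X T hX
  obtain ⟨φ⟩ := hX
  let p : ℕ → (X ⟶ X) := fun i => (Mot.component W.F X ^ i : End X)
  have hp : ∀ i j, p i ≫ p j = p (i + j) := by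
    intro i j
    show (Mot.component W.F X ^ j * Mot.component W.F X ^ i : End X) = Mot.component W.F X ^ (i + j)
    rw [← pow_add, add_comm]
  refine ⟨fun i => (λ_ T).inv ≫ (η_ X Xᘁ) ▷ T ≫ (α_ X Xᘁ T).hom ≫ X ◁ φ.hom ≫ p i ▷ X,
    fun j => p j ▷ X ≫ X ◁ φ.inv ≫ (α_ X Xᘁ T).inv ≫ (β_ X Xᘁ).hom ▷ T ≫ (ε_ X Xᘁ) ▷ T ≫
      (λ_ T).hom, ?_⟩
  intro i j t ht
  have h1 : (η_ X Xᘁ) ▷ T ≫ (p (i + j) ▷ Xᘁ) ▷ T ≫ (β_ X Xᘁ).hom ▷ T ≫ (ε_ X Xᘁ) ▷ T =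
      t • 𝟙 (𝟙_ C ⊗ T) := by
    rw [← comp_whiskerRight, ← comp_whiskerRight, ← comp_whiskerRight]
    have h2 : η_ X Xᘁ ≫ p (i + j) ▷ Xᘁ ≫ (β_ X Xᘁ).hom ≫ ε_ X Xᘁ = t • 𝟙 (𝟙_ C) := ht
    rw [h2, MonoidalLinear.smul_whiskerRight, id_whiskerRight]
  have h3 : X ◁ φ.hom ≫ p i ▷ X ≫ p j ▷ X ≫ X ◁ φ.inv = p (i + j) ▷ (Xᘁ ⊗ T) := by
    rw [← comp_whiskerRight_assoc, hp, whisker_exchange_assoc, ← whiskerLeft_comp, φ.hom_inv_id,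
      whiskerLeft_id, Category.comp_id]
  calc _ = (λ_ T).inv ≫ (η_ X Xᘁ) ▷ T ≫ (α_ X Xᘁ T).hom ≫
        (X ◁ φ.hom ≫ p i ▷ X ≫ p j ▷ X ≫ X ◁ φ.inv) ≫ (α_ X Xᘁ T).inv ≫ (β_ X Xᘁ).hom ▷ T ≫
        (ε_ X Xᘁ) ▷ T ≫ (λ_ T).hom := by simp only [Category.assoc]
    _ = (λ_ T).inv ≫ ((η_ X Xᘁ) ▷ T ≫ (p (i + j) ▷ Xᘁ) ▷ T ≫ (β_ X Xᘁ).hom ▷ T ≫
        (ε_ X Xᘁ) ▷ T) ≫ (λ_ T).hom := by
      rw [h3]
      simp only [Category.assoc, whiskerRight_tensor, Iso.hom_inv_id_assoc]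
    _ = t • 𝟙 T := by
      rw [h1, Linear.smul_comp, Linear.comp_smul, Category.id_comp, Iso.inv_hom_id]

end

end Pool.Agent.TJ2
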