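import Pool.Agent.TJ2.Stmts3
import Pool.Agent.Mot.Tr

/-!
# Theorem J, module KEB: traces of tensor products, of the dual, and the dimension of `T`
-/

open CategoryTheory MonoidalCategory BraidedCategory Limits Polynomial

universe w v u

namespace Pool.Agent.TJ2

theorem KEB_trace {C : Type u} [Category.{v} C] [MonoidalCategory C] [SymmetricCategory C]
    [RightRigidCategory C] {X : C} (f : X ⟶ X) : Mot.trace f = Mot.trP X Xᘁ f := rfl

theorem KEB_comm {C : Type u} [Category.{v} C] [MonoidalCategory C] [SymmetricCategory C]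
    [RightRigidCategory C] {X Y : C} (f : X ⟶ Y) (g : Y ⟶ X) :
    Mot.trace (f ≫ g) = Mot.trace (g ≫ f) := Mot.trP_comm f g

theorem KEB_dual {C : Type u} [Category.{v} C] [MonoidalCategory C] [SymmetricCategory C]
    [RightRigidCategory C] (X : C) : Mot.trace (𝟙 Xᘁ) = Mot.trace (𝟙 X) := by
  let inst : ExactPairing Xᘁ X := exactPairing_swap X Xᘁ
  have h1 : Mot.trace (𝟙 Xᘁ) = @Mot.trP C _ _ _ Xᘁ X inst (𝟙 Xᘁ) := by
    rw [KEB_trace]
    exact Mot.trP_indep _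
  rw [h1, KEB_trace]
  unfold Mot.trP Mot.ev
  have h2 : @ExactPairing.coevaluation C _ _ Xᘁ X inst = η_ X Xᘁ ≫ (β_ Xᘁ X).inv := rfl
  have h3 : @ExactPairing.evaluation C _ _ Xᘁ X inst = (β_ X Xᘁ).hom ≫ ε_ X Xᘁ := rfl
  rw [h2, h3]
  have h4 : (β_ Xᘁ X).inv = (β_ X Xᘁ).hom :=
    (SymmetricCategory.braiding_swap_eq_inv_braiding Xᘁ X).symm
  rw [h4, id_whiskerRight, id_whiskerRight, Category.id_comp, Category.id_comp, Category.assoc,
    SymmetricCategory.symmetry_assoc]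

theorem KEB_tensor {C : Type u} [Category.{v} C] [Preadditive C] [Linear ℚ C] [MonoidalCategory C]
    [SymmetricCategory C] [MonoidalPreadditive C] [MonoidalLinear ℚ C] [RightRigidCategory C]
    {X Y : C} (f : X ⟶ X) (g : Y ⟶ Y) (s t : ℚ) (hf : Mot.trace f = s • 𝟙 (𝟙_ C))
    (hg : Mot.trace g = t • 𝟙 (𝟙_ C)) : Mot.trace (f ⊗ₘ g) = (s * t) • 𝟙 (𝟙_ C) := by
  rw [KEB_trace] at hf hg ⊢
  have h1 : Mot.trP (X ⊗ Y) (X ⊗ Y)ᘁ (f ⊗ₘ g) = Mot.trP (X ⊗ Y) (Yᘁ ⊗ Xᘁ) (f ⊗ₘ g) :=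
    Mot.trP_indep _
  rw [h1, Mot.trP_tensor f g t hg, hf, smul_smul, mul_comm]

theorem t_KEB : S_KEB.{v, u} := by
  intro C _ _ _ _ _ _ _ _ W X T
  refine ⟨fun f g s t hf hg => KEB_tensor f g s t hf hg, fun s r => KEB_comm r s, ?_⟩
  rintro ⟨e⟩ hX
  obtain ⟨x, hx⟩ := W.scalar (Mot.trace (𝟙 X))
  obtain ⟨t, ht⟩ := W.scalar (Mot.trace (𝟙 T))
  have hd : Mot.trace (𝟙 Xᘁ) = x • 𝟙 (𝟙_ C) := by rw [KEB_dual, hx]
  have h1 := KEB_tensor (𝟙 Xᘁ) (𝟙 T) x t hd ht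
  rw [id_tensorHom_id] at h1
  have h2 : Mot.trace (𝟙 (Xᘁ ⊗ T)) = Mot.trace (𝟙 X) := by
    have := KEB_comm e.hom e.inv
    rwa [e.hom_inv_id, e.inv_hom_id] at this
  rw [h2, hx] at h1
  have hx0 : x ≠ 0 := by
    rintro rfl
    exact hX (by rw [hx, zero_smul])
  have h3 : (x * (1 - t)) • 𝟙 (𝟙_ C) = 0 := by
    have : x * (1 - t) = x - x * t := by ring
    rw [this, sub_smul, ← h1, sub_self]
  have ht1 : t = 1 := by
    rcases smul_eq_zero.mp h3 with h4 | h4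
    · rcases mul_eq_zero.mp h4 with h5 | h5
      · exact absurd h5 hx0
      · linarith
    · exact absurd h4 W.unit_ne
  rw [ht, ht1, one_smul]

end Pool.Agent.TJ2
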