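import Pool.Agent.TJ2.Defs

/-!
# Theorem J: statements of the modules, partners (T4), density, and independence (helper2)

`PAPER.md`, sections 1 and 2 (T4).  Module `X`: theorem `t_X : S_X`.
-/

open Polynomial IntermediateField

namespace Pool.Agent.TJ2

noncomputable section

/-! ## Basic facts on `Om` -/

/-- An algebraic number fixed by all automorphisms fixing `a` is in `ℚ(a)`. -/
def S_STAB : Prop :=
  ∀ a b : Qb, (∀ σ : Qb ≃ₐ[ℚ] Qb, σ a = a → σ b = b) → b ∈ ℚ⟮a⟯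

/-- Complex absolute values: in every complex embedding `a ∈ Om q h` has absolute value `√q`,
`q / a` is the complex conjugate of `a`, and `a + q / a` is real and in `[-2√q, 2√q]`. -/
def S_EMB : Prop :=
  ∀ (g q : ℕ) (h : ℤ[X]), 1 ≤ q → h ∈ RW g q → ∀ a ∈ Om q h, ∀ ι : Qb →+* ℂ,
    ‖ι a‖ ^ 2 = (q : ℝ) ∧ ι ((q : Qb) / a) = (starRingEnd ℂ) (ι a) ∧
    (ι (a + (q : Qb) / a)).im = 0 ∧ |(ι (a + (q : Qb) / a)).re| ≤ 2 * Real.sqrt q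

/-- Basic facts: `Om q h` is finite, stable under `a ↦ q / a` and under automorphisms, its elements
are algebraic integers; if it has `2 g` elements, then `a ≠ q / a`, and `h` has `g` different
roots. -/
def S_OMB : Prop :=
  ∀ (g q : ℕ) (h : ℤ[X]), 1 ≤ q → h.Monic → h.natDegree = g →
    (Om q h).Finite ∧ (∀ a ∈ Om q h, (q : Qb) / a ∈ Om q h ∧ IsIntegral ℤ a ∧
      a + (q : Qb) / a ∈ Rt h) ∧
    (∀ a ∈ Om q h, ∀ σ : Qb ≃ₐ[ℚ] Qb, σ a ∈ Om q h) ∧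
    (∀ b ∈ Rt h, ∃ a ∈ Om q h, a + (q : Qb) / a = b) ∧
    ((Om q h).ncard = 2 * g → (∀ a ∈ Om q h, a ≠ (q : Qb) / a) ∧ (Rt h).ncard = g ∧
      (h.aroots Qb).Nodup)

/-- Consequences of fullness: transitive on `Om q h`; an automorphism flipping one given pair and
fixing the rest; 2-transitive on the roots of `h`. -/
def S_FULC : Prop :=
  ∀ (q : ℕ) (h : ℤ[X]), 1 ≤ q → h.Monic → Full q h →
    (∀ a ∈ Om q h, ∀ b ∈ Om q h, ∃ σ : Qb ≃ₐ[ℚ] Qb, σ a = b) ∧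
    (∀ a ∈ Om q h, ∃ σ : Qb ≃ₐ[ℚ] Qb, σ a = (q : Qb) / a ∧
      ∀ b ∈ Om q h, b ≠ a → b ≠ (q : Qb) / a → σ b = b) ∧
    (∀ b ∈ Rt h, ∀ b' ∈ Rt h, ∀ c ∈ Rt h, ∀ c' ∈ Rt h, b ≠ b' → c ≠ c' →
      ∃ σ : Qb ≃ₐ[ℚ] Qb, σ b = c ∧ σ b' = c')

/-! ## T4 -/

/-- The equivariant bijection for a partner (paper, T4). -/
def S_PHI : Prop :=
  ∀ (q : ℕ) (h h' : ℤ[X]) (a a' : Qb), 1 ≤ q → h ∈ FO q → h' ∈ FO q → a ∈ Om q h →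
    a' ∈ Om q h' → ℚ⟮a⟯ = ℚ⟮a'⟯ →
    h.natDegree = h'.natDegree ∧ ∃ φ : Qb → Qb, Set.BijOn φ (Om q h) (Om q h') ∧ φ a = a' ∧
      (∀ σ : Qb ≃ₐ[ℚ] Qb, ∀ x ∈ Om q h, φ (σ x) = σ (φ x)) ∧
      ∀ x ∈ Om q h, φ ((q : Qb) / x) = (q : Qb) / φ x

/-- Denominators (paper (2.6)): `D` and `y ^ 2 D` integral in a number field; then there is `m ≥ 1`
with `m y` integral and `m ^ 2` dividing the norm of `D`. -/
def S_IDL : Prop :=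
  ∀ (K : Type) [Field K] [NumberField K] (D y : K), D ≠ 0 → IsIntegral ℤ D →
    IsIntegral ℤ (y ^ 2 * D) →
    ∃ m : ℕ, 1 ≤ m ∧ IsIntegral ℤ ((m : K) * y) ∧ ∃ n : ℤ, Algebra.norm ℚ D = (m : ℚ) ^ 2 * n

/-- The norm of `b ^ 2 - 4 q` from `ℚ(b)`, `b` a root of `h`, is `delta q h`. -/
def S_NRM : Prop :=
  ∀ (q : ℕ) (h : ℤ[X]) (b : Qb), 1 ≤ q → h ∈ FO q → b ∈ Rt h →
    Algebra.norm ℚ ((AdjoinSimple.gen ℚ b) ^ 2 - 4 * ((q : ℕ) : ℚ⟮b⟯)) = (delta q h : ℚ)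

/-- Paper, end of (2.6): the quotients `y` of a partner have a common small denominator, and bounded
absolute values. -/
def S_THE : Prop :=
  ∀ (g q T : ℕ) (ε : ℝ) (h h' : ℤ[X]) (φ : Qb → Qb), 1 ≤ g → IsPrimePow q → 0 < ε → ε < 1 →
    h ∈ Ord g q → Full q h → h ∉ T2 g q ε → h ∉ T3 g q T → h' ∈ FO q →
    Set.BijOn φ (Om q h) (Om q h') →
    (∀ σ : Qb ≃ₐ[ℚ] Qb, ∀ x ∈ Om q h, φ (σ x) = σ (φ x)) →
    (∀ x ∈ Om q h, φ ((q : Qb) / x) = (q : Qb) / φ x) →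
    ∃ m : ℕ, 1 ≤ m ∧ m ≤ T ∧ ∀ x ∈ Om q h,
      IsIntegral ℤ ((m : Qb) * ((φ x - (q : Qb) / φ x) / (x - (q : Qb) / x))) ∧
      ∀ ι : Qb →+* ℂ, ‖ι ((m : Qb) * ((φ x - (q : Qb) / φ x) / (x - (q : Qb) / x)))‖ ≤
        T * Real.sqrt (2 / ε)

/-- Case (a) of (2.7): the roots of `h` are the values of a rational polynomial `u` of degree `< g`
at the `g` different roots of an integer polynomial `f` with bounded roots, with integral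
traces. -/
def CA (g q : ℕ) (H : ℝ) : Set ℤ[X] :=
  {h | h ∈ RW g q ∧ ∃ (f : ℤ[X]) (u : ℚ[X]), f.Monic ∧ f.natDegree = g ∧ (f.aroots ℂ).Nodup ∧
    (∀ z : ℂ, aeval z f = 0 → ‖z‖ ≤ H) ∧ u.degree < g ∧
    (∀ i : ℕ, i < g → ∃ t : ℤ, ((f.aroots ℂ).map (fun z => z ^ i * aeval z u)).sum = (t : ℂ)) ∧
    h.aroots ℂ = (f.aroots ℂ).map (fun z => aeval z u)}

/-- Case (b) of (2.7). -/
def CB (g q T : ℕ) (H : ℝ) : Set ℤ[X] :=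
  {h | h ∈ RW g q ∧ ∃ (m k : ℤ) (f : ℤ[X]), 1 ≤ m ∧ m ≤ T ∧ k ≠ 0 ∧ |(k : ℝ)| ≤ H ∧
    m ^ 2 - k ^ 2 ≠ 0 ∧ f.Monic ∧ f.natDegree = g ∧ f.coeff 0 ≠ 0 ∧
    f.coeff 0 ∣ (4 * q * (m ^ 2 - k ^ 2)) ^ g ∧
    (∀ z : ℂ, aeval z f = 0 → ‖z‖ ≤ 2 * (m + |(k : ℝ)|) * Real.sqrt q) ∧
    h.aroots ℂ = (f.aroots ℂ).map
      (fun s => (4 * (q : ℂ) * ((m : ℂ) ^ 2 - (k : ℂ) ^ 2) / s - s) / (2 * (k : ℂ)))}

/-- For one polynomial `f` there are at most `K (√q) ^ g` polynomials `h` as in case (a): they are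
determined by the integers `t_0, ..., t_(g-1)`, which are at most `2 g √q H ^ i`. -/
def S_CNF : Prop :=
  ∀ (g : ℕ) (H : ℝ) (f : ℤ[X]), 1 ≤ g → 0 ≤ H → f.Monic → f.natDegree = g →
    (f.aroots ℂ).Nodup → (∀ z : ℂ, aeval z f = 0 → ‖z‖ ≤ H) →
    ∃ K : ℝ, ∀ q : ℕ, 1 ≤ q →
      ({h | h ∈ RW g q ∧ ∃ u : ℚ[X], u.degree < g ∧
        (∀ i : ℕ, i < g → ∃ t : ℤ,
          ((f.aroots ℂ).map (fun z => z ^ i * aeval z u)).sum = (t : ℂ)) ∧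
        h.aroots ℂ = (f.aroots ℂ).map (fun z => aeval z u)}.ncard : ℝ) ≤ K * Real.sqrt q ^ g

/-- case (a) is rare (`g ≥ 2`) -/
def S_CNA : Prop :=
  ∀ g : ℕ, 2 ≤ g → ∀ H : ℝ, 0 ≤ H → ∀ η : ℝ, 0 < η → ∃ q₀ : ℕ, ∀ q ≥ q₀,
    ((CA g q H).ncard : ℝ) ≤ η * Lam g q

/-- Few divisors: the number of `d` dividing `(4 q M) ^ g` is at most `K (log q + 1)` for a prime
power `q`. -/
def S_DIV : Prop :=
  ∀ g M : ℕ, 1 ≤ M → ∃ K : ℝ, ∀ q : ℕ, IsPrimePow q →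
    ((Nat.divisors ((4 * q * M) ^ g)).card : ℝ) ≤ K * (Real.log q + 1)

/-- case (b) is rare -/
def S_CNB : Prop :=
  ∀ g : ℕ, 1 ≤ g → ∀ (T : ℕ) (H : ℝ), 0 ≤ H → ∀ η : ℝ, 0 < η → ∃ q₀ : ℕ, ∀ q ≥ q₀,
    IsPrimePow q → ((CB g q T H).ncard : ℝ) ≤ η * Lam g q

/-- The alternative (2.7): `m y` has pairwise different conjugates, or it is an integer. -/
def S_TRI : Prop :=
  ∀ (g q T : ℕ) (ε : ℝ) (h h' : ℤ[X]) (a a' : Qb), 1 ≤ g → IsPrimePow q → 0 < ε → ε < 1 →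
    h ∈ Ord g q → Full q h → h ∉ T2 g q ε → h ∉ T3 g q T → h' ∈ FO q → a ∈ Om q h →
    a' ∈ Om q h' → ℚ⟮a⟯ = ℚ⟮a'⟯ → h' ≠ h → h' ≠ tw h →
    (2 ≤ g ∧ h ∈ CA g q (T * Real.sqrt (2 / ε))) ∨ h ∈ CB g q T (T * Real.sqrt (2 / ε))

/-- condition (ii) holds outside T2, T3, for large `q` -/
def S_SQF : Prop :=
  ∀ (ε : ℝ) (T : ℕ), 0 < ε → ε < 1 → ∃ q₀ : ℕ, ∀ q ≥ q₀, ∀ h h' : ℤ[X], h ∈ Ord 2 q → Full q h →
    h ∉ T2 2 q ε → h ∉ T3 2 q T → h' ∈ FO q → h'.natDegree = 2 →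
    ¬ IsSquare ((h'.coeff 1 ^ 2 - 4 * h'.coeff 0) * delta q h)

/-- T4 is rare -/
def S_T4 : Prop :=
  ∀ g : ℕ, 1 ≤ g → ∀ (ε : ℝ) (T : ℕ), 0 < ε → ε < 1 → ∀ η : ℝ, 0 < η → ∃ q₀ : ℕ, ∀ q ≥ q₀,
    IsPrimePow q → ((T4 g q ε T).ncard : ℝ) ≤ η * Lam g q

/-- Theorem A: density one -/
def S_DENS : Prop :=
  ∀ g : ℕ, 1 ≤ g → ∀ η : ℝ, 0 < η → ∃ q₀ : ℕ, ∀ q ≥ q₀, IsPrimePow q →
    (Ord g q).Finite ∧ 0 < (Ord g q).ncard ∧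
      (((Ord g q) \ Sel q).ncard : ℝ) ≤ η * ((Ord g q).ncard : ℝ)

/-! ## Independence -/

/-- Orbit sizes (paper (1.3)): `Γ` acts on a finite set `Ω` with a fixed point free involution `bar`
and all permutations compatible with `bar` are induced; `w` is odd and not zero, and its orbit
has at most `card Ω` elements.  Then `w` is supported on one pair, or `card Ω = 4`, the absolute
value of `w` is constant, and the orbit has exactly 4 elements. -/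
def S_ORB : Prop :=
  ∀ (Γ Ω : Type) [Group Γ] [Fintype Ω] [DecidableEq Ω] [MulAction Γ Ω] (bar : Ω → Ω)
    (w : Ω → ℤ),
    (∀ x, bar (bar x) = x) → (∀ x, bar x ≠ x) → (∀ (s : Γ) x, bar (s • x) = s • bar x) →
    (∀ τ : Equiv.Perm Ω, (∀ x, τ (bar x) = bar (τ x)) → ∃ s : Γ, ∀ x, s • x = τ x) →
    (∀ x, w (bar x) = - w x) → w ≠ 0 →
    (Set.range (fun s : Γ => fun x => w (s⁻¹ • x))).ncard ≤ Fintype.card Ω →
    (∃ y, w y ≠ 0 ∧ ∀ x, x ≠ y → x ≠ bar y → w x = 0) ∨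
      (Fintype.card Ω = 4 ∧ (∀ x y, |w x| = |w y|) ∧
        (Set.range (fun s : Γ => fun x => w (s⁻¹ • x))).ncard = 4)

/-- The abstract relation lemma (paper, section 1). -/
def S_GRP : Prop :=
  ∀ (Γ ι : Type) [Group Γ] [Fintype ι] [DecidableEq ι] (Ω : ι → Type) [∀ i, Fintype (Ω i)]
    [∀ i, DecidableEq (Ω i)] [∀ i, MulAction Γ (Ω i)] (bar : ∀ i, Ω i → Ω i)
    (R : AddSubgroup (∀ i, Ω i → ℤ)),
    (∀ i x, bar i (bar i x) = x) → (∀ i x, bar i x ≠ x) →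
    (∀ i (s : Γ) x, bar i (s • x) = s • bar i x) →
    (∀ i (τ : Equiv.Perm (Ω i)), (∀ x, τ (bar i x) = bar i (τ x)) → ∃ s : Γ, ∀ x, s • x = τ x) →
    (∀ (s : Γ), ∀ d ∈ R, (fun i x => d i (s⁻¹ • x)) ∈ R) →
    (∃ d ∈ R, (∀ i x, d i (bar i x) = - d i x) ∧ d ≠ 0) →
    (∃ (i : ι) (x : Ω i) (c : ℤ), c ≠ 0 ∧
      Pi.single i (Pi.single x c - Pi.single (bar i x) c) ∈ R) ∨
    (∃ (i j : ι) (x : Ω i) (y : Ω j), i ≠ j ∧ ∀ s : Γ, s • x = x ↔ s • y = y) ∨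
    (∃ (i j : ι) (x : Ω i) (w : Ω j → ℤ), i ≠ j ∧ Fintype.card (Ω i) = 4 ∧
      Fintype.card (Ω j) = 4 ∧ (∀ y, w (bar j y) = - w y) ∧ w ≠ 0 ∧ (∀ y z, |w y| = |w z|) ∧
      (∀ s : Γ, s • x = x → ∀ y, w (s • y) = w y) ∧
      (∀ s : Γ, s • x = bar i x → ∀ y, w (s • y) = - w y))

/-- One ordinary variety alone has no relation (paper (1.2)). -/
def S_SING : Prop :=
  ∀ (g q : ℕ) (h : ℤ[X]) (a : Qb) (c : ℤ) (N : ℕ) (k : ℤ), 1 ≤ g → IsPrimePow q →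
    h ∈ Ord g q → a ∈ Om q h → c ≠ 0 → 1 ≤ N →
    (a ^ c * ((q : Qb) / a) ^ (-c)) ^ N ≠ (q : Qb) ^ k

/-- The reflex case (paper, end of (1.3)). -/
def S_REF : Prop :=
  ∀ (q : ℕ) (h h' : ℤ[X]) (a : Qb) (w : Qb → ℤ), 1 ≤ q → h ∈ FO q → h' ∈ FO q →
    h.natDegree = 2 → h'.natDegree = 2 → a ∈ Om q h →
    (∀ x ∈ Om q h', w ((q : Qb) / x) = - w x) → (∀ x ∈ Om q h', w x ≠ 0) →
    (∀ x ∈ Om q h', ∀ y ∈ Om q h', |w x| = |w y|) →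
    (∀ σ : Qb ≃ₐ[ℚ] Qb, σ a = a → ∀ x ∈ Om q h', w (σ x) = w x) →
    (∀ σ : Qb ≃ₐ[ℚ] Qb, σ a = (q : Qb) / a → ∀ x ∈ Om q h', w (σ x) = - w x) →
    IsSquare ((h.coeff 1 ^ 2 - 4 * h.coeff 0) * delta q h')

open Classical in
/-- Theorem B: elements `(h, a)` of a list, `h ∈ Sel q`, `a ∈ Om q h`, no two of the `h` different
twists of each other; if a power of the product of the `a` is a power of `q`, then `(h, a)` and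
`(h, q / a)` occur with the same multiplicity. -/
def S_IND : Prop :=
  ∀ (q : ℕ), IsPrimePow q → ∀ (l : List (ℤ[X] × Qb)),
    (∀ x ∈ l, x.1 ∈ Sel q ∧ x.2 ∈ Om q x.1) → (∀ x ∈ l, ∀ y ∈ l, x.1 ≠ tw y.1) →
    ∀ (N : ℕ) (k : ℤ), 1 ≤ N → (l.map Prod.snd).prod ^ N = (q : Qb) ^ k →
    ∀ (h : ℤ[X]) (a : Qb), l.count (h, a) = l.count (h, (q : Qb) / a)

end

end Pool.Agent.TJ2
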