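import Pool.Agent.TJ2.Stmts2
import Pool.Agent.TJ2.Stmts3

/-!
# Theorem J: the main induction (helper2)
-/

open CategoryTheory MonoidalCategory BraidedCategory Polynomial

universe w v u

namespace Pool.Agent.TJ2

noncomputable section

set_option linter.unusedSectionVars false

section

variable {C : Type u} [Category.{v} C] [Preadditive C] [Linear ℚ C] [MonoidalCategory C]
  [SymmetricCategory C] [MonoidalPreadditive C] [MonoidalLinear ℚ C] [RightRigidCategory C]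

lemma MAI_noNt_iso {Y Z : C} (i : Y ≅ Z) (h : NoNt Z) : NoNt Y := by
  intro f hf
  have h1 : f ≫ i.hom = 0 := by
    apply h
    intro g
    rw [Category.assoc]
    exact hf _
  have h2 : f = (f ≫ i.hom) ≫ i.inv := by
    rw [Category.assoc, i.hom_inv_id, Category.comp_id]
  rw [h2, h1, Limits.zero_comp]

/-- powers of an operator, transported by a morphism -/
lemma MAI_pow {X Y : C} (Θ : X ⟶ Y) (A : X ⟶ X) (B : End Y) (hAB : A ≫ Θ = Θ ≫ B) (n : ℕ)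
    (f : 𝟙_ C ⟶ X) :
    ((Linear.rightComp ℚ (𝟙_ C) A : Module.End ℚ (𝟙_ C ⟶ X)) ^ n) f ≫ Θ =
      (f ≫ Θ) ≫ (B ^ n : End Y) := by
  induction n with
  | zero =>
    rw [pow_zero, pow_zero]
    change f ≫ Θ = (f ≫ Θ) ≫ 𝟙 Y
    rw [Category.comp_id]
  | succ n ih =>
    rw [pow_succ', pow_succ']
    change (((Linear.rightComp ℚ (𝟙_ C) A : Module.End ℚ (𝟙_ C ⟶ X)) ^ n) f ≫ A) ≫ Θ =
      (f ≫ Θ) ≫ ((B ^ n : End Y) ≫ B)
    rw [Category.assoc, hAB, ← Category.assoc, ih, Category.assoc]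

/-- `ev2` transported by a morphism -/
lemma MAI_ev2 {X Y : C} (Θ : X ⟶ Y) (A A' : X ⟶ X) (B B' : End Y) (hAB : A ≫ Θ = Θ ≫ B)
    (hAB' : A' ≫ Θ = Θ ≫ B') (n : ℕ) (E : ℕ → ℕ → ℚ) (f : 𝟙_ C ⟶ X) :
    (ev2 n E (Linear.rightComp ℚ (𝟙_ C) A : Module.End ℚ (𝟙_ C ⟶ X))
      (Linear.rightComp ℚ (𝟙_ C) A')) f ≫ Θ = (f ≫ Θ) ≫ (ev2 n E B B' : End Y) := by
  have h1 : ∀ i j : ℕ, ((Linear.rightComp ℚ (𝟙_ C) A : Module.End ℚ (𝟙_ C ⟶ X)) ^ i *
      (Linear.rightComp ℚ (𝟙_ C) A' : Module.End ℚ (𝟙_ C ⟶ X)) ^ j) f ≫ Θ =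
        (f ≫ Θ) ≫ (B ^ i * B' ^ j : End Y) := by
    intro i j
    rw [Module.End.mul_apply, MAI_pow Θ A B hAB, MAI_pow Θ A' B' hAB', End.mul_def, Category.assoc]
  unfold ev2
  rw [LinearMap.sum_apply, Preadditive.sum_comp]
  have h2 : (f ≫ Θ) ≫ (∑ i ∈ Finset.range n, ∑ j ∈ Finset.range n, E i j • (B ^ i * B' ^ j) : End Y)
      = ∑ i ∈ Finset.range n, (f ≫ Θ) ≫ (∑ j ∈ Finset.range n, E i j • (B ^ i * B' ^ j) : End Y) :=
    Preadditive.comp_sum _ _ _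
  rw [h2]
  refine Finset.sum_congr rfl (fun i _ => ?_)
  rw [LinearMap.sum_apply, Preadditive.sum_comp]
  have h3 : (f ≫ Θ) ≫ (∑ j ∈ Finset.range n, E i j • (B ^ i * B' ^ j) : End Y)
      = ∑ j ∈ Finset.range n, (f ≫ Θ) ≫ (E i j • (B ^ i * B' ^ j) : End Y) :=
    Preadditive.comp_sum _ _ _
  rw [h3]
  refine Finset.sum_congr rfl (fun j _ => ?_)
  rw [LinearMap.smul_apply, Linear.smul_comp, h1]
  exact (Linear.comp_smul _ _ _ (f ≫ Θ) (E i j) (B ^ i * B' ^ j : End Y)).symm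

/-- whiskering as an algebra homomorphism -/
def MAIwhisk (X Z : C) : End X →ₐ[ℚ] End (X ⊗ Z) where
  toFun f := (f : X ⟶ X) ▷ Z
  map_one' := id_whiskerRight X Z
  map_mul' f g := by
    change ((g : X ⟶ X) ≫ (f : X ⟶ X)) ▷ Z = ((g : X ⟶ X) ▷ Z) ≫ ((f : X ⟶ X) ▷ Z)
    rw [comp_whiskerRight]
  map_zero' := MonoidalPreadditive.zero_whiskerRight
  map_add' f g := MonoidalPreadditive.add_whiskerRight (f : X ⟶ X) (g : X ⟶ X)
  commutes' r := by
    change (r • 𝟙 X : X ⟶ X) ▷ Z = (r • 𝟙 (X ⊗ Z) : X ⊗ Z ⟶ X ⊗ Z)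
    rw [MonoidalLinear.smul_whiskerRight, id_whiskerRight]

lemma MAI_map_ev2 {A B : Type*} [Ring A] [Ring B] [Algebra ℚ A] [Algebra ℚ B] (ρ : A →ₐ[ℚ] B)
    (n : ℕ) (E : ℕ → ℕ → ℚ) (a b : A) : ρ (ev2 n E a b) = ev2 n E (ρ a) (ρ b) := by
  unfold ev2
  rw [map_sum]
  refine Finset.sum_congr rfl (fun i _ => ?_)
  rw [map_sum]
  refine Finset.sum_congr rfl (fun j _ => ?_)
  rw [map_smul, map_mul, map_pow, map_pow]

lemma MAI_nat1 {X Y A Z : C} (φ : X ⟶ X) (p : Y ⟶ A ⊗ Z) :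
    (φ ▷ Y) ≫ (X ◁ p ≫ (α_ X A Z).inv) = (X ◁ p ≫ (α_ X A Z).inv) ≫ ((φ ▷ A) ▷ Z) := by
  rw [← Category.assoc, ← whisker_exchange, Category.assoc, Category.assoc]
  congr 1
  rw [associator_inv_naturality_left]

lemma MAI_nat2 {X Y A Z : C} (ψ : Y ⟶ Y) (φ : A ⟶ A) (p : Y ⟶ A ⊗ Z) (h : ψ ≫ p = p ≫ φ ▷ Z) :
    (X ◁ ψ) ≫ (X ◁ p ≫ (α_ X A Z).inv) = (X ◁ p ≫ (α_ X A Z).inv) ≫ ((X ◁ φ) ▷ Z) := by
  rw [← Category.assoc, ← MonoidalCategory.whiskerLeft_comp, h,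
    MonoidalCategory.whiskerLeft_comp, Category.assoc, Category.assoc]
  congr 1
  rw [associator_inv_naturality_middle]

/-- transport of the two operators to `(X ⊗ X) ⊗ Z` -/
lemma MAI_two (F : 𝟭 C ⟶ 𝟭 C) (M : ℤ[X] → C) (U : C) (h : ℤ[X]) (l : List ℤ[X]) (j : ℕ)
    (Z : C) (π : Zo M U l ≅ M h ⊗ Z) (hπ : opZ F M U l j ≫ π.hom = π.hom ≫ F.app (M h) ▷ Z)
    (n : ℕ) (E : ℕ → ℕ → ℚ) (f : 𝟙_ C ⟶ Zo M U (h :: l)) :
    (ev2 n E (phZ F M U (h :: l) 0) (phZ F M U (h :: l) (j + 1))) f ≫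
      (M h ◁ π.hom ≫ (α_ (M h) (M h) Z).inv) =
    (f ≫ (M h ◁ π.hom ≫ (α_ (M h) (M h) Z).inv)) ≫
      ((ev2 n E (opL F (M h)) (opR F (M h)) : End (M h ⊗ M h)) : M h ⊗ M h ⟶ M h ⊗ M h) ▷ Z := by
  have h1 : (F.app (M h) ▷ Zo M U l) ≫ (M h ◁ π.hom ≫ (α_ (M h) (M h) Z).inv) =
      (M h ◁ π.hom ≫ (α_ (M h) (M h) Z).inv) ≫ (MAIwhisk (M h ⊗ M h) Z (opL F (M h))) :=
    MAI_nat1 (F.app (M h)) π.hom
  have h2 : (M h ◁ opZ F M U l j) ≫ (M h ◁ π.hom ≫ (α_ (M h) (M h) Z).inv) =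
      (M h ◁ π.hom ≫ (α_ (M h) (M h) Z).inv) ≫ (MAIwhisk (M h ⊗ M h) Z (opR F (M h))) :=
    MAI_nat2 (opZ F M U l j) (F.app (M h)) π.hom hπ
  have h3 := MAI_ev2 (M h ◁ π.hom ≫ (α_ (M h) (M h) Z).inv) (F.app (M h) ▷ Zo M U l)
    (M h ◁ opZ F M U l j) _ _ h1 h2 n E f
  rw [← MAI_map_ev2] at h3
  exact h3

/-- the two operators composed with the key identity: the section vanishes -/
lemma MAI_step (F : 𝟭 C ⟶ 𝟭 C) (M : ℤ[X] → C) (U T : C) (h : ℤ[X]) (l : List ℤ[X]) (j : ℕ)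
    (Z : C) (π : Zo M U l ≅ M h ⊗ Z) (hπ : opZ F M U l j ≫ π.hom = π.hom ≫ F.app (M h) ▷ Z)
    (n : ℕ) (E : ℕ → ℕ → ℚ) (f : 𝟙_ C ⟶ Zo M U (h :: l))
    (hf : ∀ g : Zo M U (h :: l) ⟶ 𝟙_ C, f ≫ g = 0)
    (m : ℕ) (s : Fin m → (T ⟶ M h ⊗ M h)) (r : Fin m → (M h ⊗ M h ⟶ T))
    (hE : ev2 n E (opL F (M h)) (opR F (M h)) = ∑ k, r k ≫ s k) (hT : NoNt (T ⊗ Z)) :
    (ev2 n E (phZ F M U (h :: l) 0) (phZ F M U (h :: l) (j + 1))) f = 0 := by
  have h1 := MAI_two F M U h l j Z π hπ n E f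
  rw [hE] at h1
  have h2 : (f ≫ (M h ◁ π.hom ≫ (α_ (M h) (M h) Z).inv)) ≫
      ((∑ k, r k ≫ s k : M h ⊗ M h ⟶ M h ⊗ M h)) ▷ Z = 0 := by
    rw [sum_whiskerRight, Preadditive.comp_sum]
    refine Finset.sum_eq_zero (fun k _ => ?_)
    have h3 : (f ≫ (M h ◁ π.hom ≫ (α_ (M h) (M h) Z).inv)) ≫ (r k ▷ Z) = 0 := by
      apply hT
      intro g
      have h4 := hf ((M h ◁ π.hom ≫ (α_ (M h) (M h) Z).inv) ≫ (r k ▷ Z) ≫ g)
      rw [← h4]
      simp only [Category.assoc]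
    rw [comp_whiskerRight, ← Category.assoc, h3, Limits.zero_comp]
  rw [h2] at h1
  have h5 : IsIso (M h ◁ π.hom ≫ (α_ (M h) (M h) Z).inv) := inferInstance
  have h6 : ∀ x : 𝟙_ C ⟶ M h ⊗ Zo M U l, x ≫ (M h ◁ π.hom ≫ (α_ (M h) (M h) Z).inv) = 0 →
      x = 0 := by
    intro x hx
    rw [← cancel_mono (M h ◁ π.hom ≫ (α_ (M h) (M h) Z).inv), hx, Limits.zero_comp]
  exact h6 _ h1

lemma MAI_unit (W : MotP.Frobenius C) (U : C) (c : ℚ) (hc : W.F.app U = c • 𝟙 U)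
    (hc1 : c = 1 → Nonempty (U ≅ 𝟙_ C)) : NoNt U := by
  intro f hf
  by_cases h1 : c = 1
  · obtain ⟨i⟩ := hc1 h1
    have h2 := hf i.hom
    rw [← cancel_mono i.hom, h2, Limits.zero_comp]
  · have h2 := W.F.naturality f
    rw [W.F_unit, hc] at h2
    change f ≫ (c • 𝟙 U) = 𝟙 (𝟙_ C) ≫ f at h2
    rw [Linear.comp_smul, Category.comp_id, Category.id_comp] at h2
    have h3 : (c - 1) • f = 0 := by rw [sub_smul, h2, one_smul, sub_self]
    rcases smul_eq_zero.mp h3 with h4 | h4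
    · exact absurd (sub_eq_zero.mp h4) h1
    · exact h4

end

theorem t_MAI (hOMB : S_OMB) (hWEI : S_WEI) (hDXY : S_DXY) (hALG : S_ALG.{v})
    (hMOV : S_MOV.{v, u}) (hCOM : S_COM.{v, u}) (hPRD : S_PRD.{v, u}) (hPLZ : S_PLZ.{v, u})
    (hWRD : S_WRD.{v, u}) (hMON : S_MON.{v, u}) (hKEY : S_KEY.{v, u}) : S_MAI.{v, u} := by
  intro C _ _ _ _ _ _ _ _ W q S S₀ D hq hS hS0 hind
  have hmon := hMON C W q S D hq
  have key : ∀ n : ℕ, ∀ l : List ℤ[X], l.length = n → ∀ a b e : ℕ, (∀ h ∈ l, h ∈ S₀) →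
      NoNt (Zo D.M (D.U a b e) l) := by
    intro n
    induction n using Nat.strong_induction_on with
    | _ n ih =>
    intro l hln a b e hl
    obtain ⟨c, hc, ⟨k, hk⟩, hc1⟩ := hmon.1 a b e
    rcases l with _ | ⟨h, l⟩
    · exact MAI_unit W (D.U a b e) c hc hc1
    · -- the inductive step
      have hhS0 : h ∈ S₀ := hl h List.mem_cons_self
      have hFO : ∀ x ∈ h :: l, x ∈ FO q := fun x hx => hS (hS0 (hl x hx))
      have hfo := hFO h List.mem_cons_self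
      have hq1 : 1 ≤ q := by omega
      have hmo : ∀ x ∈ h :: l, x.Monic := fun x hx => (hFO x hx).2.1.1.1
      obtain ⟨E, hE⟩ := hDXY q h hq1 (hmo h List.mem_cons_self) hfo.2.2
      obtain ⟨m', s, r, hsr⟩ := hKEY C W q S D h E hq1 (hS0 hhS0) hfo.1
        (hmo h List.mem_cons_self) hfo.2.2 (fun a ha b hb hab => by rw [hE a ha b hb, if_pos hab])
        (fun a ha b hb hab => by rw [hE a ha b hb, if_neg hab])
      intro f hf
      have hget : ∀ i : Fin (l.length + 1), (h :: l)[(i : ℕ)]'i.isLt ∈ h :: l :=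
        fun i => List.getElem_mem _
      apply hALG (𝟙_ C ⟶ Zo D.M (D.U a b e) (h :: l)) l.length
        (fun i => phZ W.F D.M (D.U a b e) (h :: l) (i : ℕ))
        (fun i => (weil q ((h :: l)[(i : ℕ)]'i.isLt)).map (Int.castRingHom ℚ)) c
        (Finset.univ.filter (fun j : Fin l.length => l[(j : ℕ)] = h)) (2 * h.natDegree) E f
      · intro i j
        apply LinearMap.ext
        intro x
        change (x ≫ opZ W.F D.M (D.U a b e) (h :: l) (j : ℕ)) ≫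
            opZ W.F D.M (D.U a b e) (h :: l) (i : ℕ) =
          (x ≫ opZ W.F D.M (D.U a b e) (h :: l) (i : ℕ)) ≫
            opZ W.F D.M (D.U a b e) (h :: l) (j : ℕ)
        rw [Category.assoc, Category.assoc, hCOM C W.F D.M (D.U a b e) (h :: l) j i]
      · intro i
        exact ((hWEI q _ hq1 (hmo _ (hget i))).2.2.2 (hFO _ (hget i)).2.2).1
      · intro i
        exact hPLZ C W D.M (D.U a b e) (h :: l) (i : ℕ) i.isLt _
          (D.root _ (hS0 (hl _ (hget i))))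
      · -- independence
        intro α hα hprod
        have hαm : ∀ i : Fin (l.length + 1), α i ∈ Om q ((h :: l)[(i : ℕ)]'i.isLt) := by
          intro i
          rw [← (hWEI q _ hq1 (hmo _ (hget i))).2.2.1 (α i)]
          have h1 := hα i
          rw [← algebraMap_int_eq, aeval_map_algebraMap] at h1
          exact h1
        have h1 := hind (List.ofFn (fun i : Fin (l.length + 1) =>
          ((h :: l)[(i : ℕ)]'i.isLt, α i))) (by
            intro x hx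
            rw [List.mem_ofFn] at hx
            obtain ⟨i, rfl⟩ := hx
            exact ⟨hl _ (hget i), hαm i⟩) (-k) (by
              rw [List.map_ofFn]
              have h2 : (List.ofFn (Prod.snd ∘ fun i : Fin (l.length + 1) =>
                  ((h :: l)[(i : ℕ)]'i.isLt, α i))).prod = ∏ i, α i := List.prod_ofFn
              rw [h2]
              have h3 : (algebraMap ℚ Qb c) ^ 2 = (q : Qb) ^ k := by
                rw [← map_pow, hk, map_zpow₀, map_natCast]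
              have h4 : (algebraMap ℚ Qb c) ^ 2 * (∏ i, α i) ^ 2 = 1 := by
                rw [← mul_pow, hprod, one_pow]
              rw [h3] at h4
              rw [zpow_neg]
              exact eq_inv_of_mul_eq_one_right h4) (h, α 0) (by
                rw [List.mem_ofFn]
                exact ⟨0, rfl⟩)
        rw [List.mem_ofFn] at h1
        obtain ⟨i, hi⟩ := h1
        have hi1 : (h :: l)[(i : ℕ)]'i.isLt = h := (Prod.ext_iff.mp hi).1
        have hi2 : α i = (q : Qb) / α 0 := (Prod.ext_iff.mp hi).2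
        have ha0 : α 0 ∈ Om q h := hαm 0
        rcases Fin.eq_zero_or_eq_succ i with h2 | ⟨j, rfl⟩
        · exfalso
          rw [h2] at hi2
          exact ((hOMB h.natDegree q h hq1 (hmo h List.mem_cons_self) rfl).2.2.2.2
            hfo.2.2.1).1 (α 0) ha0 hi2
        · refine ⟨j, Finset.mem_filter.mpr ⟨Finset.mem_univ j, hi1⟩, ?_⟩
          have h3 : α j.succ ∈ Om q h := by
            have h4 := hαm j.succ
            rw [hi1] at h4
            exact h4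
          rw [hE (α 0) ha0 (α j.succ) h3, if_pos hi2]
      · exact hPRD C W D.M (D.U a b e) c (h :: l) f hc
      · intro j hj
        have hj1 : l[(j : ℕ)] = h := (Finset.mem_filter.mp hj).2
        obtain ⟨π, hπ⟩ := hMOV C W.F D.M (D.U a b e) l (j : ℕ) j.isLt
        obtain ⟨Z, hZ⟩ : ∃ Z, Z = Zo D.M (D.U a b e) (l.eraseIdx (j : ℕ)) := ⟨_, rfl⟩
        have hlt : (l.eraseIdx (j : ℕ)).length < n := by
          have h1 := List.length_eraseIdx_of_lt j.isLt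
          rw [List.length_cons] at hln
          omega
        have hmem : ∀ x ∈ l.eraseIdx (j : ℕ), x ∈ S₀ := fun x hx =>
          hl x (List.mem_cons_of_mem h (List.mem_of_mem_eraseIdx hx))
        have hT : NoNt (D.T ⊗ Z) := by
          rw [hZ]
          obtain ⟨i1⟩ := (hWRD C D.M (D.U a b e) (l.eraseIdx (j : ℕ))).1 D.T
          obtain ⟨i2⟩ := hmon.2.2.2.1
          obtain ⟨i3⟩ := hmon.2.1 1 0 0 a b e
          obtain ⟨i4⟩ := (hWRD C D.M (D.T ⊗ D.U a b e) (l.eraseIdx (j : ℕ))).2.1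
            (D.U (1 + a) (0 + b) (0 + e)) ⟨whiskerRightIso i2 (D.U a b e) ≪≫ i3⟩
          exact MAI_noNt_iso (i1 ≪≫ i4) (ih _ hlt _ rfl _ _ _ hmem)
        have hgen : ∀ x : ℤ[X], x = h → ∀ (π : Zo D.M (D.U a b e) l ≅ D.M x ⊗ Z),
            opZ W.F D.M (D.U a b e) l (j : ℕ) ≫ π.hom = π.hom ≫ W.F.app (D.M x) ▷ Z →
            (ev2 (2 * h.natDegree) E (phZ W.F D.M (D.U a b e) (h :: l) 0)
              (phZ W.F D.M (D.U a b e) (h :: l) ((j : ℕ) + 1))) f = 0 := by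
          rintro x rfl π hπ
          exact MAI_step W.F D.M (D.U a b e) D.T x l (j : ℕ) Z π hπ _ E f hf m' s r hsr hT
        subst hZ
        exact hgen _ hj1 π hπ
  intro a b e l hl
  exact key l.length l rfl a b e hl

end

end Pool.Agent.TJ2
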