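import Pool.Agent.TJ2.Stmts3

/-!
# Theorem J, module MON: monomials in `T`, `T'`, `χ`
-/

open CategoryTheory MonoidalCategory BraidedCategory Limits Polynomial

universe v u

namespace Pool.Agent.TJ2

noncomputable section

section Sk

variable {C : Type u} [Category.{v} C] [MonoidalCategory C]

theorem MON_sk_T (X : C) (n : ℕ) : toSkeleton (Mot.T X n) = toSkeleton X ^ n := by
  induction n with
  | zero => rfl
  | succ n ih =>
    show toSkeleton (Mot.T X n ⊗ X) = _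
    rw [Skeleton.toSkeleton_tensorObj, ih]
    exact (pow_succ _ _).symm

theorem MON_faithful_aux {U A B : C} (j : U ≅ 𝟙_ C) (f g : A ⟶ B) (h : U ◁ f = U ◁ g) :
    f = g := by
  have key : ∀ k : A ⟶ B, k = (λ_ A).inv ≫ j.inv ▷ A ≫ U ◁ k ≫ j.hom ▷ B ≫ (λ_ B).hom := by
    intro k
    rw [whisker_exchange_assoc, ← comp_whiskerRight_assoc, j.inv_hom_id, id_whiskerRight,
      Category.id_comp, id_whiskerLeft]
    simp
  rw [key f, key g, h]

theorem MON_faithful {T T' A B : C} (i : T' ⊗ T ≅ 𝟙_ C) (f g : A ⟶ B) (h : T ◁ f = T ◁ g) :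
    f = g := by
  apply MON_faithful_aux i
  rw [tensor_whiskerLeft, tensor_whiskerLeft, h]

/-- `X ⊗ Y ≅ 1` and `Y ⊗ X ≅ 1` imply `X' ≅ Y`. -/
theorem MON_dual [RightRigidCategory C] {X Y : C} (i : X ⊗ Y ≅ 𝟙_ C) (j : Y ⊗ X ≅ 𝟙_ C) :
    Nonempty (Xᘁ ≅ Y) := by
  let e : C ≌ C := CategoryTheory.Equivalence.mk (tensorLeft Y) (tensorLeft X)
    (NatIso.ofComponents (fun Z => (λ_ Z).symm ≪≫ whiskerRightIso i.symm Z ≪≫ α_ X Y Z)
      (by
        intro A B f
        simp only [Functor.id_obj, Functor.comp_obj, Functor.id_map, Iso.trans_hom,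
          Iso.symm_hom, whiskerRightIso_hom, Functor.comp_map, Category.assoc]
        change f ≫ (λ_ B).inv ≫ i.inv ▷ B ≫ (α_ X Y B).hom =
          (λ_ A).inv ≫ i.inv ▷ A ≫ (α_ X Y A).hom ≫ X ◁ Y ◁ f
        rw [← associator_naturality_right, ← whisker_exchange_assoc,
          ← leftUnitor_inv_naturality_assoc]))
    (NatIso.ofComponents (fun Z => (α_ Y X Z).symm ≪≫ whiskerRightIso j Z ≪≫ λ_ Z)
      (by
        intro A B f
        simp only [Functor.id_obj, Functor.comp_obj, Functor.id_map, Iso.trans_hom,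
          Iso.symm_hom, whiskerRightIso_hom, Functor.comp_map, Category.assoc]
        change Y ◁ X ◁ f ≫ (α_ Y X B).inv ≫ j.hom ▷ B ≫ (λ_ B).hom =
          (α_ Y X A).inv ≫ j.hom ▷ A ≫ (λ_ A).hom ≫ f
        rw [associator_inv_naturality_right_assoc, whisker_exchange_assoc,
          leftUnitor_naturality]))
  have adj1 : tensorLeft Y ⊣ tensorLeft X := e.toAdjunction
  have adj2 : tensorLeft Xᘁ ⊣ tensorLeft X := tensorLeftAdjunction X Xᘁ
  have k := (Adjunction.leftAdjointUniq adj2 adj1).app (𝟙_ C)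
  exact ⟨(ρ_ _).symm ≪≫ k ≪≫ ρ_ _⟩

end Sk

section Frob

variable {C : Type u} [Category.{v} C] [Preadditive C] [Linear ℚ C] [MonoidalCategory C]
  [SymmetricCategory C] [MonoidalPreadditive C] [MonoidalLinear ℚ C] [RightRigidCategory C]

theorem MON_frob_iso (F : 𝟭 C ⟶ 𝟭 C) {X Y : C} (i : X ≅ Y) (c : ℚ)
    (h : F.app Y = c • 𝟙 Y) : F.app X = c • 𝟙 X := by
  have h1 : F.app X ≫ i.hom = i.hom ≫ F.app Y := (F.naturality i.hom).symm
  have h2 : F.app X = i.hom ≫ F.app Y ≫ i.inv := by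
    rw [← Category.assoc, ← h1, Category.assoc, i.hom_inv_id]
    exact (Category.comp_id _).symm
  rw [h2, h]
  simp

theorem MON_frob_tensor (W : MotP.Frobenius C) {X Y : C} (c d : ℚ)
    (hX : W.F.app X = c • 𝟙 X) (hY : W.F.app Y = d • 𝟙 Y) :
    W.F.app (X ⊗ Y) = (c * d) • 𝟙 (X ⊗ Y) := by
  rw [W.F_tensor, hX, hY, MonoidalCategory.tensorHom_def]
  simp [smul_smul, mul_comm]

theorem MON_frob_T (W : MotP.Frobenius C) {X : C} (c : ℚ) (hX : W.F.app X = c • 𝟙 X) (n : ℕ) :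
    W.F.app (Mot.T X n) = (c ^ n) • 𝟙 (Mot.T X n) := by
  induction n with
  | zero =>
    show W.F.app (𝟙_ C) = _
    rw [W.F_unit, pow_zero, one_smul]
    rfl
  | succ n ih =>
    rw [pow_succ]
    exact MON_frob_tensor W _ _ ih hX

theorem MON_frob_T' (W : MotP.Frobenius C) {q : ℕ} {S : Set ℤ[X]} (D : AV W q S) (hq : 2 ≤ q) :
    W.F.app D.T' = (q : ℚ)⁻¹ • 𝟙 D.T' := by
  obtain ⟨i⟩ := D.unitT
  have hq0 : (q : ℚ) ≠ 0 := by
    have : q ≠ 0 := by omega
    exact_mod_cast this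
  have h1 : W.F.app (D.T ⊗ D.T') = (1 : ℚ) • 𝟙 (D.T ⊗ D.T') := by
    apply MON_frob_iso W.F i
    rw [W.F_unit, one_smul]
  have h2 : W.F.app (D.T ⊗ D.T') = D.T ◁ ((q : ℚ) • W.F.app D.T') := by
    rw [W.F_tensor, D.frobT, MonoidalCategory.tensorHom_def]
    simp
  have h3 : D.T ◁ ((q : ℚ) • W.F.app D.T') = D.T ◁ 𝟙 D.T' := by
    rw [← h2, h1, one_smul, whiskerLeft_id]
  have h4 := MON_faithful ((β_ D.T' D.T) ≪≫ i) _ _ h3
  rw [← h4, smul_smul, inv_mul_cancel₀ hq0]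
  exact (one_smul ℚ _).symm

theorem MON_sk_U {W : MotP.Frobenius C} {q : ℕ} {S : Set ℤ[X]} (D : AV W q S) (a b e : ℕ) :
    toSkeleton (D.U a b e) =
      toSkeleton D.T ^ a * toSkeleton D.T' ^ b * toSkeleton D.χ ^ e := by
  unfold AV.U
  rw [Skeleton.toSkeleton_tensorObj, Skeleton.toSkeleton_tensorObj, MON_sk_T, MON_sk_T, MON_sk_T]

end Frob

theorem t_MON : S_MON.{v, u} := by
  intro C _ _ _ _ _ _ _ _ W q S D hq
  have hq0 : (q : ℚ) ≠ 0 := by
    have : q ≠ 0 := by omega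
    exact_mod_cast this
  have hq1 : (1 : ℚ) < q := by
    have : 1 < q := by omega
    exact_mod_cast this
  have hT : toSkeleton D.T * toSkeleton D.T' = 1 := by
    rw [← Skeleton.toSkeleton_tensorObj, Skeleton.one_eq]
    exact toSkeleton_eq_toSkeleton_iff.mpr D.unitT
  have hχ : toSkeleton D.χ * toSkeleton D.χ = 1 := by
    rw [← Skeleton.toSkeleton_tensorObj, Skeleton.one_eq]
    exact toSkeleton_eq_toSkeleton_iff.mpr D.unitχ
  obtain ⟨t, ht⟩ : ∃ t : Skeleton C, t = toSkeleton D.T := ⟨_, rfl⟩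
  obtain ⟨t', ht'⟩ : ∃ t' : Skeleton C, t' = toSkeleton D.T' := ⟨_, rfl⟩
  obtain ⟨x, hx⟩ : ∃ x : Skeleton C, x = toSkeleton D.χ := ⟨_, rfl⟩
  have hU : ∀ a b e, toSkeleton (D.U a b e) = t ^ a * t' ^ b * x ^ e := by
    intro a b e
    rw [MON_sk_U, ht, ht', hx]
  rw [← ht, ← ht'] at hT
  rw [← hx] at hχ
  have hone : toSkeleton (𝟙_ C) = (1 : Skeleton C) := rfl
  have hbal : ∀ a k : ℕ, t ^ a * t' ^ a * x ^ (2 * k) = 1 := by
    intro a k
    rw [← mul_pow, hT, one_pow, pow_mul, pow_two, hχ, one_pow, one_mul]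
  have hmul : ∀ a b e a' b' e' : ℕ,
      Nonempty (D.U a b e ⊗ D.U a' b' e' ≅ D.U (a + a') (b + b') (e + e')) := by
    intro a b e a' b' e'
    rw [← toSkeleton_eq_toSkeleton_iff, Skeleton.toSkeleton_tensorObj, hU, hU, hU]
    rw [pow_add, pow_add, pow_add]
    exact by ac_rfl
  refine ⟨?_, hmul, ?_, ?_, ?_, ?_, ?_⟩
  · intro a b e
    have hFT := MON_frob_T W _ D.frobT a
    have hFT' := MON_frob_T W _ (MON_frob_T' W D hq) b
    have hFχ' : W.F.app D.χ = (-1 : ℚ) • 𝟙 D.χ := by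
      rw [D.frobχ, neg_smul, one_smul]
    have hFχ := MON_frob_T W _ hFχ' e
    refine ⟨(q : ℚ) ^ a * ((q : ℚ)⁻¹) ^ b * (-1) ^ e,
      MON_frob_tensor W _ _ (MON_frob_tensor W _ _ hFT hFT') hFχ, ⟨2 * (a : ℤ) - 2 * b, ?_⟩, ?_⟩
    · rw [zpow_sub₀ hq0, mul_pow, mul_pow, ← pow_mul (-1 : ℚ), mul_comm e 2, pow_mul]
      rw [mul_comm (2 : ℤ) a, mul_comm (2 : ℤ) b, zpow_mul, zpow_mul, inv_pow, inv_pow]
      simp
      rfl
    · intro hc
      have habs : (q : ℚ) ^ a = (q : ℚ) ^ b := by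
        have h1 := congrArg (fun y : ℚ => |y|) hc
        simp only [abs_mul, abs_pow, abs_neg, abs_one, one_pow, mul_one, abs_inv] at h1
        rw [abs_of_pos (by linarith : (0 : ℚ) < q), inv_pow] at h1
        have h2 : (q : ℚ) ^ b ≠ 0 := pow_ne_zero _ hq0
        field_simp at h1
        exact h1
      have hab : a = b := pow_right_injective₀ (by linarith) (ne_of_gt hq1) habs
      subst hab
      have he : ((-1 : ℚ)) ^ e = 1 := by
        rw [inv_pow, mul_inv_cancel₀ (pow_ne_zero _ hq0), one_mul] at hc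
        exact hc
      have hev : Even e := by
        rcases Nat.even_or_odd e with h | h
        · exact h
        · rw [h.neg_one_pow] at he
          norm_num at he
      obtain ⟨k, hk⟩ := hev
      rw [← toSkeleton_eq_toSkeleton_iff, hU, hone, hk, ← two_mul]
      exact hbal a k
  · intro a b e
    have h1 : ∀ a b : ℕ, Nonempty (D.U a b e ⊗ D.U b a e ≅ 𝟙_ C) := by
      intro a b
      rw [← toSkeleton_eq_toSkeleton_iff, Skeleton.toSkeleton_tensorObj, hU, hU, hone]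
      have h2 := hbal (a + b) e
      rw [← h2, pow_add, pow_add, two_mul, pow_add]
      exact by ac_rfl
    obtain ⟨i⟩ := h1 a b
    obtain ⟨j⟩ := h1 b a
    exact MON_dual i j
  · rw [← toSkeleton_eq_toSkeleton_iff, hU, ht]
    simp
  · rw [← toSkeleton_eq_toSkeleton_iff, hU, ht']
    simp
  · rw [← toSkeleton_eq_toSkeleton_iff, hU, hx]
    simp
  · rw [← toSkeleton_eq_toSkeleton_iff, hU, hone]
    simp

end

end Pool.Agent.TJ2
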