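import Pool.Agent.TJ2.Stmts3

/-!
# Theorem J, module MOV (helper83): moving a factor of a tensor word to the front
-/

open CategoryTheory MonoidalCategory BraidedCategory Limits Polynomial

universe v u

namespace Pool.Agent.TJ2

noncomputable section

/-- exchange of the first two factors -/
private def MOV_ex {C : Type u} [Category.{v} C] [MonoidalCategory C] [SymmetricCategory C]
    (A B Z : C) : A ⊗ (B ⊗ Z) ≅ B ⊗ (A ⊗ Z) :=
  (α_ A B Z).symm ≪≫ whiskerRightIso (β_ A B) Z ≪≫ α_ B A Z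

private lemma MOV_ex_nat {C : Type u} [Category.{v} C] [MonoidalCategory C] [SymmetricCategory C]
    (A B Z : C) (f : B ⟶ B) :
    A ◁ (f ▷ Z) ≫ (MOV_ex A B Z).hom = (MOV_ex A B Z).hom ≫ f ▷ (A ⊗ Z) := by
  have h : (MOV_ex A B Z).hom = (α_ A B Z).inv ≫ (β_ A B).hom ▷ Z ≫ (α_ B A Z).hom := rfl
  rw [h, ← Category.assoc (A ◁ f ▷ Z), associator_inv_naturality_middle, Category.assoc,
    Category.assoc, Category.assoc, ← associator_naturality_left,
    ← Category.assoc ((A ◁ f) ▷ Z), ← comp_whiskerRight, braiding_naturality_right,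
    comp_whiskerRight, Category.assoc]

theorem t_MOV : S_MOV.{v, u} := by
  intro C _ _ _ F M U l
  induction l with
  | nil => intro i hi; exact absurd hi (Nat.not_lt_zero i)
  | cons h l ih =>
    intro i hi
    cases i with
    | zero =>
      refine ⟨Iso.refl _, ?_⟩
      rw [Iso.refl_hom]
      erw [Category.comp_id, Category.id_comp]
      rfl
    | succ i =>
      have hil : i < l.length := Nat.lt_of_succ_lt_succ hi
      obtain ⟨π, hπ⟩ := ih i hil
      refine ⟨whiskerLeftIso (M h) π ≪≫ MOV_ex _ _ _, ?_⟩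
      have h1 := MOV_ex_nat (M h) (M l[i]) (Zo M U (l.eraseIdx i)) (F.app (M l[i]))
      have h2 : M h ◁ opZ F M U l i ≫ M h ◁ π.hom =
          M h ◁ π.hom ≫ M h ◁ (F.app (M l[i]) ▷ Zo M U (l.eraseIdx i)) := by
        rw [← MonoidalCategory.whiskerLeft_comp, hπ, MonoidalCategory.whiskerLeft_comp]
      show M h ◁ opZ F M U l i ≫ (M h ◁ π.hom ≫ (MOV_ex (M h) (M l[i])
          (Zo M U (l.eraseIdx i))).hom) = (M h ◁ π.hom ≫ (MOV_ex (M h) (M l[i])
          (Zo M U (l.eraseIdx i))).hom) ≫ F.app (M l[i]) ▷ (M h ⊗ Zo M U (l.eraseIdx i))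
      rw [← Category.assoc, h2, Category.assoc, h1, Category.assoc]

end

end Pool.Agent.TJ2
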