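import Pool.Agent.TJ2.Stmts2

/-!
# Theorem J: basic facts on the set `Om q h`
-/

open Polynomial IntermediateField

namespace Pool.Agent.TJ2

noncomputable section

/-- the quadratic polynomial whose roots are the `a` with `a + q / a = b` -/
private def OMB_P (q : ℕ) (b : Qb) : Qb[X] := X ^ 2 - C b * X + C (q : Qb)

private theorem OMB_P_monic (q : ℕ) (b : Qb) : (OMB_P q b).Monic := by
  unfold OMB_P
  monicity!

private theorem OMB_P_deg (q : ℕ) (b : Qb) : (OMB_P q b).natDegree = 2 := by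
  unfold OMB_P
  compute_degree!

private theorem OMB_P_eval (q : ℕ) (b x : Qb) :
    (OMB_P q b).eval x = x ^ 2 - b * x + q := by
  simp [OMB_P]

private theorem OMB_mem (q : ℕ) (hq : 1 ≤ q) (b x : Qb) :
    x ∈ (OMB_P q b).roots ↔ x ≠ 0 ∧ x + (q : Qb) / x = b := by
  have hq0 : (q : Qb) ≠ 0 := by
    have : q ≠ 0 := by omega
    exact_mod_cast this
  rw [mem_roots (OMB_P_monic q b).ne_zero, IsRoot.def, OMB_P_eval]
  constructor
  · intro h
    have hx : x ≠ 0 := by
      rintro rfl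
      apply hq0
      simpa using h
    refine ⟨hx, ?_⟩
    field_simp
    linear_combination h
  · rintro ⟨hx, h⟩
    rw [← h]
    field_simp
    ring

private theorem OMB_exists (q : ℕ) (hq : 1 ≤ q) (b : Qb) :
    ∃ a : Qb, a ≠ 0 ∧ a + (q : Qb) / a = b := by
  obtain ⟨a, ha⟩ := IsAlgClosed.exists_root (OMB_P q b) (by
    rw [degree_eq_natDegree (OMB_P_monic q b).ne_zero, OMB_P_deg]
    norm_num)
  exact ⟨a, (OMB_mem q hq b a).1 ((mem_roots (OMB_P_monic q b).ne_zero).2 ha)⟩

private theorem OMB_int (q : ℕ) (a : Qb) (ha : a ≠ 0) (hb : IsIntegral ℤ (a + (q : Qb) / a)) :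
    IsIntegral ℤ a := by
  have h1 : IsIntegral (integralClosure ℤ Qb) a := by
    let b : integralClosure ℤ Qb := ⟨a + (q : Qb) / a, hb⟩
    refine ⟨X ^ 2 - C b * X + C (q : integralClosure ℤ Qb), ?_, ?_⟩
    · monicity!
    · have h2 : (algebraMap (integralClosure ℤ Qb) Qb) b = a + (q : Qb) / a := rfl
      simp only [eval₂_add, eval₂_sub, eval₂_pow, eval₂_X, eval₂_mul, eval₂_C, h2, map_natCast,
        eval₂_natCast]
      field_simp
      ring
  exact isIntegral_trans a h1

/-- basic facts on `Om q h` -/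
theorem t_OMB : S_OMB := by
  classical
  intro g q h hq hm hg
  have hq0 : (q : Qb) ≠ 0 := by
    have : q ≠ 0 := by omega
    exact_mod_cast this
  have h0 : h ≠ 0 := hm.ne_zero
  have hmap : h.map (algebraMap ℤ Qb) ≠ 0 := (hm.map _).ne_zero
  have hR : ∀ b : Qb, b ∈ (h.aroots Qb).toFinset ↔ aeval b h = 0 := by
    intro b
    rw [Multiset.mem_toFinset, mem_aroots']
    exact ⟨fun x => x.2, fun x => ⟨hmap, x⟩⟩
  have hdeg : Multiset.card (h.aroots Qb) = g := by
    have h1 : (h.map (algebraMap ℤ Qb)).Splits := IsAlgClosed.splits _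
    have h2 := h1.natDegree_eq_card_roots
    rw [hm.natDegree_map, hg] at h2
    exact h2.symm
  have hRt : Rt h = ((h.aroots Qb).toFinset : Set Qb) := by
    ext b
    rw [Finset.mem_coe, hR]
    rfl
  have hOm : Om q h =
      (((h.aroots Qb).toFinset.biUnion (fun b => (OMB_P q b).roots.toFinset) : Finset Qb) :
        Set Qb) := by
    ext a
    simp only [Finset.mem_coe, Finset.mem_biUnion]
    constructor
    · rintro ⟨ha, ha'⟩
      exact ⟨a + (q : Qb) / a, (hR _).2 ha', Multiset.mem_toFinset.2 ((OMB_mem q hq _ a).2 ⟨ha, rfl⟩)⟩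
    · rintro ⟨b, hb, ha⟩
      obtain ⟨h1, h2⟩ := (OMB_mem q hq b a).1 (Multiset.mem_toFinset.1 ha)
      refine ⟨h1, ?_⟩
      rw [h2]
      exact (hR b).1 hb
  have hinv : ∀ a : Qb, a ≠ 0 → (q : Qb) / a + (q : Qb) / ((q : Qb) / a) = a + (q : Qb) / a := by
    intro a ha
    field_simp
    ring
  have hcardF : ∀ b : Qb, (OMB_P q b).roots.toFinset.card ≤ 2 := by
    intro b
    refine (Multiset.toFinset_card_le _).trans ((card_roots' _).trans ?_)
    rw [OMB_P_deg]
  refine ⟨?_, ?_, ?_, ?_, ?_⟩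
  · rw [hOm]
    exact Finset.finite_toSet _
  · rintro a ⟨ha, ha'⟩
    refine ⟨⟨div_ne_zero hq0 ha, ?_⟩, OMB_int q a ha ⟨h, hm, ?_⟩, ha'⟩
    · rw [hinv a ha]
      exact ha'
    · rw [← aeval_def]
      exact ha'
  · rintro a ⟨ha, ha'⟩ σ
    refine ⟨(map_ne_zero σ).2 ha, ?_⟩
    have h1 : σ a + (q : Qb) / σ a = σ (a + (q : Qb) / a) := by
      rw [map_add, map_div₀, map_natCast]
    have h2 : aeval (σ (a + (q : Qb) / a)) h = σ (aeval (a + (q : Qb) / a) h) := by
      have := aeval_algHom_apply ((σ : Qb →ₐ[ℚ] Qb).restrictScalars ℤ) (a + (q : Qb) / a) h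
      exact this
    rw [h1, h2, ha', map_zero]
  · intro b hb
    obtain ⟨a, ha, hab⟩ := OMB_exists q hq b
    refine ⟨a, ⟨ha, ?_⟩, hab⟩
    rw [hab]
    exact hb
  · intro hc
    rw [hOm, Set.ncard_coe_finset] at hc
    have h1 : (h.aroots Qb).toFinset.card ≤ g := by
      rw [← hdeg]
      exact Multiset.toFinset_card_le _
    have h2 : 2 * g ≤ ∑ b ∈ (h.aroots Qb).toFinset, (OMB_P q b).roots.toFinset.card := by
      rw [← hc]
      exact Finset.card_biUnion_le
    have h3 : ∑ b ∈ (h.aroots Qb).toFinset, (OMB_P q b).roots.toFinset.card ≤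
        ∑ b ∈ (h.aroots Qb).toFinset, 2 := Finset.sum_le_sum fun b _ => hcardF b
    have h4 : ∑ b ∈ (h.aroots Qb).toFinset, 2 = 2 * (h.aroots Qb).toFinset.card := by
      rw [Finset.sum_const, smul_eq_mul, mul_comm]
    have h5 : (h.aroots Qb).toFinset.card = g := by omega
    have h6 : ∑ b ∈ (h.aroots Qb).toFinset, (OMB_P q b).roots.toFinset.card =
        ∑ b ∈ (h.aroots Qb).toFinset, 2 := by omega
    have h7 := (Finset.sum_eq_sum_iff_of_le (fun b _ => hcardF b)).1 h6
    refine ⟨?_, ?_, ?_⟩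
    · rintro a ⟨ha, ha'⟩ haa
      have h8 := h7 (a + (q : Qb) / a) ((hR _).2 ha')
      have h9 : (OMB_P q (a + (q : Qb) / a)).roots.toFinset ⊆ {a} := by
        intro x hx
        have hx' := (mem_roots (OMB_P_monic q _).ne_zero).1 (Multiset.mem_toFinset.1 hx)
        rw [IsRoot.def, OMB_P_eval, ← haa] at hx'
        have hqa : (q : Qb) = a ^ 2 := by
          rw [eq_div_iff ha] at haa
          rw [← haa]
          ring
        rw [hqa] at hx'
        have h10 : (x - a) ^ 2 = 0 := by linear_combination hx'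
        rw [Finset.mem_singleton]
        exact sub_eq_zero.1 (pow_eq_zero_iff (two_ne_zero)|>.1 h10)
      have h11 := Finset.card_le_card h9
      rw [h8, Finset.card_singleton] at h11
      omega
    · rw [hRt, Set.ncard_coe_finset, h5]
    · rw [← Multiset.toFinset_card_eq_card_iff_nodup, h5, hdeg]

end

end Pool.Agent.TJ2
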