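import Pool.Agent.TJ2.Stmts2

/-!
# Theorem J: orbit sizes of odd functions
-/

namespace Pool.Agent.TJ2

section ORB

variable {Ω : Type} [DecidableEq Ω] {bar : Ω → Ω}

/-- exchange of two pairs -/
def ORB_swap (bar : Ω → Ω) (a b : Ω) : Equiv.Perm Ω :=
  Equiv.swap a b * Equiv.swap (bar a) (bar b)

theorem ORB_inj (hbb : ∀ x, bar (bar x) = x) {x y : Ω} (h : bar x = bar y) : x = y := by
  rw [← hbb x, h, hbb]

theorem ORB_swap_left (hbb : ∀ x, bar (bar x) = x) (hne : ∀ x, bar x ≠ x) {a b : Ω}
    (h2 : a ≠ bar b) : ORB_swap bar a b a = b := by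
  unfold ORB_swap
  rw [Equiv.Perm.mul_apply, Equiv.swap_apply_of_ne_of_ne (hne a).symm h2, Equiv.swap_apply_left]

theorem ORB_swap_right (hbb : ∀ x, bar (bar x) = x) (hne : ∀ x, bar x ≠ x) {a b : Ω}
    (h2 : a ≠ bar b) : ORB_swap bar a b b = a := by
  unfold ORB_swap
  have h3 : b ≠ bar a := fun h => h2 (by rw [h, hbb])
  rw [Equiv.Perm.mul_apply, Equiv.swap_apply_of_ne_of_ne h3 (hne b).symm,
    Equiv.swap_apply_right]

theorem ORB_swap_bar_left (hbb : ∀ x, bar (bar x) = x) (hne : ∀ x, bar x ≠ x) {a b : Ω}
    (h2 : a ≠ bar b) : ORB_swap bar a b (bar a) = bar b := by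
  unfold ORB_swap
  rw [Equiv.Perm.mul_apply, Equiv.swap_apply_left,
    Equiv.swap_apply_of_ne_of_ne h2.symm (hne b)]

theorem ORB_swap_bar_right (hbb : ∀ x, bar (bar x) = x) (hne : ∀ x, bar x ≠ x) {a b : Ω}
    (h2 : a ≠ bar b) : ORB_swap bar a b (bar b) = bar a := by
  unfold ORB_swap
  have h3 : b ≠ bar a := fun h => h2 (by rw [h, hbb])
  rw [Equiv.Perm.mul_apply, Equiv.swap_apply_right,
    Equiv.swap_apply_of_ne_of_ne (hne a) h3.symm]

theorem ORB_swap_other {a b x : Ω} (h1 : x ≠ a) (h2 : x ≠ b) (h3 : x ≠ bar a) (h4 : x ≠ bar b) :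
    ORB_swap bar a b x = x := by
  unfold ORB_swap
  rw [Equiv.Perm.mul_apply, Equiv.swap_apply_of_ne_of_ne h3 h4,
    Equiv.swap_apply_of_ne_of_ne h1 h2]

theorem ORB_swap_comm (hbb : ∀ x, bar (bar x) = x) (hne : ∀ x, bar x ≠ x) {a b : Ω}
    (h2 : a ≠ bar b) (x : Ω) : ORB_swap bar a b (bar x) = bar (ORB_swap bar a b x) := by
  by_cases ha : x = a
  · subst ha
    rw [ORB_swap_bar_left hbb hne h2, ORB_swap_left hbb hne h2]
  by_cases hb : x = b
  · subst hb
    rw [ORB_swap_bar_right hbb hne h2, ORB_swap_right hbb hne h2]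
  by_cases hca : x = bar a
  · subst hca
    rw [hbb, ORB_swap_left hbb hne h2, ORB_swap_bar_left hbb hne h2, hbb]
  by_cases hcb : x = bar b
  · subst hcb
    rw [hbb, ORB_swap_right hbb hne h2, ORB_swap_bar_right hbb hne h2, hbb]
  rw [ORB_swap_other ha hb hca hcb]
  apply ORB_swap_other
  · intro h
    apply hca
    rw [← h, hbb]
  · intro h
    apply hcb
    rw [← h, hbb]
  · intro h
    exact ha (ORB_inj hbb h)
  · intro h
    exact hb (ORB_inj hbb h)

/-- sign changes -/
def ORB_flip (bar : Ω → Ω) (A : Finset Ω) (x : Ω) : Ω :=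
  if x ∈ A ∨ bar x ∈ A then bar x else x

theorem ORB_flip_flip (hbb : ∀ x, bar (bar x) = x) (A : Finset Ω) :
    Function.Involutive (ORB_flip bar A) := by
  intro x
  unfold ORB_flip
  by_cases h : x ∈ A ∨ bar x ∈ A
  · rw [if_pos h]
    rw [if_pos (by rw [hbb]; exact h.symm), hbb]
  · rw [if_neg h, if_neg h]

theorem ORB_flip_comm (hbb : ∀ x, bar (bar x) = x) (A : Finset Ω) (x : Ω) :
    ORB_flip bar A (bar x) = bar (ORB_flip bar A x) := by
  unfold ORB_flip
  by_cases h : x ∈ A ∨ bar x ∈ A
  · rw [if_pos h, if_pos (by rw [hbb]; exact h.symm)]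
  · rw [if_neg h, if_neg (by rw [hbb]; exact fun h' => h h'.symm)]

end ORB

theorem ORB_arith1 {k z : ℕ} (hk : 2 ≤ k) (hz : 2 ≤ z) : 2 * k + z < 2 * (k * z) := by
  obtain ⟨a, rfl⟩ := Nat.exists_eq_add_of_le hk
  obtain ⟨b, rfl⟩ := Nat.exists_eq_add_of_le hz
  nlinarith [Nat.zero_le (a * b)]

theorem ORB_arith2 {k : ℕ} (h : 2 ^ k ≤ 2 * k) : k ≤ 2 := by
  by_contra hk
  push Not at hk
  obtain ⟨a, rfl⟩ := Nat.exists_eq_add_of_le hk
  have h1 : a < 2 ^ a := Nat.lt_two_pow_self
  have h2 : 2 ^ (Nat.succ 2 + a) = 8 * 2 ^ a := by rw [pow_add]; norm_num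
  rw [h2] at h
  omega

theorem t_ORB : S_ORB := by
  classical
  intro Γ Ω _ _ _ _ bar w hbb hbne hbs hfull hodd hw hcard
  by_cases halt : ∃ y, w y ≠ 0 ∧ ∀ x, x ≠ y → x ≠ bar y → w x = 0
  · exact Or.inl halt
  right
  push Not at halt
  set O : Set (Ω → ℤ) := Set.range (fun s : Γ => fun x => w (s⁻¹ • x)) with hO
  have hfin : O.Finite := by
    refine (Set.finite_range (fun τ : Equiv.Perm Ω => fun x => w (τ x))).subset ?_
    rintro _ ⟨s, rfl⟩
    exact ⟨MulAction.toPerm s⁻¹, rfl⟩
  have hmem : ∀ τ : Equiv.Perm Ω, (∀ x, τ (bar x) = bar (τ x)) → (fun x => w (τ x)) ∈ O := by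
    intro τ hτ
    obtain ⟨s, hs⟩ := hfull τ hτ
    exact ⟨s⁻¹, by funext x; simp [hs]⟩
  have hcount : ∀ {ι : Type} (T : Finset ι) (f : ι → Ω → ℤ), (∀ i ∈ T, f i ∈ O) →
      Set.InjOn f T → T.card ≤ O.ncard := by
    intro ι T f h1 h2
    rw [Set.ncard_eq_toFinset_card O hfin]
    exact Finset.card_le_card_of_injOn f (fun i hi => by
      have := h1 i hi
      simpa using this) h2
  -- the positive, negative and zero parts
  set S : Finset Ω := Finset.univ.filter (fun x => 0 < w x) with hS
  set Z : Finset Ω := Finset.univ.filter (fun x => w x = 0) with hZ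
  set M : Finset Ω := Finset.univ.filter (fun x => w x < 0) with hM
  have memS : ∀ x, x ∈ S ↔ 0 < w x := fun x => by simp [hS]
  have memZ : ∀ x, x ∈ Z ↔ w x = 0 := fun x => by simp [hZ]
  have memM : ∀ x, x ∈ M ↔ w x < 0 := fun x => by simp [hM]
  have hMS : M.card = S.card := by
    refine Finset.card_nbij' bar bar ?_ ?_ ?_ ?_
    · intro x hx
      have hx' := (memM x).mp hx
      refine Finset.mem_coe.mpr ((memS _).mpr ?_)
      rw [hodd]; omega
    · intro x hx
      have hx' := (memS x).mp hx
      refine Finset.mem_coe.mpr ((memM _).mpr ?_)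
      rw [hodd]; omega
    · intro x _; exact hbb x
    · intro x _; exact hbb x
  have htot : Fintype.card Ω = S.card + Z.card + M.card := by
    have h1 : (Finset.univ : Finset Ω) = (S ∪ Z) ∪ M := by
      ext x
      simp only [Finset.mem_univ, Finset.mem_union, memS, memZ, memM, true_iff]
      omega
    rw [← Finset.card_univ, h1, Finset.card_union_of_disjoint, Finset.card_union_of_disjoint]
    · rw [Finset.disjoint_left]
      intro x hx hx'
      rw [memS] at hx
      rw [memZ] at hx'
      omega
    · rw [Finset.disjoint_left]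
      intro x hx hx'
      rw [Finset.mem_union, memS, memZ] at hx
      rw [memM] at hx'
      omega
  -- two elements in the positive part
  have hk : 2 ≤ S.card := by
    obtain ⟨y0, hy0⟩ : ∃ y, w y ≠ 0 := by
      by_contra h
      push Not at h
      exact hw (funext h)
    obtain ⟨y, hy⟩ : ∃ y, 0 < w y := by
      rcases lt_or_gt_of_ne hy0 with h | h
      · exact ⟨bar y0, by rw [hodd]; omega⟩
      · exact ⟨y0, h⟩
    obtain ⟨x, hx1, hx2, hx3⟩ := halt y hy.ne'
    obtain ⟨x', hx'1, hx'2⟩ : ∃ x', x' ≠ y ∧ 0 < w x' := by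
      rcases lt_or_gt_of_ne hx3 with h | h
      · refine ⟨bar x, ?_, by rw [hodd]; omega⟩
        intro h'
        apply hx2
        rw [← h', hbb]
      · exact ⟨x, hx1, h⟩
    exact Finset.one_lt_card.mpr ⟨x', (memS _).mpr hx'2, y, (memS _).mpr hy, hx'1⟩
  by_cases hz : ∃ z, w z = 0
  · exfalso
    obtain ⟨z, hz⟩ := hz
    have hZ2 : 2 ≤ Z.card := by
      refine Finset.one_lt_card.mpr ⟨bar z, (memZ _).mpr (by rw [hodd, hz, neg_zero]), z,
        (memZ _).mpr hz, hbne z⟩
    -- the functions
    have hab : ∀ a ∈ S, ∀ b ∈ Z, a ≠ bar b := by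
      intro a ha b hb h
      rw [memS] at ha
      rw [memZ] at hb
      rw [h, hodd, hb] at ha
      omega
    let F : (Ω × Ω) × Bool → Ω → ℤ := fun p x =>
      (if p.2 then 1 else -1) * w (ORB_swap bar p.1.1 p.1.2 x)
    have h1 : ∀ p ∈ (S ×ˢ Z) ×ˢ (Finset.univ : Finset Bool), F p ∈ O := by
      rintro ⟨⟨a, b⟩, c⟩ hp
      simp only [Finset.mem_product, Finset.mem_univ, and_true] at hp
      have hne := hab a hp.1 b hp.2
      cases c with
      | true =>
        have := hmem (ORB_swap bar a b) (ORB_swap_comm hbb hbne hne)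
        convert this using 1
        funext x
        simp [F]
      | false =>
        let ρ : Equiv.Perm Ω := Function.Involutive.toPerm bar hbb
        have hρ : ∀ x, ρ x = bar x := fun x => rfl
        have := hmem (ρ * ORB_swap bar a b) (fun x => by
          rw [Equiv.Perm.mul_apply, Equiv.Perm.mul_apply, hρ, hρ,
            ORB_swap_comm hbb hbne hne])
        convert this using 1
        funext x
        rw [Equiv.Perm.mul_apply, hρ, hodd]
        simp [F]
    -- the values
    have vb : ∀ a ∈ S, ∀ b ∈ Z, w (ORB_swap bar a b b) = w a := fun a ha b hb => by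
      rw [ORB_swap_right hbb hbne (hab a ha b hb)]
    have va : ∀ a ∈ S, ∀ b ∈ Z, w (ORB_swap bar a b a) = 0 := fun a ha b hb => by
      rw [ORB_swap_left hbb hbne (hab a ha b hb)]
      exact (memZ b).mp hb
    have vS : ∀ a ∈ S, ∀ b ∈ Z, ∀ c ∈ S, c ≠ a → w (ORB_swap bar a b c) = w c := by
      intro a ha b hb c hc hca
      have ha' := (memS a).mp ha
      have hb' := (memZ b).mp hb
      have hc' := (memS c).mp hc
      rw [ORB_swap_other hca]
      · rintro rfl; omega
      · rintro rfl; rw [hodd] at hc'; omega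
      · rintro rfl; rw [hodd] at hc'; omega
    have vZ : ∀ a ∈ S, ∀ b ∈ Z, ∀ c ∈ Z, c ≠ b → w (ORB_swap bar a b c) ≤ 0 := by
      intro a ha b hb c hc hcb
      have ha' := (memS a).mp ha
      have hb' := (memZ b).mp hb
      have hc' := (memZ c).mp hc
      by_cases h : c = bar b
      · rw [h, ORB_swap_bar_right hbb hbne (hab a ha b hb), hodd]
        omega
      · rw [ORB_swap_other _ hcb _ h]
        · exact hc'.le
        · rintro rfl; omega
        · rintro rfl; rw [hodd] at hc'; omega
    have vSn : ∀ a ∈ S, ∀ b ∈ Z, ∀ c ∈ S, 0 ≤ w (ORB_swap bar a b c) := by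
      intro a ha b hb c hc
      by_cases h : c = a
      · rw [h, va a ha b hb]
      · rw [vS a ha b hb c hc h]
        exact ((memS c).mp hc).le
    have hsep : ∀ a ∈ S, ∀ b ∈ Z, ∀ a' ∈ S, ∀ b' ∈ Z,
        (∀ x, w (ORB_swap bar a b x) = w (ORB_swap bar a' b' x)) → a = a' ∧ b = b' := by
      intro a ha b hb a' ha' b' hb' h
      constructor
      · by_contra hne
        have h3 := h a
        rw [va a ha b hb, vS a' ha' b' hb' a ha hne] at h3
        have := (memS a).mp ha
        omega
      · by_contra hne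
        have h3 := h b
        rw [vb a ha b hb] at h3
        have h4 := vZ a' ha' b' hb' b hb hne
        have := (memS a).mp ha
        omega
    have hsgn : ∀ a ∈ S, ∀ b ∈ Z, ∀ a' ∈ S, ∀ b' ∈ Z,
        ¬ (∀ x, w (ORB_swap bar a b x) = - w (ORB_swap bar a' b' x)) := by
      intro a ha b hb a' ha' b' hb' h
      obtain ⟨c, hc, hca⟩ : ∃ c ∈ S, c ≠ a := by
        by_contra hcon
        push Not at hcon
        have : S ⊆ {a} := fun c hc => Finset.mem_singleton.mpr (hcon c hc)
        have := Finset.card_le_card this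
        rw [Finset.card_singleton] at this
        omega
      have h3 := h c
      rw [vS a ha b hb c hc hca] at h3
      have h4 := vSn a' ha' b' hb' c hc
      have := (memS c).mp hc
      omega
    have h2 : Set.InjOn F ((S ×ˢ Z) ×ˢ (Finset.univ : Finset Bool) : Finset _) := by
      rintro ⟨⟨a, b⟩, c⟩ hp ⟨⟨a', b'⟩, c'⟩ hp' hF
      simp only [Finset.coe_product, Set.mem_prod, Finset.mem_coe, Finset.mem_univ, and_true]
        at hp hp'
      have hx : ∀ x, F ((a, b), c) x = F ((a', b'), c') x := fun x => congrFun hF x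
      cases c <;> cases c'
      · obtain ⟨e1, e2⟩ := hsep a hp.1 b hp.2 a' hp'.1 b' hp'.2 (fun x => by
          have := hx x
          simpa [F] using this)
        rw [e1, e2]
      · exact absurd (fun x => by
          have := hx x
          simp [F] at this
          omega) (hsgn a hp.1 b hp.2 a' hp'.1 b' hp'.2)
      · exact absurd (fun x => by
          have := hx x
          simp [F] at this
          omega) (hsgn a hp.1 b hp.2 a' hp'.1 b' hp'.2)
      · obtain ⟨e1, e2⟩ := hsep a hp.1 b hp.2 a' hp'.1 b' hp'.2 (fun x => by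
          have := hx x
          simpa [F] using this)
        rw [e1, e2]
    have h3 := hcount _ F h1 h2
    rw [Finset.card_product, Finset.card_product, Finset.card_univ, Fintype.card_bool] at h3
    have h4 := ORB_arith1 hk hZ2
    omega
  · push Not at hz
    have hZ0 : Z.card = 0 := by
      rw [Finset.card_eq_zero, Finset.eq_empty_iff_forall_notMem]
      intro x hx
      exact hz x ((memZ x).mp hx)
    -- sign changes
    let F : Finset Ω → Ω → ℤ := fun A x => w (ORB_flip bar A x)
    have h1 : ∀ A ∈ S.powerset, F A ∈ O := by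
      intro A _
      exact hmem (Function.Involutive.toPerm _ (ORB_flip_flip hbb A)) (ORB_flip_comm hbb A)
    have hval : ∀ A ∈ S.powerset, ∀ x ∈ S, (x ∈ A ↔ F A x < 0) := by
      intro A hA x hx
      have hA' := Finset.mem_powerset.mp hA
      have hx' := (memS x).mp hx
      have hbx : bar x ∉ A := by
        intro h
        have := (memS _).mp (hA' h)
        rw [hodd] at this
        omega
      show x ∈ A ↔ w (ORB_flip bar A x) < 0
      unfold ORB_flip
      by_cases h : x ∈ A
      · rw [if_pos (Or.inl h), hodd]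
        exact ⟨fun _ => by omega, fun _ => h⟩
      · rw [if_neg (by tauto)]
        exact ⟨fun h' => absurd h' h, fun h' => by omega⟩
    have habs : ∀ A : Finset Ω, ∀ x, |F A x| = |w x| := by
      intro A x
      show |w (ORB_flip bar A x)| = |w x|
      unfold ORB_flip
      split_ifs
      · rw [hodd, abs_neg]
      · rfl
    have h2 : Set.InjOn F (S.powerset : Finset (Finset Ω)) := by
      intro A hA B hB hAB
      have hA' : A ∈ S.powerset := hA
      have hB' : B ∈ S.powerset := hB
      ext x
      constructor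
      · intro hx
        have hxS := Finset.mem_powerset.mp hA' hx
        rw [hval B hB' x hxS, ← hAB, ← hval A hA' x hxS]
        exact hx
      · intro hx
        have hxS := Finset.mem_powerset.mp hB' hx
        rw [hval A hA' x hxS, hAB, ← hval B hB' x hxS]
        exact hx
    have h3 := hcount _ F h1 h2
    rw [Finset.card_powerset] at h3
    have hk2 : S.card ≤ 2 := ORB_arith2 (by omega)
    have hk3 : S.card = 2 := by omega
    rw [hk3] at h3
    refine ⟨by omega, ?_, by omega⟩
    -- constancy of the absolute value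
    have hpos : ∀ x ∈ S, ∀ y ∈ S, w x = w y := by
      intro x hx y hy
      by_contra hne
      have hx' := (memS x).mp hx
      have hy' := (memS y).mp hy
      have hxy : x ≠ bar y := by
        rintro rfl
        rw [hodd] at hx'
        omega
      have hmem2 := hmem (ORB_swap bar x y) (ORB_swap_comm hbb hbne hxy)
      -- the fifth element
      let G : Option (Finset Ω) → Ω → ℤ := fun o =>
        match o with
        | none => fun z => w (ORB_swap bar x y z)
        | some A => F A
      have h5 : ∀ o ∈ Finset.insertNone S.powerset, G o ∈ O := by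
        intro o ho
        cases o with
        | none => exact hmem2
        | some A => exact h1 A (by simpa using ho)
      have hnone : ∀ A, G none ≠ G (some A) := by
        intro A h
        have h6 : w (ORB_swap bar x y x) = F A x := congrFun h x
        rw [ORB_swap_left hbb hbne hxy] at h6
        have h7 := habs A x
        rw [← h6, abs_of_pos hx', abs_of_pos hy'] at h7
        exact hne h7.symm
      have h6 : Set.InjOn G (Finset.insertNone S.powerset : Finset _) := by
        intro o ho o' ho' h
        cases o with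
        | none =>
          cases o' with
          | none => rfl
          | some B => exact absurd h (hnone B)
        | some A =>
          cases o' with
          | none => exact absurd h.symm (hnone A)
          | some B =>
            have hA : A ∈ S.powerset := by simpa using ho
            have hB : B ∈ S.powerset := by simpa using ho'
            rw [h2 (by exact hA) (by exact hB) h]
      have h7 := hcount _ G h5 h6
      rw [Finset.card_insertNone, Finset.card_powerset, hk3] at h7
      omega
    have habs2 : ∀ x, ∃ x' ∈ S, |w x| = w x' := by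
      intro x
      rcases lt_or_gt_of_ne (hz x) with h | h
      · refine ⟨bar x, (memS _).mpr (by rw [hodd]; omega), ?_⟩
        rw [hodd, abs_of_neg h]
      · exact ⟨x, (memS _).mpr h, abs_of_pos h⟩
    intro x y
    obtain ⟨x', hx', e1⟩ := habs2 x
    obtain ⟨y', hy', e2⟩ := habs2 y
    rw [e1, e2, hpos x' hx' y' hy']

end Pool.Agent.TJ2
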