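import Pool.Agent.TJ2.Stmts3

/-!
# Theorem J: the operators satisfy the polynomial of the Frobenius of the factor
-/

open CategoryTheory MonoidalCategory BraidedCategory Limits Polynomial

universe v u

namespace Pool.Agent.TJ2

noncomputable section

section PLZ

variable {C : Type u} [Category.{v} C] [Preadditive C] [Linear ℚ C]

/-- composition of sections with endomorphisms -/
def PLZ_sec (A Z : C) : End Z →ₐ[ℚ] Module.End ℚ (A ⟶ Z) where
  toFun a := Linear.rightComp ℚ A a
  map_one' := by
    ext f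
    exact Category.comp_id f
  map_mul' a b := by
    ext f
    exact (Category.assoc f b a).symm
  map_zero' := by
    ext f
    exact Limits.comp_zero
  map_add' a b := by
    ext f
    exact Preadditive.comp_add _ _ _ f a b
  commutes' r := by
    ext f
    change f ≫ (r • 𝟙 Z) = r • f
    rw [Linear.comp_smul, Category.comp_id]

variable [MonoidalCategory C] [MonoidalPreadditive C] [MonoidalLinear ℚ C]

/-- whiskering on the right -/
def PLZ_right (Y Z : C) : End Y →ₐ[ℚ] End (Y ⊗ Z) where
  toFun a := (a : Y ⟶ Y) ▷ Z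
  map_one' := MonoidalCategory.id_whiskerRight Y Z
  map_mul' a b := MonoidalCategory.comp_whiskerRight b a Z
  map_zero' := MonoidalPreadditive.zero_whiskerRight
  map_add' a b := MonoidalPreadditive.add_whiskerRight a b
  commutes' r := by
    change (r • 𝟙 Y) ▷ Z = r • 𝟙 (Y ⊗ Z)
    rw [MonoidalLinear.smul_whiskerRight, MonoidalCategory.id_whiskerRight]

/-- whiskering on the left -/
def PLZ_left (Y Z : C) : End Z →ₐ[ℚ] End (Y ⊗ Z) where
  toFun a := Y ◁ (a : Z ⟶ Z)
  map_one' := MonoidalCategory.whiskerLeft_id Y Z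
  map_mul' a b := MonoidalCategory.whiskerLeft_comp Y b a
  map_zero' := MonoidalPreadditive.whiskerLeft_zero
  map_add' a b := MonoidalPreadditive.whiskerLeft_add a b
  commutes' r := by
    change Y ◁ (r • 𝟙 Z) = r • 𝟙 (Y ⊗ Z)
    rw [MonoidalLinear.whiskerLeft_smul, MonoidalCategory.whiskerLeft_id]

theorem PLZ_aux (F : 𝟭 C ⟶ 𝟭 C) (M : ℤ[X] → C) (U : C) (P : ℚ[X]) :
    ∀ (l : List ℤ[X]) (i : ℕ) (hi : i < l.length),
      aeval (Mot.component F (M (l[i]))) P = 0 →
      aeval (show End (Zo M U l) from opZ F M U l i) P = 0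
  | [], i, hi, _ => absurd hi (Nat.not_lt_zero i)
  | h :: l, 0, _, hP => by
    have h1 := Polynomial.aeval_algHom_apply (PLZ_right (M h) (Zo M U l))
      (Mot.component F (M h)) P
    have h2 : aeval (Mot.component F (M h)) P = 0 := hP
    rw [h2, map_zero] at h1
    exact h1
  | h :: l, i + 1, hi, hP => by
    have h0 := PLZ_aux F M U P l i (Nat.lt_of_succ_lt_succ hi) hP
    have h1 := Polynomial.aeval_algHom_apply (PLZ_left (M h) (Zo M U l))
      (show End (Zo M U l) from opZ F M U l i) P
    rw [h0, map_zero] at h1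
    exact h1

end PLZ

theorem t_PLZ : S_PLZ.{v, u} := by
  intro C _ _ _ _ _ _ _ _ W M U l i hi P hP
  have h1 : aeval (Mot.component W.F (M (l[i]))) (P.map (Int.castRingHom ℚ)) = 0 := by
    rw [← hP, aeval_def, aeval_def, eval₂_map]
    congr 1
    exact RingHom.ext_int _ _
  have h2 := PLZ_aux W.F M U (P.map (Int.castRingHom ℚ)) l i hi h1
  have h3 := Polynomial.aeval_algHom_apply (PLZ_sec (𝟙_ C) (Zo M U l))
    (show End (Zo M U l) from opZ W.F M U l i) (P.map (Int.castRingHom ℚ))
  rw [h2, map_zero] at h3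
  exact h3

end

end Pool.Agent.TJ2
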