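import Pool.Agent.TJ2.Stmts3

/-!
# Theorem J: the product of the operators is the Frobenius
-/

open CategoryTheory MonoidalCategory BraidedCategory Limits Polynomial

universe w v u

namespace Pool.Agent.TJ2

noncomputable section

/-- composition on the right as a homomorphism of monoids -/
private def PRD_rc {C : Type u} [Category.{v} C] [Preadditive C] [Linear ℚ C] (X Z : C) :
    End Z →* Module.End ℚ (X ⟶ Z) where
  toFun o := Linear.rightComp ℚ X (show Z ⟶ Z from o)
  map_one' := by
    ext f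
    exact Category.comp_id f
  map_mul' a b := by
    ext f
    exact (Category.assoc f b a).symm

/-- whiskering as a homomorphism of monoids -/
private def PRD_wh {C : Type u} [Category.{v} C] [MonoidalCategory C] (Y Z : C) :
    End Z →* End (Y ⊗ Z) where
  toFun o := Y ◁ (show Z ⟶ Z from o)
  map_one' := MonoidalCategory.whiskerLeft_id Y Z
  map_mul' a b := MonoidalCategory.whiskerLeft_comp Y b a

private theorem PRD_ofFn {A B : Type*} [Monoid A] [Monoid B] (φ : A →* B) (n : ℕ) (o : Fin n → A) :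
    (List.ofFn (fun i => φ (o i))).prod = φ (List.ofFn o).prod := by
  rw [map_list_prod, List.map_ofFn]
  rfl

/-- the operators as elements of the monoid of endomorphisms -/
private def PRD_o {C : Type u} [Category.{v} C] [MonoidalCategory C] (F : 𝟭 C ⟶ 𝟭 C)
    (M : ℤ[X] → C) (U : C) (l : List ℤ[X]) (i : ℕ) : End (Zo M U l) := opZ F M U l i

/-- the product of the operators -/
private def PRD_E {C : Type u} [Category.{v} C] [MonoidalCategory C] (F : 𝟭 C ⟶ 𝟭 C)
    (M : ℤ[X] → C) (U : C) (l : List ℤ[X]) : End (Zo M U l) :=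
  (List.ofFn (fun i : Fin l.length => PRD_o F M U l (i : ℕ))).prod

private theorem PRD_cons {C : Type u} [Category.{v} C] [MonoidalCategory C] (F : 𝟭 C ⟶ 𝟭 C)
    (M : ℤ[X] → C) (U : C) (h : ℤ[X]) (l : List ℤ[X]) :
    (PRD_E F M U (h :: l) : Zo M U (h :: l) ⟶ Zo M U (h :: l)) =
      (M h ◁ (PRD_E F M U l : Zo M U l ⟶ Zo M U l)) ≫ (F.app (M h) ▷ Zo M U l) := by
  have h1 : PRD_E F M U (h :: l) = PRD_o F M U (h :: l) 0 *
      (List.ofFn (fun i : Fin l.length => PRD_o F M U (h :: l) ((i : ℕ) + 1))).prod := by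
    unfold PRD_E
    have e1 : List.ofFn (fun i : Fin (h :: l).length => PRD_o F M U (h :: l) (i : ℕ)) =
        List.ofFn (fun i : Fin (l.length + 1) => PRD_o F M U (h :: l) (i : ℕ)) := rfl
    rw [e1, List.ofFn_succ, List.prod_cons]
    rfl
  have h2 : (List.ofFn (fun i : Fin l.length => PRD_o F M U (h :: l) ((i : ℕ) + 1))).prod =
      PRD_wh (M h) (Zo M U l) (PRD_E F M U l) := by
    unfold PRD_E
    rw [← PRD_ofFn]
    rfl
  rw [h1, h2]
  rfl

/-- the product of the operators is the Frobenius -/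
theorem t_PRD : S_PRD.{v, u} := by
  intro C _ _ _ _ _ _ _ _ W M U c l f hU
  have key : ∀ l : List ℤ[X], W.F.app (Zo M U l) =
      c • (PRD_E W.F M U l : Zo M U l ⟶ Zo M U l) := by
    intro l
    induction l with
    | nil =>
      have h0 : PRD_E W.F M U [] = 𝟙 U := by
        unfold PRD_E
        rfl
      rw [h0]
      exact hU
    | cons h l ih =>
      rw [PRD_cons]
      have h1 : W.F.app (Zo M U (h :: l)) = W.F.app (M h) ⊗ₘ W.F.app (Zo M U l) :=
        W.F_tensor (M h) (Zo M U l)
      rw [h1, ih, MonoidalCategory.tensorHom_def']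
      have h2 : M h ◁ (c • (PRD_E W.F M U l : Zo M U l ⟶ Zo M U l)) =
          c • (M h ◁ (PRD_E W.F M U l : Zo M U l ⟶ Zo M U l)) :=
        MonoidalLinear.whiskerLeft_smul _ _ _
      exact (congrArg (fun t => t ≫ W.F.app (M h) ▷ Zo M U l) h2).trans (Linear.smul_comp _ _ _ _ _ _)
  have h1 : (List.ofFn (fun i : Fin l.length => phZ W.F M U l (i : ℕ))).prod =
      PRD_rc (𝟙_ C) (Zo M U l) (PRD_E W.F M U l) := by
    unfold PRD_E
    rw [← PRD_ofFn]
    rfl
  have h2 : PRD_rc (𝟙_ C) (Zo M U l) (PRD_E W.F M U l) f =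
      f ≫ (PRD_E W.F M U l : Zo M U l ⟶ Zo M U l) := rfl
  rw [h1]
  have h3 : f = f ≫ W.F.app (Zo M U l) := by
    have h4 := W.F.naturality f
    rw [W.F_unit] at h4
    exact (Category.id_comp f).symm.trans h4.symm
  rw [h2]
  conv_rhs => rw [h3, key l]
  exact (Linear.comp_smul _ _ _ _ _ _).symm

end

end Pool.Agent.TJ2
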