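import Pool.Agent.TJ2.Stmts
import Pool.Agent.TJ2.Stmts2

/-!
# Module TJ_REF: the reflex case
-/

set_option autoImplicit false

open Polynomial IntermediateField

namespace Pool.Agent.TJ2

noncomputable section

/-- An algebraic number fixed by all automorphisms is rational. -/
theorem REF_rat (hSTAB : S_STAB) (b : Qb) (hb : ∀ σ : Qb ≃ₐ[ℚ] Qb, σ b = b) :
    ∃ r : ℚ, algebraMap ℚ Qb r = b := by
  have h1 := hSTAB 0 b fun σ _ => hb σ
  rw [IntermediateField.adjoin_zero] at h1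
  exact IntermediateField.mem_bot.1 h1

theorem REF_two {q x y : Qb} (hx : x ≠ 0) (hy : y ≠ 0) (h : x + q / x = y + q / y) :
    x = y ∨ x = q / y := by
  have h1 : (x - y) * (x * y - q) = 0 := by
    field_simp at h
    linear_combination h
  rcases mul_eq_zero.1 h1 with h2 | h2
  · left
    exact sub_eq_zero.1 h2
  · right
    rw [eq_div_iff hy]
    exact sub_eq_zero.1 h2

theorem t_REF (hSTAB : S_STAB) (hOMB : S_OMB) (hFULC : S_FULC) (hDEL : S_DEL) : S_REF := by
  intro q h h' a w hq hh hh' hd hd' ha hodd hw0 hwc hst hfl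
  obtain ⟨_, ho, hf⟩ := hh
  obtain ⟨_, ho', hf'⟩ := hh'
  have hm : h.Monic := ho.1.1
  have hm' : h'.Monic := ho'.1.1
  have hq0 : ((q : ℕ) : Qb) ≠ 0 := by
    have : q ≠ 0 := by omega
    exact_mod_cast this
  have σq : ∀ σ : Qb ≃ₐ[ℚ] Qb, σ ((q : ℕ) : Qb) = (q : Qb) := fun σ => map_natCast σ q
  obtain ⟨_, o2, o3, _, _⟩ := hOMB 2 q h hq hm hd
  obtain ⟨_, p2, p3, p4, p5⟩ := hOMB 2 q h' hq hm' hd'
  obtain ⟨p6, p7, p8⟩ := p5 (by rw [hf'.1, hd'])
  -- the root of `h`
  obtain ⟨b, hb⟩ : ∃ b, b = a + (q : Qb) / a := ⟨_, rfl⟩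
  have hbr : aeval b h = 0 := by
    rw [hb]
    exact (o2 a ha).2.2
  have hh2 : h = X ^ 2 + C (h.coeff 1) * X + C (h.coeff 0) := by
    have h1 : h.degree ≤ 2 := by
      have h3 := Polynomial.degree_le_natDegree (p := h)
      rwa [hd] at h3
    have h2 : h.coeff 2 = 1 := by
      have := hm.coeff_natDegree
      rwa [hd] at this
    have h4 := Polynomial.eq_quadratic_of_degree_le_two h1
    rwa [h2, C_1, one_mul] at h4
  have hev : ∀ x : Qb, aeval x h = x ^ 2 + ((h.coeff 1 : ℤ) : Qb) * x + ((h.coeff 0 : ℤ) : Qb) := by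
    intro x
    conv_lhs => rw [hh2]
    simp
  have hb2 : b ^ 2 + ((h.coeff 1 : ℤ) : Qb) * b + ((h.coeff 0 : ℤ) : Qb) = 0 := by
    rw [← hev]
    exact hbr
  obtain ⟨s, hs⟩ : ∃ s : Qb, s = 2 * b + ((h.coeff 1 : ℤ) : Qb) := ⟨_, rfl⟩
  have hs2 : s ^ 2 = (((h.coeff 1) ^ 2 - 4 * h.coeff 0 : ℤ) : Qb) := by
    rw [hs]
    push_cast
    linear_combination 4 * hb2
  have σb : ∀ σ : Qb ≃ₐ[ℚ] Qb, σ b = b ∨ σ s = - s := by
    intro σ
    have h1 := congrArg σ hb2
    simp only [map_add, map_mul, map_pow, map_intCast, map_zero] at h1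
    have h2 : (σ b - b) * (σ b + b + ((h.coeff 1 : ℤ) : Qb)) = 0 := by
      linear_combination h1 - hb2
    rcases mul_eq_zero.1 h2 with h3 | h3
    · left
      exact sub_eq_zero.1 h3
    · right
      rw [hs]
      simp only [map_add, map_mul, map_intCast, map_ofNat]
      linear_combination 2 * h3
  -- the four roots
  have div2 : ∀ x : Qb, x ≠ 0 → (q : Qb) / ((q : Qb) / x) = x := by
    intro x hx
    field_simp
  obtain ⟨b1, b2, hb12, hR⟩ : ∃ b1 b2, b1 ≠ b2 ∧ Rt h' = {b1, b2} := Set.ncard_eq_two.1 p7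
  have pick : ∀ β ∈ Rt h', ∃ x ∈ Om q h', x + (q : Qb) / x = β ∧ 0 < w x := by
    intro β hβ
    obtain ⟨x, hx, hx1⟩ := p4 β hβ
    rcases lt_or_gt_of_ne (hw0 x hx) with h1 | h1
    · refine ⟨(q : Qb) / x, (p2 x hx).1, ?_, ?_⟩
      · rw [div2 x hx.1, add_comm]
        exact hx1
      · rw [hodd x hx]
        omega
    · exact ⟨x, hx, hx1, h1⟩
  obtain ⟨g1, k1, e1, w1⟩ := pick b1 (by rw [hR]; exact Set.mem_insert _ _)
  obtain ⟨g2, k2, e2, w2⟩ := pick b2 (by rw [hR]; exact Set.mem_insert_of_mem _ rfl)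
  have pos : ∀ x ∈ Om q h', 0 < w x → x = g1 ∨ x = g2 := by
    intro x hx hwx
    have h1 := (p2 x hx).2.2
    rw [hR] at h1
    rcases h1 with h1 | h1
    · left
      rcases REF_two hx.1 k1.1 (h1.trans e1.symm) with h2 | h2
      · exact h2
      · have h3 := hodd g1 k1
        rw [← h2] at h3
        omega
    · right
      rcases REF_two hx.1 k2.1 ((Set.mem_singleton_iff.1 h1).trans e2.symm) with h2 | h2
      · exact h2
      · have h3 := hodd g2 k2
        rw [← h2] at h3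
        omega
  have hg12 : g1 ≠ g2 := by
    intro h1
    apply hb12
    rw [← e1, ← e2, h1]
  obtain ⟨D, hD⟩ : ∃ D : Qb, D = (g1 - (q : Qb) / g1) * (g2 - (q : Qb) / g2) := ⟨_, rfl⟩
  have hD0 : D ≠ 0 := by
    rw [hD]
    exact mul_ne_zero (sub_ne_zero.2 (p6 g1 k1)) (sub_ne_zero.2 (p6 g2 k2))
  have σD : ∀ σ : Qb ≃ₐ[ℚ] Qb, σ D = (σ g1 - (q : Qb) / σ g1) * (σ g2 - (q : Qb) / σ g2) := by
    intro σ
    rw [hD, map_mul, map_sub, map_sub, map_div₀, map_div₀, σq]
  have fix : ∀ σ : Qb ≃ₐ[ℚ] Qb, σ b = b → σ D = D := by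
    intro σ hσ
    have ha0 : σ a ≠ 0 := by
      intro h1
      exact ha.1 ((map_eq_zero_iff σ σ.injective).1 h1)
    have h1 : σ a + (q : Qb) / σ a = a + (q : Qb) / a := by
      rw [← hb, ← hσ, hb, map_add, map_div₀, σq]
    rw [σD]
    rcases REF_two ha0 ha.1 h1 with h2 | h2
    · have c1 := pos _ (p3 g1 k1 σ) (by rw [hst σ h2 g1 k1]; exact w1)
      have c2 := pos _ (p3 g2 k2 σ) (by rw [hst σ h2 g2 k2]; exact w2)
      rcases c1 with c1 | c1 <;> rcases c2 with c2 | c2
      · exact absurd (σ.injective (c1.trans c2.symm)) hg12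
      · rw [c1, c2, hD]
      · rw [c1, c2, hD]
        ring
      · exact absurd (σ.injective (c1.trans c2.symm)) hg12
    · have n1 := p3 g1 k1 σ
      have n2 := p3 g2 k2 σ
      have c1 := pos _ (p2 _ n1).1 (by rw [hodd _ n1, hfl σ h2 g1 k1]; omega)
      have c2 := pos _ (p2 _ n2).1 (by rw [hodd _ n2, hfl σ h2 g2 k2]; omega)
      have u1 : σ g1 = (q : Qb) / ((q : Qb) / σ g1) := (div2 _ n1.1).symm
      have u2 : σ g2 = (q : Qb) / ((q : Qb) / σ g2) := (div2 _ n2.1).symm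
      rcases c1 with c1 | c1 <;> rcases c2 with c2 | c2
      · exfalso
        rw [c1] at u1
        rw [c2] at u2
        exact hg12 (σ.injective (u1.trans u2.symm))
      · rw [c1] at u1 ⊢
        rw [c2] at u2 ⊢
        rw [u1, u2, hD]
        ring
      · rw [c1] at u1 ⊢
        rw [c2] at u2 ⊢
        rw [u1, u2, hD]
        ring
      · exfalso
        rw [c1] at u1
        rw [c2] at u2
        exact hg12 (σ.injective (u1.trans u2.symm))
  -- the flip
  have hng : g2 ≠ (q : Qb) / g1 := by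
    intro h1
    have h2 := hodd g1 k1
    rw [← h1] at h2
    omega
  obtain ⟨τ, t1, t2⟩ := (hFULC q h' hq hm' hf').2.1 g1 k1
  have τD : τ D = - D := by
    rw [σD, t1, t2 g2 k2 hg12.symm hng, div2 g1 k1.1, hD]
    ring
  have τb : τ b ≠ b := by
    intro h1
    have h2 := fix τ h1
    rw [τD] at h2
    exact hD0 (self_eq_neg.1 h2.symm)
  have neg : ∀ σ : Qb ≃ₐ[ℚ] Qb, σ b ≠ b → σ b = τ b := by
    intro σ hσ
    have h1 := (σb σ).resolve_left hσ
    have h2 := (σb τ).resolve_left τb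
    have h3 : σ s = τ s := by rw [h1, h2]
    rw [hs] at h3
    simp only [map_add, map_mul, map_intCast, map_ofNat] at h3
    have h4 : (2 : Qb) * σ b = 2 * τ b := add_right_cancel h3
    exact mul_left_cancel₀ two_ne_zero h4
  have prod_fix : ∀ σ : Qb ≃ₐ[ℚ] Qb, σ (D * s) = D * s := by
    intro σ
    rw [map_mul]
    by_cases hσ : σ b = b
    · rw [fix σ hσ, hs]
      simp only [map_add, map_mul, map_intCast, map_ofNat, hσ]
    · rw [(σb σ).resolve_left hσ]
      have h1 : (τ⁻¹ * σ) b = b := by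
        show τ.symm (σ b) = b
        rw [neg σ hσ]
        exact τ.symm_apply_apply b
      have h2 : τ.symm (σ D) = D := fix (τ⁻¹ * σ) h1
      have h3 : σ D = τ D := by
        have h4 := congrArg τ h2
        rwa [τ.apply_symm_apply] at h4
      rw [h3, τD]
      ring
  obtain ⟨r, hr⟩ := REF_rat hSTAB _ prod_fix
  -- the square of `D`
  have hD2 : D ^ 2 = ((delta q h' : ℤ) : Qb) := by
    have h1 := (hDEL q h' hm').2.2.2
    have hne : h' ≠ 0 := hm'.ne_zero
    have h2 : h'.aroots Qb = {b1, b2} := by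
      have h3 : ∀ x, x ∈ h'.aroots Qb ↔ x = b1 ∨ x = b2 := by
        intro x
        rw [Polynomial.mem_aroots]
        constructor
        · rintro ⟨_, h4⟩
          have h5 : x ∈ Rt h' := h4
          rw [hR] at h5
          exact h5
        · intro h4
          refine ⟨hne, ?_⟩
          have h5 : x ∈ Rt h' := by
            rw [hR]
            exact h4
          exact h5
      have h4 : ({b1, b2} : Multiset Qb).Nodup := by
        rw [Multiset.insert_eq_cons, Multiset.nodup_cons]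
        exact ⟨fun h5 => hb12 (Multiset.mem_singleton.1 h5), Multiset.nodup_singleton _⟩
      rw [Multiset.Nodup.ext p8 h4]
      intro x
      rw [h3, Multiset.insert_eq_cons, Multiset.mem_cons, Multiset.mem_singleton]
    rw [h1, h2, Multiset.insert_eq_cons, Multiset.map_cons, Multiset.map_singleton,
      Multiset.prod_cons, Multiset.prod_singleton, hD, ← e1, ← e2]
    have z1 := k1.1
    have z2 := k2.1
    field_simp
    ring
  have fin : (((h.coeff 1 ^ 2 - 4 * h.coeff 0) * delta q h' : ℤ) : ℚ) = r * r := by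
    have h1 : algebraMap ℚ Qb (((h.coeff 1 ^ 2 - 4 * h.coeff 0) * delta q h' : ℤ) : ℚ) =
        algebraMap ℚ Qb (r * r) := by
      rw [map_mul (algebraMap ℚ Qb) r r, hr]
      have h2 : algebraMap ℚ Qb (((h.coeff 1 ^ 2 - 4 * h.coeff 0) * delta q h' : ℤ) : ℚ) =
          (((h.coeff 1 ^ 2 - 4 * h.coeff 0) * delta q h' : ℤ) : Qb) := map_intCast _ _
      rw [h2, Int.cast_mul, ← hs2, ← hD2]
      ring
    exact (algebraMap ℚ Qb).injective h1
  have hsq : IsSquare ((((h.coeff 1 ^ 2 - 4 * h.coeff 0) * delta q h' : ℤ)) : ℚ) := ⟨r, fin⟩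
  exact Rat.isSquare_intCast_iff.1 hsq

end

end Pool.Agent.TJ2
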