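import Pool.Agent.TJ2.Stmts3
import Pool.Agent.TJ2.Stmts2

/-!
# REP: representatives for the quadratic twist
-/

set_option autoImplicit false

open Polynomial IntermediateField

namespace Pool.Agent.TJ2

theorem REP_natDegree (h : ℤ[X]) : (tw h).natDegree = h.natDegree := by
  unfold tw
  rw [natDegree_C_mul (pow_ne_zero _ (by norm_num)), natDegree_comp, natDegree_neg, natDegree_X,
    mul_one]

theorem REP_tw_tw (h : ℤ[X]) : tw (tw h) = h := by
  have h1 : tw (tw h) = C ((-1) ^ (tw h).natDegree) * (tw h).comp (-X) := rfl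
  rw [REP_natDegree] at h1
  rw [h1]
  unfold tw
  rw [mul_comp, C_comp, comp_neg_X_comp_neg_X, ← mul_assoc, ← C_mul, ← mul_pow]
  norm_num

theorem REP_monic {h : ℤ[X]} (hm : h.Monic) : (tw h).Monic := by
  unfold tw
  have h1 := hm.neg_one_pow_natDegree_mul_comp_neg_X
  have h2 : (C ((-1) ^ h.natDegree) : ℤ[X]) = (-1) ^ h.natDegree := by simp
  rw [h2]
  exact h1

theorem REP_coeff (h : ℤ[X]) (i : ℕ) :
    (tw h).coeff i = (-1) ^ h.natDegree * ((-1) ^ i * h.coeff i) := by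
  unfold tw
  rw [coeff_C_mul]
  congr 1
  have h1 : (-X : ℤ[X]) = C (-1) * X := by simp
  rw [h1, comp_C_mul_X_coeff, mul_comm]

theorem REP_aeval {A : Type*} [CommRing A] [IsDomain A] [Algebra ℤ A] (h : ℤ[X]) (z : A) :
    aeval z (tw h) = 0 ↔ aeval (-z) h = 0 := by
  unfold tw
  rw [map_mul, aeval_C, aeval_comp]
  simp only [map_neg, aeval_X]
  rw [map_pow, map_neg, map_one]
  constructor
  · intro h1
    rcases mul_eq_zero.1 h1 with h2 | h2
    · exact absurd h2 (pow_ne_zero _ (neg_ne_zero.2 one_ne_zero))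
    · exact h2
  · intro h1
    rw [h1, mul_zero]

theorem REP_om {q : ℕ} {h : ℤ[X]} {a : Qb} : a ∈ Om q (tw h) ↔ -a ∈ Om q h := by
  show (a ≠ 0 ∧ aeval (a + (q : Qb) / a) (tw h) = 0) ↔
    (-a ≠ 0 ∧ aeval (-a + (q : Qb) / (-a)) h = 0)
  rw [REP_aeval]
  have h1 : -(a + (q : Qb) / a) = -a + (q : Qb) / (-a) := by
    rw [div_neg]
    ring
  rw [h1]
  constructor
  · rintro ⟨h2, h3⟩
    exact ⟨neg_ne_zero.2 h2, h3⟩
  · rintro ⟨h2, h3⟩
    exact ⟨neg_ne_zero.1 h2, h3⟩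

theorem REP_om_image (q : ℕ) (h : ℤ[X]) : Om q (tw h) = (fun a => -a) '' Om q h := by
  ext a
  rw [REP_om]
  constructor
  · intro h1
    exact ⟨-a, h1, neg_neg a⟩
  · rintro ⟨b, hb, rfl⟩
    rwa [neg_neg]

theorem REP_full {q : ℕ} {h : ℤ[X]} (hf : Full q h) : Full q (tw h) := by
  obtain ⟨h1, h2⟩ := hf
  refine ⟨?_, ?_⟩
  · rw [REP_om_image, Set.ncard_image_of_injective _ neg_injective, h1, REP_natDegree]
  · intro τ hτ hτq
    obtain ⟨hm, hi, hs⟩ := hτ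
    have hA : Set.MapsTo (fun a => -τ (-a)) (Om q h) (Om q h) := by
      intro a ha
      have h3 : -a ∈ Om q (tw h) := REP_om.2 (by rwa [neg_neg])
      exact REP_om.1 (hm h3)
    have hB : Set.InjOn (fun a => -τ (-a)) (Om q h) := by
      intro a ha b hb hab
      have h3 : -a ∈ Om q (tw h) := REP_om.2 (by rwa [neg_neg])
      have h4 : -b ∈ Om q (tw h) := REP_om.2 (by rwa [neg_neg])
      exact neg_injective (hi h3 h4 (neg_injective hab))
    have hC : Set.SurjOn (fun a => -τ (-a)) (Om q h) (Om q h) := by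
      intro b hb
      have h3 : -b ∈ Om q (tw h) := REP_om.2 (by rwa [neg_neg])
      obtain ⟨c, hc, hcb⟩ := hs h3
      refine ⟨-c, REP_om.1 hc, ?_⟩
      show -τ (- -c) = b
      rw [neg_neg, hcb, neg_neg]
    obtain ⟨σ, hσ⟩ := h2 (fun a => -τ (-a)) ⟨hA, hB, hC⟩ (by
      intro a ha
      have h3 : -a ∈ Om q (tw h) := REP_om.2 (by rwa [neg_neg])
      have h4 := hτq (-a) h3
      show -τ (-((q : Qb) / a)) = (q : Qb) / -τ (-a)
      rw [← div_neg, h4, div_neg])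
    refine ⟨σ, fun a ha => ?_⟩
    have h3 := hσ (-a) (REP_om.1 ha)
    rw [map_neg, neg_neg] at h3
    exact neg_injective h3

theorem REP_RW {g q : ℕ} {h : ℤ[X]} (hh : h ∈ RW g q) : tw h ∈ RW g q := by
  obtain ⟨h1, h2, h3⟩ := hh
  refine ⟨REP_monic h1, by rw [REP_natDegree, h2], ?_⟩
  intro z hz
  rw [REP_aeval] at hz
  obtain ⟨h4, h5⟩ := h3 (-z) hz
  rw [Complex.neg_im, neg_eq_zero] at h4
  rw [Complex.neg_re, abs_neg] at h5
  exact ⟨h4, h5⟩

theorem REP_Ord {g q : ℕ} {h : ℤ[X]} (hh : h ∈ Ord g q) : tw h ∈ Ord g q := by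
  obtain ⟨h1, h2⟩ := hh
  refine ⟨REP_RW h1, ?_⟩
  rw [REP_coeff, pow_zero, one_mul]
  rcases neg_one_pow_eq_or ℤ h.natDegree with h3 | h3
  · rwa [h3, one_mul]
  · rwa [h3, neg_one_mul, dvd_neg]

theorem REP_FO {q : ℕ} {h : ℤ[X]} (hh : h ∈ FO q) : tw h ∈ FO q := by
  obtain ⟨h1, h2, h3⟩ := hh
  refine ⟨by rwa [REP_natDegree], ?_, REP_full h3⟩
  rw [REP_natDegree]
  exact REP_Ord h2

theorem REP_Xv (q : ℕ) (h : ℤ[X]) : Xv q (tw h) = (-1) ^ h.natDegree * Xv q h := by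
  unfold Xv
  rw [REP_natDegree, Finset.mul_sum]
  refine Finset.sum_congr rfl fun i _ => ?_
  by_cases hi : Even i
  · rw [if_pos hi, if_pos hi, REP_coeff, hi.neg_one_pow]
    ring
  · rw [if_neg hi, if_neg hi, mul_zero]

theorem REP_Yv (q : ℕ) (h : ℤ[X]) : Yv q (tw h) = -(-1) ^ h.natDegree * Yv q h := by
  unfold Yv
  rw [REP_natDegree, Finset.mul_sum]
  refine Finset.sum_congr rfl fun i _ => ?_
  by_cases hi : Odd i
  · rw [if_pos hi, if_pos hi, REP_coeff, hi.neg_one_pow]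
    ring
  · rw [if_neg hi, if_neg hi, mul_zero]

theorem REP_delta (q : ℕ) (h : ℤ[X]) : delta q (tw h) = delta q h := by
  unfold delta
  rw [REP_Xv, REP_Yv]
  rcases neg_one_pow_eq_or ℤ h.natDegree with h3 | h3
  · rw [h3]
    ring
  · rw [h3]
    ring

theorem REP_adjoin (a : Qb) : ℚ⟮-a⟯ = ℚ⟮a⟯ := by
  apply le_antisymm
  · rw [adjoin_simple_le_iff]
    exact neg_mem (mem_adjoin_simple_self ℚ a)
  · rw [adjoin_simple_le_iff]
    have h1 := neg_mem (mem_adjoin_simple_self ℚ (-a))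
    rwa [neg_neg] at h1

theorem REP_Sel {q : ℕ} {h : ℤ[X]} (hh : h ∈ Sel q) : tw h ∈ Sel q := by
  obtain ⟨h1, h2, h3⟩ := hh
  refine ⟨REP_FO h1, ?_, ?_⟩
  · intro h' hh' a ha a' ha' hE
    rw [REP_tw_tw]
    have h4 := h2 h' hh' (-a) (REP_om.1 ha) a' ha' (by rw [REP_adjoin, hE])
    exact h4.symm
  · intro hd h' hh' hd'
    rw [REP_natDegree] at hd
    rw [REP_delta]
    exact h3 hd h' hh' hd'

theorem REP_ne (hOMB : S_OMB) (hFULC : S_FULC) {q : ℕ} (hq : 1 ≤ q) {h : ℤ[X]} (hh : h ∈ FO q) :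
    tw h ≠ h := by
  intro htw
  obtain ⟨h1, ⟨⟨hm, hd, hr⟩, hc⟩, hF⟩ := hh
  obtain ⟨hfin, hst, -, -, hcard⟩ := hOMB h.natDegree q h hq hm rfl
  obtain ⟨hne, -, -⟩ := hcard hF.1
  obtain ⟨-, hflip, -⟩ := hFULC q h hq hm hF
  have hnon : (Om q h).Nonempty := by
    rw [Set.nonempty_iff_ne_empty]
    intro h0
    have h2 := hF.1
    rw [h0, Set.ncard_empty] at h2
    omega
  obtain ⟨a, ha⟩ := hnon
  have ha0 : a ≠ 0 := ha.1
  have hna : -a ∈ Om q h := by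
    rw [← REP_om, htw]
    exact ha
  obtain ⟨σ, hσ1, hσ2⟩ := hflip a ha
  have h3 : -a ≠ a := by
    intro h4
    exact ha0 (neg_eq_self.1 h4)
  have h5 : -a ≠ (q : Qb) / a := by
    intro h6
    -- `0` is a root of `h`
    have h7 := ha.2
    rw [← h6, add_neg_cancel] at h7
    have h8 : aeval (0 : Qb) h = ((h.coeff 0 : ℤ) : Qb) := by
      rw [aeval_def, eval₂_at_zero]
      simp
    rw [h8] at h7
    have h9 : h.coeff 0 = 0 := by exact_mod_cast h7
    exact hc (by rw [h9]; exact dvd_zero _)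
  have h10 := hσ2 (-a) hna h3 h5
  rw [map_neg, hσ1] at h10
  exact hne a ha (neg_injective h10).symm

theorem t_REP (hOMB : S_OMB) (hFULC : S_FULC) : S_REP := by
  intro q hq
  refine ⟨{h | h ∈ Sel q ∧ WellOrderingRel h (tw h)}, fun h hh => hh.1, ?_, ?_⟩
  · intro h hh
    rcases trichotomous_of WellOrderingRel h (tw h) with h1 | h1 | h1
    · exact Or.inl ⟨hh, h1⟩
    · exact absurd h1.symm (REP_ne hOMB hFULC hq hh.1)
    · refine Or.inr ⟨⟨REP_Sel hh, ?_⟩, (REP_tw_tw h).symm⟩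
      rw [REP_tw_tw]
      exact h1
  · rintro h ⟨-, h1⟩ h' ⟨-, h2⟩ heq
    rw [heq, REP_tw_tw] at h1
    exact asymm_of WellOrderingRel h1 h2

end Pool.Agent.TJ2
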