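import Pool.Agent.TJ2.Stmts2

/-!
# Module SING: one ordinary variety alone has no relation
-/

open Polynomial IntermediateField

namespace Pool.Agent.TJ2

/-- a complex embedding of the field of algebraic numbers -/
lemma SING_emb : Nonempty (Qb →+* ℂ) := by
  letI : Algebra ℚ Qb := AlgebraicClosure.instAlgebra ℚ
  haveI : Algebra.IsAlgebraic ℚ Qb := AlgebraicClosure.isAlgebraic ℚ
  exact ⟨(IsAlgClosed.lift (R := ℚ) (S := Qb) (M := ℂ)).toRingHom⟩

/-- the value of an integer polynomial at an algebraic integer is an algebraic integer -/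
lemma SING_aeval (b : Qb) (hb : IsIntegral ℤ b) (P : ℤ[X]) : IsIntegral ℤ (aeval b P) := by
  have h1 : aeval b P ∈ Algebra.adjoin ℤ {b} := aeval_mem_adjoin_singleton ℤ b
  exact IsIntegral.of_mem_of_fg _ (hb.fg_adjoin_singleton) _ h1

/-- The algebraic part of the proof. -/
lemma SING_alg (q : ℕ) (hq : 1 < q) (h : ℤ[X]) (a : Qb) (ha0 : a ≠ 0) (ha : IsIntegral ℤ a)
    (ha' : IsIntegral ℤ ((q : Qb) / a)) (hr : aeval (a + (q : Qb) / a) h = 0) (M : ℕ) (hM : 1 ≤ M)
    (hz : (a / ((q : Qb) / a)) ^ M = 1) : (q.minFac : ℤ) ∣ h.coeff 0 := by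
  have hq0 : (q : Qb) ≠ 0 := by
    have : q ≠ 0 := by omega
    exact_mod_cast this
  set a' : Qb := (q : Qb) / a with ha'def
  have ha'0 : a' ≠ 0 := div_ne_zero hq0 ha0
  have haa : a * a' = q := by
    rw [ha'def]; field_simp
  have e1 : a ^ M = a' ^ M := by
    rw [div_pow, div_eq_one_iff_eq (pow_ne_zero _ ha'0)] at hz
    exact hz
  have e2 : a ^ (2 * M) = (q : Qb) ^ M := by
    rw [two_mul, pow_add]
    nth_rewrite 2 [e1]
    rw [← mul_pow, haa]
  have e3 : a' ^ (2 * M) = (q : Qb) ^ M := by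
    rw [two_mul, pow_add]
    nth_rewrite 1 [← e1]
    rw [← mul_pow, haa]
  -- the power of `b`
  have e4 : ∃ T : Qb, IsIntegral ℤ T ∧ (a + a') ^ (4 * M) = (q : Qb) ^ M * T := by
    have hterm : ∀ j ∈ Finset.range (4 * M + 1), ∃ T : Qb, IsIntegral ℤ T ∧
        a ^ j * a' ^ (4 * M - j) * ((4 * M).choose j : Qb) = (q : Qb) ^ M * T := by
      intro j hj
      have hj' : j ≤ 4 * M := by
        have := Finset.mem_range.1 hj
        omega
      rcases le_total (2 * M) j with h1 | h1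
      · refine ⟨a ^ (j - 2 * M) * a' ^ (4 * M - j) * ((4 * M).choose j : Qb), ?_, ?_⟩
        · exact ((ha.pow _).mul (ha'.pow _)).mul (isIntegral_natCast _)
        · have h2 : a ^ j = a ^ (2 * M) * a ^ (j - 2 * M) := by
            rw [← pow_add]
            congr 1
            omega
          rw [h2, e2]
          ring
      · refine ⟨a ^ j * a' ^ (2 * M - j) * ((4 * M).choose j : Qb), ?_, ?_⟩
        · exact ((ha.pow _).mul (ha'.pow _)).mul (isIntegral_natCast _)
        · have h2 : a' ^ (4 * M - j) = a' ^ (2 * M) * a' ^ (2 * M - j) := by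
            rw [← pow_add]
            congr 1
            omega
          rw [h2, e3]
          ring
    choose! T hT1 hT2 using hterm
    refine ⟨∑ j ∈ Finset.range (4 * M + 1), T j, IsIntegral.sum _ hT1, ?_⟩
    rw [add_pow, Finset.mul_sum]
    exact Finset.sum_congr rfl hT2
  obtain ⟨T, hT, hbT⟩ := e4
  -- the constant coefficient
  set b : Qb := a + a' with hb
  have hbint : IsIntegral ℤ b := ha.add ha'
  have e5 : (h.coeff 0 : Qb) = -(aeval b h.divX) * b := by
    have h1 : aeval b (divX h * X + C (h.coeff 0)) = 0 := by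
      rw [divX_mul_X_add]; exact hr
    rw [map_add, map_mul, aeval_X, aeval_C] at h1
    have h2 : (algebraMap ℤ Qb) (h.coeff 0) = (h.coeff 0 : Qb) := rfl
    rw [h2] at h1
    linear_combination h1
  set p := q.minFac with hp
  have hpp : p.Prime := Nat.minFac_prime (by omega)
  have hp0 : (p : Qb) ≠ 0 := by
    have := hpp.ne_zero
    exact_mod_cast this
  obtain ⟨q', hq'⟩ : p ∣ q := Nat.minFac_dvd q
  have e6 : IsIntegral ℤ ((h.coeff 0 : Qb) ^ (4 * M) / (p : Qb)) := by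
    have h1 : (h.coeff 0 : Qb) ^ (4 * M) / (p : Qb) =
        (-(aeval b h.divX)) ^ (4 * M) * (((q' : ℕ) : Qb) * ((q : ℕ) : Qb) ^ (M - 1) * T) := by
      have h2 : (q : Qb) ^ M = (p : Qb) * ((q' : ℕ) : Qb) * (q : Qb) ^ (M - 1) := by
        obtain ⟨m, rfl⟩ : ∃ m, M = m + 1 := ⟨M - 1, by omega⟩
        rw [Nat.add_sub_cancel, pow_succ]
        nth_rewrite 2 [hq']
        push_cast
        ring
      rw [e5, mul_pow, hbT, h2]
      field_simp
    rw [h1]
    exact ((SING_aeval b hbint _).neg.pow _).mul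
      (((isIntegral_natCast _).mul ((isIntegral_natCast _).pow _)).mul hT)
  have e7 : IsIntegral ℤ (((h.coeff 0 : ℚ) ^ (4 * M) / (p : ℚ))) := by
    have h1 : algebraMap ℚ Qb ((h.coeff 0 : ℚ) ^ (4 * M) / (p : ℚ)) =
        (h.coeff 0 : Qb) ^ (4 * M) / (p : Qb) := by
      rw [map_div₀, map_pow, map_intCast, map_natCast]
    rw [← h1] at e6
    exact (isIntegral_algebraMap_iff (algebraMap ℚ Qb).injective).1 e6
  obtain ⟨y, hy⟩ := IsIntegrallyClosed.isIntegral_iff.1 e7
  have e8 : (h.coeff 0) ^ (4 * M) = (p : ℤ) * y := by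
    have h1 : ((y : ℤ) : ℚ) = (h.coeff 0 : ℚ) ^ (4 * M) / (p : ℚ) := hy
    have h2 : (p : ℚ) ≠ 0 := by exact_mod_cast hpp.ne_zero
    rw [eq_div_iff h2] at h1
    have h3 : ((h.coeff 0 : ℤ) : ℚ) ^ (4 * M) = (p : ℚ) * (y : ℚ) := by
      rw [← h1]; ring
    exact_mod_cast h3
  exact Int.Prime.dvd_pow' hpp ⟨y, e8⟩

theorem t_SING (hEMB : S_EMB) (hOMB : S_OMB) : S_SING := by
  intro g q h a c N k hg hq hh ha hc hN heq
  have hq1 : 1 < q := hq.one_lt
  have hq0 : (q : Qb) ≠ 0 := by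
    have : q ≠ 0 := by omega
    exact_mod_cast this
  obtain ⟨-, o2, -, -, -⟩ := hOMB g q h hq1.le hh.1.1 hh.1.2.1
  obtain ⟨ha', haint, hroot⟩ := o2 a ha
  obtain ⟨-, ha'int, -⟩ := o2 _ ha'
  have ha0 : a ≠ 0 := ha.1
  have ha'0 : (q : Qb) / a ≠ 0 := div_ne_zero hq0 ha0
  obtain ⟨ι⟩ := SING_emb
  obtain ⟨e1, e2, -, -⟩ := hEMB g q h hq1.le hh.1 a ha ι
  have hn0 : ‖ι a‖ ≠ 0 := by
    intro h0
    rw [h0] at e1
    have : (q : ℝ) = 0 := by rw [← e1]; ring
    have : q = 0 := by exact_mod_cast this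
    omega
  have e3 : ‖ι ((q : Qb) / a)‖ = ‖ι a‖ := by
    rw [e2, RCLike.norm_conj]
  -- `k = 0`
  have hk : k = 0 := by
    have h1 := congrArg (fun z => ‖ι z‖) heq
    simp only [map_pow, map_mul, map_zpow₀, norm_pow, norm_mul, norm_zpow, e3, map_natCast] at h1
    rw [← zpow_add₀ hn0, add_neg_cancel, zpow_zero, one_pow, Complex.norm_natCast] at h1
    have h2 : (1 : ℝ) < q := by exact_mod_cast hq1
    exact (zpow_eq_one_iff_right₀ (by linarith) h2.ne').1 h1.symm
  rw [hk, zpow_zero] at heq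
  -- the quotient is a root of unity
  have h1 : a ^ c * ((q : Qb) / a) ^ (-c) = (a / ((q : Qb) / a)) ^ c := by
    rw [div_zpow a ((q : Qb) / a) c, zpow_neg, div_eq_mul_inv (a ^ c)]
  rw [h1] at heq
  have h2 : (a / ((q : Qb) / a)) ^ (c.natAbs * N) = 1 := by
    rw [pow_mul]
    rcases Int.natAbs_eq c with h3 | h3
    · rw [h3, zpow_natCast] at heq
      exact heq
    · rw [h3, zpow_neg, zpow_natCast, inv_pow, inv_eq_one] at heq
      exact heq
  have hM : 1 ≤ c.natAbs * N := by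
    have h3 : 0 < c.natAbs := Int.natAbs_pos.2 hc
    exact Nat.mul_pos h3 hN
  exact hh.2 (SING_alg q hq1 h a ha0 haint ha'int hroot _ hM h2)

end Pool.Agent.TJ2
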