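import Pool.Agent.TJ2.Stmts3
import Pool.Agent.TJ2.Stmts2

/-!
# Theorem J: basic facts on the Weil polynomial
-/

open Polynomial

namespace Pool.Agent.TJ2

noncomputable section

private theorem WEI_low (q : ℕ) (h : ℤ[X]) :
    (∑ i ∈ Finset.range h.natDegree,
      C (h.coeff i) * (X ^ 2 + C (q : ℤ)) ^ i * X ^ (h.natDegree - i)).degree <
      ((2 * h.natDegree : ℕ) : WithBot ℕ) := by
  rw [← mem_degreeLT]
  refine Submodule.sum_mem _ fun i hi => ?_
  rw [Finset.mem_range] at hi
  rw [mem_degreeLT]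
  refine degree_le_natDegree.trans_lt ?_
  rw [Nat.cast_lt]
  have h2 : (X ^ 2 + C (q : ℤ)).natDegree = 2 := by compute_degree!
  have h3 : (C (h.coeff i) * (X ^ 2 + C (q : ℤ)) ^ i).natDegree ≤ i * 2 := by
    refine (natDegree_C_mul_le _ _).trans ?_
    refine natDegree_pow_le.trans ?_
    rw [h2]
  have h4 : (C (h.coeff i) * (X ^ 2 + C (q : ℤ)) ^ i * X ^ (h.natDegree - i)).natDegree ≤
      i * 2 + (h.natDegree - i) := by
    refine natDegree_mul_le.trans ?_
    rw [natDegree_X_pow]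
    omega
  omega

private theorem WEI_split (q : ℕ) (h : ℤ[X]) (hm : h.Monic) :
    weil q h = (∑ i ∈ Finset.range h.natDegree,
      C (h.coeff i) * (X ^ 2 + C (q : ℤ)) ^ i * X ^ (h.natDegree - i)) +
      (X ^ 2 + C (q : ℤ)) ^ h.natDegree := by
  unfold weil
  rw [Finset.sum_range_succ]
  have h1 : h.coeff h.natDegree = 1 := hm
  rw [h1, Nat.sub_self, pow_zero, mul_one, C_1, one_mul]

private theorem WEI_top (q : ℕ) (g : ℕ) : ((X ^ 2 + C (q : ℤ)) ^ g).Monic ∧
    ((X ^ 2 + C (q : ℤ)) ^ g).natDegree = 2 * g := by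
  have h1 : (X ^ 2 + C (q : ℤ)).Monic := by monicity!
  have h2 : (X ^ 2 + C (q : ℤ)).natDegree = 2 := by compute_degree!
  refine ⟨h1.pow g, ?_⟩
  rw [h1.natDegree_pow, h2, mul_comm]

private theorem WEI_deg (q : ℕ) (h : ℤ[X]) (hm : h.Monic) :
    (weil q h).Monic ∧ (weil q h).natDegree = 2 * h.natDegree := by
  obtain ⟨h1, h2⟩ := WEI_top q h.natDegree
  have h3 := WEI_low q h
  have h4 : (∑ i ∈ Finset.range h.natDegree,
      C (h.coeff i) * (X ^ 2 + C (q : ℤ)) ^ i * X ^ (h.natDegree - i)).degree <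
      ((X ^ 2 + C (q : ℤ)) ^ h.natDegree).degree := by
    rw [degree_eq_natDegree h1.ne_zero, h2]
    exact h3
  rw [WEI_split q h hm]
  refine ⟨h1.add_of_right h4, ?_⟩
  rw [natDegree_add_eq_right_of_degree_lt h4, h2]

private theorem WEI_aeval (q : ℕ) (h : ℤ[X]) (a : Qb) :
    aeval a (weil q h) = ∑ i ∈ Finset.range (h.natDegree + 1),
      (h.coeff i : Qb) * (a ^ 2 + (q : Qb)) ^ i * a ^ (h.natDegree - i) := by
  unfold weil
  rw [map_sum]
  refine Finset.sum_congr rfl fun i _ => ?_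
  simp

private theorem WEI_root (q : ℕ) (h : ℤ[X]) (hq : 1 ≤ q) (hm : h.Monic) (a : Qb) :
    aeval a (weil q h) = 0 ↔ a ∈ Om q h := by
  have hq0 : (q : Qb) ≠ 0 := by
    have : q ≠ 0 := by omega
    exact_mod_cast this
  rw [WEI_aeval]
  by_cases ha : a = 0
  · have h1 : ∑ i ∈ Finset.range (h.natDegree + 1),
        (h.coeff i : Qb) * (a ^ 2 + (q : Qb)) ^ i * a ^ (h.natDegree - i) =
        (q : Qb) ^ h.natDegree := by
      rw [Finset.sum_range_succ, Finset.sum_eq_zero, zero_add, Nat.sub_self, pow_zero, mul_one]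
      · have h2 : h.coeff h.natDegree = 1 := hm
        rw [h2, ha]
        simp
      · intro i hi
        rw [Finset.mem_range] at hi
        rw [ha, zero_pow (by omega : h.natDegree - i ≠ 0), mul_zero]
    rw [h1]
    constructor
    · intro h2
      exact absurd h2 (pow_ne_zero _ hq0)
    · intro h2
      exact absurd ha h2.1
  · have h1 : ∑ i ∈ Finset.range (h.natDegree + 1),
        (h.coeff i : Qb) * (a ^ 2 + (q : Qb)) ^ i * a ^ (h.natDegree - i) =
        a ^ h.natDegree * aeval (a + (q : Qb) / a) h := by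
      rw [aeval_eq_sum_range, Finset.mul_sum]
      refine Finset.sum_congr rfl fun i hi => ?_
      rw [Finset.mem_range] at hi
      have h2 : a ^ 2 + (q : Qb) = a * (a + (q : Qb) / a) := by
        field_simp
      have h3 : a ^ h.natDegree = a ^ i * a ^ (h.natDegree - i) := by
        rw [← pow_add]
        congr 1
        omega
      rw [h2, h3, mul_pow, zsmul_eq_mul]
      ring
    rw [h1]
    constructor
    · intro h2
      exact ⟨ha, (mul_eq_zero.1 h2).resolve_left (pow_ne_zero _ ha)⟩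
    · intro h2
      rw [h2.2, mul_zero]

private theorem WEI_nodup (q : ℕ) (h : ℤ[X]) (hq : 1 ≤ q) (hm : h.Monic)
    (hf : (Om q h).ncard = 2 * h.natDegree) :
    ((weil q h).map (Int.castRingHom ℚ)).Separable := by
  classical
  obtain ⟨h1, h2⟩ := WEI_deg q h hm
  have hmap : ((weil q h).map (Int.castRingHom ℚ)).map (algebraMap ℚ Qb) =
      (weil q h).map (algebraMap ℤ Qb) := by
    rw [Polynomial.map_map]
    congr 1
  have hset : Om q h = (((weil q h).map (algebraMap ℤ Qb)).roots.toFinset : Set Qb) := by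
    ext a
    rw [← WEI_root q h hq hm a, Finset.mem_coe, Multiset.mem_toFinset,
      mem_roots (h1.map _).ne_zero, IsRoot.def, eval_map_algebraMap]
  have hcard : ((weil q h).map (algebraMap ℤ Qb)).roots.card = 2 * h.natDegree := by
    have h3 : ((weil q h).map (algebraMap ℤ Qb)).Splits := IsAlgClosed.splits _
    rw [← h3.natDegree_eq_card_roots, h1.natDegree_map, h2]
  have hnd : ((weil q h).map (algebraMap ℤ Qb)).roots.Nodup := by
    rw [← Multiset.toFinset_card_eq_card_iff_nodup, hcard, ← hf, hset, Set.ncard_coe_finset]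
  have hne : (weil q h).map (Int.castRingHom ℚ) ≠ 0 := (h1.map _).ne_zero
  rw [← hmap] at hnd
  exact (nodup_aroots_iff_of_splits hne (IsAlgClosed.splits _)).1 hnd

theorem t_WEI (hOMB : S_OMB) : S_WEI := by
  have _ := hOMB
  intro q h hq hm
  obtain ⟨h1, h2⟩ := WEI_deg q h hm
  refine ⟨h1, h2, WEI_root q h hq hm, fun hf => ?_⟩
  have hsep := WEI_nodup q h hq hm hf.1
  refine ⟨hsep.squarefree, ?_⟩
  have hmap : ((weil q h).map (Int.castRingHom ℚ)).map (algebraMap ℚ ℂ) =
      (weil q h).map (algebraMap ℤ ℂ) := by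
    rw [Polynomial.map_map]
    congr 1
  rw [aroots_def, ← hmap]
  exact nodup_roots (hsep.map (f := algebraMap ℚ ℂ))

end

end Pool.Agent.TJ2
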