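import Pool.Agent.TJ2.Stmts3

/-!
# Theorem J: isomorphisms of tensor words
-/

open CategoryTheory MonoidalCategory BraidedCategory Limits Polynomial

universe v u

namespace Pool.Agent.TJ2

/-- Moving an object into a tensor word. -/
theorem WRD_one (C : Type u) [Category.{v} C] [MonoidalCategory C] [SymmetricCategory C]
    (M : ℤ[X] → C) (U T : C) : ∀ l : List ℤ[X], Nonempty (T ⊗ Zo M U l ≅ Zo M (T ⊗ U) l)
  | [] => ⟨Iso.refl _⟩
  | h :: l => by
    obtain ⟨e⟩ := WRD_one C M U T l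
    exact ⟨(α_ T (M h) (Zo M U l)).symm ≪≫ whiskerRightIso (β_ T (M h)) (Zo M U l) ≪≫
      α_ (M h) T (Zo M U l) ≪≫ whiskerLeftIso (M h) e⟩

/-- Changing the last object of a tensor word. -/
theorem WRD_two (C : Type u) [Category.{v} C] [MonoidalCategory C]
    (M : ℤ[X] → C) (U V : C) (a : U ≅ V) : ∀ l : List ℤ[X], Nonempty (Zo M U l ≅ Zo M V l)
  | [] => ⟨a⟩
  | h :: l => by
    obtain ⟨e⟩ := WRD_two C M U V a l
    exact ⟨whiskerLeftIso (M h) e⟩

/-- The product of two tensor words. -/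
theorem WRD_three (C : Type u) [Category.{v} C] [MonoidalCategory C] [SymmetricCategory C]
    (M : ℤ[X] → C) (U V : C) (l' : List ℤ[X]) :
    ∀ l : List ℤ[X], Nonempty (Zo M U l ⊗ Zo M V l' ≅ Zo M (U ⊗ V) (l ++ l'))
  | [] => WRD_one C M V U l'
  | h :: l => by
    obtain ⟨e⟩ := WRD_three C M U V l' l
    exact ⟨α_ (M h) (Zo M U l) (Zo M V l') ≪≫ whiskerLeftIso (M h) e⟩

theorem t_WRD : S_WRD.{v, u} := by
  intro C _ _ _ M U l
  exact ⟨fun T => WRD_one C M U T l, fun V ⟨a⟩ => WRD_two C M U V a l,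
    fun V l' => WRD_three C M U V l' l⟩

end Pool.Agent.TJ2
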