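import Pool.Agent.TJ2.STAB
import Pool.Agent.TJ2.EMB
import Pool.Agent.TJ2.OMB
import Pool.Agent.TJ2.FULC
import Pool.Agent.TJ2.ORB
import Pool.Agent.TJ2.GRP
import Pool.Agent.TJ2.SING
import Pool.Agent.TJ2.DEL
import Pool.Agent.TJ2.REF
import Pool.Agent.TJ2.IND
import Pool.Agent.TJ2.WEI
import Pool.Agent.TJ2.DXY
import Pool.Agent.TJ2.REP
import Pool.Agent.TJ2.ALG
import Pool.Agent.TJ2.IDT
import Pool.Agent.TJ2.MOV
import Pool.Agent.TJ2.COM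
import Pool.Agent.TJ2.PRD
import Pool.Agent.TJ2.PLZ
import Pool.Agent.TJ2.WRD
import Pool.Agent.TJ2.MON
import Pool.Agent.TJ2.KEA
import Pool.Agent.TJ2.KEB
import Pool.Agent.TJ2.KEY
import Pool.Agent.TJ2.MAI
import Pool.Agent.TJ2.INZ
import Pool.Agent.TJ2.DOM
import Pool.Agent.TJ2.ABE
import Pool.Agent.TJ2.CAT

/-!
# Theorem J: assembly of the independence theorem and of the categorical theorem (helper2)
-/

universe v u

namespace Pool.Agent.TJ2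

theorem t_IND_all : S_IND :=
  t_IND t_STAB t_EMB t_OMB t_FULC (t_GRP t_ORB) (t_SING t_EMB t_OMB)
    (t_REF t_STAB t_OMB t_FULC t_DEL)

theorem t_KEY_all : S_KEY.{v, u} :=
  t_KEY t_OMB (t_WEI t_OMB) t_IDT t_KEA t_KEB

theorem t_MAI_all : S_MAI.{v, u} :=
  t_MAI t_OMB (t_WEI t_OMB) (t_DXY t_OMB (t_WEI t_OMB)) t_ALG t_MOV t_COM t_PRD t_PLZ t_WRD t_MON
    t_KEY_all

theorem t_CAT_all : S_CAT.{v, u} :=
  t_CAT t_IND_all (t_REP t_OMB t_FULC) t_MAI_all (t_INZ t_WRD t_MON) t_DOM t_ABE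

end Pool.Agent.TJ2
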