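import Pool.Agent.TJ2.AsmA
import Pool.Agent.TJ2.AsmC

/-!
# Theorem J: the final theorem (MP_6c4da4_ag)
-/

open CategoryTheory MonoidalCategory Limits Polynomial Filter

universe v u

namespace Pool.Agent.TJ2

noncomputable section

theorem main :
    ∃ S : ℕ → Set ℤ[X],
      (∀ q : ℕ, ∀ h ∈ S q, 1 ≤ h.natDegree ∧ h ∈ Ord h.natDegree q) ∧
      (∀ g : ℕ, 1 ≤ g → Tendsto
        (fun q : {q : ℕ // IsPrimePow q} => ((S q ∩ Ord g q).ncard : ℝ) / (Ord g q).ncard)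
        atTop (nhds 1)) ∧
      ∀ q : ℕ, IsPrimePow q → ∀ (C : Type u) [Category.{v} C] [Preadditive C] [Linear ℚ C]
        [MonoidalCategory C] [SymmetricCategory C] [MonoidalPreadditive C] [MonoidalLinear ℚ C]
        [RightRigidCategory C] [HasFiniteBiproducts C] [IsIdempotentComplete C]
        (W : MotP.Frobenius C) (D : AV W q (S q)),
        MotP.IsAbelian (GenCat D.Obj) ∧
          ∀ (X Y : C) (f : X ⟶ Y), Gen D.Obj X → Gen D.Obj Y → MotP.NumTrivial f → f = 0 := by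
  refine ⟨Sel, fun q h hh => ⟨hh.1.1, hh.1.2.1⟩, fun g hg => ?_, fun q hq C _ _ _ _ _ _ _ _ _ _ W D => t_CAT_all C W q D hq⟩
  have hne : Nonempty {q : ℕ // IsPrimePow q} := ⟨⟨2, Nat.prime_two.isPrimePow⟩⟩
  rw [Metric.tendsto_atTop]
  intro ε hε
  obtain ⟨q₀, hq₀⟩ := t_DENS_all g hg (ε / 2) (by positivity)
  have hex : ∃ q : {q : ℕ // IsPrimePow q}, q₀ ≤ (q : ℕ) := by
    obtain ⟨p, hp1, hp2⟩ := Nat.exists_infinite_primes q₀
    exact ⟨⟨p, hp2.isPrimePow⟩, hp1⟩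
  obtain ⟨q₁, hq₁⟩ := hex
  refine ⟨q₁, fun q hq => ?_⟩
  obtain ⟨hfin, hpos, hle⟩ := hq₀ (q : ℕ) (le_trans hq₁ hq) q.2
  have h1 : (Sel q ∩ Ord g q).ncard + (Ord g q \ Sel q).ncard = (Ord g q).ncard := by
    rw [Set.inter_comm]
    exact Set.ncard_inter_add_ncard_sdiff_eq_ncard _ _ hfin
  have h2 : ((Sel q ∩ Ord g q).ncard : ℝ) + ((Ord g q \ Sel q).ncard : ℝ) =
      ((Ord g q).ncard : ℝ) := by exact_mod_cast h1
  have hpos' : (0 : ℝ) < ((Ord g q).ncard : ℝ) := by exact_mod_cast hpos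
  rw [Real.dist_eq]
  have h3 : ((Sel q ∩ Ord g q).ncard : ℝ) / (Ord g q).ncard - 1 =
      -(((Ord g q \ Sel q).ncard : ℝ) / (Ord g q).ncard) := by
    rw [← h2]
    rw [← h2] at hpos'
    field_simp
    ring
  rw [h3, abs_neg, abs_of_nonneg (by positivity), div_lt_iff₀ hpos']
  nlinarith

end

end Pool.Agent.TJ2
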