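import Pool.Agent.TJ2.Stmts4
import Pool.Agent.TJ2.Stmts3

/-!
# Theorem J2: the theorem on Tate classes
-/

open Polynomial IntermediateField

namespace Pool.Agent.TJ2

noncomputable section

lemma JD_emb (K : Type) [Field K] [IsAlgClosed K] [CharZero K] : Nonempty (Qb →+* K) := by
  have h := AlgebraicClosure.instIsAlgClosure ℚ
  have e : (AlgebraicClosure.instAlgebra ℚ : Algebra ℚ (AlgebraicClosure ℚ)) =
    DivisionRing.toRatAlgebra := Subsingleton.elim _ _
  have h1 : IsAlgClosure ℚ Qb := e ▸ h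
  have h2 : Algebra.IsAlgebraic ℚ Qb := IsAlgClosure.isAlgebraic
  exact ⟨((IsAlgClosed.lift : Qb →ₐ[ℚ] K) : Qb →+* K)⟩

/-- the roots in `K` come from the roots in `Qb` -/
lemma JD_root {K : Type} [Field K] (ι : Qb →+* K) (p : ℤ[X]) (hp : p.Monic) (μ : K)
    (hμ : (p.map (Int.castRingHom K)).IsRoot μ) : ∃ a : Qb, ι a = μ ∧ aeval a p = 0 := by
  have h1 := (IsAlgClosed.splits (p.map (Int.castRingHom Qb))).eq_prod_roots_of_monic (hp.map _)
  have h2 : p.map (Int.castRingHom K) =
      (((p.map (Int.castRingHom Qb)).roots.map fun a => X - C a).prod).map ι := by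
    rw [← h1, Polynomial.map_map]
    congr 1
    exact RingHom.ext_int _ _
  rw [Polynomial.IsRoot.def, h2, Polynomial.map_multiset_prod, Polynomial.eval_multiset_prod,
    Multiset.prod_eq_zero_iff, Multiset.map_map, Multiset.map_map, Multiset.mem_map] at hμ
  obtain ⟨a, ha, ha2⟩ := hμ
  simp only [Function.comp_apply, Polynomial.map_sub, Polynomial.map_X, Polynomial.map_C,
    Polynomial.eval_sub, Polynomial.eval_X, Polynomial.eval_C] at ha2
  refine ⟨a, (sub_eq_zero.1 ha2).symm, ?_⟩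
  have h3 := Polynomial.isRoot_of_mem_roots ha
  rw [Polynomial.IsRoot.def, Polynomial.eval_map] at h3
  exact h3

/-- eigenvectors span -/
lemma JD_top {K : Type} [Field K] [IsAlgClosed K] [CharZero K] {V : Type} [AddCommGroup V]
    [Module K V] [Module.Finite K V] (F : V →ₗ[K] V) (p : ℤ[X])
    (hp : Squarefree (p.map (Int.castRingHom ℚ)))
    (hF : F.charpoly = p.map (Int.castRingHom K)) :
    ⨆ μ : K, Module.End.eigenspace F μ = ⊤ := by
  have h1 : (p.map (Int.castRingHom ℚ)).Separable := PerfectField.separable_iff_squarefree.2 hp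
  have h2 : (p.map (Int.castRingHom K)).Separable := by
    have h3 := h1.map (f := algebraMap ℚ K)
    rw [Polynomial.map_map] at h3
    have h4 : (algebraMap ℚ K).comp (Int.castRingHom ℚ) = Int.castRingHom K :=
      RingHom.ext_int _ _
    rwa [h4] at h3
  have h5 : Module.End.IsSemisimple F := by
    refine Module.End.isSemisimple_of_squarefree_aeval_eq_zero (p := F.charpoly) ?_
      (LinearMap.aeval_self_charpoly F)
    rw [hF]
    exact h2.squarefree
  rw [← Module.End.iSup_maxGenEigenspace_eq_top F]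
  exact iSup_congr fun μ => (h5.isFinitelySemisimple.maxGenEigenspace_eq_eigenspace μ).symm

/-- the eigenvectors in the factors -/
def JDE {K : Type} [Field K] {m : ℕ} {V : Fin m → Type} [∀ i, AddCommGroup (V i)]
    [∀ i, Module K (V i)] (F : ∀ i, V i →ₗ[K] V i) : Set (∀ i, V i) :=
  {e | ∃ (i : Fin m) (v : V i) (μ : K), v ≠ 0 ∧ F i v = μ • v ∧ e = Pi.single i v}

lemma JD_span {K : Type} [Field K] {m : ℕ} {V : Fin m → Type} [∀ i, AddCommGroup (V i)]
    [∀ i, Module K (V i)] (F : ∀ i, V i →ₗ[K] V i)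
    (h : ∀ i, ⨆ μ : K, Module.End.eigenspace (F i) μ = ⊤) :
    Submodule.span K (JDE F) = ⊤ := by
  rw [eq_top_iff]
  intro x _
  have h1 : ∀ (i : Fin m) (v : V i), Pi.single i v ∈ Submodule.span K (JDE F) := by
    intro i v
    have hv : v ∈ ⨆ μ : K, Module.End.eigenspace (F i) μ := by
      rw [h i]
      exact Submodule.mem_top
    induction hv using Submodule.iSup_induction' with
    | mem μ v hv =>
      by_cases h0 : v = 0
      · rw [h0, Pi.single_zero]
        exact zero_mem _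
      · exact Submodule.subset_span ⟨i, v, μ, h0, Module.End.mem_eigenspace_iff.1 hv, rfl⟩
    | zero =>
      rw [Pi.single_zero]
      exact zero_mem _
    | add a b _ _ ha hb =>
      rw [Pi.single_add]
      exact add_mem ha hb
  rw [← Finset.univ_sum_single x]
  exact sum_mem fun i _ => h1 i (x i)

theorem t_JD (hWEI : S_WEI) (hJA : S_JA) (hJB : S_JB) (hJC : S_JC) : S_JD := by
  classical
  intro q hq K _ _ _ m h V _ _ _ F hS hF j x hx hFx
  have hq1 : 1 ≤ q := hq.one_lt.le
  have hmon : ∀ i, (h i).Monic := fun i => (hS i).1.2.1.1.1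
  have hfull : ∀ i, Full q (h i) := fun i => (hS i).1.2.2
  obtain ⟨ι⟩ := JD_emb K
  have hq0 : (q : K) ≠ 0 := by exact_mod_cast (by omega : q ≠ 0)
  -- the eigenvectors
  have hE : ∀ e ∈ JDE F, ∃ (μ : K) (y : ℤ[X] × Qb), LinearMap.piMap F e = μ • e ∧
      y.1 ∈ Sel q ∧ y.2 ∈ Om q y.1 ∧ ι y.2 = μ := by
    rintro e ⟨i, v, μ, hv, hμ, rfl⟩
    obtain ⟨w1, _, w3, _⟩ := hWEI q (h i) hq1 (hmon i)
    have h1 : (F i).charpoly.IsRoot μ := by
      have h2 : Module.End.HasEigenvalue (F i) μ :=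
        Module.End.hasEigenvalue_of_hasEigenvector
          ⟨Module.End.mem_eigenspace_iff.2 hμ, hv⟩
      exact (Module.End.hasEigenvalue_iff_isRoot_charpoly (F i) μ).1 h2
    rw [hF i] at h1
    obtain ⟨a, ha, ha2⟩ := JD_root ι _ w1 μ h1
    refine ⟨μ, (h i, a), ?_, hS i, (w3 a).1 ha2, ha⟩
    ext k
    by_cases hk : k = i
    · subst hk
      simp [hμ]
    · simp [Pi.single_eq_of_ne hk]
  choose! lam y hy1 hy2 hy3 hy4 using hE
  have htop : Submodule.span K (JDE F) = ⊤ := by
    refine JD_span F fun i => ?_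
    exact JD_top (F i) (weil q (h i)) ((hWEI q (h i) hq1 (hmon i)).2.2.2 (hfull i)).1 (hF i)
  have hmem := hJA K (∀ i, V i) (LinearMap.piMap F) (JDE F) lam hy1 htop (2 * j) x
    ((q : K) ^ j) hx hFx
  have hprod : ∀ l : List (∀ i, V i), (∀ e ∈ l, e ∈ JDE F) →
      ι ((l.map y).map Prod.snd).prod = (l.map lam).prod := by
    intro l hl
    rw [map_list_prod, List.map_map, List.map_map]
    congr 1
    exact List.map_congr_left fun e he => hy4 e (hl e he)
  have hmatch : ∀ (e : ∀ i, V i) (l : List (∀ i, V i)) (j : ℕ), e ∈ JDE F →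
      (∀ e' ∈ l, e' ∈ JDE F) → (lam e * (l.map lam).prod) ^ 2 = ((q : K) ^ j) ^ 2 →
      l.length + 1 = 2 * j → ∃ e' ∈ l, (lam e * lam e') ^ 2 = (q : K) ^ 2 := by
    intro e l j he hl hp _
    have h1 : ((y e).2 * ((l.map y).map Prod.snd).prod) ^ 2 = (q : Qb) ^ ((j * 2 : ℕ) : ℤ) := by
      apply ι.injective
      rw [map_pow, map_mul, hprod l hl, hy4 e he, hp, zpow_natCast, map_pow, map_natCast,
        pow_mul]
    obtain ⟨z, hz, hz2⟩ := hJC q hq (y e) (l.map y) (hy2 e he) (hy3 e he) (fun z hz => by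
      obtain ⟨e', he', rfl⟩ := List.mem_map.1 hz
      exact ⟨hy2 e' (hl e' he'), hy3 e' (hl e' he')⟩) _ h1
    obtain ⟨e', he', rfl⟩ := List.mem_map.1 hz
    refine ⟨e', he', ?_⟩
    have h2 := congrArg ι hz2
    rw [map_pow, map_mul, hy4 e he, hy4 e' (hl e' he'), map_pow, map_natCast] at h2
    exact h2
  have hle : Submodule.span K {w | ∃ l : List (∀ i, V i), l.length = 2 * j ∧
      (∀ e ∈ l, e ∈ JDE F) ∧ (l.map lam).prod = (q : K) ^ j ∧
      w = (l.map (ExteriorAlgebra.ι K)).prod} ≤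
      Subalgebra.toSubmodule (Algebra.adjoin K (Deg2 (LinearMap.piMap F) (q : K))) := by
    rw [Submodule.span_le]
    rintro w ⟨l, hl1, hl2, hl3, rfl⟩
    exact hJB K (∀ i, V i) (LinearMap.piMap F) (JDE F) lam (q : K) hq0 hy1 hmatch l j hl2 hl1
      (by rw [hl3])
  exact hle hmem

end

end Pool.Agent.TJ2
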