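import Pool.Agent.TJ2.Stmts2

/-!
# Theorem J: the Galois correspondence for one element
-/

open Polynomial IntermediateField

namespace Pool.Agent.TJ2

theorem STAB_fixing (a : Qb) (σ : Qb ≃ₐ[ℚ] Qb) (hσ : σ ∈ (ℚ⟮a⟯).fixingSubgroup) : σ a = a :=
  (IntermediateField.mem_fixingSubgroup_iff _ _).1 hσ a (IntermediateField.mem_adjoin_simple_self ℚ a)

theorem STAB_algebraic : Algebra.IsAlgebraic ℚ Qb := by
  refine ⟨fun x => ?_⟩
  obtain ⟨p, hp, hx⟩ := @Algebra.IsAlgebraic.isAlgebraic ℚ Qb _ _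
    (AlgebraicClosure.instAlgebra ℚ) (AlgebraicClosure.isAlgebraic ℚ) x
  refine ⟨p, hp, ?_⟩
  have e : (AlgebraicClosure.instAlgebra ℚ : Algebra ℚ (AlgebraicClosure ℚ)) =
      DivisionRing.toRatAlgebra := Subsingleton.elim _ _
  rw [← hx, e]

theorem STAB_galois : IsGalois ℚ Qb := by
  have := STAB_algebraic
  have : IsAlgClosure ℚ Qb := ⟨AlgebraicClosure.isAlgClosed ℚ, this⟩
  exact IsAlgClosure.isGalois ℚ Qb

theorem t_STAB : S_STAB := by
  have := STAB_galois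
  intro a b h
  have h1 : IntermediateField.fixedField (ℚ⟮a⟯).fixingSubgroup = ℚ⟮a⟯ :=
    InfiniteGalois.fixedField_fixingSubgroup _
  rw [← h1, IntermediateField.mem_fixedField_iff]
  intro σ hσ
  exact h σ (STAB_fixing a σ hσ)

end Pool.Agent.TJ2
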