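import Pool.Agent.TJ2.Stmts4

/-!
# JA: eigenvectors in the exterior algebra
-/

set_option autoImplicit false

namespace Pool.Agent.TJ2

theorem JA_eig {K V : Type} [Field K] [AddCommGroup V] [Module K V] (F : V →ₗ[K] V) (E : Set V)
    (lam : V → K) (hE : ∀ e ∈ E, F e = lam e • e) (l : List V) (hl : ∀ e ∈ l, e ∈ E) :
    ExteriorAlgebra.map F (l.map (ExteriorAlgebra.ι K)).prod =
      (l.map lam).prod • (l.map (ExteriorAlgebra.ι K)).prod := by
  induction l with
  | nil => simp
  | cons e l ih =>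
    have h1 := ih fun e' he' => hl e' (List.mem_cons_of_mem _ he')
    rw [List.map_cons, List.prod_cons, List.map_cons, List.prod_cons, map_mul, h1,
      ExteriorAlgebra.map_apply_ι, hE e (hl e List.mem_cons_self), map_smul, smul_mul_smul_comm]

theorem JA_span {K V : Type} [Field K] [AddCommGroup V] [Module K V] (E : Set V)
    (hs : Submodule.span K E = ⊤) (n : ℕ) (x : ExteriorAlgebra K V) (hx : x ∈ ⋀[K]^n V) :
    x ∈ Submodule.span K {w | ∃ l : List V, l.length = n ∧ (∀ e ∈ l, e ∈ E) ∧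
        w = (l.map (ExteriorAlgebra.ι K)).prod} := by
  have h1 : LinearMap.range (ExteriorAlgebra.ι K : V →ₗ[K] ExteriorAlgebra K V) =
      Submodule.span K (ExteriorAlgebra.ι K '' E) := by
    rw [← Submodule.map_span, hs, Submodule.map_top]
  have h2 : x ∈ (LinearMap.range (ExteriorAlgebra.ι K : V →ₗ[K] ExteriorAlgebra K V)) ^ n := hx
  rw [h1, Submodule.span_pow] at h2
  refine Submodule.span_mono ?_ h2
  intro w hw
  rw [Set.mem_pow] at hw
  obtain ⟨f, hf⟩ := hw
  choose g hg using fun i => (f i).2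
  refine ⟨List.ofFn g, List.length_ofFn, ?_, ?_⟩
  · intro e he
    rw [List.mem_ofFn] at he
    obtain ⟨i, rfl⟩ := he
    exact (hg i).1
  · rw [List.map_ofFn, ← hf]
    congr 2
    funext i
    exact (hg i).2.symm

theorem t_JA : S_JA := by
  intro K V _ _ _ F E lam hE hs n x c hx hxc
  let S : K → Submodule K (ExteriorAlgebra K V) := fun μ =>
    Submodule.span K {w | ∃ l : List V, l.length = n ∧ (∀ e ∈ l, e ∈ E) ∧
        (l.map lam).prod = μ ∧ w = (l.map (ExteriorAlgebra.ι K)).prod}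
  let G : Module.End K (ExteriorAlgebra K V) := (ExteriorAlgebra.map F).toLinearMap
  have hSG : ∀ μ, S μ ≤ G.eigenspace μ := by
    intro μ
    refine Submodule.span_le.2 ?_
    rintro w ⟨l, hl, hlE, hμ, rfl⟩
    refine Module.End.mem_eigenspace_iff.2 ?_
    rw [← hμ]
    exact JA_eig F E lam hE l hlE
  have h1 : x ∈ S c ⊔ ⨆ (μ : K) (_ : μ ≠ c), S μ := by
    refine Submodule.span_le.2 ?_ (JA_span E hs n x hx)
    rintro w ⟨l, hl, hlE, rfl⟩
    by_cases hc : (l.map lam).prod = c
    · exact Submodule.mem_sup_left (Submodule.subset_span ⟨l, hl, hlE, hc, rfl⟩)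
    · refine Submodule.mem_sup_right ?_
      exact Submodule.mem_iSup_of_mem _ (Submodule.mem_iSup_of_mem hc
        (Submodule.subset_span ⟨l, hl, hlE, rfl, rfl⟩))
  obtain ⟨y, hy, z, hz, hyz⟩ := Submodule.mem_sup.1 h1
  have h2 : z ∈ G.eigenspace c := by
    have h3 : z = x - y := by rw [← hyz]; abel
    rw [h3]
    exact Submodule.sub_mem _ (Module.End.mem_eigenspace_iff.2 hxc) (hSG c hy)
  have h4 : z ∈ ⨆ (μ : K) (_ : μ ≠ c), G.eigenspace μ :=
    (iSup₂_mono fun μ _ => hSG μ) hz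
  have h5 := (Module.End.eigenspaces_iSupIndep G) c
  have h6 : z = 0 := Submodule.disjoint_def.1 h5 z h2 h4
  rw [h6, add_zero] at hyz
  rw [← hyz]
  exact hy

end Pool.Agent.TJ2
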