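import Pool.Agent.TJ2.Stmts5
import Pool.Agent.TJ2.Stmts3
import Pool.Agent.TJ2.JD

/-!
# Theorem J2: the theorem on Tate classes for one space
-/

open Polynomial IntermediateField

namespace Pool.Agent.TJ2

noncomputable section

/-- the eigenvectors -/
def JGE {K : Type} [Field K] {V : Type} [AddCommGroup V] [Module K V] (F : Module.End K V) :
    Set V := {v | v ≠ 0 ∧ ∃ μ : K, F v = μ • v}

lemma JG_span {K : Type} [Field K] [IsAlgClosed K] {V : Type} [AddCommGroup V] [Module K V]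
    [Module.Finite K V] (F : Module.End K V) (h : F.IsSemisimple) :
    Submodule.span K (JGE F) = ⊤ := by
  rw [eq_top_iff, ← Module.End.iSup_maxGenEigenspace_eq_top F]
  refine iSup_le fun μ => ?_
  rw [h.isFinitelySemisimple.maxGenEigenspace_eq_eigenspace μ]
  intro v hv
  by_cases h0 : v = 0
  · rw [h0]
    exact zero_mem _
  · exact Submodule.subset_span ⟨h0, μ, Module.End.mem_eigenspace_iff.1 hv⟩

theorem t_JG (hWEI : S_WEI) (hJA : S_JA) (hJB : S_JB) (hJC : S_JC) : S_JG := by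
  classical
  intro q hq K _ _ _ V _ _ _ F m h hS hss hF j x hx hFx
  have hq1 : 1 ≤ q := hq.one_lt.le
  have hmon : ∀ i, (h i).Monic := fun i => (hS i).1.2.1.1.1
  obtain ⟨ι⟩ := JD_emb K
  have hq0 : (q : K) ≠ 0 := by exact_mod_cast (by omega : q ≠ 0)
  have hE : ∀ e ∈ JGE F, ∃ (μ : K) (y : ℤ[X] × Qb), F e = μ • e ∧
      y.1 ∈ Sel q ∧ y.2 ∈ Om q y.1 ∧ ι y.2 = μ := by
    rintro v ⟨hv, μ, hμ⟩
    have h1 : F.charpoly.IsRoot μ := by
      have h2 : Module.End.HasEigenvalue F μ :=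
        Module.End.hasEigenvalue_of_hasEigenvector
          ⟨Module.End.mem_eigenspace_iff.2 hμ, hv⟩
      exact (Module.End.hasEigenvalue_iff_isRoot_charpoly F μ).1 h2
    rw [hF, Polynomial.IsRoot.def, Polynomial.eval_prod, Finset.prod_eq_zero_iff] at h1
    obtain ⟨i, _, hi⟩ := h1
    obtain ⟨w1, _, w3, _⟩ := hWEI q (h i) hq1 (hmon i)
    obtain ⟨a, ha, ha2⟩ := JD_root ι _ w1 μ hi
    exact ⟨μ, (h i, a), hμ, hS i, (w3 a).1 ha2, ha⟩
  choose! lam y hy1 hy2 hy3 hy4 using hE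
  have hmem := hJA K V F (JGE F) lam hy1 (JG_span F hss) (2 * j) x ((q : K) ^ j) hx hFx
  have hprod : ∀ l : List V, (∀ e ∈ l, e ∈ JGE F) →
      ι ((l.map y).map Prod.snd).prod = (l.map lam).prod := by
    intro l hl
    rw [map_list_prod, List.map_map, List.map_map]
    congr 1
    exact List.map_congr_left fun e he => hy4 e (hl e he)
  have hmatch : ∀ (e : V) (l : List V) (j : ℕ), e ∈ JGE F →
      (∀ e' ∈ l, e' ∈ JGE F) → (lam e * (l.map lam).prod) ^ 2 = ((q : K) ^ j) ^ 2 →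
      l.length + 1 = 2 * j → ∃ e' ∈ l, (lam e * lam e') ^ 2 = (q : K) ^ 2 := by
    intro e l j he hl hp _
    have h1 : ((y e).2 * ((l.map y).map Prod.snd).prod) ^ 2 = (q : Qb) ^ ((j * 2 : ℕ) : ℤ) := by
      apply ι.injective
      rw [map_pow, map_mul, hprod l hl, hy4 e he, hp, zpow_natCast, map_pow, map_natCast,
        pow_mul]
    obtain ⟨z, hz, hz2⟩ := hJC q hq (y e) (l.map y) (hy2 e he) (hy3 e he) (fun z hz => by
      obtain ⟨e', he', rfl⟩ := List.mem_map.1 hz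
      exact ⟨hy2 e' (hl e' he'), hy3 e' (hl e' he')⟩) _ h1
    obtain ⟨e', he', rfl⟩ := List.mem_map.1 hz
    refine ⟨e', he', ?_⟩
    have h2 := congrArg ι hz2
    rw [map_pow, map_mul, hy4 e he, hy4 e' (hl e' he'), map_pow, map_natCast] at h2
    exact h2
  have hle : Submodule.span K {w | ∃ l : List V, l.length = 2 * j ∧
      (∀ e ∈ l, e ∈ JGE F) ∧ (l.map lam).prod = (q : K) ^ j ∧
      w = (l.map (ExteriorAlgebra.ι K)).prod} ≤
      Subalgebra.toSubmodule (Algebra.adjoin K (Deg2 F (q : K))) := by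
    rw [Submodule.span_le]
    rintro w ⟨l, hl1, hl2, hl3, rfl⟩
    exact hJB K V F (JGE F) lam (q : K) hq0 hy1 hmatch l j hl2 hl1 (by rw [hl3])
  exact hle hmem

end

end Pool.Agent.TJ2
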