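import Pool.Agent.TJ2.Stmts

/-!
# Theorem J: coefficients of real Weil polynomials
-/

open Polynomial

namespace Pool.Agent.TJ2

noncomputable section

theorem box_coeff {g q : ℕ} {h : ℤ[X]} (hh : h ∈ RW g q) (i : ℕ) :
    (|h.coeff i| : ℝ) ≤ g.choose i * (2 * Real.sqrt q) ^ (g - i) := by
  obtain ⟨h1, h2, h3⟩ := hh
  have hsp : (h.map (Int.castRingHom ℂ)).Splits := IsAlgClosed.splits _
  have h4 : ∀ z ∈ (h.map (Int.castRingHom ℂ)).roots, ‖z‖ ≤ 2 * Real.sqrt q := by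
    intro z hz
    have hm : h.map (Int.castRingHom ℂ) ≠ 0 := (h1.map _).ne_zero
    rw [mem_roots hm, IsRoot.def, eval_map] at hz
    obtain ⟨h5, h6⟩ := h3 z (by rw [aeval_def]; exact hz)
    have h7 : z = (z.re : ℂ) := by
      apply Complex.ext
      · simp
      · simpa using h5
    rw [h7, Complex.norm_real, Real.norm_eq_abs]
    exact h6
  have h5 := coeff_le_of_roots_le (B := 2 * Real.sqrt q) i h1 hsp h4
  rw [h2, coeff_map] at h5
  have h6 : ‖(Int.castRingHom ℂ) (h.coeff i)‖ = (|h.coeff i| : ℝ) := by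
    rw [eq_intCast, Complex.norm_intCast]
  rw [h6] at h5
  rw [mul_comm]
  exact_mod_cast h5

theorem box_finite (g q : ℕ) : (RW g q).Finite := by
  classical
  obtain ⟨B, hB⟩ : ∃ B : ℤ, ∀ i : ℕ, i ≤ g →
      (g.choose i : ℝ) * (2 * Real.sqrt q) ^ (g - i) ≤ (B : ℝ) := by
    obtain ⟨N, hN⟩ := exists_nat_ge
      (∑ i ∈ Finset.range (g + 1), (g.choose i : ℝ) * (2 * Real.sqrt q) ^ (g - i))
    refine ⟨(N : ℤ), fun i hi => ?_⟩
    have h1 : (g.choose i : ℝ) * (2 * Real.sqrt q) ^ (g - i) ≤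
        ∑ i ∈ Finset.range (g + 1), (g.choose i : ℝ) * (2 * Real.sqrt q) ^ (g - i) :=
      Finset.single_le_sum (f := fun i => (g.choose i : ℝ) * (2 * Real.sqrt q) ^ (g - i))
        (fun j _ => by positivity) (Finset.mem_range.2 (Nat.lt_succ_of_le hi))
    have h2 := h1.trans hN
    exact_mod_cast h2
  let Fs : Finset (Fin (g + 1) → ℤ) := Fintype.piFinset (fun _ => Finset.Icc (-B) B)
  refine (Fs.image (fun f : Fin (g + 1) → ℤ =>
    ∑ i : Fin (g + 1), C (f i) * X ^ (i : ℕ))).finite_toSet.subset ?_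
  intro h hh
  rw [Finset.mem_coe, Finset.mem_image]
  refine ⟨fun i => h.coeff i, ?_, ?_⟩
  · rw [Fintype.mem_piFinset]
    intro i
    have h1 := (box_coeff hh (i : ℕ)).trans (hB i (Nat.lt_succ_iff.1 i.2))
    have h2 : |h.coeff i| ≤ B := by exact_mod_cast h1
    rw [Finset.mem_Icc]
    exact abs_le.1 h2
  · obtain ⟨_, h2, _⟩ := hh
    conv_rhs => rw [h.as_sum_range_C_mul_X_pow, h2]
    rw [Finset.sum_range]

end

theorem t_BOX : S_BOX := fun g q =>
  ⟨box_finite g q, fun _ hh i _ => box_coeff hh i⟩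

end Pool.Agent.TJ2
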