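import Pool.Agent.TJ2.Stmts2
import Pool.Agent.TJ2.BOX

/-!
# Theorem J: case (a) is rare
-/

open Polynomial

namespace Pool.Agent.TJ2

noncomputable section

/-- the integer polynomials with bounded roots -/
def CNA_F (g : ℕ) (H : ℝ) : Set ℤ[X] :=
  {f | f.Monic ∧ f.natDegree = g ∧ ∀ z : ℂ, aeval z f = 0 → ‖z‖ ≤ H}

theorem CNA_coeff {g : ℕ} {H : ℝ} {f : ℤ[X]} (hf : f ∈ CNA_F g H) (i : ℕ) :
    (|f.coeff i| : ℝ) ≤ g.choose i * H ^ (g - i) := by
  obtain ⟨h1, h2, h3⟩ := hf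
  have hsp : (f.map (Int.castRingHom ℂ)).Splits := IsAlgClosed.splits _
  have h4 : ∀ z ∈ (f.map (Int.castRingHom ℂ)).roots, ‖z‖ ≤ H := by
    intro z hz
    have hm : f.map (Int.castRingHom ℂ) ≠ 0 := (h1.map _).ne_zero
    rw [mem_roots hm, IsRoot.def, eval_map] at hz
    exact h3 z (by rw [aeval_def]; exact hz)
  have h5 := coeff_le_of_roots_le (B := H) i h1 hsp h4
  rw [h2, coeff_map] at h5
  have h6 : ‖(Int.castRingHom ℂ) (f.coeff i)‖ = (|f.coeff i| : ℝ) := by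
    rw [eq_intCast, Complex.norm_intCast]
  rw [h6] at h5
  rw [mul_comm]
  exact_mod_cast h5

theorem CNA_finite (g : ℕ) (H : ℝ) (hH : 0 ≤ H) : (CNA_F g H).Finite := by
  classical
  obtain ⟨B, hB⟩ : ∃ B : ℤ, ∀ i : ℕ, i ≤ g →
      (g.choose i : ℝ) * H ^ (g - i) ≤ (B : ℝ) := by
    obtain ⟨N, hN⟩ := exists_nat_ge
      (∑ i ∈ Finset.range (g + 1), (g.choose i : ℝ) * H ^ (g - i))
    refine ⟨(N : ℤ), fun i hi => ?_⟩
    have h1 : (g.choose i : ℝ) * H ^ (g - i) ≤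
        ∑ i ∈ Finset.range (g + 1), (g.choose i : ℝ) * H ^ (g - i) :=
      Finset.single_le_sum (f := fun i => (g.choose i : ℝ) * H ^ (g - i))
        (fun j _ => by positivity) (Finset.mem_range.2 (Nat.lt_succ_of_le hi))
    have h2 := h1.trans hN
    exact_mod_cast h2
  let Fs : Finset (Fin (g + 1) → ℤ) := Fintype.piFinset (fun _ => Finset.Icc (-B) B)
  refine (Fs.image (fun f : Fin (g + 1) → ℤ =>
    ∑ i : Fin (g + 1), C (f i) * X ^ (i : ℕ))).finite_toSet.subset ?_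
  intro h hh
  rw [Finset.mem_coe, Finset.mem_image]
  refine ⟨fun i => h.coeff i, ?_, ?_⟩
  · rw [Fintype.mem_piFinset]
    intro i
    have h1 := (CNA_coeff hh (i : ℕ)).trans (hB i (Nat.lt_succ_iff.1 i.2))
    have h2 : |h.coeff i| ≤ B := by exact_mod_cast h1
    rw [Finset.mem_Icc]
    exact abs_le.1 h2
  · obtain ⟨_, h2, _⟩ := hh
    conv_rhs => rw [h.as_sum_range_C_mul_X_pow, h2]
    rw [Finset.sum_range]

theorem CNA_lam {g q : ℕ} (hg : 2 ≤ g) (hq : 1 ≤ q) :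
    Real.sqrt q ^ g * Real.sqrt q ≤ Lam g q := by
  obtain ⟨k, rfl⟩ := Nat.exists_eq_add_of_le' hg
  have hs : (1 : ℝ) ≤ Real.sqrt q := by
    rw [Real.one_le_sqrt]
    exact_mod_cast hq
  unfold Lam
  rw [Finset.prod_range_succ', Finset.prod_range_succ']
  have h1 : (1 : ℝ) ≤ ∏ i ∈ Finset.range k, Real.sqrt q ^ (k + 2 - (i + 1 + 1)) := by
    have h := Finset.prod_le_prod (s := Finset.range k) (f := fun _ => (1 : ℝ))
      (g := fun i => Real.sqrt q ^ (k + 2 - (i + 1 + 1)))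
      (fun i _ => zero_le_one) (fun i _ => one_le_pow₀ hs)
    simpa using h
  have h2 : Real.sqrt q ≤ Real.sqrt q ^ (k + 2 - (0 + 1)) := by
    calc Real.sqrt q = Real.sqrt q ^ 1 := (pow_one _).symm
      _ ≤ Real.sqrt q ^ (k + 2 - (0 + 1)) := pow_le_pow_right₀ hs (by omega)
  have h3 : Real.sqrt q ≤ (∏ i ∈ Finset.range k, Real.sqrt q ^ (k + 2 - (i + 1 + 1))) *
      Real.sqrt q ^ (k + 2 - (0 + 1)) := by
    calc Real.sqrt q ≤ Real.sqrt q ^ (k + 2 - (0 + 1)) := h2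
      _ = 1 * Real.sqrt q ^ (k + 2 - (0 + 1)) := (one_mul _).symm
      _ ≤ _ := mul_le_mul_of_nonneg_right h1 (by positivity)
  calc Real.sqrt q ^ (k + 2) * Real.sqrt q = Real.sqrt q * Real.sqrt q ^ (k + 2 - 0) := by
        rw [Nat.sub_zero, mul_comm]
    _ ≤ _ := mul_le_mul_of_nonneg_right h3 (by positivity)

theorem t_CNA (hCNF : S_CNF) : S_CNA := by
  classical
  intro g hg H hH η hη
  have hF := CNA_finite g H hH
  -- the sets for one polynomial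
  let S : ℤ[X] → ℕ → Set ℤ[X] := fun f q => {h | h ∈ RW g q ∧ ∃ u : ℚ[X], u.degree < g ∧
        (∀ i : ℕ, i < g → ∃ t : ℤ,
          ((f.aroots ℂ).map (fun z => z ^ i * aeval z u)).sum = (t : ℂ)) ∧
        h.aroots ℂ = (f.aroots ℂ).map (fun z => aeval z u)}
  have hK : ∀ f : ℤ[X], ∃ K : ℝ, f ∈ CNA_F g H → (f.aroots ℂ).Nodup → ∀ q : ℕ, 1 ≤ q →
      ((S f q).ncard : ℝ) ≤ K * Real.sqrt q ^ g := by
    intro f
    by_cases hf : f ∈ CNA_F g H ∧ (f.aroots ℂ).Nodup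
    · obtain ⟨⟨h1, h2, h3⟩, h4⟩ := hf
      obtain ⟨K, hK⟩ := hCNF g H f (by omega) hH h1 h2 h4 h3
      exact ⟨K, fun _ _ => hK⟩
    · exact ⟨0, fun h1 h2 => absurd ⟨h1, h2⟩ hf⟩
  choose K hK using hK
  set F : Finset ℤ[X] := hF.toFinset.filter (fun f => (f.aroots ℂ).Nodup) with hFdef
  set T : ℝ := ∑ f ∈ F, K f with hT
  have hcount : ∀ q : ℕ, 1 ≤ q → ((CA g q H).ncard : ℝ) ≤ T * Real.sqrt q ^ g := by
    intro q hq
    have hsub : CA g q H ⊆ ⋃ f ∈ F, S f q := by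
      rintro h ⟨h1, f, u, h2, h3, h4, h5, h6, h7, h8⟩
      rw [Set.mem_iUnion₂]
      refine ⟨f, ?_, h1, u, h6, h7, h8⟩
      rw [hFdef, Finset.mem_filter, Set.Finite.mem_toFinset]
      exact ⟨⟨h2, h3, h5⟩, h4⟩
    have hfin : (⋃ f ∈ F, S f q).Finite := by
      refine (box_finite g q).subset ?_
      intro h hh
      rw [Set.mem_iUnion₂] at hh
      obtain ⟨f, _, hh⟩ := hh
      exact hh.1
    have h1 : (CA g q H).ncard ≤ ∑ f ∈ F, (S f q).ncard :=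
      (Set.ncard_le_ncard hsub hfin).trans (Finset.set_ncard_biUnion_le F fun f => S f q)
    calc ((CA g q H).ncard : ℝ) ≤ ((∑ f ∈ F, (S f q).ncard : ℕ) : ℝ) := by exact_mod_cast h1
      _ = ∑ f ∈ F, ((S f q).ncard : ℝ) := by push_cast; rfl
      _ ≤ ∑ f ∈ F, K f * Real.sqrt q ^ g := by
        refine Finset.sum_le_sum fun f hf => ?_
        rw [hFdef, Finset.mem_filter, Set.Finite.mem_toFinset] at hf
        exact hK f hf.1 hf.2 q hq
      _ = T * Real.sqrt q ^ g := by rw [hT, Finset.sum_mul]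
  obtain ⟨N, hN⟩ := exists_nat_ge ((T / η) ^ 2)
  refine ⟨N + 1, fun q hq => ?_⟩
  have hq1 : 1 ≤ q := by omega
  have hs : T ≤ η * Real.sqrt q := by
    have h1 : (T / η) ^ 2 ≤ (q : ℝ) := by
      refine hN.trans ?_
      exact_mod_cast (by omega : N ≤ q)
    have h2 : |T / η| ≤ Real.sqrt q := Real.abs_le_sqrt h1
    have h3 : T / η ≤ Real.sqrt q := (le_abs_self _).trans h2
    rw [div_le_iff₀ hη] at h3
    linarith [h3, mul_comm (Real.sqrt q) η]
  calc ((CA g q H).ncard : ℝ) ≤ T * Real.sqrt q ^ g := hcount q hq1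
    _ ≤ (η * Real.sqrt q) * Real.sqrt q ^ g :=
      mul_le_mul_of_nonneg_right hs (by positivity)
    _ = η * (Real.sqrt q ^ g * Real.sqrt q) := by ring
    _ ≤ η * Lam g q := mul_le_mul_of_nonneg_left (CNA_lam hg hq1) hη.le

end

end Pool.Agent.TJ2
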