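import Pool.Agent.TJ2.Stmts2

/-!
# Theorem J, module CNB (MP_6c4da4_ag)

Case (b) is rare.
-/

open Polynomial IntermediateField

namespace Pool.Agent.TJ2

noncomputable section

/-- the bound for the coefficient `i` -/
def CNB_b (g q : ℕ) (R : ℝ) (i : ℕ) : ℝ := g.choose i * (R * Real.sqrt q) ^ (g - i)

/-- the box -/
def CNB_t (g q : ℕ) (R : ℝ) (D : Finset ℤ) : Finset (Fin g → ℤ) :=
  Fintype.piFinset fun i : Fin g =>
    if (i : ℕ) = 0 then D else Finset.Icc (-⌊CNB_b g q R i⌋) ⌊CNB_b g q R i⌋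

theorem CNB_one_le {g q i : ℕ} {R : ℝ} (hR : 1 ≤ R) (hq : 1 ≤ q) (hi : i ≤ g) :
    1 ≤ CNB_b g q R i := by
  unfold CNB_b
  have h1 : (1 : ℝ) ≤ g.choose i := by exact_mod_cast Nat.choose_pos hi
  have h2 : (1 : ℝ) ≤ Real.sqrt q := by
    rw [Real.one_le_sqrt]
    exact_mod_cast hq
  have h3 : (1 : ℝ) ≤ (R * Real.sqrt q) ^ (g - i) := one_le_pow₀ (by nlinarith)
  nlinarith

theorem CNB_card1 (g q : ℕ) (R : ℝ) (hR : 1 ≤ R) (hq : 1 ≤ q) (D : Finset ℤ) :
    ((CNB_t g q R D).card : ℝ) ≤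
      ∏ i : Fin g, if (i : ℕ) = 0 then (D.card : ℝ) else 3 * CNB_b g q R i := by
  unfold CNB_t
  rw [Fintype.card_piFinset]
  push_cast
  refine Finset.prod_le_prod (fun i _ => by positivity) fun i _ => ?_
  by_cases h0 : (i : ℕ) = 0
  · simp [h0]
  · simp only [h0, if_false, Int.card_Icc]
    have h1 := CNB_one_le (g := g) (q := q) (i := i) hR hq i.2.le
    have h2 : 0 ≤ ⌊CNB_b g q R i⌋ := Int.floor_nonneg.2 (by linarith)
    have h3 : ((⌊CNB_b g q R i⌋ + 1 - -⌊CNB_b g q R i⌋).toNat : ℝ) =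
        2 * (⌊CNB_b g q R i⌋ : ℝ) + 1 := by
      have : (((⌊CNB_b g q R i⌋ + 1 - -⌊CNB_b g q R i⌋).toNat : ℤ) : ℝ) =
          ((2 * ⌊CNB_b g q R i⌋ + 1 : ℤ) : ℝ) := by
        rw [Int.toNat_of_nonneg (by omega)]
        congr 1
        ring
      push_cast at this ⊢
      exact this
    rw [h3]
    have h4 := Int.floor_le (CNB_b g q R i)
    linarith

/-- the constant of the count -/
def CNB_K (m : ℕ) (R : ℝ) : ℝ :=
  ∏ i : Fin m, (3 * ((m + 1).choose (i + 1) : ℝ) * R ^ (m - (i : ℕ)))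

theorem CNB_card (m q : ℕ) (R : ℝ) (hR : 1 ≤ R) (hq : 1 ≤ q) (D : Finset ℤ) :
    ((CNB_t (m + 1) q R D).card : ℝ) * Real.sqrt q ^ (m + 1) ≤
      CNB_K m R * D.card * Lam (m + 1) q := by
  have h1 := CNB_card1 (m + 1) q R hR hq D
  have e1 : Lam (m + 1) q = Real.sqrt q ^ (m + 1) * ∏ i : Fin m, Real.sqrt q ^ (m - (i : ℕ)) := by
    unfold Lam
    rw [Finset.prod_range, Fin.prod_univ_succ]
    simp
  have e2 : (∏ i : Fin (m + 1), if (i : ℕ) = 0 then (D.card : ℝ) else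
      3 * CNB_b (m + 1) q R i) =
      D.card * (CNB_K m R * ∏ i : Fin m, Real.sqrt q ^ (m - (i : ℕ))) := by
    rw [Fin.prod_univ_succ, CNB_K, ← Finset.prod_mul_distrib]
    simp only [Fin.val_zero, if_true, Fin.val_succ]
    congr 1
    refine Finset.prod_congr rfl fun i _ => ?_
    rw [if_neg (by omega)]
    unfold CNB_b
    rw [show m + 1 - ((i : ℕ) + 1) = m - i by omega, mul_pow]
    ring
  rw [e2] at h1
  have h2 : 0 ≤ Real.sqrt q ^ (m + 1) := by positivity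
  calc ((CNB_t (m + 1) q R D).card : ℝ) * Real.sqrt q ^ (m + 1)
      ≤ (D.card * (CNB_K m R * ∏ i : Fin m, Real.sqrt q ^ (m - (i : ℕ)))) *
        Real.sqrt q ^ (m + 1) := mul_le_mul_of_nonneg_right h1 h2
    _ = CNB_K m R * D.card * Lam (m + 1) q := by rw [e1]; ring

theorem CNB_coeff {g : ℕ} {f : ℤ[X]} (hm : f.Monic) (hd : f.natDegree = g) {B : ℝ}
    (hB : ∀ z : ℂ, aeval z f = 0 → ‖z‖ ≤ B) (i : ℕ) :
    (|f.coeff i| : ℝ) ≤ g.choose i * B ^ (g - i) := by
  have hsp : (f.map (Int.castRingHom ℂ)).Splits := IsAlgClosed.splits _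
  have h4 : ∀ z ∈ (f.map (Int.castRingHom ℂ)).roots, ‖z‖ ≤ B := by
    intro z hz
    have hm0 : f.map (Int.castRingHom ℂ) ≠ 0 := (hm.map _).ne_zero
    rw [mem_roots hm0, IsRoot.def, eval_map] at hz
    exact hB z (by rw [aeval_def]; exact hz)
  have h5 := coeff_le_of_roots_le (B := B) i hm hsp h4
  rw [hd, coeff_map] at h5
  have h6 : ‖(Int.castRingHom ℂ) (f.coeff i)‖ = (|f.coeff i| : ℝ) := by
    rw [eq_intCast, Complex.norm_intCast]
  rw [h6] at h5
  rw [mul_comm]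
  exact_mod_cast h5

/-- a monic polynomial is determined by its coefficients below the degree -/
theorem CNB_ext {g : ℕ} {f f' : ℤ[X]} (hm : f.Monic) (hd : f.natDegree = g) (hm' : f'.Monic)
    (hd' : f'.natDegree = g) (h : ∀ i < g, f.coeff i = f'.coeff i) : f = f' := by
  ext i
  rcases lt_trichotomy i g with h1 | h1 | h1
  · exact h i h1
  · have e1 := hm.coeff_natDegree
    have e2 := hm'.coeff_natDegree
    rw [hd] at e1
    rw [hd'] at e2
    rw [h1, e1, e2]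
  · rw [coeff_eq_zero_of_natDegree_lt (by omega), coeff_eq_zero_of_natDegree_lt (by omega)]

/-- a monic integer polynomial is determined by its complex roots -/
theorem CNB_roots {h h' : ℤ[X]} (hm : h.Monic) (hm' : h'.Monic)
    (hr : h.aroots ℂ = h'.aroots ℂ) : h = h' := by
  have hinj : Function.Injective (algebraMap ℤ ℂ) := RingHom.injective_int _
  apply Polynomial.map_injective _ hinj
  have h1 := (IsAlgClosed.splits (h.map (algebraMap ℤ ℂ))).eq_prod_roots_of_monic (hm.map _)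
  have h2 := (IsAlgClosed.splits (h'.map (algebraMap ℤ ℂ))).eq_prod_roots_of_monic (hm'.map _)
  unfold aroots at hr
  rw [h1, h2, hr]

/-- positive and negative divisors -/
def CNB_D (g q M : ℕ) : Finset ℤ :=
  ((Nat.divisors ((4 * q * M) ^ g)).image fun d : ℕ => (d : ℤ)) ∪
    ((Nat.divisors ((4 * q * M) ^ g)).image fun d : ℕ => -(d : ℤ))

theorem CNB_D_card (g q M : ℕ) :
    (CNB_D g q M).card ≤ 2 * (Nat.divisors ((4 * q * M) ^ g)).card := by
  unfold CNB_D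
  refine (Finset.card_union_le _ _).trans ?_
  have h1 := Finset.card_image_le (s := Nat.divisors ((4 * q * M) ^ g)) (f := fun d : ℕ => (d : ℤ))
  have h2 := Finset.card_image_le (s := Nat.divisors ((4 * q * M) ^ g)) (f := fun d : ℕ => -(d : ℤ))
  omega

theorem CNB_D_mem {g q : ℕ} {n d : ℤ} (hq : 1 ≤ q) (hn : n ≠ 0) (hd : d ∣ (4 * q * n) ^ g) :
    d ∈ CNB_D g q n.natAbs := by
  have h1 : d.natAbs ∣ (4 * q * n.natAbs) ^ g := by
    have := Int.natAbs_dvd_natAbs.2 hd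
    rwa [Int.natAbs_pow, Int.natAbs_mul, Int.natAbs_mul, Int.natAbs_natCast] at this
  have h2 : d.natAbs ∈ Nat.divisors ((4 * q * n.natAbs) ^ g) := by
    rw [Nat.mem_divisors]
    refine ⟨h1, ?_⟩
    have : 0 < n.natAbs := Int.natAbs_pos.2 hn
    positivity
  unfold CNB_D
  rw [Finset.mem_union, Finset.mem_image, Finset.mem_image]
  rcases Int.natAbs_eq d with h3 | h3
  · left
    exact ⟨_, h2, h3.symm⟩
  · right
    exact ⟨_, h2, h3.symm⟩

/-- the pairs `(m, k)` -/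
def CNB_P (T : ℕ) (H : ℝ) : Finset (ℤ × ℤ) :=
  ((Finset.Icc (1 : ℤ) T) ×ˢ (Finset.Icc (-⌊H⌋) ⌊H⌋)).filter fun x => x.1 ^ 2 - x.2 ^ 2 ≠ 0

/-- all constant coefficients -/
def CNB_E (g q T : ℕ) (H : ℝ) : Finset ℤ :=
  (CNB_P T H).biUnion fun x => CNB_D g q (x.1 ^ 2 - x.2 ^ 2).natAbs

theorem CNB_count (m q T : ℕ) (H : ℝ) (hH : 0 ≤ H) (hq : 1 ≤ q) :
    ((CB (m + 1) q T H).ncard : ℝ) * Real.sqrt q ^ (m + 1) ≤
      (CNB_P T H).card * (CNB_K m (2 * (T + H) + 1) * (CNB_E (m + 1) q T H).card *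
        Lam (m + 1) q) := by
  classical
  set R : ℝ := 2 * (T + H) + 1 with hR
  have hR1 : 1 ≤ R := by
    have : (0 : ℝ) ≤ T := by positivity
    rw [hR]
    linarith
  set g := m + 1 with hg
  -- the codes
  have hcode : ∀ h : ℤ[X], ∃ c : (ℤ × ℤ) × (Fin g → ℤ), h ∈ CB g q T H →
      c ∈ (CNB_P T H) ×ˢ (CNB_t g q R (CNB_E g q T H)) ∧
      ∃ f : ℤ[X], f.Monic ∧ f.natDegree = g ∧ (∀ i : Fin g, f.coeff i = c.2 i) ∧
        h.aroots ℂ = (f.aroots ℂ).map
          (fun s => (4 * (q : ℂ) * ((c.1.1 : ℂ) ^ 2 - (c.1.2 : ℂ) ^ 2) / s - s) /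
            (2 * (c.1.2 : ℂ))) := by
    intro h
    by_cases hh : h ∈ CB g q T H
    · obtain ⟨_, a, k, f, ha1, haT, hk0, hkH, hak, hfm, hfd, hf0, hfdiv, hfr, hfa⟩ := hh
      refine ⟨((a, k), fun i => f.coeff i), fun _ => ⟨?_, f, hfm, hfd, fun i => rfl, hfa⟩⟩
      have hkH' : |k| ≤ ⌊H⌋ := Int.le_floor.2 (by push_cast; exact hkH)
      have hP : (a, k) ∈ CNB_P T H := by
        rw [CNB_P, Finset.mem_filter, Finset.mem_product, Finset.mem_Icc, Finset.mem_Icc]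
        exact ⟨⟨⟨ha1, haT⟩, abs_le.1 hkH'⟩, hak⟩
      rw [Finset.mem_product]
      refine ⟨hP, ?_⟩
      rw [CNB_t, Fintype.mem_piFinset]
      intro i
      change f.coeff i ∈ _
      by_cases hi : (i : ℕ) = 0
      · rw [if_pos hi, hi, CNB_E, Finset.mem_biUnion]
        exact ⟨_, hP, CNB_D_mem hq hak hfdiv⟩
      · rw [if_neg hi, Finset.mem_Icc]
        have h1 := CNB_coeff hfm hfd hfr i
        have h2 : (2 * ((a : ℝ) + |(k : ℝ)|) * Real.sqrt q) ≤ R * Real.sqrt q := by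
          apply mul_le_mul_of_nonneg_right _ (Real.sqrt_nonneg _)
          have : (a : ℝ) ≤ T := by exact_mod_cast haT
          rw [hR]
          linarith
        have h3 : 0 ≤ 2 * ((a : ℝ) + |(k : ℝ)|) * Real.sqrt q := by
          have : (0 : ℝ) ≤ a := by exact_mod_cast (by omega : (0 : ℤ) ≤ a)
          positivity
        have h4 : ((|f.coeff i| : ℤ) : ℝ) ≤ CNB_b g q R i := by
          unfold CNB_b
          push_cast
          refine h1.trans ?_
          exact mul_le_mul_of_nonneg_left (pow_le_pow_left₀ h3 h2 _) (by positivity)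
        exact abs_le.1 (Int.le_floor.2 h4)
    · exact ⟨((0, 0), 0), fun H => absurd H hh⟩
  choose c hc using hcode
  have hinj : Set.InjOn c (CB g q T H) := by
    intro h hh h' hh' hcc
    obtain ⟨_, f, hfm, hfd, hfc, hfa⟩ := hc h hh
    obtain ⟨_, f', hfm', hfd', hfc', hfa'⟩ := hc h' hh'
    rw [← hcc] at hfc' hfa'
    have hff : f = f' := by
      apply CNB_ext hfm hfd hfm' hfd'
      intro i hi
      exact (hfc ⟨i, hi⟩).trans (hfc' ⟨i, hi⟩).symm
    rw [← hff] at hfa'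
    exact CNB_roots hh.1.1 hh'.1.1 (hfa.trans hfa'.symm)
  have hcard : (CB g q T H).ncard ≤
      ((CNB_P T H) ×ˢ (CNB_t g q R (CNB_E g q T H))).card := by
    rw [← Set.ncard_coe_finset]
    exact Set.ncard_le_ncard_of_injOn c (fun h hh => by simpa using (hc h hh).1) hinj
      (Finset.finite_toSet _)
  have h1 : ((CB g q T H).ncard : ℝ) ≤
      (CNB_P T H).card * (CNB_t g q R (CNB_E g q T H)).card := by
    rw [Finset.card_product] at hcard
    exact_mod_cast hcard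
  have h2 := CNB_card m q R hR1 hq (CNB_E g q T H)
  have h3 : 0 ≤ Real.sqrt q ^ g := by positivity
  calc ((CB g q T H).ncard : ℝ) * Real.sqrt q ^ g
      ≤ ((CNB_P T H).card * (CNB_t g q R (CNB_E g q T H)).card) * Real.sqrt q ^ g :=
        mul_le_mul_of_nonneg_right h1 h3
    _ = (CNB_P T H).card * ((CNB_t g q R (CNB_E g q T H)).card * Real.sqrt q ^ g) := by ring
    _ ≤ _ := mul_le_mul_of_nonneg_left h2 (by positivity)

theorem CNB_E_card (hDIV : S_DIV) (g T : ℕ) (H : ℝ) :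
    ∃ K : ℝ, 0 ≤ K ∧ ∀ q : ℕ, IsPrimePow q →
      ((CNB_E g q T H).card : ℝ) ≤ K * (Real.log q + 1) := by
  classical
  have h1 : ∀ x : ℤ × ℤ, ∃ K : ℝ, x ∈ CNB_P T H → ∀ q : ℕ, IsPrimePow q →
      ((Nat.divisors ((4 * q * (x.1 ^ 2 - x.2 ^ 2).natAbs) ^ g)).card : ℝ) ≤
        K * (Real.log q + 1) := by
    intro x
    by_cases hx : x ∈ CNB_P T H
    · have hx2 : x.1 ^ 2 - x.2 ^ 2 ≠ 0 := by
        rw [CNB_P, Finset.mem_filter] at hx
        exact hx.2
      obtain ⟨K, hK⟩ := hDIV g (x.1 ^ 2 - x.2 ^ 2).natAbs (Int.natAbs_pos.2 hx2)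
      exact ⟨K, fun _ => hK⟩
    · exact ⟨0, fun H => absurd H hx⟩
  choose K hK using h1
  refine ⟨∑ x ∈ CNB_P T H, 2 * |K x|, Finset.sum_nonneg fun x _ => by positivity, ?_⟩
  intro q hq
  have hq1 : (1 : ℝ) ≤ q := by exact_mod_cast hq.one_lt.le
  have hlog : 0 ≤ Real.log q := Real.log_nonneg hq1
  have h2 : (CNB_E g q T H).card ≤
      ∑ x ∈ CNB_P T H, (CNB_D g q (x.1 ^ 2 - x.2 ^ 2).natAbs).card := Finset.card_biUnion_le
  calc ((CNB_E g q T H).card : ℝ)
      ≤ ((∑ x ∈ CNB_P T H, (CNB_D g q (x.1 ^ 2 - x.2 ^ 2).natAbs).card : ℕ) : ℝ) := by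
        exact_mod_cast h2
    _ = ∑ x ∈ CNB_P T H, ((CNB_D g q (x.1 ^ 2 - x.2 ^ 2).natAbs).card : ℝ) := by push_cast; rfl
    _ ≤ ∑ x ∈ CNB_P T H, (2 * |K x|) * (Real.log q + 1) := by
        apply Finset.sum_le_sum
        intro x hx
        have h3 := CNB_D_card g q (x.1 ^ 2 - x.2 ^ 2).natAbs
        have h4 := hK x hx q hq
        have h5 : K x * (Real.log q + 1) ≤ |K x| * (Real.log q + 1) :=
          mul_le_mul_of_nonneg_right (le_abs_self _) (by linarith)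
        calc ((CNB_D g q (x.1 ^ 2 - x.2 ^ 2).natAbs).card : ℝ)
            ≤ ((2 * (Nat.divisors ((4 * q * (x.1 ^ 2 - x.2 ^ 2).natAbs) ^ g)).card : ℕ) : ℝ) := by
              exact_mod_cast h3
          _ = 2 * ((Nat.divisors ((4 * q * (x.1 ^ 2 - x.2 ^ 2).natAbs) ^ g)).card : ℝ) := by
              push_cast; rfl
          _ ≤ (2 * |K x|) * (Real.log q + 1) := by linarith
    _ = _ := by rw [Finset.sum_mul]

theorem t_CNB (hDIV : S_DIV) : S_CNB := by
  intro g hg T H hH η hη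
  obtain ⟨m, rfl⟩ : ∃ m, g = m + 1 := ⟨g - 1, by omega⟩
  obtain ⟨K, hK0, hK⟩ := CNB_E_card hDIV (m + 1) T H
  set Cc : ℝ := (CNB_P T H).card * (CNB_K m (2 * (T + H) + 1) * K) with hC
  have hKm : 0 ≤ CNB_K m (2 * (T + H) + 1) := by
    unfold CNB_K
    exact Finset.prod_nonneg fun i _ => by positivity
  have hC0 : 0 ≤ Cc := by positivity
  refine ⟨⌈(5 * Cc / η) ^ 4⌉₊ + 1, fun q hq hqp => ?_⟩
  have hq1 : 1 ≤ q := hqp.one_lt.le
  have hqr : (1 : ℝ) ≤ q := by exact_mod_cast hq1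
  set s : ℝ := Real.sqrt (Real.sqrt q) with hs
  have hs2 : s ^ 2 = Real.sqrt q := Real.sq_sqrt (Real.sqrt_nonneg _)
  have hs4 : s ^ 4 = q := by
    have : s ^ 4 = (s ^ 2) ^ 2 := by ring
    rw [this, hs2, Real.sq_sqrt (by linarith)]
  have hsq1 : 1 ≤ Real.sqrt q := by rw [Real.one_le_sqrt]; exact hqr
  have hs1 : 1 ≤ s := by rw [hs, Real.one_le_sqrt]; exact hsq1
  have hlog : Real.log q + 1 ≤ 5 * s := by
    rw [← hs4, Real.log_pow]
    have := Real.log_le_self (by linarith : (0 : ℝ) ≤ s)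
    push_cast
    linarith
  have hcs : 5 * Cc / η ≤ s := by
    have h1 : (5 * Cc / η) ^ 4 ≤ s ^ 4 := by
      rw [hs4]
      refine (Nat.le_ceil _).trans ?_
      exact_mod_cast (by omega : ⌈(5 * Cc / η) ^ 4⌉₊ ≤ q)
    exact le_of_pow_le_pow_left₀ (by norm_num) (by linarith) h1
  have hLam : 0 ≤ Lam (m + 1) q := by
    unfold Lam
    exact Finset.prod_nonneg fun i _ => by positivity
  have h1 := CNB_count m q T H hH hq1
  have h2 := hK q hqp
  have h3 : ((CB (m + 1) q T H).ncard : ℝ) * s ^ 2 ≤ 5 * Cc * s * Lam (m + 1) q := by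
    have h4 : s ^ 2 ≤ Real.sqrt q ^ (m + 1) := by
      rw [hs2]
      calc Real.sqrt q = Real.sqrt q ^ 1 := (pow_one _).symm
        _ ≤ _ := pow_le_pow_right₀ hsq1 (by omega)
    calc ((CB (m + 1) q T H).ncard : ℝ) * s ^ 2
        ≤ ((CB (m + 1) q T H).ncard : ℝ) * Real.sqrt q ^ (m + 1) :=
          mul_le_mul_of_nonneg_left h4 (by positivity)
      _ ≤ _ := h1
      _ ≤ (CNB_P T H).card * (CNB_K m (2 * (T + H) + 1) * (K * (5 * s)) *
            Lam (m + 1) q) := by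
          apply mul_le_mul_of_nonneg_left _ (by positivity)
          apply mul_le_mul_of_nonneg_right _ hLam
          apply mul_le_mul_of_nonneg_left _ hKm
          exact h2.trans (mul_le_mul_of_nonneg_left hlog hK0)
      _ = 5 * Cc * s * Lam (m + 1) q := by rw [hC]; ring
  have h5 : 5 * Cc ≤ η * s := by
    rw [div_le_iff₀ hη] at hcs
    linarith
  have hs0 : 0 < s := by linarith
  have h6 : ((CB (m + 1) q T H).ncard : ℝ) * s ^ 2 ≤ (η * Lam (m + 1) q) * s ^ 2 := by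
    calc ((CB (m + 1) q T H).ncard : ℝ) * s ^ 2 ≤ 5 * Cc * s * Lam (m + 1) q := h3
      _ ≤ η * s * s * Lam (m + 1) q := by
          apply mul_le_mul_of_nonneg_right _ hLam
          exact mul_le_mul_of_nonneg_right h5 hs0.le
      _ = (η * Lam (m + 1) q) * s ^ 2 := by ring
  exact le_of_mul_le_mul_right h6 (by positivity)

end

end Pool.Agent.TJ2
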