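import Pool.Agent.TJ2.Stmts2

/-!
# CNF: the count for one polynomial `f`, case (a)
-/

open Polynomial

namespace Pool.Agent.TJ2

noncomputable section

lemma cnf_monic_eq (h h' : ℤ[X]) (hm : h.Monic) (hm' : h'.Monic)
    (e : h.aroots ℂ = h'.aroots ℂ) : h = h' := by
  have hinj : Function.Injective (algebraMap ℤ ℂ) := RingHom.injective_int _
  apply map_injective (algebraMap ℤ ℂ) hinj
  rw [(IsAlgClosed.splits (h.map (algebraMap ℤ ℂ))).eq_prod_roots_of_monic (hm.map _),
    (IsAlgClosed.splits (h'.map (algebraMap ℤ ℂ))).eq_prod_roots_of_monic (hm'.map _)]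
  have e' : (h.map (algebraMap ℤ ℂ)).roots = (h'.map (algebraMap ℤ ℂ)).roots := e
  rw [e']

lemma cnf_zero (s : Finset ℂ) (w : ℂ → ℂ)
    (hw : ∀ i < s.card, ∑ z ∈ s, z ^ i * w z = 0) : ∀ z ∈ s, w z = 0 := by
  classical
  intro z0 hz0
  let P : ℂ[X] := Lagrange.basis s id z0
  have hpos : 0 < s.card := Finset.card_pos.2 ⟨z0, hz0⟩
  have hd : P.natDegree < s.card := by
    have h1 : P.degree = ((s.card - 1 : ℕ) : WithBot ℕ) :=
      Lagrange.degree_basis (Set.injOn_id _) hz0
    have h2 : P.natDegree = s.card - 1 := natDegree_eq_of_degree_eq_some h1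
    omega
  have h1 : ∑ z ∈ s, P.eval z * w z = 0 := by
    have h2 : ∀ z ∈ s, P.eval z * w z =
        ∑ i ∈ Finset.range s.card, P.coeff i * (z ^ i * w z) := by
      intro z _
      rw [eval_eq_sum_range' hd, Finset.sum_mul]
      refine Finset.sum_congr rfl fun i _ => ?_
      ring
    rw [Finset.sum_congr rfl h2, Finset.sum_comm]
    refine Finset.sum_eq_zero fun i hi => ?_
    rw [← Finset.mul_sum, hw i (Finset.mem_range.1 hi), mul_zero]
  rw [Finset.sum_eq_single z0] at h1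
  · have h3 : P.eval z0 = 1 := Lagrange.eval_basis_self (v := id) (Set.injOn_id _) hz0
    rwa [h3, one_mul] at h1
  · intro z hz hne
    have h3 : P.eval z = 0 := Lagrange.eval_basis_of_ne (v := id) hne.symm hz
    rw [h3, zero_mul]
  · intro h
    exact absurd hz0 h

theorem t_CNF : S_CNF := by
  classical
  intro g H f hg hH hfm hfd hnd hfH
  let s : Finset ℂ := (f.aroots ℂ).toFinset
  have hval : s.val = f.aroots ℂ := by
    change (f.aroots ℂ).toFinset.val = _
    rw [Multiset.toFinset_val, Multiset.dedup_eq_self.2 hnd]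
  have hsum : ∀ F : ℂ → ℂ, ((f.aroots ℂ).map F).sum = ∑ z ∈ s, F z := by
    intro F
    rw [← hval]
    rfl
  have hcard : s.card = g := by
    have h1 : Multiset.card (f.aroots ℂ) = (f.map (algebraMap ℤ ℂ)).natDegree :=
      (IsAlgClosed.splits (f.map (algebraMap ℤ ℂ))).natDegree_eq_card_roots.symm
    change Multiset.card s.val = g
    rw [hval, h1, hfm.natDegree_map, hfd]
  have hroot : ∀ z ∈ s, aeval z f = 0 := by
    intro z hz
    have h1 : z ∈ f.aroots ℂ := by
      rw [← hval]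
      exact hz
    exact (mem_aroots.1 h1).2
  let H' : ℝ := max 1 H
  have hH1 : 1 ≤ H' := le_max_left _ _
  refine ⟨(4 * (g * H' ^ g) + 1) ^ g, ?_⟩
  intro q hq
  set S : Set ℤ[X] := {h | h ∈ RW g q ∧ ∃ u : ℚ[X], u.degree < g ∧
        (∀ i : ℕ, i < g → ∃ t : ℤ,
          ((f.aroots ℂ).map (fun z => z ^ i * aeval z u)).sum = (t : ℂ)) ∧
        h.aroots ℂ = (f.aroots ℂ).map (fun z => aeval z u)} with hS
  have hsq : 1 ≤ Real.sqrt q := by
    rw [Real.one_le_sqrt]
    exact_mod_cast hq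
  let B : ℝ := 2 * (g * H' ^ g) * Real.sqrt q
  have hB0 : 0 ≤ B := by positivity
  let N : ℕ := ⌊B⌋₊
  have hch : ∀ h : ℤ[X], ∃ t : Fin g → ℤ, h ∈ S → ∃ u : ℚ[X],
      (∀ i : Fin g, ((f.aroots ℂ).map (fun z => z ^ (i : ℕ) * aeval z u)).sum = (t i : ℂ)) ∧
      h.aroots ℂ = (f.aroots ℂ).map (fun z => aeval z u) := by
    intro h
    by_cases hh : h ∈ S
    · obtain ⟨-, u, -, h2, h3⟩ := hh
      choose t ht using fun i : Fin g => h2 i i.2
      exact ⟨t, fun _ => ⟨u, ht, h3⟩⟩
    · exact ⟨0, fun h' => absurd h' hh⟩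
  choose t ht using hch
  let T : Finset (Fin g → ℤ) := Fintype.piFinset fun _ => Finset.Icc (-(N : ℤ)) N
  have hT : ∀ h ∈ S, t h ∈ (T : Set (Fin g → ℤ)) := by
    intro h hh
    obtain ⟨u, h1, h2⟩ := ht h hh
    change t h ∈ T
    rw [Fintype.mem_piFinset]
    intro i
    have hu : ∀ z ∈ s, ‖aeval z u‖ ≤ 2 * Real.sqrt q := by
      intro z hz
      have h3 : aeval z u ∈ h.aroots ℂ := by
        rw [h2, ← hval]
        exact Multiset.mem_map_of_mem _ hz
      obtain ⟨h4, h5⟩ := hh.1.2.2 _ (mem_aroots.1 h3).2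
      rw [← Complex.abs_re_eq_norm.2 h4]
      exact h5
    have hz : ∀ z ∈ s, ‖z ^ (i : ℕ) * aeval z u‖ ≤ H' ^ g * (2 * Real.sqrt q) := by
      intro z hz
      rw [norm_mul, norm_pow]
      apply mul_le_mul _ (hu z hz) (norm_nonneg _) (by positivity)
      calc ‖z‖ ^ (i : ℕ) ≤ H' ^ (i : ℕ) :=
            pow_le_pow_left₀ (norm_nonneg _) ((hfH z (hroot z hz)).trans (le_max_right _ _)) _
        _ ≤ H' ^ g := pow_le_pow_right₀ hH1 i.2.le
    have h6 : ‖((t h i : ℤ) : ℂ)‖ ≤ B := by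
      rw [← h1 i, hsum]
      refine (norm_sum_le_of_le s hz).trans (le_of_eq ?_)
      rw [Finset.sum_const, hcard, nsmul_eq_mul]
      ring
    have h7 : |((t h i : ℤ) : ℝ)| ≤ B := by
      rw [Complex.norm_intCast] at h6
      exact h6
    have h8 : (t h i).natAbs ≤ N := by
      apply Nat.le_floor
      rw [Nat.cast_natAbs]
      push_cast
      exact h7
    rw [Finset.mem_Icc]
    omega
  have hinj : Set.InjOn t S := by
    intro h hh h' hh' e
    obtain ⟨u, h1, h2⟩ := ht h hh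
    obtain ⟨u', h1', h2'⟩ := ht h' hh'
    have h3 : ∀ z ∈ s, aeval z u - aeval z u' = 0 := by
      apply cnf_zero s fun z => aeval z u - aeval z u'
      intro i hi
      rw [hcard] at hi
      have e1 := h1 ⟨i, hi⟩
      have e2 := h1' ⟨i, hi⟩
      rw [hsum] at e1 e2
      have e3 : ∑ z ∈ s, z ^ i * (aeval z u - aeval z u') =
          ∑ z ∈ s, z ^ i * aeval z u - ∑ z ∈ s, z ^ i * aeval z u' := by
        rw [← Finset.sum_sub_distrib]
        refine Finset.sum_congr rfl fun z _ => ?_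
        ring
      rw [e3, e1, e2, e, sub_self]
    apply cnf_monic_eq h h' hh.1.1 hh'.1.1
    rw [h2, h2', ← hval]
    apply Multiset.map_congr rfl
    intro z hz
    exact sub_eq_zero.1 (h3 z hz)
  have hcount : S.ncard ≤ (2 * N + 1) ^ g := by
    have h1 := Set.ncard_le_ncard_of_injOn t hT hinj (Finset.finite_toSet T)
    rw [Set.ncard_coe_finset] at h1
    refine h1.trans (le_of_eq ?_)
    change (Fintype.piFinset fun _ : Fin g => Finset.Icc (-(N : ℤ)) N).card = _
    rw [Fintype.card_piFinset, Finset.prod_const, Finset.card_univ, Fintype.card_fin,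
      Int.card_Icc]
    congr 1
    omega
  have hN : (N : ℝ) ≤ B := Nat.floor_le hB0
  calc (S.ncard : ℝ) ≤ (((2 * N + 1) ^ g : ℕ) : ℝ) := by exact_mod_cast hcount
    _ = (2 * (N : ℝ) + 1) ^ g := by push_cast; ring
    _ ≤ ((4 * (g * H' ^ g) + 1) * Real.sqrt q) ^ g := by
        apply pow_le_pow_left₀ (by positivity)
        have h1 : 2 * B + 1 ≤ (4 * (g * H' ^ g) + 1) * Real.sqrt q := by
          change 2 * (2 * (g * H' ^ g) * Real.sqrt q) + 1 ≤ _
          nlinarith
        linarith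
    _ = (4 * (g * H' ^ g) + 1) ^ g * Real.sqrt q ^ g := mul_pow _ _ _

end

end Pool.Agent.TJ2
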