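import Pool.Agent.TJ2.Stmts

/-!
# Theorem J, module CRT: the Chinese remainder count (MP_6c4da4_ag)
-/

open Polynomial IntermediateField

namespace Pool.Agent.TJ2

noncomputable section

theorem CRT_int (m : ℕ) (hm : 1 ≤ m) (R : ℝ) (hR : (m : ℝ) ≤ R) (Y : Finset ℤ)
    (h1 : ∀ x ∈ Y, |(x : ℝ)| ≤ R) (h2 : ∀ x ∈ Y, ∀ y ∈ Y, (m : ℤ) ∣ x - y) :
    (Y.card : ℝ) ≤ 5 * R / m := by
  have hm0 : (0 : ℝ) < m := by exact_mod_cast hm
  rcases Y.eq_empty_or_nonempty with rfl | ⟨x₀, hx₀⟩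
  · have : 0 ≤ R := hm0.le.trans hR
    simp only [Finset.card_empty, Nat.cast_zero]
    positivity
  · have hB : 0 ≤ ⌊2 * R / m⌋ := Int.floor_nonneg.2 (by
      have : 0 ≤ R := hm0.le.trans hR
      positivity)
    have hle : Y.card ≤ (Finset.Icc (-⌊2 * R / m⌋) ⌊2 * R / m⌋).card := by
      refine Finset.card_le_card_of_injOn (fun x => (x - x₀) / m) ?_ ?_
      · intro x hx
        obtain ⟨t, ht⟩ := h2 x hx x₀ hx₀
        have hmz : (m : ℤ) ≠ 0 := by
          have : m ≠ 0 := by omega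
          exact_mod_cast this
        have e1 : (x - x₀) / (m : ℤ) = t := by
          rw [ht, Int.mul_ediv_cancel_left _ hmz]
        have e2 : (m : ℝ) * t = x - x₀ := by exact_mod_cast ht.symm
        have a1 := abs_le.1 (h1 x hx)
        have a2 := abs_le.1 (h1 x₀ hx₀)
        show (x - x₀) / (m : ℤ) ∈ (Finset.Icc (-⌊2 * R / m⌋) ⌊2 * R / m⌋ : Set ℤ)
        rw [e1, Finset.coe_Icc, Set.mem_Icc]
        constructor
        · have : -t ≤ ⌊2 * R / m⌋ := by
            rw [Int.le_floor, le_div_iff₀ hm0]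
            push_cast
            linarith [a1.1, a1.2, a2.1, a2.2]
          linarith
        · rw [Int.le_floor, le_div_iff₀ hm0]
          linarith [a1.1, a1.2, a2.1, a2.2]
      · intro x hx y hy hxy
        have hx' := Int.ediv_mul_cancel (h2 x hx x₀ hx₀)
        have hy' := Int.ediv_mul_cancel (h2 y hy x₀ hx₀)
        have hxy' : (x - x₀) / (m : ℤ) = (y - x₀) / (m : ℤ) := hxy
        rw [hxy', hy'] at hx'
        linarith
    rw [Int.card_Icc] at hle
    have hle2 : (Y.card : ℤ) ≤ 2 * ⌊2 * R / m⌋ + 1 := by omega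
    have hle3 : (Y.card : ℝ) ≤ 2 * (⌊2 * R / m⌋ : ℝ) + 1 := by exact_mod_cast hle2
    have hfl := Int.floor_le (2 * R / m)
    have h1R : 1 ≤ R / m := by rwa [le_div_iff₀ hm0, one_mul]
    have e : 5 * R / m = 2 * (2 * R / m) + R / m := by ring
    rw [e]
    linarith

theorem CRT_div (P : Finset ℕ) (hP : ∀ l ∈ P, l.Prime) (x y : ℤ)
    (h : ∀ l ∈ P, (x : ZMod l) = (y : ZMod l)) : ((∏ l ∈ P, l : ℕ) : ℤ) ∣ x - y := by
  rw [Nat.cast_prod]
  refine Finset.prod_dvd_of_coprime ?_ ?_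
  · intro l hl l' hl' hne
    exact Nat.isCoprime_iff_coprime.2 ((Nat.coprime_primes (hP l hl) (hP l' hl')).2 hne)
  · intro l hl
    have := (ZMod.intCast_eq_intCast_iff_dvd_sub y x l).1 (h l hl).symm
    exact this

theorem CRT_ext {g q : ℕ} {h h' : ℤ[X]} (hh : h ∈ RW g q) (hh' : h' ∈ RW g q)
    (he : ∀ i : Fin g, h.coeff i = h'.coeff i) : h = h' := by
  ext n
  rcases lt_trichotomy n g with hn | hn | hn
  · exact he ⟨n, hn⟩
  · have h1 : h.coeff n = 1 := by
      rw [hn, ← hh.2.1]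
      exact hh.1
    have h2 : h'.coeff n = 1 := by
      rw [hn, ← hh'.2.1]
      exact hh'.1
    rw [h1, h2]
  · rw [coeff_eq_zero_of_natDegree_lt (by rw [hh.2.1]; exact hn),
      coeff_eq_zero_of_natDegree_lt (by rw [hh'.2.1]; exact hn)]

theorem t_CRT (hBOX : S_BOX) : S_CRT := by
  classical
  intro g hg
  refine ⟨∏ i ∈ Finset.range g, (5 * (g.choose i : ℝ) * 2 ^ (g - i)), ?_, fun M => ⟨M ^ 2 + 1, ?_⟩⟩
  · refine Finset.prod_pos fun i hi => ?_
    have : 0 < g.choose i := Nat.choose_pos (Finset.mem_range.1 hi).le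
    positivity
  intro q hq P hP hPM c hc0 hc1 A hA
  obtain ⟨hfin, hbox⟩ := hBOX g q
  have hm1 : 1 ≤ ∏ l ∈ P, l := Nat.one_le_iff_ne_zero.2 (Finset.prod_ne_zero_iff.2 fun l hl => (hP l hl).ne_zero)
  have hdiv := CRT_div P hP
  have hprod : (∏ l ∈ P, ((1 - c) * (l : ℝ) ^ g)) = (1 - c) ^ P.card * ((∏ l ∈ P, l : ℕ) : ℝ) ^ g := by
    rw [Finset.prod_mul_distrib, Finset.prod_const, Finset.prod_pow, Nat.cast_prod]
  generalize (∏ l ∈ P, l) = m at hPM hm1 hdiv hprod
  have hm0 : (0 : ℝ) < m := by exact_mod_cast hm1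
  have hSfin : {h | h ∈ RW g q ∧ ∀ l ∈ P, (fun i : Fin g => ((h.coeff i : ℤ) : ZMod l)) ∈ A l}.Finite :=
    hfin.subset fun h hh => hh.1
  rw [Set.ncard_eq_toFinset_card _ hSfin]
  have hAf : ∀ l ∈ P, (A l).Finite := by
    intro l hl
    have : NeZero l := ⟨(hP l hl).ne_zero⟩
    exact Set.toFinite _
  let t : (l : ℕ) → Finset (Fin g → ZMod l) := fun l => if h : (A l).Finite then h.toFinset else ∅
  have ht : ∀ l ∈ P, ∀ v, v ∈ A l → v ∈ t l := by
    intro l hl v hv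
    show v ∈ (if h : (A l).Finite then h.toFinset else ∅)
    rw [dif_pos (hAf l hl)]
    exact (hAf l hl).mem_toFinset.2 hv
  have htc : ∀ l ∈ P, ((t l).card : ℝ) ≤ (1 - c) * (l : ℝ) ^ g := by
    intro l hl
    refine le_trans (le_of_eq ?_) (hA l hl)
    rw [Set.ncard_eq_toFinset_card _ (hAf l hl)]
    congr 2
    exact dif_pos (hAf l hl)
  let ρ : ℤ[X] → (l : ℕ) → l ∈ P → (Fin g → ZMod l) := fun h l _ i => ((h.coeff i : ℤ) : ZMod l)
  have hρ : ∀ h ∈ hSfin.toFinset, ρ h ∈ P.pi t := by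
    intro h hh
    rw [Finset.mem_pi]
    intro l hl
    exact ht l hl _ ((hSfin.mem_toFinset.1 hh).2 l hl)
  set R : Fin g → ℝ := fun i => (g.choose i : ℝ) * (2 * Real.sqrt q) ^ (g - (i : ℕ)) with hRdef
  have hsq : (m : ℝ) ≤ 2 * Real.sqrt q := by
    have h1 : (M : ℝ) ≤ Real.sqrt q := by
      apply Real.le_sqrt_of_sq_le
      have : M ^ 2 ≤ q := by omega
      exact_mod_cast this
    have h2 : (m : ℝ) ≤ M := by exact_mod_cast hPM
    have h3 : 0 ≤ Real.sqrt q := Real.sqrt_nonneg _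
    linarith
  have hR : ∀ i, (m : ℝ) ≤ R i := by
    intro i
    have hi := i.2
    have h1 : (1 : ℝ) ≤ g.choose i := by
      have : 1 ≤ g.choose i := Nat.choose_pos hi.le
      exact_mod_cast this
    have h2 : (1 : ℝ) ≤ 2 * Real.sqrt q := by
      have : (1 : ℝ) ≤ m := by exact_mod_cast hm1
      linarith
    have h3 : 2 * Real.sqrt q ≤ (2 * Real.sqrt q) ^ (g - (i : ℕ)) := by
      have h4 : 2 * Real.sqrt q = (2 * Real.sqrt q) ^ 1 := (pow_one _).symm
      calc 2 * Real.sqrt q = (2 * Real.sqrt q) ^ 1 := h4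
        _ ≤ _ := pow_le_pow_right₀ h2 (by omega)
    calc (m : ℝ) ≤ 2 * Real.sqrt q := hsq
      _ ≤ (2 * Real.sqrt q) ^ (g - (i : ℕ)) := h3
      _ = 1 * (2 * Real.sqrt q) ^ (g - (i : ℕ)) := (one_mul _).symm
      _ ≤ _ := mul_le_mul_of_nonneg_right h1 (by positivity)
  have hfib : ∀ b ∈ P.pi t, ((hSfin.toFinset.filter fun h => ρ h = b).card : ℝ) ≤ ∏ i, (5 * R i / m) := by
    intro b _
    let Y : Fin g → Finset ℤ := fun i => (Finset.Icc (-⌊R i⌋) ⌊R i⌋).filter fun x =>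
      ∀ l (hl : l ∈ P), (x : ZMod l) = b l hl i
    have hY : ∀ i, ((Y i).card : ℝ) ≤ 5 * R i / m := by
      intro i
      refine CRT_int m hm1 (R i) (hR i) (Y i) ?_ ?_
      · intro x hx
        have h1 := Finset.mem_Icc.1 (Finset.mem_filter.1 hx).1
        have h2 := Int.floor_le (R i)
        have h3 : (-(⌊R i⌋ : ℝ)) ≤ x := by exact_mod_cast h1.1
        have h4 : (x : ℝ) ≤ ⌊R i⌋ := by exact_mod_cast h1.2
        exact abs_le.2 ⟨by linarith, by linarith⟩
      · intro x hx y hy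
        refine hdiv x y fun l hl => ?_
        rw [(Finset.mem_filter.1 hx).2 l hl, (Finset.mem_filter.1 hy).2 l hl]
    have hle : (hSfin.toFinset.filter fun h => ρ h = b).card ≤ (Fintype.piFinset Y).card := by
      refine Finset.card_le_card_of_injOn (fun h i => h.coeff i) ?_ ?_
      · intro h hh
        rw [Finset.mem_coe, Finset.mem_filter] at hh
        obtain ⟨h1, h2⟩ := hh
        have h3 := (hSfin.mem_toFinset.1 h1).1
        rw [Finset.mem_coe, Fintype.mem_piFinset]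
        intro i
        rw [Finset.mem_filter, Finset.mem_Icc]
        have h4 := abs_le.1 (hbox h h3 i i.2.le)
        refine ⟨⟨?_, ?_⟩, fun l hl => ?_⟩
        · have : -h.coeff i ≤ ⌊R i⌋ := by
            rw [Int.le_floor]
            push_cast
            have := h4.1
            show -(h.coeff i : ℝ) ≤ (g.choose i : ℝ) * (2 * Real.sqrt q) ^ (g - (i : ℕ))
            linarith
          linarith
        · rw [Int.le_floor]
          exact h4.2
        · rw [← h2]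
      · intro h hh h' hh' he
        rw [Finset.mem_coe, Finset.mem_filter] at hh hh'
        exact CRT_ext (hSfin.mem_toFinset.1 hh.1).1 (hSfin.mem_toFinset.1 hh'.1).1 fun i => congrFun he i
    rw [Fintype.card_piFinset] at hle
    calc ((hSfin.toFinset.filter fun h => ρ h = b).card : ℝ) ≤ ((∏ i, (Y i).card : ℕ) : ℝ) := by exact_mod_cast hle
      _ = ∏ i, ((Y i).card : ℝ) := Nat.cast_prod _ _
      _ ≤ _ := Finset.prod_le_prod (fun i _ => Nat.cast_nonneg _) fun i _ => hY i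
  have hKL : (∏ i, (5 * R i / m)) * (m : ℝ) ^ g =
      (∏ i ∈ Finset.range g, (5 * (g.choose i : ℝ) * 2 ^ (g - i))) * Lam g q := by
    have e1 : (m : ℝ) ^ g = ∏ _i : Fin g, (m : ℝ) := by
      rw [Finset.prod_const, Finset.card_univ, Fintype.card_fin]
    rw [e1, ← Finset.prod_mul_distrib]
    unfold Lam
    rw [← Finset.prod_mul_distrib, ← Fin.prod_univ_eq_prod_range
      (fun i => (5 * (g.choose i : ℝ) * 2 ^ (g - i)) * Real.sqrt q ^ (g - i)) g]
    refine Finset.prod_congr rfl fun i _ => ?_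
    rw [div_mul_cancel₀ _ hm0.ne', hRdef]
    simp only
    rw [mul_pow]
    ring
  have hconst : 0 ≤ ∏ i, (5 * R i / m) := Finset.prod_nonneg fun i _ => by
    have := hm0.le.trans (hR i)
    positivity
  have hFc : (((P.pi t).card : ℕ) : ℝ) ≤ (1 - c) ^ P.card * (m : ℝ) ^ g := by
    rw [← hprod, Finset.card_pi, Nat.cast_prod]
    exact Finset.prod_le_prod (fun i _ => Nat.cast_nonneg _) htc
  calc ((hSfin.toFinset).card : ℝ) = ((∑ b ∈ P.pi t, (hSfin.toFinset.filter fun h => ρ h = b).card : ℕ) : ℝ) := by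
        rw [Finset.card_eq_sum_card_fiberwise hρ]
    _ = ∑ b ∈ P.pi t, ((hSfin.toFinset.filter fun h => ρ h = b).card : ℝ) := Nat.cast_sum _ _
    _ ≤ ∑ _b ∈ P.pi t, ∏ i, (5 * R i / m) := Finset.sum_le_sum hfib
    _ = ((P.pi t).card : ℝ) * ∏ i, (5 * R i / m) := by rw [Finset.sum_const, nsmul_eq_mul]
    _ ≤ ((1 - c) ^ P.card * (m : ℝ) ^ g) * ∏ i, (5 * R i / m) := mul_le_mul_of_nonneg_right hFc hconst
    _ = (1 - c) ^ P.card * ((∏ i, (5 * R i / m)) * (m : ℝ) ^ g) := by ring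
    _ = _ := by rw [hKL]; ring

end

end Pool.Agent.TJ2
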