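import Pool.Agent.TJ2.Stmts
import Pool.Agent.TJ2.Stmts2

/-!
# Theorem J: Theorem A (density one)
-/

open Polynomial IntermediateField

namespace Pool.Agent.TJ2

noncomputable section

private theorem DENS_Lam (g q : ℕ) (hq : 1 ≤ q) : 0 < Lam g q := by
  unfold Lam
  apply Finset.prod_pos
  intro i _
  have : (0 : ℝ) < q := by exact_mod_cast hq
  positivity

/-- Theorem A -/
theorem t_DENS (hBOX : S_BOX) (hLOW : S_LOW) (hT1 : S_T1) (hT2 : S_T2) (hT3 : S_T3)
    (hT4 : S_T4) : S_DENS := by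
  intro g hg η hη
  obtain ⟨κ, hκ, q0, h0⟩ := hLOW g hg
  have hη' : 0 < η * κ / 4 := by positivity
  obtain ⟨q1, h1⟩ := hT1 g hg _ hη'
  obtain ⟨ε, hε, hε1, q2, h2⟩ := hT2 g hg _ hη'
  obtain ⟨T, q3, h3⟩ := hT3 g hg _ hη'
  obtain ⟨q4, h4⟩ := hT4 g hg ε T hε hε1 _ hη'
  refine ⟨max (max q0 q1) (max q2 (max q3 q4)), ?_⟩
  intro q hq hpp
  have hq0 : q0 ≤ q := le_trans (le_trans (le_max_left _ _) (le_max_left _ _)) hq
  have hq1 : q1 ≤ q := le_trans (le_trans (le_max_right _ _) (le_max_left _ _)) hq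
  have hq2 : q2 ≤ q := le_trans (le_trans (le_max_left _ _) (le_max_right _ _)) hq
  have hq3 : q3 ≤ q := le_trans (le_trans (le_trans (le_max_left _ _) (le_max_right _ _))
    (le_max_right _ _)) hq
  have hq4 : q4 ≤ q := le_trans (le_trans (le_trans (le_max_right _ _) (le_max_right _ _))
    (le_max_right _ _)) hq
  have hRW := (hBOX g q).1
  have hOrd : (Ord g q).Finite := hRW.subset fun x hx => hx.1
  have hΛ := DENS_Lam g q hpp.one_lt.le
  have e0 := h0 q hq0 hpp
  have e1 := h1 q hq1 hpp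
  have e2 := h2 q hq2
  have e3 := h3 q hq3 hpp
  have e4 := h4 q hq4 hpp
  refine ⟨hOrd, ?_, ?_⟩
  · have : (0 : ℝ) < ((Ord g q).ncard : ℝ) := lt_of_lt_of_le (by positivity) e0
    exact_mod_cast this
  · have hsub : Ord g q \ Sel q ⊆ (T1 g q ∪ T2 g q ε) ∪ (T3 g q T ∪ T4 g q ε T) := by
      rintro h ⟨hh, hs⟩
      by_cases a1 : Full q h
      · by_cases a2 : h ∈ T2 g q ε
        · exact Or.inl (Or.inr a2)
        · by_cases a3 : h ∈ T3 g q T
          · exact Or.inr (Or.inl a3)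
          · exact Or.inr (Or.inr ⟨hh, a1, a2, a3, hs⟩)
      · exact Or.inl (Or.inl ⟨hh, a1⟩)
    have f1 : (T1 g q).Finite := hOrd.subset fun x hx => hx.1
    have f2 : (T2 g q ε).Finite := hRW.subset fun x hx => hx.1
    have f3 : (T3 g q T).Finite := hOrd.subset fun x hx => hx.1
    have f4 : (T4 g q ε T).Finite := hOrd.subset fun x hx => hx.1
    have c1 := Set.ncard_le_ncard hsub ((f1.union f2).union (f3.union f4))
    have c2 := Set.ncard_union_le (T1 g q ∪ T2 g q ε) (T3 g q T ∪ T4 g q ε T)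
    have c3 := Set.ncard_union_le (T1 g q) (T2 g q ε)
    have c4 := Set.ncard_union_le (T3 g q T) (T4 g q ε T)
    have c5 : ((Ord g q \ Sel q).ncard : ℝ) ≤
        (T1 g q).ncard + (T2 g q ε).ncard + (T3 g q T).ncard + (T4 g q ε T).ncard := by
      have : (Ord g q \ Sel q).ncard ≤
          (T1 g q).ncard + (T2 g q ε).ncard + (T3 g q T).ncard + (T4 g q ε T).ncard := by omega
      exact_mod_cast this
    have c6 := mul_le_mul_of_nonneg_left e0 hη.le
    nlinarith [c5, c6, e1, e2, e3, e4]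

end

end Pool.Agent.TJ2
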