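import Pool.Agent.TJ2.Stmts2

/-!
# Theorem J: few divisors
-/

open Polynomial IntermediateField

namespace Pool.Agent.TJ2

noncomputable section

open Pointwise in
private theorem DIV_mul (m n : ℕ) :
    (Nat.divisors (m * n)).card ≤ (Nat.divisors m).card * (Nat.divisors n).card := by
  rw [Nat.divisors_mul]
  exact Finset.card_mul_le

/-- few divisors -/
theorem t_DIV : S_DIV := by
  intro g M _
  refine ⟨((Nat.divisors ((4 * M) ^ g)).card : ℝ) * (g / Real.log 2 + 1), ?_⟩
  intro q hq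
  obtain ⟨p, a, hp, ha, rfl⟩ := (isPrimePow_nat_iff q).1 hq
  have hl2 : 0 < Real.log 2 := Real.log_pos (by norm_num)
  have h1 : (4 * p ^ a * M) ^ g = (4 * M) ^ g * p ^ (a * g) := by
    rw [pow_mul, ← mul_pow]
    congr 1
    ring
  have h2 : (Nat.divisors ((4 * p ^ a * M) ^ g)).card ≤
      (Nat.divisors ((4 * M) ^ g)).card * (a * g + 1) := by
    rw [h1]
    refine (DIV_mul _ _).trans (Nat.mul_le_mul_left _ ?_)
    rw [Nat.divisors_prime_pow hp, Finset.card_map, Finset.card_range]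
  have h3 : ((Nat.divisors ((4 * p ^ a * M) ^ g)).card : ℝ) ≤
      (Nat.divisors ((4 * M) ^ g)).card * ((a : ℝ) * g + 1) := by
    exact_mod_cast h2
  refine h3.trans ?_
  rw [mul_assoc]
  refine mul_le_mul_of_nonneg_left ?_ (Nat.cast_nonneg _)
  have h4 : (a : ℝ) * Real.log 2 ≤ Real.log ((p ^ a : ℕ) : ℝ) := by
    rw [Nat.cast_pow, Real.log_pow]
    refine mul_le_mul_of_nonneg_left ?_ (Nat.cast_nonneg _)
    exact Real.log_le_log (by norm_num) (by exact_mod_cast hp.two_le)
  have h5 : (a : ℝ) ≤ Real.log ((p ^ a : ℕ) : ℝ) / Real.log 2 := by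
    rw [le_div_iff₀ hl2]
    exact h4
  set L := Real.log ((p ^ a : ℕ) : ℝ) with hL
  have hL0 : 0 ≤ L := le_trans (by positivity) h4
  have h6 : (a : ℝ) * g ≤ g / Real.log 2 * L := by
    calc (a : ℝ) * g ≤ L / Real.log 2 * g := mul_le_mul_of_nonneg_right h5 (Nat.cast_nonneg _)
      _ = g / Real.log 2 * L := by ring
  have h7 : 0 ≤ (g : ℝ) / Real.log 2 := by positivity
  nlinarith [h6, h7, hL0]

end

end Pool.Agent.TJ2
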