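import Pool.Agent.TJ2.Stmts

/-!
# Theorem J, module FIBA: counting by the constant coefficient
-/

open Polynomial IntermediateField

namespace Pool.Agent.TJ2

/-- two real Weil polynomials with the same coefficients `1 ≤ i < g` agree in all coefficients
`i ≥ 1` -/
theorem FIBA_coeff {g q : ℕ} {h h₀ : ℤ[X]} (hh : h ∈ RW g q) (hh₀ : h₀ ∈ RW g q)
    (H : ∀ i, 1 ≤ i → i < g → h.coeff i = h₀.coeff i) (i : ℕ) (hi : 1 ≤ i) :
    h.coeff i = h₀.coeff i := by
  rcases lt_trichotomy i g with h1 | h1 | h1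
  · exact H i hi h1
  · subst h1
    have e1 : h.coeff i = 1 := by
      have := hh.1.coeff_natDegree
      rwa [hh.2.1] at this
    have e2 : h₀.coeff i = 1 := by
      have := hh₀.1.coeff_natDegree
      rwa [hh₀.2.1] at this
    rw [e1, e2]
  · rw [coeff_eq_zero_of_natDegree_lt (by rw [hh.2.1]; exact h1),
      coeff_eq_zero_of_natDegree_lt (by rw [hh₀.2.1]; exact h1)]

/-- the bound for the coefficient `i` -/
noncomputable def FIBA_b (g q i : ℕ) : ℝ := g.choose i * (2 * Real.sqrt q) ^ (g - i)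

theorem FIBA_one_le {g q i : ℕ} (hq : 1 ≤ q) (hi : i ≤ g) : 1 ≤ FIBA_b g q i := by
  unfold FIBA_b
  have h1 : (1 : ℝ) ≤ g.choose i := by exact_mod_cast Nat.choose_pos hi
  have h2 : (1 : ℝ) ≤ Real.sqrt q := by
    rw [Real.one_le_sqrt]
    exact_mod_cast hq
  have h3 : (1 : ℝ) ≤ (2 * Real.sqrt q) ^ (g - i) := one_le_pow₀ (by linarith)
  nlinarith

/-- the box -/
noncomputable def FIBA_t (g q : ℕ) : Finset (Fin g → ℤ) :=
  Fintype.piFinset fun i : Fin g =>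
    if (i : ℕ) = 0 then {0} else Finset.Icc (-⌊FIBA_b g q i⌋) ⌊FIBA_b g q i⌋

theorem FIBA_card (g q : ℕ) (hq : 1 ≤ q) :
    ((FIBA_t g q).card : ℝ) ≤ ∏ i : Fin g, if (i : ℕ) = 0 then 1 else 3 * FIBA_b g q i := by
  unfold FIBA_t
  rw [Fintype.card_piFinset]
  push_cast
  refine Finset.prod_le_prod (fun i _ => by positivity) fun i _ => ?_
  by_cases h0 : (i : ℕ) = 0
  · simp [h0]
  · simp only [h0, if_false, Int.card_Icc]
    have h1 := FIBA_one_le (g := g) (q := q) (i := i) hq i.2.le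
    have h2 : 0 ≤ ⌊FIBA_b g q i⌋ := Int.floor_nonneg.2 (by linarith)
    have h3 : ((⌊FIBA_b g q i⌋ + 1 - -⌊FIBA_b g q i⌋).toNat : ℝ) =
        2 * (⌊FIBA_b g q i⌋ : ℝ) + 1 := by
      have : (((⌊FIBA_b g q i⌋ + 1 - -⌊FIBA_b g q i⌋).toNat : ℤ) : ℝ) =
          ((2 * ⌊FIBA_b g q i⌋ + 1 : ℤ) : ℝ) := by
        rw [Int.toNat_of_nonneg (by omega)]
        congr 1
        ring
      push_cast at this ⊢
      exact this
    rw [h3]
    have h4 := Int.floor_le (FIBA_b g q i)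
    linarith

theorem FIBA_prod (m q : ℕ) :
    (∏ i : Fin (m + 1), if (i : ℕ) = 0 then (1 : ℝ) else 3 * FIBA_b (m + 1) q i) *
      Real.sqrt q ^ (m + 1) ≤
    (∏ i : Fin (m + 1), (3 * ((m + 1).choose i : ℝ) * 2 ^ (m + 1 - (i : ℕ)))) * Lam (m + 1) q := by
  have e1 : Lam (m + 1) q = ∏ i : Fin (m + 1), Real.sqrt q ^ (m + 1 - (i : ℕ)) := by
    unfold Lam
    rw [Finset.prod_range]
  rw [e1, ← Finset.prod_mul_distrib, Fin.prod_univ_succ, Fin.prod_univ_succ]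
  have e2 : ∏ i : Fin m, (if ((i.succ : Fin (m + 1)) : ℕ) = 0 then (1 : ℝ)
        else 3 * FIBA_b (m + 1) q (i.succ : Fin (m + 1))) =
      ∏ i : Fin m, (3 * ((m + 1).choose (i.succ : Fin (m + 1)) : ℝ) *
        2 ^ (m + 1 - ((i.succ : Fin (m + 1)) : ℕ)) *
        Real.sqrt q ^ (m + 1 - ((i.succ : Fin (m + 1)) : ℕ))) := by
    refine Finset.prod_congr rfl fun i _ => ?_
    rw [if_neg (by simp)]
    unfold FIBA_b
    rw [mul_pow]
    ring
  rw [e2]
  have h3 : 0 ≤ ∏ i : Fin m, (3 * ((m + 1).choose (i.succ : Fin (m + 1)) : ℝ) *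
        2 ^ (m + 1 - ((i.succ : Fin (m + 1)) : ℕ)) *
        Real.sqrt q ^ (m + 1 - ((i.succ : Fin (m + 1)) : ℕ))) :=
    Finset.prod_nonneg fun i _ => by positivity
  have h4 : Real.sqrt q ^ (m + 1) ≤ 3 * ((m + 1).choose ((0 : Fin (m + 1)) : ℕ) : ℝ) *
        2 ^ (m + 1 - (((0 : Fin (m + 1)) : ℕ))) * Real.sqrt q ^ (m + 1 - ((0 : Fin (m + 1)) : ℕ)) := by
    have h5 : (1 : ℝ) ≤ 2 ^ (m + 1) := one_le_pow₀ (by norm_num)
    have h6 : 0 ≤ Real.sqrt q ^ (m + 1) := by positivity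
    simp only [Fin.val_zero, Nat.choose_zero_right, Nat.cast_one, mul_one, Nat.sub_zero]
    nlinarith
  rw [if_pos (by simp), one_mul, mul_comm _ (Real.sqrt q ^ (m + 1))]
  exact mul_le_mul_of_nonneg_right h4 h3

theorem t_FIBA (hBOX : S_BOX) : S_FIBA := by
  intro g hg
  refine ⟨∏ i : Fin g, (3 * (g.choose i : ℝ) * 2 ^ (g - (i : ℕ))),
    Finset.prod_pos fun i _ => ?_, ?_⟩
  · have := Nat.choose_pos (n := g) (k := i) i.2.le
    positivity
  intro q A n hq hA hn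
  have hfin : A.Finite := (hBOX g q).1.subset hA
  have hn0 : 0 ≤ n := le_trans (by positivity) (hn 0)
  set f : ℤ[X] → (Fin g → ℤ) := fun h i => if (i : ℕ) = 0 then 0 else h.coeff i with hf
  have hmaps : ∀ a ∈ hfin.toFinset, f a ∈ FIBA_t g q := by
    intro a ha
    rw [Set.Finite.mem_toFinset] at ha
    unfold FIBA_t
    rw [Fintype.mem_piFinset]
    intro i
    by_cases h0 : (i : ℕ) = 0
    · simp [hf, h0]
    · simp only [hf, h0, if_false, Finset.mem_Icc]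
      have h1 := (hBOX g q).2 a (hA ha) i i.2.le
      have h2 : ((|a.coeff i| : ℤ) : ℝ) ≤ FIBA_b g q i := by
        unfold FIBA_b
        push_cast
        exact h1
      have h3 : |a.coeff i| ≤ ⌊FIBA_b g q i⌋ := Int.le_floor.2 h2
      exact abs_le.1 h3
  have hfib : ∀ b ∈ FIBA_t g q, ({a ∈ hfin.toFinset | f a = b} : Finset ℤ[X]).card ≤ ⌊n⌋₊ := by
    intro b _
    rcases Finset.eq_empty_or_nonempty ({a ∈ hfin.toFinset | f a = b} : Finset ℤ[X]) with he | ⟨a₀, ha₀⟩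
    · rw [he]
      simp
    · rw [Finset.mem_filter, Set.Finite.mem_toFinset] at ha₀
      have h1 : (({a ∈ hfin.toFinset | f a = b} : Finset ℤ[X]) : Set ℤ[X]) ⊆
          {h | h ∈ A ∧ ∀ i, 1 ≤ i → h.coeff i = a₀.coeff i} := by
        intro a ha
        rw [Finset.mem_coe, Finset.mem_filter, Set.Finite.mem_toFinset] at ha
        refine ⟨ha.1, FIBA_coeff (hA ha.1) (hA ha₀.1) fun i hi hig => ?_⟩
        have h2 := congrFun (ha.2.trans ha₀.2.symm) ⟨i, hig⟩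
        simp only [hf] at h2
        rwa [if_neg (by omega), if_neg (by omega)] at h2
      have h2 := Set.ncard_le_ncard h1 (hfin.subset fun x hx => hx.1)
      rw [Set.ncard_coe_finset] at h2
      refine Nat.le_floor ?_
      refine le_trans ?_ (hn a₀)
      exact_mod_cast h2
  have hcard := Finset.card_le_mul_card_image_of_maps_to hmaps ⌊n⌋₊ hfib
  have h1 : (A.ncard : ℝ) ≤ n * (FIBA_t g q).card := by
    rw [Set.ncard_eq_toFinset_card A hfin]
    calc ((hfin.toFinset.card : ℕ) : ℝ) ≤ ((⌊n⌋₊ * (FIBA_t g q).card : ℕ) : ℝ) := by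
          exact_mod_cast hcard
      _ = (⌊n⌋₊ : ℝ) * (FIBA_t g q).card := by push_cast; ring
      _ ≤ n * (FIBA_t g q).card :=
          mul_le_mul_of_nonneg_right (Nat.floor_le hn0) (by positivity)
  have h2 := FIBA_card g q hq
  obtain ⟨m, rfl⟩ : ∃ m, g = m + 1 := ⟨g - 1, by omega⟩
  have h3 := FIBA_prod m q
  have h4 : 0 ≤ Real.sqrt q ^ (m + 1) := by positivity
  calc (A.ncard : ℝ) * Real.sqrt q ^ (m + 1)
      ≤ (n * (FIBA_t (m + 1) q).card) * Real.sqrt q ^ (m + 1) :=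
        mul_le_mul_of_nonneg_right h1 h4
    _ ≤ (n * ∏ i : Fin (m + 1), if (i : ℕ) = 0 then 1 else 3 * FIBA_b (m + 1) q i) *
          Real.sqrt q ^ (m + 1) :=
        mul_le_mul_of_nonneg_right (mul_le_mul_of_nonneg_left h2 hn0) h4
    _ = n * ((∏ i : Fin (m + 1), if (i : ℕ) = 0 then 1 else 3 * FIBA_b (m + 1) q i) *
          Real.sqrt q ^ (m + 1)) := by ring
    _ ≤ n * ((∏ i : Fin (m + 1), (3 * ((m + 1).choose i : ℝ) * 2 ^ (m + 1 - (i : ℕ)))) *
          Lam (m + 1) q) := mul_le_mul_of_nonneg_left h3 hn0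
    _ = _ := by ring

end Pool.Agent.TJ2
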