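import Pool.Agent.TJ2.Stmts

/-!
# Theorem J, module FIBB (helper83): counting by the last two coefficients
-/

open Polynomial

namespace Pool.Agent.TJ2

noncomputable section

private lemma FIBB_lam (g q : ℕ) (hg : 2 ≤ g) :
    Lam g q = Real.sqrt q ^ g * Real.sqrt q ^ (g - 1) *
      ∏ i : Fin (g - 2), Real.sqrt q ^ (g - ((i : ℕ) + 2)) := by
  obtain ⟨m, rfl⟩ : ∃ m, g = m + 2 := ⟨g - 2, by omega⟩
  unfold Lam
  rw [Finset.prod_range_succ', Finset.prod_range_succ']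
  have h2 : ∏ k ∈ Finset.range m, Real.sqrt q ^ (m + 2 - (k + 1 + 1)) =
      ∏ i : Fin (m + 2 - 2), Real.sqrt q ^ (m + 2 - ((i : ℕ) + 2)) := by
    rw [← Fin.prod_univ_eq_prod_range (fun k => Real.sqrt q ^ (m + 2 - (k + 1 + 1))) m]
    rfl
  rw [h2]
  simp only [Nat.zero_add, Nat.sub_zero]
  ring

theorem t_FIBB (hBOX : S_BOX) : S_FIBB := by
  classical
  intro g hg
  refine ⟨∏ i : Fin (g - 2), (2 * ((g.choose ((i : ℕ) + 2) : ℝ) * 2 ^ (g - ((i : ℕ) + 2))) + 1),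
    Finset.prod_pos (fun i _ => by positivity), ?_⟩
  intro q A n hq hA hn
  obtain ⟨hfin, hbox⟩ := hBOX g q
  have hAf : A.Finite := hfin.subset hA
  have hn0 : 0 ≤ n := le_trans (Nat.cast_nonneg _) (hn 0)
  have hs1 : 1 ≤ Real.sqrt q := by
    rw [Real.one_le_sqrt]
    exact_mod_cast hq
  set N : Fin (g - 2) → ℕ := fun i =>
    ⌊(g.choose ((i : ℕ) + 2) : ℝ) * (2 * Real.sqrt q) ^ (g - ((i : ℕ) + 2))⌋₊ with hN
  set t : Finset (Fin (g - 2) → ℤ) :=
    Fintype.piFinset (fun i => Finset.Icc (-(N i : ℤ)) (N i)) with ht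
  set f : ℤ[X] → (Fin (g - 2) → ℤ) := fun h i => h.coeff ((i : ℕ) + 2) with hf
  have hmaps : ∀ h ∈ hAf.toFinset, f h ∈ t := by
    intro h hh
    have hhA : h ∈ A := (Set.Finite.mem_toFinset hAf).1 hh
    rw [ht, Fintype.mem_piFinset]
    intro i
    have hi : (i : ℕ) + 2 ≤ g := by have := i.2; omega
    have hb := hbox h (hA hhA) ((i : ℕ) + 2) hi
    have hb2 : ((h.coeff ((i : ℕ) + 2)).natAbs : ℝ) ≤
        (g.choose ((i : ℕ) + 2) : ℝ) * (2 * Real.sqrt q) ^ (g - ((i : ℕ) + 2)) := by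
      rw [Nat.cast_natAbs, Int.cast_abs]
      exact hb
    have hb3 : (h.coeff ((i : ℕ) + 2)).natAbs ≤ N i := Nat.le_floor hb2
    rw [Finset.mem_Icc]
    show -(N i : ℤ) ≤ h.coeff ((i : ℕ) + 2) ∧ h.coeff ((i : ℕ) + 2) ≤ (N i : ℤ)
    omega
  have hfib : ∀ b ∈ t, (hAf.toFinset.filter (fun h => f h = b)).card ≤ ⌊n⌋₊ := by
    intro b _
    rcases (hAf.toFinset.filter (fun h => f h = b)).eq_empty_or_nonempty with he | ⟨h₀, hh₀⟩
    · rw [he]; simp
    · rw [Finset.mem_filter, Set.Finite.mem_toFinset] at hh₀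
      apply Nat.le_floor
      refine le_trans ?_ (hn h₀)
      rw [← Set.ncard_coe_finset]
      have hsub : ((hAf.toFinset.filter (fun h => f h = b) : Finset ℤ[X]) : Set ℤ[X]) ⊆
          {h | h ∈ A ∧ ∀ i, 2 ≤ i → h.coeff i = h₀.coeff i} := by
        intro h hh
        rw [Finset.coe_filter] at hh
        obtain ⟨hhA, hhb⟩ := hh
        rw [Set.Finite.mem_toFinset] at hhA
        refine ⟨hhA, ?_⟩
        intro i hi
        have h1 := hA hhA
        have h2 := hA hh₀.1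
        rcases lt_trichotomy i g with hlt | heq | hgt
        · have hc := congrFun (hhb.trans hh₀.2.symm) ⟨i - 2, by omega⟩
          have hc2 : h.coeff (i - 2 + 2) = h₀.coeff (i - 2 + 2) := hc
          rwa [Nat.sub_add_cancel hi] at hc2
        · subst heq
          have e1 : h.coeff i = 1 := by
            have := h1.1.coeff_natDegree
            rwa [h1.2.1] at this
          have e2 : h₀.coeff i = 1 := by
            have := h2.1.coeff_natDegree
            rwa [h2.2.1] at this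
          rw [e1, e2]
        · rw [coeff_eq_zero_of_natDegree_lt (by rw [h1.2.1]; exact hgt),
            coeff_eq_zero_of_natDegree_lt (by rw [h2.2.1]; exact hgt)]
      exact_mod_cast Set.ncard_le_ncard hsub (hAf.subset (fun h hh => hh.1))
  have key := Finset.card_le_mul_card_image_of_maps_to hmaps ⌊n⌋₊ hfib
  have hcardA : A.ncard = hAf.toFinset.card := Set.ncard_eq_toFinset_card A hAf
  have hcardt : (t.card : ℝ) ≤
      (∏ i : Fin (g - 2), (2 * ((g.choose ((i : ℕ) + 2) : ℝ) * 2 ^ (g - ((i : ℕ) + 2))) + 1)) *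
      ∏ i : Fin (g - 2), Real.sqrt q ^ (g - ((i : ℕ) + 2)) := by
    rw [ht, Fintype.card_piFinset, Nat.cast_prod, ← Finset.prod_mul_distrib]
    apply Finset.prod_le_prod
    · intro i _; positivity
    · intro i _
      have hc : ((Finset.Icc (-(N i : ℤ)) (N i)).card : ℝ) = 2 * (N i : ℝ) + 1 := by
        rw [Int.card_Icc]
        have : ((N i : ℤ) + 1 - -(N i : ℤ)).toNat = 2 * N i + 1 := by omega
        rw [this]; push_cast; ring
      rw [hc]
      have hNi : (N i : ℝ) ≤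
          (g.choose ((i : ℕ) + 2) : ℝ) * (2 * Real.sqrt q) ^ (g - ((i : ℕ) + 2)) :=
        Nat.floor_le (by positivity)
      have hp : 1 ≤ Real.sqrt q ^ (g - ((i : ℕ) + 2)) := one_le_pow₀ hs1
      rw [mul_pow] at hNi
      calc 2 * (N i : ℝ) + 1 ≤ 2 * ((g.choose ((i : ℕ) + 2) : ℝ) *
            (2 ^ (g - ((i : ℕ) + 2)) * Real.sqrt q ^ (g - ((i : ℕ) + 2)))) +
            Real.sqrt q ^ (g - ((i : ℕ) + 2)) := by linarith
        _ = _ := by ring
  have hA2 : (A.ncard : ℝ) ≤ n * t.card := by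
    rw [hcardA]
    calc (hAf.toFinset.card : ℝ) ≤ ((⌊n⌋₊ * t.card : ℕ) : ℝ) := by exact_mod_cast key
      _ = (⌊n⌋₊ : ℝ) * t.card := by push_cast; ring
      _ ≤ n * t.card := by
          apply mul_le_mul_of_nonneg_right (Nat.floor_le hn0) (Nat.cast_nonneg _)
  rw [FIBB_lam g q hg]
  set P1 := ∏ i : Fin (g - 2), (2 * ((g.choose ((i : ℕ) + 2) : ℝ) * 2 ^ (g - ((i : ℕ) + 2))) + 1)
  set P2 := ∏ i : Fin (g - 2), Real.sqrt q ^ (g - ((i : ℕ) + 2))
  have h1 : (A.ncard : ℝ) ≤ n * (P1 * P2) :=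
    hA2.trans (mul_le_mul_of_nonneg_left hcardt hn0)
  have h3 : 0 ≤ Real.sqrt q ^ g * Real.sqrt q ^ (g - 1) := by positivity
  calc (A.ncard : ℝ) * Real.sqrt q ^ g * Real.sqrt q ^ (g - 1)
      = (A.ncard : ℝ) * (Real.sqrt q ^ g * Real.sqrt q ^ (g - 1)) := by ring
    _ ≤ n * (P1 * P2) * (Real.sqrt q ^ g * Real.sqrt q ^ (g - 1)) :=
        mul_le_mul_of_nonneg_right h1 h3
    _ = P1 * n * (Real.sqrt q ^ g * Real.sqrt q ^ (g - 1) * P2) := by ring

end

end Pool.Agent.TJ2
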