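import Pool.Agent.TJ2.Stmts

/-!
# Theorem J: module FROB (MP_6c4da4_ag, helper13)
-/

open Polynomial IntermediateField

namespace Pool.Agent.TJ2

noncomputable section

/-- the ring of algebraic integers -/
private abbrev FROB_O : Type := integralClosure ℤ Qb

private instance : TopologicalSpace FROB_O := ⊥

private instance : DiscreteTopology FROB_O := ⟨rfl⟩

private instance FROB_clo : IsAlgClosure ℚ Qb := by
  have h := AlgebraicClosure.instIsAlgClosure ℚ
  have e : (AlgebraicClosure.instAlgebra ℚ : Algebra ℚ (AlgebraicClosure ℚ)) =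
    DivisionRing.toRatAlgebra := Subsingleton.elim _ _
  exact e ▸ h

private instance FROB_gal : IsGalois ℚ Qb := IsAlgClosure.isGalois ℚ Qb

private instance : SMulCommClass Gal(Qb/ℚ) ℤ Qb where
  smul_comm g n x := by
    rw [AlgEquiv.smul_def, AlgEquiv.smul_def, map_zsmul]

/-- the stabiliser of an algebraic integer is open -/
private lemma FROB_open (x : FROB_O) :
    IsOpen {g : Gal(Qb/ℚ) | g • x = x} := by
  have hint : IsIntegral ℚ (x : Qb) := x.2.tower_top
  have : FiniteDimensional ℚ (IntermediateField.adjoin ℚ {(x : Qb)}) :=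
    IntermediateField.adjoin.finiteDimensional hint
  have h1 := IntermediateField.fixingSubgroup_isOpen
    (IntermediateField.adjoin ℚ {(x : Qb)})
  have h2 : {g : Gal(Qb/ℚ) | g • x = x} =
      ((IntermediateField.adjoin ℚ {(x : Qb)}).fixingSubgroup : Set Gal(Qb/ℚ)) := by
    ext g
    constructor
    · intro hg
      have hg' : g (x : Qb) = (x : Qb) := congrArg Subtype.val hg
      rw [SetLike.mem_coe, IntermediateField.mem_fixingSubgroup_iff]
      intro y hy
      have h3 : IntermediateField.adjoin ℚ {(x : Qb)} ≤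
          IntermediateField.fixedField (Subgroup.zpowers g) := by
        rw [IntermediateField.adjoin_le_iff]
        rintro z hz
        rw [Set.mem_singleton_iff] at hz
        subst hz
        rw [SetLike.mem_coe, IntermediateField.mem_fixedField_iff]
        intro f hf
        have : Subgroup.zpowers g ≤ MulAction.stabilizer Gal(Qb/ℚ) (x : Qb) := by
          rw [Subgroup.zpowers_le, MulAction.mem_stabilizer_iff]
          exact hg'
        exact this hf
      have h4 := h3 hy
      rw [IntermediateField.mem_fixedField_iff] at h4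
      exact h4 g (Subgroup.mem_zpowers g)
    · intro hg
      rw [SetLike.mem_coe, IntermediateField.mem_fixingSubgroup_iff] at hg
      have := hg x (IntermediateField.mem_adjoin_simple_self ℚ (x : Qb))
      exact Subtype.ext this
  rw [h2]
  exact h1

private instance : ContinuousSMul Gal(Qb/ℚ) FROB_O where
  continuous_smul := by
    rw [continuous_discrete_rng]
    intro y
    rw [isOpen_iff_mem_nhds]
    rintro ⟨g, x⟩ hgx
    have hgx' : g • x = y := hgx
    have h1 : IsOpen ((fun h : Gal(Qb/ℚ) => g⁻¹ * h) ⁻¹' {h | h • x = x}) :=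
      (FROB_open x).preimage (continuous_const_mul g⁻¹)
    have h2 : IsOpen (((fun h : Gal(Qb/ℚ) => g⁻¹ * h) ⁻¹' {h | h • x = x}) ×ˢ {x}) :=
      h1.prod (isOpen_discrete _)
    refine Filter.mem_of_superset (h2.mem_nhds ⟨?_, rfl⟩) ?_
    · simp
    · rintro ⟨h, x'⟩ ⟨hh, hx'⟩
      have hx'' : x' = x := hx'
      subst hx''
      have hh' : (g⁻¹ * h) • x' = x' := hh
      have : h • x' = g • x' := by
        rw [mul_smul, inv_smul_eq_iff] at hh'
        exact hh'
      exact this.trans hgx'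

private instance : Algebra.IsInvariant ℤ FROB_O Gal(Qb/ℚ) where
  isInvariant b hb := by
    have h1 : (b : Qb) ∈ Set.range (algebraMap ℚ Qb) := by
      rw [InfiniteGalois.mem_range_algebraMap_iff_fixed]
      intro g
      exact congrArg Subtype.val (hb g)
    obtain ⟨r, hr⟩ := h1
    have h2 : IsIntegral ℤ r := by
      have := b.2
      rw [mem_integralClosure_iff, ← hr,
        isIntegral_algebraMap_iff (FaithfulSMul.algebraMap_injective ℚ Qb)] at this
      exact this
    obtain ⟨n, hn⟩ := IsIntegrallyClosed.algebraMap_eq_of_integral h2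
    refine ⟨n, ?_⟩
    apply Subtype.ext
    rw [← hr, ← hn]
    simp

private lemma FROB_ne_top (l : ℕ) (hl : l.Prime) : Ideal.span {(l : FROB_O)} ≠ ⊤ := by
  rw [Ne, Ideal.span_singleton_eq_top]
  intro hu
  obtain ⟨u, hu⟩ := hu.exists_right_inv
  have h1 : (l : Qb) * (u : Qb) = 1 := by
    have := congrArg (Subtype.val) hu
    simpa using this
  have h2 : (u : Qb) = algebraMap ℚ Qb (1 / (l : ℚ)) := by
    have hl0 : (l : Qb) ≠ 0 := by
      exact_mod_cast hl.ne_zero
    rw [map_div₀, map_one, map_natCast]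
    field_simp
    rw [mul_comm]
    exact h1
  have h3 : IsIntegral ℤ (1 / (l : ℚ)) := by
    have := u.2
    rw [mem_integralClosure_iff, h2,
        isIntegral_algebraMap_iff (FaithfulSMul.algebraMap_injective ℚ Qb)] at this
    exact this
  obtain ⟨n, hn⟩ := IsIntegrallyClosed.algebraMap_eq_of_integral h3
  have h4 : (n : ℚ) * l = 1 := by
    have hl0 : (l : ℚ) ≠ 0 := by exact_mod_cast hl.ne_zero
    have : (n : ℚ) = 1 / l := by simpa using hn
    rw [this]
    field_simp
  have h5 : n * (l : ℤ) = 1 := by exact_mod_cast h4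
  have h6 : (l : ℤ) ∣ 1 := ⟨n, by rw [mul_comm]; exact h5.symm⟩
  have h7 := Int.natAbs_dvd_natAbs.2 h6
  simp at h7
  exact hl.one_lt.ne' h7

theorem t_FROB : S_FROB := by
  intro l hl s _ _
  obtain ⟨M, hM, hlM⟩ := Ideal.exists_le_maximal _ (FROB_ne_top l hl)
  have hint : Algebra.IsIntegral ℤ FROB_O := inferInstance
  let _ : Field (FROB_O ⧸ M) := Ideal.Quotient.field M
  have hl0 : ((l : ℕ) : FROB_O ⧸ M) = 0 := by
    have : (l : FROB_O) ∈ M := hlM (Ideal.subset_span rfl)
    have h2 := Ideal.Quotient.eq_zero_iff_mem.2 this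
    rw [map_natCast] at h2
    exact h2
  have hchar : CharP (FROB_O ⧸ M) l := by
    obtain ⟨c, hc⟩ := CharP.exists (FROB_O ⧸ M)
    have h1 : c ∣ l := (CharP.cast_eq_zero_iff (FROB_O ⧸ M) c l).1 hl0
    rcases (Nat.dvd_prime hl).1 h1 with h | h
    · exact absurd h (CharP.char_ne_one (FROB_O ⧸ M) c)
    · rw [← h]
      exact hc
  have hP : (M.under ℤ) = Ideal.span {(l : ℤ)} := by
    have hmax : (Ideal.span {(l : ℤ)}).IsMaximal :=
      PrincipalIdealRing.isMaximal_of_irreducible (Nat.prime_iff_prime_int.1 hl).irreducible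
    refine (hmax.eq_of_le ?_ ?_).symm
    · exact (Ideal.IsPrime.under ℤ M).ne_top
    · rw [Ideal.span_singleton_le_iff_mem, Ideal.mem_comap]
      have : (l : FROB_O) ∈ M := hlM (Ideal.subset_span rfl)
      simpa using this
  have hpmax : (M.under ℤ).IsMaximal := inferInstance
  let _ : Field (ℤ ⧸ M.under ℤ) := Ideal.Quotient.field (M.under ℤ)
  have hcard : Nat.card (ℤ ⧸ M.under ℤ) = l := by
    rw [hP, Nat.card_congr (Int.quotientSpanNatEquivZMod l).toEquiv, Nat.card_zmod]
  have hfin : Finite (ℤ ⧸ M.under ℤ) := by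
    apply Nat.finite_of_card_ne_zero
    rw [hcard]
    exact hl.ne_zero
  cases nonempty_fintype (ℤ ⧸ M.under ℤ)
  have hii : Algebra.IsIntegral (ℤ ⧸ M.under ℤ) (FROB_O ⧸ M) := by
    constructor
    intro x
    obtain ⟨y, rfl⟩ := Ideal.Quotient.mk_surjective x
    have h1 : IsIntegral ℤ y := hint.isIntegral y
    have h2 : IsIntegral ℤ (Ideal.Quotient.mk M y) := h1.map (Ideal.Quotient.mkₐ ℤ M)
    exact h2.tower_top
  have hal : Algebra.IsAlgebraic (ℤ ⧸ M.under ℤ) (FROB_O ⧸ M) :=
    ⟨fun x => (hii.isIntegral x).isAlgebraic⟩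
  let F : (FROB_O ⧸ M) ≃ₐ[ℤ ⧸ M.under ℤ] (FROB_O ⧸ M) :=
    FiniteField.frobeniusAlgEquivOfAlgebraic (ℤ ⧸ M.under ℤ) (FROB_O ⧸ M)
  obtain ⟨⟨g, hg⟩, hgF⟩ := Ideal.Quotient.stabilizerHom_surjective_of_profinite
    (G := Gal(Qb/ℚ)) (M.under ℤ) M F
  refine ⟨FROB_O ⧸ M, inferInstance, hchar, Ideal.Quotient.mk M, g, ?_⟩
  intro x hx hx' _
  have h1 := DFunLike.congr_fun hgF (Ideal.Quotient.mk M ⟨x, hx⟩)
  have h2 : F (Ideal.Quotient.mk M ⟨x, hx⟩) =
      Ideal.Quotient.mk M ⟨x, hx⟩ ^ Fintype.card (ℤ ⧸ M.under ℤ) := rfl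
  rw [h2, ← Nat.card_eq_fintype_card, hcard] at h1
  exact h1

end

end Pool.Agent.TJ2
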