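import Pool.Agent.TJ2.Stmts

/-!
# Theorem J, module GEN: generation of the full group (MP_6c4da4_ag)
-/

open Polynomial IntermediateField

namespace Pool.Agent.TJ2

noncomputable section

theorem GEN_aeval (σ : Qb ≃ₐ[ℚ] Qb) (h : ℤ[X]) (x : Qb) : aeval (σ x) h = σ (aeval x h) := by
  rw [aeval_def, aeval_def]
  have h1 := Polynomial.hom_eval₂ h (algebraMap ℤ Qb) (σ : Qb →+* Qb) x
  have h2 : (σ : Qb →+* Qb).comp (algebraMap ℤ Qb) = algebraMap ℤ Qb := RingHom.ext_int _ _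
  rw [h2] at h1
  exact h1.symm

theorem GEN_rt (σ : Qb ≃ₐ[ℚ] Qb) {h : ℤ[X]} {b : Qb} (hb : b ∈ Rt h) : σ b ∈ Rt h := by
  show aeval (σ b) h = 0
  have h1 : aeval b h = 0 := hb
  rw [GEN_aeval, h1, map_zero]

theorem GEN_pi (σ : Qb ≃ₐ[ℚ] Qb) (q : ℕ) (a : Qb) : σ (a + (q : Qb) / a) = σ a + (q : Qb) / σ a := by
  rw [map_add, map_div₀, map_natCast]

theorem GEN_div (σ : Qb ≃ₐ[ℚ] Qb) (q : ℕ) (a : Qb) : σ ((q : Qb) / a) = (q : Qb) / σ a := by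
  rw [map_div₀, map_natCast]

theorem GEN_om (σ : Qb ≃ₐ[ℚ] Qb) {q : ℕ} {h : ℤ[X]} {a : Qb} (ha : a ∈ Om q h) : σ a ∈ Om q h := by
  obtain ⟨h1, h2⟩ := ha
  refine ⟨?_, ?_⟩
  · intro h0
    exact h1 ((map_eq_zero σ).1 h0)
  · rw [← GEN_pi, GEN_aeval, h2, map_zero]

theorem GEN_inv (σ : Qb ≃ₐ[ℚ] Qb) (x : Qb) : σ⁻¹ (σ x) = x := by
  rw [← AlgEquiv.mul_apply, inv_mul_cancel, AlgEquiv.one_apply]

theorem GEN_inv' (σ : Qb ≃ₐ[ℚ] Qb) (x : Qb) : σ (σ⁻¹ x) = x := by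
  rw [← AlgEquiv.mul_apply, mul_inv_cancel, AlgEquiv.one_apply]

theorem GEN_qdiv {q : ℕ} (hq : 1 ≤ q) (a : Qb) : (q : Qb) / ((q : Qb) / a) = a := by
  have h1 : (q : Qb) ≠ 0 := by
    have : q ≠ 0 := by omega
    exact_mod_cast this
  rw [div_div_eq_mul_div, mul_comm, mul_div_assoc, div_self h1, mul_one]

theorem GEN_omdiv {q : ℕ} (hq : 1 ≤ q) {h : ℤ[X]} {a : Qb} (ha : a ∈ Om q h) : (q : Qb) / a ∈ Om q h := by
  obtain ⟨h1, h2⟩ := ha
  have h3 : (q : Qb) ≠ 0 := by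
    have : q ≠ 0 := by omega
    exact_mod_cast this
  refine ⟨div_ne_zero h3 h1, ?_⟩
  rw [GEN_qdiv hq, add_comm]
  exact h2

/-- The fibres of `a ↦ a + q / a`. -/
theorem GEN_fib {q : ℕ} {a c : Qb} (ha : a ≠ 0) (hc : c ≠ 0)
    (h : a + (q : Qb) / a = c + (q : Qb) / c) : c = a ∨ c = (q : Qb) / a := by
  have h1 : (c - a) * (c - (q : Qb) / a) = 0 := by
    have h2 : a + (q : Qb) / a = c + (q : Qb) / c := h
    field_simp at h2 ⊢
    linear_combination (-1 : Qb) * h2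
  rcases mul_eq_zero.1 h1 with h2 | h2
  · exact Or.inl (sub_eq_zero.1 h2)
  · exact Or.inr (sub_eq_zero.1 h2)

theorem GEN_surj {q : ℕ} (hq : 1 ≤ q) {h : ℤ[X]} {b : Qb} (hb : b ∈ Rt h) :
    ∃ a ∈ Om q h, a + (q : Qb) / a = b := by
  have h3 : (q : Qb) ≠ 0 := by
    have : q ≠ 0 := by omega
    exact_mod_cast this
  have hd : (X ^ 2 - C b * X + C (q : Qb)).degree ≠ 0 := by
    have : (X ^ 2 - C b * X + C (q : Qb)).degree = 2 := by compute_degree!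
    rw [this]
    decide
  obtain ⟨a, ha⟩ := IsAlgClosed.exists_root _ hd
  have h4 : a ^ 2 - b * a + q = 0 := by
    have : eval a (X ^ 2 - C b * X + C (q : Qb)) = 0 := ha
    simpa using this
  have ha0 : a ≠ 0 := by
    rintro rfl
    apply h3
    simpa using h4
  have h5 : a + (q : Qb) / a = b := by
    field_simp
    linear_combination h4
  refine ⟨a, ⟨ha0, ?_⟩, h5⟩
  rw [h5]
  exact hb

theorem GEN_fin {h : ℤ[X]} (hm : h.Monic) : (Rt h).Finite ∧ (Rt h).ncard ≤ h.natDegree := by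
  classical
  have hne : h.map (algebraMap ℤ Qb) ≠ 0 := (hm.map _).ne_zero
  have h1 : Rt h = ((h.map (algebraMap ℤ Qb)).roots.toFinset : Set Qb) := by
    ext b
    rw [Finset.mem_coe, Multiset.mem_toFinset, mem_roots hne, IsRoot.def, eval_map]
    rfl
  rw [h1, Set.ncard_coe_finset]
  refine ⟨Finset.finite_toSet _, ?_⟩
  refine (Multiset.toFinset_card_le _).trans ((card_roots' _).trans ?_)
  exact natDegree_map_le

theorem GEN_swap {g : ℕ} {h : ℤ[X]} (hfin : (Rt h).Finite) (hcard : (Rt h).ncard ≤ g)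
    (ht : ∀ b ∈ Rt h, ∀ b' ∈ Rt h, ∃ σ : Qb ≃ₐ[ℚ] Qb, σ b = b')
    (h3 : 3 ≤ g → ∃ (σ : Qb ≃ₐ[ℚ] Qb), ∃ b₀ ∈ Rt h, σ b₀ = b₀ ∧
      ∀ b ∈ Rt h, ∀ b' ∈ Rt h, b ≠ b₀ → b' ≠ b₀ → ∃ n : ℕ, (σ ^ n) b = b')
    (h2 : 2 ≤ g → ∃ (σ : Qb ≃ₐ[ℚ] Qb), ∃ b₀ ∈ Rt h, ∃ b₁ ∈ Rt h, b₀ ≠ b₁ ∧ σ b₀ = b₁ ∧ σ b₁ = b₀ ∧
      ∀ b ∈ Rt h, b ≠ b₀ → b ≠ b₁ → σ b = b)
    {x y : Qb} (hx : x ∈ Rt h) (hy : y ∈ Rt h) (hxy : x ≠ y) :
    ∃ σ : Qb ≃ₐ[ℚ] Qb, σ x = y ∧ σ y = x ∧ ∀ b ∈ Rt h, b ≠ x → b ≠ y → σ b = b := by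
  have hg : 2 ≤ g := by
    refine le_trans ?_ hcard
    rw [← Set.ncard_pair hxy]
    exact Set.ncard_le_ncard (by
      intro z hz
      rcases hz with rfl | hz
      · exact hx
      · rw [Set.mem_singleton_iff.1 hz]
        exact hy) hfin
  obtain ⟨σ, b₀, hb₀, b₁, hb₁, hne, s1, s2, s3⟩ := h2 hg
  by_cases h3g : 3 ≤ g
  · obtain ⟨ρ, c, hc, r1, r2⟩ := h3 h3g
    have two : ∀ u ∈ Rt h, ∀ v ∈ Rt h, u ≠ v → ∀ u' ∈ Rt h, ∀ v' ∈ Rt h, u' ≠ v' →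
        ∃ α : Qb ≃ₐ[ℚ] Qb, α u = u' ∧ α v = v' := by
      intro u hu v hv huv u' hu' v' hv' huv'
      obtain ⟨α, hα⟩ := ht u hu c hc
      obtain ⟨β, hβ⟩ := ht u' hu' c hc
      have n1 : α v ≠ c := fun hh => huv (α.injective (hα.trans hh.symm))
      have n2 : β v' ≠ c := fun hh => huv' (β.injective (hβ.trans hh.symm))
      obtain ⟨n, hn⟩ := r2 (α v) (GEN_rt α hv) (β v') (GEN_rt β hv') n1 n2
      have hfix : (ρ ^ n) c = c := by
        clear hn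
        induction n with
        | zero => rfl
        | succ n ih => rw [pow_succ, AlgEquiv.mul_apply, r1, ih]
      refine ⟨β⁻¹ * ρ ^ n * α, ?_, ?_⟩
      · rw [AlgEquiv.mul_apply, AlgEquiv.mul_apply, hα, hfix, ← hβ, GEN_inv]
      · rw [AlgEquiv.mul_apply, AlgEquiv.mul_apply, hn, GEN_inv]
    obtain ⟨α, a1, a2⟩ := two x hx y hy hxy b₀ hb₀ b₁ hb₁ hne
    refine ⟨α⁻¹ * σ * α, ?_, ?_, fun b hb hbx hby => ?_⟩
    · rw [AlgEquiv.mul_apply, AlgEquiv.mul_apply, a1, s1, ← a2, GEN_inv]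
    · rw [AlgEquiv.mul_apply, AlgEquiv.mul_apply, a2, s2, ← a1, GEN_inv]
    · rw [AlgEquiv.mul_apply, AlgEquiv.mul_apply, s3 (α b) (GEN_rt α hb), GEN_inv]
      · rintro hh
        exact hbx (α.injective (hh.trans a1.symm))
      · rintro hh
        exact hby (α.injective (hh.trans a2.symm))
  · have hsub : ∀ z ∈ Rt h, z = x ∨ z = y := by
      intro z hz
      by_contra hc
      push Not at hc
      have h5 : ({x, y, z} : Set Qb) ⊆ Rt h := by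
        intro w hw
        rcases hw with rfl | rfl | hw
        · exact hx
        · exact hy
        · rw [Set.mem_singleton_iff.1 hw]
          exact hz
      have h6 := Set.ncard_le_ncard h5 hfin
      rw [Set.ncard_eq_three.2 ⟨x, y, z, hxy, hc.1.symm, hc.2.symm, rfl⟩] at h6
      omega
    refine ⟨σ, ?_, ?_, fun b hb hbx hby => ?_⟩
    · rcases hsub b₀ hb₀ with e0 | e0 <;> rcases hsub b₁ hb₁ with e1 | e1
      · exact absurd (e0.trans e1.symm) hne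
      · rw [← e0, s1, e1]
      · rw [← e1, s2, e0]
      · exact absurd (e0.trans e1.symm) hne
    · rcases hsub b₀ hb₀ with e0 | e0 <;> rcases hsub b₁ hb₁ with e1 | e1
      · exact absurd (e0.trans e1.symm) hne
      · rw [← e1, s2, e0]
      · rw [← e0, s1, e1]
      · exact absurd (e0.trans e1.symm) hne
    · rcases hsub b hb with e | e
      · exact absurd e hbx
      · exact absurd e hby

theorem GEN_perm {h : ℤ[X]} (hfin : (Rt h).Finite)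
    (hs : ∀ x ∈ Rt h, ∀ y ∈ Rt h, x ≠ y →
      ∃ σ : Qb ≃ₐ[ℚ] Qb, σ x = y ∧ σ y = x ∧ ∀ b ∈ Rt h, b ≠ x → b ≠ y → σ b = b)
    (π : Equiv.Perm (Rt h)) : ∃ σ : Qb ≃ₐ[ℚ] Qb, ∀ b : Rt h, σ b = π b := by
  classical
  have : Finite (Rt h) := hfin
  refine Equiv.Perm.swap_induction_on π ⟨1, fun b => rfl⟩ ?_
  rintro f x y hxy ⟨σ, hσ⟩
  obtain ⟨ρ, r1, r2, r3⟩ := hs x x.2 y y.2 (fun hh => hxy (Subtype.ext hh))
  refine ⟨ρ * σ, fun b => ?_⟩
  rw [AlgEquiv.mul_apply, hσ, Equiv.Perm.mul_apply]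
  by_cases h1 : f b = x
  · rw [h1, Equiv.swap_apply_left, r1]
  · by_cases h2 : f b = y
    · rw [h2, Equiv.swap_apply_right, r2]
    · rw [Equiv.swap_apply_of_ne_of_ne h1 h2]
      exact r3 _ (f b).2 (fun hh => h1 (Subtype.ext hh)) (fun hh => h2 (Subtype.ext hh))

/-- all flips of sets of pairs -/
theorem GEN_flip {q : ℕ} (hq : 1 ≤ q) {h : ℤ[X]}
    (ht : ∀ b ∈ Rt h, ∀ b' ∈ Rt h, ∃ σ : Qb ≃ₐ[ℚ] Qb, σ b = b')
    (hd : ∃ (σ : Qb ≃ₐ[ℚ] Qb), ∃ a₀ ∈ Om q h, a₀ ≠ (q : Qb) / a₀ ∧ σ a₀ = (q : Qb) / a₀ ∧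
      ∀ a ∈ Om q h, a ≠ a₀ → a ≠ (q : Qb) / a₀ → σ a = a) (F : Finset Qb) :
    (∀ b ∈ F, b ∈ Rt h) → ∃ σ : Qb ≃ₐ[ℚ] Qb, ∀ a ∈ Om q h,
      (a + (q : Qb) / a ∈ F → σ a = (q : Qb) / a) ∧ (a + (q : Qb) / a ∉ F → σ a = a) := by
  classical
  obtain ⟨δ, a₀, ha₀, hne, d1, d3⟩ := hd
  have d2 : δ ((q : Qb) / a₀) = a₀ := by
    rw [GEN_div, d1, GEN_qdiv hq]
  induction F using Finset.induction_on with
  | empty => exact fun _ => ⟨1, fun a _ => ⟨fun hh => absurd hh (Finset.notMem_empty _), fun _ => rfl⟩⟩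
  | insert b F hbF ih =>
    intro hF
    obtain ⟨σ, hσ⟩ := ih fun b hb => hF b (Finset.mem_insert_of_mem hb)
    have hb : b ∈ Rt h := hF b (Finset.mem_insert_self _ _)
    have hb₀ : a₀ + (q : Qb) / a₀ ∈ Rt h := ha₀.2
    obtain ⟨α, hα⟩ := ht b hb _ hb₀
    have key : ∀ a ∈ Om q h, (a + (q : Qb) / a = b → (α⁻¹ * δ * α) a = (q : Qb) / a) ∧
        (a + (q : Qb) / a ≠ b → (α⁻¹ * δ * α) a = a) := by
      intro a ha
      have hαa := GEN_om α ha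
      constructor
      · intro hab
        have h1 : a₀ + (q : Qb) / a₀ = α a + (q : Qb) / α a := by rw [← GEN_pi, hab, hα]
        rw [AlgEquiv.mul_apply, AlgEquiv.mul_apply]
        have h2 : δ (α a) = (q : Qb) / α a := by
          rcases GEN_fib ha₀.1 hαa.1 h1 with h2 | h2
          · rw [h2, d1]
          · rw [h2, d2, GEN_qdiv hq]
        rw [h2, ← GEN_div, GEN_inv]
      · intro hab
        rw [AlgEquiv.mul_apply, AlgEquiv.mul_apply, d3 (α a) hαa, GEN_inv]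
        · intro h1
          apply hab
          apply α.injective
          rw [GEN_pi, h1, hα]
        · intro h1
          apply hab
          apply α.injective
          rw [GEN_pi, h1, hα, GEN_qdiv hq, add_comm]
    refine ⟨σ * (α⁻¹ * δ * α), fun a ha => ⟨fun hm => ?_, fun hm => ?_⟩⟩
    · rcases Finset.mem_insert.1 hm with hab | haF
      · have h1 := (key a ha).1 hab
        have h2 : (q : Qb) / a + (q : Qb) / ((q : Qb) / a) ∉ F := by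
          rw [GEN_qdiv hq, add_comm, hab]
          exact hbF
        rw [AlgEquiv.mul_apply, h1, (hσ _ (GEN_omdiv hq ha)).2 h2]
      · have h0 : a + (q : Qb) / a ≠ b := fun hh => hbF (hh ▸ haF)
        rw [AlgEquiv.mul_apply, (key a ha).2 h0, (hσ a ha).1 haF]
    · rw [Finset.mem_insert, not_or] at hm
      rw [AlgEquiv.mul_apply, (key a ha).2 hm.1, (hσ a ha).2 hm.2]

theorem t_GEN : S_GEN := by
  classical
  intro g q h hg hq hm hdeg hOm ht h3 h2 hd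
  refine ⟨by rw [hOm, hdeg], ?_⟩
  intro τ hτ hτq
  obtain ⟨hfin, hcard⟩ := GEN_fin hm
  rw [hdeg] at hcard
  -- a section
  choose s hs1 hs2 using fun b : Rt h => GEN_surj hq b.2
  let f : Rt h → Rt h := fun b => ⟨τ (s b) + (q : Qb) / τ (s b), (hτ.1 (hs1 b)).2⟩
  have hf : ∀ a (ha : a ∈ Om q h), (f ⟨a + (q : Qb) / a, ha.2⟩ : Qb) = τ a + (q : Qb) / τ a := by
    intro a ha
    have h5 := hs2 ⟨a + (q : Qb) / a, ha.2⟩
    show τ (s ⟨a + (q : Qb) / a, ha.2⟩) + (q : Qb) / τ (s ⟨a + (q : Qb) / a, ha.2⟩) = _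
    rcases GEN_fib ha.1 (hs1 ⟨a + (q : Qb) / a, ha.2⟩).1 h5.symm with h6 | h6
    · rw [h6]
    · rw [h6, hτq a ha, GEN_qdiv hq, add_comm]
  have hsurj : Function.Surjective f := by
    rintro ⟨b, hb⟩
    obtain ⟨c, hc, hcb⟩ := GEN_surj hq hb
    obtain ⟨a, ha, hac⟩ := hτ.2.2 hc
    refine ⟨⟨a + (q : Qb) / a, ha.2⟩, Subtype.ext ?_⟩
    rw [hf a ha, hac, hcb]
  have : Finite (Rt h) := hfin
  have hbij : Function.Bijective f := ⟨Finite.injective_iff_surjective.2 hsurj, hsurj⟩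
  obtain ⟨α, hα⟩ := GEN_perm hfin (fun x hx y hy hxy => GEN_swap hfin hcard ht h3 h2 hx hy hxy)
    (Equiv.ofBijective f hbij)
  have hα' : ∀ a ∈ Om q h, α a = τ a ∨ α a = (q : Qb) / τ a := by
    intro a ha
    have h5 := hα ⟨a + (q : Qb) / a, ha.2⟩
    rw [Equiv.ofBijective_apply, hf a ha, GEN_pi] at h5
    exact GEN_fib (hτ.1 ha).1 (GEN_om α ha).1 h5.symm
  -- the pairs to be flipped
  obtain ⟨σ, hσ⟩ := GEN_flip hq ht hd (hfin.toFinset.filter fun b => ∃ a ∈ Om q h, a + (q : Qb) / a = b ∧ α a ≠ τ a)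
    (fun b hb => hfin.mem_toFinset.1 (Finset.mem_filter.1 hb).1)
  refine ⟨α * σ, fun a ha => ?_⟩
  rw [AlgEquiv.mul_apply]
  by_cases h5 : α a = τ a
  · have h6 : a + (q : Qb) / a ∉ hfin.toFinset.filter fun b => ∃ a ∈ Om q h, a + (q : Qb) / a = b ∧ α a ≠ τ a := by
      intro hmem
      obtain ⟨_, c, hc, hca, hcne⟩ := Finset.mem_filter.1 hmem
      rcases GEN_fib ha.1 hc.1 hca.symm with h7 | h7
      · exact hcne (by rw [h7, h5])
      · apply hcne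
        rw [h7, GEN_div, h5, hτq a ha]
    rw [(hσ a ha).2 h6, h5]
  · have h6 : a + (q : Qb) / a ∈ hfin.toFinset.filter fun b => ∃ a ∈ Om q h, a + (q : Qb) / a = b ∧ α a ≠ τ a :=
      Finset.mem_filter.2 ⟨hfin.mem_toFinset.2 ha.2, a, ha, rfl, h5⟩
    rw [(hσ a ha).1 h6, GEN_div, (hα' a ha).resolve_left h5, GEN_qdiv hq]

end

end Pool.Agent.TJ2
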