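import Pool.Agent.TJ2.Stmts
import Mathlib

/-!
# Many irreducible polynomials over a prime field
-/

namespace Pool.Agent.TJ2

open Polynomial

/-- finiteness of the set of polynomials -/
theorem IRRC_fin (n l : ℕ) [Fact l.Prime] :
    {r : (ZMod l)[X] | r.Monic ∧ Irreducible r ∧ r.natDegree = n}.Finite := by
  have h1 : Finite (Polynomial.degreeLT (ZMod l) (n + 1)) :=
    Finite.of_equiv _ (Polynomial.degreeLTEquiv (ZMod l) (n + 1)).symm.toEquiv
  have h2 : ((Polynomial.degreeLT (ZMod l) (n + 1) : Submodule (ZMod l) (ZMod l)[X]) :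
      Set (ZMod l)[X]).Finite := Set.toFinite _
  refine h2.subset ?_
  rintro r ⟨h3, -, h4⟩
  simp only [SetLike.mem_coe, Polynomial.mem_degreeLT]
  rw [Polynomial.degree_eq_natDegree h3.ne_zero, h4]
  exact_mod_cast Nat.lt_succ_self n

theorem IRRC_sum (l : ℕ) (hl : 2 ≤ l) (m : ℕ) : ∑ d ∈ Finset.Icc 1 m, l ^ d + 2 ≤ 2 * l ^ m := by
  induction m with
  | zero => simp
  | succ m ih =>
    rw [Finset.sum_Icc_succ_top (by omega)]
    have h1 : 2 * l ^ m ≤ l * l ^ m := Nat.mul_le_mul_right _ hl
    rw [pow_succ']
    omega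

theorem IRRC_roots (l : ℕ) [Fact l.Prime] (K : Type) [Field K] [Fintype K] [DecidableEq K]
    (d : ℕ) (hd : 1 ≤ d) : (Finset.univ.filter fun x : K => x ^ l ^ d = x).card ≤ l ^ d := by
  have hl := (Fact.out : l.Prime).one_lt
  have h1 : 1 < l ^ d := Nat.one_lt_pow (by omega) hl
  have h2 : (X ^ l ^ d - X : K[X]) ≠ 0 := FiniteField.X_pow_card_sub_X_ne_zero K h1
  have h3 : (Finset.univ.filter fun x : K => x ^ l ^ d = x) ⊆
      (X ^ l ^ d - X : K[X]).roots.toFinset := by
    intro x hx
    rw [Multiset.mem_toFinset, Polynomial.mem_roots h2]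
    simp only [Finset.mem_filter, Finset.mem_univ, true_and] at hx
    simp [Polynomial.IsRoot, hx]
  refine (Finset.card_le_card h3).trans ((Multiset.toFinset_card_le _).trans ?_)
  refine (Polynomial.card_roots' _).trans ?_
  rw [FiniteField.X_pow_card_sub_X_natDegree_eq K h1]

theorem IRRC_pow (l : ℕ) [Fact l.Prime] (K : Type) [Field K] [Fintype K] [Algebra (ZMod l) K]
    (x : K) : x ^ l ^ (minpoly (ZMod l) x).natDegree = x := by
  have hfd : FiniteDimensional (ZMod l) K := Module.Finite.of_finite
  have hx : IsIntegral (ZMod l) x := Algebra.IsIntegral.isIntegral x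
  have h1 := IntermediateField.adjoin.finrank hx
  let E := IntermediateField.adjoin (ZMod l) {x}
  have hE : Fintype E := Fintype.ofFinite E
  have h2 : Fintype.card E = l ^ (minpoly (ZMod l) x).natDegree := by
    rw [← h1, ← Nat.card_eq_fintype_card, Module.natCard_eq_pow_finrank (K := ZMod l),
      Nat.card_zmod]
  have h3 := FiniteField.pow_card (⟨x, IntermediateField.mem_adjoin_simple_self _ x⟩ : E)
  rw [h2] at h3
  have h4 := congrArg (fun y : E => (y : K)) h3
  simpa using h4

theorem IRRC_main (n l : ℕ) (hn : 1 ≤ n) [Fact l.Prime] :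
    l ^ n + 2 ≤ n * {r : (ZMod l)[X] | r.Monic ∧ Irreducible r ∧ r.natDegree = n}.ncard +
      2 * l ^ (n / 2) := by
  classical
  have hl := (Fact.out : l.Prime).two_le
  have hfin : Fintype (GaloisField l n) := Fintype.ofFinite _
  have hc : Fintype.card (GaloisField l n) = l ^ n := by
    rw [← Nat.card_eq_fintype_card, GaloisField.card l n (by omega)]
  have hfr : Module.finrank (ZMod l) (GaloisField l n) = n := GaloisField.finrank l (by omega)
  let A : Finset (GaloisField l n) :=
    Finset.univ.filter fun x => (minpoly (ZMod l) x).natDegree = n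
  let S := (IRRC_fin n l).toFinset
  -- the elements of degree n
  have h1 : A.card ≤ n * S.card := by
    have h2 : A.card ≤ n * (A.image fun x => minpoly (ZMod l) x).card := by
      refine Finset.card_le_mul_card_image A n ?_
      intro r hr
      obtain ⟨y, hy, hyr⟩ := Finset.mem_image.1 hr
      have hint : IsIntegral (ZMod l) y := Algebra.IsIntegral.isIntegral y
      have hmon : r.Monic := by rw [← hyr]; exact minpoly.monic hint
      have hdeg : r.natDegree = n := by rw [← hyr]; exact (Finset.mem_filter.1 hy).2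
      have h3 : (A.filter fun x => minpoly (ZMod l) x = r) ⊆
          (r.map (algebraMap (ZMod l) (GaloisField l n))).roots.toFinset := by
        intro x hx
        have h4 := (Finset.mem_filter.1 hx).2
        rw [Multiset.mem_toFinset, Polynomial.mem_roots (hmon.map _).ne_zero, Polynomial.IsRoot,
          Polynomial.eval_map_algebraMap, ← h4]
        exact minpoly.aeval _ _
      refine (Finset.card_le_card h3).trans ((Multiset.toFinset_card_le _).trans ?_)
      refine (Polynomial.card_roots' _).trans ?_
      rw [hmon.natDegree_map, hdeg]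
    refine h2.trans (Nat.mul_le_mul_left _ (Finset.card_le_card ?_))
    intro r hr
    obtain ⟨y, hy, hyr⟩ := Finset.mem_image.1 hr
    have hint : IsIntegral (ZMod l) y := Algebra.IsIntegral.isIntegral y
    simp only [S, Set.Finite.mem_toFinset, Set.mem_ofPred_eq]
    rw [← hyr]
    exact ⟨minpoly.monic hint, minpoly.irreducible hint, (Finset.mem_filter.1 hy).2⟩
  -- the other elements
  have h5 : (Finset.univ.filter fun x : GaloisField l n =>
      ¬ (minpoly (ZMod l) x).natDegree = n).card ≤ ∑ d ∈ Finset.Icc 1 (n / 2), l ^ d := by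
    have h6 : (Finset.univ.filter fun x : GaloisField l n =>
        ¬ (minpoly (ZMod l) x).natDegree = n) ⊆ (Finset.Icc 1 (n / 2)).biUnion fun d =>
        Finset.univ.filter fun x : GaloisField l n => x ^ l ^ d = x := by
      intro x hx
      have h7 := (Finset.mem_filter.1 hx).2
      have hint : IsIntegral (ZMod l) x := Algebra.IsIntegral.isIntegral x
      have h8 : (minpoly (ZMod l) x).natDegree ∣ n := by
        have := minpoly.degree_dvd hint
        rwa [hfr] at this
      have h9 := minpoly.natDegree_pos hint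
      obtain ⟨e, he⟩ := h8
      have he2 : 2 ≤ e := by
        by_contra h
        have : e = 0 ∨ e = 1 := by omega
        rcases this with h | h
        · rw [h] at he; omega
        · rw [h] at he; omega
      refine Finset.mem_biUnion.2 ⟨(minpoly (ZMod l) x).natDegree, ?_, ?_⟩
      · rw [Finset.mem_Icc]
        refine ⟨h9, ?_⟩
        rw [Nat.le_div_iff_mul_le (by omega)]
        calc (minpoly (ZMod l) x).natDegree * 2 ≤ (minpoly (ZMod l) x).natDegree * e :=
              Nat.mul_le_mul_left _ he2
          _ = n := he.symm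
      · exact Finset.mem_filter.2 ⟨Finset.mem_univ _, IRRC_pow l _ x⟩
    refine (Finset.card_le_card h6).trans (Finset.card_biUnion_le.trans ?_)
    refine Finset.sum_le_sum fun d hd => ?_
    exact IRRC_roots l _ d (Finset.mem_Icc.1 hd).1
  have h10 : A.card + (Finset.univ.filter fun x : GaloisField l n =>
      ¬ (minpoly (ZMod l) x).natDegree = n).card = l ^ n := by
    rw [Finset.card_filter_add_card_filter_not, Finset.card_univ, hc]
  have h11 := IRRC_sum l hl (n / 2)
  have h12 : S.card = {r : (ZMod l)[X] | r.Monic ∧ Irreducible r ∧ r.natDegree = n}.ncard := by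
    rw [Set.ncard_eq_toFinset_card _ (IRRC_fin n l)]
  rw [← h12]
  omega

theorem t_IRRC : S_IRRC := by
  intro n hn l _
  have h1 := IRRC_main n l hn
  have hl := (Fact.out : l.Prime).two_le
  have h2 : ((l : ℝ) ^ n + 2) ≤ n * ({r : (ZMod l)[X] | r.Monic ∧ Irreducible r ∧
      r.natDegree = n}.ncard : ℝ) + 2 * (l : ℝ) ^ (n / 2) := by exact_mod_cast h1
  have h3 : ((l : ℝ) ^ (n / 2)) ^ 2 ≤ (l : ℝ) ^ n := by
    rw [← pow_mul]
    exact pow_le_pow_right₀ (by exact_mod_cast (by omega : 1 ≤ l)) (by omega)
  nlinarith [sq_nonneg ((l : ℝ) ^ (n / 2) - 4 / 3)]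

end Pool.Agent.TJ2
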