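import Pool.Agent.TJ2.BOX

/-!
# Theorem J: lower bound for the number of ordinary real Weil polynomials
-/

open Polynomial

namespace Pool.Agent.TJ2

noncomputable section

/-- the nodes, `-2 < y 0 < y 1 < ... < y (2 g) < 2` -/
def LOW_y (g n : ℕ) : ℝ := -2 + 2 * ((n : ℝ) + 1) / ((g : ℝ) + 1)

/-- the model polynomial -/
def LOW_h (g : ℕ) : ℝ[X] := ∏ i ∈ Finset.range g, (X - C (LOW_y g (2 * i + 1)))

theorem LOW_h_monic (g : ℕ) : (LOW_h g).Monic :=
  monic_prod_of_monic _ _ fun _ _ => monic_X_sub_C _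

theorem LOW_h_natDegree (g : ℕ) : (LOW_h g).natDegree = g := by
  unfold LOW_h
  rw [natDegree_prod_of_monic _ _ fun _ _ => monic_X_sub_C _]
  simp

theorem LOW_h_eval (g : ℕ) (x : ℝ) :
    (LOW_h g).eval x = x ^ g + ∑ i ∈ Finset.range g, (LOW_h g).coeff i * x ^ i := by
  rw [eval_eq_sum_range, LOW_h_natDegree, Finset.sum_range_succ, add_comm]
  congr 1
  have h1 := LOW_h_monic g
  rw [Monic, leadingCoeff, LOW_h_natDegree] at h1
  rw [h1, one_mul]

theorem LOW_sub (g a b : ℕ) : LOW_y g a - LOW_y g b = 2 * ((a : ℝ) - b) / ((g : ℝ) + 1) := by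
  unfold LOW_y
  have : (g : ℝ) + 1 ≠ 0 := by positivity
  field_simp
  ring

theorem LOW_lt {g a b : ℕ} (h : a < b) : LOW_y g a < LOW_y g b := by
  have h1 := LOW_sub g b a
  have h2 : (0 : ℝ) < 2 * ((b : ℝ) - a) / ((g : ℝ) + 1) := by
    have : (a : ℝ) < b := by exact_mod_cast h
    have : (0 : ℝ) < (b : ℝ) - a := by linarith
    positivity
  linarith

theorem LOW_abs {g n : ℕ} (h : n ≤ 2 * g) : |LOW_y g n| ≤ 2 := by
  have h0 : (0 : ℝ) < (g : ℝ) + 1 := by positivity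
  have h1 : (n : ℝ) ≤ 2 * g := by exact_mod_cast h
  have h2 : 0 ≤ 2 * ((n : ℝ) + 1) / ((g : ℝ) + 1) := by positivity
  have h3 : 2 * ((n : ℝ) + 1) / ((g : ℝ) + 1) ≤ 4 := by
    rw [div_le_iff₀ h0]
    linarith
  unfold LOW_y
  rw [abs_le]
  constructor <;> linarith

/-- the signs of the model polynomial at the even nodes -/
theorem LOW_sign (g j : ℕ) (hj : j ≤ g) :
    (2 / ((g : ℝ) + 1)) ^ g ≤ (-1) ^ (g - j) * (LOW_h g).eval (LOW_y g (2 * j)) := by
  have h0 : (0 : ℝ) < (g : ℝ) + 1 := by positivity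
  have hev : (LOW_h g).eval (LOW_y g (2 * j)) =
      ∏ i ∈ Finset.range g, (LOW_y g (2 * j) - LOW_y g (2 * i + 1)) := by
    unfold LOW_h
    rw [eval_prod]
    refine Finset.prod_congr rfl fun i _ => ?_
    rw [eval_sub, eval_X, eval_C]
  have hsplit : ∀ f : ℕ → ℝ, ∏ i ∈ Finset.range g, f i =
      (∏ i ∈ Finset.range j, f i) * ∏ i ∈ Finset.Ico j g, f i := by
    intro f
    rw [Finset.range_eq_Ico, Finset.range_eq_Ico, Finset.prod_Ico_consecutive f (Nat.zero_le j) hj]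
  have hneg : ∏ i ∈ Finset.Ico j g, (LOW_y g (2 * j) - LOW_y g (2 * i + 1)) =
      (-1) ^ (g - j) * ∏ i ∈ Finset.Ico j g, (LOW_y g (2 * i + 1) - LOW_y g (2 * j)) := by
    have h1 : ∏ i ∈ Finset.Ico j g, (LOW_y g (2 * j) - LOW_y g (2 * i + 1)) =
        ∏ i ∈ Finset.Ico j g, ((-1) * (LOW_y g (2 * i + 1) - LOW_y g (2 * j))) := by
      refine Finset.prod_congr rfl fun i _ => ?_
      ring
    rw [h1, Finset.prod_mul_distrib, Finset.prod_const, Nat.card_Ico]
  have hkey : (-1) ^ (g - j) * (LOW_h g).eval (LOW_y g (2 * j)) =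
      (∏ i ∈ Finset.range j, (LOW_y g (2 * j) - LOW_y g (2 * i + 1))) *
        ∏ i ∈ Finset.Ico j g, (LOW_y g (2 * i + 1) - LOW_y g (2 * j)) := by
    rw [hev, hsplit, hneg]
    have h1 : ((-1 : ℝ) ^ (g - j)) * (-1) ^ (g - j) = 1 := by
      rw [← mul_pow]
      norm_num
    calc (-1) ^ (g - j) * ((∏ i ∈ Finset.range j, (LOW_y g (2 * j) - LOW_y g (2 * i + 1))) *
          ((-1) ^ (g - j) * ∏ i ∈ Finset.Ico j g, (LOW_y g (2 * i + 1) - LOW_y g (2 * j)))) =
        (((-1 : ℝ) ^ (g - j)) * (-1) ^ (g - j)) *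
          ((∏ i ∈ Finset.range j, (LOW_y g (2 * j) - LOW_y g (2 * i + 1))) *
          ∏ i ∈ Finset.Ico j g, (LOW_y g (2 * i + 1) - LOW_y g (2 * j))) := by ring
      _ = _ := by rw [h1, one_mul]
  rw [hkey]
  have hc : (2 / ((g : ℝ) + 1)) ^ g = (∏ _i ∈ Finset.range j, (2 / ((g : ℝ) + 1))) *
      ∏ _i ∈ Finset.Ico j g, (2 / ((g : ℝ) + 1)) := by
    rw [← hsplit (fun _ => 2 / ((g : ℝ) + 1)), Finset.prod_const, Finset.card_range]
  rw [hc]
  have hp : (0 : ℝ) ≤ 2 / ((g : ℝ) + 1) := by positivity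
  refine mul_le_mul ?_ ?_ (Finset.prod_nonneg fun _ _ => hp) ?_
  · refine Finset.prod_le_prod (fun _ _ => hp) fun i hi => ?_
    rw [Finset.mem_range] at hi
    rw [LOW_sub, div_le_div_iff_of_pos_right h0]
    have : (i : ℝ) + 1 ≤ j := by exact_mod_cast hi
    push_cast
    linarith
  · refine Finset.prod_le_prod (fun _ _ => hp) fun i hi => ?_
    rw [Finset.mem_Ico] at hi
    rw [LOW_sub, div_le_div_iff_of_pos_right h0]
    have : (j : ℝ) ≤ i := by exact_mod_cast hi.1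
    push_cast
    linarith
  · refine Finset.prod_nonneg fun i hi => ?_
    rw [Finset.mem_range] at hi
    have := LOW_lt (g := g) (show 2 * i + 1 < 2 * j by omega)
    linarith

theorem LOW_root {f : ℝ → ℝ} (hf : Continuous f) {a b : ℝ} (hab : a < b) (h : f a * f b < 0) :
    ∃ c, a < c ∧ c < b ∧ f c = 0 := by
  rcases mul_neg_iff.1 h with ⟨h1, h2⟩ | ⟨h1, h2⟩
  · obtain ⟨c, hc, hc'⟩ := intermediate_value_Ioo' hab.le hf.continuousOn
      (show (0 : ℝ) ∈ Set.Ioo (f b) (f a) from ⟨h2, h1⟩)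
    exact ⟨c, hc.1, hc.2, hc'⟩
  · obtain ⟨c, hc, hc'⟩ := intermediate_value_Ioo hab.le hf.continuousOn
      (show (0 : ℝ) ∈ Set.Ioo (f a) (f b) from ⟨h1, h2⟩)
    exact ⟨c, hc.1, hc.2, hc'⟩

theorem LOW_mk_monic (g : ℕ) (v : Fin g → ℤ) : (mk g v).Monic :=
  monic_X_pow_add (degree_sum_fin_lt v)

theorem LOW_mk_natDegree (g : ℕ) (v : Fin g → ℤ) : (mk g v).natDegree = g := by
  have h := degree_sum_fin_lt v
  unfold mk
  rw [natDegree_add_eq_left_of_degree_lt, natDegree_X_pow]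
  rwa [degree_X_pow]

theorem LOW_mk_coeff (g : ℕ) (v : Fin g → ℤ) (i : Fin g) : (mk g v).coeff (i : ℕ) = v i := by
  unfold mk
  rw [coeff_add, coeff_X_pow, if_neg i.2.ne, zero_add, finsetSum_coeff,
    Finset.sum_eq_single i]
  · rw [coeff_C_mul, coeff_X_pow, if_pos rfl, mul_one]
  · intro b _ hb
    rw [coeff_C_mul, coeff_X_pow, if_neg, mul_zero]
    intro h
    exact hb (Fin.ext h.symm)
  · intro h
    exact absurd (Finset.mem_univ i) h

theorem LOW_mk_aeval (g : ℕ) (v : Fin g → ℤ) (x : ℝ) :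
    aeval x (mk g v) = x ^ g + ∑ i : Fin g, (v i : ℝ) * x ^ (i : ℕ) := by
  unfold mk
  rw [map_add, map_pow, aeval_X, map_sum]
  congr 1
  refine Finset.sum_congr rfl fun i _ => ?_
  rw [map_mul, map_pow, aeval_X, aeval_C]
  rfl

/-- polynomials near the model polynomial have real roots -/
theorem LOW_near {g q : ℕ} {η : ℝ} (hη : η * (g * 2 ^ g) < (2 / ((g : ℝ) + 1)) ^ g)
    (hq : 1 ≤ q) (v : Fin g → ℤ)
    (hv : ∀ i : Fin g, |(v i : ℝ) - (LOW_h g).coeff i * Real.sqrt q ^ (g - (i : ℕ))| ≤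
      η * Real.sqrt q ^ (g - (i : ℕ))) : mk g v ∈ RW g q := by
  classical
  set s := Real.sqrt q with hs
  have hs0 : 0 < s := Real.sqrt_pos.2 (by exact_mod_cast hq)
  let f : ℝ → ℝ := fun x => aeval (s * x) (mk g v)
  have hfc : Continuous f := (Polynomial.continuous_aeval _).comp (continuous_const.mul continuous_id)
  -- the estimate
  have hest : ∀ x : ℝ, |x| ≤ 2 → |f x - s ^ g * (LOW_h g).eval x| ≤ s ^ g * (η * (g * 2 ^ g)) := by
    intro x hx
    have e1 : f x - s ^ g * (LOW_h g).eval x =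
        ∑ i : Fin g, ((v i : ℝ) - (LOW_h g).coeff i * s ^ (g - (i : ℕ))) * s ^ (i : ℕ) * x ^ (i : ℕ) := by
      show aeval (s * x) (mk g v) - _ = _
      rw [LOW_mk_aeval, LOW_h_eval, Finset.sum_range, mul_add, Finset.mul_sum, mul_pow,
        add_sub_add_left_eq_sub, ← Finset.sum_sub_distrib]
      refine Finset.sum_congr rfl fun i _ => ?_
      have e2 : s ^ g = s ^ (g - (i : ℕ)) * s ^ (i : ℕ) := by
        rw [← pow_add, Nat.sub_add_cancel i.2.le]
      rw [e2, mul_pow]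
      ring
    rw [e1]
    refine (Finset.abs_sum_le_sum_abs _ _).trans ?_
    have e3 : ∀ i ∈ (Finset.univ : Finset (Fin g)),
        |((v i : ℝ) - (LOW_h g).coeff i * s ^ (g - (i : ℕ))) * s ^ (i : ℕ) * x ^ (i : ℕ)| ≤
          s ^ g * (η * 2 ^ g) := by
      intro i _
      rw [abs_mul, abs_mul, abs_pow, abs_pow, abs_of_pos hs0]
      have e2 : s ^ g = s ^ (g - (i : ℕ)) * s ^ (i : ℕ) := by
        rw [← pow_add, Nat.sub_add_cancel i.2.le]
      have hη0 : 0 ≤ η * s ^ (g - (i : ℕ)) := (abs_nonneg _).trans (hv i)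
      have h2 : |x| ^ (i : ℕ) ≤ 2 ^ g :=
        (pow_le_pow_left₀ (abs_nonneg x) hx _).trans
          (pow_le_pow_right₀ (by norm_num) i.2.le)
      calc |(v i : ℝ) - (LOW_h g).coeff i * s ^ (g - (i : ℕ))| * s ^ (i : ℕ) * |x| ^ (i : ℕ) ≤
            (η * s ^ (g - (i : ℕ))) * s ^ (i : ℕ) * 2 ^ g := by
            refine mul_le_mul (mul_le_mul_of_nonneg_right (hv i) (by positivity)) h2
              (by positivity) (by positivity)
        _ = s ^ g * (η * 2 ^ g) := by rw [e2]; ring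
    refine (Finset.sum_le_card_nsmul _ _ _ e3).trans (le_of_eq ?_)
    rw [Finset.card_univ, Fintype.card_fin, nsmul_eq_mul]
    ring
  -- the signs
  have hsign : ∀ j ≤ g, 0 < (-1) ^ (g - j) * f (LOW_y g (2 * j)) := by
    intro j hj
    have h1 := hest (LOW_y g (2 * j)) (LOW_abs (by omega))
    have h2 := LOW_sign g j hj
    have h3 : |(-1) ^ (g - j) * (f (LOW_y g (2 * j)) - s ^ g * (LOW_h g).eval (LOW_y g (2 * j)))| ≤
        s ^ g * (η * (g * 2 ^ g)) := by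
      rw [abs_mul, abs_pow, abs_neg, abs_one, one_pow, one_mul]
      exact h1
    have h4 := (abs_le.1 h3).1
    have hsg : 0 < s ^ g := by positivity
    have h5 : s ^ g * (η * (g * 2 ^ g)) < s ^ g * (2 / ((g : ℝ) + 1)) ^ g :=
      mul_lt_mul_of_pos_left hη hsg
    have h6 : s ^ g * (2 / ((g : ℝ) + 1)) ^ g ≤
        s ^ g * ((-1) ^ (g - j) * (LOW_h g).eval (LOW_y g (2 * j))) :=
      mul_le_mul_of_nonneg_left h2 hsg.le
    nlinarith [h4, h5, h6]
  -- the roots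
  have hroot : ∀ j : Fin g, ∃ c, LOW_y g (2 * (j : ℕ)) < c ∧ c < LOW_y g (2 * ((j : ℕ) + 1)) ∧
      f c = 0 := by
    intro j
    refine LOW_root hfc (LOW_lt (by omega)) ?_
    have h1 := hsign j j.2.le
    have h2 := hsign (j + 1) j.2
    have h3 : (g - (j : ℕ)) = (g - ((j : ℕ) + 1)) + 1 := by have := j.2; omega
    rw [h3, pow_succ] at h1
    have h4 : 0 < ((-1 : ℝ) ^ (g - ((j : ℕ) + 1)) * -1 * f (LOW_y g (2 * (j : ℕ)))) *
        ((-1) ^ (g - ((j : ℕ) + 1)) * f (LOW_y g (2 * ((j : ℕ) + 1)))) := mul_pos h1 h2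
    have h5 : ((-1 : ℝ) ^ (g - ((j : ℕ) + 1))) * (-1) ^ (g - ((j : ℕ) + 1)) = 1 := by
      rw [← mul_pow]
      norm_num
    have h6 : ((-1 : ℝ) ^ (g - ((j : ℕ) + 1)) * -1 * f (LOW_y g (2 * (j : ℕ)))) *
        ((-1) ^ (g - ((j : ℕ) + 1)) * f (LOW_y g (2 * ((j : ℕ) + 1)))) =
        -(((-1 : ℝ) ^ (g - ((j : ℕ) + 1))) * (-1) ^ (g - ((j : ℕ) + 1))) *
          (f (LOW_y g (2 * (j : ℕ))) * f (LOW_y g (2 * ((j : ℕ) + 1)))) := by ring
    rw [h6, h5] at h4
    linarith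
  choose c hc1 hc2 hc3 using hroot
  have hcabs : ∀ j, |c j| ≤ 2 := by
    intro j
    have h1 := (abs_le.1 (LOW_abs (g := g) (n := 2 * (j : ℕ)) (by have := j.2; omega))).1
    have h2 := (abs_le.1 (LOW_abs (g := g) (n := 2 * ((j : ℕ) + 1)) (by have := j.2; omega))).2
    have h3 := hc1 j
    have h4 := hc2 j
    rw [abs_le]
    constructor <;> linarith
  have hmono : StrictMono c := by
    intro i j hij
    have h1 : LOW_y g (2 * ((i : ℕ) + 1)) ≤ LOW_y g (2 * (j : ℕ)) := by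
      rcases eq_or_lt_of_le (show 2 * ((i : ℕ) + 1) ≤ 2 * (j : ℕ) by
        have : (i : ℕ) < j := hij
        omega) with h | h
      · rw [h]
      · exact (LOW_lt h).le
    exact (hc2 i).trans_le (h1.trans (hc1 j).le)
  refine ⟨LOW_mk_monic g v, LOW_mk_natDegree g v, ?_⟩
  set P : ℂ[X] := (mk g v).map (Int.castRingHom ℂ) with hP
  have hPm : P.Monic := (LOW_mk_monic g v).map _
  have hPd : P.natDegree = g := by
    rw [hP, (LOW_mk_monic g v).natDegree_map, LOW_mk_natDegree]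
  have hPr : ∀ z : ℂ, z ∈ P.roots.toFinset ↔ aeval z (mk g v) = 0 := by
    intro z
    rw [Multiset.mem_toFinset, mem_roots hPm.ne_zero, IsRoot.def, hP, eval_map, aeval_def]
    rfl
  let R : Finset ℂ := Finset.univ.image fun j : Fin g => ((s * c j : ℝ) : ℂ)
  have hRc : R.card = g := by
    show (Finset.univ.image fun j : Fin g => ((s * c j : ℝ) : ℂ)).card = g
    rw [Finset.card_image_of_injective, Finset.card_univ, Fintype.card_fin]
    intro i j hij
    have h0 : ((s * c i : ℝ) : ℂ) = ((s * c j : ℝ) : ℂ) := hij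
    have h1 : s * c i = s * c j := Complex.ofReal_injective h0
    exact hmono.injective (mul_left_cancel₀ hs0.ne' h1)
  have hRs : R ⊆ P.roots.toFinset := by
    intro z hz
    rw [Finset.mem_image] at hz
    obtain ⟨j, -, rfl⟩ := hz
    rw [hPr]
    have h1 : aeval (s * c j) (mk g v) = 0 := hc3 j
    have h2 := congrArg (fun x : ℝ => (x : ℂ)) h1
    simp only [Complex.ofReal_zero] at h2
    rw [← h2]
    exact (Polynomial.aeval_algebraMap_apply ℂ (s * c j) (mk g v))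
  have hReq : R = P.roots.toFinset := by
    refine Finset.eq_of_subset_of_card_le hRs ?_
    rw [hRc]
    refine (Multiset.toFinset_card_le _).trans ?_
    rw [← hPd]
    exact P.card_roots'
  intro z hz
  have h1 : z ∈ R := by
    rw [hReq, hPr]
    exact hz
  rw [Finset.mem_image] at h1
  obtain ⟨j, -, rfl⟩ := h1
  refine ⟨Complex.ofReal_im _, ?_⟩
  rw [Complex.ofReal_re, abs_mul, abs_of_pos hs0, mul_comm]
  exact mul_le_mul_of_nonneg_right (hcabs j) hs0.le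

/-- one of `2 k`, `2 k + 1`, not divisible by `p` -/
def LOW_x (p k : ℤ) : ℤ := if p ∣ 2 * k then 2 * k + 1 else 2 * k

theorem LOW_x_dvd {p : ℤ} (hp : ¬ IsUnit p) (k : ℤ) : ¬ p ∣ LOW_x p k := by
  unfold LOW_x
  split_ifs with h
  · intro h1
    exact hp (isUnit_of_dvd_one ((Int.dvd_add_right h).1 h1))
  · exact h

theorem LOW_x_div (p k : ℤ) : LOW_x p k / 2 = k := by
  unfold LOW_x
  split_ifs <;> omega

theorem LOW_x_bd (p k : ℤ) : 2 * k ≤ LOW_x p k ∧ LOW_x p k ≤ 2 * k + 1 := by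
  unfold LOW_x
  split_ifs <;> constructor <;> omega

theorem LOW_card (A B : ℝ) :
    (B - A) / 2 - 3 / 2 ≤ ((Finset.Icc ⌈A / 2⌉ ⌊(B - 1) / 2⌋).card : ℝ) := by
  rw [Int.card_Icc]
  have h1 := Int.lt_floor_add_one ((B - 1) / 2)
  have h2 := Int.ceil_lt_add_one (A / 2)
  have h3 : (((⌊(B - 1) / 2⌋ + 1 - ⌈A / 2⌉ : ℤ)) : ℝ) ≤
      (((⌊(B - 1) / 2⌋ + 1 - ⌈A / 2⌉).toNat : ℕ) : ℝ) := by
    exact_mod_cast Int.self_le_toNat _
  push_cast at h3
  linarith

end

theorem t_LOW : S_LOW := by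
  classical
  intro g hg
  set μ : ℝ := (2 / ((g : ℝ) + 1)) ^ g with hμ
  have hμ0 : 0 < μ := by positivity
  set η : ℝ := μ / (g * 2 ^ g + 1) with hη
  have hη0 : 0 < η := by positivity
  have hηlt : η * (g * 2 ^ g) < μ := by
    rw [hη, div_mul_eq_mul_div, div_lt_iff₀ (by positivity)]
    nlinarith
  refine ⟨(η / 2) ^ g, by positivity, ⌈(3 / η) ^ 2⌉₊ + 1, fun q hq hpp => ?_⟩
  have hq1 : 1 ≤ q := by omega
  set s := Real.sqrt q with hs
  have hs1 : 1 ≤ s := by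
    rw [hs, Real.one_le_sqrt]
    exact_mod_cast hq1
  have hs0 : 0 < s := by linarith
  have hs3 : 3 / η ≤ s := by
    refine Real.le_sqrt_of_sq_le ?_
    have h1 := Nat.le_ceil ((3 / η) ^ 2)
    have h2 : ((⌈(3 / η) ^ 2⌉₊ : ℕ) : ℝ) ≤ q := by exact_mod_cast (by omega : ⌈(3 / η) ^ 2⌉₊ ≤ q)
    linarith
  let a : Fin g → ℝ := fun i => (LOW_h g).coeff (i : ℕ) * s ^ (g - (i : ℕ))
  let A : Fin g → ℝ := fun i => a i - η * s ^ (g - (i : ℕ))
  let B : Fin g → ℝ := fun i => a i + η * s ^ (g - (i : ℕ))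
  let J : Fin g → Finset ℤ := fun i => Finset.Icc ⌈A i / 2⌉ ⌊(B i - 1) / 2⌋
  let p : ℤ := (q.minFac : ℤ)
  have hpu : ¬ IsUnit p := by
    have h1 : q ≠ 1 := hpp.ne_one
    have h2 := Nat.minFac_prime h1
    intro h
    exact (Nat.prime_iff_prime_int.1 h2).not_isUnit h
  let Φ : (Fin g → ℤ) → ℤ[X] := fun k => mk g fun i => LOW_x p (k i)
  have hinj : Function.Injective Φ := by
    intro k k' h
    funext i
    have h1 := congrArg (fun P : ℤ[X] => P.coeff (i : ℕ)) h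
    simp only [Φ, LOW_mk_coeff] at h1
    rw [← LOW_x_div p (k i), h1, LOW_x_div]
  have hsub : ((Fintype.piFinset J).image Φ : Set ℤ[X]) ⊆ Ord g q := by
    intro P hP
    rw [Finset.coe_image] at hP
    obtain ⟨k, hk, rfl⟩ := hP
    rw [Finset.mem_coe, Fintype.mem_piFinset] at hk
    refine ⟨?_, ?_⟩
    · refine LOW_near (η := η) hηlt hq1 _ ?_
      intro i
      have h1 := hk i
      simp only [J, Finset.mem_Icc] at h1
      have h2 := Int.ceil_le.1 h1.1
      have h3 := Int.le_floor.1 h1.2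
      obtain ⟨h4, h5⟩ := LOW_x_bd p (k i)
      have h6 : (2 : ℝ) * (k i : ℝ) ≤ (LOW_x p (k i) : ℝ) := by exact_mod_cast h4
      have h7 : (LOW_x p (k i) : ℝ) ≤ 2 * (k i : ℝ) + 1 := by exact_mod_cast h5
      have h8 : A i = (LOW_h g).coeff (i : ℕ) * s ^ (g - (i : ℕ)) - η * s ^ (g - (i : ℕ)) := rfl
      have h9 : B i = (LOW_h g).coeff (i : ℕ) * s ^ (g - (i : ℕ)) + η * s ^ (g - (i : ℕ)) := rfl
      rw [abs_le]
      constructor <;> linarith
    · have h1 := LOW_mk_coeff g (fun i => LOW_x p (k i)) ⟨0, hg⟩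
      have h2 : (Φ k).coeff 0 = LOW_x p (k ⟨0, hg⟩) := h1
      rw [h2]
      exact LOW_x_dvd hpu _
  have hfin : (Ord g q).Finite := (t_BOX g q).1.subset fun _ h => h.1
  have hcard : ∏ i : Fin g, (J i).card ≤ (Ord g q).ncard := by
    have h1 := Set.ncard_le_ncard hsub hfin
    rwa [Set.ncard_coe_finset, Finset.card_image_of_injective _ hinj, Fintype.card_piFinset] at h1
  have hreal : ∏ i : Fin g, ((J i).card : ℝ) ≤ ((Ord g q).ncard : ℝ) := by exact_mod_cast hcard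
  refine le_trans ?_ hreal
  have hJ : ∀ i : Fin g, η / 2 * s ^ (g - (i : ℕ)) ≤ ((J i).card : ℝ) := by
    intro i
    have h1 := LOW_card (A i) (B i)
    have h2 : B i - A i = 2 * (η * s ^ (g - (i : ℕ))) := by
      show a i + η * s ^ (g - (i : ℕ)) - (a i - η * s ^ (g - (i : ℕ))) = _
      ring
    have h3 : s ≤ s ^ (g - (i : ℕ)) := le_self_pow₀ hs1 (by have := i.2; omega)
    have h4 : 3 ≤ η * s ^ (g - (i : ℕ)) := by
      have h5 := hs3.trans h3
      rw [div_le_iff₀ hη0] at h5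
      linarith
    refine le_trans ?_ h1
    rw [h2]
    linarith
  have e1 : (η / 2) ^ g * Lam g q = ∏ i : Fin g, (η / 2 * s ^ (g - (i : ℕ))) := by
    unfold Lam
    rw [Finset.prod_mul_distrib, Finset.prod_const, Finset.card_univ, Fintype.card_fin,
      Finset.prod_range]
  rw [e1]
  exact Finset.prod_le_prod (fun i _ => by positivity) fun i _ => hJ i

end Pool.Agent.TJ2
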