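import Pool.Agent.TJ2.Stmts

/-!
# Theorem J: pattern (a)

If a monic integer polynomial is irreducible modulo a prime, then it has as many different roots
as its degree says, and the automorphisms of the field of algebraic numbers are transitive on them.
-/

open Polynomial IntermediateField

namespace Pool.Agent.TJ2

noncomputable section

private theorem PA_aeval (h : ℤ[X]) (b : Qb) :
    aeval b (h.map (algebraMap ℤ ℚ)) = aeval b h := by
  rw [aeval_map_algebraMap]

private theorem PA_irr (h : ℤ[X]) (l : ℕ) (hm : h.Monic) (hl : l.Prime)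
    (hi : Irreducible (red l h)) : Irreducible (h.map (algebraMap ℤ ℚ)) := by
  have : Fact l.Prime := ⟨hl⟩
  have h1 : Irreducible h :=
    Monic.irreducible_of_irreducible_map (Int.castRingHom (ZMod l)) h hm hi
  exact (hm.irreducible_iff_irreducible_map_fraction_map (K := ℚ)).1 h1

private theorem PA_rt (h : ℤ[X]) (hm : h.Monic) :
    Rt h = (h.map (algebraMap ℤ ℚ)).rootSet Qb := by
  have h0 : h.map (algebraMap ℤ ℚ) ≠ 0 := (hm.map _).ne_zero
  ext b
  rw [mem_rootSet, PA_aeval]
  exact ⟨fun hb => ⟨h0, hb⟩, fun hb => hb.2⟩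

private theorem PA_normal : Normal ℚ Qb := by
  have i : @IsAlgClosure ℚ Qb _ _ (AlgebraicClosure.instAlgebra ℚ) _ :=
    @AlgebraicClosure.instIsAlgClosure ℚ _
  have h : @Normal ℚ Qb _ _ (AlgebraicClosure.instAlgebra ℚ) :=
    @IsAlgClosure.normal ℚ Qb _ _ (AlgebraicClosure.instAlgebra ℚ) i
  have e : (DivisionRing.toRatAlgebra : Algebra ℚ Qb) = AlgebraicClosure.instAlgebra ℚ :=
    Subsingleton.elim _ _
  rw [e]
  exact h

/-- pattern (a) for one prime -/
theorem t_PA : S_PA := by
  intro g h l _ hm hg hl hi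
  have hirr := PA_irr h l hm hl hi
  have hmq : (h.map (algebraMap ℤ ℚ)).Monic := hm.map _
  refine ⟨?_, ?_⟩
  · rw [PA_rt h hm, Set.ncard_eq_toFinset_card', Set.toFinset_card,
      card_rootSet_eq_natDegree hirr.separable (IsAlgClosed.splits _), hm.natDegree_map, hg]
  · intro b hb b' hb'
    have e1 : h.map (algebraMap ℤ ℚ) = minpoly ℚ b :=
      minpoly.eq_of_irreducible_of_monic hirr ((PA_aeval h b).trans hb) hmq
    have e2 : h.map (algebraMap ℤ ℚ) = minpoly ℚ b' :=
      minpoly.eq_of_irreducible_of_monic hirr ((PA_aeval h b').trans hb') hmq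
    have hc : IsConjRoot ℚ b' b := by
      rw [isConjRoot_def, ← e1, ← e2]
    have : Normal ℚ Qb := PA_normal
    exact hc.exists_algEquiv

end

end Pool.Agent.TJ2
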