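import Pool.Agent.TJ2.Stmts

/-!
# PATA: density of the irreducible polynomials
-/

set_option autoImplicit false

open Polynomial

namespace Pool.Agent.TJ2

theorem PATA_mk_coeff {R : Type*} [CommRing R] {g : ℕ} (r : R[X]) (hr : r.Monic)
    (hd : r.natDegree = g) : mk g (fun i : Fin g => r.coeff i) = r := by
  subst hd
  have h := hr.as_sum
  rw [Finset.sum_range] at h
  exact h.symm

theorem t_PATA (hIRRC : S_IRRC) : S_PATA := by
  intro g hg
  have hg' : (1 : ℝ) ≤ g := by exact_mod_cast hg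
  refine ⟨1 / (4 * g), by positivity, ?_, ?_⟩
  · rw [div_le_one (by positivity)]
    linarith
  intro l hl
  have h1 := hIRRC g hg l
  have h2 : {r : (ZMod l)[X] | r.Monic ∧ Irreducible r ∧ r.natDegree = g}.ncard ≤
      {v : Fin g → ZMod l | Irreducible (mk g v)}.ncard := by
    apply Set.ncard_le_ncard_of_injOn (fun (r : (ZMod l)[X]) (i : Fin g) => r.coeff i)
    · rintro r ⟨hm, hi, hd⟩
      show Irreducible (mk g fun i : Fin g => r.coeff i)
      rw [PATA_mk_coeff r hm hd]
      exact hi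
    · rintro r ⟨hm, _, hd⟩ s ⟨hm', _, hd'⟩ hrs
      rw [← PATA_mk_coeff r hm hd, ← PATA_mk_coeff s hm' hd']
      exact congrArg (mk g) hrs
  have h3 : ({r : (ZMod l)[X] | r.Monic ∧ Irreducible r ∧ r.natDegree = g}.ncard : ℝ) ≤
      ({v : Fin g → ZMod l | Irreducible (mk g v)}.ncard : ℝ) := by exact_mod_cast h2
  have h4 : (l : ℝ) ^ g ≤ 4 * g * ({v : Fin g → ZMod l | Irreducible (mk g v)}.ncard : ℝ) :=
    h1.trans (by gcongr)
  rw [div_mul_eq_mul_div, one_mul, div_le_iff₀ (by positivity)]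
  linarith

end Pool.Agent.TJ2
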