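import Pool.Agent.TJ2.Stmts

/-!
# Theorem J: density of pattern (b) (module TJ_PATB, MP_6c4da4_ag)
-/

open Polynomial

namespace Pool.Agent.TJ2

noncomputable section

private lemma PATB_mk {l : ℕ} (g : ℕ) (k : (ZMod l)[X]) (hm : k.Monic) (hd : k.natDegree = g) :
    mk g (fun i : Fin g => k.coeff i) = k := by
  conv_rhs => rw [hm.as_sum]
  unfold mk
  rw [hd, Fin.sum_univ_eq_sum_range (fun i => C (k.coeff i) * X ^ i) g]

private lemma PATB_noroot {l : ℕ} [Fact l.Prime] (r : (ZMod l)[X]) (hr : Irreducible r)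
    (hd : 2 ≤ r.natDegree) (a : ZMod l) : r.eval a ≠ 0 := by
  intro h
  have h1 := Polynomial.degree_eq_one_of_irreducible_of_root hr h
  have h2 : r.natDegree = 1 := Polynomial.natDegree_eq_of_degree_eq_some h1
  omega

/-- density of pattern (b) -/
theorem t_PATB (hIRRC : S_IRRC) : S_PATB := by
  intro g hg
  obtain ⟨m, rfl⟩ : ∃ m, g = m + 1 := ⟨g - 1, by omega⟩
  have hm0 : (1 : ℝ) ≤ m := by exact_mod_cast (by omega : 1 ≤ m)
  refine ⟨1 / (4 * m), by positivity, ?_, ?_⟩
  · rw [div_le_one (by positivity)]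
    linarith
  intro l _
  have : NeZero l := ⟨(Fact.out : l.Prime).ne_zero⟩
  have hI := hIRRC m (by omega) l
  obtain ⟨R, hR⟩ : ∃ R : Set (ZMod l)[X], R = {r | r.Monic ∧ Irreducible r ∧ r.natDegree = m} :=
    ⟨_, rfl⟩
  rw [← hR] at hI
  have hRm : ∀ r, r ∈ R → r.Monic ∧ Irreducible r ∧ r.natDegree = m := by
    intro r hr
    rw [hR] at hr
    exact hr
  have hmd : ∀ (a : ZMod l) (r : (ZMod l)[X]), r ∈ R →
      ((X - C a) * r).Monic ∧ ((X - C a) * r).natDegree = m + 1 := by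
    intro a r hr
    obtain ⟨h1, h2, h3⟩ := hRm r hr
    refine ⟨(monic_X_sub_C a).mul h1, ?_⟩
    rw [(monic_X_sub_C a).natDegree_mul h1, natDegree_X_sub_C, h3]
    omega
  have key : ∀ (a : ZMod l) (r : (ZMod l)[X]), r ∈ R →
      mk (m + 1) (fun i : Fin (m + 1) => ((X - C a) * r).coeff i) = (X - C a) * r :=
    fun a r hr => PATB_mk (m + 1) _ (hmd a r hr).1 (hmd a r hr).2
  have hle : ((Set.univ : Set (ZMod l)) ×ˢ R).ncard ≤
      {v : Fin (m + 1) → ZMod l | PatB (m + 1) (mk (m + 1) v)}.ncard := by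
    apply Set.ncard_le_ncard_of_injOn
      (fun p : ZMod l × (ZMod l)[X] => fun i : Fin (m + 1) => ((X - C p.1) * p.2).coeff i)
    · rintro ⟨a, r⟩ hp
      have hr : r ∈ R := (Set.mem_prod.1 hp).2
      simp only [Set.mem_ofPred_eq]
      rw [key a r hr]
      obtain ⟨h1, h2, h3⟩ := hRm r hr
      have h4 : r.natDegree = m + 1 - 1 := by rw [h3]; rfl
      have h5 : r.eval a ≠ 0 := PATB_noroot r h2 (by rw [h3]; omega) a
      exact ⟨a, r, rfl, h2, h4, h5⟩
    · rintro ⟨a, r⟩ hp ⟨b, r'⟩ hp' he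
      have hr : r ∈ R := (Set.mem_prod.1 hp).2
      have hr' : r' ∈ R := (Set.mem_prod.1 hp').2
      have hk : (X - C a) * r = (X - C b) * r' := by
        rw [← key a r hr, ← key b r' hr']
        exact congrArg (mk (m + 1)) he
      have hab : a = b := by
        have h1 := congrArg (Polynomial.eval a) hk
        rw [eval_mul, eval_mul, eval_sub, eval_sub, eval_X, eval_C, eval_C, sub_self, zero_mul] at h1
        rcases mul_eq_zero.1 h1.symm with h2 | h2
        · exact sub_eq_zero.1 h2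
        · obtain ⟨_, h3, h4⟩ := hRm r' hr'
          exact absurd h2 (PATB_noroot r' h3 (by rw [h4]; omega) a)
      subst hab
      have hrr : r = r' := mul_left_cancel₀ (X_sub_C_ne_zero a) hk
      rw [hrr]
  rw [Set.ncard_prod, Set.ncard_univ, Nat.card_zmod] at hle
  have hle' : (l : ℝ) * (R.ncard : ℝ) ≤
      ({v : Fin (m + 1) → ZMod l | PatB (m + 1) (mk (m + 1) v)}.ncard : ℝ) := by
    exact_mod_cast hle
  refine le_trans ?_ hle'
  rw [div_mul_eq_mul_div, one_mul, div_le_iff₀ (by positivity), pow_succ]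
  calc (l : ℝ) ^ m * l ≤ (4 * m * (R.ncard : ℝ)) * l :=
        mul_le_mul_of_nonneg_right hI (by positivity)
    _ = _ := by ring

end

end Pool.Agent.TJ2
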