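import Pool.Agent.TJ2.Stmts

/-!
# Theorem J: density of pattern (c) (module TJ_PATC, MP_6c4da4_ag)
-/

open Polynomial

namespace Pool.Agent.TJ2

noncomputable section

private lemma PATC_mk {l : ℕ} (g : ℕ) (k : (ZMod l)[X]) (hm : k.Monic) (hd : k.natDegree = g) :
    mk g (fun i : Fin g => k.coeff i) = k := by
  conv_rhs => rw [hm.as_sum]
  unfold mk
  rw [hd, Fin.sum_univ_eq_sum_range (fun i => C (k.coeff i) * X ^ i) g]

private lemma PATC_noroot {l : ℕ} [Fact l.Prime] (r : (ZMod l)[X]) (hr : Irreducible r)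
    (hd : r.natDegree = 2) (a : ZMod l) : ¬ r.IsRoot a := by
  intro h
  have h1 := Polynomial.degree_eq_one_of_irreducible_of_root hr h
  have h2 : r.natDegree = 1 := Polynomial.natDegree_eq_of_degree_eq_some h1
  rw [hd] at h2
  exact absurd h2 (by norm_num)

private lemma PATC_roots {l : ℕ} [Fact l.Prime] (r : (ZMod l)[X]) (hr : Irreducible r)
    (hd : r.natDegree = 2) (s : Finset (ZMod l)) :
    (r * ∏ a ∈ s, (X - C a)).roots.toFinset = s := by
  have h1 : r * ∏ a ∈ s, (X - C a) ≠ 0 :=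
    mul_ne_zero hr.ne_zero (Finset.prod_ne_zero_iff.2 fun a _ => X_sub_C_ne_zero a)
  ext b
  rw [Multiset.mem_toFinset, Polynomial.mem_roots h1, Polynomial.IsRoot.def, eval_mul,
    Polynomial.eval_prod, mul_eq_zero, Finset.prod_eq_zero_iff]
  constructor
  · rintro (h | ⟨a, ha, h⟩)
    · exact absurd h (PATC_noroot r hr hd b)
    · rw [eval_sub, eval_X, eval_C, sub_eq_zero] at h
      rw [h]; exact ha
  · intro h
    exact Or.inr ⟨b, h, by simp⟩

/-- density of pattern (c) -/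
theorem t_PATC (hIRRC : S_IRRC) : S_PATC := by
  intro g hg
  obtain ⟨m, rfl⟩ : ∃ m, g = m + 2 := ⟨g - 2, by omega⟩
  refine ⟨1 / (8 * (2 ^ m * (m.factorial : ℝ))), by positivity, ?_, 2 * m, ?_⟩
  · rw [div_le_one (by positivity)]
    have h1 : (1 : ℝ) ≤ 2 ^ m := one_le_pow₀ (by norm_num)
    have h2 : (1 : ℝ) ≤ (m.factorial : ℝ) := by
      exact_mod_cast Nat.one_le_iff_ne_zero.2 (Nat.factorial_ne_zero m)
    nlinarith [mul_le_mul h1 h2 zero_le_one (by positivity)]
  intro l _ hl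
  have : NeZero l := ⟨(Fact.out : l.Prime).ne_zero⟩
  have hI := hIRRC 2 (by norm_num) l
  set R : Set (ZMod l)[X] := {r | r.Monic ∧ Irreducible r ∧ r.natDegree = 2} with hR
  set S : Set (Finset (ZMod l)) :=
    ((Finset.powersetCard m (Finset.univ : Finset (ZMod l)) : Finset (Finset (ZMod l))) :
      Set (Finset (ZMod l))) with hS
  have hSc : S.ncard = l.choose m := by
    rw [hS, Set.ncard_coe_finset, Finset.card_powersetCard, Finset.card_univ, ZMod.card]
  have hle : (R ×ˢ S).ncard ≤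
      {v : Fin (m + 2) → ZMod l | PatC (m + 2) (mk (m + 2) v)}.ncard := by
    apply Set.ncard_le_ncard_of_injOn
      (fun p : (ZMod l)[X] × Finset (ZMod l) =>
        fun i : Fin (m + 2) => (p.1 * ∏ a ∈ p.2, (X - C a)).coeff i)
    · rintro ⟨r, s⟩ ⟨⟨h1, h2, h3⟩, h4⟩
      have hsc : s.card = m := (Finset.mem_powersetCard.1 (Finset.mem_coe.1 h4)).2
      have hpm : (∏ a ∈ s, (X - C a)).Monic := monic_prod_of_monic _ _ fun a _ => monic_X_sub_C a
      have hpd : (∏ a ∈ s, (X - C a)).natDegree = m := by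
        rw [natDegree_prod_of_monic _ _ fun a _ => monic_X_sub_C a]
        simp [hsc]
      have hkm : (r * ∏ a ∈ s, (X - C a)).Monic := h1.mul hpm
      have hkd : (r * ∏ a ∈ s, (X - C a)).natDegree = m + 2 := by
        rw [h1.natDegree_mul hpm, h3, hpd]; omega
      change PatC (m + 2) (mk (m + 2) fun i : Fin (m + 2) => (r * ∏ a ∈ s, (X - C a)).coeff i)
      rw [PATC_mk (m + 2) _ hkm hkd]
      exact ⟨r, s, h2, h3, by rw [hsc]; rfl, rfl⟩
    · rintro ⟨r, s⟩ ⟨⟨h1, h2, h3⟩, h4⟩ ⟨r', s'⟩ ⟨⟨h1', h2', h3'⟩, h4'⟩ he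
      have key : ∀ (r : (ZMod l)[X]) (s : Finset (ZMod l)), r.Monic → r.natDegree = 2 → s ∈ S →
          mk (m + 2) (fun i : Fin (m + 2) => (r * ∏ a ∈ s, (X - C a)).coeff i) =
            r * ∏ a ∈ s, (X - C a) := by
        intro r s h1 h3 h4
        have hsc : s.card = m := (Finset.mem_powersetCard.1 (Finset.mem_coe.1 h4)).2
        have hpm : (∏ a ∈ s, (X - C a)).Monic :=
          monic_prod_of_monic _ _ fun a _ => monic_X_sub_C a
        have hpd : (∏ a ∈ s, (X - C a)).natDegree = m := by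
          rw [natDegree_prod_of_monic _ _ fun a _ => monic_X_sub_C a]
          simp [hsc]
        have hkm : (r * ∏ a ∈ s, (X - C a)).Monic := h1.mul hpm
        have hkd : (r * ∏ a ∈ s, (X - C a)).natDegree = m + 2 := by
          rw [h1.natDegree_mul hpm, h3, hpd]; omega
        exact PATC_mk (m + 2) _ hkm hkd
      have hk : r * ∏ a ∈ s, (X - C a) = r' * ∏ a ∈ s', (X - C a) := by
        rw [← key r s h1 h3 h4, ← key r' s' h1' h3' h4']
        exact congrArg (mk (m + 2)) he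
      have hs : s = s' := by
        rw [← PATC_roots r h2 h3 s, ← PATC_roots r' h2' h3' s', hk]
      subst hs
      have hne : ∏ a ∈ s, (X - C a) ≠ (0 : (ZMod l)[X]) :=
        Finset.prod_ne_zero_iff.2 fun a _ => X_sub_C_ne_zero a
      have hr : r = r' := mul_right_cancel₀ hne hk
      rw [hr]
  rw [Set.ncard_prod, hSc] at hle
  have hch : (l : ℝ) ^ m ≤ 2 ^ m * ((m.factorial : ℝ) * (l.choose m : ℝ)) := by
    have h0 : (((l + 1 - m : ℕ) : ℝ) ^ m) / (m.factorial : ℝ) ≤ (l.choose m : ℝ) :=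
      Nat.pow_le_choose m l
    have h1 : (((l + 1 - m : ℕ) : ℝ) ^ m) ≤ (m.factorial : ℝ) * (l.choose m : ℝ) := by
      rw [div_le_iff₀ (by positivity)] at h0
      linarith
    have h2 : (l : ℝ) ≤ 2 * ((l + 1 - m : ℕ) : ℝ) := by
      have : l ≤ 2 * (l + 1 - m) := by omega
      exact_mod_cast this
    calc (l : ℝ) ^ m ≤ (2 * ((l + 1 - m : ℕ) : ℝ)) ^ m := pow_le_pow_left₀ (by positivity) h2 m
      _ = 2 ^ m * ((l + 1 - m : ℕ) : ℝ) ^ m := by rw [mul_pow]
      _ ≤ _ := by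
        apply mul_le_mul_of_nonneg_left _ (by positivity)
        exact h1
  have hle' : (R.ncard : ℝ) * (l.choose m : ℝ) ≤
      ({v : Fin (m + 2) → ZMod l | PatC (m + 2) (mk (m + 2) v)}.ncard : ℝ) := by
    exact_mod_cast hle
  refine le_trans ?_ hle'
  rw [div_mul_eq_mul_div, one_mul, div_le_iff₀ (by positivity), pow_add]
  have h3 : (l : ℝ) ^ 2 ≤ 8 * (R.ncard : ℝ) := by
    have := hI
    push_cast at this
    linarith
  calc (l : ℝ) ^ m * (l : ℝ) ^ 2
      ≤ (2 ^ m * ((m.factorial : ℝ) * (l.choose m : ℝ))) * (8 * (R.ncard : ℝ)) :=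
        mul_le_mul hch h3 (by positivity) (by positivity)
    _ = _ := by ring

end

end Pool.Agent.TJ2
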