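import Pool.Agent.TJ2.Stmts

/-!
# PATD: density of pattern (d)
-/

open Polynomial

namespace Pool.Agent.TJ2

noncomputable section

/-- the nonsquares -/
def patdN (l q : ℕ) : Set (ZMod l) := {b | ¬ IsSquare (b ^ 2 - 4 * (q : ZMod l))}

/-- the nonzero squares -/
def patdS (l q : ℕ) : Set (ZMod l) :=
  {b | b ^ 2 - 4 * (q : ZMod l) ≠ 0 ∧ IsSquare (b ^ 2 - 4 * (q : ZMod l))}

lemma patd_mk {l : ℕ} [Fact l.Prime] (g : ℕ) (p : (ZMod l)[X]) (hp : p.Monic)
    (hd : p.natDegree = g) : mk g (fun i : Fin g => p.coeff i) = p := by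
  subst hd
  conv_rhs => rw [hp.as_sum]
  unfold mk
  rw [Finset.sum_range]

lemma patd_count (g l q : ℕ) [Fact l.Prime] (hg : 1 ≤ g) :
    (patdN l q).ncard * (patdS l q).ncard.choose (g - 1) ≤
      {v : Fin g → ZMod l | PatD g q (mk g v)}.ncard := by
  classical
  let N : Finset (ZMod l) := (patdN l q).toFinset
  let S : Finset (ZMod l) := (patdS l q).toFinset
  have hN : (patdN l q).ncard = N.card := Set.ncard_eq_toFinset_card' _
  have hS : (patdS l q).ncard = S.card := Set.ncard_eq_toFinset_card' _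
  have mN : ∀ b, b ∈ N ↔ ¬ IsSquare (b ^ 2 - 4 * (q : ZMod l)) := fun b => Set.mem_toFinset
  have mS : ∀ b, b ∈ S ↔ b ^ 2 - 4 * (q : ZMod l) ≠ 0 ∧ IsSquare (b ^ 2 - 4 * (q : ZMod l)) :=
    fun b => Set.mem_toFinset
  have hNS : ∀ b ∈ N, b ∉ S := fun b hb hb' => (mN b).1 hb ((mS b).1 hb').2
  let P : Finset (ZMod l × Finset (ZMod l)) := N ×ˢ S.powersetCard (g - 1)
  have hP : P.card = N.card * S.card.choose (g - 1) := by
    rw [Finset.card_product, Finset.card_powersetCard]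
  let pol : ZMod l × Finset (ZMod l) → (ZMod l)[X] := fun x => ∏ a ∈ insert x.1 x.2, (X - C a)
  let f : ZMod l × Finset (ZMod l) → (Fin g → ZMod l) := fun x i => (pol x).coeff i
  have hmem : ∀ x ∈ P, x.1 ∈ N ∧ x.2 ⊆ S ∧ x.2.card = g - 1 := by
    intro x hx
    have h1 := Finset.mem_product.1 hx
    have h2 := Finset.mem_powersetCard.1 h1.2
    exact ⟨h1.1, h2.1, h2.2⟩
  have hnot : ∀ x ∈ P, x.1 ∉ x.2 := fun x hx h => hNS _ (hmem x hx).1 ((hmem x hx).2.1 h)
  have hcard : ∀ x ∈ P, (insert x.1 x.2).card = g := by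
    intro x hx
    rw [Finset.card_insert_of_notMem (hnot x hx), (hmem x hx).2.2]
    omega
  have hmk : ∀ x ∈ P, mk g (f x) = pol x := by
    intro x hx
    apply patd_mk g (pol x)
    · exact monic_prod_of_monic _ _ fun a _ => monic_X_sub_C a
    · change (∏ a ∈ insert x.1 x.2, (X - C a)).natDegree = g
      rw [natDegree_finsetProd_X_sub_C_eq_card, hcard x hx]
  have hf : ∀ x ∈ P, f x ∈ {v : Fin g → ZMod l | PatD g q (mk g v)} := by
    intro x hx
    change PatD g q (mk g (f x))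
    rw [hmk x hx]
    refine ⟨insert x.1 x.2, x.1, hcard x hx, Finset.mem_insert_self _ _, rfl,
      (mN _).1 (hmem x hx).1, fun a ha hab => ?_⟩
    exact (mS _).1 ((hmem x hx).2.1 ((Finset.mem_insert.1 ha).resolve_left hab))
  have hinj : Set.InjOn f (P : Set (ZMod l × Finset (ZMod l))) := by
    intro x hx y hy hxy
    have hx' : x ∈ P := hx
    have hy' : y ∈ P := hy
    have h1 : pol x = pol y := by rw [← hmk x hx', ← hmk y hy', hxy]
    have h2 : (pol x).roots = (insert x.1 x.2).val := roots_prod_X_sub_C _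
    have h3 : (pol y).roots = (insert y.1 y.2).val := roots_prod_X_sub_C _
    have h4 : insert x.1 x.2 = insert y.1 y.2 := by
      apply Finset.val_injective
      rw [← h2, ← h3, h1]
    have h5 : x.1 = y.1 := by
      have h6 : x.1 ∈ insert y.1 y.2 := h4 ▸ Finset.mem_insert_self _ _
      exact (Finset.mem_insert.1 h6).resolve_right
        fun h => hNS _ (hmem x hx').1 ((hmem y hy').2.1 h)
    have h6 : x.2 = y.2 := by
      rw [← Finset.erase_insert (hnot x hx'), ← Finset.erase_insert (hnot y hy'), h4, h5]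
    exact Prod.ext h5 h6
  rw [hN, hS, ← hP, ← Set.ncard_coe_finset P, ← hinj.ncard_image]
  apply Set.ncard_le_ncard
  · rintro _ ⟨x, hx, rfl⟩
    exact hf x hx
  · exact Set.toFinite _

theorem t_PATD (hSQC : S_SQC) : S_PATD := by
  intro g hg
  have hfac : (0 : ℝ) < (g - 1).factorial := by exact_mod_cast Nat.factorial_pos _
  have hfac1 : (1 : ℝ) ≤ (g - 1).factorial := by exact_mod_cast Nat.factorial_pos _
  refine ⟨(1 / 8) ^ g / (g - 1).factorial, by positivity, ?_, 8 * g + 9, ?_⟩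
  · rw [div_le_one hfac]
    exact (pow_le_one₀ (by norm_num) (by norm_num)).trans hfac1
  intro l _ hl q hq
  obtain ⟨h1, h2⟩ := hSQC l q (by omega) hq
  have h3 := patd_count g l q hg
  set N := (patdN l q).ncard with hN
  set S := (patdS l q).ncard with hS
  have h1' : l ≤ 2 * S + 3 := h1
  have h2' : l ≤ 2 * N + 3 := h2
  have h4 : ((S + 1 - (g - 1) : ℕ) : ℝ) ^ (g - 1) ≤ (g - 1).factorial * (S.choose (g - 1) : ℝ) := by
    have := Nat.pow_sub_le_descFactorial S (g - 1)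
    have h5 : ((S + 1 - (g - 1) : ℕ) ^ (g - 1)) ≤ (g - 1).factorial * S.choose (g - 1) := by
      rw [← Nat.descFactorial_eq_factorial_mul_choose]
      exact this
    exact_mod_cast h5
  have h6 : (l : ℝ) / 8 ≤ ((S + 1 - (g - 1) : ℕ) : ℝ) := by
    have h7 : l ≤ 8 * (S + 1 - (g - 1)) := by omega
    have h8 : (l : ℝ) ≤ 8 * ((S + 1 - (g - 1) : ℕ) : ℝ) := by exact_mod_cast h7
    linarith
  have h9 : (l : ℝ) / 8 ≤ (N : ℝ) := by
    have h7 : l ≤ 8 * N := by omega
    have h8 : (l : ℝ) ≤ 8 * (N : ℝ) := by exact_mod_cast h7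
    linarith
  have hl0 : (0 : ℝ) ≤ (l : ℝ) / 8 := by positivity
  have h10 : ((l : ℝ) / 8) ^ (g - 1) ≤ (g - 1).factorial * (S.choose (g - 1) : ℝ) :=
    (pow_le_pow_left₀ hl0 h6 _).trans h4
  have h11 : ((N * S.choose (g - 1) : ℕ) : ℝ) ≤
      ({v : Fin g → ZMod l | PatD g q (mk g v)}.ncard : ℝ) := by exact_mod_cast h3
  refine le_trans ?_ h11
  have h12 : (1 / 8 : ℝ) ^ g / (g - 1).factorial * (l : ℝ) ^ g =
      ((l : ℝ) / 8) ^ g / (g - 1).factorial := by
    rw [div_pow, div_pow, one_pow]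
    ring
  rw [h12, div_le_iff₀ hfac]
  have h13 : ((l : ℝ) / 8) ^ g = (l : ℝ) / 8 * ((l : ℝ) / 8) ^ (g - 1) := by
    rw [← pow_succ']
    congr 1
    omega
  rw [h13]
  push_cast
  calc (l : ℝ) / 8 * ((l : ℝ) / 8) ^ (g - 1)
      ≤ N * ((g - 1).factorial * (S.choose (g - 1) : ℝ)) :=
        mul_le_mul h9 h10 (by positivity) (by positivity)
    _ = N * (S.choose (g - 1) : ℝ) * (g - 1).factorial := by ring

end

end Pool.Agent.TJ2
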