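import Pool.Agent.TJ2.Stmts

/-!
# Theorem J: pattern (c)

If a monic integer polynomial is, modulo a prime, an irreducible quadratic polynomial times
different linear factors, then some automorphism of the field of algebraic numbers acts on its
roots as a transposition.
-/

open Polynomial IntermediateField

namespace Pool.Agent.TJ2

noncomputable section

private theorem PC_fix {k : Type} [Field k] (l : ℕ) [Fact l.Prime] [CharP k l] (b : k)
    (h : b ^ l = b) : ∃ a : ZMod l, ZMod.castHom (dvd_refl l) k a = b := by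
  classical
  set φ := ZMod.castHom (dvd_refl l) k with hφd
  have hφ : Function.Injective φ := φ.injective
  have h1 : 1 < l := (Fact.out : l.Prime).one_lt
  have hP : (X ^ l - X : k[X]) ≠ 0 := FiniteField.X_pow_card_sub_X_ne_zero k h1
  have hd : (X ^ l - X : k[X]).natDegree = l := FiniteField.X_pow_card_sub_X_natDegree_eq k h1
  have hs : (Finset.univ.image φ) ⊆ (X ^ l - X : k[X]).roots.toFinset := by
    intro y hy
    obtain ⟨a, -, rfl⟩ := Finset.mem_image.1 hy
    rw [Multiset.mem_toFinset, mem_roots hP, IsRoot.def, eval_sub, eval_pow, eval_X, ← map_pow,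
      ZMod.pow_card, sub_self]
  have hc : (X ^ l - X : k[X]).roots.toFinset.card ≤ (Finset.univ.image φ).card := by
    rw [Finset.card_image_of_injective _ hφ, Finset.card_univ, ZMod.card]
    calc _ ≤ Multiset.card (X ^ l - X : k[X]).roots := Multiset.toFinset_card_le _
      _ ≤ (X ^ l - X : k[X]).natDegree := card_roots' _
      _ = l := hd
  have he := Finset.eq_of_subset_of_card_le hs hc
  have hb : b ∈ (X ^ l - X : k[X]).roots.toFinset := by
    rw [Multiset.mem_toFinset, mem_roots hP, IsRoot.def, eval_sub, eval_pow, eval_X, h, sub_self]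
  rw [← he] at hb
  obtain ⟨a, -, ha⟩ := Finset.mem_image.1 hb
  exact ⟨a, ha⟩

/-- the `l`-th power of a root of the image of a polynomial over `ZMod l` is a root -/
private theorem PC_pow {k : Type} [Field k] (l : ℕ) [Fact l.Prime] [CharP k l] (r : (ZMod l)[X])
    (b : k) (h : (r.map (ZMod.castHom (dvd_refl l) k)).eval b = 0) :
    (r.map (ZMod.castHom (dvd_refl l) k)).eval (b ^ l) = 0 := by
  have h1 : (frobenius k l).comp (ZMod.castHom (dvd_refl l) k) = ZMod.castHom (dvd_refl l) k :=
    Subsingleton.elim _ _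
  rw [eval_map] at h ⊢
  have h2 := hom_eval₂ r (ZMod.castHom (dvd_refl l) k) (frobenius k l) b
  rw [h, map_zero, h1, frobenius_def] at h2
  exact h2.symm

private theorem PC_noroot {l : ℕ} [Fact l.Prime] (r : (ZMod l)[X]) (hr : Irreducible r)
    (hd : r.natDegree = 2) (a : ZMod l) : ¬ r.IsRoot a := by
  intro h
  have h1 := Polynomial.degree_eq_one_of_irreducible_of_root hr h
  have h2 : r.natDegree = 1 := Polynomial.natDegree_eq_of_degree_eq_some h1
  rw [hd] at h2
  exact absurd h2 (by norm_num)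

private theorem PC_sep {l : ℕ} [Fact l.Prime] (r : (ZMod l)[X]) (s : Finset (ZMod l))
    (hr : Irreducible r) (hd : r.natDegree = 2) : (r * ∏ a ∈ s, (X - C a)).Separable := by
  have h1 : r.Separable := PerfectField.separable_of_irreducible hr
  have h2 : (∏ a ∈ s, (X - C a)).Separable :=
    separable_prod_X_sub_C_iff'.2 (fun x _ y _ h => h)
  refine h1.mul h2 ?_
  refine IsCoprime.prod_right fun a _ => ?_
  refine (hr.coprime_iff_not_dvd).2 fun h => ?_
  have h3 := natDegree_le_of_dvd h (X_sub_C_ne_zero a)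
  rw [hd, natDegree_X_sub_C] at h3
  exact absurd h3 (by norm_num)

/-- an integer polynomial which is monic is the product of `X - b` over its roots, and this holds
already over the ring of algebraic integers -/
private theorem PC_split (h : ℤ[X]) (hm : h.Monic) :
    ∃ M : Multiset (integralClosure ℤ Qb), (∀ b ∈ M, (b : Qb) ∈ Rt h) ∧
      (∀ b ∈ Rt h, ∃ b' ∈ M, (b' : Qb) = b) ∧
      h.map (algebraMap ℤ (integralClosure ℤ Qb)) = (M.map (fun b => X - C b)).prod := by
  have hint : ∀ b ∈ h.aroots Qb, b ∈ integralClosure ℤ Qb := by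
    intro b hb
    rw [mem_integralClosure_iff]
    refine ⟨h, hm, ?_⟩
    have := (mem_aroots.1 hb).2
    rwa [aeval_def] at this
  refine ⟨(h.aroots Qb).attach.map (fun b => ⟨b.1, hint b.1 b.2⟩), ?_, ?_, ?_⟩
  · intro b hb
    obtain ⟨c, -, rfl⟩ := Multiset.mem_map.1 hb
    exact (mem_aroots.1 c.2).2
  · intro b hb
    have hb' : b ∈ h.aroots Qb := mem_aroots.2 ⟨hm.ne_zero, hb⟩
    exact ⟨⟨b, hint b hb'⟩, Multiset.mem_map.2 ⟨⟨b, hb'⟩, Multiset.mem_attach _ _, rfl⟩, rfl⟩
  · have hinj : Function.Injective (algebraMap (integralClosure ℤ Qb) Qb) :=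
      Subtype.val_injective
    apply map_injective _ hinj
    rw [Polynomial.map_map, Polynomial.map_multiset_prod, Multiset.map_map, Multiset.map_map]
    have h1 : (algebraMap (integralClosure ℤ Qb) Qb).comp
        (algebraMap ℤ (integralClosure ℤ Qb)) = algebraMap ℤ Qb := by
      exact RingHom.ext_int _ _
    rw [h1]
    have h2 : (Multiset.map (((map (algebraMap (integralClosure ℤ Qb) Qb)) ∘
        (fun b => X - C b)) ∘ fun b : {x // x ∈ h.aroots Qb} =>
          (⟨b.1, hint b.1 b.2⟩ : integralClosure ℤ Qb)) (h.aroots Qb).attach) =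
        (h.aroots Qb).map (fun b => X - C b) := by
      conv_rhs => rw [← Multiset.attach_map_val (h.aroots Qb), Multiset.map_map]
      refine Multiset.map_congr rfl fun b _ => ?_
      simp only [Function.comp_apply, Polynomial.map_sub, map_X, map_C]
      rfl
    rw [h2]
    exact (IsAlgClosed.splits (h.map (algebraMap ℤ Qb))).eq_prod_roots_of_monic (hm.map _)

/-- pattern (c) for one prime -/
theorem t_PC (hFROB : S_FROB) : S_PC := by
  classical
  intro g h l hg hm hdg hl hpat
  have : Fact l.Prime := ⟨hl⟩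
  obtain ⟨r, s, hr, hrd, hsc, hrs⟩ := hpat
  obtain ⟨M, hM1, hM2, hM3⟩ := PC_split h hm
  have hint : ∀ x ∈ Rt h, IsIntegral ℤ x := by
    intro x hx
    refine ⟨h, hm, ?_⟩
    have : aeval x h = 0 := hx
    rwa [aeval_def] at this
  have hfin : (Rt h).Finite := by
    have : Rt h ⊆ (h.aroots Qb).toFinset := by
      intro b hb
      rw [Finset.mem_coe, Multiset.mem_toFinset]
      exact mem_aroots.2 ⟨hm.ne_zero, hb⟩
    exact (Finset.finite_toSet _).subset this
  obtain ⟨k, _, _, ρ, σ, hσ⟩ := hFROB l hl (Rt h) hfin hint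
  set φ := ZMod.castHom (dvd_refl l) k with hφ
  set R := r.map φ with hR
  set S := (∏ a ∈ s, (X - C a)).map φ with hS
  have hσR : ∀ b ∈ Rt h, σ b ∈ Rt h := by
    intro b hb
    have hb' : aeval b h = 0 := hb
    change aeval (σ b) h = 0
    have h1 : σ (aeval b h) = aeval (σ b) h := by
      rw [aeval_def, aeval_def, eval₂_eq_sum_range, eval₂_eq_sum_range, map_sum]
      refine Finset.sum_congr rfl fun i _ => ?_
      rw [map_mul, map_pow]
      simp
    rw [← h1, hb', map_zero]
  -- the image in `k`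
  have hk : h.map (Int.castRingHom k) = R * S := by
    rw [hR, hS, ← Polynomial.map_mul, ← hrs, red, Polynomial.map_map]
    congr 1
    exact RingHom.ext_int _ _
  have hk2 : h.map (Int.castRingHom k) = (M.map (fun b => X - C (ρ b))).prod := by
    have h1 : h.map (Int.castRingHom k) =
        (h.map (algebraMap ℤ (integralClosure ℤ Qb))).map ρ := by
      rw [Polynomial.map_map]
      congr 1
      exact RingHom.ext_int _ _
    rw [h1, hM3, Polynomial.map_multiset_prod, Multiset.map_map]
    congr 1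
    refine Multiset.map_congr rfl fun b _ => ?_
    simp only [Function.comp_apply, Polynomial.map_sub, map_X, map_C]
  have hroots : (R * S).roots = M.map ρ := by
    rw [← hk, hk2]
    have : (M.map (fun b => X - C (ρ b))) = (M.map ρ).map (fun b => X - C b) := by
      rw [Multiset.map_map]; rfl
    rw [this, roots_multiset_prod_X_sub_C]
  have hsep : (R * S).Separable := by
    rw [hR, hS, ← Polynomial.map_mul]
    exact (PC_sep r s hr hrd).map
  have hnd : (M.map ρ).Nodup := by
    rw [← hroots]; exact nodup_roots hsep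
  have hRS0 : R * S ≠ 0 := hsep.ne_zero
  have hR0 : R ≠ 0 := left_ne_zero_of_mul hRS0
  have hSroots : S.roots = s.val.map φ := by
    have : S = ((s.val.map φ).map (fun b => X - C b)).prod := by
      rw [hS, Polynomial.map_prod, Finset.prod, Multiset.map_map]
      congr 1
      refine Multiset.map_congr rfl fun b _ => ?_
      simp only [Function.comp_apply, Polynomial.map_sub, map_X, map_C]
    rw [this, roots_multiset_prod_X_sub_C]
  have hsplit : (R * S).roots = R.roots + S.roots := roots_mul hRS0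
  have hcardM : Multiset.card M = g := by
    have h1 := congrArg natDegree hM3
    rw [hm.natDegree_map, hdg, natDegree_multiset_prod_X_sub_C_eq_card] at h1
    exact h1.symm
  have hcardR : Multiset.card R.roots = 2 := by
    have h1 := congrArg Multiset.card hsplit
    rw [hroots, Multiset.card_add, hSroots, Multiset.card_map, Multiset.card_map, hcardM] at h1
    have h2 : Multiset.card s.val = g - 2 := hsc
    omega
  have hRnd : R.roots.Nodup := by
    rw [hroots] at hsplit
    rw [hsplit] at hnd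
    exact (Multiset.nodup_add.1 hnd).1
  obtain ⟨β₀, hβ₀⟩ : ∃ b, b ∈ R.roots := by
    refine Multiset.card_pos_iff_exists_mem.1 ?_
    rw [hcardR]; norm_num
  -- Frobenius on the roots of `R`
  have hfr : ∀ b ∈ R.roots, b ^ l ∈ R.roots ∧ b ^ l ≠ b := by
    intro b hb
    have hb' : R.eval b = 0 := (mem_roots hR0).1 hb
    refine ⟨(mem_roots hR0).2 (PC_pow l r b hb'), fun he => ?_⟩
    obtain ⟨a, ha⟩ := PC_fix l b he
    rw [← ha, hR, eval_map, hφ, eval₂_at_apply] at hb'
    exact PC_noroot r hr hrd a ((map_eq_zero _).1 hb')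
  obtain ⟨hβ₁, hne⟩ := hfr β₀ hβ₀
  have hpair : ∀ b ∈ R.roots, b = β₀ ∨ b = β₀ ^ l := by
    have h1 : ({β₀, β₀ ^ l} : Finset k) ⊆ R.roots.toFinset := by
      intro b hb
      rw [Multiset.mem_toFinset]
      rcases Finset.mem_insert.1 hb with h2 | h2
      · rw [h2]; exact hβ₀
      · rw [Finset.mem_singleton.1 h2]; exact hβ₁
    have h2 : R.roots.toFinset.card ≤ ({β₀, β₀ ^ l} : Finset k).card := by
      rw [Finset.card_pair (Ne.symm hne), Multiset.toFinset_card_of_nodup hRnd, hcardR]
    have h3 := Finset.eq_of_subset_of_card_le h1 h2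
    intro b hb
    have h4 : b ∈ R.roots.toFinset := Multiset.mem_toFinset.2 hb
    rw [← h3] at h4
    simpa using h4
  have hback : (β₀ ^ l) ^ l = β₀ := by
    obtain ⟨h1, h2⟩ := hfr _ hβ₁
    rcases hpair _ h1 with h3 | h3
    · exact h3
    · exact absurd h3 h2
  have hinj : ∀ c ∈ M, ∀ c' ∈ M, ρ c = ρ c' → c = c' := fun c hc c' hc' h1 =>
    Multiset.inj_on_of_nodup_map hnd c hc c' hc' h1
  have hkey : ∀ c ∈ M, ∀ c' ∈ M, ρ c' = ρ c ^ l → σ (c : Qb) = (c' : Qb) := by
    intro c hc c' hc' h1
    obtain ⟨d, hd, hd'⟩ := hM2 _ (hσR _ (hM1 c hc))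
    have h2 : σ (c : Qb) ∈ integralClosure ℤ Qb := hd' ▸ d.2
    have h3 := hσ (c : Qb) c.2 h2 (hM1 c hc)
    have h4 : (⟨σ (c : Qb), h2⟩ : integralClosure ℤ Qb) = d := Subtype.ext hd'.symm
    have h5 : (⟨(c : Qb), c.2⟩ : integralClosure ℤ Qb) = c := rfl
    rw [h4, h5, ← h1] at h3
    rw [← hd', hinj d hd c' hc' h3]
  have hget : ∀ b ∈ R.roots, ∃ c ∈ M, ρ c = b := by
    intro b hb
    have h1 : b ∈ M.map ρ := by
      rw [← hroots, hsplit]
      exact Multiset.mem_add.2 (Or.inl hb)
    exact Multiset.mem_map.1 h1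
  obtain ⟨c₀, hc₀, hc₀'⟩ := hget _ hβ₀
  obtain ⟨c₁, hc₁, hc₁'⟩ := hget _ hβ₁
  refine ⟨σ, c₀, hM1 _ hc₀, c₁, hM1 _ hc₁, ?_, ?_, ?_, ?_⟩
  · intro h1
    have h2 : c₀ = c₁ := Subtype.ext h1
    rw [h2, hc₁'] at hc₀'
    exact hne hc₀'
  · exact hkey c₀ hc₀ c₁ hc₁ (by rw [hc₁', hc₀'])
  · exact hkey c₁ hc₁ c₀ hc₀ (by rw [hc₁', hc₀', hback])
  · intro b hb hb0 hb1
    obtain ⟨c, hc, rfl⟩ := hM2 b hb
    have h1 : ρ c ∈ R.roots + S.roots := by
      rw [← hsplit, hroots]
      exact Multiset.mem_map_of_mem _ hc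
    rcases Multiset.mem_add.1 h1 with h2 | h2
    · rcases hpair _ h2 with h3 | h3
      · exact absurd (congrArg Subtype.val (hinj c hc c₀ hc₀ (h3.trans hc₀'.symm))) hb0
      · exact absurd (congrArg Subtype.val (hinj c hc c₁ hc₁ (h3.trans hc₁'.symm))) hb1
    · rw [hSroots] at h2
      obtain ⟨a, -, ha⟩ := Multiset.mem_map.1 h2
      refine hkey c hc c hc ?_
      rw [← ha, ← map_pow, ZMod.pow_card]

end

end Pool.Agent.TJ2
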