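import Pool.Agent.TJ2.Stmts

/-!
# Theorem J, module PD (MP_6c4da4_ag)

Pattern (d): an automorphism which exchanges one pair `a₀, q / a₀` and fixes all other elements of
`Om q h`.
-/

open Polynomial IntermediateField

namespace Pool.Agent.TJ2

noncomputable section

theorem PD_int_rt {h : ℤ[X]} (hm : h.Monic) {b : Qb} (hb : aeval b h = 0) :
    b ∈ integralClosure ℤ Qb := by
  refine ⟨h, hm, ?_⟩
  simpa [aeval_def] using hb

theorem PD_int_quad (q : ℕ) {b a : Qb} (hb : b ∈ integralClosure ℤ Qb)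
    (ha : a ^ 2 - b * a + (q : Qb) = 0) : a ∈ integralClosure ℤ Qb := by
  rw [mem_integralClosure_iff]
  refine isIntegral_trans (R := ℤ) (A := integralClosure ℤ Qb) a ?_
  refine ⟨X ^ 2 - C (⟨b, hb⟩ : integralClosure ℤ Qb) * X + C (q : integralClosure ℤ Qb), ?_, ?_⟩
  · monicity!
  · simp only [eval₂_add, eval₂_sub, eval₂_mul, eval₂_pow, eval₂_X, eval₂_C, map_natCast,
      eval₂_natCast]
    exact ha

/-- the multiset of the roots in the ring of algebraic integers -/
theorem PD_mult {h : ℤ[X]} (hm : h.Monic) :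
    ∃ M : Multiset (integralClosure ℤ Qb), M.card = h.natDegree ∧
      h.map (Int.castRingHom (integralClosure ℤ Qb)) = (M.map fun x => X - C x).prod ∧
      ∀ b : Qb, aeval b h = 0 ↔ ∃ x ∈ M, (x : Qb) = b := by
  classical
  have hmQ : (h.map (algebraMap ℤ Qb)).Monic := hm.map _
  have hsp : (h.map (algebraMap ℤ Qb)).Splits := IsAlgClosed.splits _
  have hroot : ∀ b : Qb, b ∈ h.aroots Qb ↔ aeval b h = 0 := by
    intro b
    rw [mem_aroots]
    exact ⟨fun H => H.2, fun H => ⟨hm.ne_zero, H⟩⟩
  refine ⟨(h.aroots Qb).attach.map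
    (fun b => (⟨b.1, PD_int_rt hm ((hroot b.1).1 b.2)⟩ : integralClosure ℤ Qb)), ?_, ?_, ?_⟩
  · rw [Multiset.card_map, Multiset.card_attach]
    have := hsp.natDegree_eq_card_roots
    rw [natDegree_map_eq_of_injective (RingHom.injective_int _)] at this
    exact this.symm
  · have hinj : Function.Injective (algebraMap (integralClosure ℤ Qb) Qb) :=
      Subtype.val_injective
    apply Polynomial.map_injective _ hinj
    rw [Polynomial.map_map, Polynomial.map_multiset_prod, Multiset.map_map, Multiset.map_map]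
    have e1 : (algebraMap (integralClosure ℤ Qb) Qb).comp
        (Int.castRingHom (integralClosure ℤ Qb)) = algebraMap ℤ Qb := RingHom.ext_int _ _
    rw [e1]
    have e2 := hsp.eq_prod_roots_of_monic hmQ
    conv_lhs => rw [e2]
    congr 1
    conv_lhs => rw [← Multiset.attach_map_val (h.map (algebraMap ℤ Qb)).roots]
    rw [Multiset.map_map]
    apply Multiset.map_congr rfl
    intro x _
    simp only [Function.comp_apply, Polynomial.map_sub, map_X, map_C]
    rfl
  · intro b
    rw [← hroot b]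
    constructor
    · intro hb
      exact ⟨_, Multiset.mem_map.2 ⟨⟨b, hb⟩, Multiset.mem_attach _ _, rfl⟩, rfl⟩
    · rintro ⟨x, hx, rfl⟩
      obtain ⟨y, _, rfl⟩ := Multiset.mem_map.1 hx
      exact y.2


/-- the data of a reduction: the multiset of the reduced roots is the set of the roots modulo `l` -/
theorem PD_red {g : ℕ} {h : ℤ[X]} (hm : h.Monic) (hg : h.natDegree = g) {l : ℕ} [Fact l.Prime]
    {k : Type} [Field k] [CharP k l] (ρ : integralClosure ℤ Qb →+* k)
    (s : Finset (ZMod l)) (hred : red l h = ∏ a ∈ s, (X - C a)) :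
    ∃ N : Finset (integralClosure ℤ Qb), N.card = g ∧
      (∀ b : Qb, aeval b h = 0 ↔ ∃ x ∈ N, (x : Qb) = b) ∧
      Set.InjOn ρ (N : Set (integralClosure ℤ Qb)) ∧
      (∀ x ∈ N, ∃ a ∈ s, ρ x = ZMod.castHom (dvd_refl l) k a) ∧
      (∀ a ∈ s, ∃ x ∈ N, ρ x = ZMod.castHom (dvd_refl l) k a) := by
  classical
  obtain ⟨M, hMc, hMp, hMr⟩ := PD_mult hm
  have key : M.map ρ = s.val.map (ZMod.castHom (dvd_refl l) k) := by
    have h1 : h.map (Int.castRingHom k) = ((M.map ρ).map fun x => X - C x).prod := by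
      have := congrArg (Polynomial.map ρ) hMp
      rw [Polynomial.map_map, Polynomial.map_multiset_prod, Multiset.map_map] at this
      have e1 : ρ.comp (Int.castRingHom (integralClosure ℤ Qb)) = Int.castRingHom k :=
        RingHom.ext_int _ _
      rw [e1] at this
      rw [this, Multiset.map_map]
      congr 1
      apply Multiset.map_congr rfl
      intro x _
      simp
    have h2 : h.map (Int.castRingHom k) =
        ((s.val.map (ZMod.castHom (dvd_refl l) k)).map fun x => X - C x).prod := by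
      have := congrArg (Polynomial.map (ZMod.castHom (dvd_refl l) k)) hred
      rw [red, Polynomial.map_map, Polynomial.map_prod] at this
      have e1 : (ZMod.castHom (dvd_refl l) k).comp (Int.castRingHom (ZMod l)) =
        Int.castRingHom k := RingHom.ext_int _ _
      rw [e1] at this
      rw [this, Multiset.map_map, Finset.prod]
      congr 1
      apply Multiset.map_congr rfl
      intro x _
      simp
    have h3 := congrArg Polynomial.roots (h1.symm.trans h2)
    rwa [roots_multiset_prod_X_sub_C, roots_multiset_prod_X_sub_C] at h3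
  have hinj : Function.Injective (ZMod.castHom (dvd_refl l) k) := RingHom.injective _
  have hnd : (M.map ρ).Nodup := by
    rw [key]
    exact (Multiset.nodup_map_iff_of_injective hinj).2 s.nodup
  have hMnd : M.Nodup := Multiset.Nodup.of_map _ hnd
  refine ⟨⟨M, hMnd⟩, ?_, ?_, ?_, ?_, ?_⟩
  · simpa [hg] using hMc
  · intro b
    simpa using hMr b
  · intro x hx y hy hxy
    exact Multiset.inj_on_of_nodup_map hnd x (by simpa using hx) y (by simpa using hy) hxy
  · intro x hx
    have : ρ x ∈ M.map ρ := Multiset.mem_map_of_mem _ (by simpa using hx)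
    rw [key] at this
    obtain ⟨a, ha, hax⟩ := Multiset.mem_map.1 this
    exact ⟨a, by simpa using ha, hax.symm⟩
  · intro a ha
    have : ZMod.castHom (dvd_refl l) k a ∈ s.val.map (ZMod.castHom (dvd_refl l) k) :=
      Multiset.mem_map_of_mem _ (by simpa using ha)
    rw [← key] at this
    obtain ⟨x, hx, hax⟩ := Multiset.mem_map.1 this
    exact ⟨x, by simpa using hx, hax⟩

/-- the two elements over a root `b` -/
theorem PD_fib {q : ℕ} (hq : 1 ≤ q) {a b r : Qb} (hr : r ^ 2 = b ^ 2 - 4 * (q : Qb)) :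
    (a ≠ 0 ∧ a + (q : Qb) / a = b) ↔ (a = (b + r) / 2 ∨ a = (b - r) / 2) := by
  have hq0 : (q : Qb) ≠ 0 := by
    exact_mod_cast (by omega : q ≠ 0)
  constructor
  · rintro ⟨h0, h1⟩
    have h2 : a ^ 2 - b * a + (q : Qb) = 0 := by
      rw [← h1]; field_simp; ring
    have h3 : (a - (b + r) / 2) * (a - (b - r) / 2) = 0 := by
      linear_combination h2 - hr / 4
    rcases mul_eq_zero.1 h3 with h4 | h4
    · left; linear_combination h4
    · right; linear_combination h4
  · intro h1
    have h2 : a ^ 2 - b * a + (q : Qb) = 0 := by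
      rcases h1 with h1 | h1
      · rw [h1]; linear_combination hr / 4
      · rw [h1]; linear_combination hr / 4
    have h0 : a ≠ 0 := by
      rintro rfl
      apply hq0
      linear_combination h2
    refine ⟨h0, ?_⟩
    field_simp
    linear_combination h2

theorem PD_count (q : ℕ) (hq : 1 ≤ q) (h : ℤ[X]) (N : Finset Qb)
    (hN : ∀ b : Qb, aeval b h = 0 ↔ b ∈ N)
    (hd : ∀ b ∈ N, b ^ 2 - 4 * (q : Qb) ≠ 0) : (Om q h).ncard = 2 * N.card := by
  classical
  have hex : ∀ b : Qb, ∃ r : Qb, r ^ 2 = b ^ 2 - 4 * (q : Qb) :=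
    fun b => IsAlgClosed.exists_pow_nat_eq _ two_pos
  choose r hr using hex
  have e : Om q h = ↑(N.biUnion fun b => ({(b + r b) / 2, (b - r b) / 2} : Finset Qb)) := by
    ext a
    simp only [Om, Set.mem_ofPred_eq, Finset.coe_biUnion, Set.mem_iUnion, Finset.mem_coe,
      Finset.mem_insert, Finset.mem_singleton, exists_prop]
    constructor
    · rintro ⟨h0, h1⟩
      exact ⟨a + (q : Qb) / a, (hN _).1 h1, (PD_fib hq (hr _)).1 ⟨h0, rfl⟩⟩
    · rintro ⟨b, hb, h1⟩
      obtain ⟨h0, h2⟩ := (PD_fib hq (hr _)).2 h1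
      exact ⟨h0, by rw [h2]; exact (hN _).2 hb⟩
  rw [e, Set.ncard_coe_finset, Finset.card_biUnion]
  · rw [Finset.sum_const_nat (m := 2)]
    · ring
    · intro b hb
      rw [Finset.card_pair]
      intro h1
      have h2 : r b = 0 := by linear_combination h1
      apply hd b hb
      rw [← hr b, h2]
      ring
  · intro b _ b' _ hbb
    rw [Function.onFun, Finset.disjoint_left]
    intro a ha ha'
    simp only [Finset.mem_insert, Finset.mem_singleton] at ha ha'
    have h1 := (PD_fib hq (hr _)).2 ha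
    have h2 := (PD_fib hq (hr _)).2 ha'
    exact hbb (h1.2.symm.trans h2.2)

theorem PD_fin (q : ℕ) (hq : 1 ≤ q) (h : ℤ[X]) (hR : {b : Qb | aeval b h = 0}.Finite) :
    (Om q h).Finite := by
  have hex : ∀ b : Qb, ∃ r : Qb, r ^ 2 = b ^ 2 - 4 * (q : Qb) :=
    fun b => IsAlgClosed.exists_pow_nat_eq _ two_pos
  choose r hr using hex
  refine Set.Finite.subset (hR.biUnion (t := fun b => ({(b + r b) / 2, (b - r b) / 2} : Set Qb))
    (fun b _ => Set.toFinite _)) ?_
  rintro a ⟨h0, h1⟩
  exact Set.mem_biUnion h1 ((PD_fib hq (hr _)).1 ⟨h0, rfl⟩)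

theorem PD_euler {l : ℕ} [Fact l.Prime] (hl2 : l ≠ 2) {k : Type} [Field k] [CharP k l]
    (D : ZMod l) (hD : ¬ IsSquare D) (e : k) (he : e ^ 2 = ZMod.castHom (dvd_refl l) k D) :
    e ^ l = -e := by
  have hD0 : D ≠ 0 := by
    rintro rfl
    exact hD ⟨0, by simp⟩
  have h1 : D ^ (l / 2) = -1 := by
    rcases ZMod.pow_div_two_eq_neg_one_or_one l hD0 with h | h
    · exact absurd ((ZMod.euler_criterion l hD0).2 h) hD
    · exact h
  have hl : l.Prime := Fact.out
  have hodd : l = 2 * (l / 2) + 1 := by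
    rcases hl.eq_two_or_odd with h | h
    · exact absurd h hl2
    · omega
  calc e ^ l = e ^ (2 * (l / 2) + 1) := by rw [← hodd]
    _ = (e ^ 2) ^ (l / 2) * e := by rw [pow_succ, pow_mul]
    _ = ZMod.castHom (dvd_refl l) k (D ^ (l / 2)) * e := by rw [he, map_pow]
    _ = -e := by rw [h1]; simp

theorem t_PD (hFROB : S_FROB) : S_PD := by
  classical
  intro g q h l hg hq hm hdeg hl hl2 hlq hpat
  have : Fact l.Prime := ⟨hl⟩
  obtain ⟨s, c₀, hs, hc₀, hred, hnsq, hsq⟩ := hpat
  have hq0 : (q : Qb) ≠ 0 := by exact_mod_cast (by omega : q ≠ 0)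
  have hRfin : {b : Qb | aeval b h = 0}.Finite := by
    obtain ⟨M, _, _, hM⟩ := PD_mult hm
    refine Set.Finite.subset ((M.toFinset.finite_toSet).image
      (fun x : integralClosure ℤ Qb => (x : Qb))) ?_
    intro b hb
    obtain ⟨x, hx, rfl⟩ := (hM b).1 hb
    exact ⟨x, by simpa using hx, rfl⟩
  have hOfin : (Om q h).Finite := PD_fin q hq h hRfin
  have hOq : ∀ a ∈ Om q h, a ^ 2 - (a + (q : Qb) / a) * a + (q : Qb) = 0 := by
    intro a ha
    have h0 : a ≠ 0 := ha.1
    field_simp
    ring
  have hOint : ∀ a ∈ Om q h, a ∈ integralClosure ℤ Qb := by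
    intro a ha
    exact PD_int_quad q (PD_int_rt hm ha.2) (hOq a ha)
  obtain ⟨k, _, _, ρ, σ, hρσ⟩ := hFROB l hl ({b : Qb | aeval b h = 0} ∪ Om q h)
    (hRfin.union hOfin) (by
      rintro x (hx | hx)
      · exact PD_int_rt hm hx
      · exact hOint x hx)
  obtain ⟨N, hNc, hNr, hNi, hN1, hN2⟩ := PD_red hm hdeg ρ s hred
  set φ := ZMod.castHom (dvd_refl l) k with hφ
  have hφi : Function.Injective φ := RingHom.injective _
  have hφl : ∀ c : ZMod l, φ c ^ l = φ c := by
    intro c
    rw [← map_pow, ZMod.pow_card]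
  have h2l : (2 : ZMod l) ≠ 0 := by
    intro h2
    have : ((2 : ℕ) : ZMod l) = 0 := by exact_mod_cast h2
    rw [ZMod.natCast_eq_zero_iff] at this
    exact hl2 ((Nat.prime_dvd_prime_iff_eq hl Nat.prime_two).1 this)
  have h2k : (2 : k) ≠ 0 := by
    have := (map_ne_zero_iff φ hφi).2 h2l
    rwa [map_ofNat] at this
  have hσh : ∀ x : Qb, aeval x h = 0 → aeval (σ x) h = 0 := by
    intro x hx
    have h1 : aeval (σ x) h = σ (aeval x h) := by
      have := aeval_algHom_apply ((σ : Qb ≃ₐ[ℚ] Qb).toAlgHom.restrictScalars ℤ) x h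
      simpa using this
    rw [h1, hx, map_zero]
  -- the discriminants are not zero modulo `l`
  have hD : ∀ c ∈ s, c ^ 2 - 4 * (q : ZMod l) ≠ 0 := by
    intro c hc h0
    by_cases hcc : c = c₀
    · rw [hcc] at h0
      apply hnsq
      rw [h0]
      exact ⟨0, by simp⟩
    · exact (hsq c hc hcc).1 h0
  -- roots of h are fixed
  have hfix : ∀ x ∈ N, σ (x : Qb) = x := by
    intro x hx
    obtain ⟨c, hc, hxc⟩ := hN1 x hx
    have h1 : aeval (x : Qb) h = 0 := (hNr _).2 ⟨x, hx, rfl⟩
    obtain ⟨y, hy, hyx⟩ := (hNr _).1 (hσh _ h1)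
    have h2 : ρ y = ρ x := by
      have h3 := hρσ (x : Qb) x.2 (by rw [← hyx]; exact y.2) (Or.inl h1)
      have h4 : (⟨σ (x : Qb), by rw [← hyx]; exact y.2⟩ : integralClosure ℤ Qb) = y :=
        Subtype.ext hyx.symm
      rw [h4] at h3
      have h5 : (⟨(x : Qb), x.2⟩ : integralClosure ℤ Qb) = x := Subtype.ext rfl
      rw [h5, hxc, hφl] at h3
      rw [h3, hxc]
    have h3 : y = x := hNi hy hx h2
    rw [← hyx, h3]
  -- facts about the elements of Om
  have hmain : ∀ a ∈ Om q h, ∀ x ∈ N, (x : Qb) = a + (q : Qb) / a → ∀ c ∈ s, ρ x = φ c →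
      (IsSquare (c ^ 2 - 4 * (q : ZMod l)) → σ a = a) ∧
      (¬ IsSquare (c ^ 2 - 4 * (q : ZMod l)) → σ a = (q : Qb) / a) := by
    intro a ha x hx hxa c hc hxc
    have h0 : a ≠ 0 := ha.1
    have hai := hOint a ha
    -- σ a is in the same fibre
    have hσ0 : σ a ≠ 0 := by simpa using h0
    have hσx : σ a + (q : Qb) / σ a = a + (q : Qb) / a := by
      have := hfix x hx
      rw [hxa] at this
      simpa using this
    have hor : σ a = a ∨ σ a = (q : Qb) / a := by
      have h1 : (σ a - a) * (σ a - (q : Qb) / a) = 0 := by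
        have h2 : σ a * (σ a + (q : Qb) / σ a) = σ a ^ 2 + q := by field_simp
        rw [hσx] at h2
        have h3 : a * ((q : Qb) / a) = q := by field_simp
        linear_combination (-1 : Qb) * h2 + h3
      rcases mul_eq_zero.1 h1 with h2 | h2
      · left; linear_combination h2
      · right; linear_combination h2
    have hqa : (q : Qb) / a = x - a := by rw [hxa]; ring
    set a' : integralClosure ℤ Qb := ⟨a, hai⟩ with ha'
    have hquad : ρ a' ^ 2 - φ c * ρ a' + (q : k) = 0 := by
      have h1 : a' ^ 2 - x * a' + (q : integralClosure ℤ Qb) = 0 := by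
        apply Subtype.ext
        have := hOq a ha
        rw [← hxa] at this
        simpa using this
      have := congrArg ρ h1
      simpa [hxc] using this
    have he2 : (2 * ρ a' - φ c) ^ 2 = φ (c ^ 2 - 4 * (q : ZMod l)) := by
      have : φ (c ^ 2 - 4 * (q : ZMod l)) = φ c ^ 2 - 4 * (q : k) := by
        rw [map_sub, map_pow, map_mul, map_ofNat, map_natCast]
      rw [this]
      linear_combination 4 * hquad
    have hFa : ∀ hx' : σ a ∈ integralClosure ℤ Qb, ρ ⟨σ a, hx'⟩ = ρ a' ^ l :=
      fun hx' => hρσ a hai hx' (Or.inr ha)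
    have hF1 : σ a = a → ρ a' = ρ a' ^ l := by
      intro h1
      have h2 := hFa (by rw [h1]; exact hai)
      have h3 : (⟨σ a, by rw [h1]; exact hai⟩ : integralClosure ℤ Qb) = a' := Subtype.ext h1
      rwa [h3] at h2
    have hF2 : σ a = (q : Qb) / a → φ c - ρ a' = ρ a' ^ l := by
      intro h1
      have h3 : σ a = ((x - a' : integralClosure ℤ Qb) : Qb) := by
        rw [h1, hqa]
        simp [ha']
      have h2 := hFa (by rw [h3]; exact (x - a').2)
      have h4 : (⟨σ a, by rw [h3]; exact (x - a').2⟩ : integralClosure ℤ Qb) = x - a' :=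
        Subtype.ext h3
      rw [h4, map_sub, hxc] at h2
      exact h2
    have hDk : φ (c ^ 2 - 4 * (q : ZMod l)) ≠ 0 := (map_ne_zero_iff φ hφi).2 (hD c hc)
    constructor
    · rintro ⟨d, hd⟩
      rcases hor with h1 | h1
      · exact h1
      · exfalso
        have h2 := hF2 h1
        have h3 : ρ a' ^ l = ρ a' := by
          have h4 : (2 * ρ a' - φ c - φ d) * (2 * ρ a' - φ c + φ d) = 0 := by
            have : φ (c ^ 2 - 4 * (q : ZMod l)) = φ d * φ d := by rw [hd, map_mul]
            linear_combination he2 + this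
          have h5 : ∃ t : ZMod l, ρ a' = φ t := by
            rcases mul_eq_zero.1 h4 with h6 | h6
            · refine ⟨(c + d) / 2, ?_⟩
              rw [map_div₀, map_add, map_ofNat]
              field_simp
              linear_combination h6
            · refine ⟨(c - d) / 2, ?_⟩
              rw [map_div₀, map_sub, map_ofNat]
              field_simp
              linear_combination h6
          obtain ⟨t, ht⟩ := h5
          rw [ht, hφl]
        apply hDk
        rw [← he2]
        have h4 : 2 * ρ a' - φ c = 0 := by linear_combination -h3 - h2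
        rw [h4]
        ring
    · intro hns
      rcases hor with h1 | h1
      · exfalso
        have h2 := hF1 h1
        have h3 := PD_euler hl2 _ hns _ he2
        have h4 : (2 * ρ a' - φ c) ^ l = 2 * ρ a' ^ l - φ c := by
          rw [sub_pow_char, mul_pow, hφl]
          congr 2
          have := hφl 2
          rwa [map_ofNat] at this
        rw [h4, ← h2] at h3
        have h5 : 2 * (2 * ρ a' - φ c) = 0 := by linear_combination h3
        have h6 : 2 * ρ a' - φ c = 0 := by
          rcases mul_eq_zero.1 h5 with h7 | h7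
          · exact absurd h7 h2k
          · exact h7
        apply hDk
        rw [← he2, h6]
        ring
      · exact h1
  -- discriminants in Qb
  have hDQ : ∀ x ∈ N, ((x : Qb)) ^ 2 - 4 * (q : Qb) ≠ 0 := by
    intro x hx h0
    obtain ⟨c, hc, hxc⟩ := hN1 x hx
    have h1 : x ^ 2 - 4 * (q : integralClosure ℤ Qb) = 0 := by
      have hinj : Function.Injective (algebraMap (integralClosure ℤ Qb) Qb) :=
        Subtype.val_injective
      apply hinj
      rw [map_sub, map_pow, map_mul, map_ofNat, map_natCast, map_zero]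
      exact h0
    have h2 := congrArg ρ h1
    apply hD c hc
    apply hφi
    rw [map_sub, map_pow, map_mul, map_ofNat, map_natCast, map_zero, hxc] at h2
    rw [map_sub, map_pow, map_mul, map_ofNat, map_natCast, map_zero]
    exact h2
  have hcard : (Om q h).ncard = 2 * g := by
    have h1 := PD_count q hq h (N.map ⟨fun x : integralClosure ℤ Qb => (x : Qb),
      Subtype.val_injective⟩) (by
        intro b
        rw [hNr b]
        simp) (by
        intro b hb
        simp only [Finset.mem_map, Function.Embedding.coeFn_mk] at hb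
        obtain ⟨x, hx, rfl⟩ := hb
        exact hDQ x hx)
    rw [h1, Finset.card_map, hNc]
  refine ⟨hcard, σ, ?_⟩
  obtain ⟨x₀, hx₀, hxc₀⟩ := hN2 c₀ hc₀
  obtain ⟨r, hr⟩ : ∃ r : Qb, r ^ 2 = (x₀ : Qb) ^ 2 - 4 * (q : Qb) :=
    IsAlgClosed.exists_pow_nat_eq _ two_pos
  have hb₀ := (PD_fib (a := ((x₀ : Qb) + r) / 2) hq hr).2 (Or.inl rfl)
  set a₀ : Qb := ((x₀ : Qb) + r) / 2 with ha₀
  have ha₀O : a₀ ∈ Om q h := ⟨hb₀.1, by rw [hb₀.2]; exact (hNr _).2 ⟨x₀, hx₀, rfl⟩⟩
  have hr0 : r ≠ 0 := by
    rintro rfl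
    apply hDQ x₀ hx₀
    rw [← hr]
    ring
  have hqa₀ : (q : Qb) / a₀ = ((x₀ : Qb) - r) / 2 := by
    have : (q : Qb) / a₀ = x₀ - a₀ := by rw [← hb₀.2]; ring
    rw [this, ha₀]
    ring
  refine ⟨a₀, ha₀O, ?_, ?_, ?_⟩
  · intro h1
    apply hr0
    rw [hqa₀, ha₀] at h1
    linear_combination h1
  · exact (hmain a₀ ha₀O x₀ hx₀ hb₀.2.symm c₀ hc₀ hxc₀).2 hnsq
  · intro a ha h1 h2
    obtain ⟨x, hx, hxa⟩ := (hNr _).1 ha.2
    obtain ⟨c, hc, hxc⟩ := hN1 x hx
    refine (hmain a ha x hx hxa c hc hxc).1 ?_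
    have hcc : c ≠ c₀ := by
      rintro rfl
      have h3 : x = x₀ := hNi hx hx₀ (hxc.trans hxc₀.symm)
      rw [h3] at hxa
      rcases (PD_fib hq hr).1 ⟨ha.1, hxa.symm⟩ with h4 | h4
      · exact h1 h4
      · exact h2 (h4.trans hqa₀.symm)
    exact (hsq c hc hcc).2

end

end Pool.Agent.TJ2
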