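import Pool.Agent.TJ2.Stmts2

/-!
# Theorem J, module PHI (MP_6c4da4_ag)

The equivariant bijection for a partner.
-/

open Polynomial IntermediateField

namespace Pool.Agent.TJ2

noncomputable section

theorem PHI_fix {σ : Qb ≃ₐ[ℚ] Qb} {a x : Qb} (ha : σ a = a) (hx : x ∈ ℚ⟮a⟯) : σ x = x := by
  have h1 : ℚ⟮a⟯ ≤ IntermediateField.fixedField (Subgroup.zpowers σ) := by
    rw [IntermediateField.adjoin_simple_le_iff, IntermediateField.mem_fixedField_iff]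
    intro f hf
    obtain ⟨n, rfl⟩ := Subgroup.mem_zpowers_iff.1 hf
    have h2 : σ ∈ MulAction.stabilizer (Qb ≃ₐ[ℚ] Qb) a := by
      rw [MulAction.mem_stabilizer_iff]
      exact ha
    have h3 := Subgroup.zpow_mem _ h2 n
    rw [MulAction.mem_stabilizer_iff] at h3
    exact h3
  have h2 := h1 hx
  rw [IntermediateField.mem_fixedField_iff] at h2
  exact h2 σ (Subgroup.mem_zpowers σ)

theorem PHI_iff {σ τ : Qb ≃ₐ[ℚ] Qb} {a a' : Qb} (hK : ℚ⟮a⟯ = ℚ⟮a'⟯) (h : σ a = τ a) :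
    σ a' = τ a' := by
  have h1 : (τ⁻¹ * σ) a = a := by
    rw [AlgEquiv.mul_apply, h, ← AlgEquiv.mul_apply, inv_mul_cancel, AlgEquiv.one_apply]
  have h2 : (τ⁻¹ * σ) a' = a' := by
    apply PHI_fix h1
    rw [hK]
    exact IntermediateField.mem_adjoin_simple_self ℚ a'
  have h3 := congrArg τ h2
  rw [← AlgEquiv.mul_apply, mul_inv_cancel_left] at h3
  exact h3

theorem t_PHI (hOMB : S_OMB) (hFULC : S_FULC) : S_PHI := by
  classical
  intro q h h' a a' hq hh hh' ha ha' hK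
  obtain ⟨_, hO, hF⟩ := hh
  obtain ⟨_, hO', hF'⟩ := hh'
  have hm : h.Monic := hO.1.1
  have hm' : h'.Monic := hO'.1.1
  obtain ⟨_, hb, hst, _, hne⟩ := hOMB h.natDegree q h hq hm rfl
  obtain ⟨_, hb', hst', _, hne'⟩ := hOMB h'.natDegree q h' hq hm' rfl
  obtain ⟨htr, _, _⟩ := hFULC q h hq hm hF
  obtain ⟨htr', hfl', _⟩ := hFULC q h' hq hm' hF'
  have hne1 := (hne hF.1).1
  have hne1' := (hne' hF'.1).1
  have hφ : ∀ x : Qb, ∃ y : Qb, x ∈ Om q h → ∃ σ : Qb ≃ₐ[ℚ] Qb, σ a = x ∧ y = σ a' := by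
    intro x
    by_cases hx : x ∈ Om q h
    · obtain ⟨σ, hσ⟩ := htr a ha x hx
      exact ⟨σ a', fun _ => ⟨σ, hσ, rfl⟩⟩
    · exact ⟨0, fun H => absurd H hx⟩
  choose φ hφ using hφ
  have hφσ : ∀ σ : Qb ≃ₐ[ℚ] Qb, φ (σ a) = σ a' := by
    intro σ
    obtain ⟨τ, h1, h2⟩ := hφ (σ a) (hst a ha σ)
    rw [h2]
    exact PHI_iff hK h1
  have hφa : φ a = a' := by
    have := hφσ 1
    simpa using this
  have heq : ∀ σ : Qb ≃ₐ[ℚ] Qb, ∀ x ∈ Om q h, φ (σ x) = σ (φ x) := by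
    intro σ x hx
    obtain ⟨τ, rfl⟩ := htr a ha x hx
    have h1 : σ (τ a) = (σ * τ) a := rfl
    rw [h1, hφσ, hφσ]
    rfl
  have hmaps : ∀ x ∈ Om q h, φ x ∈ Om q h' := by
    intro x hx
    obtain ⟨τ, rfl⟩ := htr a ha x hx
    rw [hφσ]
    exact hst' a' ha' τ
  have hinj : Set.InjOn φ (Om q h) := by
    intro x hx y hy hxy
    obtain ⟨τ, rfl⟩ := htr a ha x hx
    obtain ⟨σ, rfl⟩ := htr a ha y hy
    rw [hφσ, hφσ] at hxy
    exact PHI_iff hK.symm hxy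
  have hsurj : Set.SurjOn φ (Om q h) (Om q h') := by
    intro y hy
    obtain ⟨τ, rfl⟩ := htr' a' ha' y hy
    exact ⟨τ a, hst a ha τ, hφσ τ⟩
  have hbij : Set.BijOn φ (Om q h) (Om q h') := ⟨hmaps, hinj, hsurj⟩
  have hqσ : ∀ (σ : Qb ≃ₐ[ℚ] Qb) (x : Qb), σ ((q : Qb) / x) = (q : Qb) / σ x := by
    intro σ x
    rw [map_div₀, map_natCast]
  have hbara : φ ((q : Qb) / a) = (q : Qb) / a' := by
    have hqa : (q : Qb) / a ∈ Om q h := (hb a ha).1
    set c : Qb := φ ((q : Qb) / a) with hc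
    have hcO : c ∈ Om q h' := hmaps _ hqa
    by_contra hcne
    have hca : a' ≠ c := by
      intro h1
      rw [← hφa] at h1
      exact hne1 a ha (hinj ha hqa h1)
    have hq0 : (q : Qb) ≠ 0 := by exact_mod_cast (by omega : q ≠ 0)
    have hqc : a' ≠ (q : Qb) / c := by
      intro h1
      apply hcne
      have hc0 : c ≠ 0 := hcO.1
      rw [h1]
      field_simp
    obtain ⟨τ, hτ1, hτ2⟩ := hfl' c hcO
    have h1 : τ a' = a' := hτ2 a' ha' hca hqc
    have h2 : τ a = a := by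
      have := PHI_iff (σ := τ) (τ := 1) hK.symm (by simpa using h1)
      simpa using this
    have h3 : τ c = c := by
      have := heq τ _ hqa
      rw [hqσ, h2] at this
      exact this.symm
    rw [hτ1] at h3
    exact hne1' c hcO h3.symm
  have hbar : ∀ x ∈ Om q h, φ ((q : Qb) / x) = (q : Qb) / φ x := by
    intro x hx
    obtain ⟨τ, rfl⟩ := htr a ha x hx
    rw [← hqσ, heq τ _ (hb a ha).1, hbara, hφσ, hqσ]
  refine ⟨?_, φ, hbij, hφa, heq, hbar⟩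
  have h1 : (Om q h').ncard = (Om q h).ncard := by
    rw [← hbij.image_eq]
    exact Set.InjOn.ncard_image hinj
  rw [hF.1, hF'.1] at h1
  omega

end

end Pool.Agent.TJ2
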