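import Pool.Agent.TJ2.Stmts
import Mathlib.NumberTheory.Chebyshev

/-!
# Theorem J, module PI: `π(x) = o(x)` (MP_6c4da4_ag)

From Mathlib's Chebyshev upper bound `π(x) ≤ (log 4 + ε) x / log x`.
-/

namespace Pool.Agent.TJ2

theorem t_PI : S_PI := by
  intro η hη
  have h1 := Chebyshev.eventually_primeCounting_le (ε := 1) one_pos
  have h2 : ∀ᶠ x : ℝ in Filter.atTop, (Real.log 4 + 1) / η ≤ Real.log x :=
    Real.tendsto_log_atTop.eventually_ge_atTop _
  have h3 : ∀ᶠ x : ℝ in Filter.atTop, (1 : ℝ) < x := Filter.eventually_gt_atTop 1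
  obtain ⟨x₀, hx₀⟩ := Filter.eventually_atTop.1 (h1.and (h2.and h3))
  refine ⟨x₀, fun x hx => ?_⟩
  obtain ⟨a, b, c⟩ := hx₀ x hx
  have hlog : 0 < Real.log x := Real.log_pos c
  have hx0 : 0 ≤ x := by linarith
  refine a.trans ?_
  rw [div_le_iff₀ hlog]
  rw [div_le_iff₀ hη] at b
  calc (Real.log 4 + 1) * x ≤ (Real.log x * η) * x := mul_le_mul_of_nonneg_right b hx0
    _ = η * x * Real.log x := by ring

end Pool.Agent.TJ2
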