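import Pool.Agent.TJ2.Stmts

/-!
# Theorem J, module SQA: solutions of `x ^ 2 ≡ n` modulo `l ^ (2 k)` in an interval
-/

namespace Pool.Agent.TJ2

private lemma SQA_fin (m : ℕ) (c u : ℤ) (H : ℕ) :
    {x : ℤ | u ≤ x ∧ x ≤ u + H ∧ (m : ℤ) ∣ x - c}.Finite :=
  (Set.finite_Icc u (u + H)).subset (fun _ hx => ⟨hx.1, hx.2.1⟩)

private lemma SQA_cls (m : ℕ) (hm : 0 < m) (c u : ℤ) (H : ℕ) :
    {x : ℤ | u ≤ x ∧ x ≤ u + H ∧ (m : ℤ) ∣ x - c}.ncard ≤ H / m + 1 := by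
  have hm' : (0 : ℤ) < (m : ℤ) := by exact_mod_cast hm
  have h := Set.ncard_le_ncard_of_injOn (s := {x : ℤ | u ≤ x ∧ x ≤ u + H ∧ (m : ℤ) ∣ x - c})
    (t := ((Finset.range (H / m + 1) : Finset ℕ) : Set ℕ))
    (fun x => ((x - u) / (m : ℤ)).toNat) ?_ ?_ (Finset.finite_toSet _)
  · rwa [Set.ncard_coe_finset, Finset.card_range] at h
  · rintro x ⟨h1, h2, -⟩
    simp only [Finset.coe_range, Set.mem_Iio]
    have h3 : (x - u) / (m : ℤ) ≤ (H : ℤ) / (m : ℤ) := Int.ediv_le_ediv hm' (by linarith)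
    have h4 : (0 : ℤ) ≤ (x - u) / (m : ℤ) := Int.ediv_nonneg (by linarith) hm'.le
    have h5 : ((H : ℤ) / (m : ℤ)) = ((H / m : ℕ) : ℤ) := by push_cast; rfl
    rw [h5] at h3
    omega
  · rintro x ⟨h1, h2, h3⟩ y ⟨h4, h5, h6⟩ hxy
    simp only at hxy
    have h7 : (0 : ℤ) ≤ (x - u) / (m : ℤ) := Int.ediv_nonneg (by linarith) hm'.le
    have h8 : (0 : ℤ) ≤ (y - u) / (m : ℤ) := Int.ediv_nonneg (by linarith) hm'.le
    have h9 : (x - u) / (m : ℤ) = (y - u) / (m : ℤ) := by omega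
    have h10 : (m : ℤ) ∣ x - y := by
      have := dvd_sub h3 h6
      have e : x - c - (y - c) = x - y := by ring
      rwa [e] at this
    have hx := Int.emod_add_mul_ediv (x - u) m
    have hy := Int.emod_add_mul_ediv (y - u) m
    have hx1 := Int.emod_nonneg (x - u) hm'.ne'
    have hx2 := Int.emod_lt_of_pos (x - u) hm'
    have hy1 := Int.emod_nonneg (y - u) hm'.ne'
    have hy2 := Int.emod_lt_of_pos (y - u) hm'
    rw [h9] at hx
    have h11 : x - y = 0 := by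
      apply Int.eq_zero_of_abs_lt_dvd h10
      rw [abs_lt]
      constructor <;> linarith
    linarith

private lemma SQA_pr {p : ℤ} (hp : Prime p) (a b : ℤ) (j : ℕ) (h : p ^ (j + j + 2) ∣ a * b) :
    p ^ (j + 1) ∣ a ∨ p ^ (j + 1) ∣ b := by
  by_cases ha : p ^ (j + 1) ∣ a
  · exact Or.inl ha
  · right
    obtain ⟨m, hm, c, hc, hc2⟩ : ∃ m, m ≤ j ∧ ∃ c, a = p ^ m * c ∧ ¬ p ∣ c := by
      have key : ∀ t, ¬ p ^ (t + 1) ∣ a → ∃ m, m ≤ t ∧ ∃ c, a = p ^ m * c ∧ ¬ p ∣ c := by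
        intro t
        induction t with
        | zero => intro h0; exact ⟨0, le_refl _, a, by simp, by simpa using h0⟩
        | succ t ih =>
          intro h0
          by_cases h1 : p ^ (t + 1) ∣ a
          · obtain ⟨c, hc⟩ := h1
            refine ⟨t + 1, le_refl _, c, hc, ?_⟩
            rintro ⟨d, hd⟩
            exact h0 ⟨d, by rw [hc, hd]; ring⟩
          · obtain ⟨m, hm, c, hc⟩ := ih h1
            exact ⟨m, by omega, c, hc⟩
      exact key j ha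
    have hp0 : p ^ m ≠ 0 := pow_ne_zero _ hp.ne_zero
    have h1 : p ^ (j + j + 2 - m) ∣ c * b := by
      have e : p ^ (j + j + 2) = p ^ m * p ^ (j + j + 2 - m) := by
        rw [← pow_add]; congr 1; omega
      rw [e, hc, mul_assoc] at h
      exact (mul_dvd_mul_iff_left hp0).mp h
    have h2 : p ^ (j + j + 2 - m) ∣ b := hp.pow_dvd_of_dvd_mul_left _ hc2 h1
    exact (pow_dvd_pow _ (by omega)).trans h2

theorem t_SQA : S_SQA := by
  intro l k n u H hl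
  rcases Set.eq_empty_or_nonempty
    {x : ℤ | u ≤ x ∧ x ≤ u + H ∧ (l : ℤ) ^ (2 * k) ∣ x ^ 2 - n} with he | ⟨x0, hx0⟩
  · rw [he]; simp
  · have hpos : 0 < l ^ k := pow_pos hl.pos k
    have hlp : Prime (l : ℤ) := Nat.prime_iff_prime_int.mp hl
    have hsub : {x : ℤ | u ≤ x ∧ x ≤ u + H ∧ (l : ℤ) ^ (2 * k) ∣ x ^ 2 - n} ⊆
        {x : ℤ | u ≤ x ∧ x ≤ u + H ∧ ((l ^ k : ℕ) : ℤ) ∣ x - x0} ∪
        {x : ℤ | u ≤ x ∧ x ≤ u + H ∧ ((l ^ k : ℕ) : ℤ) ∣ x - (-x0)} := by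
      rintro x ⟨h1, h2, h3⟩
      have h4 : (l : ℤ) ^ (2 * k) ∣ (x - x0) * (x - (-x0)) := by
        have := dvd_sub h3 hx0.2.2
        have e : x ^ 2 - n - (x0 ^ 2 - n) = (x - x0) * (x - (-x0)) := by ring
        rwa [e] at this
      have h5 : (l : ℤ) ^ k ∣ (x - x0) ∨ (l : ℤ) ^ k ∣ (x - (-x0)) := by
        have h6 : (l : ℤ) ^ (2 * k) = (l : ℤ) ^ (k + k) := by rw [two_mul]
        rw [h6] at h4
        rcases Nat.eq_zero_or_pos k with hk | hk
        · left; rw [hk, pow_zero]; exact one_dvd _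
        · obtain ⟨j, rfl⟩ : ∃ j, k = j + 1 := ⟨k - 1, by omega⟩
          have h7 : (l : ℤ) ^ (j + j + 1) ∣ (x - x0) * (x - (-x0)) :=
            (pow_dvd_pow _ (by omega)).trans h4
          rcases (Nat.eq_zero_or_pos j) with hj | hj
          · subst hj
            have h8 : (l : ℤ) ∣ (x - x0) * (x - (-x0)) := by simpa using h7
            simpa using hlp.dvd_or_dvd h8
          · exact SQA_pr hlp (x - x0) (x - (-x0)) j (by
              have e2 : (l : ℤ) ^ (j + 1 + (j + 1)) = (l : ℤ) ^ (j + j + 2) := by ring_nf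
              rw [← e2]; exact h4)
      rcases h5 with h5 | h5
      · left; exact ⟨h1, h2, by exact_mod_cast h5⟩
      · right; exact ⟨h1, h2, by exact_mod_cast h5⟩
    calc _ ≤ _ := Set.ncard_le_ncard hsub ((SQA_fin _ _ _ _).union (SQA_fin _ _ _ _))
      _ ≤ _ := Set.ncard_union_le _ _
      _ ≤ (H / l ^ k + 1) + (H / l ^ k + 1) :=
          Nat.add_le_add (SQA_cls _ hpos _ _ _) (SQA_cls _ hpos _ _ _)
      _ = 2 * (H / l ^ k + 1) := by ring

end Pool.Agent.TJ2
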