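import Pool.Agent.TJ2.Stmts

/-!
# Theorem J, module SQB: solutions of `x ^ 2 ≡ n` modulo `l ^ 2` in an interval, `l` prime to `2 n`
-/

namespace Pool.Agent.TJ2

private lemma SQB_fin (m : ℕ) (c u : ℤ) (H : ℕ) :
    {x : ℤ | u ≤ x ∧ x ≤ u + H ∧ (m : ℤ) ∣ x - c}.Finite :=
  (Set.finite_Icc u (u + H)).subset (fun _ hx => ⟨hx.1, hx.2.1⟩)

private lemma SQB_cls (m : ℕ) (hm : 0 < m) (c u : ℤ) (H : ℕ) :
    {x : ℤ | u ≤ x ∧ x ≤ u + H ∧ (m : ℤ) ∣ x - c}.ncard ≤ H / m + 1 := by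
  have hm' : (0 : ℤ) < (m : ℤ) := by exact_mod_cast hm
  have h := Set.ncard_le_ncard_of_injOn (s := {x : ℤ | u ≤ x ∧ x ≤ u + H ∧ (m : ℤ) ∣ x - c})
    (t := ((Finset.range (H / m + 1) : Finset ℕ) : Set ℕ))
    (fun x => ((x - u) / (m : ℤ)).toNat) ?_ ?_ (Finset.finite_toSet _)
  · rwa [Set.ncard_coe_finset, Finset.card_range] at h
  · rintro x ⟨h1, h2, -⟩
    simp only [Finset.coe_range, Set.mem_Iio]
    have h3 : (x - u) / (m : ℤ) ≤ (H : ℤ) / (m : ℤ) := Int.ediv_le_ediv hm' (by linarith)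
    have h4 : (0 : ℤ) ≤ (x - u) / (m : ℤ) := Int.ediv_nonneg (by linarith) hm'.le
    have h5 : ((H : ℤ) / (m : ℤ)) = ((H / m : ℕ) : ℤ) := by push_cast; rfl
    rw [h5] at h3
    omega
  · rintro x ⟨h1, h2, h3⟩ y ⟨h4, h5, h6⟩ hxy
    simp only at hxy
    have h7 : (0 : ℤ) ≤ (x - u) / (m : ℤ) := Int.ediv_nonneg (by linarith) hm'.le
    have h8 : (0 : ℤ) ≤ (y - u) / (m : ℤ) := Int.ediv_nonneg (by linarith) hm'.le
    have h9 : (x - u) / (m : ℤ) = (y - u) / (m : ℤ) := by omega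
    have h10 : (m : ℤ) ∣ x - y := by
      have := dvd_sub h3 h6
      have e : x - c - (y - c) = x - y := by ring
      rwa [e] at this
    have hx := Int.emod_add_mul_ediv (x - u) m
    have hy := Int.emod_add_mul_ediv (y - u) m
    have hx1 := Int.emod_nonneg (x - u) hm'.ne'
    have hx2 := Int.emod_lt_of_pos (x - u) hm'
    have hy1 := Int.emod_nonneg (y - u) hm'.ne'
    have hy2 := Int.emod_lt_of_pos (y - u) hm'
    rw [h9] at hx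
    have h11 : x - y = 0 := by
      apply Int.eq_zero_of_abs_lt_dvd h10
      rw [abs_lt]
      constructor <;> linarith
    linarith

private lemma SQB_dvd {p : ℤ} (hp : Prime p) (a b : ℤ) (h : p ^ 2 ∣ a * b)
    (hab : ¬ (p ∣ a ∧ p ∣ b)) : p ^ 2 ∣ a ∨ p ^ 2 ∣ b := by
  by_cases ha : p ∣ a
  · left
    have hb : ¬ p ∣ b := fun hb => hab ⟨ha, hb⟩
    exact hp.pow_dvd_of_dvd_mul_right 2 hb h
  · right
    exact hp.pow_dvd_of_dvd_mul_left 2 ha h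

theorem t_SQB : S_SQB := by
  intro l n u H hl hl2 hln
  have hp : Prime (l : ℤ) := Nat.prime_iff_prime_int.1 hl
  have hlpos : 0 < l ^ 2 := pow_pos hl.pos 2
  by_cases hne : ∃ x₀ : ℤ, (l : ℤ) ^ 2 ∣ x₀ ^ 2 - n
  · obtain ⟨x₀, hx₀⟩ := hne
    have hl1 : (l : ℤ) ∣ (l : ℤ) ^ 2 := dvd_pow_self _ two_ne_zero
    have hx₀' : ¬ (l : ℤ) ∣ x₀ := by
      intro h
      apply hln
      have h1 : (l : ℤ) ∣ x₀ ^ 2 - n := hl1.trans hx₀
      have h2 : (l : ℤ) ∣ x₀ ^ 2 := h.trans (dvd_pow_self _ two_ne_zero)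
      have h3 := dvd_sub h2 h1
      rwa [sub_sub_cancel] at h3
    have hsub : {x : ℤ | u ≤ x ∧ x ≤ u + H ∧ (l : ℤ) ^ 2 ∣ x ^ 2 - n} ⊆
        {x : ℤ | u ≤ x ∧ x ≤ u + H ∧ ((l ^ 2 : ℕ) : ℤ) ∣ x - x₀} ∪
        {x : ℤ | u ≤ x ∧ x ≤ u + H ∧ ((l ^ 2 : ℕ) : ℤ) ∣ x - (-x₀)} := by
      rintro x ⟨h1, h2, h3⟩
      have h4 : (l : ℤ) ^ 2 ∣ (x - x₀) * (x + x₀) := by
        have h5 := dvd_sub h3 hx₀
        have e : x ^ 2 - n - (x₀ ^ 2 - n) = (x - x₀) * (x + x₀) := by ring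
        rwa [e] at h5
      have h6 : ¬ ((l : ℤ) ∣ x - x₀ ∧ (l : ℤ) ∣ x + x₀) := by
        rintro ⟨ha, hb⟩
        have hc := dvd_sub hb ha
        have e : x + x₀ - (x - x₀) = 2 * x₀ := by ring
        rw [e] at hc
        rcases hp.dvd_or_dvd hc with hd | hd
        · have hd' : l ∣ 2 := by exact_mod_cast hd
          exact hl2 ((Nat.prime_dvd_prime_iff_eq hl Nat.prime_two).1 hd')
        · exact hx₀' hd
      have ecast : ((l ^ 2 : ℕ) : ℤ) = (l : ℤ) ^ 2 := by push_cast; rfl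
      rcases SQB_dvd hp _ _ h4 h6 with h7 | h7
      · left
        refine ⟨h1, h2, ?_⟩
        rw [ecast]; exact h7
      · right
        refine ⟨h1, h2, ?_⟩
        rw [ecast, sub_neg_eq_add]; exact h7
    calc _ ≤ ({x : ℤ | u ≤ x ∧ x ≤ u + H ∧ ((l ^ 2 : ℕ) : ℤ) ∣ x - x₀} ∪
        {x : ℤ | u ≤ x ∧ x ≤ u + H ∧ ((l ^ 2 : ℕ) : ℤ) ∣ x - (-x₀)}).ncard :=
          Set.ncard_le_ncard hsub ((SQB_fin _ _ _ _).union (SQB_fin _ _ _ _))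
      _ ≤ _ := Set.ncard_union_le _ _
      _ ≤ (H / l ^ 2 + 1) + (H / l ^ 2 + 1) :=
          add_le_add (SQB_cls _ hlpos _ _ _) (SQB_cls _ hlpos _ _ _)
      _ = 2 * (H / l ^ 2 + 1) := by ring
  · have he : {x : ℤ | u ≤ x ∧ x ≤ u + H ∧ (l : ℤ) ^ 2 ∣ x ^ 2 - n} = ∅ := by
      rw [Set.eq_empty_iff_forall_notMem]
      rintro x ⟨-, -, h⟩
      exact hne ⟨x, h⟩
    rw [he, Set.ncard_empty]
    exact Nat.zero_le _

end Pool.Agent.TJ2
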