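import Pool.Agent.TJ2.Stmts

/-!
# Module SQC: how often `b ^ 2 - 4 q` is a square modulo `l`
-/

namespace Pool.Agent.TJ2

open Finset

/-- number of solutions of `c ^ 2 = b ^ 2 - a` -/
lemma SQC_pairs (l : ℕ) [Fact l.Prime] (hl : l ≠ 2) (a : ZMod l) (ha : a ≠ 0) :
    ∑ b : ZMod l, (univ.filter (fun c : ZMod l => c ^ 2 = b ^ 2 - a)).card + 1 = l := by
  classical
  have h2 : (2 : ZMod l) ≠ 0 := by
    intro h
    have h' : ((2 : ℕ) : ZMod l) = 0 := by exact_mod_cast h
    rw [ZMod.natCast_eq_zero_iff] at h'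
    exact hl ((Nat.prime_dvd_prime_iff_eq (Fact.out : l.Prime) Nat.prime_two).1 h')
  have hT : ∑ b : ZMod l, (univ.filter (fun c : ZMod l => c ^ 2 = b ^ 2 - a)).card =
      (univ.filter (fun u : ZMod l => u ≠ 0)).card := by
    rw [← Finset.card_sigma]
    refine Finset.card_nbij' (fun p => p.1 + p.2)
      (fun u => ⟨(u + a / u) / 2, (u - a / u) / 2⟩) ?_ ?_ ?_ ?_
    · rintro ⟨b, c⟩ hp
      simp only [Finset.coe_sigma, Set.mem_sigma_iff, Finset.coe_filter, Finset.mem_univ,
        true_and, Set.mem_ofPred_eq, Finset.coe_univ, Set.mem_univ] at hp ⊢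
      intro h0
      apply ha
      have : c = -b := by linear_combination h0
      rw [this] at hp
      linear_combination hp
    · intro u hu
      simp only [Finset.coe_sigma, Set.mem_sigma_iff, Finset.coe_filter, Finset.mem_univ,
        true_and, Set.mem_ofPred_eq, Finset.coe_univ, Set.mem_univ] at hu ⊢
      field_simp
      ring
    · rintro ⟨b, c⟩ hp
      simp only [Finset.coe_sigma, Set.mem_sigma_iff, Finset.coe_filter, Finset.mem_univ,
        true_and, Set.mem_ofPred_eq, Finset.coe_univ, Set.mem_univ] at hp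
      have hbc : b + c ≠ 0 := by
        intro h0
        apply ha
        have : c = -b := by linear_combination h0
        rw [this] at hp
        linear_combination hp
      have hab : a / (b + c) = b - c := by
        rw [div_eq_iff hbc]
        linear_combination hp
      simp only [hab]
      congr 1
      · field_simp
        ring
      · field_simp
        ring
    · intro u hu
      simp only [Finset.coe_filter, Finset.mem_univ, true_and, Set.mem_ofPred_eq] at hu
      simp only
      field_simp
      ring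
  rw [hT]
  have h3 : (univ.filter (fun u : ZMod l => u ≠ 0)) = univ.erase 0 := by
    ext u; simp
  rw [h3, Finset.card_erase_of_mem (Finset.mem_univ _), Finset.card_univ, ZMod.card]
  have := (Fact.out : l.Prime).pos
  omega

theorem t_SQC : S_SQC := by
  classical
  intro l q _ hl hq
  have hp : l.Prime := Fact.out
  have hne : ringChar (ZMod l) ≠ 2 := by
    rw [ZMod.ringChar_zmod_n]; exact hl
  have ha : (4 * (q : ZMod l)) ≠ 0 := by
    intro h
    have h' : ((4 * q : ℕ) : ZMod l) = 0 := by push_cast; exact h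
    rw [ZMod.natCast_eq_zero_iff] at h'
    rcases (Nat.Prime.dvd_mul hp).1 h' with h4 | h4
    · have : l ∣ 2 ^ 2 := by simpa using h4
      have := Nat.Prime.dvd_of_dvd_pow hp this
      exact hl ((Nat.prime_dvd_prime_iff_eq hp Nat.prime_two).1 this)
    · exact hq h4
  have hP := SQC_pairs l hl _ ha
  set a : ZMod l := 4 * (q : ZMod l) with hadef
  set A : Finset (ZMod l) := univ.filter (fun b => b ^ 2 - a ≠ 0 ∧ IsSquare (b ^ 2 - a)) with hA
  set B : Finset (ZMod l) := univ.filter (fun b => ¬ IsSquare (b ^ 2 - a)) with hB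
  set Z : Finset (ZMod l) := univ.filter (fun b => b ^ 2 - a = 0) with hZ
  have hAn : {b : ZMod l | b ^ 2 - a ≠ 0 ∧ IsSquare (b ^ 2 - a)}.ncard = A.card := by
    rw [← Set.ncard_coe_finset]; congr 1; ext b; simp [hA]
  have hBn : {b : ZMod l | ¬ IsSquare (b ^ 2 - a)}.ncard = B.card := by
    rw [← Set.ncard_coe_finset]; congr 1; ext b; simp [hB]
  rw [hAn, hBn]
  -- the number of zeros is at most two
  have hZ2 : Z.card ≤ 2 := by
    by_cases hz : ∃ b0 : ZMod l, b0 ^ 2 - a = 0
    · obtain ⟨b0, hb0⟩ := hz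
      have hsub : Z ⊆ {b0, -b0} := by
        intro b hb
        simp only [hZ, Finset.mem_filter, Finset.mem_univ, true_and] at hb
        simp only [Finset.mem_insert, Finset.mem_singleton]
        have : b ^ 2 = b0 ^ 2 := by linear_combination hb - hb0
        exact sq_eq_sq_iff_eq_or_eq_neg.1 this
      exact (Finset.card_le_card hsub).trans Finset.card_le_two
    · have : Z = ∅ := by
        rw [hZ, Finset.filter_eq_empty_iff]
        intro b _ hb
        exact hz ⟨b, hb⟩
      rw [this]; simp
  -- the fibres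
  have hfib : ∀ b : ZMod l, ((univ.filter (fun c : ZMod l => c ^ 2 = b ^ 2 - a)).card : ℤ) =
      2 * (if b ^ 2 - a ≠ 0 ∧ IsSquare (b ^ 2 - a) then 1 else 0) +
        (if b ^ 2 - a = 0 then 1 else 0) := by
    intro b
    have h1 := quadraticChar_card_sqrts hne (b ^ 2 - a)
    have h2 : ({x : ZMod l | x ^ 2 = b ^ 2 - a}.toFinset) =
        univ.filter (fun c : ZMod l => c ^ 2 = b ^ 2 - a) := by
      ext c; simp
    rw [h2] at h1
    rw [h1]
    by_cases h0 : b ^ 2 - a = 0
    · simp [h0]
    · by_cases hs : IsSquare (b ^ 2 - a)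
      · rw [(quadraticChar_one_iff_isSquare h0).2 hs]
        simp [h0, hs]
      · rw [quadraticChar_neg_one_iff_not_isSquare.2 hs]
        simp [h0, hs]
  have hsum : ((∑ b : ZMod l, (univ.filter (fun c : ZMod l => c ^ 2 = b ^ 2 - a)).card : ℕ) : ℤ) =
      2 * (A.card : ℤ) + Z.card := by
    push_cast
    rw [Finset.sum_congr rfl (fun b _ => hfib b), Finset.sum_add_distrib, ← Finset.mul_sum]
    rw [Finset.sum_boole, Finset.sum_boole]
  have hone : (l : ℤ) = A.card + Z.card + B.card := by
    have h1 : ((univ : Finset (ZMod l)).card : ℤ) = ∑ b : ZMod l, (1 : ℤ) := by simp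
    have h2 : ∀ b : ZMod l, (1 : ℤ) =
        (if b ^ 2 - a ≠ 0 ∧ IsSquare (b ^ 2 - a) then 1 else 0) +
        (if b ^ 2 - a = 0 then 1 else 0) + (if ¬ IsSquare (b ^ 2 - a) then 1 else 0) := by
      intro b
      by_cases h0 : b ^ 2 - a = 0
      · simp [h0]
      · by_cases hs : IsSquare (b ^ 2 - a)
        · simp [h0, hs]
        · simp [h0, hs]
    have h3 : (l : ℤ) = ∑ b : ZMod l, (1 : ℤ) := by
      rw [← h1, Finset.card_univ, ZMod.card]
    rw [h3, Finset.sum_congr rfl (fun b _ => h2 b), Finset.sum_add_distrib,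
      Finset.sum_add_distrib, Finset.sum_boole, Finset.sum_boole, Finset.sum_boole]
  constructor <;> omega

end Pool.Agent.TJ2
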