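import Pool.Agent.TJ2.Defs

/-!
# Theorem J: statements of the modules of the counting part (MP_6c4da4_ag, helper2)

`PAPER.md`, section 2.  Module `X`: theorem `t_X : S_X`.
-/

open Polynomial IntermediateField

namespace Pool.Agent.TJ2

noncomputable section

/-! ## Basic facts -/

/-- Multiplicity formula: for `h` monic, the product of all `(b - s) (b + s)` over the complex roots
`b` of `h` (with multiplicity), `s = 2√q`, is `delta q h`; and `h (2√q) = Xv + 2√q Yv`,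
`h (-2√q) = Xv - 2√q Yv`. -/
def S_DEL : Prop :=
  ∀ (q : ℕ) (h : ℤ[X]), h.Monic →
    aeval (2 * Real.sqrt q) h = (Xv q h : ℝ) + 2 * Real.sqrt q * (Yv q h : ℝ) ∧
    aeval (-(2 * Real.sqrt q)) h = (Xv q h : ℝ) - 2 * Real.sqrt q * (Yv q h : ℝ) ∧
    (delta q h : ℂ) = ((h.aroots ℂ).map (fun b => b ^ 2 - 4 * (q : ℂ))).prod ∧
    (delta q h : Qb) = ((h.aroots Qb).map (fun b => b ^ 2 - 4 * (q : Qb))).prod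

/-- For an ordinary real Weil polynomial `p` does not divide `delta`, and
`0 < |delta| ≤ (4 q) ^ g`, `|Yv| ≤ 2 * 4 ^ (g - 1) * √q ^ (g - 1)`.
(`delta ≡ (h 0) ^ 2` modulo `p`; `|b ^ 2 - 4 q| ≤ 4 q`; `4 √q Yv = h (2√q) - h (-2√q)`.) -/
def S_DELB : Prop :=
  ∀ (g q : ℕ) (h : ℤ[X]), 1 ≤ g → IsPrimePow q → h ∈ Ord g q →
    ¬ (q.minFac : ℤ) ∣ delta q h ∧ 0 < |delta q h| ∧ |delta q h| ≤ (4 * (q : ℤ)) ^ g ∧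
    (|Yv q h| : ℝ) ≤ 2 * 4 ^ (g - 1) * Real.sqrt q ^ (g - 1)

/-- Coefficients of a real Weil polynomial; there are finitely many. -/
def S_BOX : Prop :=
  ∀ (g q : ℕ), (RW g q).Finite ∧ ∀ h ∈ RW g q, ∀ i ≤ g,
    (|h.coeff i| : ℝ) ≤ g.choose i * (2 * Real.sqrt q) ^ (g - i)

/-- Counting by the constant coefficient: if for every `h₀` at most `n` elements of `A` differ from
`h₀` only in the constant coefficient, then `#A ≤ C n Λ / √q ^ g`. -/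
def S_FIBA : Prop :=
  ∀ g : ℕ, 1 ≤ g → ∃ K : ℝ, 0 < K ∧ ∀ (q : ℕ) (A : Set ℤ[X]) (n : ℝ), 1 ≤ q → A ⊆ RW g q →
    (∀ h₀ : ℤ[X], ({h | h ∈ A ∧ ∀ i, 1 ≤ i → h.coeff i = h₀.coeff i}.ncard : ℝ) ≤ n) →
    (A.ncard : ℝ) * Real.sqrt q ^ g ≤ K * n * Lam g q

/-- Counting by the last two coefficients. -/
def S_FIBB : Prop :=
  ∀ g : ℕ, 2 ≤ g → ∃ K : ℝ, 0 < K ∧ ∀ (q : ℕ) (A : Set ℤ[X]) (n : ℝ), 1 ≤ q → A ⊆ RW g q →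
    (∀ h₀ : ℤ[X], ({h | h ∈ A ∧ ∀ i, 2 ≤ i → h.coeff i = h₀.coeff i}.ncard : ℝ) ≤ n) →
    (A.ncard : ℝ) * Real.sqrt q ^ g * Real.sqrt q ^ (g - 1) ≤ K * n * Lam g q

/-- Lower bound for the number of ordinary real Weil polynomials (paper (2.1)). -/
def S_LOW : Prop :=
  ∀ g : ℕ, 1 ≤ g → ∃ κ : ℝ, 0 < κ ∧ ∃ q₀ : ℕ, ∀ q ≥ q₀, IsPrimePow q →
    κ * Lam g q ≤ ((Ord g q).ncard : ℝ)

/-! ## T2 -/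

/-- few polynomials have a root near `±2√q` -/
def S_T2 : Prop :=
  ∀ g : ℕ, 1 ≤ g → ∀ η : ℝ, 0 < η → ∃ ε : ℝ, 0 < ε ∧ ε < 1 ∧ ∃ q₀ : ℕ, ∀ q ≥ q₀,
    ((T2 g q ε).ncard : ℝ) ≤ η * Lam g q

/-! ## T1 -/

/-- Chinese remainder count (paper (2.2)).  `A l` is a set of coefficient vectors modulo `l`; `P` is
a finite set of primes whose product is at most `M`. -/
def S_CRT : Prop :=
  ∀ g : ℕ, 1 ≤ g → ∃ K : ℝ, 0 < K ∧ ∀ M : ℕ, ∃ q₀ : ℕ, ∀ q ≥ q₀, ∀ P : Finset ℕ,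
    (∀ l ∈ P, l.Prime) → ∏ l ∈ P, l ≤ M → ∀ c : ℝ, 0 ≤ c → c ≤ 1 →
    ∀ A : (l : ℕ) → Set (Fin g → ZMod l),
    (∀ l ∈ P, ((A l).ncard : ℝ) ≤ (1 - c) * (l : ℝ) ^ g) →
    ({h | h ∈ RW g q ∧ ∀ l ∈ P, (fun i : Fin g => ((h.coeff i : ℤ) : ZMod l)) ∈ A l}.ncard : ℝ) ≤
      K * (1 - c) ^ P.card * Lam g q

/-- many irreducible polynomials: at least `l ^ n / (4 n)` monic irreducible polynomials of degree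
`n` over a field with `l` elements (elements of the field with `l ^ n` elements which are in no
smaller field, and their minimal polynomials) -/
def S_IRRC : Prop :=
  ∀ n : ℕ, 1 ≤ n → ∀ (l : ℕ) [Fact l.Prime],
    (l : ℝ) ^ n ≤ 4 * n * ({r : (ZMod l)[X] | r.Monic ∧ Irreducible r ∧ r.natDegree = n}.ncard : ℝ)

/-- squares: for at least `(l - 3) / 2` elements `b` is `b ^ 2 - 4 q` a nonzero square, and for at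
least `(l - 3) / 2` a non-square -/
def S_SQC : Prop :=
  ∀ (l q : ℕ) [Fact l.Prime], l ≠ 2 → ¬ l ∣ q →
    l ≤ 2 * {b : ZMod l | b ^ 2 - 4 * (q : ZMod l) ≠ 0 ∧ IsSquare (b ^ 2 - 4 * (q : ZMod l))}.ncard
      + 3 ∧
    l ≤ 2 * {b : ZMod l | ¬ IsSquare (b ^ 2 - 4 * (q : ZMod l))}.ncard + 3

/-- density of pattern (a) -/
def S_PATA : Prop :=
  ∀ g : ℕ, 1 ≤ g → ∃ c : ℝ, 0 < c ∧ c ≤ 1 ∧ ∀ (l : ℕ) [Fact l.Prime],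
    c * (l : ℝ) ^ g ≤ ({v : Fin g → ZMod l | Irreducible (mk g v)}.ncard : ℝ)

/-- density of pattern (b) -/
def S_PATB : Prop :=
  ∀ g : ℕ, 3 ≤ g → ∃ c : ℝ, 0 < c ∧ c ≤ 1 ∧ ∀ (l : ℕ) [Fact l.Prime],
    c * (l : ℝ) ^ g ≤ ({v : Fin g → ZMod l | PatB g (mk g v)}.ncard : ℝ)

/-- density of pattern (c) -/
def S_PATC : Prop :=
  ∀ g : ℕ, 2 ≤ g → ∃ c : ℝ, 0 < c ∧ c ≤ 1 ∧ ∃ l₀ : ℕ, ∀ (l : ℕ) [Fact l.Prime], l₀ ≤ l →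
    c * (l : ℝ) ^ g ≤ ({v : Fin g → ZMod l | PatC g (mk g v)}.ncard : ℝ)

/-- density of pattern (d) -/
def S_PATD : Prop :=
  ∀ g : ℕ, 1 ≤ g → ∃ c : ℝ, 0 < c ∧ c ≤ 1 ∧ ∃ l₀ : ℕ, ∀ (l : ℕ) [Fact l.Prime], l₀ ≤ l →
    ∀ q : ℕ, ¬ l ∣ q →
    c * (l : ℝ) ^ g ≤ ({v : Fin g → ZMod l | PatD g q (mk g v)}.ncard : ℝ)

/-- Frobenius automorphisms: for a prime `l` and finitely many algebraic integers there are a ring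
homomorphism `ρ` from the algebraic integers to a field of characteristic `l` and an automorphism
`σ` with `ρ (σ x) = (ρ x) ^ l` for the given `x`. -/
def S_FROB : Prop :=
  ∀ (l : ℕ), l.Prime → ∀ s : Set Qb, s.Finite → (∀ x ∈ s, IsIntegral ℤ x) →
    ∃ (k : Type) (_ : Field k) (_ : CharP k l) (ρ : integralClosure ℤ Qb →+* k)
      (σ : Qb ≃ₐ[ℚ] Qb), ∀ x (hx : x ∈ integralClosure ℤ Qb) (hx' : σ x ∈ integralClosure ℤ Qb),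
        x ∈ s → ρ ⟨σ x, hx'⟩ = ρ ⟨x, hx⟩ ^ l

/-- pattern (a) for one prime: `h` is irreducible and the automorphisms are transitive on the roots
of `h`, of which there are `g` -/
def S_PA : Prop :=
  ∀ (g : ℕ) (h : ℤ[X]) (l : ℕ), 1 ≤ g → h.Monic → h.natDegree = g → l.Prime →
    Irreducible (red l h) →
    (Rt h).ncard = g ∧ ∀ b ∈ Rt h, ∀ b' ∈ Rt h, ∃ σ : Qb ≃ₐ[ℚ] Qb, σ b = b'

/-- pattern (b): an automorphism fixing one root and transitive on the others -/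
def S_PB : Prop :=
  ∀ (g : ℕ) (h : ℤ[X]) (l : ℕ), 3 ≤ g → h.Monic → h.natDegree = g → l.Prime →
    PatB g (red l h) →
    ∃ (σ : Qb ≃ₐ[ℚ] Qb), ∃ b₀ ∈ Rt h, σ b₀ = b₀ ∧
      ∀ b ∈ Rt h, ∀ b' ∈ Rt h, b ≠ b₀ → b' ≠ b₀ → ∃ n : ℕ, (σ ^ n) b = b'

/-- pattern (c): an automorphism which is a transposition on the roots -/
def S_PC : Prop :=
  ∀ (g : ℕ) (h : ℤ[X]) (l : ℕ), 2 ≤ g → h.Monic → h.natDegree = g → l.Prime →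
    PatC g (red l h) →
    ∃ (σ : Qb ≃ₐ[ℚ] Qb), ∃ b₀ ∈ Rt h, ∃ b₁ ∈ Rt h, b₀ ≠ b₁ ∧ σ b₀ = b₁ ∧ σ b₁ = b₀ ∧
      ∀ b ∈ Rt h, b ≠ b₀ → b ≠ b₁ → σ b = b

/-- pattern (d): an automorphism which exchanges one pair `a₀, q / a₀` and fixes all other elements
of `Om q h`, and `Om q h` has `2 g` elements -/
def S_PD : Prop :=
  ∀ (g q : ℕ) (h : ℤ[X]) (l : ℕ), 1 ≤ g → 1 ≤ q → h.Monic → h.natDegree = g → l.Prime → l ≠ 2 →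
    ¬ l ∣ q → PatD g q (red l h) →
    (Om q h).ncard = 2 * g ∧ ∃ (σ : Qb ≃ₐ[ℚ] Qb), ∃ a₀ ∈ Om q h, a₀ ≠ (q : Qb) / a₀ ∧
      σ a₀ = (q : Qb) / a₀ ∧
      ∀ a ∈ Om q h, a ≠ a₀ → a ≠ (q : Qb) / a₀ → σ a = a

/-- generation of the full group -/
def S_GEN : Prop :=
  ∀ (g q : ℕ) (h : ℤ[X]), 1 ≤ g → 1 ≤ q → h.Monic → h.natDegree = g →
    (Om q h).ncard = 2 * g →
    (∀ b ∈ Rt h, ∀ b' ∈ Rt h, ∃ σ : Qb ≃ₐ[ℚ] Qb, σ b = b') →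
    (3 ≤ g → ∃ (σ : Qb ≃ₐ[ℚ] Qb), ∃ b₀ ∈ Rt h, σ b₀ = b₀ ∧
      ∀ b ∈ Rt h, ∀ b' ∈ Rt h, b ≠ b₀ → b' ≠ b₀ → ∃ n : ℕ, (σ ^ n) b = b') →
    (2 ≤ g → ∃ (σ : Qb ≃ₐ[ℚ] Qb), ∃ b₀ ∈ Rt h, ∃ b₁ ∈ Rt h, b₀ ≠ b₁ ∧ σ b₀ = b₁ ∧ σ b₁ = b₀ ∧
      ∀ b ∈ Rt h, b ≠ b₀ → b ≠ b₁ → σ b = b) →
    (∃ (σ : Qb ≃ₐ[ℚ] Qb), ∃ a₀ ∈ Om q h, a₀ ≠ (q : Qb) / a₀ ∧ σ a₀ = (q : Qb) / a₀ ∧
      ∀ a ∈ Om q h, a ≠ a₀ → a ≠ (q : Qb) / a₀ → σ a = a) →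
    Full q h

/-- few ordinary polynomials are not full -/
def S_T1 : Prop :=
  ∀ g : ℕ, 1 ≤ g → ∀ η : ℝ, 0 < η → ∃ q₀ : ℕ, ∀ q ≥ q₀, IsPrimePow q →
    ((T1 g q).ncard : ℝ) ≤ η * Lam g q

/-! ## T3 -/

/-- `π(x) = o(x)` -/
def S_PI : Prop :=
  ∀ η : ℝ, 0 < η → ∃ x₀ : ℝ, ∀ x ≥ x₀, (Nat.primeCounting ⌊x⌋₊ : ℝ) ≤ η * x

/-- Solutions of `x ^ 2 ≡ n` modulo `l ^ (2 k)` in an interval. -/
def S_SQA : Prop :=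
  ∀ (l k : ℕ) (n u : ℤ) (H : ℕ), l.Prime →
    {x : ℤ | u ≤ x ∧ x ≤ u + H ∧ (l : ℤ) ^ (2 * k) ∣ x ^ 2 - n}.ncard ≤ 2 * (H / l ^ k + 1)

/-- Solutions of `x ^ 2 ≡ n` modulo `l ^ 2` in an interval, `l` prime to `2 n`. -/
def S_SQB : Prop :=
  ∀ (l : ℕ) (n u : ℤ) (H : ℕ), l.Prime → l ≠ 2 → ¬ (l : ℤ) ∣ n →
    {x : ℤ | u ≤ x ∧ x ≤ u + H ∧ (l : ℤ) ^ 2 ∣ x ^ 2 - n}.ncard ≤ 2 * (H / l ^ 2 + 1)

/-- T3, small primes: `l ^ (2 k) ∣ delta` for a prime `l ≤ z`, `l ^ k > K` -/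
def S_T3A : Prop :=
  ∀ g : ℕ, 1 ≤ g → ∀ (z : ℕ) (η : ℝ), 0 < η → ∃ K q₀ : ℕ, ∀ q ≥ q₀, IsPrimePow q →
    ({h | h ∈ Ord g q ∧ ∃ l k : ℕ, l.Prime ∧ l ≤ z ∧ K < l ^ k ∧
      (l : ℤ) ^ (2 * k) ∣ delta q h}.ncard : ℝ) ≤ η * Lam g q

/-- T3, large primes not dividing `Yv` -/
def S_T3B : Prop :=
  ∀ g : ℕ, 1 ≤ g → ∀ η : ℝ, 0 < η → ∃ z q₀ : ℕ, ∀ q ≥ q₀, IsPrimePow q →
    ({h | h ∈ Ord g q ∧ ∃ l : ℕ, l.Prime ∧ z < l ∧ ¬ (l : ℤ) ∣ Yv q h ∧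
      (l : ℤ) ^ 2 ∣ delta q h}.ncard : ℝ) ≤ η * Lam g q

/-- T3, large primes dividing `Yv` -/
def S_T3C : Prop :=
  ∀ g : ℕ, 1 ≤ g → ∀ η : ℝ, 0 < η → ∃ z q₀ : ℕ, ∀ q ≥ q₀, IsPrimePow q →
    ({h | h ∈ Ord g q ∧ ∃ l : ℕ, l.Prime ∧ z < l ∧ (l : ℤ) ∣ Yv q h ∧
      (l : ℤ) ^ 2 ∣ delta q h}.ncard : ℝ) ≤ η * Lam g q

/-- few ordinary polynomials have a `delta` with a large square divisor -/
def S_T3 : Prop :=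
  ∀ g : ℕ, 1 ≤ g → ∀ η : ℝ, 0 < η → ∃ T q₀ : ℕ, ∀ q ≥ q₀, IsPrimePow q →
    ((T3 g q T).ncard : ℝ) ≤ η * Lam g q

end

end Pool.Agent.TJ2
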