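import Pool.Agent.TJ2.Stmts2
import Pool.Agent.TJ2.Stmts

/-!
# Theorem J, module SQF: condition (ii) holds outside T2, T3, for large `q`
-/

open Polynomial IntermediateField

namespace Pool.Agent.TJ2

noncomputable section

/-- a square `D d` with `d > 0`, `D > 0`: `d = a ^ 2 s` with `s ≤ D` -/
private lemma SQF_sq (D d : ℕ) (hD : 0 < D) (hd : 0 < d) (h : IsSquare (D * d)) :
    ∃ a s : ℕ, d = a ^ 2 * s ∧ s ≤ D := by
  obtain ⟨s, a, h1, h2⟩ := Nat.sq_mul_squarefree d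
  obtain ⟨t, ht⟩ := h
  have ha : 0 < a := by
    rcases Nat.eq_zero_or_pos a with h3 | h3
    · rw [h3] at h1
      simp at h1
      omega
    · exact h3
  have hs : 0 < s := by
    rcases Nat.eq_zero_or_pos s with h3 | h3
    · rw [h3] at h1
      simp at h1
      omega
    · exact h3
  have h3 : a ^ 2 ∣ t ^ 2 := by
    refine ⟨D * s, ?_⟩
    rw [pow_two t, ← ht, ← h1]
    ring
  have h4 : a ∣ t := (Nat.pow_dvd_pow_iff (by norm_num)).mp h3
  obtain ⟨u, rfl⟩ := h4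
  have h5 : D * s = u ^ 2 := by
    have h6 : a ^ 2 * (D * s) = a ^ 2 * u ^ 2 := by
      calc a ^ 2 * (D * s) = D * (a ^ 2 * s) := by ring
        _ = D * d := by rw [h1]
        _ = a ^ 2 * u ^ 2 := by rw [ht]; ring
    exact Nat.eq_of_mul_eq_mul_left (by positivity) h6
  have h7 : s ∣ u ^ 2 := ⟨D, by rw [← h5, mul_comm]⟩
  have h8 : s ∣ u := (h2.dvd_pow_iff_dvd (by norm_num)).mp h7
  obtain ⟨w, rfl⟩ := h8
  have h9 : D = s * w ^ 2 := by
    have h10 : s * D = s * (s * w ^ 2) := by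
      rw [mul_comm s D, h5]
      ring
    exact Nat.eq_of_mul_eq_mul_left hs h10
  refine ⟨a, s, h1.symm, ?_⟩
  apply Nat.le_of_dvd hD
  exact ⟨w ^ 2, h9⟩

private lemma SQF_aeval {A : Type*} [CommRing A] [Algebra ℤ A] (h : ℤ[X]) (h1 : h.Monic)
    (h2 : h.natDegree = 2) (z : A) :
    aeval z h = z ^ 2 + (h.coeff 1 : A) * z + (h.coeff 0 : A) := by
  have h3 : h.degree ≤ 2 := by
    rw [Polynomial.degree_le_iff_coeff_zero]
    intro m hm
    apply Polynomial.coeff_eq_zero_of_natDegree_lt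
    rw [h2]
    exact_mod_cast hm
  have h4 : h.coeff 2 = 1 := by
    rw [← h2]
    exact h1
  have h5 := Polynomial.eq_quadratic_of_degree_le_two h3
  rw [h4] at h5
  conv_lhs => rw [h5]
  simp

/-- the roots of a quadratic real Weil polynomial -/
private lemma SQF_roots (q : ℕ) (h : ℤ[X]) (hR : h ∈ RW 2 q) :
    0 ≤ ((h.coeff 1 : ℝ) ^ 2 - 4 * (h.coeff 0 : ℝ)) ∧
    ∀ z : ℝ, z ^ 2 + (h.coeff 1 : ℝ) * z + (h.coeff 0 : ℝ) = 0 → |z| ≤ 2 * Real.sqrt q := by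
  obtain ⟨h1, h2, h3⟩ := hR
  constructor
  · by_contra hn
    push Not at hn
    have hD : 0 < -((h.coeff 1 : ℝ) ^ 2 - 4 * (h.coeff 0 : ℝ)) := by linarith
    set s : ℝ := Real.sqrt (-((h.coeff 1 : ℝ) ^ 2 - 4 * (h.coeff 0 : ℝ))) with hs
    have hs0 : 0 < s := Real.sqrt_pos.mpr hD
    have hs2 : s ^ 2 = -((h.coeff 1 : ℝ) ^ 2 - 4 * (h.coeff 0 : ℝ)) := Real.sq_sqrt hD.le
    have h4 : aeval ((⟨-(h.coeff 1 : ℝ) / 2, s / 2⟩ : ℂ)) h = 0 := by
      rw [SQF_aeval h h1 h2]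
      apply Complex.ext
      · simp [pow_two]
        nlinarith
      · simp [pow_two]
        ring
    have h5 := (h3 _ h4).1
    simp at h5
    linarith
  · intro z hz
    have h4 : aeval ((z : ℂ)) h = 0 := by
      rw [SQF_aeval h h1 h2]
      have h5 : ((z ^ 2 + (h.coeff 1 : ℝ) * z + (h.coeff 0 : ℝ) : ℝ) : ℂ) = 0 := by
        rw [hz]
        simp
      push_cast at h5
      exact h5
    have h5 := (h3 _ h4).2
    simpa using h5

private lemma SQF_delta (q : ℕ) (h : ℤ[X]) (h1 : h.Monic) (h2 : h.natDegree = 2) :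
    delta q h = (h.coeff 0 + 4 * q) ^ 2 - 4 * q * (h.coeff 1) ^ 2 := by
  have h4 : h.coeff 2 = 1 := by
    rw [← h2]
    exact h1
  unfold delta Xv Yv
  rw [h2]
  have h5 : ¬ Odd (2 : ℕ) := by decide
  simp [Finset.sum_range_succ, h4, h5]

/-- the discriminant of a full quadratic polynomial -/
private lemma SQF_disc (hOMB : S_OMB) (q : ℕ) (hq : 1 ≤ q) (h : ℤ[X]) (hF : h ∈ FO q)
    (h2 : h.natDegree = 2) :
    0 < h.coeff 1 ^ 2 - 4 * h.coeff 0 ∧ h.coeff 1 ^ 2 - 4 * h.coeff 0 ≤ 16 * q := by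
  obtain ⟨-, hO, hFull⟩ := hF
  rw [h2] at hO
  have hR : h ∈ RW 2 q := hO.1
  have h1 : h.Monic := hR.1
  obtain ⟨e1, e2⟩ := SQF_roots q h hR
  have hd0 : (0 : ℤ) ≤ h.coeff 1 ^ 2 - 4 * h.coeff 0 := by exact_mod_cast e1
  constructor
  · rcases hd0.lt_or_eq with h3 | h3
    · exact h3
    · exfalso
      have h4 := (hOMB 2 q h hq h1 h2).2.2.2.2
      have h5 : (Om q h).ncard = 2 * 2 := by
        rw [hFull.1, h2]
      have h6 : (Rt h).ncard = 2 := (h4 h5).2.1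
      have h7 : Rt h ⊆ {-(h.coeff 1 : Qb) / 2} := by
        intro b hb
        have hb' : aeval b h = 0 := hb
        rw [SQF_aeval h h1 h2] at hb'
        have h8 : ((h.coeff 1 : Qb)) ^ 2 - 4 * (h.coeff 0 : Qb) = 0 := by
          exact_mod_cast congrArg (fun x : ℤ => (x : Qb)) h3.symm
        have h9 : (b + (h.coeff 1 : Qb) / 2) ^ 2 = 0 := by
          linear_combination hb' + h8 / 4
        have h10 : b + (h.coeff 1 : Qb) / 2 = 0 := by
          exact pow_eq_zero_iff (two_ne_zero) |>.mp h9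
        rw [Set.mem_singleton_iff]
        linear_combination h10
      have h8 : (Rt h).ncard ≤ 1 := by
        have h9 := Set.ncard_le_ncard h7 (Set.finite_singleton _)
        rwa [Set.ncard_singleton] at h9
      omega
  · set s : ℝ := Real.sqrt ((h.coeff 1 : ℝ) ^ 2 - 4 * (h.coeff 0 : ℝ)) with hs
    have hs0 : 0 ≤ s := Real.sqrt_nonneg _
    have hs2 : s ^ 2 = (h.coeff 1 : ℝ) ^ 2 - 4 * (h.coeff 0 : ℝ) := Real.sq_sqrt e1
    have f1 := e2 ((-(h.coeff 1 : ℝ) + s) / 2) (by nlinarith)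
    have f2 := e2 ((-(h.coeff 1 : ℝ) - s) / 2) (by nlinarith)
    rw [abs_le] at f1 f2
    have h3 : s ≤ 4 * Real.sqrt q := by linarith [f1.2, f2.1]
    have h4 : s ^ 2 ≤ (4 * Real.sqrt q) ^ 2 := pow_le_pow_left₀ hs0 h3 2
    rw [hs2, mul_pow, Real.sq_sqrt (by positivity)] at h4
    have h5 : ((h.coeff 1 ^ 2 - 4 * h.coeff 0 : ℤ) : ℝ) ≤ ((16 * q : ℤ) : ℝ) := by
      push_cast
      linarith
    exact_mod_cast h5

/-- `delta` is large outside T2 -/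
private lemma SQF_low (q : ℕ) (ε : ℝ) (h0 : 0 < ε) (h01 : ε < 1) (h : ℤ[X])
    (hR : h ∈ RW 2 q) (hT : h ∉ T2 2 q ε) : ε ^ 2 * (q : ℝ) ^ 2 ≤ (delta q h : ℝ) := by
  have h1 : h.Monic := hR.1
  have h2 : h.natDegree = 2 := hR.2.1
  obtain ⟨e1, -⟩ := SQF_roots q h hR
  have hq : (0 : ℝ) ≤ q := by positivity
  have key : ∀ z : ℝ, z ^ 2 + (h.coeff 1 : ℝ) * z + (h.coeff 0 : ℝ) = 0 →
      ε * q ≤ 4 * q - z ^ 2 := by
    intro z hz
    have h4 : aeval ((z : ℂ)) h = 0 := by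
      rw [SQF_aeval h h1 h2]
      have h5 : ((z ^ 2 + (h.coeff 1 : ℝ) * z + (h.coeff 0 : ℝ) : ℝ) : ℂ) = 0 := by
        rw [hz]
        simp
      push_cast at h5
      exact h5
    have h5 : |z| ≤ (2 - ε) * Real.sqrt q := by
      by_contra hn
      push Not at hn
      exact hT ⟨hR, (z : ℂ), h4, by simpa using hn⟩
    have h6 : |z| ^ 2 ≤ ((2 - ε) * Real.sqrt q) ^ 2 := pow_le_pow_left₀ (abs_nonneg z) h5 2
    rw [sq_abs, mul_pow, Real.sq_sqrt hq] at h6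
    nlinarith [mul_nonneg (mul_nonneg h0.le (by linarith : (0 : ℝ) ≤ 1 - ε)) hq,
      mul_nonneg h0.le hq]
  set s : ℝ := Real.sqrt ((h.coeff 1 : ℝ) ^ 2 - 4 * (h.coeff 0 : ℝ)) with hs
  have hs2 : s ^ 2 = (h.coeff 1 : ℝ) ^ 2 - 4 * (h.coeff 0 : ℝ) := Real.sq_sqrt e1
  have f1 := key ((-(h.coeff 1 : ℝ) + s) / 2) (by nlinarith)
  have f2 := key ((-(h.coeff 1 : ℝ) - s) / 2) (by nlinarith)
  have h3 : (delta q h : ℝ) = (4 * q - ((-(h.coeff 1 : ℝ) + s) / 2) ^ 2) *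
      (4 * q - ((-(h.coeff 1 : ℝ) - s) / 2) ^ 2) := by
    rw [SQF_delta q h h1 h2]
    push_cast
    have hs4 : s ^ 4 = ((h.coeff 1 : ℝ) ^ 2 - 4 * (h.coeff 0 : ℝ)) ^ 2 := by
      rw [← hs2]
      ring
    linear_combination ((q : ℝ) * 2 + (h.coeff 1 : ℝ) ^ 2 / 8) * hs2 - hs4 / 16
  have h4 : (ε * q) * (ε * q) ≤ (4 * q - ((-(h.coeff 1 : ℝ) + s) / 2) ^ 2) *
      (4 * q - ((-(h.coeff 1 : ℝ) - s) / 2) ^ 2) :=
    mul_le_mul f1 f2 (by positivity) ((by positivity : (0 : ℝ) ≤ ε * q).trans f1)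
  rw [h3]
  calc ε ^ 2 * (q : ℝ) ^ 2 = (ε * q) * (ε * q) := by ring
    _ ≤ _ := h4

/-- condition (ii) holds outside T2, T3, for large `q` -/
theorem t_SQF (hOMB : S_OMB) (_hDEL : S_DEL) : S_SQF := by
  intro ε T h0 h01
  obtain ⟨N, hN⟩ := exists_nat_gt (16 * (T : ℝ) ^ 2 / ε ^ 2)
  refine ⟨N + 1, ?_⟩
  intro q hq h h' hO _ hT2 hT3 hF' h2' hsq
  have hq1 : 1 ≤ q := by omega
  obtain ⟨hD0, hD1⟩ := SQF_disc hOMB q hq1 h' hF' h2'
  have hlow := SQF_low q ε h0 h01 h hO.1 hT2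
  have hq0 : (0 : ℝ) < q := by exact_mod_cast hq1
  have hd0 : (0 : ℤ) < delta q h := by
    have h1 : (0 : ℝ) < (delta q h : ℝ) := lt_of_lt_of_le (by positivity) hlow
    exact_mod_cast h1
  obtain ⟨D, hD⟩ := Int.eq_ofNat_of_zero_le hD0.le
  obtain ⟨d, hd⟩ := Int.eq_ofNat_of_zero_le hd0.le
  rw [hD, hd] at hsq
  rw [hD] at hD0 hD1
  rw [hd] at hd0 hlow
  have hsq' : IsSquare (D * d) := by
    obtain ⟨t, ht⟩ := hsq
    refine ⟨t.natAbs, ?_⟩
    have h1 := congrArg Int.natAbs ht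
    rw [Int.natAbs_mul, Int.natAbs_mul] at h1
    simpa using h1
  obtain ⟨a, s, h1, h2⟩ := SQF_sq D d (by exact_mod_cast hD0) (by exact_mod_cast hd0) hsq'
  have haT : a ≤ T := by
    by_contra hn
    push Not at hn
    apply hT3
    refine ⟨hO, a, hn, ?_⟩
    rw [hd, h1]
    push_cast
    exact ⟨(s : ℤ), rfl⟩
  have h3 : (d : ℝ) ≤ (T : ℝ) ^ 2 * (16 * q) := by
    have h4 : (d : ℝ) = (a : ℝ) ^ 2 * s := by
      rw [h1]
      push_cast
      rfl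
    have h5 : (a : ℝ) ^ 2 ≤ (T : ℝ) ^ 2 :=
      pow_le_pow_left₀ (by positivity) (by exact_mod_cast haT) 2
    have h6 : (s : ℝ) ≤ 16 * q := by
      have h7 : (s : ℝ) ≤ D := by exact_mod_cast h2
      have h8 : (D : ℝ) ≤ 16 * q := by exact_mod_cast hD1
      linarith
    rw [h4]
    exact mul_le_mul h5 h6 (by positivity) (by positivity)
  have h4 : ε ^ 2 * (q : ℝ) ^ 2 ≤ (T : ℝ) ^ 2 * (16 * q) := by
    refine le_trans hlow ?_
    simpa using h3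
  have h5 : (q : ℝ) * (ε ^ 2 * q) ≤ q * (16 * (T : ℝ) ^ 2) := by nlinarith
  have h6 : ε ^ 2 * (q : ℝ) ≤ 16 * (T : ℝ) ^ 2 := le_of_mul_le_mul_left h5 hq0
  have h7 : (q : ℝ) ≤ 16 * (T : ℝ) ^ 2 / ε ^ 2 := by
    rw [le_div_iff₀ (by positivity)]
    linarith
  have h8 : ((N + 1 : ℕ) : ℝ) ≤ q := by exact_mod_cast hq
  push_cast at h8
  linarith

end

end Pool.Agent.TJ2
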