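import Pool.Agent.TJ2.BOX

/-!
# Theorem J: few ordinary polynomials are not full (module TJ_T1, MP_6c4da4_ag)
-/

open Polynomial IntermediateField

namespace Pool.Agent.TJ2

noncomputable section

theorem T1_mk {g : ℕ} (l : ℕ) {h : ℤ[X]} (hm : h.Monic) (hd : h.natDegree = g) :
    mk g (fun i : Fin g => ((h.coeff i : ℤ) : ZMod l)) = red l h := by
  have h1 : h = X ^ g + ∑ i : Fin g, C (h.coeff i) * X ^ (i : ℕ) := by
    conv_lhs => rw [hm.as_sum]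
    rw [hd, Fin.sum_univ_eq_sum_range (fun i => C (h.coeff i) * X ^ i) g]
  unfold red mk
  conv_rhs => rw [h1]
  rw [Polynomial.map_add, Polynomial.map_pow, map_X, Polynomial.map_sum]
  congr 1
  refine Finset.sum_congr rfl fun i _ => ?_
  rw [Polynomial.map_mul, Polynomial.map_pow, map_X, map_C]
  rfl

theorem T1_compl {g l : ℕ} [Fact l.Prime] (P : (Fin g → ZMod l) → Prop) {c : ℝ}
    (h : c * (l : ℝ) ^ g ≤ ({v | P v}.ncard : ℝ)) :
    ({v : Fin g → ZMod l | ¬ P v}.ncard : ℝ) ≤ (1 - c) * (l : ℝ) ^ g := by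
  have : NeZero l := ⟨(Fact.out : l.Prime).ne_zero⟩
  have h1 : {v : Fin g → ZMod l | P v}.ncard + {v : Fin g → ZMod l | ¬ P v}.ncard = l ^ g := by
    have h2 := Set.ncard_add_ncard_compl {v : Fin g → ZMod l | P v}
    have h3 : {v : Fin g → ZMod l | P v}ᶜ = {v : Fin g → ZMod l | ¬ P v} := rfl
    rw [h3] at h2
    rw [h2, Nat.card_eq_fintype_card, Fintype.card_fun, ZMod.card, Fintype.card_fin]
  have h4 : ({v : Fin g → ZMod l | P v}.ncard : ℝ) + ({v : Fin g → ZMod l | ¬ P v}.ncard : ℝ) =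
      (l : ℝ) ^ g := by exact_mod_cast h1
  linarith

theorem T1_primes (l₀ r : ℕ) : ∃ P : Finset ℕ, P.card = r ∧ ∀ l ∈ P, l.Prime ∧ l₀ ≤ l := by
  have hinf : {l : ℕ | l.Prime ∧ l₀ ≤ l}.Infinite := by
    rw [Set.infinite_iff_exists_gt]
    intro n
    obtain ⟨p, hp1, hp2⟩ := Nat.exists_infinite_primes (max (n + 1) l₀)
    exact ⟨p, ⟨hp2, (le_max_right _ _).trans hp1⟩, by have := (le_max_left _ _).trans hp1; omega⟩
  obtain ⟨P, hP1, hP2⟩ := hinf.exists_subset_card_eq r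
  exact ⟨P, hP2, fun l hl => hP1 hl⟩

theorem T1_pow {c K η : ℝ} (hc : 0 < c) (hc1 : c ≤ 1) (hη : 0 < η) :
    ∃ r : ℕ, K * (1 - c) ^ r ≤ η := by
  have h1 : Filter.Tendsto (fun r : ℕ => K * (1 - c) ^ r) Filter.atTop (nhds (K * 0)) :=
    (tendsto_pow_atTop_nhds_zero_of_lt_one (by linarith) (by linarith)).const_mul K
  rw [mul_zero] at h1
  obtain ⟨r, hr⟩ := (h1.eventually (gt_mem_nhds hη)).exists
  exact ⟨r, hr.le⟩

/-- the polynomials which avoid a pattern modulo all primes are rare -/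
theorem T1_gen (hCRT : S_CRT) (g : ℕ) (hg : 1 ≤ g)
    (Pat : (l : ℕ) → ℕ → (ZMod l)[X] → Prop) (c : ℝ) (hc : 0 < c) (hc1 : c ≤ 1) (l₀ : ℕ)
    (hPat : ∀ (l : ℕ) [Fact l.Prime], l₀ ≤ l → ∀ q : ℕ, ¬ l ∣ q →
      c * (l : ℝ) ^ g ≤ ({v : Fin g → ZMod l | Pat l q (mk g v)}.ncard : ℝ))
    (η : ℝ) (hη : 0 < η) :
    ∃ q₀ : ℕ, ∀ q ≥ q₀, IsPrimePow q →
      ({h | h ∈ RW g q ∧ ∀ l : ℕ, l.Prime → l ≠ 2 → ¬ l ∣ q → ¬ Pat l q (red l h)}.ncard : ℝ) ≤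
        η * Lam g q := by
  classical
  obtain ⟨K, hK, hcrt⟩ := hCRT g hg
  obtain ⟨r, hr⟩ := T1_pow (K := K) hc hc1 hη
  obtain ⟨P₀, hP₀c, hP₀⟩ := T1_primes (max l₀ 3) (r + 1)
  obtain ⟨q₀, hq₀⟩ := hcrt (∏ l ∈ P₀, l)
  refine ⟨q₀, fun q hq hqp => ?_⟩
  set P : Finset ℕ := P₀.filter fun l => ¬ l ∣ q with hP
  have hPc : r ≤ P.card := by
    have h1 : (P₀.filter fun l => l ∣ q).card ≤ 1 := by
      rw [Finset.card_le_one]
      intro a ha b hb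
      rw [Finset.mem_filter] at ha hb
      obtain ⟨p, k, hp, hk, hpk⟩ := hqp
      have hp' : p.Prime := hp.nat_prime
      have h2 : a = p := by
        have h3 := (hP₀ a ha.1).1.dvd_of_dvd_pow (hpk ▸ ha.2)
        exact (Nat.prime_dvd_prime_iff_eq (hP₀ a ha.1).1 hp').1 h3
      have h3 : b = p := by
        have h3 := (hP₀ b hb.1).1.dvd_of_dvd_pow (hpk ▸ hb.2)
        exact (Nat.prime_dvd_prime_iff_eq (hP₀ b hb.1).1 hp').1 h3
      rw [h2, h3]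
    have h2 := Finset.card_filter_add_card_filter_not (s := P₀) (fun l => l ∣ q)
    rw [hP]
    omega
  have hPpr : ∀ l ∈ P, l.Prime := fun l hl => (hP₀ l (Finset.mem_filter.1 hl).1).1
  have hPM : ∏ l ∈ P, l ≤ ∏ l ∈ P₀, l := by
    apply Finset.prod_le_prod_of_subset_of_one_le' (Finset.filter_subset _ _)
    intro l hl _
    exact (hP₀ l hl).1.one_lt.le
  have h1 := hq₀ q hq P hPpr hPM c hc.le hc1
    (fun l => {v : Fin g → ZMod l | ¬ Pat l q (mk g v)}) (by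
      intro l hl
      have hlf := Finset.mem_filter.1 hl
      have : Fact l.Prime := ⟨hPpr l hl⟩
      exact T1_compl _ (hPat l ((le_max_left _ _).trans (hP₀ l hlf.1).2) q hlf.2))
  have hLam : 0 ≤ Lam g q := Finset.prod_nonneg fun i _ => by positivity
  have h2 : ({h | h ∈ RW g q ∧ ∀ l : ℕ, l.Prime → l ≠ 2 → ¬ l ∣ q → ¬ Pat l q (red l h)}.ncard) ≤
      {h | h ∈ RW g q ∧ ∀ l ∈ P, (fun i : Fin g => ((h.coeff i : ℤ) : ZMod l)) ∈
        {v : Fin g → ZMod l | ¬ Pat l q (mk g v)}}.ncard := by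
    refine Set.ncard_le_ncard ?_ ((t_BOX g q).1.subset fun h hh => hh.1)
    rintro h ⟨hh, hall⟩
    refine ⟨hh, fun l hl => ?_⟩
    have hlf := Finset.mem_filter.1 hl
    have hl3 : 3 ≤ l := (le_max_right _ _).trans (hP₀ l hlf.1).2
    have h3 := hall l (hPpr l hl) (by omega) hlf.2
    rw [← T1_mk l hh.1 hh.2.1] at h3
    exact h3
  calc _ ≤ (({h | h ∈ RW g q ∧ ∀ l ∈ P, (fun i : Fin g => ((h.coeff i : ℤ) : ZMod l)) ∈
        {v : Fin g → ZMod l | ¬ Pat l q (mk g v)}}.ncard : ℕ) : ℝ) := by exact_mod_cast h2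
    _ ≤ K * (1 - c) ^ P.card * Lam g q := h1
    _ ≤ η * Lam g q := by
        apply mul_le_mul_of_nonneg_right _ hLam
        refine le_trans ?_ hr
        apply mul_le_mul_of_nonneg_left _ hK.le
        exact pow_le_pow_of_le_one (by linarith) (by linarith) hPc

theorem t_T1 (hCRT : S_CRT) (hPATA : S_PATA) (hPATB : S_PATB) (hPATC : S_PATC) (hPATD : S_PATD)
    (hPA : S_PA) (hPB : S_PB) (hPC : S_PC) (hPD : S_PD) (hGEN : S_GEN) : S_T1 := by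
  classical
  intro g hg η hη
  have hη4 : 0 < η / 4 := by linarith
  obtain ⟨ca, hca, hca1, hA⟩ := hPATA g hg
  obtain ⟨cd, hcd, hcd1, ld, hD⟩ := hPATD g hg
  obtain ⟨qa, hqa⟩ := T1_gen hCRT g hg (fun l _ k => Irreducible k) ca hca hca1 0
    (fun l _ _ q _ => hA l) (η / 4) hη4
  obtain ⟨qd, hqd⟩ := T1_gen hCRT g hg (fun l q k => PatD g q k) cd hcd hcd1 ld
    (fun l _ hl q hq => hD l hl q hq) (η / 4) hη4
  obtain ⟨qb, hqb⟩ : ∃ q₀ : ℕ, ∀ q ≥ q₀, IsPrimePow q →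
      ({h | 3 ≤ g ∧ h ∈ RW g q ∧ ∀ l : ℕ, l.Prime → l ≠ 2 → ¬ l ∣ q →
        ¬ PatB g (red l h)}.ncard : ℝ) ≤ η / 4 * Lam g q := by
    by_cases h3 : 3 ≤ g
    · obtain ⟨c, hc, hc1, hB⟩ := hPATB g h3
      obtain ⟨q₀, h1⟩ := T1_gen hCRT g hg (fun l _ k => PatB g k) c hc hc1 0
        (fun l _ _ q _ => hB l) (η / 4) hη4
      refine ⟨q₀, fun q hq hqp => ?_⟩
      have := h1 q hq hqp
      simpa only [h3, true_and] using this
    · refine ⟨0, fun q _ _ => ?_⟩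
      have hLam : 0 ≤ Lam g q := Finset.prod_nonneg fun i _ => by positivity
      have h4 : {h : ℤ[X] | 3 ≤ g ∧ h ∈ RW g q ∧ ∀ l : ℕ, l.Prime → l ≠ 2 → ¬ l ∣ q →
        ¬ PatB g (red l h)} = ∅ := by
        ext h
        simp [h3]
      rw [h4, Set.ncard_empty]
      push_cast
      positivity
  obtain ⟨qc, hqc⟩ : ∃ q₀ : ℕ, ∀ q ≥ q₀, IsPrimePow q →
      ({h | 2 ≤ g ∧ h ∈ RW g q ∧ ∀ l : ℕ, l.Prime → l ≠ 2 → ¬ l ∣ q →
        ¬ PatC g (red l h)}.ncard : ℝ) ≤ η / 4 * Lam g q := by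
    by_cases h3 : 2 ≤ g
    · obtain ⟨c, hc, hc1, l₀, hB⟩ := hPATC g h3
      obtain ⟨q₀, h1⟩ := T1_gen hCRT g hg (fun l _ k => PatC g k) c hc hc1 l₀
        (fun l _ hl q _ => hB l hl) (η / 4) hη4
      refine ⟨q₀, fun q hq hqp => ?_⟩
      have := h1 q hq hqp
      simpa only [h3, true_and] using this
    · refine ⟨0, fun q _ _ => ?_⟩
      have hLam : 0 ≤ Lam g q := Finset.prod_nonneg fun i _ => by positivity
      have h4 : {h : ℤ[X] | 2 ≤ g ∧ h ∈ RW g q ∧ ∀ l : ℕ, l.Prime → l ≠ 2 → ¬ l ∣ q →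
        ¬ PatC g (red l h)} = ∅ := by
        ext h
        simp [h3]
      rw [h4, Set.ncard_empty]
      push_cast
      positivity
  refine ⟨max (max qa qb) (max qc qd), fun q hq hqp => ?_⟩
  have hq1 : 1 ≤ q := hqp.one_lt.le
  have ha := hqa q (le_trans (le_trans (le_max_left _ _) (le_max_left _ _)) hq) hqp
  have hb := hqb q (le_trans (le_trans (le_max_right _ _) (le_max_left _ _)) hq) hqp
  have hc := hqc q (le_trans (le_trans (le_max_left _ _) (le_max_right _ _)) hq) hqp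
  have hd := hqd q (le_trans (le_trans (le_max_right _ _) (le_max_right _ _)) hq) hqp
  set A : Set ℤ[X] := {h | h ∈ RW g q ∧ ∀ l : ℕ, l.Prime → l ≠ 2 → ¬ l ∣ q →
    ¬ Irreducible (red l h)} with hAdef
  set B : Set ℤ[X] := {h | 3 ≤ g ∧ h ∈ RW g q ∧ ∀ l : ℕ, l.Prime → l ≠ 2 → ¬ l ∣ q →
    ¬ PatB g (red l h)} with hBdef
  set C' : Set ℤ[X] := {h | 2 ≤ g ∧ h ∈ RW g q ∧ ∀ l : ℕ, l.Prime → l ≠ 2 → ¬ l ∣ q →
    ¬ PatC g (red l h)} with hCdef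
  set D : Set ℤ[X] := {h | h ∈ RW g q ∧ ∀ l : ℕ, l.Prime → l ≠ 2 → ¬ l ∣ q →
    ¬ PatD g q (red l h)} with hDdef
  have hsub : T1 g q ⊆ (A ∪ B) ∪ (C' ∪ D) := by
    rintro h ⟨hO, hF⟩
    have hm : h.Monic := hO.1.1
    have hdeg : h.natDegree = g := hO.1.2.1
    by_contra hnot
    simp only [Set.mem_union, not_or] at hnot
    obtain ⟨⟨nA, nB⟩, nC, nD⟩ := hnot
    apply hF
    have eA : ∃ l : ℕ, l.Prime ∧ l ≠ 2 ∧ ¬ l ∣ q ∧ Irreducible (red l h) := by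
      by_contra hno
      apply nA
      refine ⟨hO.1, fun l h1 h2 h3 h4 => hno ⟨l, h1, h2, h3, h4⟩⟩
    have eD : ∃ l : ℕ, l.Prime ∧ l ≠ 2 ∧ ¬ l ∣ q ∧ PatD g q (red l h) := by
      by_contra hno
      apply nD
      refine ⟨hO.1, fun l h1 h2 h3 h4 => hno ⟨l, h1, h2, h3, h4⟩⟩
    obtain ⟨la, hla, _, _, hla4⟩ := eA
    obtain ⟨ld', hld, hld2, hld3, hld4⟩ := eD
    obtain ⟨hOc, σ, hσ⟩ := hPD g q h ld' hg hq1 hm hdeg hld hld2 hld3 hld4
    refine hGEN g q h hg hq1 hm hdeg hOc (hPA g h la hg hm hdeg hla hla4).2 ?_ ?_ ⟨σ, hσ⟩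
    · intro h3
      have eB : ∃ l : ℕ, l.Prime ∧ l ≠ 2 ∧ ¬ l ∣ q ∧ PatB g (red l h) := by
        by_contra hno
        apply nB
        refine ⟨h3, hO.1, fun l h1 h2 h3 h4 => hno ⟨l, h1, h2, h3, h4⟩⟩
      obtain ⟨lb, hlb, _, _, hlb4⟩ := eB
      exact hPB g h lb h3 hm hdeg hlb hlb4
    · intro h2
      have eC : ∃ l : ℕ, l.Prime ∧ l ≠ 2 ∧ ¬ l ∣ q ∧ PatC g (red l h) := by
        by_contra hno
        apply nC
        refine ⟨h2, hO.1, fun l h1 h2 h3 h4 => hno ⟨l, h1, h2, h3, h4⟩⟩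
      obtain ⟨lc, hlc, _, _, hlc4⟩ := eC
      exact hPC g h lc h2 hm hdeg hlc hlc4
  have hfin : ((A ∪ B) ∪ (C' ∪ D)).Finite := by
    refine (t_BOX g q).1.subset ?_
    rintro h ((hh | hh) | (hh | hh))
    · exact hh.1
    · exact hh.2.1
    · exact hh.2.1
    · exact hh.1
  have hn : (T1 g q).ncard ≤ (A.ncard + B.ncard) + (C'.ncard + D.ncard) :=
    (Set.ncard_le_ncard hsub hfin).trans ((Set.ncard_union_le _ _).trans
      (add_le_add (Set.ncard_union_le _ _) (Set.ncard_union_le _ _)))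
  have hn' : ((T1 g q).ncard : ℝ) ≤ ((A.ncard : ℝ) + B.ncard) + ((C'.ncard : ℝ) + D.ncard) := by
    exact_mod_cast hn
  linarith

end

end Pool.Agent.TJ2
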