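import Pool.Agent.TJ2.Stmts

/-!
# Theorem J, module T2: few real Weil polynomials have a root near `±2√q`
-/

open Polynomial IntermediateField

namespace Pool.Agent.TJ2

theorem T2_prod (x : ℂ) (B : ℝ) (hB : 0 ≤ B) (R : Multiset ℂ) :
    (∀ r ∈ R, ‖x - r‖ ≤ B) → ‖(R.map fun r => x - r).prod‖ ≤ B ^ R.card := by
  induction R using Multiset.induction with
  | empty => intro _; simp
  | cons a R ih =>
    intro h
    rw [Multiset.map_cons, Multiset.prod_cons, norm_mul, Multiset.card_cons, pow_succ, mul_comm]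
    exact mul_le_mul (ih fun r hr => h r (Multiset.mem_cons_of_mem hr))
      (h a (Multiset.mem_cons_self a R)) (norm_nonneg _) (by positivity)

theorem T2_eval {g q : ℕ} {h : ℤ[X]} (hh : h ∈ RW g q) {z : ℂ} (hz : aeval z h = 0) (s : ℝ)
    (hs : |s| ≤ 2 * Real.sqrt q) :
    ‖aeval (s : ℂ) h‖ ≤ |s - z.re| * (4 * Real.sqrt q) ^ (g - 1) := by
  set H : ℂ[X] := h.map (algebraMap ℤ ℂ) with hH
  have hm : H.Monic := hh.1.map _
  have hsp : H.Splits := IsAlgClosed.splits H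
  have hcard : H.roots.card = g := by
    rw [← hsp.natDegree_eq_card_roots, hH, hh.1.natDegree_map, hh.2.1]
  have hroot : ∀ r ∈ H.roots, aeval r h = 0 := by
    intro r hr
    have := isRoot_of_mem_roots hr
    rwa [IsRoot.def, hH, eval_map_algebraMap] at this
  have hzm : z ∈ H.roots := by
    rw [mem_roots hm.ne_zero, IsRoot.def, hH, eval_map_algebraMap]
    exact hz
  have hdist : ∀ r ∈ H.roots, ‖(s : ℂ) - r‖ = |s - r.re| := by
    intro r hr
    have h1 := (hh.2.2 r (hroot r hr)).1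
    have h2 : (s : ℂ) - r = ((s - r.re : ℝ) : ℂ) := by
      apply Complex.ext
      · simp
      · simp [h1]
    rw [h2, Complex.norm_real, Real.norm_eq_abs]
  have hev : aeval (s : ℂ) h = (H.roots.map fun r => (s : ℂ) - r).prod := by
    rw [← eval_map_algebraMap, ← hH]
    exact hsp.eval_eq_prod_roots_of_monic hm _
  obtain ⟨R, hR⟩ := Multiset.exists_cons_of_mem hzm
  rw [hev, hR, Multiset.map_cons, Multiset.prod_cons, norm_mul, hdist z hzm]
  refine mul_le_mul_of_nonneg_left ?_ (abs_nonneg _)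
  have hRc : R.card = g - 1 := by
    rw [← hcard, hR, Multiset.card_cons]
    rfl
  rw [← hRc]
  refine T2_prod _ _ (by positivity) _ fun r hr => ?_
  have hr' : r ∈ H.roots := by rw [hR]; exact Multiset.mem_cons_of_mem hr
  rw [hdist r hr']
  have h1 := (hh.2.2 r (hroot r hr')).2
  calc |s - r.re| ≤ |s| + |r.re| := abs_sub _ _
    _ ≤ 4 * Real.sqrt q := by linarith

theorem T2_count (P : Set ℤ[X]) (h₀ : ℤ[X]) (s : ℝ) (δ : ℝ) (hδ : 0 ≤ δ)
    (hP : ∀ h ∈ P, (∀ i, 1 ≤ i → h.coeff i = h₀.coeff i) ∧ ‖aeval (s : ℂ) h‖ ≤ δ) :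
    P.Finite ∧ (P.ncard : ℝ) ≤ 2 * δ + 1 := by
  set b : ℝ := (aeval (s : ℂ) (h₀ - C (h₀.coeff 0))).re with hb
  set I : Finset ℤ := Finset.Icc ⌈-b - δ⌉ ⌊-b + δ⌋ with hI
  have hmaps : ∀ h ∈ P, h.coeff 0 ∈ (I : Set ℤ) := by
    intro h hh
    obtain ⟨h1, h2⟩ := hP h hh
    have h3 : h = (h₀ - C (h₀.coeff 0)) + C (h.coeff 0) := by
      ext i
      rcases Nat.eq_zero_or_pos i with rfl | hi
      · simp
      · rw [coeff_add, coeff_sub, coeff_C_of_ne_zero (by omega), coeff_C_of_ne_zero (by omega), h1 i hi]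
        ring
    have h4 : (aeval (s : ℂ) h).re = b + (h.coeff 0 : ℝ) := by
      conv_lhs => rw [h3]
      rw [map_add, Complex.add_re, ← hb]
      simp
    have h5 : |b + (h.coeff 0 : ℝ)| ≤ δ := by
      rw [← h4]
      exact (Complex.abs_re_le_norm _).trans h2
    rw [abs_le] at h5
    rw [hI, Finset.coe_Icc, Set.mem_Icc]
    exact ⟨Int.ceil_le.2 (by linarith), Int.le_floor.2 (by linarith)⟩
  have hinj : Set.InjOn (fun h : ℤ[X] => h.coeff 0) P := by
    intro h hh k hk e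
    ext i
    rcases Nat.eq_zero_or_pos i with rfl | hi
    · exact e
    · rw [(hP h hh).1 i hi, (hP k hk).1 i hi]
  have hfin : P.Finite := Set.Finite.of_injOn hmaps hinj I.finite_toSet
  refine ⟨hfin, ?_⟩
  have h1 : P.ncard ≤ (I : Set ℤ).ncard := Set.ncard_le_ncard_of_injOn _ hmaps hinj I.finite_toSet
  rw [Set.ncard_coe_finset] at h1
  have h2 : (I.card : ℝ) ≤ 2 * δ + 1 := by
    rw [hI, Int.card_Icc]
    rcases le_or_gt 0 (⌊-b + δ⌋ + 1 - ⌈-b - δ⌉) with h3 | h3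
    · have h4 : ((⌊-b + δ⌋ + 1 - ⌈-b - δ⌉).toNat : ℝ) = ((⌊-b + δ⌋ + 1 - ⌈-b - δ⌉ : ℤ) : ℝ) := by
        have := Int.toNat_of_nonneg h3
        exact_mod_cast this
      rw [h4]
      push_cast
      have h5 := Int.floor_le (-b + δ)
      have h6 := Int.le_ceil (-b - δ)
      linarith
    · rw [Int.toNat_of_nonpos h3.le]
      simp only [Nat.cast_zero]
      linarith
  exact le_trans (by exact_mod_cast h1) h2

theorem t_T2 (hFIBA : S_FIBA) : S_T2 := by
  intro g hg η hη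
  obtain ⟨K, hK, hF⟩ := hFIBA g hg
  set ε : ℝ := min (1 / 2) (η / (8 * K * 4 ^ (g - 1))) with hε
  have hε0 : 0 < ε := lt_min (by norm_num) (by positivity)
  have hε1 : ε < 1 := lt_of_le_of_lt (min_le_left _ _) (by norm_num)
  have hε2 : 4 * K * ε * 4 ^ (g - 1) ≤ η / 2 := by
    have h1 : ε ≤ η / (8 * K * 4 ^ (g - 1)) := min_le_right _ _
    rw [le_div_iff₀ (by positivity)] at h1
    linarith
  refine ⟨ε, hε0, hε1, ⌈(4 * K / η) ^ 2⌉₊ + 1, fun q hq => ?_⟩
  have hq1 : 1 ≤ q := by omega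
  have hsq1 : (1 : ℝ) ≤ Real.sqrt q := by
    rw [Real.one_le_sqrt]
    exact_mod_cast hq1
  have hsq2 : 4 * K / η ≤ Real.sqrt q := by
    apply Real.le_sqrt_of_sq_le
    have h1 := Nat.le_ceil ((4 * K / η) ^ 2)
    have h2 : ((⌈(4 * K / η) ^ 2⌉₊ : ℕ) : ℝ) ≤ (q : ℝ) := by exact_mod_cast (by omega)
    linarith
  have hpow : Real.sqrt q ≤ Real.sqrt q ^ g := by
    calc Real.sqrt q = Real.sqrt q ^ 1 := (pow_one _).symm
      _ ≤ Real.sqrt q ^ g := pow_le_pow_right₀ hsq1 hg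
  set δ : ℝ := ε * Real.sqrt q * (4 * Real.sqrt q) ^ (g - 1) with hδ
  have hδ0 : 0 ≤ δ := by positivity
  have hδe : δ = ε * 4 ^ (g - 1) * Real.sqrt q ^ g := by
    rw [hδ, mul_pow]
    obtain ⟨m, rfl⟩ : ∃ m, g = m + 1 := ⟨g - 1, by omega⟩
    rw [Nat.add_sub_cancel, pow_succ]
    ring
  have hmain := hF q (T2 g q ε) (2 * (2 * δ + 1)) hq1 (fun h hh => hh.1) (by
    intro h₀
    set P1 : Set ℤ[X] := {h | (∀ i, 1 ≤ i → h.coeff i = h₀.coeff i) ∧
      ‖aeval (((2 * Real.sqrt q : ℝ)) : ℂ) h‖ ≤ δ} with hP1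
    set P2 : Set ℤ[X] := {h | (∀ i, 1 ≤ i → h.coeff i = h₀.coeff i) ∧
      ‖aeval (((-(2 * Real.sqrt q) : ℝ)) : ℂ) h‖ ≤ δ} with hP2
    obtain ⟨f1, c1⟩ := T2_count P1 h₀ (2 * Real.sqrt q) δ hδ0 fun h hh => hh
    obtain ⟨f2, c2⟩ := T2_count P2 h₀ (-(2 * Real.sqrt q)) δ hδ0 fun h hh => hh
    have hsub : {h | h ∈ T2 g q ε ∧ ∀ i, 1 ≤ i → h.coeff i = h₀.coeff i} ⊆ P1 ∪ P2 := by
      rintro h ⟨⟨hh, z, hz, hlt⟩, hc⟩
      have hzb := (hh.2.2 z hz).2
      have hs0 : 0 ≤ Real.sqrt q := Real.sqrt_nonneg _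
      rcases le_total 0 z.re with h0 | h0
      · left
        refine ⟨hc, (T2_eval hh hz (2 * Real.sqrt q) (by rw [abs_of_nonneg (by positivity)])).trans ?_⟩
        rw [hδ]
        refine mul_le_mul_of_nonneg_right ?_ (by positivity)
        rw [abs_of_nonneg h0] at hlt hzb
        rw [abs_of_nonneg (by linarith)]
        linarith
      · right
        refine ⟨hc, (T2_eval hh hz (-(2 * Real.sqrt q))
          (by rw [abs_neg, abs_of_nonneg (by positivity)])).trans ?_⟩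
        rw [hδ]
        refine mul_le_mul_of_nonneg_right ?_ (by positivity)
        rw [abs_of_nonpos h0] at hlt hzb
        rw [abs_le]
        constructor <;> nlinarith
    have h1 := Set.ncard_le_ncard hsub (f1.union f2)
    have h2 := Set.ncard_union_le P1 P2
    have h3 : (({h | h ∈ T2 g q ε ∧ ∀ i, 1 ≤ i → h.coeff i = h₀.coeff i}.ncard : ℕ) : ℝ) ≤
        (P1.ncard : ℝ) + P2.ncard := by exact_mod_cast h1.trans h2
    linarith)
  have hL : 0 ≤ Lam g q := by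
    unfold Lam
    exact Finset.prod_nonneg fun i _ => by positivity
  have hp : 0 < Real.sqrt q ^ g := by positivity
  have h4 : K * (2 * (2 * δ + 1)) * Lam g q ≤ (η * Lam g q) * Real.sqrt q ^ g := by
    rw [hδe]
    have h5 : 2 * K ≤ η / 2 * Real.sqrt q ^ g := by
      have h6 : 4 * K / η ≤ Real.sqrt q ^ g := hsq2.trans hpow
      rw [div_le_iff₀ hη] at h6
      linarith
    have h7 : K * (2 * (2 * (ε * 4 ^ (g - 1) * Real.sqrt q ^ g) + 1)) ≤ η * Real.sqrt q ^ g := by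
      have h8 : 4 * K * ε * 4 ^ (g - 1) * Real.sqrt q ^ g ≤ η / 2 * Real.sqrt q ^ g :=
        mul_le_mul_of_nonneg_right hε2 hp.le
      calc K * (2 * (2 * (ε * 4 ^ (g - 1) * Real.sqrt q ^ g) + 1))
          = 4 * K * ε * 4 ^ (g - 1) * Real.sqrt q ^ g + 2 * K := by ring
        _ ≤ η / 2 * Real.sqrt q ^ g + η / 2 * Real.sqrt q ^ g := by linarith
        _ = η * Real.sqrt q ^ g := by ring
    calc K * (2 * (2 * (ε * 4 ^ (g - 1) * Real.sqrt q ^ g) + 1)) * Lam g q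
        ≤ (η * Real.sqrt q ^ g) * Lam g q := mul_le_mul_of_nonneg_right h7 hL
      _ = (η * Lam g q) * Real.sqrt q ^ g := by ring
  exact le_of_mul_le_mul_right (hmain.trans h4) hp

end Pool.Agent.TJ2
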