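import Pool.Agent.TJ2.Stmts

/-!
# Theorem J: module T3 (MP_6c4da4_ag, helper13)
-/

open Polynomial IntermediateField

namespace Pool.Agent.TJ2

noncomputable section

/-- there are finitely many real Weil polynomials -/
private lemma T3_fin (g q : ℕ) : (RW g q).Finite := by
  classical
  set B : ℝ := 2 * Real.sqrt q with hB
  have hB0 : 0 ≤ B := by positivity
  set N : ℤ := ⌈(max B 1) ^ g * 2 ^ g⌉ with hN
  have hco : ∀ h ∈ RW g q, ∀ i : ℕ, |h.coeff i| ≤ N := by
    rintro h ⟨hm, hd, hr⟩ i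
    have h2 : ((h.map (Int.castRingHom ℂ))).Splits := IsAlgClosed.splits _
    have h3 : ∀ z ∈ (h.map (Int.castRingHom ℂ)).roots, ‖z‖ ≤ B := by
      intro z hz
      rw [mem_roots (hm.map _).ne_zero, IsRoot.def, eval_map] at hz
      have hz' : aeval z h = 0 := by
        rw [aeval_def]
        exact hz
      obtain ⟨him, hre⟩ := hr z hz'
      have : z = (z.re : ℂ) := by
        apply Complex.ext
        · simp
        · simp [him]
      rw [this, Complex.norm_real, Real.norm_eq_abs]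
      exact hre
    have hc := coeff_le_of_roots_le i hm h2 h3
    rw [hd, coeff_map] at hc
    have e1 : ‖(Int.castRingHom ℂ) (h.coeff i)‖ = (|h.coeff i| : ℝ) := by
      simp [Complex.norm_intCast]
    rw [e1] at hc
    have e2 : B ^ (g - i) * (g.choose i : ℝ) ≤ (max B 1) ^ g * 2 ^ g := by
      apply mul_le_mul
      · calc B ^ (g - i) ≤ (max B 1) ^ (g - i) := by
              apply pow_le_pow_left₀ hB0 (le_max_left _ _)
          _ ≤ (max B 1) ^ g := by
              apply pow_le_pow_right₀ (le_max_right _ _) (Nat.sub_le _ _)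
      · have := Nat.choose_le_two_pow g i
        exact_mod_cast this
      · positivity
      · positivity
    have e3 : (|h.coeff i| : ℝ) ≤ (N : ℝ) := (hc.trans e2).trans (Int.le_ceil _)
    exact_mod_cast e3
  let S : Set (Fin (g + 1) → ℤ) := Set.univ.pi (fun _ => Set.Icc (-N) N)
  have hS : S.Finite := Set.Finite.pi (fun _ => Set.finite_Icc _ _)
  refine Set.Finite.of_finite_image (f := fun h : ℤ[X] => fun i : Fin (g + 1) => h.coeff i)
    (hS.subset ?_) ?_
  · rintro _ ⟨h, hh, rfl⟩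
    intro i _
    have := hco h hh i
    rw [abs_le] at this
    exact this
  · intro h hh h' hh' he
    ext i
    by_cases hi : i < g + 1
    · exact congrFun he ⟨i, hi⟩
    · rw [coeff_eq_zero_of_natDegree_lt (by rw [hh.2.1]; omega),
        coeff_eq_zero_of_natDegree_lt (by rw [hh'.2.1]; omega)]

/-- a number `d > K ^ z`, `K ≥ 1`, all of whose prime factors are at most `z`, has a prime power
divisor `l ^ k > K` -/
private lemma T3_pp (K z d : ℕ) (hK : 1 ≤ K) (hd : K ^ z < d)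
    (hp : ∀ l : ℕ, l.Prime → l ∣ d → l ≤ z) :
    ∃ l k : ℕ, l.Prime ∧ l ≤ z ∧ K < l ^ k ∧ l ^ k ∣ d := by
  have hd0 : d ≠ 0 := by omega
  by_contra hcon
  push Not at hcon
  have h1 : ∀ l ∈ d.primeFactors, l ^ (d.factorization l) ≤ K := by
    intro l hl
    have hlp := Nat.prime_of_mem_primeFactors hl
    have hld := Nat.dvd_of_mem_primeFactors hl
    by_contra hlt
    push Not at hlt
    exact hcon l (d.factorization l) hlp (hp l hlp hld) hlt (Nat.ordProj_dvd d l)
  have h2 : d = ∏ l ∈ d.primeFactors, l ^ (d.factorization l) := by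
    conv_lhs => rw [← Nat.prod_factorization_pow_eq_self hd0]
    rfl
  have h3 : d ≤ K ^ d.primeFactors.card := by
    calc d = ∏ l ∈ d.primeFactors, l ^ (d.factorization l) := h2
      _ ≤ ∏ _l ∈ d.primeFactors, K := Finset.prod_le_prod' h1
      _ = K ^ d.primeFactors.card := by simp
  have h4 : d.primeFactors.card ≤ z := by
    have : d.primeFactors ⊆ Finset.Icc 1 z := by
      intro l hl
      have hlp := Nat.prime_of_mem_primeFactors hl
      have hld := Nat.dvd_of_mem_primeFactors hl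
      rw [Finset.mem_Icc]
      exact ⟨hlp.one_le, hp l hlp hld⟩
    have := Finset.card_le_card this
    simpa using this
  have h5 : K ^ d.primeFactors.card ≤ K ^ z := Nat.pow_le_pow_right hK h4
  omega

theorem t_T3 (hA : S_T3A) (hB : S_T3B) (hC : S_T3C) : S_T3 := by
  intro g hg η hη
  have hη3 : 0 < η / 3 := by positivity
  obtain ⟨zB, qB, hB⟩ := hB g hg (η / 3) hη3
  obtain ⟨zC, qC, hC⟩ := hC g hg (η / 3) hη3
  set z : ℕ := max zB zC with hz
  obtain ⟨K, qA, hA⟩ := hA g hg z (η / 3) hη3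
  set K1 : ℕ := max K 1 with hK1
  refine ⟨K1 ^ z, max qA (max qB qC), fun q hq hpp => ?_⟩
  have hqA : qA ≤ q := (le_max_left _ _).trans hq
  have hqB : qB ≤ q := ((le_max_left _ _).trans (le_max_right _ _)).trans hq
  have hqC : qC ≤ q := ((le_max_right _ _).trans (le_max_right _ _)).trans hq
  have hA := hA q hqA hpp
  have hB := hB q hqB hpp
  have hC := hC q hqC hpp
  set A := {h | h ∈ Ord g q ∧ ∃ l k : ℕ, l.Prime ∧ l ≤ z ∧ K < l ^ k ∧
      (l : ℤ) ^ (2 * k) ∣ delta q h} with hAdef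
  set B := {h | h ∈ Ord g q ∧ ∃ l : ℕ, l.Prime ∧ zB < l ∧ ¬ (l : ℤ) ∣ Yv q h ∧
      (l : ℤ) ^ 2 ∣ delta q h} with hBdef
  set C' := {h | h ∈ Ord g q ∧ ∃ l : ℕ, l.Prime ∧ zC < l ∧ (l : ℤ) ∣ Yv q h ∧
      (l : ℤ) ^ 2 ∣ delta q h} with hCdef
  have hfin : ∀ S : Set ℤ[X], (∀ h ∈ S, h ∈ Ord g q) → S.Finite := fun S hS =>
    (T3_fin g q).subset (fun h hh => (hS h hh).1)
  have fA : A.Finite := hfin A (fun h hh => hh.1)
  have fB : B.Finite := hfin B (fun h hh => hh.1)
  have fC : C'.Finite := hfin C' (fun h hh => hh.1)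
  have hsub : T3 g q (K1 ^ z) ⊆ A ∪ (B ∪ C') := by
    rintro h ⟨hh, d, hd, hdd⟩
    by_cases hl : ∃ l : ℕ, l.Prime ∧ l ∣ d ∧ z < l
    · obtain ⟨l, hlp, hld, hlz⟩ := hl
      have hl2 : (l : ℤ) ^ 2 ∣ delta q h := by
        refine dvd_trans ?_ hdd
        exact pow_dvd_pow_of_dvd (by exact_mod_cast hld) 2
      right
      by_cases hY : (l : ℤ) ∣ Yv q h
      · right
        exact ⟨hh, l, hlp, lt_of_le_of_lt (le_max_right _ _) hlz, hY, hl2⟩
      · left
        exact ⟨hh, l, hlp, lt_of_le_of_lt (le_max_left _ _) hlz, hY, hl2⟩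
    · push Not at hl
      left
      obtain ⟨l, k, hlp, hlz, hKl, hlk⟩ := T3_pp K1 z d (le_max_right _ _) hd hl
      refine ⟨hh, l, k, hlp, hlz, lt_of_le_of_lt (le_max_left _ _) hKl, ?_⟩
      refine dvd_trans ?_ hdd
      have e : (l : ℤ) ^ (2 * k) = ((l : ℤ) ^ k) ^ 2 := by rw [← pow_mul, mul_comm]
      rw [e]
      exact pow_dvd_pow_of_dvd (by exact_mod_cast hlk) 2
  have h1 : (T3 g q (K1 ^ z)).ncard ≤ (A ∪ (B ∪ C')).ncard :=
    Set.ncard_le_ncard hsub (fA.union (fB.union fC))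
  have h2 : (A ∪ (B ∪ C')).ncard ≤ A.ncard + (B.ncard + C'.ncard) :=
    (Set.ncard_union_le _ _).trans (Nat.add_le_add_left (Set.ncard_union_le _ _) _)
  have h3 : ((T3 g q (K1 ^ z)).ncard : ℝ) ≤ (A.ncard : ℝ) + ((B.ncard : ℝ) + (C'.ncard : ℝ)) := by
    exact_mod_cast h1.trans h2
  linarith

end

end Pool.Agent.TJ2
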