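import Pool.Agent.TJ2.Stmts

/-!
# Theorem J, module T3A: small primes
-/

open Polynomial

namespace Pool.Agent.TJ2

noncomputable section

/-- the even part without the constant coefficient -/
def T3A_rest (g q : ℕ) (h : ℤ[X]) : ℤ :=
  ∑ i ∈ Finset.range g, if Even (i + 1) then h.coeff (i + 1) * (4 * (q : ℤ)) ^ ((i + 1) / 2) else 0

theorem T3A_Xv (g q : ℕ) (h : ℤ[X]) (hd : h.natDegree = g) :
    Xv q h = T3A_rest g q h + h.coeff 0 := by
  unfold Xv T3A_rest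
  rw [hd, Finset.sum_range_succ']
  simp

theorem T3A_rest_eq (g q : ℕ) (h h' : ℤ[X]) (hc : ∀ i, 1 ≤ i → h.coeff i = h'.coeff i) :
    T3A_rest g q h = T3A_rest g q h' := by
  unfold T3A_rest
  refine Finset.sum_congr rfl fun i _ => ?_
  rw [hc (i + 1) (Nat.le_add_left 1 i)]

theorem T3A_Yv (g q : ℕ) (h h' : ℤ[X]) (hd : h.natDegree = g) (hd' : h'.natDegree = g)
    (hc : ∀ i, 1 ≤ i → h.coeff i = h'.coeff i) : Yv q h = Yv q h' := by
  unfold Yv
  rw [hd, hd']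
  refine Finset.sum_congr rfl fun i _ => ?_
  rcases Nat.eq_zero_or_pos i with rfl | hi
  · simp
  · rw [hc i hi]

theorem T3A_ext (h h' : ℤ[X]) (hc : ∀ i, 1 ≤ i → h.coeff i = h'.coeff i)
    (h0 : h.coeff 0 = h'.coeff 0) : h = h' := by
  ext i
  rcases Nat.eq_zero_or_pos i with rfl | hi
  · exact h0
  · exact hc i hi

/-- the least exponent -/
theorem T3A_exp (l K : ℕ) (hl : l.Prime) : ∃ k, K < l ^ k ∧ ∀ k', K < l ^ k' → k ≤ k' := by
  classical
  have hex : ∃ k, K < l ^ k := pow_unbounded_of_one_lt K hl.one_lt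
  exact ⟨Nat.find hex, Nat.find_spec hex, fun k' hk' => Nat.find_min' hex hk'⟩

/-- the polynomials to be counted -/
def T3A_A (g q z K : ℕ) : Set ℤ[X] :=
  {h | h ∈ Ord g q ∧ ∃ l k : ℕ, l.Prime ∧ l ≤ z ∧ K < l ^ k ∧ (l : ℤ) ^ (2 * k) ∣ delta q h}

/-- counting in a fibre: only the constant coefficient varies -/
theorem T3A_fib (hBOX : S_BOX) (hSQA : S_SQA) (g q z K : ℕ) (h₀ : ℤ[X]) (N : ℕ)
    (hN : (2 * Real.sqrt q) ^ g ≤ N) :
    {h | h ∈ T3A_A g q z K ∧ ∀ i, 1 ≤ i → h.coeff i = h₀.coeff i}.ncard ≤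
      (z + 1) * (2 * (2 * N / (K + 1) + 1)) := by
  classical
  set S := {h | h ∈ T3A_A g q z K ∧ ∀ i, 1 ≤ i → h.coeff i = h₀.coeff i} with hS
  rcases S.eq_empty_or_nonempty with he | ⟨h₁, h1⟩
  · rw [he, Set.ncard_empty]
    exact Nat.zero_le _
  have hd1 : h₁.natDegree = g := h1.1.1.1.2.1
  set X' := T3A_rest g q h₁ with hX'
  set nn : ℤ := 4 * q * Yv q h₁ ^ 2 with hnn
  set u : ℤ := X' - N with hu
  choose! κ hκ1 hκ2 using fun (l : ℕ) (hl : l.Prime) => T3A_exp l K hl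
  let E : ℕ → Set ℤ := fun l => {x : ℤ | u ≤ x ∧ x ≤ u + ((2 * N : ℕ) : ℤ) ∧
    (l : ℤ) ^ (2 * κ l) ∣ x ^ 2 - nn}
  have hEfin : ∀ l, (E l).Finite := fun l =>
    (Set.finite_Icc u (u + ((2 * N : ℕ) : ℤ))).subset fun x hx => ⟨hx.1, hx.2.1⟩
  have hEcard : ∀ l, l.Prime → (E l).ncard ≤ 2 * (2 * N / (K + 1) + 1) := by
    intro l hl
    refine (hSQA l (κ l) nn u (2 * N) hl).trans ?_
    have h2 : 2 * N / l ^ κ l ≤ 2 * N / (K + 1) :=
      Nat.div_le_div_left (hκ1 l hl) (Nat.succ_pos K)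
    omega
  let P := (Finset.range (z + 1)).filter Nat.Prime
  have hsub : (fun h : ℤ[X] => Xv q h) '' S ⊆ ⋃ l ∈ P, E l := by
    rintro _ ⟨h, hh, rfl⟩
    obtain ⟨⟨hO, l, k, hl, hlz, hlk, hdvd⟩, hc⟩ := hh
    have hc1 : ∀ i, 1 ≤ i → h.coeff i = h₁.coeff i := fun i hi => by rw [hc i hi, h1.2 i hi]
    have hd : h.natDegree = g := hO.1.2.1
    have hX : Xv q h = X' + h.coeff 0 := by
      rw [T3A_Xv g q h hd, T3A_rest_eq g q h h₁ hc1]
    have hY : Yv q h = Yv q h₁ := T3A_Yv g q h h₁ hd hd1 hc1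
    have hb := (hBOX g q).2 h hO.1 0 (Nat.zero_le g)
    rw [Nat.choose_zero_right, Nat.sub_zero, Nat.cast_one, one_mul] at hb
    have hb2 : (|h.coeff 0| : ℝ) ≤ N := hb.trans hN
    have hb3 : |h.coeff 0| ≤ (N : ℤ) := by exact_mod_cast hb2
    obtain ⟨hb4, hb5⟩ := abs_le.1 hb3
    refine Set.mem_iUnion₂.2 ⟨l, Finset.mem_filter.2 ⟨Finset.mem_range.2 (by omega), hl⟩, ?_⟩
    refine ⟨?_, ?_, ?_⟩
    · show u ≤ Xv q h
      rw [hX]; linarith
    · show Xv q h ≤ u + ((2 * N : ℕ) : ℤ)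
      rw [hX]; push_cast; linarith
    · show (l : ℤ) ^ (2 * κ l) ∣ Xv q h ^ 2 - nn
      have h5 : Xv q h ^ 2 - nn = delta q h := by
        unfold delta
        rw [hY, hnn]
      rw [h5]
      exact (pow_dvd_pow _ (Nat.mul_le_mul_left 2 (hκ2 l hl k hlk))).trans hdvd
  have hinj : Set.InjOn (fun h : ℤ[X] => Xv q h) S := by
    intro h hh h' hh' hE
    have hc1 : ∀ i, 1 ≤ i → h.coeff i = h'.coeff i := fun i hi => by rw [hh.2 i hi, hh'.2 i hi]
    have e1 := T3A_Xv g q h hh.1.1.1.2.1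
    have e2 := T3A_Xv g q h' hh'.1.1.1.2.1
    rw [T3A_rest_eq g q h h' hc1] at e1
    refine T3A_ext h h' hc1 ?_
    have hE' : Xv q h = Xv q h' := hE
    linarith
  have hUfin : (⋃ l ∈ P, E l).Finite := Set.Finite.biUnion P.finite_toSet fun l _ => hEfin l
  calc S.ncard = ((fun h : ℤ[X] => Xv q h) '' S).ncard := hinj.ncard_image.symm
    _ ≤ (⋃ l ∈ P, E l).ncard := Set.ncard_le_ncard hsub hUfin
    _ ≤ ∑ l ∈ P, (E l).ncard := Finset.set_ncard_biUnion_le P E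
    _ ≤ ∑ l ∈ P, 2 * (2 * N / (K + 1) + 1) :=
      Finset.sum_le_sum fun l hl => hEcard l (Finset.mem_filter.1 hl).2
    _ = P.card * (2 * (2 * N / (K + 1) + 1)) := by rw [Finset.sum_const, smul_eq_mul]
    _ ≤ (z + 1) * (2 * (2 * N / (K + 1) + 1)) :=
      Nat.mul_le_mul_right _ ((Finset.card_filter_le _ _).trans (Finset.card_range _).le)

theorem T3A_Lam (g q : ℕ) : 0 ≤ Lam g q :=
  Finset.prod_nonneg fun _ _ => pow_nonneg (Real.sqrt_nonneg _) _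

theorem t_T3A (hFIBA : S_FIBA) (hBOX : S_BOX) (hSQA : S_SQA) : S_T3A := by
  intro g hg z η hη
  obtain ⟨C, hC, hfib⟩ := hFIBA g hg
  -- choice of the constants
  obtain ⟨K, hK⟩ := exists_nat_gt (8 * C * (z + 1) * 2 ^ g / η)
  obtain ⟨R, hR⟩ := exists_nat_gt (12 * C * (z + 1) / η)
  refine ⟨K, R ^ 2 + 1, fun q hq hpp => ?_⟩
  have hq1 : 1 ≤ q := by omega
  have hs1 : 1 ≤ Real.sqrt q := by
    rw [Real.one_le_sqrt]
    exact_mod_cast hq1
  have hs0 : 0 < Real.sqrt q := lt_of_lt_of_le one_pos hs1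
  have hsR : (R : ℝ) ≤ Real.sqrt q := by
    apply Real.le_sqrt_of_sq_le
    have : R ^ 2 ≤ q := by omega
    exact_mod_cast this
  have hsg : (R : ℝ) ≤ Real.sqrt q ^ g := hsR.trans (le_self_pow₀ hs1 (by omega))
  have hsg0 : 0 < Real.sqrt q ^ g := pow_pos hs0 g
  set s := Real.sqrt q ^ g with hs
  set B : ℝ := (2 * Real.sqrt q) ^ g with hB
  have hBs : B = 2 ^ g * s := by rw [hB, mul_pow]
  set N := ⌈B⌉₊ with hN
  have hBN : B ≤ N := Nat.le_ceil B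
  have hB0 : 0 ≤ B := by positivity
  have hNB : (N : ℝ) ≤ B + 1 := (Nat.ceil_lt_add_one hB0).le
  have hz0 : (0 : ℝ) ≤ z := Nat.cast_nonneg z
  have hK0 : (0 : ℝ) < (K : ℝ) + 1 := by positivity
  -- the fibres
  have key := hfib q (T3A_A g q z K) ((z + 1) * (2 * (2 * (B + 1) / (K + 1) + 1))) hq1
    (fun h hh => hh.1.1) (fun h₀ => by
      have h1 := T3A_fib hBOX hSQA g q z K h₀ N hBN
      have h2 : (({h | h ∈ T3A_A g q z K ∧ ∀ i, 1 ≤ i → h.coeff i = h₀.coeff i}.ncard : ℕ) : ℝ) ≤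
          (((z + 1) * (2 * (2 * N / (K + 1) + 1)) : ℕ) : ℝ) := by exact_mod_cast h1
      refine h2.trans ?_
      push_cast
      have h3 : ((2 * N / (K + 1) : ℕ) : ℝ) ≤ 2 * (B + 1) / (K + 1) := by
        refine (Nat.cast_div_le (α := ℝ)).trans ?_
        push_cast
        gcongr
      gcongr)
  set A : ℝ := ((T3A_A g q z K).ncard : ℝ) with hA
  have hL := T3A_Lam g q
  -- the conclusion
  have h4 : C * ((z + 1) * (2 * (2 * (B + 1) / (K + 1) + 1))) ≤ η * s := by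
    have h5 : 2 * (B + 1) / ((K : ℝ) + 1) + 1 ≤ 2 * 2 ^ g * s / (K + 1) + 3 := by
      have h6 : 2 * (B + 1) / ((K : ℝ) + 1) = 2 * 2 ^ g * s / (K + 1) + 2 / (K + 1) := by
        rw [hBs]; ring
      have h7 : 2 / ((K : ℝ) + 1) ≤ 2 := by
        rw [div_le_iff₀ hK0]
        nlinarith [Nat.cast_nonneg (α := ℝ) K]
      rw [h6]; linarith
    have h8 : C * ((z + 1) * (2 * (2 * (B + 1) / (K + 1) + 1))) ≤
        C * ((z + 1) * (2 * (2 * 2 ^ g * s / (K + 1) + 3))) := by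
      gcongr
    refine h8.trans ?_
    have h9 : 8 * C * (z + 1) * 2 ^ g ≤ η * (K + 1) := by
      have := (div_lt_iff₀ hη).1 hK
      nlinarith
    have h10 : 12 * C * (z + 1) ≤ η * s := by
      have h11 := (div_lt_iff₀ hη).1 hR
      have h12 : (R : ℝ) * η ≤ s * η := mul_le_mul_of_nonneg_right hsg hη.le
      linarith
    have h13 : C * ((z + 1) * (2 * (2 * 2 ^ g * s / (K + 1)))) ≤ η * s / 2 := by
      have h14 : C * ((z + 1) * (2 * (2 * 2 ^ g * s / ((K : ℝ) + 1)))) =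
          (8 * C * (z + 1) * 2 ^ g) * s / (2 * (K + 1)) := by
        field_simp
        ring
      rw [h14, div_le_iff₀ (by positivity)]
      nlinarith [mul_le_mul_of_nonneg_right h9 hsg0.le]
    have h15 : C * ((z + 1) * (2 * 3)) ≤ η * s / 2 := by linarith
    calc C * ((z + 1) * (2 * (2 * 2 ^ g * s / (K + 1) + 3))) =
        C * ((z + 1) * (2 * (2 * 2 ^ g * s / (K + 1)))) + C * ((z + 1) * (2 * 3)) := by ring
      _ ≤ η * s / 2 + η * s / 2 := add_le_add h13 h15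
      _ = η * s := by ring
  have h16 : A * s ≤ (η * Lam g q) * s := by
    calc A * s ≤ C * ((z + 1) * (2 * (2 * (B + 1) / (K + 1) + 1))) * Lam g q := key
      _ ≤ (η * s) * Lam g q := mul_le_mul_of_nonneg_right h4 hL
      _ = (η * Lam g q) * s := by ring
  exact le_of_mul_le_mul_right h16 hsg0

end

end Pool.Agent.TJ2
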