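import Pool.Agent.TJ2.Stmts

/-!
# Theorem J: T3, large primes not dividing Yv (MP_6c4da4_ag)
-/

open Polynomial IntermediateField

namespace Pool.Agent.TJ2

/-- `Xv` and `Yv` for two monic polynomials of the same degree with the same coefficients of
positive index -/
theorem T3B_Yv {q : ℕ} {h h' : ℤ[X]} (hd : h.natDegree = h'.natDegree)
    (hc : ∀ i, 1 ≤ i → h.coeff i = h'.coeff i) : Yv q h = Yv q h' := by
  unfold Yv
  rw [hd]
  refine Finset.sum_congr rfl fun i _ => ?_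
  by_cases hi : Odd i
  · have h1 : 1 ≤ i := by
      rcases Nat.eq_zero_or_pos i with h0 | h0
      · subst h0; simp at hi
      · exact h0
    rw [if_pos hi, if_pos hi, hc i h1]
  · rw [if_neg hi, if_neg hi]

theorem T3B_Xv {q : ℕ} {h h' : ℤ[X]} (hd : h.natDegree = h'.natDegree)
    (hc : ∀ i, 1 ≤ i → h.coeff i = h'.coeff i) :
    Xv q h = Xv q h' + (h.coeff 0 - h'.coeff 0) := by
  unfold Xv
  rw [hd, Finset.sum_range_succ', Finset.sum_range_succ']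
  have h1 : ∀ i ∈ Finset.range h'.natDegree,
      (if Even (i + 1) then h.coeff (i + 1) * (4 * (q : ℤ)) ^ ((i + 1) / 2) else 0) =
      (if Even (i + 1) then h'.coeff (i + 1) * (4 * (q : ℤ)) ^ ((i + 1) / 2) else 0) := by
    intro i _
    rw [hc (i + 1) (by omega)]
  rw [Finset.sum_congr rfl h1]
  simp

/-- the bound for one fibre -/
theorem T3B_fib (hBOX : S_BOX) (hDELB : S_DELB) (hSQB : S_SQB) (g q z : ℕ) (hg : 1 ≤ g)
    (hq : IsPrimePow q) (hz : 2 ≤ z) (h₀ : ℤ[X]) :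
    ({h | h ∈ {h | h ∈ Ord g q ∧ ∃ l : ℕ, l.Prime ∧ z < l ∧ ¬ (l : ℤ) ∣ Yv q h ∧
      (l : ℤ) ^ 2 ∣ delta q h} ∧ ∀ i, 1 ≤ i → h.coeff i = h₀.coeff i}.ncard : ℝ) ≤
      4 * (2 * Real.sqrt q) ^ g / z +
        2 * (Nat.primeCounting ⌊(2 * Real.sqrt q) ^ g⌋₊ : ℝ) := by
  set B : Set ℤ[X] := {h | h ∈ {h | h ∈ Ord g q ∧ ∃ l : ℕ, l.Prime ∧ z < l ∧
    ¬ (l : ℤ) ∣ Yv q h ∧ (l : ℤ) ^ 2 ∣ delta q h} ∧ ∀ i, 1 ≤ i → h.coeff i = h₀.coeff i} with hB
  set c : ℝ := (2 * Real.sqrt q) ^ g with hc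
  have hc0 : 0 ≤ c := by positivity
  set N : ℕ := ⌊c⌋₊ with hN
  have hNc : (N : ℝ) ≤ c := Nat.floor_le hc0
  have hz0 : (0 : ℝ) < z := by
    have : (2 : ℝ) ≤ z := by exact_mod_cast hz
    linarith
  rcases Set.eq_empty_or_nonempty B with hBe | ⟨h₁, hh₁⟩
  · rw [hBe]
    simp only [Set.ncard_empty, Nat.cast_zero]
    positivity
  obtain ⟨⟨ho₁, -⟩, hc₁⟩ := hh₁
  set u : ℤ := Xv q h₁ - h₁.coeff 0 - N with hu
  set n : ℤ := 4 * q * Yv q h₁ ^ 2 with hn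
  have key : ∀ h ∈ B, h.natDegree = h₁.natDegree ∧ (∀ i, 1 ≤ i → h.coeff i = h₁.coeff i) := by
    intro h hh
    obtain ⟨⟨ho, -⟩, hcc⟩ := hh
    refine ⟨?_, fun i hi => by rw [hcc i hi, hc₁ i hi]⟩
    rw [ho.1.2.1, ho₁.1.2.1]
  let S : ℕ → Finset ℤ := fun l =>
    (Finset.Icc u (u + (2 * N : ℕ))).filter (fun x => (l : ℤ) ^ 2 ∣ x ^ 2 - n)
  let P : Finset ℕ := (Finset.Ioc z (max z N)).filter
    (fun l => l.Prime ∧ ¬ (l : ℤ) ∣ n ∧ l ≤ N)
  have hmap : ∀ h ∈ B, Xv q h ∈ ((P.biUnion S : Finset ℤ) : Set ℤ) := by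
    intro h hh
    obtain ⟨hd, hcc⟩ := key h hh
    obtain ⟨⟨ho, l, hl, hzl, hlY, hld⟩, -⟩ := hh
    have hY : Yv q h = Yv q h₁ := T3B_Yv hd hcc
    have hX : Xv q h = Xv q h₁ + (h.coeff 0 - h₁.coeff 0) := T3B_Xv hd hcc
    obtain ⟨hp, hpos, hle, -⟩ := hDELB g q h hg hq ho
    have hbox := (hBOX g q).2 h ho.1 0 (Nat.zero_le _)
    have hbox' : |(h.coeff 0 : ℝ)| ≤ c := by
      simpa [hc] using hbox
    have hc0N : |h.coeff 0| ≤ (N : ℤ) := by
      have h2 : ((h.coeff 0).natAbs : ℝ) ≤ c := by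
        rw [Nat.cast_natAbs]
        push_cast
        exact hbox'
      have h3 : (h.coeff 0).natAbs ≤ N := Nat.le_floor h2
      rw [← Int.natCast_natAbs]
      exact_mod_cast h3
    have hlN : l ≤ N := by
      apply Nat.le_floor
      have h4 : (l : ℤ) ^ 2 ≤ |delta q h| := by
        apply Int.le_of_dvd hpos
        rwa [dvd_abs]
      have h5 : (l : ℤ) ^ 2 ≤ (4 * (q : ℤ)) ^ g := h4.trans hle
      have h6 : (l : ℝ) ^ 2 ≤ (4 * (q : ℝ)) ^ g := by exact_mod_cast h5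
      have h7 : (4 * (q : ℝ)) ^ g = c ^ 2 := by
        have h7' : (2 * Real.sqrt q) ^ 2 = 4 * (q : ℝ) := by
          rw [mul_pow, Real.sq_sqrt (Nat.cast_nonneg q)]
          norm_num
        rw [hc, ← pow_mul, mul_comm g 2, pow_mul, h7']
      rw [h7] at h6
      exact le_of_sq_le_sq h6 hc0
    have hl2 : l ≠ 2 := by omega
    have hln : ¬ (l : ℤ) ∣ n := by
      intro hdv
      have hpr : Prime (l : ℤ) := Nat.prime_iff_prime_int.mp hl
      rw [hn] at hdv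
      rcases hpr.dvd_or_dvd hdv with h8 | h8
      · rcases hpr.dvd_or_dvd h8 with h9 | h9
        · have h10 : l ∣ 4 := by exact_mod_cast h9
          have h11 : l ∣ 2 ^ 2 := by norm_num; exact h10
          have h12 : l ∣ 2 := hl.dvd_of_dvd_pow h11
          exact hl2 ((Nat.prime_dvd_prime_iff_eq hl Nat.prime_two).mp h12)
        · have h10 : l ∣ q := by exact_mod_cast h9
          obtain ⟨p, k, hpp, hk, hpk⟩ := (isPrimePow_nat_iff q).mp hq
          have h13 : l ∣ p := by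
            rw [← hpk] at h10
            exact hl.dvd_of_dvd_pow h10
          have h14 : l = p := (Nat.prime_dvd_prime_iff_eq hl hpp).mp h13
          have h15 : q.minFac = l := by
            rw [← hpk, Nat.pow_minFac (by omega), hpp.minFac_eq, h14]
          apply hp
          rw [h15]
          exact (Dvd.intro_left _ (by rw [pow_two])).trans hld
      · have h9 : (l : ℤ) ∣ Yv q h₁ := hpr.dvd_of_dvd_pow h8
        rw [← hY] at h9
        exact hlY h9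
    rw [Finset.mem_coe, Finset.mem_biUnion]
    refine ⟨l, ?_, ?_⟩
    · simp only [P, Finset.mem_filter, Finset.mem_Ioc]
      exact ⟨⟨hzl, le_trans hlN (le_max_right _ _)⟩, hl, hln, hlN⟩
    · simp only [S, Finset.mem_filter, Finset.mem_Icc]
      have habs := abs_le.mp hc0N
      refine ⟨⟨?_, ?_⟩, ?_⟩
      · rw [hu, hX]; linarith [habs.1]
      · rw [hu, hX]; push_cast; linarith [habs.2]
      · have h16 : delta q h = Xv q h ^ 2 - n := by
          unfold delta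
          rw [hY, hn]
        rwa [← h16]
  have hinj : Set.InjOn (Xv q) B := by
    intro h hh h' hh' he
    obtain ⟨hd, hcc⟩ := key h hh
    obtain ⟨hd', hcc'⟩ := key h' hh'
    have h1 := T3B_Xv (q := q) hd hcc
    have h2 := T3B_Xv (q := q) hd' hcc'
    have h3 : h.coeff 0 = h'.coeff 0 := by
      have : Xv q h = Xv q h' := he
      linarith
    ext i
    rcases Nat.eq_zero_or_pos i with hi | hi
    · subst hi; exact h3
    · rw [hcc i hi, hcc' i hi]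
  have hcard : B.ncard ≤ (P.biUnion S).card := by
    have h1 := Set.ncard_le_ncard_of_injOn (Xv q) hmap hinj (Finset.finite_toSet _)
    rwa [Set.ncard_coe_finset] at h1
  have hS : ∀ l ∈ P, (S l).card ≤ 2 * ((2 * N) / l ^ 2 + 1) := by
    intro l hl
    simp only [P, Finset.mem_filter, Finset.mem_Ioc] at hl
    obtain ⟨⟨hzl, -⟩, hlp, hln, -⟩ := hl
    have h1 := hSQB l n u (2 * N) hlp (by omega) hln
    have h2 : {x : ℤ | u ≤ x ∧ x ≤ u + ((2 * N : ℕ) : ℤ) ∧ (l : ℤ) ^ 2 ∣ x ^ 2 - n} =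
        ((S l : Finset ℤ) : Set ℤ) := by
      ext x
      simp only [S, Set.mem_ofPred_eq, Finset.coe_filter, Finset.mem_Icc]
      tauto
    rw [h2, Set.ncard_coe_finset] at h1
    exact h1
  have hsum : (B.ncard : ℝ) ≤ ∑ l ∈ P, (2 * ((2 * N : ℝ) * ((l : ℝ) ^ 2)⁻¹ + 1)) := by
    have h1 : B.ncard ≤ ∑ l ∈ P, 2 * ((2 * N) / l ^ 2 + 1) :=
      hcard.trans (Finset.card_biUnion_le.trans (Finset.sum_le_sum hS))
    have h2 : (B.ncard : ℝ) ≤ ((∑ l ∈ P, 2 * ((2 * N) / l ^ 2 + 1) : ℕ) : ℝ) := by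
      exact_mod_cast h1
    refine h2.trans ?_
    push_cast
    refine Finset.sum_le_sum fun l _ => ?_
    have h3 : (((2 * N) / l ^ 2 : ℕ) : ℝ) ≤ ((2 * N : ℕ) : ℝ) / ((l ^ 2 : ℕ) : ℝ) :=
      Nat.cast_div_le
    push_cast at h3
    rw [div_eq_mul_inv] at h3
    linarith
  have hPc : (P.card : ℝ) ≤ (Nat.primeCounting N : ℝ) := by
    have h1 : P ⊆ (Finset.range (N + 1)).filter Nat.Prime := by
      intro l hl
      simp only [P, Finset.mem_filter, Finset.mem_Ioc] at hl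
      simp only [Finset.mem_filter, Finset.mem_range]
      exact ⟨by omega, hl.2.1⟩
    have h2 : Nat.primeCounting N = ((Finset.range (N + 1)).filter Nat.Prime).card := by
      unfold Nat.primeCounting Nat.primeCounting'
      rw [Nat.count_eq_card_filter_range]
    rw [h2]
    exact_mod_cast Finset.card_le_card h1
  have hPs : ∑ l ∈ P, ((l : ℝ) ^ 2)⁻¹ ≤ (z : ℝ)⁻¹ := by
    have h1 : ∑ l ∈ P, ((l : ℝ) ^ 2)⁻¹ ≤ ∑ l ∈ Finset.Ioc z (max z N), ((l : ℝ) ^ 2)⁻¹ := by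
      refine Finset.sum_le_sum_of_subset_of_nonneg (Finset.filter_subset _ _) ?_
      intro i _ _
      positivity
    have h2 := sum_Ioc_inv_sq_le_sub (α := ℝ) (k := z) (n := max z N) (by omega) (le_max_left _ _)
    have h3 : (0 : ℝ) ≤ ((max z N : ℕ) : ℝ)⁻¹ := by positivity
    linarith
  have hfin : ∑ l ∈ P, (2 * ((2 * N : ℝ) * ((l : ℝ) ^ 2)⁻¹ + 1)) =
      4 * N * ∑ l ∈ P, ((l : ℝ) ^ 2)⁻¹ + 2 * P.card := by
    rw [Finset.mul_sum]
    have : (2 * (P.card : ℝ)) = ∑ l ∈ P, (2 : ℝ) := by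
      rw [Finset.sum_const, nsmul_eq_mul, mul_comm]
    rw [this, ← Finset.sum_add_distrib]
    refine Finset.sum_congr rfl fun l _ => ?_
    ring
  have h17 : 4 * (N : ℝ) * ∑ l ∈ P, ((l : ℝ) ^ 2)⁻¹ ≤ 4 * c / z := by
    have h18 : 4 * (N : ℝ) * ∑ l ∈ P, ((l : ℝ) ^ 2)⁻¹ ≤ 4 * N * (z : ℝ)⁻¹ :=
      mul_le_mul_of_nonneg_left hPs (by positivity)
    have h19 : 4 * (N : ℝ) * (z : ℝ)⁻¹ ≤ 4 * c * (z : ℝ)⁻¹ :=
      mul_le_mul_of_nonneg_right (by linarith) (by positivity)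
    rw [div_eq_mul_inv]
    linarith
  rw [hfin] at hsum
  linarith

/-- T3, large primes not dividing `Yv` -/
theorem t_T3B (hFIBA : S_FIBA) (hBOX : S_BOX) (hDELB : S_DELB) (hSQB : S_SQB) (hPI : S_PI) :
    S_T3B := by
  intro g hg η hη
  obtain ⟨K, hK, hF⟩ := hFIBA g hg
  set e : ℝ := η / K with he
  have he0 : 0 < e := div_pos hη hK
  set G : ℝ := 2 ^ g with hG
  have hG0 : 0 < G := by positivity
  obtain ⟨x₀, hx₀⟩ := hPI (e / (4 * G)) (by positivity)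
  refine ⟨⌈8 * G / e⌉₊ + 2, ⌈(max x₀ 1) ^ 2⌉₊, fun q hq hpp => ?_⟩
  set z : ℕ := ⌈8 * G / e⌉₊ + 2 with hz
  have hq1 : (max x₀ 1) ^ 2 ≤ (q : ℝ) := (Nat.le_ceil _).trans (by exact_mod_cast hq)
  have hmx : (0 : ℝ) ≤ max x₀ 1 := le_trans zero_le_one (le_max_right _ _)
  have hs : max x₀ 1 ≤ Real.sqrt q := Real.le_sqrt_of_sq_le hq1
  have hs1 : 1 ≤ Real.sqrt q := (le_max_right _ _).trans hs
  have hs0 : x₀ ≤ Real.sqrt q := (le_max_left _ _).trans hs
  have hqn : 1 ≤ q := hpp.one_lt.le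
  set r : ℝ := Real.sqrt q ^ g with hr
  have hr0 : 0 < r := by positivity
  have hcr : (2 * Real.sqrt q) ^ g = G * r := by rw [mul_pow]
  have hxc : x₀ ≤ (2 * Real.sqrt q) ^ g := by
    have h1 : Real.sqrt q ≤ r := by
      calc Real.sqrt q = Real.sqrt q ^ 1 := (pow_one _).symm
        _ ≤ Real.sqrt q ^ g := pow_le_pow_right₀ hs1 hg
    have h2 : r ≤ G * r := by
      have : 1 ≤ G := one_le_pow₀ (by norm_num)
      nlinarith
    rw [hcr]
    linarith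
  have hpi := hx₀ _ hxc
  have hzz : 8 * G / e ≤ (z : ℝ) := by
    rw [hz]
    push_cast
    have := Nat.le_ceil (8 * G / e)
    linarith
  have hz0 : (0 : ℝ) < z := by
    have : 0 < 8 * G / e := by positivity
    linarith
  have hmain : ∀ h₀ : ℤ[X], ({h | h ∈ {h | h ∈ Ord g q ∧ ∃ l : ℕ, l.Prime ∧ z < l ∧
      ¬ (l : ℤ) ∣ Yv q h ∧ (l : ℤ) ^ 2 ∣ delta q h} ∧
      ∀ i, 1 ≤ i → h.coeff i = h₀.coeff i}.ncard : ℝ) ≤ e * r := by
    intro h₀
    refine (T3B_fib hBOX hDELB hSQB g q z hg hpp (by omega) h₀).trans ?_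
    have h1 : 4 * (2 * Real.sqrt q) ^ g / z ≤ e * r / 2 := by
      rw [hcr, div_le_iff₀ hz0]
      have h2 : 8 * G ≤ e * z := by
        rw [div_le_iff₀ he0] at hzz
        linarith
      nlinarith
    have h3 : 2 * (Nat.primeCounting ⌊(2 * Real.sqrt q) ^ g⌋₊ : ℝ) ≤ e * r / 2 := by
      have h4 : e / (4 * G) * (2 * Real.sqrt q) ^ g = e * r / 4 := by
        rw [hcr]
        field_simp
      rw [h4] at hpi
      linarith
    linarith
  have hA := hF q {h | h ∈ Ord g q ∧ ∃ l : ℕ, l.Prime ∧ z < l ∧ ¬ (l : ℤ) ∣ Yv q h ∧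
      (l : ℤ) ^ 2 ∣ delta q h} (e * r) hqn (fun h hh => hh.1.1) hmain
  have h5 : K * (e * r) * Lam g q = η * Lam g q * r := by
    rw [he]
    field_simp
  rw [h5] at hA
  exact le_of_mul_le_mul_right hA hr0

end Pool.Agent.TJ2
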