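import Pool.Agent.TJ2.Stmts

/-!
# T3, large primes dividing `Yv`
-/

open Polynomial

namespace Pool.Agent.TJ2

noncomputable section

/-- the integers of absolute value at most `a` in a residue class -/
def T3C_ap (a : ℝ) (c : ℤ) (l : ℕ) : Finset ℤ :=
  (Finset.Ioc (-⌊a⌋ - 1) ⌊a⌋).filter fun x => x ≡ -c [ZMOD (l : ℤ)]

lemma T3C_mem_ap {a : ℝ} {c : ℤ} {l : ℕ} {x : ℤ} (hx : |(x : ℝ)| ≤ a) (hd : (l : ℤ) ∣ c + x) :
    x ∈ T3C_ap a c l := by
  unfold T3C_ap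
  have h := abs_le.mp hx
  have h1 : x ≤ ⌊a⌋ := Int.le_floor.mpr h.2
  have h2 : -x ≤ ⌊a⌋ := Int.le_floor.mpr (by push_cast; linarith [h.1])
  rw [Finset.mem_filter, Finset.mem_Ioc]
  refine ⟨⟨by omega, h1⟩, ?_⟩
  rw [Int.modEq_iff_dvd]
  have : -c - x = -(c + x) := by ring
  rw [this]
  exact (dvd_neg).mpr hd

lemma T3C_card_ap {a : ℝ} (ha : 0 ≤ a) (c : ℤ) {l : ℕ} (hl : 0 < l) :
    ((T3C_ap a c l).card : ℝ) ≤ 2 * a / l + 2 := by
  have hl' : (0 : ℤ) < l := by exact_mod_cast hl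
  have key := Int.Ioc_filter_modEq_card (-⌊a⌋ - 1) ⌊a⌋ hl' (-c)
  have hfl : (0 : ℤ) ≤ ⌊a⌋ := Int.floor_nonneg.mpr ha
  have hcast : ((T3C_ap a c l).card : ℤ) = max (⌊((⌊a⌋ : ℤ) - ((-c : ℤ) : ℚ)) / ((l : ℤ) : ℚ)⌋ -
      ⌊(((-⌊a⌋ - 1 : ℤ) : ℚ) - ((-c : ℤ) : ℚ)) / ((l : ℤ) : ℚ)⌋) 0 := by
    unfold T3C_ap
    exact key
  have hlq : (0 : ℚ) < ((l : ℤ) : ℚ) := by exact_mod_cast hl
  have hl1 : (1 : ℚ) ≤ ((l : ℤ) : ℚ) := by exact_mod_cast hl
  have h1 := Int.floor_le (((⌊a⌋ : ℤ) - ((-c : ℤ) : ℚ)) / ((l : ℤ) : ℚ))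
  have h2 := Int.sub_one_lt_floor ((((-⌊a⌋ - 1 : ℤ) : ℚ) - ((-c : ℤ) : ℚ)) / ((l : ℤ) : ℚ))
  have h3 : (((T3C_ap a c l).card : ℤ) : ℚ) ≤ 2 * (⌊a⌋ : ℚ) / ((l : ℤ) : ℚ) + 2 := by
    rw [hcast, Int.cast_max, Int.cast_sub]
    apply max_le
    · have h4 : ((⌊a⌋ : ℤ) - ((-c : ℤ) : ℚ)) / ((l : ℤ) : ℚ) -
          (((-⌊a⌋ - 1 : ℤ) : ℚ) - ((-c : ℤ) : ℚ)) / ((l : ℤ) : ℚ) =
          2 * (⌊a⌋ : ℚ) / ((l : ℤ) : ℚ) + 1 / ((l : ℤ) : ℚ) := by
        push_cast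
        field_simp
        ring
      have h5 : 1 / ((l : ℤ) : ℚ) ≤ 1 := by
        rw [div_le_one hlq]
        exact hl1
      linarith
    · have : (0 : ℚ) ≤ 2 * (⌊a⌋ : ℚ) / ((l : ℤ) : ℚ) := by positivity
      rw [Int.cast_zero]
      linarith
  have h4 : ((T3C_ap a c l).card : ℝ) ≤ 2 * (⌊a⌋ : ℝ) / l + 2 := by
    have : ((((T3C_ap a c l).card : ℤ) : ℚ) : ℝ) ≤
        ((2 * (⌊a⌋ : ℚ) / ((l : ℤ) : ℚ) + 2 : ℚ) : ℝ) := by exact_mod_cast h3
    push_cast at this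
    exact this
  have h5 : 2 * (⌊a⌋ : ℝ) / l ≤ 2 * a / l := by
    have := Int.floor_le a
    gcongr
  linarith

/-- the pairs of last coefficients -/
def T3C_W (a₀ a₁ : ℝ) (A₀ B₀ : ℤ) (z N : ℕ) : Finset (ℤ × ℤ) :=
  (T3C_ap a₀ 0 1 ×ˢ {-B₀}) ∪
    (Finset.Ioc z N).biUnion fun l => T3C_ap a₀ A₀ l ×ˢ T3C_ap a₁ B₀ l

lemma T3C_card_W {a₀ a₁ R : ℝ} (h0 : 0 ≤ a₀) (h1 : 0 ≤ a₁) (hR : 1 ≤ R) (A₀ B₀ : ℤ) {z : ℕ}
    (hz : 0 < z) : ((T3C_W a₀ a₁ A₀ B₀ z ⌊R⌋₊).card : ℝ) ≤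
      (2 * a₀ + 2) + 4 * a₀ * a₁ / z + 4 * (a₀ + a₁) * (1 + Real.log R) + 4 * R := by
  set N := ⌊R⌋₊ with hN
  have hNR : (N : ℝ) ≤ R := Nat.floor_le (by linarith)
  have hN1 : 1 ≤ N := Nat.le_floor (by simpa using hR)
  have c1 : ((T3C_ap a₀ 0 1 ×ˢ ({-B₀} : Finset ℤ)).card : ℝ) ≤ 2 * a₀ + 2 := by
    rw [Finset.card_product, Finset.card_singleton, mul_one]
    have := T3C_card_ap h0 0 one_pos
    simpa using this
  have c2 : (((Finset.Ioc z N).biUnion fun l => T3C_ap a₀ A₀ l ×ˢ T3C_ap a₁ B₀ l).card : ℝ) ≤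
      ∑ l ∈ Finset.Ioc z N, (4 * a₀ * a₁ * ((l : ℝ) ^ 2)⁻¹ + 4 * (a₀ + a₁) * (l : ℝ)⁻¹ + 4) := by
    have h := Finset.card_biUnion_le (s := Finset.Ioc z N)
      (t := fun l => T3C_ap a₀ A₀ l ×ˢ T3C_ap a₁ B₀ l)
    have h' : (((Finset.Ioc z N).biUnion fun l => T3C_ap a₀ A₀ l ×ˢ T3C_ap a₁ B₀ l).card : ℝ) ≤
        ((∑ l ∈ Finset.Ioc z N, (T3C_ap a₀ A₀ l ×ˢ T3C_ap a₁ B₀ l).card : ℕ) : ℝ) := by
      exact_mod_cast h
    refine h'.trans ?_
    push_cast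
    apply Finset.sum_le_sum
    intro l hl
    have hl0 : 0 < l := lt_of_le_of_lt (Nat.zero_le _) (Finset.mem_Ioc.mp hl).1
    have hl' : (0 : ℝ) < l := by exact_mod_cast hl0
    rw [Finset.card_product]
    push_cast
    calc ((T3C_ap a₀ A₀ l).card : ℝ) * ((T3C_ap a₁ B₀ l).card : ℝ)
        ≤ (2 * a₀ / l + 2) * (2 * a₁ / l + 2) := by
          apply mul_le_mul (T3C_card_ap h0 _ hl0) (T3C_card_ap h1 _ hl0) (by positivity)
            (by positivity)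
      _ = 4 * a₀ * a₁ * ((l : ℝ) ^ 2)⁻¹ + 4 * (a₀ + a₁) * (l : ℝ)⁻¹ + 4 := by
          field_simp
          ring
  have c3 : ∑ l ∈ Finset.Ioc z N, ((l : ℝ) ^ 2)⁻¹ ≤ 1 / (z : ℝ) := by
    rcases le_or_gt z N with h | h
    · have := sum_Ioc_inv_sq_le_sub (α := ℝ) hz.ne' h
      have h2 : (0 : ℝ) ≤ (N : ℝ)⁻¹ := by positivity
      rw [one_div]
      linarith
    · rw [Finset.Ioc_eq_empty (by omega), Finset.sum_empty]
      positivity
  have c4 : ∑ l ∈ Finset.Ioc z N, (l : ℝ)⁻¹ ≤ 1 + Real.log R := by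
    have h2 : ∑ l ∈ Finset.Ioc z N, (l : ℝ)⁻¹ ≤ ∑ l ∈ Finset.Ioc 0 N, (l : ℝ)⁻¹ := by
      apply Finset.sum_le_sum_of_subset_of_nonneg
      · intro l hl
        rw [Finset.mem_Ioc] at *
        exact ⟨by omega, hl.2⟩
      · intro l _ _
        positivity
    have h3 : ∑ l ∈ Finset.Ioc 0 N, (l : ℝ)⁻¹ = ((harmonic N : ℚ) : ℝ) := by
      unfold harmonic
      push_cast
      rw [Finset.sum_bij' (fun l _ => l - 1) (fun l _ => l + 1)]
      · intro l hl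
        rw [Finset.mem_Ioc] at hl
        rw [Finset.mem_range]
        omega
      · intro l hl
        rw [Finset.mem_range] at hl
        rw [Finset.mem_Ioc]
        omega
      · intro l hl
        rw [Finset.mem_Ioc] at hl
        omega
      · intro l hl
        omega
      · intro l hl
        rw [Finset.mem_Ioc] at hl
        congr 1
        have : l = (l - 1) + 1 := by omega
        exact_mod_cast this
    have h4 := harmonic_le_one_add_log N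
    have h5 : Real.log N ≤ Real.log R := by
      apply Real.log_le_log _ hNR
      exact_mod_cast hN1
    linarith
  have c5 : ((Finset.Ioc z N).card : ℝ) ≤ R := by
    rw [Nat.card_Ioc]
    refine le_trans ?_ hNR
    exact_mod_cast Nat.sub_le _ _
  have c6 : ((T3C_W a₀ a₁ A₀ B₀ z N).card : ℝ) ≤
      ((T3C_ap a₀ 0 1 ×ˢ ({-B₀} : Finset ℤ)).card : ℝ) +
      (((Finset.Ioc z N).biUnion fun l => T3C_ap a₀ A₀ l ×ˢ T3C_ap a₁ B₀ l).card : ℝ) := by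
    unfold T3C_W
    exact_mod_cast Finset.card_union_le _ _
  have c7 : ∑ l ∈ Finset.Ioc z N, (4 * a₀ * a₁ * ((l : ℝ) ^ 2)⁻¹ + 4 * (a₀ + a₁) * (l : ℝ)⁻¹ + 4) =
      4 * a₀ * a₁ * ∑ l ∈ Finset.Ioc z N, ((l : ℝ) ^ 2)⁻¹ +
      4 * (a₀ + a₁) * ∑ l ∈ Finset.Ioc z N, (l : ℝ)⁻¹ + 4 * ((Finset.Ioc z N).card : ℝ) := by
    rw [Finset.sum_add_distrib, Finset.sum_add_distrib, ← Finset.mul_sum, ← Finset.mul_sum,
      Finset.sum_const, nsmul_eq_mul]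
    ring
  have c8 : 4 * a₀ * a₁ * ∑ l ∈ Finset.Ioc z N, ((l : ℝ) ^ 2)⁻¹ ≤ 4 * a₀ * a₁ / z := by
    have : 4 * a₀ * a₁ / z = 4 * a₀ * a₁ * (1 / (z : ℝ)) := by ring
    rw [this]
    apply mul_le_mul_of_nonneg_left c3
    positivity
  have c9 : 4 * (a₀ + a₁) * ∑ l ∈ Finset.Ioc z N, (l : ℝ)⁻¹ ≤ 4 * (a₀ + a₁) * (1 + Real.log R) := by
    apply mul_le_mul_of_nonneg_left c4
    positivity
  linarith

/-- the contribution of the higher coefficients to `Xv` -/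
def T3C_A (q g : ℕ) (h₀ : ℤ[X]) : ℤ :=
  ∑ i ∈ Finset.range g, if Even (i + 2) then h₀.coeff (i + 2) * (4 * (q : ℤ)) ^ ((i + 2) / 2) else 0

/-- the contribution of the higher coefficients to `Yv` -/
def T3C_B (q g : ℕ) (h₀ : ℤ[X]) : ℤ :=
  ∑ i ∈ Finset.range g, if Odd (i + 2) then h₀.coeff (i + 2) * (4 * (q : ℤ)) ^ ((i + 2) / 2) else 0

lemma T3C_Xv (q k : ℕ) (h h₀ : ℤ[X]) (hk : h.natDegree = k + 2)
    (hc : ∀ i, 2 ≤ i → h.coeff i = h₀.coeff i) :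
    Xv q h = T3C_A q (k + 1) h₀ + h.coeff 0 := by
  unfold Xv T3C_A
  rw [hk, Finset.sum_range_succ', Finset.sum_range_succ']
  have e : ∀ i ∈ Finset.range (k + 1), (if Even (i + 1 + 1) then
      h.coeff (i + 1 + 1) * (4 * (q : ℤ)) ^ ((i + 1 + 1) / 2) else 0) =
      if Even (i + 2) then h₀.coeff (i + 2) * (4 * (q : ℤ)) ^ ((i + 2) / 2) else 0 := by
    intro i _
    rw [hc (i + 1 + 1) (by omega)]
  rw [Finset.sum_congr rfl e]
  simp

lemma T3C_Yv (q k : ℕ) (h h₀ : ℤ[X]) (hk : h.natDegree = k + 2)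
    (hc : ∀ i, 2 ≤ i → h.coeff i = h₀.coeff i) :
    Yv q h = T3C_B q (k + 1) h₀ + h.coeff 1 := by
  unfold Yv T3C_B
  rw [hk, Finset.sum_range_succ', Finset.sum_range_succ']
  have e : ∀ i ∈ Finset.range (k + 1), (if Odd (i + 1 + 1) then
      h.coeff (i + 1 + 1) * (4 * (q : ℤ)) ^ ((i + 1 + 1) / 2) else 0) =
      if Odd (i + 2) then h₀.coeff (i + 2) * (4 * (q : ℤ)) ^ ((i + 2) / 2) else 0 := by
    intro i _
    rw [hc (i + 1 + 1) (by omega)]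
  rw [Finset.sum_congr rfl e]
  simp

/-- the exceptional set -/
def T3C_S (g q z : ℕ) : Set ℤ[X] :=
  {h | h ∈ Ord g q ∧ ∃ l : ℕ, l.Prime ∧ z < l ∧ (l : ℤ) ∣ Yv q h ∧ (l : ℤ) ^ 2 ∣ delta q h}

/-- the fibres -/
lemma T3C_fib (hBOX : S_BOX) (hDELB : S_DELB) (k q z : ℕ) (hq : IsPrimePow q) (hz : 0 < z)
    (h₀ : ℤ[X]) :
    ({h | h ∈ T3C_S (k + 2) q z ∧ ∀ i, 2 ≤ i → h.coeff i = h₀.coeff i}.ncard : ℝ) ≤
      (2 * (2 * Real.sqrt q) ^ (k + 2) + 2) +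
        4 * (2 * Real.sqrt q) ^ (k + 2) * ((k + 2) * (2 * Real.sqrt q) ^ (k + 1)) / z +
        4 * ((2 * Real.sqrt q) ^ (k + 2) + (k + 2) * (2 * Real.sqrt q) ^ (k + 1)) *
          (1 + Real.log (2 * 4 ^ (k + 1) * Real.sqrt q ^ (k + 1))) +
        4 * (2 * 4 ^ (k + 1) * Real.sqrt q ^ (k + 1)) := by
  have hq1 : (1 : ℝ) ≤ Real.sqrt q := by
    rw [Real.one_le_sqrt]
    exact_mod_cast hq.one_lt.le
  set a₀ := (2 * Real.sqrt q) ^ (k + 2) with ha₀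
  set a₁ := (k + 2 : ℝ) * (2 * Real.sqrt q) ^ (k + 1) with ha₁
  set R := 2 * 4 ^ (k + 1) * Real.sqrt q ^ (k + 1) with hRdef
  have hR : 1 ≤ R := by
    have h1 : (1 : ℝ) ≤ Real.sqrt q ^ (k + 1) := one_le_pow₀ hq1
    have h2 : (1 : ℝ) ≤ 4 ^ (k + 1) := one_le_pow₀ (by norm_num)
    rw [hRdef]
    nlinarith
  have hle := T3C_card_W (a₀ := a₀) (a₁ := a₁) (R := R) (by positivity) (by positivity) hR
    (T3C_A q (k + 1) h₀) (T3C_B q (k + 1) h₀) hz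
  refine le_trans ?_ hle
  have hn : {h | h ∈ T3C_S (k + 2) q z ∧ ∀ i, 2 ≤ i → h.coeff i = h₀.coeff i}.ncard ≤
      ((T3C_W a₀ a₁ (T3C_A q (k + 1) h₀) (T3C_B q (k + 1) h₀) z ⌊R⌋₊ : Finset (ℤ × ℤ)) :
        Set (ℤ × ℤ)).ncard := by
    apply Set.ncard_le_ncard_of_injOn (fun h : ℤ[X] => (h.coeff 0, h.coeff 1))
    · rintro h ⟨⟨hord, l, hl, hzl, hlY, hld⟩, hc⟩
      have hRW : h ∈ RW (k + 2) q := hord.1
      have hdeg : h.natDegree = k + 2 := hRW.2.1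
      have hX := T3C_Xv q k h h₀ hdeg hc
      have hY := T3C_Yv q k h h₀ hdeg hc
      have b0 : |(h.coeff 0 : ℝ)| ≤ a₀ := by
        have := (hBOX (k + 2) q).2 h hRW 0 (by omega)
        simpa using this
      have b1 : |(h.coeff 1 : ℝ)| ≤ a₁ := by
        have := (hBOX (k + 2) q).2 h hRW 1 (by omega)
        rw [Nat.choose_one_right] at this
        push_cast at this
        exact this
      have bY : |(Yv q h : ℝ)| ≤ R := by
        have := (hDELB (k + 2) q h (by omega) hq hord).2.2.2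
        exact this
      have hlX : (l : ℤ) ∣ Xv q h := by
        rw [← Int.pow_dvd_pow_iff (two_ne_zero)]
        have e : Xv q h ^ 2 = delta q h + 4 * q * Yv q h ^ 2 := by
          unfold delta
          ring
        rw [e]
        exact dvd_add hld (dvd_mul_of_dvd_right (pow_dvd_pow_of_dvd hlY 2) _)
      simp only [Finset.mem_coe]
      unfold T3C_W
      rw [Finset.mem_union]
      by_cases hY0 : Yv q h = 0
      · left
        rw [Finset.mem_product]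
        refine ⟨T3C_mem_ap b0 (by simp), ?_⟩
        rw [Finset.mem_singleton]
        simp only
        linarith
      · right
        rw [Finset.mem_biUnion]
        refine ⟨l, ?_, ?_⟩
        · rw [Finset.mem_Ioc]
          refine ⟨hzl, ?_⟩
          apply Nat.le_floor
          refine le_trans ?_ bY
          have h3 : (l : ℤ) ≤ |Yv q h| := by
            have := Int.le_of_dvd (abs_pos.mpr hY0) ((dvd_abs _ _).mpr hlY)
            exact this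
          have h4 : ((l : ℤ) : ℝ) ≤ ((|Yv q h| : ℤ) : ℝ) := by exact_mod_cast h3
          rw [Int.cast_abs] at h4
          exact_mod_cast h4
        · rw [Finset.mem_product]
          refine ⟨T3C_mem_ap b0 ?_, T3C_mem_ap b1 ?_⟩
          · rw [← hX]
            exact hlX
          · rw [← hY]
            exact hlY
    · rintro h ⟨_, hc⟩ h' ⟨_, hc'⟩ heq
      simp only [Prod.mk.injEq] at heq
      ext i
      rcases Nat.lt_or_ge i 2 with hi | hi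
      · interval_cases i
        · exact heq.1
        · exact heq.2
      · rw [hc i hi, hc' i hi]
  rw [Set.ncard_coe_finset] at hn
  exact_mod_cast hn

/-- the logarithm is small -/
lemma T3C_log (k : ℕ) (C η : ℝ) (hC : 0 ≤ C) (hη : 0 < η) :
    ∃ q₀ : ℕ, 1 ≤ q₀ ∧ ∀ q : ℕ, q₀ ≤ q →
      C * (1 + Real.log (2 * 4 ^ (k + 1) * Real.sqrt q ^ (k + 1))) ≤ η * Real.sqrt q := by
  set L := Real.log (2 * 4 ^ (k + 1)) with hL
  have hL0 : 0 ≤ L := by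
    apply Real.log_nonneg
    have : (1 : ℝ) ≤ 4 ^ (k + 1) := one_le_pow₀ (by norm_num)
    linarith
  have ht : Filter.Tendsto (fun q : ℕ => Real.sqrt (Real.sqrt (q : ℝ))) Filter.atTop
      Filter.atTop :=
    Real.tendsto_sqrt_atTop.comp (Real.tendsto_sqrt_atTop.comp tendsto_natCast_atTop_atTop)
  have hev := ht.eventually_ge_atTop (max 1 (C * (1 + L + 2 * (k + 1)) / η))
  obtain ⟨q₁, hq₁⟩ := Filter.eventually_atTop.mp hev
  refine ⟨max 1 q₁, le_max_left _ _, fun q hq => ?_⟩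
  have h1 := hq₁ q (le_trans (le_max_right _ _) hq)
  set t := Real.sqrt (Real.sqrt (q : ℝ)) with htdef
  have ht1 : 1 ≤ t := le_trans (le_max_left _ _) h1
  have ht2 : C * (1 + L + 2 * (k + 1)) ≤ η * t := by
    have := le_trans (le_max_right _ _) h1
    rw [div_le_iff₀ hη] at this
    linarith
  have hs : Real.sqrt (q : ℝ) = t ^ 2 := by
    rw [htdef, Real.sq_sqrt (Real.sqrt_nonneg _)]
  have htp : 0 < t := by linarith
  have hlog : Real.log (2 * 4 ^ (k + 1) * Real.sqrt q ^ (k + 1)) =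
      L + (k + 1) * (2 * Real.log t) := by
    rw [hs, Real.log_mul (by positivity) (by positivity), Real.log_pow, Real.log_pow]
    push_cast
    ring
  have hlt : Real.log t ≤ t := by
    have := Real.log_le_sub_one_of_pos htp
    linarith
  have h5 : 1 + Real.log (2 * 4 ^ (k + 1) * Real.sqrt q ^ (k + 1)) ≤
      (1 + L + 2 * (k + 1)) * t := by
    rw [hlog]
    have h6 : (1 + L) * 1 ≤ (1 + L) * t := mul_le_mul_of_nonneg_left ht1 (by linarith)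
    have h7 : ((k : ℝ) + 1) * (2 * Real.log t) ≤ ((k : ℝ) + 1) * (2 * t) := by
      apply mul_le_mul_of_nonneg_left _ (by positivity)
      linarith
    nlinarith
  calc C * (1 + Real.log (2 * 4 ^ (k + 1) * Real.sqrt q ^ (k + 1)))
      ≤ C * ((1 + L + 2 * (k + 1)) * t) := mul_le_mul_of_nonneg_left h5 hC
    _ = (C * (1 + L + 2 * (k + 1))) * t := by ring
    _ ≤ (η * t) * t := mul_le_mul_of_nonneg_right ht2 htp.le
    _ = η * Real.sqrt q := by rw [hs]; ring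

/-- the size of the fibres -/
lemma T3C_bound (k : ℕ) (s lr z : ℝ) (hs1 : 1 ≤ s) (hlR : 0 ≤ lr) :
    (2 * (2 * s) ^ (k + 2) + 2) +
        4 * (2 * s) ^ (k + 2) * ((k + 2) * (2 * s) ^ (k + 1)) / z +
        4 * ((2 * s) ^ (k + 2) + (k + 2) * (2 * s) ^ (k + 1)) * (1 + lr) +
        4 * (2 * 4 ^ (k + 1) * s ^ (k + 1)) ≤
      (4 * 2 ^ (k + 2) * ((k + 2) * 2 ^ (k + 1))) / z * (s ^ (k + 2) * s ^ (k + 1)) +
        ((2 * 2 ^ (k + 2) + 2) + 4 * (2 ^ (k + 2) + (k + 2) * 2 ^ (k + 1)) +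
          4 * (2 * 4 ^ (k + 1))) * (1 + lr) * s ^ (k + 2) := by
  have hsp : 0 < s := by linarith
  have hss : s ^ (k + 1) ≤ s ^ (k + 2) := pow_le_pow_right₀ hs1 (by omega)
  have hone : (1 : ℝ) ≤ s ^ (k + 2) := one_le_pow₀ hs1
  have e1 : (2 * s) ^ (k + 2) = 2 ^ (k + 2) * s ^ (k + 2) := mul_pow _ _ _
  have e2 : (2 * s) ^ (k + 1) = 2 ^ (k + 1) * s ^ (k + 1) := mul_pow _ _ _
  have f1 : 2 * (2 * s) ^ (k + 2) + 2 ≤
      (2 * 2 ^ (k + 2) + 2) * (1 + lr) * s ^ (k + 2) := by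
    rw [e1]
    have g1 : 2 * (2 ^ (k + 2) * s ^ (k + 2)) + 2 ≤ (2 * 2 ^ (k + 2) + 2) * s ^ (k + 2) := by
      nlinarith
    have g2 : (2 * 2 ^ (k + 2) + 2 : ℝ) * s ^ (k + 2) * 1 ≤
        (2 * 2 ^ (k + 2) + 2) * s ^ (k + 2) * (1 + lr) := by
      apply mul_le_mul_of_nonneg_left _ (by positivity)
      linarith
    calc _ ≤ _ := g1
      _ = (2 * 2 ^ (k + 2) + 2 : ℝ) * s ^ (k + 2) * 1 := by ring
      _ ≤ _ := g2
      _ = _ := by ring
  have f2 : 4 * (2 * s) ^ (k + 2) * ((k + 2) * (2 * s) ^ (k + 1)) / z =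
      (4 * 2 ^ (k + 2) * ((k + 2) * 2 ^ (k + 1))) / z * (s ^ (k + 2) * s ^ (k + 1)) := by
    rw [e1, e2]
    ring
  have f3 : 4 * ((2 * s) ^ (k + 2) + (k + 2) * (2 * s) ^ (k + 1)) * (1 + lr) ≤
      4 * (2 ^ (k + 2) + (k + 2) * 2 ^ (k + 1)) * (1 + lr) * s ^ (k + 2) := by
    rw [e1, e2]
    have g1 : 2 ^ (k + 2) * s ^ (k + 2) + ((k : ℝ) + 2) * (2 ^ (k + 1) * s ^ (k + 1)) ≤
        (2 ^ (k + 2) + (k + 2) * 2 ^ (k + 1)) * s ^ (k + 2) := by
      have : ((k : ℝ) + 2) * 2 ^ (k + 1) * s ^ (k + 1) ≤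
          ((k : ℝ) + 2) * 2 ^ (k + 1) * s ^ (k + 2) :=
        mul_le_mul_of_nonneg_left hss (by positivity)
      linarith
    have g2 := mul_le_mul_of_nonneg_right g1 (by linarith : (0 : ℝ) ≤ 4 * (1 + lr))
    calc _ = _ := by ring
      _ ≤ _ := g2
      _ = _ := by ring
  have f4 : 4 * (2 * 4 ^ (k + 1) * s ^ (k + 1)) ≤
      4 * (2 * 4 ^ (k + 1)) * (1 + lr) * s ^ (k + 2) := by
    have g1 : 4 * (2 * 4 ^ (k + 1) * s ^ (k + 1)) ≤ 4 * (2 * 4 ^ (k + 1)) * s ^ (k + 2) := by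
      have : (2 * 4 ^ (k + 1) : ℝ) * s ^ (k + 1) ≤ (2 * 4 ^ (k + 1)) * s ^ (k + 2) :=
        mul_le_mul_of_nonneg_left hss (by positivity)
      linarith
    have g2 : (4 * (2 * 4 ^ (k + 1)) * s ^ (k + 2) : ℝ) * 1 ≤
        4 * (2 * 4 ^ (k + 1)) * s ^ (k + 2) * (1 + lr) := by
      apply mul_le_mul_of_nonneg_left _ (by positivity)
      linarith
    calc _ ≤ _ := g1
      _ = (4 * (2 * 4 ^ (k + 1)) * s ^ (k + 2) : ℝ) * 1 := by ring
      _ ≤ _ := g2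
      _ = _ := by ring
  have f5 : (2 * 2 ^ (k + 2) + 2) * (1 + lr) * s ^ (k + 2) +
      4 * (2 ^ (k + 2) + (k + 2) * 2 ^ (k + 1)) * (1 + lr) * s ^ (k + 2) +
      4 * (2 * 4 ^ (k + 1)) * (1 + lr) * s ^ (k + 2) =
      ((2 * 2 ^ (k + 2) + 2) + 4 * (2 ^ (k + 2) + (k + 2) * 2 ^ (k + 1)) +
          4 * (2 * 4 ^ (k + 1))) * (1 + lr) * s ^ (k + 2) := by
    ring
  linarith

/-- T3, large primes dividing `Yv` -/
theorem t_T3C (hFIBB : S_FIBB) (hBOX : S_BOX) (hDELB : S_DELB) : S_T3C := by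
  intro g hg η hη
  have hLam : ∀ q : ℕ, 0 ≤ Lam g q := by
    intro q
    unfold Lam
    apply Finset.prod_nonneg
    intro i _
    positivity
  rcases Nat.lt_or_ge g 2 with h2 | h2
  · obtain rfl : g = 1 := by omega
    refine ⟨0, 0, fun q _ _ => ?_⟩
    have he : {h | h ∈ Ord 1 q ∧ ∃ l : ℕ, l.Prime ∧ 0 < l ∧ (l : ℤ) ∣ Yv q h ∧
        (l : ℤ) ^ 2 ∣ delta q h} = ∅ := by
      rw [Set.eq_empty_iff_forall_notMem]
      rintro h ⟨hord, l, hl, _, hlY, _⟩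
      have hdeg : h.natDegree = 1 := hord.1.2.1
      have hm : h.Monic := hord.1.1
      have hc1 : h.coeff 1 = 1 := by
        have := hm.coeff_natDegree
        rwa [hdeg] at this
      have hY : Yv q h = 1 := by
        unfold Yv
        rw [hdeg, Finset.sum_range_succ, Finset.sum_range_one]
        simp [hc1]
      rw [hY] at hlY
      have : l = 1 := by
        have h3 : (l : ℤ).natAbs ∣ (1 : ℤ).natAbs := Int.natAbs_dvd_natAbs.mpr hlY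
        simpa using h3
      exact hl.one_lt.ne' this
    rw [he, Set.ncard_empty]
    push_cast
    exact mul_nonneg hη.le (hLam q)
  · obtain ⟨k, rfl⟩ : ∃ k, g = k + 2 := ⟨g - 2, by omega⟩
    obtain ⟨K, hK, hfib⟩ := hFIBB (k + 2) h2
    set C₂ : ℝ := 4 * 2 ^ (k + 2) * ((k + 2) * 2 ^ (k + 1)) with hC₂
    set C₁ : ℝ := (2 * 2 ^ (k + 2) + 2) + 4 * (2 ^ (k + 2) + (k + 2) * 2 ^ (k + 1)) +
      4 * (2 * 4 ^ (k + 1)) with hC₁
    obtain ⟨z, hz⟩ := exists_nat_gt (max 0 (K * C₂ / (η / 2)))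
    have hz0 : (0 : ℝ) < z := lt_of_le_of_lt (le_max_left _ _) hz
    have hz0' : 0 < z := by exact_mod_cast hz0
    have hz1 : K * (C₂ / z) ≤ η / 2 := by
      have h3 : K * C₂ / (η / 2) < z := lt_of_le_of_lt (le_max_right _ _) hz
      rw [div_lt_iff₀ (by positivity)] at h3
      rw [← mul_div_assoc, div_le_iff₀ hz0]
      linarith
    obtain ⟨q₀, hq₀1, hq₀⟩ := T3C_log k (K * C₁) (η / 2) (by positivity) (by positivity)
    refine ⟨z, q₀, fun q hq hpp => ?_⟩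
    have hq1 : 1 ≤ q := le_trans hq₀1 hq
    have hlog := hq₀ q hq
    have hs1 : (1 : ℝ) ≤ Real.sqrt q := by
      rw [Real.one_le_sqrt]
      exact_mod_cast hq1
    set s := Real.sqrt (q : ℝ) with hs
    have hsp : 0 < s := by linarith
    set R := 2 * 4 ^ (k + 1) * s ^ (k + 1) with hRdef
    have hR : 1 ≤ R := by
      have h3 : (1 : ℝ) ≤ s ^ (k + 1) := one_le_pow₀ hs1
      have h4 : (1 : ℝ) ≤ 4 ^ (k + 1) := one_le_pow₀ (by norm_num)
      rw [hRdef]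
      nlinarith
    have hlR : 0 ≤ Real.log R := Real.log_nonneg hR
    have key := hfib q (T3C_S (k + 2) q z) _ hq1 (fun h hh => hh.1.1)
      (T3C_fib hBOX hDELB k q z hpp hz0')
    rw [← hs] at key
    have bound : (2 * (2 * s) ^ (k + 2) + 2) +
        4 * (2 * s) ^ (k + 2) * ((k + 2) * (2 * s) ^ (k + 1)) / z +
        4 * ((2 * s) ^ (k + 2) + (k + 2) * (2 * s) ^ (k + 1)) * (1 + Real.log R) +
        4 * R ≤ C₂ / z * (s ^ (k + 2) * s ^ (k + 1)) +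
          C₁ * (1 + Real.log R) * s ^ (k + 2) :=
      T3C_bound k s (Real.log R) z hs1 hlR
    set n := (2 * (2 * s) ^ (k + 2) + 2) +
        4 * (2 * s) ^ (k + 2) * ((k + 2) * (2 * s) ^ (k + 1)) / z +
        4 * ((2 * s) ^ (k + 2) + (k + 2) * (2 * s) ^ (k + 1)) * (1 + Real.log R) +
        4 * R with hn
    have hsk : s ≤ s ^ (k + 1) := by
      have := pow_le_pow_right₀ hs1 (show 1 ≤ k + 1 by omega)
      simpa using this
    have hfin : K * n ≤ η * (s ^ (k + 2) * s ^ (k + 1)) := by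
      have g1 : K * n ≤ K * (C₂ / z * (s ^ (k + 2) * s ^ (k + 1)) +
          C₁ * (1 + Real.log R) * s ^ (k + 2)) := mul_le_mul_of_nonneg_left bound hK.le
      have g2 : K * (C₂ / z) * (s ^ (k + 2) * s ^ (k + 1)) ≤
          η / 2 * (s ^ (k + 2) * s ^ (k + 1)) := by
        apply mul_le_mul_of_nonneg_right hz1
        positivity
      have g3 : K * C₁ * (1 + Real.log R) * s ^ (k + 2) ≤ η / 2 * s * s ^ (k + 2) :=
        mul_le_mul_of_nonneg_right hlog (by positivity)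
      have g4 : η / 2 * s * s ^ (k + 2) ≤ η / 2 * s ^ (k + 1) * s ^ (k + 2) := by
        apply mul_le_mul_of_nonneg_right _ (by positivity)
        apply mul_le_mul_of_nonneg_left hsk (by positivity)
      nlinarith
    have hpos : 0 < s ^ (k + 2) * s ^ (k + 1) := by positivity
    have hexp : k + 2 - 1 = k + 1 := by omega
    rw [hexp] at key
    have h7 : ((T3C_S (k + 2) q z).ncard : ℝ) * (s ^ (k + 2) * s ^ (k + 1)) ≤
        η * Lam (k + 2) q * (s ^ (k + 2) * s ^ (k + 1)) := by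
      calc ((T3C_S (k + 2) q z).ncard : ℝ) * (s ^ (k + 2) * s ^ (k + 1))
          = ((T3C_S (k + 2) q z).ncard : ℝ) * s ^ (k + 2) * s ^ (k + 1) := by ring
        _ ≤ K * n * Lam (k + 2) q := key
        _ ≤ (η * (s ^ (k + 2) * s ^ (k + 1))) * Lam (k + 2) q :=
            mul_le_mul_of_nonneg_right hfin (hLam q)
        _ = η * Lam (k + 2) q * (s ^ (k + 2) * s ^ (k + 1)) := by ring
    exact le_of_mul_le_mul_right h7 hpos

end

end Pool.Agent.TJ2
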