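import Pool.Agent.TJ2.Stmts
import Pool.Agent.TJ2.Stmts2

/-!
# Theorem J, module T4: partners are rare (MP_6c4da4_ag)
-/

open Polynomial IntermediateField

namespace Pool.Agent.TJ2

noncomputable section

theorem T4_sub (hTRI : S_TRI) {g : ℕ} (hg : 1 ≤ g) {ε : ℝ} {T : ℕ} (hε : 0 < ε) (hε1 : ε < 1) {q : ℕ}
    (hq : IsPrimePow q)
    (hs : g = 2 → ∀ h h' : ℤ[X], h ∈ Ord 2 q → Full q h → h ∉ T2 2 q ε → h ∉ T3 2 q T → h' ∈ FO q →
      h'.natDegree = 2 → ¬ IsSquare ((h'.coeff 1 ^ 2 - 4 * h'.coeff 0) * delta q h))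
    {h : ℤ[X]} (hh : h ∈ T4 g q ε T) :
    (2 ≤ g ∧ h ∈ CA g q (T * Real.sqrt (2 / ε))) ∨ h ∈ CB g q T (T * Real.sqrt (2 / ε)) := by
  obtain ⟨h1, h2, h3, h4, h5⟩ := hh
  have hdeg : h.natDegree = g := h1.1.2.1
  have hFO : h ∈ FO q := by
    refine ⟨?_, ?_, h2⟩
    · rw [hdeg]
      exact hg
    · rw [hdeg]
      exact h1
  by_contra hc
  apply h5
  refine ⟨hFO, ?_, ?_⟩
  · intro h' hh' a ha a' ha' haa
    by_contra hn
    rw [not_or] at hn
    exact hc (hTRI g q T ε h h' a a' hg hq hε hε1 h1 h2 h3 h4 hh' ha ha' haa hn.1 hn.2)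
  · intro hd h' hh' hd'
    have hg2 : g = 2 := by rw [← hdeg, hd]
    subst hg2
    exact hs rfl h h' h1 h2 h3 h4 hh' hd'

theorem t_T4 (hTRI : S_TRI) (hCNA : S_CNA) (hCNB : S_CNB) (hSQF : S_SQF) (hBOX : S_BOX) : S_T4 := by
  intro g hg ε T hε hε1 η hη
  have hH : (0 : ℝ) ≤ T * Real.sqrt (2 / ε) := by positivity
  obtain ⟨q₁, hq₁⟩ := hCNB g hg T _ hH (η / 2) (by linarith)
  obtain ⟨q₂, hq₂⟩ := hSQF ε T hε hε1
  have hfinB : ∀ q, (CB g q T (T * Real.sqrt (2 / ε))).Finite := fun q => ((hBOX g q).1).subset fun h hh => hh.1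
  have hfinA : ∀ q, (CA g q (T * Real.sqrt (2 / ε))).Finite := fun q => ((hBOX g q).1).subset fun h hh => hh.1
  have hLam : ∀ q, 0 ≤ Lam g q := fun q => Finset.prod_nonneg fun i _ => by positivity
  by_cases hg2 : 2 ≤ g
  · obtain ⟨q₃, hq₃⟩ := hCNA g hg2 _ hH (η / 2) (by linarith)
    refine ⟨max q₁ (max q₂ q₃), fun q hq hpp => ?_⟩
    have e1 : q₁ ≤ q := (le_max_left _ _).trans hq
    have e2 : q₂ ≤ q := (le_max_left _ _).trans ((le_max_right _ _).trans hq)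
    have e3 : q₃ ≤ q := (le_max_right _ _).trans ((le_max_right _ _).trans hq)
    have hsub : T4 g q ε T ⊆ CA g q (T * Real.sqrt (2 / ε)) ∪ CB g q T (T * Real.sqrt (2 / ε)) := by
      intro h hh
      rcases T4_sub hTRI hg hε hε1 hpp (fun _ => hq₂ q e2) hh with h1 | h1
      · exact Or.inl h1.2
      · exact Or.inr h1
    have h1 : (T4 g q ε T).ncard ≤ (CA g q (T * Real.sqrt (2 / ε))).ncard + (CB g q T (T * Real.sqrt (2 / ε))).ncard :=
      (Set.ncard_le_ncard hsub ((hfinA q).union (hfinB q))).trans (Set.ncard_union_le _ _)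
    have h2 : ((T4 g q ε T).ncard : ℝ) ≤ ((CA g q (T * Real.sqrt (2 / ε))).ncard : ℝ) +
        ((CB g q T (T * Real.sqrt (2 / ε))).ncard : ℝ) := by exact_mod_cast h1
    have h3 := hq₃ q e3
    have h4 := hq₁ q e1 hpp
    linarith
  · refine ⟨max q₁ q₂, fun q hq hpp => ?_⟩
    have e1 : q₁ ≤ q := (le_max_left _ _).trans hq
    have e2 : q₂ ≤ q := (le_max_right _ _).trans hq
    have hsub : T4 g q ε T ⊆ CB g q T (T * Real.sqrt (2 / ε)) := by
      intro h hh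
      rcases T4_sub hTRI hg hε hε1 hpp (fun _ => hq₂ q e2) hh with h1 | h1
      · exact absurd h1.1 hg2
      · exact h1
    have h1 := Set.ncard_le_ncard hsub (hfinB q)
    have h2 : ((T4 g q ε T).ncard : ℝ) ≤ ((CB g q T (T * Real.sqrt (2 / ε))).ncard : ℝ) := by exact_mod_cast h1
    have h4 := hq₁ q e1 hpp
    have h5 : η / 2 * Lam g q ≤ η * Lam g q := mul_le_mul_of_nonneg_right (by linarith) (hLam q)
    linarith

end

end Pool.Agent.TJ2
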