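import Pool.Agent.TJ2.Stmts2

/-!
# Theorem J: the alternative (2.7) (helper2)
-/

open Polynomial IntermediateField

namespace Pool.Agent.TJ2

noncomputable section

/-- an invariant algebraic integer is a rational integer -/
lemma TRI_int (hSTAB : S_STAB) (x : Qb) (hx : ∀ σ : Qb ≃ₐ[ℚ] Qb, σ x = x)
    (hi : IsIntegral ℤ x) : ∃ n : ℤ, (n : Qb) = x := by
  have h1 : x ∈ ℚ⟮(0 : Qb)⟯ := hSTAB 0 x (fun σ _ => hx σ)
  have h2 : ℚ⟮(0 : Qb)⟯ = ⊥ := by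
    rw [IntermediateField.adjoin_simple_eq_bot_iff]
    exact zero_mem _
  rw [h2, IntermediateField.mem_bot] at h1
  obtain ⟨r, hr⟩ := h1
  have h3 : IsIntegral ℤ r := by
    rw [← hr] at hi
    exact (isIntegral_algebraMap_iff (algebraMap ℚ Qb).injective).mp hi
  obtain ⟨n, hn⟩ := IsIntegrallyClosed.isIntegral_iff.mp h3
  refine ⟨n, ?_⟩
  rw [← hr, ← hn]
  simp

/-- the product of `X - Y b`, `b ∈ s`, is an integer polynomial -/
lemma TRI_poly (hSTAB : S_STAB) (s : Finset Qb) (Y : Qb → Qb)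
    (hs : ∀ σ : Qb ≃ₐ[ℚ] Qb, ∀ b ∈ s, σ b ∈ s)
    (hY : ∀ σ : Qb ≃ₐ[ℚ] Qb, ∀ b ∈ s, σ (Y b) = Y (σ b)) (hi : ∀ b ∈ s, IsIntegral ℤ (Y b)) :
    ∃ F : ℤ[X], F.Monic ∧ F.natDegree = s.card ∧
      F.map (Int.castRingHom Qb) = ∏ b ∈ s, (X - C (Y b)) := by
  classical
  have hmon : (∏ b ∈ s, (X - C (Y b)) : Qb[X]).Monic :=
    monic_prod_of_monic _ _ (fun b _ => monic_X_sub_C _)
  have hint : ∀ n : ℕ, IsIntegral ℤ ((∏ b ∈ s, (X - C (Y b)) : Qb[X]).coeff n) := by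
    let R : Subring Qb := (integralClosure ℤ Qb).toSubring
    have h1 : (∏ b ∈ s, (X - C (Y b)) : Qb[X]) ∈ Polynomial.lifts R.subtype := by
      refine Subsemiring.prod_mem _ (fun b hb => ?_)
      refine Polynomial.mem_lifts _ |>.mpr ⟨X - C ⟨Y b, hi b hb⟩, ?_⟩
      rw [Polynomial.map_sub, Polynomial.map_X, Polynomial.map_C]
      rfl
    intro n
    obtain ⟨p, hp⟩ := (Polynomial.mem_lifts _).mp h1
    rw [← hp, Polynomial.coeff_map]
    exact (p.coeff n).2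
  have hinv : ∀ σ : Qb ≃ₐ[ℚ] Qb, ∀ n : ℕ, σ ((∏ b ∈ s, (X - C (Y b)) : Qb[X]).coeff n) =
      (∏ b ∈ s, (X - C (Y b)) : Qb[X]).coeff n := by
    intro σ n
    have h1 : (∏ b ∈ s, (X - C (Y b)) : Qb[X]).map (σ : Qb →+* Qb) =
        ∏ b ∈ s, (X - C (Y b)) := by
      rw [Polynomial.map_prod]
      have h2 : ∀ b ∈ s, (X - C (Y b) : Qb[X]).map (σ : Qb →+* Qb) = X - C (Y (σ b)) := by
        intro b hb
        rw [Polynomial.map_sub, Polynomial.map_X, Polynomial.map_C, ← hY σ b hb]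
        rfl
      rw [Finset.prod_congr rfl h2]
      refine Finset.prod_bij (fun b _ => σ b) (fun b hb => hs σ b hb)
        (fun b _ c _ hbc => σ.injective hbc) (fun b hb => ⟨σ.symm b, hs σ.symm b hb, by simp⟩)
        (fun b _ => rfl)
    have h3 := congrArg (fun p : Qb[X] => p.coeff n) h1
    simpa [Polynomial.coeff_map] using h3
  have hall : ∀ n : ℕ, ∃ z : ℤ, (z : Qb) = (∏ b ∈ s, (X - C (Y b)) : Qb[X]).coeff n :=
    fun n => TRI_int hSTAB _ (fun σ => hinv σ n) (hint n)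
  have hl : (∏ b ∈ s, (X - C (Y b)) : Qb[X]) ∈ Polynomial.lifts (Int.castRingHom Qb) := by
    rw [Polynomial.lifts_iff_coeff_lifts]
    intro n
    obtain ⟨z, hz⟩ := hall n
    exact ⟨z, hz⟩
  obtain ⟨F, hF1, hF2, hF3⟩ := Polynomial.lifts_and_natDegree_eq_and_monic hl hmon
  refine ⟨F, hF3, ?_, hF1⟩
  rw [hF2, Polynomial.natDegree_prod_of_monic _ _ (fun b _ => monic_X_sub_C _)]
  simp

lemma TRI_dd {q : ℕ} (hq : 1 ≤ q) {x : Qb} (_ : x ≠ 0) : (q : Qb) / ((q : Qb) / x) = x := by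
  have hq0 : (q : Qb) ≠ 0 := by
    exact_mod_cast (by omega : q ≠ 0)
  field_simp

lemma TRI_pair {q : ℕ} {x x' : Qb} (hx : x ≠ 0) (hx' : x' ≠ 0)
    (h : x + (q : Qb) / x = x' + (q : Qb) / x') : x = x' ∨ x = (q : Qb) / x' := by
  have h1 : (x - x') * (x * x' - q) = 0 := by
    field_simp at h
    linear_combination h
  rcases mul_eq_zero.mp h1 with h2 | h2
  · exact Or.inl (sub_eq_zero.mp h2)
  · right
    rw [eq_div_iff hx']
    exact sub_eq_zero.mp h2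

/-- functions on `Om q h` invariant under `x ↦ q / x`, as functions on the roots of `h` -/
lemma TRI_fun {q : ℕ} {h : ℤ[X]} (xo : Qb → Qb)
    (hxo : ∀ b ∈ Rt h, xo b ∈ Om q h ∧ xo b + (q : Qb) / xo b = b)
    (hOmσ : ∀ a ∈ Om q h, ∀ σ : Qb ≃ₐ[ℚ] Qb, σ a ∈ Om q h)
    (hOmR : ∀ a ∈ Om q h, a + (q : Qb) / a ∈ Rt h)
    (G : Qb → Qb) (hG : ∀ x ∈ Om q h, G ((q : Qb) / x) = G x)
    (hGσ : ∀ σ : Qb ≃ₐ[ℚ] Qb, ∀ x ∈ Om q h, σ (G x) = G (σ x)) :
    (∀ x ∈ Om q h, G x = G (xo (x + (q : Qb) / x))) ∧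
    ∀ σ : Qb ≃ₐ[ℚ] Qb, ∀ b ∈ Rt h, σ (G (xo b)) = G (xo (σ b)) := by
  have h1 : ∀ x ∈ Om q h, G x = G (xo (x + (q : Qb) / x)) := by
    intro x hx
    obtain ⟨h2, h3⟩ := hxo _ (hOmR x hx)
    rcases TRI_pair hx.1 h2.1 h3.symm with h4 | h4
    · rw [← h4]
    · conv_lhs => rw [h4]
      exact hG _ h2
  refine ⟨h1, fun σ b hb => ?_⟩
  obtain ⟨h2, h3⟩ := hxo b hb
  rw [hGσ σ _ h2, h1 _ (hOmσ _ h2 σ)]
  congr 2
  rw [← map_natCast σ q, ← map_div₀, ← map_add, h3]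

lemma TRI_emb : Nonempty (Qb →+* ℂ) := by
  have h := AlgebraicClosure.instIsAlgClosure ℚ
  have e : (AlgebraicClosure.instAlgebra ℚ : Algebra ℚ (AlgebraicClosure ℚ)) =
    DivisionRing.toRatAlgebra := Subsingleton.elim _ _
  have h1 : IsAlgClosure ℚ Qb := e ▸ h
  have h2 : Algebra.IsAlgebraic ℚ Qb := IsAlgClosure.isAlgebraic
  exact ⟨((IsAlgClosed.lift : Qb →ₐ[ℚ] ℂ) : Qb →+* ℂ)⟩

/-- the finite set of roots -/
lemma TRI_set {h : ℤ[X]} (hm : h.Monic) (hnd : (h.aroots Qb).Nodup) :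
    ∃ s : Finset Qb, (∀ b, b ∈ s ↔ b ∈ Rt h) ∧ s.card = h.natDegree ∧ s.val = h.aroots Qb ∧
      h.map (Int.castRingHom Qb) = ∏ b ∈ s, (X - C b) := by
  classical
  have hmap : (h.map (algebraMap ℤ Qb)).Monic := hm.map _
  refine ⟨⟨h.aroots Qb, hnd⟩, fun b => ?_, ?_, rfl, ?_⟩
  · rw [Finset.mem_mk, mem_aroots]
    exact ⟨fun h1 => h1.2, fun h1 => ⟨hm.ne_zero, h1⟩⟩
  · change (h.map (algebraMap ℤ Qb)).roots.card = _
    rw [← (IsAlgClosed.splits (h.map (algebraMap ℤ Qb))).natDegree_eq_card_roots,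
      hm.natDegree_map]
  · have h1 := (IsAlgClosed.splits (h.map (algebraMap ℤ Qb))).eq_prod_roots_of_monic hmap
    exact h1

/-- the complex roots of an integer polynomial which is a product over `s` -/
lemma TRI_croots (ι : Qb →+* ℂ) (s : Finset Qb) (Y : Qb → Qb) (F : ℤ[X])
    (hF : F.map (Int.castRingHom Qb) = ∏ b ∈ s, (X - C (Y b))) :
    F.aroots ℂ = s.val.map (fun b => ι (Y b)) := by
  have h1 : F.map (algebraMap ℤ ℂ) = ∏ b ∈ s, (X - C (ι (Y b))) := by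
    have h2 : (algebraMap ℤ ℂ) = ι.comp (Int.castRingHom Qb) := RingHom.ext_int _ _
    rw [h2, ← Polynomial.map_map, hF, Polynomial.map_prod]
    refine Finset.prod_congr rfl (fun b _ => ?_)
    rw [Polynomial.map_sub, Polynomial.map_X, Polynomial.map_C]
  unfold Polynomial.aroots
  rw [h1]
  have h3 := Polynomial.roots_multiset_prod_X_sub_C (s.val.map (fun b => ι (Y b)))
  rw [Multiset.map_map] at h3
  exact h3

/-- case (a) -/
lemma TRI_caseA (hSTAB : S_STAB) {g q : ℕ} {H : ℝ} {h : ℤ[X]} (hh : h ∈ RW g q) (hg : 1 ≤ g)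
    (hnd : (h.aroots Qb).Nodup) (hint : ∀ b ∈ Rt h, IsIntegral ℤ b)
    (hRσ : ∀ σ : Qb ≃ₐ[ℚ] Qb, ∀ b ∈ Rt h, σ b ∈ Rt h)
    (htr : ∀ b ∈ Rt h, ∀ c ∈ Rt h, ∃ σ : Qb ≃ₐ[ℚ] Qb, σ b = c) (Y : Qb → Qb)
    (hYσ : ∀ σ : Qb ≃ₐ[ℚ] Qb, ∀ b ∈ Rt h, σ (Y b) = Y (σ b))
    (hYi : ∀ b ∈ Rt h, IsIntegral ℤ (Y b)) (hYinj : ∀ b ∈ Rt h, ∀ c ∈ Rt h, Y b = Y c → b = c)
    (hYb : ∀ ι : Qb →+* ℂ, ∀ b ∈ Rt h, ‖ι (Y b)‖ ≤ H) : h ∈ CA g q H := by
  classical
  obtain ⟨ι⟩ := TRI_emb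
  obtain ⟨s, hs, hcard, hval, hprod⟩ := TRI_set hh.1 hnd
  rw [hh.2.1] at hcard
  obtain ⟨F, hF1, hF2, hF3⟩ := TRI_poly hSTAB s Y (fun σ b hb => (hs _).mpr (hRσ σ b ((hs b).mp hb)))
    (fun σ b hb => hYσ σ b ((hs b).mp hb)) (fun b hb => hYi b ((hs b).mp hb))
  rw [hcard] at hF2
  have hroots : F.aroots ℂ = s.val.map (fun b => ι (Y b)) := TRI_croots ι s Y F hF3
  have hhroots : h.aroots ℂ = s.val.map (fun b => ι b) := TRI_croots ι s (fun b => b) h hprod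
  -- the polynomial u
  have hne : s.Nonempty := by
    rw [← Finset.card_pos, hcard]
    exact hg
  obtain ⟨b₀, hb₀⟩ := hne
  have hb₀R : b₀ ∈ Rt h := (hs b₀).mp hb₀
  have hmem : b₀ ∈ ℚ⟮Y b₀⟯ := by
    apply hSTAB
    intro σ hσ
    apply hYinj _ (hRσ σ b₀ hb₀R) _ hb₀R
    rw [← hYσ σ b₀ hb₀R, hσ]
  have hYint : IsIntegral ℚ (Y b₀) := (hYi b₀ hb₀R).tower_top
  rw [← IntermediateField.mem_toSubalgebra,
    IntermediateField.adjoin_simple_toSubalgebra_of_isAlgebraic hYint.isAlgebraic,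
    Algebra.adjoin_singleton_eq_range_aeval] at hmem
  obtain ⟨u₀, hu₀⟩ := hmem
  have hu₀' : aeval (Y b₀) u₀ = b₀ := hu₀
  have hFQm : (F.map (Int.castRingHom ℚ)).Monic := hF1.map _
  have hYroot : ∀ b ∈ s, aeval (Y b) (F.map (Int.castRingHom ℚ)) = 0 := by
    intro b hb
    have h1 : aeval (Y b) (F.map (Int.castRingHom ℚ)) = (F.map (Int.castRingHom Qb)).eval (Y b) := by
      rw [← algebraMap_int_eq, aeval_map_algebraMap, Polynomial.aeval_def, Polynomial.eval_map]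
      rfl
    rw [h1, hF3, Polynomial.eval_prod]
    exact Finset.prod_eq_zero hb (by simp)
  obtain ⟨u, hu⟩ : ∃ u : ℚ[X], u = u₀ %ₘ (F.map (Int.castRingHom ℚ)) := ⟨_, rfl⟩
  have hu0 : aeval (Y b₀) u = b₀ := by
    have h1 := Polynomial.modByMonic_add_div u₀ (F.map (Int.castRingHom ℚ))
    have h2 := congrArg (aeval (Y b₀)) h1
    rw [map_add, map_mul, hYroot b₀ hb₀, zero_mul, add_zero, hu₀'] at h2
    rw [hu]
    exact h2
  have hall : ∀ b ∈ s, aeval (Y b) u = b := by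
    intro b hb
    obtain ⟨σ, hσ⟩ := htr b₀ hb₀R b ((hs b).mp hb)
    have h1 : σ (aeval (Y b₀) u) = aeval (σ (Y b₀)) u := (Polynomial.aeval_algHom_apply
      (σ : Qb →ₐ[ℚ] Qb) (Y b₀) u).symm
    rw [hu0, hYσ σ b₀ hb₀R, hσ] at h1
    exact h1.symm
  have hι : ∀ x : Qb, aeval (ι x) u = ι (aeval x u) := by
    intro x
    rw [Polynomial.aeval_def, Polynomial.aeval_def, Polynomial.hom_eval₂]
    congr 1
    exact Subsingleton.elim _ _
  refine ⟨hh, F, u, hF1, hF2, ?_, ?_, ?_, ?_, ?_⟩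
  · rw [hroots]
    refine Multiset.Nodup.map_on (fun b hb c hc hbc => ?_) s.nodup
    exact hYinj b ((hs b).mp hb) c ((hs c).mp hc) (ι.injective hbc)
  · intro z hz
    have h1 : z ∈ F.aroots ℂ := mem_aroots.mpr ⟨hF1.ne_zero, hz⟩
    rw [hroots, Multiset.mem_map] at h1
    obtain ⟨b, hb, rfl⟩ := h1
    exact hYb ι b ((hs b).mp hb)
  · rw [hu]
    have h1 := Polynomial.degree_modByMonic_lt u₀ hFQm
    rw [Polynomial.degree_eq_natDegree hFQm.ne_zero, hF1.natDegree_map, hF2] at h1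
    exact h1
  · intro i _
    obtain ⟨t, ht⟩ := TRI_int hSTAB (∑ b ∈ s, (Y b) ^ i * b) (by
      intro σ
      rw [map_sum]
      refine Finset.sum_bij (fun b _ => σ b) (fun b hb => (hs _).mpr (hRσ σ b ((hs b).mp hb)))
        (fun b _ c _ hbc => σ.injective hbc)
        (fun b hb => ⟨σ.symm b, (hs _).mpr (hRσ σ.symm b ((hs b).mp hb)), by simp⟩) (fun b hb => ?_)
      rw [map_mul, map_pow, hYσ σ b ((hs b).mp hb)]) (by
      refine IsIntegral.sum _ (fun b hb => ?_)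
      exact ((hYi b ((hs b).mp hb)).pow i).mul (hint b ((hs b).mp hb)))
    refine ⟨t, ?_⟩
    rw [hroots, Multiset.map_map]
    have h1 : (s.val.map ((fun z => z ^ i * aeval z u) ∘ fun b => ι (Y b))).sum =
        ∑ b ∈ s, ι ((Y b) ^ i * b) := by
      refine Finset.sum_congr rfl (fun b hb => ?_)
      change (ι (Y b)) ^ i * aeval (ι (Y b)) u = _
      rw [hι, hall b hb, map_mul, map_pow]
    rw [h1, ← map_sum, ← ht, map_intCast]
  · rw [hroots, hhroots, Multiset.map_map]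
    refine Multiset.map_congr rfl (fun b hb => ?_)
    change ι b = aeval (ι (Y b)) u
    rw [hι, hall b hb]

/-- case (b) -/
lemma TRI_caseB (hSTAB : S_STAB) {g q T : ℕ} {H : ℝ} {h : ℤ[X]} (hq : 1 ≤ q) (hh : h ∈ RW g q)
    (hnd : (h.aroots Qb).Nodup) (hint : ∀ b ∈ Rt h, IsIntegral ℤ b)
    (hRσ : ∀ σ : Qb ≃ₐ[ℚ] Qb, ∀ b ∈ Rt h, σ b ∈ Rt h) (β : Qb → Qb)
    (hβσ : ∀ σ : Qb ≃ₐ[ℚ] Qb, ∀ b ∈ Rt h, σ (β b) = β (σ b))
    (hβi : ∀ b ∈ Rt h, IsIntegral ℤ (β b))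
    (hβb : ∀ ι : Qb →+* ℂ, ∀ b ∈ Rt h, ‖ι (β b)‖ ≤ 2 * Real.sqrt q ∧ ‖ι b‖ ≤ 2 * Real.sqrt q)
    (m k : ℤ) (hm1 : 1 ≤ m) (hmT : m ≤ T) (hk0 : k ≠ 0) (hkH : |(k : ℝ)| ≤ H)
    (hmk : m ^ 2 - k ^ 2 ≠ 0)
    (hrel : ∀ b ∈ Rt h, (m : Qb) ^ 2 * (β b ^ 2 - 4 * q) = (k : Qb) ^ 2 * (b ^ 2 - 4 * q)) :
    h ∈ CB g q T H := by
  classical
  obtain ⟨ι⟩ := TRI_emb
  obtain ⟨s, hs, hcard, hval, hprod⟩ := TRI_set hh.1 hnd
  rw [hh.2.1] at hcard
  obtain ⟨S, hS⟩ : ∃ S : Qb → Qb, ∀ b, S b = m * β b - k * b := ⟨_, fun _ => rfl⟩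
  obtain ⟨R, hR⟩ : ∃ R : Qb → Qb, ∀ b, R b = m * β b + k * b := ⟨_, fun _ => rfl⟩
  have hSσ : ∀ σ : Qb ≃ₐ[ℚ] Qb, ∀ b ∈ Rt h, σ (S b) = S (σ b) := by
    intro σ b hb
    rw [hS, hS, map_sub, map_mul, map_mul, map_intCast, map_intCast, hβσ σ b hb]
  have hRσ' : ∀ σ : Qb ≃ₐ[ℚ] Qb, ∀ b ∈ Rt h, σ (R b) = R (σ b) := by
    intro σ b hb
    rw [hR, hR, map_add, map_mul, map_mul, map_intCast, map_intCast, hβσ σ b hb]
  have hmi : ∀ n : ℤ, IsIntegral ℤ (n : Qb) := fun n => by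
    have := isIntegral_algebraMap (R := ℤ) (A := Qb) (x := n)
    simpa using this
  have hSi : ∀ b ∈ Rt h, IsIntegral ℤ (S b) := by
    intro b hb
    rw [hS]
    exact ((hmi m).mul (hβi b hb)).sub ((hmi k).mul (hint b hb))
  have hRi : ∀ b ∈ Rt h, IsIntegral ℤ (R b) := by
    intro b hb
    rw [hR]
    exact ((hmi m).mul (hβi b hb)).add ((hmi k).mul (hint b hb))
  have hSR : ∀ b ∈ Rt h, S b * R b = ((4 * q * (m ^ 2 - k ^ 2) : ℤ) : Qb) := by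
    intro b hb
    have h1 := hrel b hb
    rw [hS, hR]
    push_cast
    linear_combination h1
  have hq0 : (q : ℤ) ≠ 0 := by exact_mod_cast (by omega : q ≠ 0)
  have hN0 : (4 * q * (m ^ 2 - k ^ 2) : ℤ) ≠ 0 :=
    mul_ne_zero (mul_ne_zero (by norm_num) hq0) hmk
  obtain ⟨F, hF1, hF2, hF3⟩ := TRI_poly hSTAB s S (fun σ b hb => (hs _).mpr (hRσ σ b ((hs b).mp hb)))
    (fun σ b hb => hSσ σ b ((hs b).mp hb)) (fun b hb => hSi b ((hs b).mp hb))
  rw [hcard] at hF2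
  have hroots : F.aroots ℂ = s.val.map (fun b => ι (S b)) := TRI_croots ι s S F hF3
  have hhroots : h.aroots ℂ = s.val.map (fun b => ι b) := TRI_croots ι s (fun b => b) h hprod
  -- invariance of products
  have hinv : ∀ Y : Qb → Qb, (∀ σ : Qb ≃ₐ[ℚ] Qb, ∀ b ∈ Rt h, σ (Y b) = Y (σ b)) →
      (∀ b ∈ Rt h, IsIntegral ℤ (Y b)) → ∃ t : ℤ, (t : Qb) = ∏ b ∈ s, Y b := by
    intro Y hYσ hYi
    apply TRI_int hSTAB
    · intro σ
      rw [map_prod]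
      refine Finset.prod_bij (fun b _ => σ b) (fun b hb => (hs _).mpr (hRσ σ b ((hs b).mp hb)))
        (fun b _ c _ hbc => σ.injective hbc)
        (fun b hb => ⟨σ.symm b, (hs _).mpr (hRσ σ.symm b ((hs b).mp hb)), by simp⟩) (fun b hb => ?_)
      exact hYσ σ b ((hs b).mp hb)
    · exact IsIntegral.prod _ (fun b hb => hYi b ((hs b).mp hb))
  obtain ⟨pS, hpS⟩ := hinv S hSσ hSi
  obtain ⟨pR, hpR⟩ := hinv R hRσ' hRi
  have hSR' : pS * pR = (4 * q * (m ^ 2 - k ^ 2)) ^ g := by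
    have h1 : ((pS * pR : ℤ) : Qb) = (((4 * q * (m ^ 2 - k ^ 2)) ^ g : ℤ) : Qb) := by
      push_cast
      rw [hpS, hpR, ← Finset.prod_mul_distrib, Finset.prod_congr rfl (fun b hb =>
        hSR b ((hs b).mp hb)), Finset.prod_const, hcard]
      push_cast
      ring
    exact_mod_cast h1
  have hF0 : F.coeff 0 = (-1) ^ g * pS := by
    have h1 : ((F.coeff 0 : ℤ) : Qb) = (((-1) ^ g * pS : ℤ) : Qb) := by
      have h2 := congrArg (Polynomial.eval 0) hF3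
      rw [Polynomial.eval_prod, ← Polynomial.coeff_zero_eq_eval_zero, Polynomial.coeff_map] at h2
      have h3 : ∀ b ∈ s, (X - C (S b) : Qb[X]).eval 0 = (-1) * S b := by
        intro b _
        simp
      rw [Finset.prod_congr rfl h3, Finset.prod_mul_distrib, Finset.prod_const, hcard, ← hpS] at h2
      push_cast
      exact h2
    exact_mod_cast h1
  have hpS0 : pS ≠ 0 := by
    intro h1
    rw [h1, zero_mul] at hSR'
    exact pow_ne_zero g hN0 hSR'.symm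
  have hsgn : ((-1 : ℤ) ^ g) ^ 2 = 1 := by
    rw [← pow_mul, mul_comm, pow_mul]
    norm_num
  refine ⟨hh, m, k, F, hm1, hmT, hk0, hkH, hmk, hF1, hF2, ?_, ?_, ?_, ?_⟩
  · rw [hF0]
    exact mul_ne_zero (pow_ne_zero g (by norm_num)) hpS0
  · rw [hF0, ← hSR']
    refine ⟨(-1) ^ g * pR, ?_⟩
    linear_combination (-(pS * pR)) * hsgn
  · intro z hz
    have h1 : z ∈ F.aroots ℂ := mem_aroots.mpr ⟨hF1.ne_zero, hz⟩
    rw [hroots, Multiset.mem_map] at h1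
    obtain ⟨b, hb, rfl⟩ := h1
    have hb' := (hs b).mp hb
    obtain ⟨h2, h3⟩ := hβb ι b hb'
    rw [hS, map_sub, map_mul, map_mul, map_intCast, map_intCast]
    have h4 : ‖(m : ℂ)‖ = m := by
      rw [Complex.norm_intCast]
      exact_mod_cast abs_of_pos (by omega : 0 < m)
    have h5 : ‖(k : ℂ)‖ = |(k : ℝ)| := by
      rw [Complex.norm_intCast]
    calc ‖(m : ℂ) * ι (β b) - (k : ℂ) * ι b‖ ≤ ‖(m : ℂ) * ι (β b)‖ + ‖(k : ℂ) * ι b‖ := norm_sub_le _ _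
      _ = m * ‖ι (β b)‖ + |(k : ℝ)| * ‖ι b‖ := by rw [norm_mul, norm_mul, h4, h5]
      _ ≤ m * (2 * Real.sqrt q) + |(k : ℝ)| * (2 * Real.sqrt q) := by
          have hm0 : (0 : ℝ) ≤ m := by exact_mod_cast (by omega : 0 ≤ m)
          gcongr
      _ = 2 * (m + |(k : ℝ)|) * Real.sqrt q := by ring
  · rw [hroots, hhroots, Multiset.map_map]
    refine Multiset.map_congr rfl (fun b hb => ?_)
    have hb' := (hs b).mp hb
    have h1 := congrArg ι (hSR b hb')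
    rw [map_mul, map_intCast] at h1
    have hS0 : ι (S b) ≠ 0 := by
      intro h2
      rw [h2, zero_mul] at h1
      exact hN0 (by exact_mod_cast h1.symm)
    have h2 : (4 * (q : ℂ) * ((m : ℂ) ^ 2 - (k : ℂ) ^ 2) / ι (S b)) = ι (R b) := by
      rw [div_eq_iff hS0, mul_comm (ι (R b)), h1]
      push_cast
      ring
    change ι b = (4 * (q : ℂ) * ((m : ℂ) ^ 2 - (k : ℂ) ^ 2) / ι (S b) - ι (S b)) / (2 * (k : ℂ))
    rw [h2, hS, hR, map_sub, map_add, map_mul, map_mul, map_intCast, map_intCast]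
    have hk' : (k : ℂ) ≠ 0 := by exact_mod_cast hk0
    field_simp
    ring

/-- equal or opposite roots -/
lemma TRI_same {h h' : ℤ[X]} (hm : h.Monic) (hm' : h'.Monic) (hnd : (h.aroots Qb).Nodup)
    (hnd' : (h'.aroots Qb).Nodup) (hR : ∀ b, b ∈ Rt h' ↔ b ∈ Rt h) : h' = h := by
  obtain ⟨s, hs, -, -, hprod⟩ := TRI_set hm hnd
  obtain ⟨s', hs', -, -, hprod'⟩ := TRI_set hm' hnd'
  have h1 : s' = s := by
    ext b
    rw [hs, hs', hR]
  rw [h1, ← hprod] at hprod'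
  exact Polynomial.map_injective _ (RingHom.injective_int _) hprod'

lemma TRI_opp {h h' : ℤ[X]} (hm : h.Monic) (hm' : h'.Monic) (hnd : (h.aroots Qb).Nodup)
    (hnd' : (h'.aroots Qb).Nodup) (hR : ∀ b, b ∈ Rt h' ↔ -b ∈ Rt h) : h' = tw h := by
  obtain ⟨s, hs, hcard, -, hprod⟩ := TRI_set hm hnd
  obtain ⟨s', hs', -, -, hprod'⟩ := TRI_set hm' hnd'
  apply Polynomial.map_injective (Int.castRingHom Qb) (RingHom.injective_int _)
  rw [hprod']
  unfold tw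
  rw [Polynomial.map_mul, Polynomial.map_comp, hprod, Polynomial.map_C, Polynomial.map_neg,
    Polynomial.map_X, Polynomial.prod_comp, ← hcard]
  have h1 : (∏ b ∈ s', (X - C b) : Qb[X]) = ∏ b ∈ s, (X + C b) := by
    refine Finset.prod_bij (fun b _ => -b) (fun b hb => (hs _).mpr ((hR b).mp ((hs' b).mp hb)))
      (fun b _ c _ hbc => neg_injective hbc) (fun b hb => ⟨-b, (hs' _).mpr ((hR _).mpr ?_), ?_⟩)
      (fun b _ => ?_)
    · rw [neg_neg]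
      exact (hs b).mp hb
    · rw [neg_neg]
    · rw [map_neg]
      ring
  rw [h1]
  have h2 : ∀ b ∈ s, ((X - C b : Qb[X]).comp (-X)) = (-1) * (X + C b) := by
    intro b _
    rw [Polynomial.sub_comp, Polynomial.X_comp, Polynomial.C_comp]
    ring
  rw [Finset.prod_congr rfl h2, Finset.prod_mul_distrib, Finset.prod_const]
  have h3 : (C ((Int.castRingHom Qb) ((-1) ^ s.card)) : Qb[X]) = (-1) ^ s.card := by
    rw [map_pow, map_neg, map_one, map_pow, map_neg, map_one]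
  rw [h3, ← mul_assoc, ← mul_pow]
  norm_num

theorem t_TRI (hSTAB : S_STAB) (_ : S_EMB) (hOMB : S_OMB) (hFULC : S_FULC) (hPHI : S_PHI)
    (hTHE : S_THE) : S_TRI := by
  classical
  intro g q T ε h h' a a' hg hq hε hε1 hord hfull hT2 hT3 hh' ha ha' hadj hne hnet
  have hq1 : 1 ≤ q := hq.one_lt.le
  have hdeg : h.natDegree = g := hord.1.2.1
  have hmon := hord.1.1
  have hmon' : h'.Monic := hh'.2.1.1.1
  have hFO : h ∈ FO q := ⟨by omega, by rw [hdeg]; exact hord, hfull⟩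
  obtain ⟨hdeg', φ, hφ, hφa, hφσ, hφb⟩ := hPHI q h h' a a' hq1 hFO hh' ha ha' hadj
  obtain ⟨m, hm1, hmT, hY⟩ := hTHE g q T ε h h' φ hg hq hε hε1 hord hfull hT2 hT3 hh' hφ hφσ hφb
  obtain ⟨hOfin, hO1, hO2, hO3, hO4⟩ := hOMB g q h hq1 hmon hdeg
  obtain ⟨hO5, hO6, hO7⟩ := hO4 (by rw [hfull.1, hdeg])
  obtain ⟨hOfin', hO1', hO2', hO3', hO4'⟩ := hOMB h'.natDegree q h' hq1 hmon' rfl
  obtain ⟨hO5', hO6', hO7'⟩ := hO4' hh'.2.2.1
  obtain ⟨htr, hflip, h2tr⟩ := hFULC q h hq1 hmon hfull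
  have hq0 : (q : Qb) ≠ 0 := by exact_mod_cast (by omega : q ≠ 0)
  have hm0 : (m : Qb) ≠ 0 := by exact_mod_cast (by omega : m ≠ 0)
  have hφm : ∀ x ∈ Om q h, φ x ∈ Om q h' := fun x hx => hφ.mapsTo hx
  have hRσ : ∀ σ : Qb ≃ₐ[ℚ] Qb, ∀ b ∈ Rt h, σ b ∈ Rt h := by
    intro σ b hb
    change aeval (σ b) h = 0
    have h1 : aeval (σ b) h = σ (aeval b h) :=
      Polynomial.aeval_algHom_apply ((σ : Qb →ₐ[ℚ] Qb).restrictScalars ℤ) b h
    rw [h1, show aeval b h = 0 from hb, map_zero]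
  choose! xo hxo1 using hO3
  have hxo : ∀ b ∈ Rt h, xo b ∈ Om q h ∧ xo b + (q : Qb) / xo b = b := hxo1
  have htrR : ∀ b ∈ Rt h, ∀ c ∈ Rt h, ∃ σ : Qb ≃ₐ[ℚ] Qb, σ b = c := by
    intro b hb c hc
    obtain ⟨σ, hσ⟩ := htr _ (hxo b hb).1 _ (hxo c hc).1
    refine ⟨σ, ?_⟩
    rw [← (hxo b hb).2, map_add, map_div₀, map_natCast, hσ, (hxo c hc).2]
  have hcσ : ∀ (σ : Qb ≃ₐ[ℚ] Qb) (x : Qb), σ ((q : Qb) / x) = (q : Qb) / σ x := by
    intro σ x
    rw [map_div₀, map_natCast]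
  -- the two functions
  obtain ⟨G1, hG1⟩ : ∃ G : Qb → Qb, ∀ x, G x = (m : Qb) * ((φ x - (q : Qb) / φ x) /
    (x - (q : Qb) / x)) := ⟨_, fun _ => rfl⟩
  obtain ⟨G2, hG2⟩ : ∃ G : Qb → Qb, ∀ x, G x = φ x + (q : Qb) / φ x := ⟨_, fun _ => rfl⟩
  have hG1b : ∀ x ∈ Om q h, G1 ((q : Qb) / x) = G1 x := by
    intro x hx
    rw [hG1, hG1, hφb x hx, TRI_dd hq1 hx.1, TRI_dd hq1 (hφm x hx).1,
      ← neg_sub (φ x) ((q : Qb) / φ x), ← neg_sub x ((q : Qb) / x), neg_div_neg_eq]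
  have hG2b : ∀ x ∈ Om q h, G2 ((q : Qb) / x) = G2 x := by
    intro x hx
    rw [hG2, hG2, hφb x hx, TRI_dd hq1 (hφm x hx).1, add_comm]
  have hG1σ : ∀ σ : Qb ≃ₐ[ℚ] Qb, ∀ x ∈ Om q h, σ (G1 x) = G1 (σ x) := by
    intro σ x hx
    rw [hG1, hG1, map_mul, map_natCast, map_div₀, map_sub, map_sub, hcσ, hcσ, hφσ σ x hx]
  have hG2σ : ∀ σ : Qb ≃ₐ[ℚ] Qb, ∀ x ∈ Om q h, σ (G2 x) = G2 (σ x) := by
    intro σ x hx
    rw [hG2, hG2, map_add, hcσ, hφσ σ x hx]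
  obtain ⟨hY1, hY2⟩ := TRI_fun xo hxo hO2 (fun x hx => (hO1 x hx).2.2) G1 hG1b hG1σ
  obtain ⟨hB1, hB2⟩ := TRI_fun xo hxo hO2 (fun x hx => (hO1 x hx).2.2) G2 hG2b hG2σ
  have hint : ∀ b ∈ Rt h, IsIntegral ℤ b := by
    intro b hb
    exact ⟨h, hmon, hb⟩
  have hint' : ∀ b ∈ Rt h', IsIntegral ℤ b := by
    intro b hb
    exact ⟨h', hmon', hb⟩
  have hYi : ∀ b ∈ Rt h, IsIntegral ℤ (G1 (xo b)) := by
    intro b hb
    rw [hG1]
    exact (hY (xo b) (hxo b hb).1).1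
  have hYb : ∀ ι : Qb →+* ℂ, ∀ b ∈ Rt h, ‖ι (G1 (xo b))‖ ≤ T * Real.sqrt (2 / ε) := by
    intro ι b hb
    rw [hG1]
    exact (hY (xo b) (hxo b hb).1).2 ι
  have hβR : ∀ b ∈ Rt h, G2 (xo b) ∈ Rt h' := by
    intro b hb
    rw [hG2]
    exact (hO1' _ (hφm _ (hxo b hb).1)).2.2
  by_cases hinj : 2 ≤ g ∧ ∀ b ∈ Rt h, ∀ c ∈ Rt h, G1 (xo b) = G1 (xo c) → b = c
  · left
    exact ⟨hinj.1, TRI_caseA hSTAB hord.1 hg hO7 hint hRσ htrR (fun b => G1 (xo b)) hY2 hYi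
      hinj.2 hYb⟩
  · right
    -- the function is constant
    have hne0 : (Rt h).Nonempty := ⟨_, (hO1 a ha).2.2⟩
    obtain ⟨b₀, hb₀⟩ := hne0
    have hconst : ∀ b ∈ Rt h, G1 (xo b) = G1 (xo b₀) := by
      by_cases hg2 : 2 ≤ g
      · have h1 : ∃ b ∈ Rt h, ∃ c ∈ Rt h, G1 (xo b) = G1 (xo c) ∧ b ≠ c := by
          by_contra h2
          apply hinj
          refine ⟨hg2, fun b hb c hc hbc => ?_⟩
          by_contra h3
          exact h2 ⟨b, hb, c, hc, hbc, h3⟩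
        obtain ⟨b, hb, c, hc, hbc, hbc'⟩ := h1
        intro d hd
        by_cases hdb : d = b₀
        · rw [hdb]
        · obtain ⟨σ, hσ1, hσ2⟩ := h2tr b hb c hc d hd b₀ hb₀ hbc' hdb
          have h3 := congrArg σ hbc
          rw [hY2 σ b hb, hY2 σ c hc, hσ1, hσ2] at h3
          exact h3
      · have hg1 : g = 1 := by omega
        rw [hg1, Set.ncard_eq_one] at hO6
        obtain ⟨x, hx⟩ := hO6
        intro d hd
        rw [hx, Set.mem_singleton_iff] at hd hb₀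
        rw [hd, hb₀]
    obtain ⟨k, hk⟩ := TRI_int hSTAB (G1 (xo b₀)) (fun σ => by
      rw [hY2 σ b₀ hb₀]
      exact hconst _ (hRσ σ b₀ hb₀)) (hYi b₀ hb₀)
    have hden : ∀ x ∈ Om q h, x - (q : Qb) / x ≠ 0 := fun x hx => sub_ne_zero.mpr (hO5 x hx)
    have hrel1 : ∀ x ∈ Om q h, (m : Qb) * (φ x - (q : Qb) / φ x) = k * (x - (q : Qb) / x) := by
      intro x hx
      have h1 : G1 x = k := by
        rw [hY1 x hx, hconst _ (hO1 x hx).2.2, hk]
      rw [hG1] at h1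
      rw [← h1, mul_assoc, div_mul_cancel₀ _ (hden x hx)]
    have hk0 : k ≠ 0 := by
      intro h1
      have h2 := hrel1 a ha
      rw [h1, Int.cast_zero, zero_mul] at h2
      rcases mul_eq_zero.mp h2 with h3 | h3
      · exact hm0 h3
      · exact hO5' _ (hφm a ha) (sub_eq_zero.mp h3)
    have hkH : |(k : ℝ)| ≤ T * Real.sqrt (2 / ε) := by
      obtain ⟨ι⟩ := TRI_emb
      have h1 := hYb ι b₀ hb₀
      rw [← hk, map_intCast, Complex.norm_intCast] at h1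
      exact h1
    have hsq : ∀ z : Qb, z ≠ 0 → (z - (q : Qb) / z) ^ 2 = (z + (q : Qb) / z) ^ 2 - 4 * q := by
      intro z hz
      field_simp
      ring
    have hrel : ∀ b ∈ Rt h, ((m : ℤ) : Qb) ^ 2 * (G2 (xo b) ^ 2 - 4 * q) =
        (k : Qb) ^ 2 * (b ^ 2 - 4 * q) := by
      intro b hb
      obtain ⟨hx1, hx2⟩ := hxo b hb
      have h1 := congrArg (fun z => z ^ 2) (hrel1 _ hx1)
      simp only [mul_pow] at h1
      rw [hsq _ hx1.1, hsq _ (hφm _ hx1).1, hx2] at h1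
      rw [hG2]
      exact_mod_cast h1
    have hmk : ((m : ℤ)) ^ 2 - k ^ 2 ≠ 0 := by
      intro h1
      have h2 : ∀ b ∈ Rt h, G2 (xo b) ^ 2 = b ^ 2 := by
        intro b hb
        have h3 := hrel b hb
        have h4 : ((m : ℤ) : Qb) ^ 2 = (k : Qb) ^ 2 := by
          exact_mod_cast congrArg (Int.cast : ℤ → Qb) (sub_eq_zero.mp h1)
        rw [← h4] at h3
        have h5 : ((m : ℤ) : Qb) ^ 2 ≠ 0 := by
          apply pow_ne_zero
          exact_mod_cast hm0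
        have h6 := mul_left_cancel₀ h5 h3
        exact sub_left_inj.mp h6
      -- all roots of h' come from roots of h
      have hsur : ∀ b' ∈ Rt h', ∃ b ∈ Rt h, G2 (xo b) = b' := by
        intro b' hb'
        obtain ⟨z, hz, hz'⟩ := hO3' b' hb'
        obtain ⟨x, hx, rfl⟩ := hφ.surjOn hz
        refine ⟨x + (q : Qb) / x, (hO1 x hx).2.2, ?_⟩
        rw [← hB1 x hx, hG2]
        exact hz'
      rcases sq_eq_sq_iff_eq_or_eq_neg.mp (h2 b₀ hb₀) with h3 | h3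
      · have h4 : ∀ b ∈ Rt h, G2 (xo b) = b := by
          intro b hb
          obtain ⟨σ, hσ⟩ := htrR b₀ hb₀ b hb
          have h5 := hB2 σ b₀ hb₀
          rw [h3, hσ] at h5
          exact h5.symm
        apply hne
        apply TRI_same hmon hmon' hO7 hO7'
        intro b
        constructor
        · intro hb
          obtain ⟨c, hc, hcb⟩ := hsur b hb
          rw [h4 c hc] at hcb
          rw [← hcb]
          exact hc
        · intro hb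
          rw [← h4 b hb]
          exact hβR b hb
      · have h4 : ∀ b ∈ Rt h, G2 (xo b) = -b := by
          intro b hb
          obtain ⟨σ, hσ⟩ := htrR b₀ hb₀ b hb
          have h5 := hB2 σ b₀ hb₀
          rw [h3, map_neg, hσ] at h5
          exact h5.symm
        apply hnet
        apply TRI_opp hmon hmon' hO7 hO7'
        intro b
        constructor
        · intro hb
          obtain ⟨c, hc, hcb⟩ := hsur b hb
          rw [h4 c hc] at hcb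
          rw [← hcb, neg_neg]
          exact hc
        · intro hb
          have h5 := hβR _ hb
          rw [h4 _ hb, neg_neg] at h5
          exact h5
    have hnorm : ∀ (g' : ℕ) (f : ℤ[X]), f ∈ RW g' q → ∀ b ∈ Rt f, ∀ ι : Qb →+* ℂ,
        ‖ι b‖ ≤ 2 * Real.sqrt q := by
      intro g' f hf b hb ι
      have h1 : aeval (ι b) f = 0 := by
        have h2 : aeval b f = 0 := hb
        have h3 := congrArg ι h2
        rw [map_zero, Polynomial.aeval_def, Polynomial.hom_eval₂] at h3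
        rw [Polynomial.aeval_def, ← h3]
        congr 1
        exact Subsingleton.elim _ _
      obtain ⟨h2, h3⟩ := hf.2.2 _ h1
      have h4 : ι b = ((ι b).re : ℂ) := by
        apply Complex.ext
        · simp
        · simpa using h2
      rw [h4, Complex.norm_real, Real.norm_eq_abs]
      exact h3
    exact TRI_caseB hSTAB hq1 hord.1 hO7 hint hRσ (fun b => G2 (xo b)) hB2
      (fun b hb => hint' _ (hβR b hb))
      (fun ι b hb => ⟨hnorm _ h' hh'.2.1.1 _ (hβR b hb) ι, hnorm _ h hord.1 b hb ι⟩)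
      (m : ℤ) k (by exact_mod_cast hm1) (by exact_mod_cast hmT) hk0 hkH hmk hrel

end

end Pool.Agent.TJ2
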