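import Pool.Agent.TJ2.DELB
import Pool.Agent.TJ2.DEL
import Pool.Agent.TJ2.BOX
import Pool.Agent.TJ2.FIBA
import Pool.Agent.TJ2.FIBB
import Pool.Agent.TJ2.LOW
import Pool.Agent.TJ2.T2
import Pool.Agent.TJ2.CRT
import Pool.Agent.TJ2.IRRC
import Pool.Agent.TJ2.SQC
import Pool.Agent.TJ2.PATA
import Pool.Agent.TJ2.PATB
import Pool.Agent.TJ2.PATC
import Pool.Agent.TJ2.PATD
import Pool.Agent.TJ2.FROB
import Pool.Agent.TJ2.PA
import Pool.Agent.TJ2.PB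
import Pool.Agent.TJ2.PC
import Pool.Agent.TJ2.PD
import Pool.Agent.TJ2.GEN
import Pool.Agent.TJ2.T1
import Pool.Agent.TJ2.PI
import Pool.Agent.TJ2.SQA
import Pool.Agent.TJ2.SQB
import Pool.Agent.TJ2.T3A
import Pool.Agent.TJ2.T3B
import Pool.Agent.TJ2.T3C
import Pool.Agent.TJ2.T3
import Pool.Agent.TJ2.STAB
import Pool.Agent.TJ2.EMB
import Pool.Agent.TJ2.OMB
import Pool.Agent.TJ2.FULC
import Pool.Agent.TJ2.PHI
import Pool.Agent.TJ2.THE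
import Pool.Agent.TJ2.CNF
import Pool.Agent.TJ2.CNA
import Pool.Agent.TJ2.DIV
import Pool.Agent.TJ2.CNB
import Pool.Agent.TJ2.TRI
import Pool.Agent.TJ2.SQF
import Pool.Agent.TJ2.T4
import Pool.Agent.TJ2.DENS

/-!
# Theorem J: assembly of the counting half (MP_6c4da4_ag)

`t_DENS_all : S_DENS`, the density theorem (Theorem A of `PAPER.md`), without hypotheses.
-/

namespace Pool.Agent.TJ2

theorem AsmA_DELB : S_DELB := t_DELB t_DEL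

theorem AsmA_FIBA : S_FIBA := t_FIBA t_BOX

theorem AsmA_T1 : S_T1 :=
  t_T1 (t_CRT t_BOX) (t_PATA t_IRRC) (t_PATB t_IRRC) (t_PATC t_IRRC) (t_PATD t_SQC) t_PA
    (t_PB t_FROB) (t_PC t_FROB) (t_PD t_FROB) t_GEN

theorem AsmA_T2 : S_T2 := t_T2 AsmA_FIBA

theorem AsmA_T3 : S_T3 :=
  t_T3 (t_T3A AsmA_FIBA t_BOX t_SQA) (t_T3B AsmA_FIBA t_BOX AsmA_DELB t_SQB t_PI)
    (t_T3C (t_FIBB t_BOX) t_BOX AsmA_DELB)

theorem AsmA_PHI : S_PHI := t_PHI t_OMB t_FULC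

theorem AsmA_THE : S_THE := t_THE t_STAB t_EMB t_OMB t_DEL

theorem AsmA_TRI : S_TRI := t_TRI t_STAB t_EMB t_OMB t_FULC AsmA_PHI AsmA_THE

theorem AsmA_T4 : S_T4 :=
  t_T4 AsmA_TRI (t_CNA t_CNF) (t_CNB t_DIV) (t_SQF t_OMB t_DEL) t_BOX

/-- Theorem A: for every `g ≥ 1` almost all ordinary real Weil polynomials of degree `g` are in
`Sel q`, as `q` runs through the prime powers. -/
theorem t_DENS_all : S_DENS := t_DENS t_BOX t_LOW AsmA_T1 AsmA_T2 AsmA_T3 AsmA_T4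

end Pool.Agent.TJ2
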