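import Pool.Agent.TJ2.Defs
import Pool.Agent.MotP.Defs

/-!
# Theorem J: definitions of the categorical part (MP_6c4da4_ag, helper2)
-/

open CategoryTheory MonoidalCategory BraidedCategory Limits Polynomial

universe v u

namespace Pool.Agent.TJ2

noncomputable section

/-- the Weil polynomial `x ^ g h (x + q / x)` -/
def weil (q : ℕ) (h : ℤ[X]) : ℤ[X] :=
  ∑ i ∈ Finset.range (h.natDegree + 1),
    C (h.coeff i) * (X ^ 2 + C (q : ℤ)) ^ i * X ^ (h.natDegree - i)

variable {C : Type u} [Category.{v} C] [Preadditive C] [Linear ℚ C] [MonoidalCategory C]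
  [SymmetricCategory C] [MonoidalPreadditive C] [MonoidalLinear ℚ C] [RightRigidCategory C]

/-- Objects `T` (Lefschetz motive), `T'` (its inverse), `χ` (the Artin motive of the quadratic
character) and `M h`, `h ∈ S` (the motive `h¹` of an abelian variety with Weil polynomial
`x ^ g h (x + q / x)`), in a category with a Frobenius structure:
`T ⊗ T' ≅ 1`, `F_T = q`; `χ ⊗ χ ≅ 1`, `F_χ = -1`; `M h` is odd with Frobenius eigenvalues the roots
of the Weil polynomial, and the Weil polynomial kills the Frobenius of `M h`;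
`(M h)' ⊗ T ≅ M h` (polarisation); an idempotent endomorphism of `M h ⊗ M h` of trace zero is zero
(which holds if `M h` is oddly finite-dimensional in the sense of Kimura); and
`M (tw h) ≅ χ ⊗ M h` (quadratic twist). -/
structure AV (W : MotP.Frobenius C) (q : ℕ) (S : Set ℤ[X]) where
  T : C
  T' : C
  χ : C
  M : ℤ[X] → C
  unitT : Nonempty (T ⊗ T' ≅ 𝟙_ C)
  frobT : W.F.app T = (q : ℚ) • 𝟙 T
  unitχ : Nonempty (χ ⊗ χ ≅ 𝟙_ C)
  frobχ : W.F.app χ = -𝟙 χ
  even : ∀ h ∈ S, W.even (M h) = 0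
  odd : ∀ h ∈ S, W.odd (M h) = (weil q h).aroots ℂ
  root : ∀ h ∈ S, aeval (Mot.component W.F (M h)) (weil q h) = 0
  pol : ∀ h ∈ S, Nonempty ((M h)ᘁ ⊗ T ≅ M h)
  kim : ∀ h ∈ S, ∀ e : M h ⊗ M h ⟶ M h ⊗ M h, e ≫ e = e → Mot.trace e = 0 → e = 0
  twist : ∀ h ∈ S, Nonempty (M (tw h) ≅ χ ⊗ M h)

/-- the objects `T`, `χ` and `M h`, `h ∈ S` -/
def AV.Obj {W : MotP.Frobenius C} {q : ℕ} {S : Set ℤ[X]} (D : AV W q S) (Y : C) : Prop :=
  Y = D.T ∨ Y = D.χ ∨ ∃ h ∈ S, Y = D.M h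

/-- The objects generated by those with `P`, under tensor products, duals, direct sums and direct
summands. -/
inductive Gen (P : C → Prop) : C → Prop
  | of (X : C) : P X → Gen P X
  | unit : Gen P (𝟙_ C)
  | tensor (X Y : C) : Gen P X → Gen P Y → Gen P (X ⊗ Y)
  | dual (X : C) : Gen P X → Gen P Xᘁ
  | sum (X Y Z : C) (i : X ⟶ Z) (p : Z ⟶ X) (j : Y ⟶ Z) (q : Z ⟶ Y) : i ≫ p = 𝟙 X →
      j ≫ q = 𝟙 Y → p ≫ i + q ≫ j = 𝟙 Z → Gen P X → Gen P Y → Gen P Z
  | summand (X Y : C) (i : Y ⟶ X) (p : X ⟶ Y) : i ≫ p = 𝟙 Y → Gen P X → Gen P Y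

/-- The full subcategory of the generated objects. -/
abbrev GenCat (P : C → Prop) : Type u := ObjectProperty.FullSubcategory (fun X : C => Gen P X)

end

end Pool.Agent.TJ2
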