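import Pool.Agent.TJ2.Stmts3

/-!
# Theorem J: the operators on the factors of a tensor word commute
-/

open CategoryTheory MonoidalCategory BraidedCategory Limits Polynomial

universe v u

namespace Pool.Agent.TJ2

theorem COM_aux (C : Type u) [Category.{v} C] [MonoidalCategory C] (F : 𝟭 C ⟶ 𝟭 C)
    (M : ℤ[X] → C) (U : C) : ∀ (l : List ℤ[X]) (i j : ℕ),
    opZ F M U l i ≫ opZ F M U l j = opZ F M U l j ≫ opZ F M U l i
  | [], i, j => rfl
  | h :: l, 0, 0 => rfl
  | h :: l, 0, j + 1 => (whisker_exchange (F.app (M h)) (opZ F M U l j)).symm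
  | h :: l, i + 1, 0 => whisker_exchange (F.app (M h)) (opZ F M U l i)
  | h :: l, i + 1, j + 1 => by
    change M h ◁ opZ F M U l i ≫ M h ◁ opZ F M U l j =
      M h ◁ opZ F M U l j ≫ M h ◁ opZ F M U l i
    rw [← MonoidalCategory.whiskerLeft_comp, ← MonoidalCategory.whiskerLeft_comp,
      COM_aux C F M U l i j]

theorem t_COM : S_COM.{v, u} := by
  intro C _ _ F M U l i j
  exact COM_aux C F M U l i j

end Pool.Agent.TJ2
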