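import Pool.Agent.TJ2.Stmts

/-!
# Bounds for `delta` and `Yv` (Theorem J, module DELB)
-/

open Polynomial

namespace Pool.Agent.TJ2

namespace DELB

theorem norm_prod_le (s : Multiset ℂ) (f : ℂ → ℂ) {M : ℝ} (hM : 0 ≤ M)
    (h : ∀ b ∈ s, ‖f b‖ ≤ M) : ‖(s.map f).prod‖ ≤ M ^ s.card := by
  induction s using Multiset.induction_on with
  | empty => simp
  | cons a s ih =>
    rw [Multiset.map_cons, Multiset.prod_cons, norm_mul, Multiset.card_cons, pow_succ, mul_comm]
    have h1 := ih fun b hb => h b (Multiset.mem_cons_of_mem hb)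
    have h2 := h a (Multiset.mem_cons_self a s)
    exact mul_le_mul h1 h2 (norm_nonneg _) (by positivity)

/-- `p ∣ Xv - h 0` -/
theorem dvd_Xv (p q : ℕ) (h : ℤ[X]) (hpq : p ∣ q) : (p : ℤ) ∣ Xv q h - h.coeff 0 := by
  unfold Xv
  rw [Finset.sum_range_succ']
  have h0 : (if Even 0 then h.coeff 0 * (4 * (q : ℤ)) ^ (0 / 2) else 0) = h.coeff 0 := by simp
  rw [h0, add_sub_cancel_right]
  apply Finset.dvd_sum
  intro i _
  split_ifs with he
  · have h1 : 1 ≤ (i + 1) / 2 := by
      obtain ⟨j, hj⟩ := he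
      omega
    apply Dvd.dvd.mul_left
    apply dvd_pow _ (by omega)
    apply Dvd.dvd.mul_left
    exact_mod_cast hpq
  · exact dvd_zero _

end DELB

theorem t_DELB (hDEL : S_DEL) : S_DELB := by
  intro g q h hg hq hO
  obtain ⟨⟨hmon, hdeg, hroots⟩, hord⟩ := hO
  obtain ⟨h1, h2, h3, _⟩ := hDEL q h hmon
  have hq0 : 0 < q := hq.pos
  have hq1 : q ≠ 1 := hq.one_lt.ne'
  have hp : q.minFac.Prime := Nat.minFac_prime hq1
  have hpZ : Prime (q.minFac : ℤ) := Nat.prime_iff_prime_int.1 hp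
  have hpq : q.minFac ∣ q := Nat.minFac_dvd q
  have hs0 : (0:ℝ) < Real.sqrt q := Real.sqrt_pos.2 (by exact_mod_cast hq0)
  have hs2 : Real.sqrt q ^ 2 = q := Real.sq_sqrt (by positivity)
  have hsplit : (h.map (algebraMap ℤ ℂ)).Splits := IsAlgClosed.splits _
  have hcard : (h.aroots ℂ).card = g := by
    rw [← hdeg]
    apply IsAlgClosed.card_aroots_eq_natDegree_of_leadingCoeff_ne_zero
    rw [hmon.leadingCoeff]
    simp
  have hrt : ∀ b ∈ h.aroots ℂ, b.im = 0 ∧ |b.re| ≤ 2 * Real.sqrt q := by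
    intro b hb
    exact hroots b ((mem_aroots.1 hb).2)
  -- divisibility
  have hndvd : ¬ (q.minFac : ℤ) ∣ delta q h := by
    intro hd
    have h5 := DELB.dvd_Xv q.minFac q h hpq
    have h6 : (q.minFac : ℤ) ∣ Xv q h ^ 2 := by
      have h7 : (q.minFac : ℤ) ∣ 4 * q * Yv q h ^ 2 := by
        apply Dvd.dvd.mul_right
        apply Dvd.dvd.mul_left
        exact_mod_cast hpq
      have h8 := dvd_add hd h7
      have h9 : delta q h + 4 * q * Yv q h ^ 2 = Xv q h ^ 2 := by
        unfold delta; ring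
      rwa [h9] at h8
    have h7 := hpZ.dvd_of_dvd_pow h6
    have h8 := dvd_sub h7 h5
    rw [sub_sub_cancel] at h8
    exact hord h8
  have hne : delta q h ≠ 0 := by
    intro h0
    rw [h0] at hndvd
    exact hndvd (dvd_zero _)
  refine ⟨hndvd, abs_pos.2 hne, ?_, ?_⟩
  · -- the bound for delta
    have h5 : ‖(delta q h : ℂ)‖ ≤ (4 * (q:ℝ)) ^ g := by
      rw [h3, ← hcard]
      apply DELB.norm_prod_le _ _ (by positivity)
      intro b hb
      obtain ⟨hi, hr⟩ := hrt b hb
      have hb' : b = ((b.re : ℝ) : ℂ) := by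
        apply Complex.ext <;> simp [hi]
      rw [hb']
      have e : ((b.re : ℝ) : ℂ) ^ 2 - 4 * (q : ℂ) = ((b.re ^ 2 - 4 * q : ℝ) : ℂ) := by
        push_cast; ring
      rw [e, Complex.norm_real, Real.norm_eq_abs]
      have h6 : b.re ^ 2 ≤ 4 * q := by
        have h7 := pow_le_pow_left₀ (abs_nonneg b.re) hr 2
        rw [sq_abs, mul_pow, hs2] at h7
        linarith
      rw [abs_le]
      constructor
      · nlinarith [sq_nonneg b.re]
      · have : (0:ℝ) ≤ q := by positivity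
        linarith
    have h6 : ‖(delta q h : ℂ)‖ = |(delta q h : ℝ)| := by
      rw [← Real.norm_eq_abs, ← Complex.norm_real]
      congr 1
    rw [h6] at h5
    exact_mod_cast h5
  · -- the bound for Yv
    have key : ∀ c : ℝ, |c| ≤ 2 * Real.sqrt q → |aeval c h| ≤ (4 * Real.sqrt q) ^ g := by
      intro c hc
      have h5 : ((aeval c h : ℝ) : ℂ) = aeval (c : ℂ) h := by
        have := aeval_algebraMap_apply ℂ c h
        rw [← Complex.coe_algebraMap]
        exact this.symm
      have h6 : ‖aeval (c : ℂ) h‖ ≤ (4 * Real.sqrt q) ^ g := by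
        rw [hsplit.aeval_eq_prod_aroots_of_monic hmon, ← hcard]
        apply DELB.norm_prod_le _ _ (by positivity)
        intro b hb
        obtain ⟨hi, hr⟩ := hrt b hb
        have hb' : b = ((b.re : ℝ) : ℂ) := by
          apply Complex.ext <;> simp [hi]
        rw [hb', ← Complex.ofReal_sub, Complex.norm_real, Real.norm_eq_abs]
        refine (abs_sub _ _).trans ?_
        linarith
      rw [← h5, Complex.norm_real, Real.norm_eq_abs] at h6
      exact h6
    have ha : |(2 * Real.sqrt q : ℝ)| ≤ 2 * Real.sqrt q := by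
      rw [abs_of_pos (by positivity)]
    have hb : |(-(2 * Real.sqrt q) : ℝ)| ≤ 2 * Real.sqrt q := by
      rw [abs_neg, abs_of_pos (by positivity)]
    have h5 := key _ ha
    have h6 := key _ hb
    have h7 : 4 * Real.sqrt q * (Yv q h : ℝ) =
        aeval (2 * Real.sqrt q) h - aeval (-(2 * Real.sqrt q)) h := by
      rw [h1, h2]; ring
    have h8 : 4 * Real.sqrt q * |(Yv q h : ℝ)| ≤ 2 * (4 * Real.sqrt q) ^ g := by
      calc 4 * Real.sqrt q * |(Yv q h : ℝ)| = |4 * Real.sqrt q * (Yv q h : ℝ)| := by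
            rw [abs_mul, abs_of_pos (by positivity : 0 < 4 * Real.sqrt q)]
        _ = |aeval (2 * Real.sqrt q) h - aeval (-(2 * Real.sqrt q)) h| := by rw [h7]
        _ ≤ |aeval (2 * Real.sqrt q) h| + |aeval (-(2 * Real.sqrt q)) h| := abs_sub _ _
        _ ≤ 2 * (4 * Real.sqrt q) ^ g := by linarith
    have h9 : (4 * Real.sqrt q) ^ g = (4 * Real.sqrt q) * (4 ^ (g - 1) * Real.sqrt q ^ (g - 1)) := by
      obtain ⟨m, rfl⟩ : ∃ m, g = m + 1 := ⟨g - 1, by omega⟩
      rw [pow_succ, mul_pow, Nat.add_sub_cancel]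
      ring
    rw [h9] at h8
    have h10 : 4 * Real.sqrt q * |(Yv q h : ℝ)| ≤
        4 * Real.sqrt q * (2 * 4 ^ (g - 1) * Real.sqrt q ^ (g - 1)) := by
      calc _ ≤ _ := h8
        _ = _ := by ring
    have h11 := le_of_mul_le_mul_left h10 (by positivity)
    exact h11

end Pool.Agent.TJ2
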