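import Mathlib

/-!
# Theorem J: definitions of the arithmetic part (MP_6c4da4_ag, helper2)

`q` is a prime power, `p = q.minFac`.  See `PAPER.md`.
-/

open Polynomial IntermediateField

namespace Pool.Agent.TJ2

noncomputable section

/-- the field of algebraic numbers -/
abbrev Qb : Type := AlgebraicClosure ℚ

/-- the scale `q ^ (g (g + 1) / 4)`, the product of the `(√q) ^ (g - i)`, `i < g` -/
def Lam (g q : ℕ) : ℝ := ∏ i ∈ Finset.range g, Real.sqrt q ^ (g - i)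

/-- real Weil polynomials: monic integer polynomials of degree `g` all of whose complex roots are
real and in `[-2√q, 2√q]` -/
def RW (g q : ℕ) : Set ℤ[X] :=
  {h | h.Monic ∧ h.natDegree = g ∧
    ∀ z : ℂ, aeval z h = 0 → z.im = 0 ∧ |z.re| ≤ 2 * Real.sqrt q}

/-- the ordinary ones: the constant coefficient is prime to `q` -/
def Ord (g q : ℕ) : Set ℤ[X] := {h | h ∈ RW g q ∧ ¬ (q.minFac : ℤ) ∣ h.coeff 0}

/-- the roots of the Weil polynomial `x ^ g h (x + q / x)` -/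
def Om (q : ℕ) (h : ℤ[X]) : Set Qb := {a | a ≠ 0 ∧ aeval (a + (q : Qb) / a) h = 0}

/-- the Galois group of `x ^ g h (x + q / x)` is as large as possible: there are `2 g` different
roots, and every permutation of the roots compatible with `a ↦ q / a` is induced by an
automorphism of the field of algebraic numbers -/
def Full (q : ℕ) (h : ℤ[X]) : Prop :=
  (Om q h).ncard = 2 * h.natDegree ∧
  ∀ τ : Qb → Qb, Set.BijOn τ (Om q h) (Om q h) →
    (∀ a ∈ Om q h, τ ((q : Qb) / a) = (q : Qb) / τ a) →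
    ∃ σ : Qb ≃ₐ[ℚ] Qb, ∀ a ∈ Om q h, σ a = τ a

/-- the quadratic twist `(-1) ^ g h (-x)` -/
def tw (h : ℤ[X]) : ℤ[X] := C ((-1) ^ h.natDegree) * h.comp (-X)

/-- `h (2√q) = Xv + 2√q Yv` -/
def Xv (q : ℕ) (h : ℤ[X]) : ℤ :=
  ∑ i ∈ Finset.range (h.natDegree + 1), if Even i then h.coeff i * (4 * (q : ℤ)) ^ (i / 2) else 0

/-- `h (2√q) = Xv + 2√q Yv` -/
def Yv (q : ℕ) (h : ℤ[X]) : ℤ :=
  ∑ i ∈ Finset.range (h.natDegree + 1), if Odd i then h.coeff i * (4 * (q : ℤ)) ^ (i / 2) else 0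

/-- the integer `h (2√q) h (-2√q)`, the product of all `b ^ 2 - 4 q`, `b` a root of `h` -/
def delta (q : ℕ) (h : ℤ[X]) : ℤ := Xv q h ^ 2 - 4 * q * Yv q h ^ 2

/-- the full ordinary real Weil polynomials of all degrees `≥ 1` -/
def FO (q : ℕ) : Set ℤ[X] := {h | 1 ≤ h.natDegree ∧ h ∈ Ord h.natDegree q ∧ Full q h}

/-- the set `S(q)` of the paper -/
def Sel (q : ℕ) : Set ℤ[X] :=
  {h | h ∈ FO q ∧
    (∀ h' ∈ FO q, ∀ a ∈ Om q h, ∀ a' ∈ Om q h', ℚ⟮a⟯ = ℚ⟮a'⟯ → h' = h ∨ h' = tw h) ∧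
    (h.natDegree = 2 → ∀ h' ∈ FO q, h'.natDegree = 2 →
      ¬ IsSquare ((h'.coeff 1 ^ 2 - 4 * h'.coeff 0) * delta q h))}

/-- the roots of `h` -/
def Rt (h : ℤ[X]) : Set Qb := {b | aeval b h = 0}

/-- not full -/
def T1 (g q : ℕ) : Set ℤ[X] := {h | h ∈ Ord g q ∧ ¬ Full q h}

/-- a root near `2√q` or `-2√q` -/
def T2 (g q : ℕ) (ε : ℝ) : Set ℤ[X] :=
  {h | h ∈ RW g q ∧ ∃ z : ℂ, aeval z h = 0 ∧ (2 - ε) * Real.sqrt q < |z.re|}

/-- `delta` has a large square divisor -/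
def T3 (g q T : ℕ) : Set ℤ[X] :=
  {h | h ∈ Ord g q ∧ ∃ d : ℕ, T < d ∧ (d : ℤ) ^ 2 ∣ delta q h}

/-- full, ordinary, not in `T2`, `T3`, but not in `Sel` -/
def T4 (g q : ℕ) (ε : ℝ) (T : ℕ) : Set ℤ[X] :=
  {h | h ∈ Ord g q ∧ Full q h ∧ h ∉ T2 g q ε ∧ h ∉ T3 g q T ∧ h ∉ Sel q}

/-- the monic polynomial with given lower coefficients -/
def mk {R : Type*} [CommRing R] (g : ℕ) (v : Fin g → R) : R[X] :=
  X ^ g + ∑ i : Fin g, C (v i) * X ^ (i : ℕ)

/-- reduction modulo `l` -/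
def red (l : ℕ) (h : ℤ[X]) : (ZMod l)[X] := h.map (Int.castRingHom (ZMod l))

/-- pattern (b): a linear factor times an irreducible factor of degree `g - 1` -/
def PatB {l : ℕ} (g : ℕ) (k : (ZMod l)[X]) : Prop :=
  ∃ (a : ZMod l) (r : (ZMod l)[X]), k = (X - C a) * r ∧ Irreducible r ∧ r.natDegree = g - 1 ∧
    r.eval a ≠ 0

/-- pattern (c): an irreducible quadratic factor times different linear factors -/
def PatC {l : ℕ} (g : ℕ) (k : (ZMod l)[X]) : Prop :=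
  ∃ (r : (ZMod l)[X]) (s : Finset (ZMod l)), Irreducible r ∧ r.natDegree = 2 ∧ s.card = g - 2 ∧
    k = r * ∏ a ∈ s, (X - C a)

/-- pattern (d): different linear factors, `b ^ 2 - 4 q` is a non-square for exactly one root, and
a nonzero square for the others -/
def PatD {l : ℕ} (g q : ℕ) (k : (ZMod l)[X]) : Prop :=
  ∃ (s : Finset (ZMod l)) (b : ZMod l), s.card = g ∧ b ∈ s ∧ k = ∏ a ∈ s, (X - C a) ∧
    ¬ IsSquare (b ^ 2 - 4 * (q : ZMod l)) ∧
    ∀ a ∈ s, a ≠ b → a ^ 2 - 4 * (q : ZMod l) ≠ 0 ∧ IsSquare (a ^ 2 - 4 * (q : ZMod l))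

end

end Pool.Agent.TJ2
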