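import Pool.Agent.TJ2.Stmts4
import Pool.Agent.TJ2.Stmts3

/-!
# Theorem J2, module JC: independence with twists
-/

set_option autoImplicit false

open Polynomial IntermediateField

namespace Pool.Agent.TJ2

noncomputable section

lemma JC_om_tw {q : ℕ} {h : ℤ[X]} {a : Qb} (ha : a ∈ Om q h) : -a ∈ Om q (tw h) := by
  obtain ⟨h0, h1⟩ := ha
  refine ⟨neg_ne_zero.2 h0, ?_⟩
  unfold tw
  rw [map_mul, aeval_comp, map_neg, aeval_X]
  have h2 : -(-a + (q : Qb) / -a) = a + (q : Qb) / a := by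
    rw [div_neg]
    ring
  rw [h2, h1, mul_zero]

open Classical in
/-- the representative -/
def JC_rep (S₀ : Set ℤ[X]) (y : ℤ[X] × Qb) : ℤ[X] × Qb :=
  if y.1 ∈ S₀ then y else (tw y.1, -y.2)

lemma JC_rep_mem {q : ℕ} {S₀ : Set ℤ[X]} (hS : ∀ h ∈ Sel q, h ∈ S₀ ∨ (tw h ∈ S₀ ∧ h = tw (tw h)))
    {y : ℤ[X] × Qb} (h1 : y.1 ∈ Sel q) (h2 : y.2 ∈ Om q y.1) :
    (JC_rep S₀ y).1 ∈ S₀ ∧ (JC_rep S₀ y).2 ∈ Om q (JC_rep S₀ y).1 := by
  unfold JC_rep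
  split_ifs with h
  · exact ⟨h, h2⟩
  · rcases hS _ h1 with h3 | ⟨h3, _⟩
    · exact absurd h3 h
    · exact ⟨h3, JC_om_tw h2⟩

lemma JC_rep_snd (S₀ : Set ℤ[X]) (y : ℤ[X] × Qb) :
    (JC_rep S₀ y).2 = y.2 ∨ (JC_rep S₀ y).2 = -y.2 := by
  unfold JC_rep
  split_ifs
  · exact Or.inl rfl
  · exact Or.inr rfl

lemma JC_prod (S₀ : Set ℤ[X]) (l : List (ℤ[X] × Qb)) :
    ((l.map (JC_rep S₀)).map Prod.snd).prod ^ 2 = (l.map Prod.snd).prod ^ 2 := by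
  induction l with
  | nil => simp
  | cons y l ih =>
    simp only [List.map_cons, List.prod_cons, mul_pow]
    rw [ih]
    rcases JC_rep_snd S₀ y with h | h <;> rw [h]
    rw [neg_sq]

theorem t_JC (hOMB : S_OMB) (hIND : S_IND) (hREP : S_REP) : S_JC := by
  classical
  intro q hq x l hx1 hx2 hl k hprod
  have hq1 : 1 ≤ q := hq.one_lt.le
  have hq0 : (q : Qb) ≠ 0 := by
    have : q ≠ 0 := by omega
    exact_mod_cast this
  obtain ⟨S₀, hS0, hS, htw⟩ := hREP q hq1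
  have hmem : ∀ y ∈ x :: l, y.1 ∈ Sel q ∧ y.2 ∈ Om q y.1 := by
    intro y hy
    rcases List.mem_cons.1 hy with rfl | hy
    · exact ⟨hx1, hx2⟩
    · exact hl y hy
  have hL : ∀ z ∈ (x :: l).map (JC_rep S₀), z.1 ∈ S₀ ∧ z.2 ∈ Om q z.1 := by
    intro z hz
    obtain ⟨y, hy, rfl⟩ := List.mem_map.1 hz
    exact JC_rep_mem hS (hmem y hy).1 (hmem y hy).2
  have hcount := hIND q hq ((x :: l).map (JC_rep S₀)) (fun z hz => ⟨hS0 (hL z hz).1, (hL z hz).2⟩)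
    (fun z hz z' hz' => htw _ (hL z hz).1 _ (hL z' hz').1) 2 k (by norm_num)
    (by rw [JC_prod, List.map_cons, List.prod_cons]; exact hprod)
    (JC_rep S₀ x).1 (JC_rep S₀ x).2
  have hxL : JC_rep S₀ x ∈ (x :: l).map (JC_rep S₀) := by
    rw [List.map_cons]
    exact List.mem_cons_self
  have hpos : 0 < ((x :: l).map (JC_rep S₀)).count ((JC_rep S₀ x).1, (JC_rep S₀ x).2) :=
    List.count_pos_iff.2 hxL
  have hpos' : ((JC_rep S₀ x).1, (q : Qb) / (JC_rep S₀ x).2) ∈ (x :: l).map (JC_rep S₀) := by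
    refine List.count_pos_iff.1 ?_
    rw [← hcount]
    exact hpos
  have hxs := hL _ hxL
  have hsel := hS0 hxs.1
  have hne : (JC_rep S₀ x).2 ≠ (q : Qb) / (JC_rep S₀ x).2 := by
    obtain ⟨⟨_, hord, hfull⟩, _⟩ := hsel
    obtain ⟨-, -, -, -, h5⟩ := hOMB _ q (JC_rep S₀ x).1 hq1 hord.1.1 rfl
    exact (h5 hfull.1).1 _ hxs.2
  rw [List.map_cons, List.mem_cons] at hpos'
  rcases hpos' with h | h
  · exact absurd (congrArg Prod.snd h).symm hne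
  · obtain ⟨y, hy, hyx⟩ := List.mem_map.1 h
    refine ⟨y, hy, ?_⟩
    have h1 : (JC_rep S₀ y).2 = (q : Qb) / (JC_rep S₀ x).2 := congrArg Prod.snd hyx
    have hx0 : (JC_rep S₀ x).2 ≠ 0 := hxs.2.1
    have h2 : ((JC_rep S₀ x).2 * (JC_rep S₀ y).2) ^ 2 = (q : Qb) ^ 2 := by
      rw [h1, mul_div_cancel₀ _ hx0]
    rw [← h2, mul_pow, mul_pow]
    rcases JC_rep_snd S₀ x with h3 | h3 <;> rcases JC_rep_snd S₀ y with h4 | h4 <;>
      rw [h3, h4] <;> ring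

end

end Pool.Agent.TJ2
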