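import Pool.Agent.TJ2.Stmts5

/-!
# JF: descent for the exterior algebra under extension of scalars
-/

set_option autoImplicit false

open scoped TensorProduct

namespace Pool.Agent.TJ2

section

variable {K L V : Type} [Field K] [Field L] [Algebra K L] [AddCommGroup V] [Module K V]

/-- The map of exterior algebras. -/
noncomputable def JF_phi (K L V : Type) [Field K] [Field L] [Algebra K L] [AddCommGroup V]
    [Module K V] : ExteriorAlgebra K V →ₐ[K] ExteriorAlgebra L (L ⊗[K] V) :=
  ExteriorAlgebra.lift K ⟨((ExteriorAlgebra.ι L).restrictScalars K) ∘ₗ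
    (TensorProduct.mk K L V 1), fun _ => ExteriorAlgebra.ι_sq_zero _⟩

theorem JF_phi_ι (v : V) : JF_phi K L V (ExteriorAlgebra.ι K v) =
    ExteriorAlgebra.ι L ((1 : L) ⊗ₜ[K] v) := by
  unfold JF_phi
  rw [ExteriorAlgebra.lift_ι_apply]
  rfl

theorem JF_swap (m m' : L ⊗[K] V) :
    (ExteriorAlgebra.ι K).baseChange L m * (ExteriorAlgebra.ι K).baseChange L m' +
      (ExteriorAlgebra.ι K).baseChange L m' * (ExteriorAlgebra.ι K).baseChange L m = 0 := by
  induction m using TensorProduct.induction_on with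
  | zero => simp
  | add x y hx hy =>
    rw [map_add, add_mul, mul_add]
    have : ∀ a b c d : L ⊗[K] ExteriorAlgebra K V, a + b + (c + d) = (a + c) + (b + d) :=
      fun a b c d => by abel
    rw [this, hx, hy, add_zero]
  | tmul l v =>
    induction m' using TensorProduct.induction_on with
    | zero => simp
    | add x y hx hy =>
      rw [map_add, add_mul, mul_add]
      have : ∀ a b c d : L ⊗[K] ExteriorAlgebra K V, a + b + (c + d) = (a + c) + (b + d) :=
        fun a b c d => by abel
      rw [this, hx, hy, add_zero]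
    | tmul l' v' =>
      rw [LinearMap.baseChange_tmul, LinearMap.baseChange_tmul,
        Algebra.TensorProduct.tmul_mul_tmul, Algebra.TensorProduct.tmul_mul_tmul, mul_comm l' l,
        ← TensorProduct.tmul_add, ExteriorAlgebra.ι_add_mul_swap, TensorProduct.tmul_zero]

theorem JF_sq [CharZero K] (m : L ⊗[K] V) :
    (ExteriorAlgebra.ι K).baseChange L m * (ExteriorAlgebra.ι K).baseChange L m = 0 := by
  have h1 := JF_swap m m
  have h2 : (2 : K) • ((ExteriorAlgebra.ι K).baseChange L m *
      (ExteriorAlgebra.ι K).baseChange L m) = 0 := by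
    rw [two_smul]
    exact h1
  exact (smul_eq_zero.1 h2).resolve_left two_ne_zero

/-- The map back. -/
noncomputable def JF_theta (K L V : Type) [Field K] [Field L] [Algebra K L] [CharZero K]
    [AddCommGroup V] [Module K V] :
    ExteriorAlgebra L (L ⊗[K] V) →ₐ[L] L ⊗[K] ExteriorAlgebra K V :=
  ExteriorAlgebra.lift L ⟨(ExteriorAlgebra.ι K).baseChange L, JF_sq⟩

theorem JF_theta_ι [CharZero K] (m : L ⊗[K] V) : JF_theta K L V (ExteriorAlgebra.ι L m) =
    (ExteriorAlgebra.ι K).baseChange L m := by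
  unfold JF_theta
  rw [ExteriorAlgebra.lift_ι_apply]

theorem JF_comp [CharZero K] (x : ExteriorAlgebra K V) :
    JF_theta K L V (JF_phi K L V x) = (1 : L) ⊗ₜ[K] x := by
  have h1 : ((JF_theta K L V).restrictScalars K).comp (JF_phi K L V) =
      Algebra.TensorProduct.includeRight := by
    apply ExteriorAlgebra.hom_ext
    ext v
    change JF_theta K L V (JF_phi K L V (ExteriorAlgebra.ι K v)) =
      (1 : L) ⊗ₜ[K] (ExteriorAlgebra.ι K v)
    rw [JF_phi_ι, JF_theta_ι, LinearMap.baseChange_tmul]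
  exact DFunLike.congr_fun h1 x

theorem JF_phi_mem {n : ℕ} {x : ExteriorAlgebra K V} (hx : x ∈ ⋀[K]^n V) :
    JF_phi K L V x ∈ ⋀[L]^n (L ⊗[K] V) := by
  have hx' : x ∈ (LinearMap.range (ExteriorAlgebra.ι K : V →ₗ[K] ExteriorAlgebra K V)) ^ n := hx
  induction hx' using Submodule.pow_induction_on_left' with
  | algebraMap r =>
    rw [AlgHom.commutes]
    change _ ∈ (LinearMap.range (ExteriorAlgebra.ι L : L ⊗[K] V →ₗ[L] _)) ^ 0
    rw [pow_zero, Submodule.mem_one]
    exact ⟨algebraMap K L r, (IsScalarTower.algebraMap_apply K L _ r).symm⟩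
  | add x y i hx1 hy1 ihx ihy =>
    rw [map_add]
    exact Submodule.add_mem _ (ihx hx1) (ihy hy1)
  | mem_mul m hm i x hx1 ih =>
    obtain ⟨v, rfl⟩ := hm
    rw [map_mul, JF_phi_ι]
    change _ ∈ (LinearMap.range (ExteriorAlgebra.ι L : L ⊗[K] V →ₗ[L] _)) ^ (i + 1)
    rw [pow_succ']
    exact Submodule.mul_mem_mul ⟨_, rfl⟩ (ih hx1)

theorem JF_phi_map (F : V →ₗ[K] V) (x : ExteriorAlgebra K V) :
    ExteriorAlgebra.map (F.baseChange L) (JF_phi K L V x) =
      JF_phi K L V (ExteriorAlgebra.map F x) := by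
  have h1 : ((ExteriorAlgebra.map (F.baseChange L)).restrictScalars K).comp (JF_phi K L V) =
      (JF_phi K L V).comp (ExteriorAlgebra.map F) := by
    apply ExteriorAlgebra.hom_ext
    ext v
    change ExteriorAlgebra.map (F.baseChange L) (JF_phi K L V (ExteriorAlgebra.ι K v)) =
      JF_phi K L V (ExteriorAlgebra.map F (ExteriorAlgebra.ι K v))
    rw [JF_phi_ι, ExteriorAlgebra.map_apply_ι, LinearMap.baseChange_tmul,
      ExteriorAlgebra.map_apply_ι, JF_phi_ι]
  exact DFunLike.congr_fun h1 x

theorem JF_theta_map [CharZero K] (F : V →ₗ[K] V) (y : ExteriorAlgebra L (L ⊗[K] V)) :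
    JF_theta K L V (ExteriorAlgebra.map (F.baseChange L) y) =
      (ExteriorAlgebra.map F).toLinearMap.baseChange L (JF_theta K L V y) := by
  have h1 : (JF_theta K L V).comp (ExteriorAlgebra.map (F.baseChange L)) =
      (Algebra.TensorProduct.map (AlgHom.id L L) (ExteriorAlgebra.map F)).comp
        (JF_theta K L V) := by
    apply ExteriorAlgebra.hom_ext
    apply TensorProduct.AlgebraTensorModule.ext
    intro l v
    change JF_theta K L V (ExteriorAlgebra.map (F.baseChange L)
      (ExteriorAlgebra.ι L (l ⊗ₜ[K] v))) =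
      Algebra.TensorProduct.map (AlgHom.id L L) (ExteriorAlgebra.map F)
        (JF_theta K L V (ExteriorAlgebra.ι L (l ⊗ₜ[K] v)))
    rw [ExteriorAlgebra.map_apply_ι, LinearMap.baseChange_tmul, JF_theta_ι, JF_theta_ι,
      LinearMap.baseChange_tmul, LinearMap.baseChange_tmul, Algebra.TensorProduct.map_tmul,
      ExteriorAlgebra.map_apply_ι]
    rfl
  have h2 := DFunLike.congr_fun h1 y
  have h3 : ∀ t : L ⊗[K] ExteriorAlgebra K V,
      Algebra.TensorProduct.map (AlgHom.id L L) (ExteriorAlgebra.map F) t =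
        (ExteriorAlgebra.map F).toLinearMap.baseChange L t := by
    intro t
    rfl
  rw [← h3]
  exact h2

end

section

variable {K L A : Type} [Field K] [Field L] [Algebra K L] [Ring A] [Algebra K A]

/-- The coordinates of an element of the base change. -/
noncomputable def JF_co {ι : Type} (b : Module.Basis ι K L) (i : ι) : L ⊗[K] A →ₗ[K] A :=
  (TensorProduct.lid K A).toLinearMap ∘ₗ (LinearMap.rTensor A (b.coord i))

theorem JF_co_tmul {ι : Type} (b : Module.Basis ι K L) (i : ι) (l : L) (a : A) :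
    JF_co b i (l ⊗ₜ[K] a) = b.repr l i • a := by
  change (TensorProduct.lid K A) (LinearMap.rTensor A (b.coord i) (l ⊗ₜ[K] a)) = _
  rw [LinearMap.rTensor_tmul, TensorProduct.lid_tmul]
  rfl

theorem JF_co_mem {ι : Type} (b : Module.Basis ι K L) (W : Submodule K A) {t : L ⊗[K] A}
    (h : ∀ i, JF_co b i t ∈ W) : t ∈ W.baseChange L := by
  obtain ⟨c, rfl⟩ := TensorProduct.eq_repr_basis_left b t
  refine Submodule.sum_mem _ fun i _ => ?_
  refine Submodule.tmul_mem_baseChange_of_mem _ ?_
  have h1 := h i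
  have h2 : JF_co b i (c.sum fun i n => b i ⊗ₜ[K] n) = c i := by
    rw [Finsupp.sum, map_sum]
    rw [Finset.sum_congr rfl fun j _ => JF_co_tmul b i (b j) (c j)]
    rw [Finset.sum_eq_single i]
    · simp
    · intro j _ hj
      rw [Module.Basis.repr_self, Finsupp.single_eq_of_ne hj.symm, zero_smul]
    · intro hi
      rw [Finsupp.notMem_support_iff.1 hi, smul_zero]
  rwa [h2] at h1

theorem JF_mem_co {ι : Type} (b : Module.Basis ι K L) (W : Submodule K A) {t : L ⊗[K] A}
    (h : t ∈ W.baseChange L) (i : ι) : JF_co b i t ∈ W := by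
  obtain ⟨s, rfl⟩ := h
  induction s using TensorProduct.induction_on with
  | zero => rw [map_zero, map_zero]; exact W.zero_mem
  | add x y hx hy => rw [map_add, map_add]; exact W.add_mem hx hy
  | tmul l w =>
    rw [LinearMap.baseChange_tmul, JF_co_tmul]
    exact W.smul_mem _ w.2

theorem JF_mem_co' {ι : Type} (b : Module.Basis ι K L) (B : Subalgebra K A) {t : L ⊗[K] A}
    (h : t ∈ Subalgebra.baseChange L B) (i : ι) : JF_co b i t ∈ B := by
  obtain ⟨s, rfl⟩ := h
  induction s using TensorProduct.induction_on with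
  | zero => rw [map_zero, map_zero]; exact B.zero_mem
  | add x y hx hy => rw [map_add, map_add]; exact B.add_mem hx hy
  | tmul l w =>
    change JF_co b i (Algebra.TensorProduct.map (AlgHom.id L L) B.val (l ⊗ₜ[K] w)) ∈ B
    rw [Algebra.TensorProduct.map_tmul, JF_co_tmul]
    exact B.smul_mem w.2 _

theorem JF_co_map {ι : Type} (b : Module.Basis ι K L) (i : ι) (N : A →ₗ[K] A) (t : L ⊗[K] A) :
    JF_co b i (N.baseChange L t) = N (JF_co b i t) := by
  induction t using TensorProduct.induction_on with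
  | zero => simp
  | add x y hx hy => rw [map_add, map_add, map_add, map_add, hx, hy]
  | tmul l a => rw [LinearMap.baseChange_tmul, JF_co_tmul, JF_co_tmul, map_smul]

theorem JF_descent (B : Subalgebra K A) {x : A} (h : (1 : L) ⊗ₜ[K] x ∈ Subalgebra.baseChange L B) :
    x ∈ B := by
  let b := Module.Basis.ofVectorSpace K L
  have h1 : b.repr (1 : L) ≠ 0 := by
    intro h0
    exact one_ne_zero (b.repr.map_eq_zero_iff.1 h0)
  obtain ⟨i, hi⟩ := Finsupp.ne_iff.1 h1
  have h2 := JF_mem_co' b B h i
  rw [JF_co_tmul] at h2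
  have h3 := B.smul_mem h2 (b.repr (1 : L) i)⁻¹
  rwa [smul_smul, inv_mul_cancel₀ hi, one_smul] at h3

end

section

variable {K L V : Type} [Field K] [Field L] [Algebra K L] [CharZero K] [AddCommGroup V]
  [Module K V]

theorem JF_two (m m' : L ⊗[K] V) :
    (ExteriorAlgebra.ι K).baseChange L m * (ExteriorAlgebra.ι K).baseChange L m' ∈
      (⋀[K]^2 V).baseChange L := by
  induction m using TensorProduct.induction_on with
  | zero => rw [map_zero, zero_mul]; exact Submodule.zero_mem _
  | add x y hx hy => rw [map_add, add_mul]; exact Submodule.add_mem _ hx hy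
  | tmul l v =>
    induction m' using TensorProduct.induction_on with
    | zero => rw [map_zero, mul_zero]; exact Submodule.zero_mem _
    | add x y hx hy => rw [map_add, mul_add]; exact Submodule.add_mem _ hx hy
    | tmul l' v' =>
      rw [LinearMap.baseChange_tmul, LinearMap.baseChange_tmul,
        Algebra.TensorProduct.tmul_mul_tmul]
      refine Submodule.tmul_mem_baseChange_of_mem _ ?_
      change _ ∈ (LinearMap.range (ExteriorAlgebra.ι K : V →ₗ[K] _)) ^ 2
      rw [pow_two]
      exact Submodule.mul_mem_mul ⟨_, rfl⟩ ⟨_, rfl⟩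

theorem JF_theta_two {y : ExteriorAlgebra L (L ⊗[K] V)} (hy : y ∈ ⋀[L]^2 (L ⊗[K] V)) :
    JF_theta K L V y ∈ (⋀[K]^2 V).baseChange L := by
  have hy' : y ∈ (LinearMap.range (ExteriorAlgebra.ι L : L ⊗[K] V →ₗ[L] _)) ^ 2 := hy
  rw [pow_two] at hy'
  induction hy' using Submodule.mul_induction_on' with
  | mem_mul_mem a ha b hb =>
    obtain ⟨m, rfl⟩ := ha
    obtain ⟨m', rfl⟩ := hb
    rw [map_mul, JF_theta_ι, JF_theta_ι]
    exact JF_two m m'
  | add a ha b hb iha ihb =>
    rw [map_add]
    refine Submodule.add_mem _ (iha ?_) (ihb ?_)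
    · change _ ∈ (LinearMap.range (ExteriorAlgebra.ι L : L ⊗[K] V →ₗ[L] _)) ^ 2
      rw [pow_two]
      exact ha
    · change _ ∈ (LinearMap.range (ExteriorAlgebra.ι L : L ⊗[K] V →ₗ[L] _)) ^ 2
      rw [pow_two]
      exact hb

theorem JF_deg2 (F : V →ₗ[K] V) (c : K) {y : ExteriorAlgebra L (L ⊗[K] V)}
    (hy : y ∈ Deg2 (F.baseChange L) (algebraMap K L c)) :
    JF_theta K L V y ∈ Subalgebra.baseChange L (Algebra.adjoin K (Deg2 F c)) := by
  obtain ⟨h1, h2⟩ := hy
  let N : ExteriorAlgebra K V →ₗ[K] ExteriorAlgebra K V :=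
    (ExteriorAlgebra.map (F ∘ₗ F)).toLinearMap - (c ^ 2) • LinearMap.id
  let W : Submodule K (ExteriorAlgebra K V) := ⋀[K]^2 V ⊓ LinearMap.ker N
  have hW : ∀ w ∈ W, w ∈ Deg2 F c := by
    rintro w ⟨h3, h4⟩
    refine ⟨h3, ?_⟩
    have h5 : N w = 0 := h4
    exact sub_eq_zero.1 h5
  have h3 : JF_theta K L V (ExteriorAlgebra.map ((F ∘ₗ F).baseChange L) y) =
      (ExteriorAlgebra.map (F ∘ₗ F)).toLinearMap.baseChange L (JF_theta K L V y) :=
    JF_theta_map _ _
  rw [LinearMap.baseChange_comp, h2, map_smul] at h3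
  let b := Module.Basis.ofVectorSpace K L
  have h4 : JF_theta K L V y ∈ W.baseChange L := by
    refine JF_co_mem b W fun i => ⟨?_, ?_⟩
    · exact JF_mem_co b _ (JF_theta_two h1) i
    · have h5 := congrArg (JF_co b i) h3
      rw [JF_co_map] at h5
      have h6 : (algebraMap K L c) ^ 2 • JF_theta K L V y = (c ^ 2) • JF_theta K L V y := by
        rw [← map_pow, algebraMap_smul]
      rw [h6, map_smul] at h5
      exact sub_eq_zero.2 h5.symm
  obtain ⟨s, hs⟩ := h4
  rw [← hs]
  clear hs h3
  induction s using TensorProduct.induction_on with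
  | zero => rw [map_zero]; exact Subalgebra.zero_mem _
  | add x y hx hy => rw [map_add]; exact Subalgebra.add_mem _ hx hy
  | tmul l w =>
    rw [LinearMap.baseChange_tmul]
    exact Subalgebra.tmul_mem_baseChange (Algebra.subset_adjoin (hW w w.2)) l

end

theorem t_JF : S_JF := by
  intro K L V _ _ _ _ _ _ _ F n c r hL x hx hxr
  have h1 := hL (JF_phi K L V x) (JF_phi_mem hx) (by
    rw [JF_phi_map, hxr, map_smul, algebraMap_smul])
  have h2 : JF_theta K L V (JF_phi K L V x) ∈
      Subalgebra.baseChange L (Algebra.adjoin K (Deg2 F c)) := by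
    have h3 : Algebra.adjoin L (Deg2 (F.baseChange L) (algebraMap K L c)) ≤
        (Subalgebra.baseChange L (Algebra.adjoin K (Deg2 F c))).comap (JF_theta K L V) :=
      Algebra.adjoin_le fun y hy => JF_deg2 F c hy
    exact h3 h1
  rw [JF_comp] at h2
  exact JF_descent _ h2

end Pool.Agent.TJ2
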