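import Pool.Agent.TJ2.Stmts5

/-!
JH: the theorem on Tate classes over an arbitrary field of characteristic zero
-/

set_option autoImplicit false

open Polynomial

namespace Pool.Agent.TJ2

theorem JH_aeval {K L V : Type} [Field K] [Field L] [Algebra K L] [AddCommGroup V] [Module K V]
    (F : Module.End K V) (p : K[X]) :
    aeval (LinearMap.baseChange L F : Module.End L (TensorProduct K L V))
      (p.map (algebraMap K L)) = LinearMap.baseChange L (aeval F p) := by
  rw [aeval_map_algebraMap]
  exact Polynomial.aeval_algHom_apply (Module.End.baseChangeHom K L V) F p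

theorem JH_semisimple {K L V : Type} [Field K] [Field L] [Algebra K L] [CharZero K]
    [AddCommGroup V] [Module K V] [Module.Finite K V] (F : Module.End K V)
    (hF : F.IsSemisimple) :
    Module.End.IsSemisimple (LinearMap.baseChange L F : Module.End L (TensorProduct K L V)) := by
  have h1 : Squarefree (minpoly K F) := hF.minpoly_squarefree
  have h2 : (minpoly K F).Separable := PerfectField.separable_iff_squarefree.2 h1
  have h3 : ((minpoly K F).map (algebraMap K L)).Separable := h2.map
  refine Module.End.isSemisimple_of_squarefree_aeval_eq_zero h3.squarefree ?_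
  rw [JH_aeval, minpoly.aeval, LinearMap.baseChange_zero]

theorem t_JH (hJG : S_JG) (hJF : S_JF) : S_JH := by
  intro q hq K _ _ V _ _ _ F m h hSel hF hchar j x hx hxF
  have hcz : CharZero (AlgebraicClosure K) := charZero_of_injective_algebraMap
    (algebraMap K (AlgebraicClosure K)).injective
  refine hJF K (AlgebraicClosure K) V F (2 * j) (q : K) ((q : K) ^ j) ?_ x hx hxF
  intro y hy hyF
  have e1 : algebraMap K (AlgebraicClosure K) (q : K) = (q : AlgebraicClosure K) :=
    map_natCast _ q
  rw [e1]
  rw [map_pow, e1] at hyF
  refine hJG q hq (AlgebraicClosure K) (TensorProduct K (AlgebraicClosure K) V)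
    (LinearMap.baseChange (AlgebraicClosure K) F) m h hSel (JH_semisimple F hF) ?_ j y hy hyF
  rw [LinearMap.charpoly_baseChange, hchar, Polynomial.map_prod]
  refine Finset.prod_congr rfl fun i _ => ?_
  rw [Polynomial.map_map]
  congr 1

end Pool.Agent.TJ2
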