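import Pool.Agent.TJ2.AsmA
import Pool.Agent.TJ2.AsmC
import Pool.Agent.TJ2.JA
import Pool.Agent.TJ2.JB
import Pool.Agent.TJ2.JC
import Pool.Agent.TJ2.JF
import Pool.Agent.TJ2.JG
import Pool.Agent.TJ2.JH

/-!
# Theorem J2: the final theorem on Tate classes (helper2)
-/

open Polynomial Filter

namespace Pool.Agent.TJ2

noncomputable section

theorem t_JH_all : S_JH :=
  t_JH (t_JG (t_WEI t_OMB) t_JA t_JB (t_JC t_OMB t_IND_all (t_REP t_OMB t_FULC))) t_JF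

theorem density {g : ℕ} (hg : 1 ≤ g) : Tendsto
    (fun q : {q : ℕ // IsPrimePow q} => ((Sel q ∩ Ord g q).ncard : ℝ) / (Ord g q).ncard)
    atTop (nhds 1) := by
  have hne : Nonempty {q : ℕ // IsPrimePow q} := ⟨⟨2, Nat.prime_two.isPrimePow⟩⟩
  rw [Metric.tendsto_atTop]
  intro ε hε
  obtain ⟨q₀, hq₀⟩ := t_DENS_all g hg (ε / 2) (by positivity)
  have hex : ∃ q : {q : ℕ // IsPrimePow q}, q₀ ≤ (q : ℕ) := by
    obtain ⟨p, hp1, hp2⟩ := Nat.exists_infinite_primes q₀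
    exact ⟨⟨p, hp2.isPrimePow⟩, hp1⟩
  obtain ⟨q₁, hq₁⟩ := hex
  refine ⟨q₁, fun q hq => ?_⟩
  obtain ⟨hfin, hpos, hle⟩ := hq₀ (q : ℕ) (le_trans hq₁ hq) q.2
  have h1 : (Sel q ∩ Ord g q).ncard + (Ord g q \ Sel q).ncard = (Ord g q).ncard := by
    rw [Set.inter_comm]
    exact Set.ncard_inter_add_ncard_sdiff_eq_ncard _ _ hfin
  have h2 : ((Sel q ∩ Ord g q).ncard : ℝ) + ((Ord g q \ Sel q).ncard : ℝ) =
      ((Ord g q).ncard : ℝ) := by exact_mod_cast h1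
  have hpos' : (0 : ℝ) < ((Ord g q).ncard : ℝ) := by exact_mod_cast hpos
  rw [Real.dist_eq]
  have h3 : ((Sel q ∩ Ord g q).ncard : ℝ) / (Ord g q).ncard - 1 =
      -(((Ord g q \ Sel q).ncard : ℝ) / (Ord g q).ncard) := by
    rw [← h2]
    rw [← h2] at hpos'
    field_simp
    ring
  rw [h3, abs_neg, abs_of_nonneg (by positivity), div_lt_iff₀ hpos']
  nlinarith

theorem main2 :
    ∃ S : ℕ → Set ℤ[X],
      (∀ q : ℕ, ∀ h ∈ S q, 1 ≤ h.natDegree ∧ h ∈ Ord h.natDegree q) ∧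
      (∀ g : ℕ, 1 ≤ g → Tendsto
        (fun q : {q : ℕ // IsPrimePow q} => ((S q ∩ Ord g q).ncard : ℝ) / (Ord g q).ncard)
        atTop (nhds 1)) ∧
      ∀ q : ℕ, IsPrimePow q → ∀ (K : Type) [Field K] [CharZero K] (V : Type) [AddCommGroup V]
        [Module K V] [Module.Finite K V] (F : Module.End K V) (m : ℕ) (h : Fin m → ℤ[X]),
        (∀ i, h i ∈ S q) → F.IsSemisimple →
        F.charpoly = ∏ i, (weil q (h i)).map (Int.castRingHom K) →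
        ∀ (j : ℕ) (x : ExteriorAlgebra K V), x ∈ ⋀[K]^(2 * j) V →
          ExteriorAlgebra.map F x = (q : K) ^ j • x → x ∈ Algebra.adjoin K (Deg2 F (q : K)) :=
  ⟨Sel, fun _ _ hh => ⟨hh.1.1, hh.1.2.1⟩, fun _ hg => density hg, t_JH_all⟩

end

end Pool.Agent.TJ2
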