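import Pool.Agent.TJ2.Stmts

/-!
# Pattern (b)
-/

open Polynomial IntermediateField

namespace Pool.Agent.TJ2

namespace PB

/-- roots of an irreducible polynomial over a prime field are conjugate under Frobenius -/
theorem PB_conj {l : ℕ} [Fact l.Prime] {k : Type} [Field k] [Algebra (ZMod l) k]
    {r : (ZMod l)[X]} (hr : Irreducible r) {x y : k} (hx : aeval x r = 0) (hy : aeval y r = 0) :
    ∃ n : ℕ, x ^ l ^ n = y := by
  have hx1 : IsIntegral (ZMod l) x := isAlgebraic_iff_isIntegral.1 ⟨r, hr.ne_zero, hx⟩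
  have hy1 : IsIntegral (ZMod l) y := isAlgebraic_iff_isIntegral.1 ⟨r, hr.ne_zero, hy⟩
  have hfd : FiniteDimensional (ZMod l) (IntermediateField.adjoin (ZMod l) ({x, y} : Set k)) :=
    IntermediateField.finiteDimensional_adjoin_pair hx1 hy1
  set L := IntermediateField.adjoin (ZMod l) ({x, y} : Set k) with hL
  have hfin : Finite L := Module.finite_of_finite (ZMod l)
  have hxL : x ∈ L := IntermediateField.subset_adjoin _ _ (by simp)
  have hyL : y ∈ L := IntermediateField.subset_adjoin _ _ (by simp)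
  have hc : IsConjRoot (ZMod l) (⟨x, hxL⟩ : L) (⟨y, hyL⟩ : L) := by
    show minpoly (ZMod l) (⟨x, hxL⟩ : L) = minpoly (ZMod l) (⟨y, hyL⟩ : L)
    rw [IntermediateField.minpoly_eq, IntermediateField.minpoly_eq]
    show minpoly (ZMod l) x = minpoly (ZMod l) y
    rw [← minpoly.eq_of_irreducible hr hx, ← minpoly.eq_of_irreducible hr hy]
  obtain ⟨τ, hτ⟩ := isConjRoot_iff_exists_algEquiv.1 hc.symm
  obtain ⟨n, hn⟩ := (FiniteField.bijective_frobeniusAlgEquivOfAlgebraic_pow (ZMod l) L).2 τ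
  refine ⟨n.1, ?_⟩
  rw [← hn] at hτ
  have h1 := FiniteField.coe_frobeniusAlgEquivOfAlgebraic_iterate (ZMod l) L n.1
  simp only [AlgEquiv.coe_pow, h1, ZMod.card] at hτ
  have h2 := congrArg (Subtype.val) hτ
  simpa using h2

/-- the extension of a map on the algebraic integers -/
noncomputable def PB_ext {k : Type} [Field k] (ρ : integralClosure ℤ Qb →+* k) (b : Qb) : k := by
  classical
  exact if hb : b ∈ integralClosure ℤ Qb then ρ ⟨b, hb⟩ else 0

theorem PB_ext_eq {k : Type} [Field k] (ρ : integralClosure ℤ Qb →+* k) {b : Qb}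
    (hb : b ∈ integralClosure ℤ Qb) : PB_ext ρ b = ρ ⟨b, hb⟩ := by
  unfold PB_ext
  exact dif_pos hb

theorem PB_int {h : ℤ[X]} (hm : h.Monic) {b : Qb} (hb : b ∈ Rt h) : b ∈ integralClosure ℤ Qb :=
  ⟨h, hm, hb⟩

/-- the factorisation in the field `k` -/
theorem PB_roots {k : Type} [Field k] (ρ : integralClosure ℤ Qb →+* k) {h : ℤ[X]} (hm : h.Monic) :
    (h.map (Int.castRingHom k)).roots = (h.aroots Qb).map (PB_ext ρ) := by
  classical
  have h0 : ∀ b ∈ h.aroots Qb, b ∈ integralClosure ℤ Qb := by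
    intro b hb
    exact PB_int hm (mem_aroots.1 hb).2
  obtain ⟨m, hm1⟩ : ∃ m : Multiset (integralClosure ℤ Qb), m.map Subtype.val = h.aroots Qb := by
    refine ⟨(h.aroots Qb).pmap (fun b hb => ⟨b, hb⟩) h0, ?_⟩
    rw [Multiset.map_pmap, Multiset.pmap_eq_map, Multiset.map_id']
  have h1 : h.map (algebraMap ℤ Qb) = ((h.aroots Qb).map fun b => X - C b).prod := by
    have h2 := (IsAlgClosed.splits (h.map (algebraMap ℤ Qb))).eq_prod_roots_of_monic
      (hm.map (algebraMap ℤ Qb))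
    exact h2
  have h2 : h.map (algebraMap ℤ (integralClosure ℤ Qb)) = (m.map fun b => X - C b).prod := by
    apply Polynomial.map_injective (integralClosure ℤ Qb).val.toRingHom Subtype.val_injective
    rw [Polynomial.map_map, Polynomial.map_multiset_prod, Multiset.map_map]
    have h3 : (integralClosure ℤ Qb).val.toRingHom.comp (algebraMap ℤ (integralClosure ℤ Qb)) =
        algebraMap ℤ Qb := RingHom.ext_int _ _
    rw [h3, h1, ← hm1, Multiset.map_map]
    congr 1
    refine Multiset.map_congr rfl fun b _ => ?_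
    simp
  have h4 : h.map (Int.castRingHom k) = ((m.map fun b => ρ b).map fun b => X - C b).prod := by
    have h5 := congrArg (Polynomial.map ρ) h2
    rw [Polynomial.map_map, Polynomial.map_multiset_prod, Multiset.map_map] at h5
    have h6 : ρ.comp (algebraMap ℤ (integralClosure ℤ Qb)) = Int.castRingHom k :=
      RingHom.ext_int _ _
    rw [h6] at h5
    rw [h5, Multiset.map_map]
    congr 1
    refine Multiset.map_congr rfl fun b _ => ?_
    simp
  rw [h4, roots_multiset_prod_X_sub_C, ← hm1, Multiset.map_map]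
  refine Multiset.map_congr rfl fun b _ => ?_
  show ρ b = PB_ext ρ b.1
  rw [PB_ext_eq ρ b.2]

theorem PB_sigma {h : ℤ[X]} (σ : Qb ≃ₐ[ℚ] Qb) {b : Qb} (hb : b ∈ Rt h) : σ b ∈ Rt h := by
  have h1 : aeval b h = 0 := hb
  show aeval (σ b) h = 0
  have h2 : σ (aeval b h) = aeval (σ b) h := by
    have := (Polynomial.aeval_algHom_apply ((σ : Qb →ₐ[ℚ] Qb).restrictScalars ℤ) b h)
    exact this.symm
  rw [← h2, h1, map_zero]

end PB

open PB in
theorem t_PB (hFROB : S_FROB) : S_PB := by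
  classical
  intro g h l hg hm hdeg hl ⟨a, r, hk, hr, hrd, hra⟩
  have : Fact l.Prime := ⟨hl⟩
  have hh0 : h ≠ 0 := hm.ne_zero
  have hfin : (Rt h).Finite := by
    refine (Polynomial.rootSet_finite h Qb).subset fun b hb => ?_
    exact (Polynomial.mem_rootSet).2 ⟨hh0, hb⟩
  obtain ⟨k, _, _, ρ, σ, hρ⟩ := hFROB l hl (Rt h) hfin fun x hx => PB_int hm hx
  let _ : Algebra (ZMod l) k := ZMod.algebra k l
  have hfr : ∀ b ∈ Rt h, PB_ext ρ (σ b) = PB_ext ρ b ^ l := by
    intro b hb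
    rw [PB_ext_eq ρ (PB_int hm hb), PB_ext_eq ρ (PB_int hm (PB_sigma σ hb))]
    exact hρ b _ _ hb
  have hmap : h.map (Int.castRingHom k) = (red l h).map (algebraMap (ZMod l) k) := by
    unfold red
    rw [Polynomial.map_map]
    congr 1
    exact (RingHom.ext_int _ _)
  have hsep : (red l h).Separable := by
    rw [hk]
    refine Separable.mul (separable_X_sub_C) (PerfectField.separable_of_irreducible hr) ?_
    refine (Irreducible.coprime_iff_not_dvd (irreducible_X_sub_C a)).2 ?_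
    rw [dvd_iff_isRoot]
    exact hra
  have hroots := PB_roots ρ hm
  have hnd : ((h.aroots Qb).map (PB_ext ρ)).Nodup := by
    rw [← hroots, hmap]
    exact nodup_roots (hsep.map)
  have hinj : ∀ b ∈ Rt h, ∀ b' ∈ Rt h, PB_ext ρ b = PB_ext ρ b' → b = b' := by
    intro b hb b' hb' he
    exact Multiset.inj_on_of_nodup_map hnd b (mem_aroots.2 ⟨hh0, hb⟩) b'
      (mem_aroots.2 ⟨hh0, hb'⟩) he
  have hkne : h.map (Int.castRingHom k) ≠ 0 := (hm.map _).ne_zero
  have hval : ∀ z : k, (h.map (Int.castRingHom k)).eval z =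
      (z - algebraMap (ZMod l) k a) * aeval z r := by
    intro z
    rw [hmap, hk, Polynomial.map_mul, eval_mul]
    simp [aeval_def, eval_map]
  have hrt : ∀ b ∈ Rt h, PB_ext ρ b = algebraMap (ZMod l) k a ∨ aeval (PB_ext ρ b) r = 0 := by
    intro b hb
    have h1 : PB_ext ρ b ∈ (h.map (Int.castRingHom k)).roots := by
      rw [hroots]
      exact Multiset.mem_map_of_mem _ (mem_aroots.2 ⟨hh0, hb⟩)
    have h2 := (mem_roots'.1 h1).2
    rw [IsRoot, hval, mul_eq_zero, sub_eq_zero] at h2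
    exact h2
  obtain ⟨b₀, hb₀, hb₀a⟩ : ∃ b ∈ Rt h, PB_ext ρ b = algebraMap (ZMod l) k a := by
    have h1 : algebraMap (ZMod l) k a ∈ (h.map (Int.castRingHom k)).roots := by
      rw [mem_roots hkne, IsRoot, hval, sub_self, zero_mul]
    rw [hroots, Multiset.mem_map] at h1
    obtain ⟨b, hb, hb'⟩ := h1
    exact ⟨b, (mem_aroots.1 hb).2, hb'⟩
  have hpow : ∀ n : ℕ, ∀ b ∈ Rt h, (σ ^ n) b ∈ Rt h ∧ PB_ext ρ ((σ ^ n) b) = PB_ext ρ b ^ l ^ n := by
    intro n
    induction n with
    | zero =>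
      intro b hb
      exact ⟨hb, by rw [pow_zero, pow_zero, pow_one]; rfl⟩
    | succ n ih =>
      intro b hb
      obtain ⟨h1, h2⟩ := ih b hb
      have h3 : (σ ^ (n + 1)) b = σ ((σ ^ n) b) := by
        rw [pow_succ']
        rfl
      rw [h3]
      refine ⟨PB_sigma σ h1, ?_⟩
      rw [hfr _ h1, h2, ← pow_mul, ← pow_succ]
  refine ⟨σ, b₀, hb₀, ?_, ?_⟩
  · apply hinj _ (PB_sigma σ hb₀) _ hb₀
    rw [hfr _ hb₀, hb₀a, ← map_pow, ZMod.pow_card]
  · intro b hb b' hb' hne hne'
    have h1 : aeval (PB_ext ρ b) r = 0 := (hrt b hb).resolve_left fun h1 =>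
      hne (hinj _ hb _ hb₀ (h1.trans hb₀a.symm))
    have h2 : aeval (PB_ext ρ b') r = 0 := (hrt b' hb').resolve_left fun h1 =>
      hne' (hinj _ hb' _ hb₀ (h1.trans hb₀a.symm))
    obtain ⟨n, hn⟩ := PB_conj hr h1 h2
    refine ⟨n, hinj _ (hpow n b hb).1 _ hb' ?_⟩
    rw [(hpow n b hb).2, hn]

end Pool.Agent.TJ2
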