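import Pool.Agent.TJ2.CDefs
import Pool.Agent.TJ2.Stmts2

/-!
# Theorem J2: Tate classes on products of almost all abelian varieties (helper2)

For MP_3af9db_ag and MP_cb388a_ag.  `X` a product of abelian varieties `A_1, ..., A_m` over the field
with `q` elements, `H^*(X) = Λ^* V`, `V = ⊕ V_i`, `V_i = H^1 (A_i)`, `F` the Frobenius; the Weil
polynomial of `A_i` is `weil q (h i)`, `h i ∈ Sel q` (repetitions are allowed).  Then all Tate
classes are polynomials in the degree 2 classes fixed by `F ^ 2` (twisted), which are combinations of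
divisor classes over the field with `q ^ 2` elements by Tate's theorem.
-/

open Polynomial IntermediateField

namespace Pool.Agent.TJ2

noncomputable section

section

variable {K : Type} [Field K] {V : Type} [AddCommGroup V] [Module K V]

/-- the degree 2 elements `y` of the exterior algebra with `F² y = c² y` -/
def Deg2 (F : V →ₗ[K] V) (c : K) : Set (ExteriorAlgebra K V) :=
  {y | y ∈ ⋀[K]^2 V ∧ ExteriorAlgebra.map (F ∘ₗ F) y = c ^ 2 • y}

end

/-- Linear algebra: an eigenvector of degree `n` in the exterior algebra is a combination of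
products of `n` eigenvectors of a spanning set `E` of eigenvectors (`lam e` the eigenvalue of `e`),
with product of the eigenvalues the given one. -/
def S_JA : Prop :=
  ∀ (K V : Type) [Field K] [AddCommGroup V] [Module K V] (F : V →ₗ[K] V) (E : Set V)
    (lam : V → K), (∀ e ∈ E, F e = lam e • e) → Submodule.span K E = ⊤ →
    ∀ (n : ℕ) (x : ExteriorAlgebra K V) (c : K), x ∈ ⋀[K]^n V →
      ExteriorAlgebra.map F x = c • x →
      x ∈ Submodule.span K {w | ∃ l : List V, l.length = n ∧ (∀ e ∈ l, e ∈ E) ∧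
        (l.map lam).prod = c ∧ w = (l.map (ExteriorAlgebra.ι K)).prod}

/-- Matching: `E` a set of eigenvectors such that in each list of at least two elements of `E` whose
product of eigenvalues is `± c ^ j` the first one has a partner with product `± c`.  Then products
of `2 j` elements of `E` with product of eigenvalues `± c ^ j` are polynomials in `Deg2 F c`. -/
def S_JB : Prop :=
  ∀ (K V : Type) [Field K] [AddCommGroup V] [Module K V] (F : V →ₗ[K] V) (E : Set V)
    (lam : V → K) (c : K), c ≠ 0 → (∀ e ∈ E, F e = lam e • e) →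
    (∀ (e : V) (l : List V) (j : ℕ), e ∈ E → (∀ e' ∈ l, e' ∈ E) →
      (lam e * (l.map lam).prod) ^ 2 = (c ^ j) ^ 2 → l.length + 1 = 2 * j →
      ∃ e' ∈ l, (lam e * lam e') ^ 2 = c ^ 2) →
    ∀ (l : List V) (j : ℕ), (∀ e ∈ l, e ∈ E) → l.length = 2 * j →
      ((l.map lam).prod) ^ 2 = (c ^ j) ^ 2 →
      (l.map (ExteriorAlgebra.ι K)).prod ∈ Algebra.adjoin K (Deg2 F c)

/-- Independence with twists: in a list of pairs `(h, a)`, `h ∈ Sel q`, `a ∈ Om q h`, with
`(∏ a) ^ 2` a power of `q` the first element has a partner at another place with product `± q`. -/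
def S_JC : Prop :=
  ∀ (q : ℕ), IsPrimePow q → ∀ (x : ℤ[X] × Qb) (l : List (ℤ[X] × Qb)), x.1 ∈ Sel q →
    x.2 ∈ Om q x.1 → (∀ y ∈ l, y.1 ∈ Sel q ∧ y.2 ∈ Om q y.1) → ∀ k : ℤ,
    (x.2 * (l.map Prod.snd).prod) ^ 2 = (q : Qb) ^ k →
    ∃ y ∈ l, (x.2 * y.2) ^ 2 = (q : Qb) ^ 2

/-- The theorem on Tate classes. -/
def S_JD : Prop :=
  ∀ (q : ℕ), IsPrimePow q → ∀ (K : Type) [Field K] [IsAlgClosed K] [CharZero K] (m : ℕ)
    (h : Fin m → ℤ[X]) (V : Fin m → Type) [∀ i, AddCommGroup (V i)] [∀ i, Module K (V i)]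
    [∀ i, Module.Finite K (V i)] (F : ∀ i, V i →ₗ[K] V i), (∀ i, h i ∈ Sel q) →
    (∀ i, (F i).charpoly = (weil q (h i)).map (Int.castRingHom K)) →
    ∀ (j : ℕ) (x : ExteriorAlgebra K (∀ i, V i)), x ∈ ⋀[K]^(2 * j) (∀ i, V i) →
      ExteriorAlgebra.map (LinearMap.piMap F) x = (q : K) ^ j • x →
      x ∈ Algebra.adjoin K (Deg2 (LinearMap.piMap F) (q : K))

end

end Pool.Agent.TJ2
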