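import Pool.Agent.TJ2.Stmts4

/-!
# Theorem J2 for one space `V = H^1 (X)`, over an arbitrary field of characteristic 0 (helper2)
-/

open Polynomial IntermediateField

namespace Pool.Agent.TJ2

noncomputable section

/-- The theorem on Tate classes over an algebraically closed field of characteristic 0: `V` is the
first cohomology of an abelian variety `X` isogenous to a product of abelian varieties with Weil
polynomials `weil q (h i)`, `h i ∈ Sel q`, and `F` the Frobenius. -/
def S_JG : Prop :=
  ∀ (q : ℕ), IsPrimePow q → ∀ (K : Type) [Field K] [IsAlgClosed K] [CharZero K] (V : Type)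
    [AddCommGroup V] [Module K V] [Module.Finite K V] (F : Module.End K V) (m : ℕ)
    (h : Fin m → ℤ[X]), (∀ i, h i ∈ Sel q) → F.IsSemisimple →
    F.charpoly = ∏ i, (weil q (h i)).map (Int.castRingHom K) →
    ∀ (j : ℕ) (x : ExteriorAlgebra K V), x ∈ ⋀[K]^(2 * j) V →
      ExteriorAlgebra.map F x = (q : K) ^ j • x → x ∈ Algebra.adjoin K (Deg2 F (q : K))

/-- Descent: if for the extension of scalars to `L` all eigenvectors of degree `n` and eigenvalue
`r` are in the subalgebra generated by `Deg2`, then so are those over `K`. -/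
def S_JF : Prop :=
  ∀ (K L V : Type) [Field K] [Field L] [Algebra K L] [CharZero K] [AddCommGroup V] [Module K V]
    [Module.Finite K V] (F : V →ₗ[K] V) (n : ℕ) (c r : K),
    (∀ x : ExteriorAlgebra L (TensorProduct K L V), x ∈ ⋀[L]^n (TensorProduct K L V) →
      ExteriorAlgebra.map (F.baseChange L) x = algebraMap K L r • x →
      x ∈ Algebra.adjoin L (Deg2 (F.baseChange L) (algebraMap K L c))) →
    ∀ x : ExteriorAlgebra K V, x ∈ ⋀[K]^n V → ExteriorAlgebra.map F x = r • x →
      x ∈ Algebra.adjoin K (Deg2 F c)

/-- The theorem on Tate classes over an arbitrary field of characteristic 0 (for instance the field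
of `l`-adic numbers). -/
def S_JH : Prop :=
  ∀ (q : ℕ), IsPrimePow q → ∀ (K : Type) [Field K] [CharZero K] (V : Type)
    [AddCommGroup V] [Module K V] [Module.Finite K V] (F : Module.End K V) (m : ℕ)
    (h : Fin m → ℤ[X]), (∀ i, h i ∈ Sel q) → F.IsSemisimple →
    F.charpoly = ∏ i, (weil q (h i)).map (Int.castRingHom K) →
    ∀ (j : ℕ) (x : ExteriorAlgebra K V), x ∈ ⋀[K]^(2 * j) V →
      ExteriorAlgebra.map F x = (q : K) ^ j • x → x ∈ Algebra.adjoin K (Deg2 F (q : K))

end

end Pool.Agent.TJ2
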