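import Pool.Agent.TJ2.Stmts
import Pool.Agent.TJ2.Stmts2

/-!
# Theorem J, module THE (helper83): the quotients of a partner have a small common denominator

Paper (2.6), with the lemma of Gauss in place of ideals: `P = ∏ (X - y_b)` over the roots `b` of `h`
is rational, and `delta P ^ 2` is integral; so `m ^ 2 ∣ delta`, `m` the denominator of `P`.
-/

open Polynomial IntermediateField

namespace Pool.Agent.TJ2

noncomputable section

private lemma THE_gauss (P0 : ℚ[X]) (hP0 : P0.Monic) (δ : ℤ) (R0 : ℤ[X])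
    (hR0 : R0.map (Int.castRingHom ℚ) = C (δ : ℚ) * P0 ^ 2) :
    ∃ Q : ℤ[X], Q.leadingCoeff ≠ 0 ∧ Q.leadingCoeff ^ 2 ∣ δ ∧
      Q.map (Int.castRingHom ℚ) = C (Q.leadingCoeff : ℚ) * P0 := by
  have hinj : Function.Injective (Int.castRingHom ℚ) := RingHom.injective_int _
  obtain ⟨b, hb0, hb⟩ := IsLocalization.integerNormalization_spec (nonZeroDivisors ℤ) P0
  set N := IsLocalization.integerNormalization (nonZeroDivisors ℤ) P0 with hNdef
  have hb' : N.map (Int.castRingHom ℚ) = C (b : ℚ) * P0 := by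
    have : (algebraMap ℤ ℚ) = Int.castRingHom ℚ := rfl
    rw [← this, hb, ← Int.cast_smul_eq_zsmul ℚ, smul_eq_C_mul]
  have hbne : (b : ℚ) ≠ 0 := by
    exact_mod_cast nonZeroDivisors.ne_zero hb0
  have hN0 : N ≠ 0 := by
    intro h
    rw [h, Polynomial.map_zero] at hb'
    have := hb'.symm
    rw [mul_eq_zero] at this
    rcases this with h1 | h1
    · exact hbne (C_eq_zero.1 h1)
    · exact hP0.ne_zero h1
  have hQ : N = C N.content * N.primPart := eq_C_content_mul_primPart N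
  have hc : N.content ≠ 0 := fun h => hN0 (content_eq_zero_iff.1 h)
  have hQp : N.primPart.IsPrimitive := isPrimitive_primPart N
  have hQ0 : N.primPart ≠ 0 := hQp.ne_zero
  have hcq : (N.content : ℚ) ≠ 0 := by exact_mod_cast hc
  have h1 : C (N.content : ℚ) * N.primPart.map (Int.castRingHom ℚ) = C (b : ℚ) * P0 := by
    rw [← hb']
    conv_rhs => rw [hQ]
    rw [Polynomial.map_mul, map_C]
    rfl
  have h2 : (N.content : ℚ) * (N.primPart.leadingCoeff : ℚ) = b := by
    have := congrArg leadingCoeff h1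
    rw [leadingCoeff_mul, leadingCoeff_C, leadingCoeff_map_of_injective hinj, leadingCoeff_mul,
      leadingCoeff_C, hP0.leadingCoeff, mul_one] at this
    exact this
  have hmap : N.primPart.map (Int.castRingHom ℚ) = C (N.primPart.leadingCoeff : ℚ) * P0 := by
    rw [← h2, C_mul, mul_assoc] at h1
    exact mul_left_cancel₀ (C_ne_zero.2 hcq) h1
  refine ⟨N.primPart, leadingCoeff_ne_zero.2 hQ0, ?_, hmap⟩
  have h3 : C (N.primPart.leadingCoeff ^ 2) * R0 = C δ * N.primPart ^ 2 := by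
    apply Polynomial.map_injective _ hinj
    rw [Polynomial.map_mul, Polynomial.map_mul, map_C, map_C, hR0, Polynomial.map_pow, hmap]
    simp only [eq_intCast, map_pow]
    ring
  have h4 := congrArg content h3
  rw [content_C_mul, content_C_mul] at h4
  have h5 : (N.primPart ^ 2).content = 1 := by
    rw [pow_two]
    exact (hQp.mul hQp).content_eq_one
  rw [h5, mul_one] at h4
  have h6 : N.primPart.leadingCoeff ^ 2 ∣ normalize δ := by
    rw [← h4]
    exact (normalize_associated _).symm.dvd.trans (dvd_mul_right _ _)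
  exact h6.trans (normalize_associated δ).dvd

private lemma THE_aeval (ι : Qb →+* ℂ) (h : ℤ[X]) (y : Qb) (hy : aeval y h = 0) :
    aeval (ι y) h = 0 := by
  have h1 : aeval (ι y) h = ι (aeval y h) := by
    rw [aeval_def, aeval_def, hom_eval₂]
    congr 1
    exact Subsingleton.elim _ _
  rw [h1, hy, map_zero]

private lemma THE_norm (u : ℂ) :
    ‖u - (starRingEnd ℂ) u‖ ^ 2 = 4 * ‖u‖ ^ 2 - ((u + (starRingEnd ℂ) u).re) ^ 2 := by
  rw [Complex.sq_norm, Complex.sq_norm, Complex.normSq_apply, Complex.normSq_apply]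
  simp
  ring

/-- the quotient `y` -/
private def THE_y (q : ℕ) (φ : Qb → Qb) (x : Qb) : Qb :=
  (φ x - (q : Qb) / φ x) / (x - (q : Qb) / x)

theorem t_THE (hSTAB : S_STAB) (hEMB : S_EMB) (hOMB : S_OMB) (hDEL : S_DEL) : S_THE := by
  classical
  intro g q T ε h h' φ hg hq hε hε1 hO hF hT2 hT3 hh' hbij hφσ hφq
  have hq1 : 1 ≤ q := hq.one_lt.le
  have hq0 : (q : Qb) ≠ 0 := by exact_mod_cast (by omega : q ≠ 0)
  have hRW : h ∈ RW g q := hO.1
  have hmon : h.Monic := hRW.1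
  have hdeg : h.natDegree = g := hRW.2.1
  have hcard : (Om q h).ncard = 2 * g := by rw [hF.1, hdeg]
  obtain ⟨hfin, hOm, hOmσ, hRtOm, hnc⟩ := hOMB g q h hq1 hmon hdeg
  obtain ⟨hne, hRtc, hnd⟩ := hnc hcard
  obtain ⟨hfin', hOm', -, -, -⟩ := hOMB h'.natDegree q h' hq1 hh'.2.1.1.1 rfl
  have hx0 : ∀ x ∈ Om q h, x ≠ 0 := fun x hx => hx.1
  have hφmem : ∀ x ∈ Om q h, φ x ∈ Om q h' := fun x hx => hbij.mapsTo hx
  have hφ0 : ∀ x ∈ Om q h, φ x ≠ 0 := fun x hx => (hφmem x hx).1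
  have hxq : ∀ x ∈ Om q h, x - (q : Qb) / x ≠ 0 := fun x hx => sub_ne_zero.2 (hne x hx)
  -- the quotient is the same for `q / x`
  have hyq : ∀ x ∈ Om q h, THE_y q φ ((q : Qb) / x) = THE_y q φ x := by
    intro x hx
    have e1 := hx0 x hx
    have e2 := hφ0 x hx
    unfold THE_y
    rw [hφq x hx, div_div_cancel₀ hq0, div_div_cancel₀ hq0, ← neg_sub, ← neg_sub x, neg_div_neg_eq]
  have hyσ : ∀ σ : Qb ≃ₐ[ℚ] Qb, ∀ x ∈ Om q h, σ (THE_y q φ x) = THE_y q φ (σ x) := by
    intro σ x hx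
    unfold THE_y
    rw [hφσ σ x hx, map_div₀, map_sub, map_sub, map_div₀, map_div₀, map_natCast]
  -- representatives
  have hrep : ∀ b : Qb, ∃ x : Qb, b ∈ Rt h → x ∈ Om q h ∧ x + (q : Qb) / x = b := by
    intro b
    by_cases hb : b ∈ Rt h
    · obtain ⟨x, hx, hxb⟩ := hRtOm b hb
      exact ⟨x, fun _ => ⟨hx, hxb⟩⟩
    · exact ⟨0, fun h => absurd h hb⟩
  choose r hr using hrep
  set Y : Qb → Qb := fun b => THE_y q φ (r b) with hYdef
  have hYx : ∀ x ∈ Om q h, Y (x + (q : Qb) / x) = THE_y q φ x := by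
    intro x hx
    have hb : x + (q : Qb) / x ∈ Rt h := (hOm x hx).2.2
    obtain ⟨h1, h2⟩ := hr _ hb
    set x' := r (x + (q : Qb) / x) with hx'
    have hx'0 := hx0 x' h1
    have hx00 := hx0 x hx
    have h3 : (x' - x) * (x' - (q : Qb) / x) = 0 := by
      have h4 : x' * (x' + (q : Qb) / x') = x' * (x + (q : Qb) / x) := by rw [h2]
      have h5 : x' * x' + (q : Qb) = x' * x + x' * ((q : Qb) / x) := by
        rw [mul_add, mul_div_cancel₀ _ hx'0] at h4
        rw [h4, mul_add]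
      have h6 : x * ((q : Qb) / x) = (q : Qb) := mul_div_cancel₀ _ hx00
      linear_combination h5 + h6
    rcases mul_eq_zero.1 h3 with h4 | h4
    · have : x' = x := sub_eq_zero.1 h4
      show THE_y q φ x' = _
      rw [this]
    · have : x' = (q : Qb) / x := sub_eq_zero.1 h4
      show THE_y q φ x' = _
      rw [this, hyq x hx]
  set S : Finset Qb := (h.aroots Qb).toFinset with hS
  have hSmem : ∀ b, b ∈ S ↔ b ∈ Rt h := by
    intro b
    rw [hS, Multiset.mem_toFinset, mem_aroots]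
    exact ⟨fun hb => hb.2, fun hb => ⟨hmon.ne_zero, hb⟩⟩
  have hSprod : ∀ {M : Type} [CommMonoid M] (f : Qb → M),
      ∏ b ∈ S, f b = ((h.aroots Qb).map f).prod := by
    intro M _ f
    rw [Finset.prod_eq_multiset_prod, hS, Multiset.toFinset_val, hnd.dedup]
  have hRtσ : ∀ σ : Qb ≃ₐ[ℚ] Qb, ∀ b ∈ Rt h, σ b ∈ Rt h := by
    intro σ b hb
    obtain ⟨x, hx, rfl⟩ := hRtOm b hb
    have := (hOm (σ x) (hOmσ x hx σ)).2.2
    rw [map_add, map_div₀, map_natCast]
    exact this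
  have hYσ : ∀ σ : Qb ≃ₐ[ℚ] Qb, ∀ b ∈ Rt h, σ (Y b) = Y (σ b) := by
    intro σ b hb
    obtain ⟨x, hx, rfl⟩ := hRtOm b hb
    rw [hYx x hx, hyσ σ x hx, ← hYx (σ x) (hOmσ x hx σ), map_add, map_div₀, map_natCast]
  -- the polynomial
  set P : Qb[X] := ∏ b ∈ S, (X - C (Y b)) with hP
  have hPmon : P.Monic := monic_prod_of_monic _ _ (fun b _ => monic_X_sub_C _)
  have hPσ : ∀ σ : Qb ≃ₐ[ℚ] Qb, P.map (σ : Qb →+* Qb) = P := by
    intro σ
    rw [hP, Polynomial.map_prod]
    refine Finset.prod_nbij' (fun b => σ b) (fun b => σ.symm b) ?_ ?_ ?_ ?_ ?_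
    · intro b hb
      exact (hSmem _).2 (hRtσ σ b ((hSmem b).1 hb))
    · intro b hb
      exact (hSmem _).2 (hRtσ σ.symm b ((hSmem b).1 hb))
    · intro b _
      exact σ.symm_apply_apply b
    · intro b _
      exact σ.apply_symm_apply b
    · intro b hb
      rw [Polynomial.map_sub, map_X, map_C]
      have := hYσ σ b ((hSmem b).1 hb)
      rw [← this]
      rfl
  have hPlift : P ∈ lifts (algebraMap ℚ Qb) := by
    rw [lifts_iff_coeff_lifts]
    intro n
    have h1 : P.coeff n ∈ ℚ⟮(0 : Qb)⟯ := by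
      apply hSTAB
      intro σ _
      have := congrArg (fun p => p.coeff n) (hPσ σ)
      simp only [coeff_map] at this
      exact this
    rw [IntermediateField.adjoin_zero, IntermediateField.mem_bot] at h1
    exact h1
  obtain ⟨P0, hP0⟩ := (mem_lifts P).1 hPlift
  have hP0mon : P0.Monic := by
    have : (P0.map (algebraMap ℚ Qb)).Monic := by rw [hP0]; exact hPmon
    exact (Function.Injective.monic_map_iff (algebraMap ℚ Qb).injective).2 this
  -- integrality
  have hInt : ∀ x ∈ Om q h, IsIntegral ℤ (x - (q : Qb) / x) := fun x hx =>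
    (hOm x hx).2.1.sub (hOm _ (hOm x hx).1).2.1
  have hInt' : ∀ x ∈ Om q h', IsIntegral ℤ (x - (q : Qb) / x) := fun x hx =>
    (hOm' x hx).2.1.sub (hOm' _ (hOm' x hx).1).2.1
  have hCl : ∀ a : Qb, IsIntegral ℤ a → C a ∈ lifts (algebraMap (integralClosure ℤ Qb) Qb) :=
    fun a ha => C_mem_lifts (algebraMap (integralClosure ℤ Qb) Qb) ⟨a, ha⟩
  have hdelta : (delta q h : Qb) = ∏ b ∈ S, (b ^ 2 - 4 * (q : Qb)) := by
    rw [hSprod]
    exact (hDEL q h hmon).2.2.2
  have hR : C (delta q h : Qb) * P ^ 2 = ∏ b ∈ S,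
      (C ((r b - (q : Qb) / r b) ^ 2) * X ^ 2 -
        C (2 * ((r b - (q : Qb) / r b) * (φ (r b) - (q : Qb) / φ (r b)))) * X +
        C ((φ (r b) - (q : Qb) / φ (r b)) ^ 2)) := by
    rw [hdelta, map_prod, hP, ← Finset.prod_pow, ← Finset.prod_mul_distrib]
    apply Finset.prod_congr rfl
    intro b hb
    obtain ⟨h1, h2⟩ := hr b ((hSmem b).1 hb)
    have h3 : b ^ 2 - 4 * (q : Qb) = (r b - (q : Qb) / r b) ^ 2 := by
      have h4 : r b * ((q : Qb) / r b) = (q : Qb) := mul_div_cancel₀ _ (hx0 _ h1)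
      conv_lhs => rw [← h2]
      linear_combination (4 : Qb) * h4
    have h5 : φ (r b) - (q : Qb) / φ (r b) = (r b - (q : Qb) / r b) * Y b := by
      show _ = _ * THE_y q φ (r b)
      unfold THE_y
      rw [mul_div_cancel₀ _ (hxq _ h1)]
    rw [h3, h5]
    simp only [map_pow, map_mul, C_ofNat]
    ring
  have hRl : C (delta q h : Qb) * P ^ 2 ∈ lifts (algebraMap (integralClosure ℤ Qb) Qb) := by
    rw [hR]
    apply Subsemiring.prod_mem
    intro b hb
    obtain ⟨h1, h2⟩ := hr b ((hSmem b).1 hb)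
    have i1 := hInt _ h1
    have i2 := hInt' _ (hφmem _ h1)
    have e : (C ((r b - (q : Qb) / r b) ^ 2) * X ^ 2 -
        C (2 * ((r b - (q : Qb) / r b) * (φ (r b) - (q : Qb) / φ (r b)))) * X +
        C ((φ (r b) - (q : Qb) / φ (r b)) ^ 2) : Qb[X]) =
        C ((r b - (q : Qb) / r b) ^ 2) * X ^ 2 +
        C (-(2 * ((r b - (q : Qb) / r b) * (φ (r b) - (q : Qb) / φ (r b))))) * X +
        C ((φ (r b) - (q : Qb) / φ (r b)) ^ 2) := by
      rw [C_neg]; ring
    rw [e]
    have two : IsIntegral ℤ (2 : Qb) := by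
      have := isIntegral_algebraMap (R := ℤ) (A := Qb) (x := 2)
      simpa using this
    refine Subsemiring.add_mem _ (Subsemiring.add_mem _ (Subsemiring.mul_mem _ (hCl _ (i1.pow 2))
      (X_pow_mem_lifts _ 2)) (Subsemiring.mul_mem _ (hCl _ (two.mul (i1.mul i2)).neg)
      (X_mem_lifts _))) (hCl _ (i2.pow 2))
  have hRQ : C (delta q h : ℚ) * P0 ^ 2 ∈ lifts (Int.castRingHom ℚ) := by
    rw [lifts_iff_coeff_lifts]
    intro n
    have h1 := (lifts_iff_coeff_lifts _).1 hRl n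
    obtain ⟨a, ha⟩ := h1
    have h2 : IsIntegral ℤ ((C (delta q h : Qb) * P ^ 2).coeff n) := by
      rw [← ha]; exact a.2
    have h3 : (C (delta q h : Qb) * P ^ 2).coeff n =
        algebraMap ℚ Qb ((C (delta q h : ℚ) * P0 ^ 2).coeff n) := by
      have e0 : (algebraMap ℚ Qb) ((delta q h : ℤ) : ℚ) = ((delta q h : ℤ) : Qb) := map_intCast _ _
      rw [← coeff_map, Polynomial.map_mul, Polynomial.map_pow, hP0, map_C, e0]
    rw [h3] at h2
    have h4 : IsIntegral ℤ ((C (delta q h : ℚ) * P0 ^ 2).coeff n) :=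
      (isIntegral_algebraMap_iff (algebraMap ℚ Qb).injective).1 h2
    obtain ⟨z, hz⟩ := IsIntegrallyClosed.isIntegral_iff.1 h4
    exact ⟨z, hz⟩
  obtain ⟨R0, hR0⟩ := (mem_lifts _).1 hRQ
  obtain ⟨Q, hQ0, hQd, hQm⟩ := THE_gauss P0 hP0mon (delta q h) R0 hR0
  have hm1 : 1 ≤ Q.leadingCoeff.natAbs := Int.natAbs_pos.2 hQ0
  have hmT : Q.leadingCoeff.natAbs ≤ T := by
    by_contra hcon
    push Not at hcon
    exact hT3 ⟨hO, _, hcon, by rw [Int.natAbs_sq]; exact hQd⟩
  refine ⟨Q.leadingCoeff.natAbs, hm1, hmT, ?_⟩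
  intro x hx
  have hxR : x + (q : Qb) / x ∈ Rt h := (hOm x hx).2.2
  constructor
  · have h1 : aeval (THE_y q φ x) Q = 0 := by
      have h2 : Q.map (algebraMap ℤ Qb) = C (Q.leadingCoeff : Qb) * P := by
        have h3 : (algebraMap ℤ Qb) = (algebraMap ℚ Qb).comp (Int.castRingHom ℚ) :=
          Subsingleton.elim _ _
        have e0 : (algebraMap ℚ Qb) ((Q.leadingCoeff : ℤ) : ℚ) = ((Q.leadingCoeff : ℤ) : Qb) :=
          map_intCast _ _
        rw [h3, ← Polynomial.map_map, hQm, Polynomial.map_mul, hP0, map_C, e0]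
      rw [aeval_def, eval₂_eq_eval_map, h2, eval_mul, hP, eval_prod]
      rw [Finset.prod_eq_zero ((hSmem _).2 hxR), mul_zero]
      rw [hYx x hx]
      simp
    have h2 := isIntegral_leadingCoeff_smul Q (THE_y q φ x) h1
    rw [zsmul_eq_mul] at h2
    show IsIntegral ℤ ((Q.leadingCoeff.natAbs : Qb) * THE_y q φ x)
    rcases Int.natAbs_eq Q.leadingCoeff with h3 | h3
    · have h4 : ((Q.leadingCoeff.natAbs : ℕ) : Qb) = (Q.leadingCoeff : Qb) := by
        have h5 := congrArg (fun z : ℤ => (z : Qb)) h3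
        simp only [Int.cast_natCast] at h5
        exact h5.symm
      rw [h4]; exact h2
    · have h4 : ((Q.leadingCoeff.natAbs : ℕ) : Qb) = -(Q.leadingCoeff : Qb) := by
        have h5 := congrArg (fun z : ℤ => (z : Qb)) h3
        simp only [Int.cast_neg, Int.cast_natCast] at h5
        rw [h5, neg_neg]
      rw [h4, neg_mul]; exact h2.neg
  · intro ι
    obtain ⟨e1, e2, -, -⟩ := hEMB g q h hq1 hRW x hx ι
    obtain ⟨f1, f2, -, -⟩ := hEMB h'.natDegree q h' hq1 hh'.2.1.1 (φ x) (hφmem x hx) ι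
    have hs0 : 0 ≤ Real.sqrt q := Real.sqrt_nonneg _
    have hss : Real.sqrt q ^ 2 = q := Real.sq_sqrt (Nat.cast_nonneg _)
    have hqpos : (0 : ℝ) < q := by exact_mod_cast (by omega : 0 < q)
    have hden : 2 * ε * q ≤ ‖ι (x - (q : Qb) / x)‖ ^ 2 := by
      rw [map_sub, e2, THE_norm, e1]
      have h1 : ¬ ((2 - ε) * Real.sqrt q < |(ι (x + (q : Qb) / x)).re|) := by
        intro hlt
        exact hT2 ⟨hRW, ι (x + (q : Qb) / x), THE_aeval ι h _ hxR, hlt⟩
      push Not at h1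
      rw [map_add, e2] at h1
      have h2 : ((ι x + (starRingEnd ℂ) (ι x)).re) ^ 2 ≤ ((2 - ε) * Real.sqrt q) ^ 2 := by
        rw [← sq_abs]
        exact pow_le_pow_left₀ (abs_nonneg _) h1 2
      rw [mul_pow, hss] at h2
      nlinarith [mul_pos hε hqpos, mul_pos (mul_pos hε hqpos) (sub_pos.2 hε1)]
    have hnum : ‖ι (φ x - (q : Qb) / φ x)‖ ^ 2 ≤ 4 * q := by
      rw [map_sub, f2, THE_norm, f1]
      nlinarith [sq_nonneg ((ι (φ x) + (starRingEnd ℂ) (ι (φ x))).re)]
    have hdpos : 0 < ‖ι (x - (q : Qb) / x)‖ := by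
      rw [norm_pos_iff]
      intro h0
      exact hxq x hx ((map_eq_zero ι).1 h0)
    have hratio : ‖ι (φ x - (q : Qb) / φ x)‖ / ‖ι (x - (q : Qb) / x)‖ ≤ Real.sqrt (2 / ε) := by
      apply Real.le_sqrt_of_sq_le
      rw [div_pow, div_le_div_iff₀ (by positivity) hε]
      nlinarith [mul_le_mul_of_nonneg_left hnum hε.le, mul_le_mul_of_nonneg_left hden hε.le]
    rw [map_mul, map_natCast, map_div₀, norm_mul, norm_div, Complex.norm_natCast]
    apply mul_le_mul (by exact_mod_cast hmT) hratio (by positivity) (by positivity)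

end

end Pool.Agent.TJ2
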